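import Pool.Agent.RZ.Gr1

/-!
V2: semicontinuity of the mass of balls under vague convergence, and supports.
Test functions between the indicator functions of concentric balls.
-/

set_option autoImplicit false

open MeasureTheory Filter Topology Metric Set
open scoped RealInnerProductSpace ENNReal

namespace Pool.Agent.RZ

variable {d : ℕ}

/-- trapezoidal test function: `1` on `closedBall x r`, `0` outside `ball x (r + s)` -/
private noncomputable def V2_f (x : X d) (r s : ℝ) (y : X d) : ℝ :=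
  max 0 (min 1 ((r + s - ‖y - x‖) / s))

private theorem V2_f_cont (x : X d) (r s : ℝ) : Continuous (V2_f x r s) := by
  unfold V2_f
  fun_prop

private theorem V2_f_nonneg (x : X d) (r s : ℝ) (y : X d) : 0 ≤ V2_f x r s y := by
  unfold V2_f
  exact le_max_left _ _

private theorem V2_f_le_one (x : X d) (r s : ℝ) (y : X d) : V2_f x r s y ≤ 1 := by
  unfold V2_f
  exact max_le zero_le_one (min_le_left _ _)

private theorem V2_f_one {x : X d} {r s : ℝ} (hs : 0 < s) {y : X d} (hy : ‖y - x‖ ≤ r) :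
    V2_f x r s y = 1 := by
  unfold V2_f
  have h1 : 1 ≤ (r + s - ‖y - x‖) / s := by
    rw [le_div_iff₀ hs]
    linarith
  rw [min_eq_left h1]
  exact max_eq_right zero_le_one

private theorem V2_f_zero {x : X d} {r s : ℝ} (hs : 0 < s) {y : X d} (hy : r + s ≤ ‖y - x‖) :
    V2_f x r s y = 0 := by
  unfold V2_f
  have h1 : (r + s - ‖y - x‖) / s ≤ 0 := by
    apply div_nonpos_of_nonpos_of_nonneg _ hs.le
    linarith
  apply max_eq_left
  exact (min_le_right _ _).trans h1

private theorem V2_f_supp {x : X d} {r s : ℝ} (hs : 0 < s) : HasCompactSupport (V2_f x r s) := by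
  apply HasCompactSupport.intro (isCompact_closedBall x (r + s))
  intro y hy
  apply V2_f_zero hs
  rw [mem_closedBall, dist_eq_norm] at hy
  exact (not_le.1 hy).le

private theorem V2_f_int {n : ℕ} {C : ℝ} {ν : Measure (X d)} (h : Gr n C ν) (x : X d) (r : ℝ)
    {s : ℝ} (hs : 0 < s) : Integrable (V2_f x r s) ν := by
  have := h.isLocallyFinite
  exact (V2_f_cont x r s).integrable_of_hasCompactSupport (V2_f_supp hs)

private theorem V2_f_ge {n : ℕ} {C : ℝ} {ν : Measure (X d)} (h : Gr n C ν) (x : X d) (r : ℝ)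
    {s : ℝ} (hs : 0 < s) : ν.real (closedBall x r) ≤ ∫ y, V2_f x r s y ∂ν := by
  have hfin : ν (closedBall x r) ≠ ⊤ := (h.finite x r).ne
  have hmeas : MeasurableSet (closedBall x r) := isClosed_closedBall.measurableSet
  have e : ν.real (closedBall x r) = ∫ y, (closedBall x r).indicator (fun _ => (1 : ℝ)) y ∂ν := by
    rw [integral_indicator hmeas, setIntegral_const, smul_eq_mul, mul_one]
  rw [e]
  apply integral_mono ((integrable_indicator_iff hmeas).2 (integrableOn_const hfin))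
    (V2_f_int h x r hs)
  intro y
  dsimp only
  by_cases hy : y ∈ closedBall x r
  · rw [indicator_of_mem hy]
    rw [mem_closedBall, dist_eq_norm] at hy
    rw [V2_f_one hs hy]
  · rw [indicator_of_notMem hy]
    exact V2_f_nonneg x r s y

private theorem V2_f_le {n : ℕ} {C : ℝ} {ν : Measure (X d)} (h : Gr n C ν) (x : X d) (r : ℝ)
    {s : ℝ} (hs : 0 < s) : ∫ y, V2_f x r s y ∂ν ≤ ν.real (ball x (r + s)) := by
  have hfin : ν (ball x (r + s)) ≠ ⊤ :=
    (lt_of_le_of_lt (measure_mono ball_subset_closedBall) (h.finite x (r + s))).ne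
  have hmeas : MeasurableSet (ball x (r + s)) := isOpen_ball.measurableSet
  have e : ν.real (ball x (r + s))
      = ∫ y, (ball x (r + s)).indicator (fun _ => (1 : ℝ)) y ∂ν := by
    rw [integral_indicator hmeas, setIntegral_const, smul_eq_mul, mul_one]
  rw [e]
  apply integral_mono (V2_f_int h x r hs)
    ((integrable_indicator_iff hmeas).2 (integrableOn_const hfin))
  intro y
  dsimp only
  by_cases hy : y ∈ ball x (r + s)
  · rw [indicator_of_mem hy]
    exact V2_f_le_one x r s y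
  · rw [indicator_of_notMem hy]
    rw [mem_ball, dist_eq_norm] at hy
    rw [V2_f_zero hs (not_lt.1 hy)]

private theorem V2_compare {n : ℕ} {C : ℝ} {ν : ℕ → Measure (X d)} {ν' : Measure (X d)}
    (h : ∀ i, Gr n C (ν i)) (h' : Gr n C ν') (hv : VC ν ν') (x : X d) (r s : ℝ) (hs : 0 < s)
    (a : ℝ≥0∞)
    (ha : ∀ᶠ i in (hyperfilter ℕ : Filter ℕ), a ≤ ν i (closedBall x r)) :
    a ≤ ν' (closedBall x (r + s)) := by
  have hatop : a ≠ ⊤ := by
    obtain ⟨i, hi⟩ := ha.exists
    exact (lt_of_le_of_lt hi ((h i).finite x r)).ne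
  have h1 : ∀ᶠ i in (hyperfilter ℕ : Filter ℕ), a.toReal ≤ ∫ y, V2_f x r s y ∂(ν i) := by
    filter_upwards [ha] with i hi
    refine le_trans ?_ (V2_f_ge (h i) x r hs)
    exact ENNReal.toReal_mono ((h i).finite x r).ne hi
  have h2 : a.toReal ≤ ∫ y, V2_f x r s y ∂ν' :=
    ge_of_tendsto (hv (V2_f x r s) (V2_f_cont x r s) (V2_f_supp hs)) h1
  have h3 : a.toReal ≤ ν'.real (closedBall x (r + s)) := by
    refine (h2.trans (V2_f_le h' x r hs)).trans ?_
    exact measureReal_mono ball_subset_closedBall (h'.finite x (r + s)).ne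
  exact (ENNReal.toReal_le_toReal hatop (h'.finite x (r + s)).ne).1 h3

private theorem V2_exists_supp {ν : Measure (X d)} (hnull : ν (Supp ν)ᶜ = 0) {s : Set (X d)}
    (hs : 0 < ν s) : ∃ z ∈ s, z ∈ Supp ν := by
  by_contra hcon
  push Not at hcon
  have hsub : s ⊆ (Supp ν)ᶜ := fun z hz => hcon z hz
  exact hs.ne' (measure_mono_null hsub hnull)

theorem supp_isClosed (ν : Measure (X d)) : IsClosed (Supp ν) := by
  rw [← isOpen_compl_iff, Metric.isOpen_iff]
  intro x hx
  have hx' : ¬ ∀ r : ℝ, 0 < r → 0 < ν (ball x r) := hx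
  push Not at hx'
  obtain ⟨r, hr, hr0⟩ := hx'
  refine ⟨r, hr, ?_⟩
  intro y hy hyS
  have hyS' : ∀ r : ℝ, 0 < r → 0 < ν (ball y r) := hyS
  have hd : dist y x < r := mem_ball.1 hy
  have hpos := hyS' (r - dist y x) (by linarith)
  have hsub : ball y (r - dist y x) ⊆ ball x r := by
    apply ball_subset_ball'
    linarith
  exact absurd ((measure_mono hsub).trans hr0) (not_le.2 hpos)

theorem supp_compl_null (ν : Measure (X d)) : ν (Supp ν)ᶜ = 0 := by
  apply measure_null_of_locally_null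
  intro x hx
  have hx' : ¬ ∀ r : ℝ, 0 < r → 0 < ν (ball x r) := hx
  push Not at hx'
  obtain ⟨r, hr, hr0⟩ := hx'
  exact ⟨ball x r, mem_nhdsWithin_of_mem_nhds (ball_mem_nhds x hr),
    le_antisymm hr0 (zero_le)⟩

/-- if a continuous nonnegative function has integral zero, it vanishes on the support -/
theorem eq_zero_on_supp {ν : Measure (X d)} {f : X d → ℝ} (hf : Continuous f)
    (h0 : ∀ x, 0 ≤ f x) (hi : Integrable f ν) (hz : ∫ x, f x ∂ν ≤ 0) : ∀ x ∈ Supp ν, f x = 0 := by
  intro x hx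
  by_contra hne
  have hpos : 0 < f x := lt_of_le_of_ne (h0 x) (Ne.symm hne)
  have hI : ∫ x, f x ∂ν = 0 := le_antisymm hz (integral_nonneg h0)
  have hae : f =ᵐ[ν] 0 := (integral_eq_zero_iff_of_nonneg h0 hi).1 hI
  have hopen : ∀ᶠ y in 𝓝 x, 0 < f y := hf.continuousAt.eventually (lt_mem_nhds hpos)
  obtain ⟨r, hr, hball⟩ := Metric.eventually_nhds_iff_ball.1 hopen
  have hx' : 0 < ν (ball x r) := hx r hr
  have hnull : ν {y | ¬ f y = (0 : X d → ℝ) y} = 0 := hae
  have hsub : ball x r ⊆ {y | ¬ f y = (0 : X d → ℝ) y} := by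
    intro y hy
    exact (hball y hy).ne'
  exact hx'.ne' (measure_mono_null hsub hnull)

/-- upper semicontinuity on closed balls -/
theorem VC.le_closedBall {n : ℕ} {C : ℝ} {ν : ℕ → Measure (X d)} {ν' : Measure (X d)}
    (h : ∀ i, Gr n C (ν i)) (h' : Gr n C ν') (hv : VC ν ν') (x : X d) (r : ℝ) (a : ℝ≥0∞)
    (ha : ∀ᶠ i in (hyperfilter ℕ : Filter ℕ), a ≤ ν i (closedBall x r)) :
    a ≤ ν' (closedBall x r) := by
  have hle : ∀ k : ℕ, a ≤ ν' (closedBall x (r + 1 / ((k : ℝ) + 1))) := fun k =>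
    V2_compare h h' hv x r (1 / ((k : ℝ) + 1)) (by positivity) a ha
  have hanti : Antitone (fun k : ℕ => closedBall x (r + 1 / ((k : ℝ) + 1))) := by
    intro k l hkl
    apply closedBall_subset_closedBall
    have : (1 : ℝ) / ((l : ℝ) + 1) ≤ 1 / ((k : ℝ) + 1) := by
      apply one_div_le_one_div_of_le (by positivity)
      have : (k : ℝ) ≤ (l : ℝ) := by exact_mod_cast hkl
      linarith
    linarith
  have hinter : ⋂ k : ℕ, closedBall x (r + 1 / ((k : ℝ) + 1)) = closedBall x r := by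
    ext y
    rw [mem_iInter]
    constructor
    · intro hy
      rw [mem_closedBall]
      apply le_of_forall_pos_le_add
      intro ε hε
      obtain ⟨k, hk⟩ := exists_nat_one_div_lt hε
      have := mem_closedBall.1 (hy k)
      linarith
    · intro hy k
      apply closedBall_subset_closedBall _ hy
      have : (0 : ℝ) < 1 / ((k : ℝ) + 1) := by positivity
      linarith
  have ht := tendsto_measure_iInter_atTop (μ := ν')
    (s := fun k : ℕ => closedBall x (r + 1 / ((k : ℝ) + 1)))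
    (fun k => isClosed_closedBall.measurableSet.nullMeasurableSet) hanti
    ⟨0, (h'.finite x _).ne⟩
  rw [hinter] at ht
  exact ge_of_tendsto' ht hle

/-- lower semicontinuity on open balls -/
theorem VC.lt_ball {n : ℕ} {C : ℝ} {ν : ℕ → Measure (X d)} {ν' : Measure (X d)}
    (h : ∀ i, Gr n C (ν i)) (h' : Gr n C ν') (hv : VC ν ν') (x : X d) (r : ℝ) (a : ℝ≥0∞)
    (ha : a < ν' (ball x r)) :
    ∀ᶠ i in (hyperfilter ℕ : Filter ℕ), a < ν i (ball x r) := by
  have hmono : Monotone (fun k : ℕ => closedBall x (r - 1 / ((k : ℝ) + 1))) := by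
    intro k l hkl
    apply closedBall_subset_closedBall
    have : (1 : ℝ) / ((l : ℝ) + 1) ≤ 1 / ((k : ℝ) + 1) := by
      apply one_div_le_one_div_of_le (by positivity)
      have : (k : ℝ) ≤ (l : ℝ) := by exact_mod_cast hkl
      linarith
    linarith
  have hunion : ⋃ k : ℕ, closedBall x (r - 1 / ((k : ℝ) + 1)) = ball x r := by
    ext y
    rw [mem_iUnion]
    constructor
    · rintro ⟨k, hk⟩
      rw [mem_ball]
      have h1 := mem_closedBall.1 hk
      have : (0 : ℝ) < 1 / ((k : ℝ) + 1) := by positivity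
      linarith
    · intro hy
      have h1 := mem_ball.1 hy
      obtain ⟨k, hk⟩ := exists_nat_one_div_lt (sub_pos.2 h1)
      refine ⟨k, ?_⟩
      rw [mem_closedBall]
      linarith
  have ht := tendsto_measure_iUnion_atTop (μ := ν') hmono
  rw [hunion] at ht
  obtain ⟨k, hk⟩ := (ht.eventually (lt_mem_nhds ha)).exists
  have hk' : a < ν' (closedBall x (r - 1 / ((k : ℝ) + 1))) := hk
  have hs : (0 : ℝ) < 1 / ((k : ℝ) + 1) := by positivity
  have hatop : a ≠ ⊤ := hk'.ne_top
  have h1 : a.toReal < ν'.real (closedBall x (r - 1 / ((k : ℝ) + 1))) :=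
    (ENNReal.toReal_lt_toReal hatop (h'.finite x _).ne).2 hk'
  have h2 : a.toReal < ∫ y, V2_f x (r - 1 / ((k : ℝ) + 1)) (1 / ((k : ℝ) + 1)) y ∂ν' :=
    lt_of_lt_of_le h1 (V2_f_ge h' x _ hs)
  have h3 := (hv _ (V2_f_cont x (r - 1 / ((k : ℝ) + 1)) (1 / ((k : ℝ) + 1)))
    (V2_f_supp hs)).eventually (lt_mem_nhds h2)
  filter_upwards [h3] with i hi
  have h4 := V2_f_le (h i) x (r - 1 / ((k : ℝ) + 1)) hs
  rw [sub_add_cancel] at h4
  have hfin : ν i (ball x r) ≠ ⊤ :=
    (lt_of_le_of_lt (measure_mono ball_subset_closedBall) ((h i).finite x r)).ne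
  exact (ENNReal.toReal_lt_toReal hatop hfin).1 (lt_of_lt_of_le hi h4)

/-- points of the support of the limit are limits of points of positive lower regularity -/
theorem VC.lo {n : ℕ} {C : ℝ} (hC : 1 ≤ C) {ν : ℕ → Measure (X d)} {ν' : Measure (X d)}
    (h : ∀ i, Gr n C (ν i)) (h' : Gr n C ν') (hv : VC ν ν')
    (hlow : ∀ z ∈ Supp ν', ∀ δ : ℝ, 0 < δ → ∀ᶠ i in (hyperfilter ℕ : Filter ℕ),
      ∃ z' : X d, ‖z' - z‖ ≤ δ ∧
        ∀ r, 0 < r → r ≤ δ⁻¹ → ENNReal.ofReal (r ^ n / C) ≤ ν i (closedBall z' r)) :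
    Lo n C ν' := by
  intro z hz r hr
  have hC0 : 0 < C := by linarith
  have key : ∀ δ : ℝ, 0 < δ → δ < r → δ ≤ r⁻¹ →
      ENNReal.ofReal ((r - δ) ^ n / C) ≤ ν' (closedBall z r) := by
    intro δ hδ hδr hδi
    apply VC.le_closedBall h h' hv z r
    filter_upwards [hlow z hz δ hδ] with i hi
    obtain ⟨z', hz', hlo⟩ := hi
    have hrd : r - δ ≤ δ⁻¹ := by
      have h1 : r ≤ δ⁻¹ := by
        rw [le_inv_comm₀ hr hδ]
        exact hδi
      linarith
    refine (hlo (r - δ) (by linarith) hrd).trans (measure_mono ?_)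
    apply closedBall_subset_closedBall'
    rw [dist_eq_norm]
    linarith
  have hlim : Tendsto (fun δ : ℝ => ENNReal.ofReal ((r - δ) ^ n / C)) (𝓝[>] 0)
      (𝓝 (ENNReal.ofReal (r ^ n / C))) := by
    have hcont : Continuous (fun δ : ℝ => ENNReal.ofReal ((r - δ) ^ n / C)) :=
      ENNReal.continuous_ofReal.comp (by fun_prop)
    have h2 := (hcont.tendsto 0).mono_left (nhdsWithin_le_nhds (s := Ioi (0 : ℝ)))
    rw [sub_zero] at h2
    exact h2
  apply le_of_tendsto hlim
  have hmin : 0 < min r r⁻¹ := lt_min hr (inv_pos.2 hr)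
  filter_upwards [Ioo_mem_nhdsGT hmin] with δ hδ
  exact key δ hδ.1 (lt_of_lt_of_le hδ.2 (min_le_left _ _))
    (hδ.2.le.trans (min_le_right _ _))

/-- if all measures are lower regular, so is the limit -/
theorem VC.lo_seq {n : ℕ} {C : ℝ} (hC : 1 ≤ C) {ν : ℕ → Measure (X d)} {ν' : Measure (X d)}
    (h : ∀ i, Gr n C (ν i)) (h' : Gr n C ν') (hv : VC ν ν') (hlo : ∀ i, Lo n C (ν i)) :
    Lo n C ν' := by
  apply VC.lo hC h h' hv
  intro z hz δ hδ
  have hpos : 0 < ν' (ball z δ) := hz δ hδ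
  filter_upwards [VC.lt_ball h h' hv z δ 0 hpos] with i hi
  obtain ⟨z', hz', hzs⟩ := V2_exists_supp (supp_compl_null (ν i)) hi
  refine ⟨z', ?_, fun r hr _ => hlo i z' hzs r hr⟩
  rw [mem_ball, dist_eq_norm] at hz'
  exact hz'.le

/-- `0` stays in the support -/
theorem VC.zero_mem {n : ℕ} {C : ℝ} (hC : 1 ≤ C) {ν : ℕ → Measure (X d)} {ν' : Measure (X d)}
    (h : ∀ i, Gr n C (ν i)) (h' : Gr n C ν') (hv : VC ν ν')
    (hlow : ∀ r, 0 < r → ∀ᶠ i in (hyperfilter ℕ : Filter ℕ),
      ENNReal.ofReal (r ^ n / C) ≤ ν i (closedBall 0 r)) :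
    0 ∈ Supp ν' := by
  intro r hr
  have hC0 : 0 < C := by linarith
  have h1 := VC.le_closedBall h h' hv 0 (r / 2) _ (hlow (r / 2) (by linarith))
  have h2 : 0 < ENNReal.ofReal ((r / 2) ^ n / C) := by
    rw [ENNReal.ofReal_pos]
    positivity
  refine lt_of_lt_of_le h2 (h1.trans (measure_mono ?_))
  apply closedBall_subset_ball
  linarith

end Pool.Agent.RZ
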