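import Pool.Agent.RZ.L1
import Pool.Agent.RZ.V2

/-!
Bl: blow-ups. All by change of variables: int f d(blow n x r nu) = r^{-n} int f(r^{-1}(y-x)) dnu(y).
kr n eps (r^{-1} z) = r^{n+1} kr n (r eps) z (kr_scale), so with psi'(y) = psi(r^{-1}(y-x)):
Lam n eps (blow nu) psi (r^{-1}(y-x)) = r Lam n (r eps) nu psi' y, and
Qf n eps (blow nu) e f psi = r^{-n} Qf n (r eps) nu e f' psi',
int <e,z> Lam n eps (blow nu) psi z d(blow nu) = r^{-n} int <e,y-x> Lam n (r eps) nu psi' y dnu(y), and the constant <e,x> does not matter: if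
int psi' dnu = 0 then int Lam n eps' nu psi' dnu = 0 (lam_int_zero below: Fubini/antisymmetry; Lam is integrable by lam_bound).
-/

set_option autoImplicit false

open MeasureTheory Filter Topology Metric Set
open scoped RealInnerProductSpace ENNReal

namespace Pool.Agent.RZ

variable {d : ℕ}

/-- the homeomorphism of the blow-up -/
noncomputable def Bl1_hom (x : X d) {r : ℝ} (hr : 0 < r) : X d ≃ₜ X d :=
  (Homeomorph.subRight x).trans (Homeomorph.smulOfNeZero r⁻¹ (inv_ne_zero hr.ne'))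

theorem Bl1_hom_apply (x : X d) {r : ℝ} (hr : 0 < r) :
    (Bl1_hom x hr : X d → X d) = fun y => r⁻¹ • (y - x) := by
  funext y
  rfl

theorem Bl1_meas (x : X d) (r : ℝ) : Measurable fun y : X d => r⁻¹ • (y - x) := by
  have : Continuous fun y : X d => r⁻¹ • (y - x) := by fun_prop
  exact this.measurable

theorem Bl1_norm (x : X d) {r : ℝ} (hr : 0 < r) (y z : X d) :
    ‖r⁻¹ • (y - x) - z‖ = r⁻¹ * ‖y - (x + r • z)‖ := by
  have h1 : r⁻¹ • (y - x) - z = r⁻¹ • (y - (x + r • z)) := by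
    rw [← sub_sub, smul_sub r⁻¹ (y - x) (r • z), smul_smul, inv_mul_cancel₀ hr.ne', one_smul]
  rw [h1, norm_smul, Real.norm_of_nonneg (inv_nonneg.2 hr.le)]

theorem Bl1_pre_closed (x : X d) {r : ℝ} (hr : 0 < r) (z : X d) (s : ℝ) :
    (fun y : X d => r⁻¹ • (y - x)) ⁻¹' closedBall z s = closedBall (x + r • z) (r * s) := by
  ext y
  simp only [mem_preimage, mem_closedBall, dist_eq_norm]
  rw [Bl1_norm x hr, inv_mul_le_iff₀ hr]

theorem Bl1_pre_ball (x : X d) {r : ℝ} (hr : 0 < r) (z : X d) (s : ℝ) :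
    (fun y : X d => r⁻¹ • (y - x)) ⁻¹' ball z s = ball (x + r • z) (r * s) := by
  ext y
  simp only [mem_preimage, mem_ball, dist_eq_norm]
  rw [Bl1_norm x hr, inv_mul_lt_iff₀ hr]

theorem integral_blow (n : ℕ) (x : X d) {r : ℝ} (hr : 0 < r) (ν : Measure (X d)) (f : X d → ℝ) :
    ∫ z, f z ∂(blow n x r ν) = r⁻¹ ^ n * ∫ y, f (r⁻¹ • (y - x)) ∂ν := by
  unfold blow
  rw [integral_smul_measure, ENNReal.toReal_ofReal (by positivity), smul_eq_mul]
  congr 1
  have h := (Bl1_hom x hr).measurableEmbedding.integral_map (μ := ν) f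
  rw [Bl1_hom_apply x hr] at h
  exact h

theorem blow_closedBall (n : ℕ) (x : X d) {r : ℝ} (hr : 0 < r) (ν : Measure (X d)) (z : X d)
    (s : ℝ) : blow n x r ν (closedBall z s)
      = ENNReal.ofReal (r⁻¹ ^ n) * ν (closedBall (x + r • z) (r * s)) := by
  unfold blow
  rw [Measure.smul_apply, smul_eq_mul, Measure.map_apply (Bl1_meas x r) measurableSet_closedBall,
    Bl1_pre_closed x hr]

theorem Bl1_blow_ball (n : ℕ) (x : X d) {r : ℝ} (hr : 0 < r) (ν : Measure (X d)) (z : X d)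
    (s : ℝ) : blow n x r ν (ball z s)
      = ENNReal.ofReal (r⁻¹ ^ n) * ν (ball (x + r • z) (r * s)) := by
  unfold blow
  rw [Measure.smul_apply, smul_eq_mul, Measure.map_apply (Bl1_meas x r) measurableSet_ball,
    Bl1_pre_ball x hr]

theorem blow_supp (n : ℕ) (x : X d) {r : ℝ} (hr : 0 < r) (ν : Measure (X d)) (z : X d) :
    z ∈ Supp (blow n x r ν) ↔ x + r • z ∈ Supp ν := by
  have hc : 0 < ENNReal.ofReal (r⁻¹ ^ n) := ENNReal.ofReal_pos.2 (by positivity)
  simp only [Supp, mem_ofPred_eq]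
  constructor
  · intro h s hs
    have h1 := h (r⁻¹ * s) (by positivity)
    rw [Bl1_blow_ball n x hr, mul_inv_cancel_left₀ hr.ne'] at h1
    exact pos_iff_ne_zero.2 (right_ne_zero_of_mul h1.ne')
  · intro h s hs
    rw [Bl1_blow_ball n x hr]
    exact pos_iff_ne_zero.2 (mul_ne_zero hc.ne' (h (r * s) (by positivity)).ne')

theorem Gr.blow {n : ℕ} {C : ℝ} {ν : Measure (X d)} (h : Gr n C ν) (x : X d)
    {r : ℝ} (hr : 0 < r) : Gr n C (blow n x r ν) := by
  intro z s hs
  rw [blow_closedBall n x hr]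
  calc ENNReal.ofReal (r⁻¹ ^ n) * ν (closedBall (x + r • z) (r * s))
      ≤ ENNReal.ofReal (r⁻¹ ^ n) * ENNReal.ofReal (C * (r * s) ^ n) :=
        mul_le_mul_right (h _ _ (by positivity)) _
    _ = ENNReal.ofReal (r⁻¹ ^ n * (C * (r * s) ^ n)) :=
        (ENNReal.ofReal_mul (by positivity)).symm
    _ = ENNReal.ofReal (C * s ^ n) := by
        congr 1
        rw [mul_pow, inv_pow]
        have : r ^ n ≠ 0 := pow_ne_zero _ hr.ne'
        field_simp

theorem Lo.blow {n : ℕ} {C : ℝ} {ν : Measure (X d)} (h : Lo n C ν) (x : X d)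
    {r : ℝ} (hr : 0 < r) : Lo n C (blow n x r ν) := by
  intro z hz s hs
  rw [blow_closedBall n x hr]
  have h1 := h _ ((blow_supp n x hr ν z).1 hz) (r * s) (by positivity)
  calc ENNReal.ofReal (s ^ n / C) = ENNReal.ofReal (r⁻¹ ^ n * ((r * s) ^ n / C)) := by
        congr 1
        rw [mul_pow, inv_pow, mul_div_assoc, inv_mul_cancel_left₀ (pow_ne_zero _ hr.ne')]
    _ = ENNReal.ofReal (r⁻¹ ^ n) * ENNReal.ofReal ((r * s) ^ n / C) :=
        ENNReal.ofReal_mul (by positivity)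
    _ ≤ ENNReal.ofReal (r⁻¹ ^ n) * ν (closedBall (x + r • z) (r * s)) :=
        mul_le_mul_right h1 _

end Pool.Agent.RZ
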