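import Pool.Agent.RZ.Gr1

/-!
J4: Lebesgue points and density points (Besicovitch.vitaliFamily, VitaliFamily.ae_tendsto_average_norm_sub, Besicovitch.tendsto_filterAt;
Besicovitch.ae_tendsto_measure_inter_div_of_measurableSet).
mean over closedBall x r of |g - g(x)| -> 0 for mu-a.e. x; multiply by mu(closedBall x r) <= C r^n.
-/

set_option autoImplicit false

open MeasureTheory Filter Topology Metric Set
open scoped RealInnerProductSpace ENNReal

namespace Pool.Agent.RZ

variable {d : ℕ}

theorem leb_points {n : ℕ} {μ : Measure (X d)} [IsLocallyFiniteMeasure μ] {C : ℝ} (hC : 0 ≤ C)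
    (hg : Gr n C μ) {g : X d → ℝ} (hi : LocallyIntegrable g μ) :
    ∀ᵐ x ∂μ, Tendsto (fun r : ℝ => r⁻¹ ^ n * ∫ y in closedBall x r, |g y - g x| ∂μ)
      (𝓝[>] 0) (𝓝 0) := by
  filter_upwards [(Besicovitch.vitaliFamily μ).ae_tendsto_average_norm_sub hi] with x hx
  have h1 := hx.comp (Besicovitch.tendsto_filterAt μ x)
  have h2 : Tendsto (fun r : ℝ => C * ⨍ y in closedBall x r, ‖g y - g x‖ ∂μ) (𝓝[>] 0)
      (𝓝 (C * 0)) := h1.const_mul C
  rw [mul_zero] at h2
  refine squeeze_zero' ?_ ?_ h2
  · filter_upwards [self_mem_nhdsWithin] with r hr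
    have hr' : (0 : ℝ) < r := hr
    exact mul_nonneg (by positivity) (integral_nonneg fun y => abs_nonneg _)
  · filter_upwards [self_mem_nhdsWithin] with r hr
    have hr' : (0 : ℝ) < r := hr
    have hB : μ (closedBall x r) ≤ ENNReal.ofReal (C * r ^ n) := hg x r hr'
    have hBr : μ.real (closedBall x r) ≤ C * r ^ n :=
      ENNReal.toReal_le_of_le_ofReal (by positivity) hB
    have hint : ∫ y in closedBall x r, |g y - g x| ∂μ
        = μ.real (closedBall x r) * ⨍ y in closedBall x r, ‖g y - g x‖ ∂μ := by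
      rw [setAverage_eq, smul_eq_mul]
      rcases eq_or_ne (μ.real (closedBall x r)) 0 with h0 | h0
      · have hz : μ (closedBall x r) = 0 := by
          rcases (ENNReal.toReal_eq_zero_iff _).1 h0 with h | h
          · exact h
          · exact absurd h (hB.trans_lt ENNReal.ofReal_lt_top).ne
        rw [Measure.restrict_eq_zero.2 hz]
        simp only [integral_zero_measure, mul_zero]
      · rw [← mul_assoc, mul_inv_cancel₀ h0, one_mul]
        rfl
    have havg : 0 ≤ ⨍ y in closedBall x r, ‖g y - g x‖ ∂μ := by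
      rw [setAverage_eq, smul_eq_mul]
      exact mul_nonneg (inv_nonneg.2 measureReal_nonneg) (integral_nonneg fun y => norm_nonneg _)
    rw [hint]
    calc r⁻¹ ^ n * (μ.real (closedBall x r) * ⨍ y in closedBall x r, ‖g y - g x‖ ∂μ)
        ≤ r⁻¹ ^ n * (C * r ^ n * ⨍ y in closedBall x r, ‖g y - g x‖ ∂μ) :=
          mul_le_mul_of_nonneg_left (mul_le_mul_of_nonneg_right hBr havg) (by positivity)
      _ = (r⁻¹ * r) ^ n * (C * ⨍ y in closedBall x r, ‖g y - g x‖ ∂μ) := by
          rw [mul_pow]; ring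
      _ = C * ⨍ y in closedBall x r, ‖g y - g x‖ ∂μ := by
          rw [inv_mul_cancel₀ hr'.ne', one_pow, one_mul]

end Pool.Agent.RZ
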