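import Pool.Agent.RZ.Defs

/-!
Ct: the cut-off function and test functions.
-/

set_option autoImplicit false

open MeasureTheory Filter Topology Metric Set
open scoped RealInnerProductSpace ENNReal

namespace Pool.Agent.RZ

variable {d : ℕ}

theorem cut_nonneg (R : ℝ) (z : X d) : 0 ≤ cut R z := by
  exact le_max_left _ _

theorem cut_le_one (R : ℝ) (z : X d) : cut R z ≤ 1 := by
  exact max_le zero_le_one (min_le_left _ _)

theorem cut_eq_one {R : ℝ} (hR : 0 < R) {z : X d} (h : ‖z‖ ≤ R) : cut R z = 1 := by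
  have h1 : ‖z‖ / R ≤ 1 := (div_le_one hR).2 h
  unfold cut
  rw [min_eq_left (by linarith), max_eq_right zero_le_one]

theorem cut_eq_zero {R : ℝ} (hR : 0 < R) {z : X d} (h : 2 * R ≤ ‖z‖) : cut R z = 0 := by
  have h1 : 2 ≤ ‖z‖ / R := (le_div_iff₀ hR).2 h
  unfold cut
  rw [max_eq_left ((min_le_right _ _).trans (by linarith))]

theorem cut_neg (R : ℝ) (z : X d) : cut R (-z) = cut R z := by
  unfold cut
  rw [norm_neg]

theorem cut_comm (R : ℝ) (x y : X d) : cut R (x - y) = cut R (y - x) := by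
  rw [← neg_sub, cut_neg]

theorem cut_lip {R : ℝ} (hR : 0 < R) (x y : X d) : |cut R x - cut R y| ≤ R⁻¹ * ‖x - y‖ := by
  unfold cut
  have h1 : |max 0 (min 1 (2 - ‖x‖ / R)) - max 0 (min 1 (2 - ‖y‖ / R))| ≤
      |min 1 (2 - ‖x‖ / R) - min 1 (2 - ‖y‖ / R)| := by
    refine (abs_max_sub_max_le_max 0 (min 1 (2 - ‖x‖ / R)) 0 (min 1 (2 - ‖y‖ / R))).trans ?_
    rw [sub_self, abs_zero]
    exact max_le (abs_nonneg _) le_rfl
  have h2 : |min 1 (2 - ‖x‖ / R) - min 1 (2 - ‖y‖ / R)| ≤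
      |2 - ‖x‖ / R - (2 - ‖y‖ / R)| := by
    refine (abs_min_sub_min_le_max 1 (2 - ‖x‖ / R) 1 (2 - ‖y‖ / R)).trans ?_
    rw [sub_self, abs_zero]
    exact max_le (abs_nonneg _) le_rfl
  refine h1.trans (h2.trans ?_)
  have h3 : 2 - ‖x‖ / R - (2 - ‖y‖ / R) = R⁻¹ * (‖y‖ - ‖x‖) := by
    rw [div_eq_mul_inv, div_eq_mul_inv]
    ring
  rw [h3, abs_mul, abs_of_pos (inv_pos.2 hR), abs_sub_comm]
  exact mul_le_mul_of_nonneg_left (abs_norm_sub_norm_le x y) (inv_pos.2 hR).le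

theorem cut_continuous {R : ℝ} (hR : 0 < R) : Continuous (cut R : X d → ℝ) := by
  unfold cut
  fun_prop

theorem cut_hasCompactSupport {R : ℝ} (hR : 0 < R) : HasCompactSupport (cut R : X d → ℝ) := by
  refine HasCompactSupport.intro (isCompact_closedBall (0 : X d) (2 * R)) ?_
  intro x hx
  rw [mem_closedBall, dist_zero_right, not_le] at hx
  exact cut_eq_zero hR hx.le

theorem cut_tst {R : ℝ} (hR : 0 < R) : Tst R⁻¹ (2 * R) (cut R : X d → ℝ) := by
  exact ⟨cut_lip hR, fun x hx => cut_eq_zero hR hx.le⟩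

theorem cut_mono {R R' : ℝ} (hR : 0 < R) (h : R ≤ R') (z : X d) : cut R z ≤ cut R' z := by
  unfold cut
  have h1 : ‖z‖ / R' ≤ ‖z‖ / R := div_le_div_of_nonneg_left (norm_nonneg z) hR h
  exact max_le_max le_rfl (min_le_min le_rfl (by linarith))

theorem cut_scale {R r : ℝ} (hR : 0 < R) (hr : 0 < r) (z : X d) :
    cut R (r⁻¹ • z) = cut (r * R) z := by
  unfold cut
  have h1 : ‖r⁻¹ • z‖ / R = ‖z‖ / (r * R) := by
    rw [norm_smul, Real.norm_of_nonneg (inv_pos.2 hr).le]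
    field_simp
  rw [h1]

theorem Tst.continuous {L ρ : ℝ} {ψ : X d → ℝ} (h : Tst L ρ ψ) : Continuous ψ := by
  have h1 : LipschitzWith (Real.nnabs L) ψ := by
    refine LipschitzWith.of_dist_le_mul ?_
    intro x y
    rw [Real.dist_eq, dist_eq_norm]
    refine (h.lip x y).trans ?_
    exact mul_le_mul_of_nonneg_right (le_abs_self L) (norm_nonneg _)
  exact h1.continuous

theorem Tst.hasCompactSupport {L ρ : ℝ} {ψ : X d → ℝ} (h : Tst L ρ ψ) : HasCompactSupport ψ := by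
  refine HasCompactSupport.intro (isCompact_closedBall (0 : X d) ρ) ?_
  intro x hx
  rw [mem_closedBall, dist_zero_right, not_le] at hx
  exact h.supp x hx

theorem Tst.abs_le {L ρ : ℝ} {ψ : X d → ℝ} (h : Tst L ρ ψ) (hL : 0 ≤ L) (hρ : 0 < ρ) (hd : 0 < d)
    (x : X d) : |ψ x| ≤ L * ρ := by
  by_cases hx : ρ < ‖x‖
  · rw [h.supp x hx, abs_zero]
    positivity
  rw [not_lt] at hx
  have hu : ∃ u : X d, ‖u‖ = 1 ∧ x = ‖x‖ • u := by
    by_cases hx0 : x = 0
    · refine ⟨EuclideanSpace.single ⟨0, hd⟩ 1, ?_, ?_⟩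
      · simp
      · rw [hx0]
        simp
    · refine ⟨‖x‖⁻¹ • x, ?_, ?_⟩
      · rw [norm_smul, norm_inv, norm_norm, inv_mul_cancel₀ (norm_ne_zero_iff.2 hx0)]
      · rw [smul_smul, mul_inv_cancel₀ (norm_ne_zero_iff.2 hx0), one_smul]
  obtain ⟨u, hu1, hxu⟩ := hu
  have key : ∀ ε : ℝ, 0 < ε → |ψ x| ≤ L * (ρ + ε) := by
    intro ε hε
    have hy : ψ ((ρ + ε) • u) = 0 := by
      apply h.supp
      rw [norm_smul, hu1, mul_one, Real.norm_of_nonneg (by positivity)]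
      linarith
    have h1 := h.lip x ((ρ + ε) • u)
    rw [hy, sub_zero] at h1
    refine h1.trans (mul_le_mul_of_nonneg_left ?_ hL)
    have h2 : x - (ρ + ε) • u = (‖x‖ - (ρ + ε)) • u := by
      rw [sub_smul, ← hxu]
    rw [h2, norm_smul, hu1, mul_one, Real.norm_eq_abs, abs_sub_comm, abs_of_nonneg (by linarith)]
    linarith [norm_nonneg x]
  refine le_of_forall_pos_le_add ?_
  intro δ hδ
  have h3 := key (δ / (L + 1)) (by positivity)
  have h4 : L * (δ / (L + 1)) ≤ δ := by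
    rw [mul_div_assoc', div_le_iff₀ (by linarith)]
    nlinarith
  calc |ψ x| ≤ L * (ρ + δ / (L + 1)) := h3
    _ = L * ρ + L * (δ / (L + 1)) := by ring
    _ ≤ L * ρ + δ := by linarith

theorem Tst.mono {L ρ L' ρ' : ℝ} {ψ : X d → ℝ} (h : Tst L ρ ψ) (hL : L ≤ L') (hρ : ρ ≤ ρ') :
    Tst L' ρ' ψ := by
  exact ⟨fun x y => (h.lip x y).trans (mul_le_mul_of_nonneg_right hL (norm_nonneg _)),
    fun x hx => h.supp x (hρ.trans_lt hx)⟩

theorem Tst.add {L ρ L' : ℝ} {ψ φ : X d → ℝ} (h : Tst L ρ ψ) (h' : Tst L' ρ φ) :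
    Tst (L + L') ρ fun x => ψ x + φ x := by
  refine ⟨?_, ?_⟩
  · intro x y
    have e : ψ x + φ x - (ψ y + φ y) = (ψ x - ψ y) + (φ x - φ y) := by ring
    rw [e, add_mul]
    exact (abs_add_le _ _).trans (add_le_add (h.lip x y) (h'.lip x y))
  · intro x hx
    rw [h.supp x hx, h'.supp x hx, add_zero]

theorem Tst.const_mul {L ρ : ℝ} {ψ : X d → ℝ} (h : Tst L ρ ψ) (c : ℝ) :
    Tst (|c| * L) ρ fun x => c * ψ x := by
  refine ⟨?_, ?_⟩
  · intro x y
    rw [← mul_sub, abs_mul, mul_assoc]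
    exact mul_le_mul_of_nonneg_left (h.lip x y) (abs_nonneg c)
  · intro x hx
    rw [h.supp x hx, mul_zero]

theorem Tst.translate {L ρ : ℝ} {ψ : X d → ℝ} (h : Tst L ρ ψ) (hL : 0 ≤ L) (a : X d) :
    Tst L (ρ + ‖a‖) fun x => ψ (x + a) := by
  refine ⟨?_, ?_⟩
  · intro x y
    have h1 := h.lip (x + a) (y + a)
    rwa [add_sub_add_right_eq_sub] at h1
  · intro x hx
    apply h.supp
    have h1 : ‖x‖ ≤ ‖x + a‖ + ‖a‖ := by
      calc ‖x‖ = ‖(x + a) - a‖ := by rw [add_sub_cancel_right]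
        _ ≤ ‖x + a‖ + ‖a‖ := norm_sub_le _ _
    linarith

/-- the correction of a test function to mean value zero. -/
theorem Tst.correct {L ρ : ℝ} {ψ : X d → ℝ} (h : Tst L ρ ψ) (ν : Measure (X d))
    [IsFiniteMeasureOnCompacts ν] {L' : ℝ} {θ : X d → ℝ} (hθ : Tst L' ρ θ) {a : ℝ} (ha : 0 < a)
    (hm : a ≤ ∫ x, θ x ∂ν) :
    ∃ c : ℝ, |c| ≤ |∫ x, ψ x ∂ν| / a ∧ Tst (L + |c| * L') ρ (fun x => ψ x - c * θ x) ∧
      ∫ x, (ψ x - c * θ x) ∂ν = 0 := by
  have hpos : 0 < ∫ x, θ x ∂ν := ha.trans_le hm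
  refine ⟨(∫ x, ψ x ∂ν) / ∫ x, θ x ∂ν, ?_, ?_, ?_⟩
  · rw [abs_div, abs_of_pos hpos]
    exact div_le_div_of_nonneg_left (abs_nonneg _) ha hm
  · refine ⟨?_, ?_⟩
    · intro x y
      have e : ∀ c : ℝ, ψ x - c * θ x - (ψ y - c * θ y) = (ψ x - ψ y) - c * (θ x - θ y) := by
        intro c
        ring
      rw [e, add_mul]
      refine (abs_sub _ _).trans (add_le_add (h.lip x y) ?_)
      rw [abs_mul, mul_assoc]
      exact mul_le_mul_of_nonneg_left (hθ.lip x y) (abs_nonneg _)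
    · intro x hx
      rw [h.supp x hx, hθ.supp x hx, mul_zero, sub_zero]
  · have i1 : Integrable ψ ν := h.continuous.integrable_of_hasCompactSupport h.hasCompactSupport
    have i2 : Integrable θ ν := hθ.continuous.integrable_of_hasCompactSupport hθ.hasCompactSupport
    rw [integral_sub i1 (i2.const_mul _), integral_const_mul, div_mul_cancel₀ _ hpos.ne',
      sub_self]

end Pool.Agent.RZ
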