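import Pool.Agent.RZ.Gr1

/-!
J2: from the truncated Riesz transforms to the regularised forms.
|e| <= 1: iint psi(x) f(y) <e,x-y> |x-y|^{-(n+1)} 1_{|x-y|>eps} = int psi(x) <e, R_eps f(x)> dmu, |.| <= sqrt(C0) ||psi||_2 ||f||_2 (f, psi bounded with compact support, mu finite).
Difference kernel D(z) = <e,z> (k_eps(z) - |z|^{-(n+1)} 1_{|z|>eps}): |D| <= eps^{-n} for |z| <= eps, |D| <= (n+1) eps^2 |z|^{-(n+2)} for |z| > eps; so sup_x int |D(x-y)| dmu <= A C
(Gr, Gr.tail with a = 2) and Schur test: |iint psi(x) f(y) D(x-y)| <= A C ||psi||_2 ||f||_2.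
-/

set_option autoImplicit false

open MeasureTheory Filter Topology Metric Set
open scoped RealInnerProductSpace ENNReal

namespace Pool.Agent.RZ

variable {d : ℕ}

/-- uniform `L²` bounds of the truncated Riesz transforms (as in the problem) -/
def Bdd (n : ℕ) (μ : Measure (X d)) (C : NNReal) : Prop :=
  ∀ ε : ℝ, 0 < ε → ∀ f : X d → ℝ, MemLp f 2 μ →
    ∫⁻ x, ‖∫ y in {y | ε < dist x y}, (f y * (‖x - y‖ ^ (n + 1))⁻¹) • (x - y) ∂μ‖ₑ ^ 2 ∂μ
      ≤ (C : ℝ≥0∞) * ∫⁻ x, ‖f x‖ₑ ^ 2 ∂μ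

theorem Bdd.restrict {n : ℕ} {μ : Measure (X d)} {C : NNReal} (h : Bdd n μ C) {G : Set (X d)}
    (hG : MeasurableSet G) : Bdd n (μ.restrict G) C := by
  intro ε hε f hf
  have hf' : MemLp (G.indicator f) 2 μ := (memLp_indicator_iff_restrict hG).2 hf
  have key := h ε hε (G.indicator f) hf'
  have hE : ∀ x : X d, MeasurableSet {y : X d | ε < dist x y} := fun x =>
    measurableSet_lt measurable_const (continuous_const.dist continuous_id).measurable
  have hin : ∀ x : X d,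
      ∫ y in {y | ε < dist x y}, (f y * (‖x - y‖ ^ (n + 1))⁻¹) • (x - y) ∂(μ.restrict G) =
      ∫ y in {y | ε < dist x y}, (G.indicator f y * (‖x - y‖ ^ (n + 1))⁻¹) • (x - y) ∂μ := by
    intro x
    rw [Measure.restrict_restrict (hE x), ← setIntegral_indicator hG]
    refine integral_congr_ae (Eventually.of_forall fun y => ?_)
    by_cases hy : y ∈ G
    · simp [Set.indicator_of_mem hy]
    · simp [Set.indicator_of_notMem hy]
  have hL : ∫⁻ x, ‖∫ y in {y | ε < dist x y},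
        (f y * (‖x - y‖ ^ (n + 1))⁻¹) • (x - y) ∂(μ.restrict G)‖ₑ ^ 2 ∂(μ.restrict G) ≤
      ∫⁻ x, ‖∫ y in {y | ε < dist x y},
        (G.indicator f y * (‖x - y‖ ^ (n + 1))⁻¹) • (x - y) ∂μ‖ₑ ^ 2 ∂μ := by
    simp_rw [hin]
    exact lintegral_mono' Measure.restrict_le_self le_rfl
  have hR : ∫⁻ x, ‖G.indicator f x‖ₑ ^ 2 ∂μ = ∫⁻ x, ‖f x‖ₑ ^ 2 ∂(μ.restrict G) := by
    rw [← lintegral_indicator hG]
    refine lintegral_congr fun x => ?_
    by_cases hx : x ∈ G
    · simp [Set.indicator_of_mem hx]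
    · simp [Set.indicator_of_notMem hx]
  rw [hR] at key
  exact hL.trans key

end Pool.Agent.RZ
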