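import Pool.Agent.RZ.Gr1
import Pool.Agent.RZ.J2a

/-!
J2: from the truncated Riesz transforms to the regularised forms.
|e| <= 1: iint psi(x) f(y) <e,x-y> |x-y|^{-(n+1)} 1_{|x-y|>eps} = int psi(x) <e, R_eps f(x)> dmu, |.| <= sqrt(C0) ||psi||_2 ||f||_2 (f, psi bounded with compact support, mu finite).
Difference kernel D(z) = <e,z> (k_eps(z) - |z|^{-(n+1)} 1_{|z|>eps}): |D| <= eps^{-n} for |z| <= eps, |D| <= (n+1) eps^2 |z|^{-(n+2)} for |z| > eps; so sup_x int |D(x-y)| dmu <= A C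
(Gr, Gr.tail with a = 2) and Schur test: |iint psi(x) f(y) D(x-y)| <= A C ||psi||_2 ||f||_2.
-/

set_option autoImplicit false

open MeasureTheory Filter Topology Metric Set
open scoped RealInnerProductSpace ENNReal

namespace Pool.Agent.RZ

variable {d : ℕ}

private lemma J2b_amgm {a b c M : ℝ} (ha : 0 ≤ a) (hb : 0 ≤ b) (hM : 0 ≤ M)
    (h : ∀ t : ℝ, 0 < t → c ≤ M * ((t * a ^ 2 + t⁻¹ * b ^ 2) / 2)) : c ≤ M * a * b := by
  by_contra hc
  push Not at hc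
  obtain ⟨δ, hδ⟩ : ∃ δ, δ = c - M * a * b := ⟨_, rfl⟩
  have hδpos : 0 < δ := by rw [hδ]; linarith
  have hden : 0 < M * (a + b) + 1 := by positivity
  obtain ⟨η, hη⟩ : ∃ η, η = δ / (M * (a + b) + 1) := ⟨_, rfl⟩
  have hηpos : 0 < η := by rw [hη]; exact div_pos hδpos hden
  have hη' : η * (M * (a + b) + 1) = δ := by rw [hη]; field_simp
  have h1 := h ((b + η) / (a + η)) (by positivity)
  have h2 : (b + η) / (a + η) * a ^ 2 ≤ (b + η) * a := by
    rw [div_mul_eq_mul_div, div_le_iff₀ (by positivity)]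
    nlinarith [mul_nonneg (mul_nonneg (add_nonneg hb hηpos.le) ha) hηpos.le]
  have h3 : ((b + η) / (a + η))⁻¹ * b ^ 2 ≤ (a + η) * b := by
    rw [inv_div, div_mul_eq_mul_div, div_le_iff₀ (by positivity)]
    nlinarith [mul_nonneg (mul_nonneg (add_nonneg ha hηpos.le) hb) hηpos.le]
  have h4 : M * (((b + η) / (a + η) * a ^ 2 + ((b + η) / (a + η))⁻¹ * b ^ 2) / 2)
      ≤ M * (((b + η) * a + (a + η) * b) / 2) := by
    apply mul_le_mul_of_nonneg_left _ hM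
    linarith
  nlinarith

/-- the truncated kernel in the direction `e` -/
private noncomputable def J2b_T (n : ℕ) (ε : ℝ) (e z : X d) : ℝ :=
  if ε < ‖z‖ then ⟪e, z⟫ * (‖z‖ ^ (n + 1))⁻¹ else 0

/-- the majorant of the difference kernel -/
private noncomputable def J2b_K (n : ℕ) (ε : ℝ) (z : X d) : ℝ :=
  (if ‖z‖ ≤ ε then ε⁻¹ ^ n else 0) + (if ε ≤ ‖z‖ then (n + 1) * ε ^ 2 * ‖z‖⁻¹ ^ (n + 2) else 0)

private lemma J2b_K_nonneg (n : ℕ) {ε : ℝ} (hε : 0 < ε) (z : X d) : 0 ≤ J2b_K n ε z := by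
  unfold J2b_K
  have h1 : 0 ≤ (if ‖z‖ ≤ ε then ε⁻¹ ^ n else 0 : ℝ) := by split_ifs <;> positivity
  have h2 : 0 ≤ (if ε ≤ ‖z‖ then (n + 1) * ε ^ 2 * ‖z‖⁻¹ ^ (n + 2) else 0 : ℝ) := by
    split_ifs <;> positivity
  linarith

private lemma J2b_K_neg (n : ℕ) (ε : ℝ) (z : X d) : J2b_K n ε (-z) = J2b_K n ε z := by
  unfold J2b_K
  simp only [norm_neg]

private lemma J2b_K_comm (n : ℕ) (ε : ℝ) (x y : X d) :
    J2b_K n ε (x - y) = J2b_K n ε (y - x) := by
  rw [← J2b_K_neg, neg_sub]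

private lemma J2b_K_le (n : ℕ) {ε : ℝ} (hε : 0 < ε) (z : X d) :
    J2b_K n ε z ≤ ε⁻¹ ^ n + (n + 1) * ε ^ 2 * ε⁻¹ ^ (n + 2) := by
  unfold J2b_K
  have h1 : (if ‖z‖ ≤ ε then ε⁻¹ ^ n else 0 : ℝ) ≤ ε⁻¹ ^ n := by
    split_ifs
    · exact le_refl _
    · positivity
  have h2 : (if ε ≤ ‖z‖ then (n + 1) * ε ^ 2 * ‖z‖⁻¹ ^ (n + 2) else 0 : ℝ)
      ≤ (n + 1) * ε ^ 2 * ε⁻¹ ^ (n + 2) := by
    split_ifs with h
    · apply mul_le_mul_of_nonneg_left _ (by positivity)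
      apply pow_le_pow_left₀ (by positivity)
      exact inv_anti₀ hε h
    · positivity
  linarith

private lemma J2b_K_meas (n : ℕ) (ε : ℝ) : Measurable (J2b_K n ε : X d → ℝ) := by
  unfold J2b_K
  refine Measurable.add ?_ ?_
  · exact Measurable.ite (measurableSet_le measurable_norm measurable_const)
      measurable_const measurable_const
  · exact Measurable.ite (measurableSet_le measurable_const measurable_norm)
      ((measurable_norm.inv.pow_const _).const_mul _) measurable_const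

private lemma J2b_T_meas (n : ℕ) (ε : ℝ) (e : X d) : Measurable (J2b_T n ε e : X d → ℝ) := by
  unfold J2b_T
  refine Measurable.ite (measurableSet_lt measurable_const measurable_norm) ?_ measurable_const
  exact (measurable_const.inner measurable_id).mul ((measurable_norm.pow_const _).inv)

private lemma J2b_diff (n : ℕ) {ε : ℝ} (hε : 0 < ε) (e : X d) (he : ‖e‖ ≤ 1) (z : X d) :
    |⟪e, z⟫ * kr n ε z - J2b_T n ε e z| ≤ J2b_K n ε z := by
  have hin : |⟪e, z⟫| ≤ ‖z‖ := by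
    refine (abs_real_inner_le_norm e z).trans ?_
    calc ‖e‖ * ‖z‖ ≤ 1 * ‖z‖ := mul_le_mul_of_nonneg_right he (norm_nonneg _)
      _ = ‖z‖ := one_mul _
  have hkr := kr_nonneg n ε z
  by_cases h : ε < ‖z‖
  · have hz : 0 < ‖z‖ := hε.trans h
    have hT : J2b_T n ε e z = ⟪e, z⟫ * (‖z‖ ^ (n + 1))⁻¹ := by
      unfold J2b_T; rw [if_pos h]
    have hK : J2b_K n ε z = (n + 1) * ε ^ 2 * ‖z‖⁻¹ ^ (n + 2) := by
      unfold J2b_K
      rw [if_neg (not_le.mpr h), if_pos h.le, zero_add]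
    rw [hT, hK, ← mul_sub, abs_mul]
    have hmain : |kr n ε z - (‖z‖ ^ (n + 1))⁻¹| ≤ (n + 1) * ε ^ 2 * ‖z‖⁻¹ ^ (n + 3) := by
      obtain ⟨s, hs⟩ : ∃ s, s = Real.sqrt (‖z‖ ^ 2 + ε ^ 2) := ⟨_, rfl⟩
      have hs2 : s ^ 2 = ‖z‖ ^ 2 + ε ^ 2 := by
        rw [hs]; exact Real.sq_sqrt (by positivity)
      have hs0 : 0 ≤ s := by rw [hs]; exact Real.sqrt_nonneg _
      have hsz : ‖z‖ ≤ s := by
        apply le_of_sq_le_sq _ hs0
        rw [hs2]; nlinarith [sq_nonneg ε]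
      have hspos : 0 < s := hz.trans_le hsz
      have hkrs : kr n ε z = s⁻¹ ^ (n + 1) := by unfold kr; rw [hs]
      have hle : s⁻¹ ≤ ‖z‖⁻¹ := inv_anti₀ hz hsz
      have hsinv : 0 < s⁻¹ := inv_pos.mpr hspos
      have hpow : s⁻¹ ^ (n + 1) ≤ ‖z‖⁻¹ ^ (n + 1) := pow_le_pow_left₀ hsinv.le hle _
      rw [hkrs, ← inv_pow, abs_sub_comm, abs_of_nonneg (by linarith)]
      have hfac : ‖z‖⁻¹ ^ (n + 1) - s⁻¹ ^ (n + 1) ≤ (n + 1) * (‖z‖⁻¹ - s⁻¹) * ‖z‖⁻¹ ^ n := by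
        have hg : ∀ m : ℕ, ‖z‖⁻¹ ^ (m + 1) - s⁻¹ ^ (m + 1)
            ≤ (m + 1) * (‖z‖⁻¹ - s⁻¹) * ‖z‖⁻¹ ^ m := by
          intro m
          induction m with
          | zero => simp
          | succ m ih =>
            have h1 : s⁻¹ ^ (m + 1) ≤ ‖z‖⁻¹ ^ (m + 1) := pow_le_pow_left₀ hsinv.le hle _
            have h2 : ‖z‖⁻¹ ^ (m + 1 + 1) - s⁻¹ ^ (m + 1 + 1)
                = ‖z‖⁻¹ * (‖z‖⁻¹ ^ (m + 1) - s⁻¹ ^ (m + 1))
                  + (‖z‖⁻¹ - s⁻¹) * s⁻¹ ^ (m + 1) := by ring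
            rw [h2]
            have h3 : ‖z‖⁻¹ * (‖z‖⁻¹ ^ (m + 1) - s⁻¹ ^ (m + 1))
                ≤ ‖z‖⁻¹ * ((m + 1) * (‖z‖⁻¹ - s⁻¹) * ‖z‖⁻¹ ^ m) :=
              mul_le_mul_of_nonneg_left ih (by positivity)
            have h4 : (‖z‖⁻¹ - s⁻¹) * s⁻¹ ^ (m + 1) ≤ (‖z‖⁻¹ - s⁻¹) * ‖z‖⁻¹ ^ (m + 1) :=
              mul_le_mul_of_nonneg_left h1 (by linarith)
            push_cast
            calc _ ≤ ‖z‖⁻¹ * ((m + 1) * (‖z‖⁻¹ - s⁻¹) * ‖z‖⁻¹ ^ m)
                  + (‖z‖⁻¹ - s⁻¹) * ‖z‖⁻¹ ^ (m + 1) := add_le_add h3 h4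
              _ = _ := by ring
        exact hg n
      have hsub : ‖z‖⁻¹ - s⁻¹ ≤ ε ^ 2 * ‖z‖⁻¹ ^ 3 := by
        have e1 : ‖z‖⁻¹ - s⁻¹ = (s - ‖z‖) / (‖z‖ * s) := by
          field_simp
        rw [e1, div_le_iff₀ (by positivity)]
        have e2 : ε ^ 2 * ‖z‖⁻¹ ^ 3 * (‖z‖ * s) = ε ^ 2 * s / ‖z‖ ^ 2 := by
          field_simp
        rw [e2, le_div_iff₀ (by positivity)]
        have e3 : (s - ‖z‖) * (s + ‖z‖) = ε ^ 2 := by nlinarith
        have e4 : 0 ≤ s - ‖z‖ := by linarith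
        calc (s - ‖z‖) * ‖z‖ ^ 2 ≤ (s - ‖z‖) * ((s + ‖z‖) * s) := by
              apply mul_le_mul_of_nonneg_left _ e4
              nlinarith
          _ = ε ^ 2 * s := by rw [← mul_assoc, e3]
      calc ‖z‖⁻¹ ^ (n + 1) - s⁻¹ ^ (n + 1) ≤ (n + 1) * (‖z‖⁻¹ - s⁻¹) * ‖z‖⁻¹ ^ n := hfac
        _ ≤ (n + 1) * (ε ^ 2 * ‖z‖⁻¹ ^ 3) * ‖z‖⁻¹ ^ n := by
            apply mul_le_mul_of_nonneg_right _ (by positivity)
            exact mul_le_mul_of_nonneg_left hsub (by positivity)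
        _ = _ := by ring
    calc |⟪e, z⟫| * |kr n ε z - (‖z‖ ^ (n + 1))⁻¹|
        ≤ ‖z‖ * ((n + 1) * ε ^ 2 * ‖z‖⁻¹ ^ (n + 3)) :=
          mul_le_mul hin hmain (abs_nonneg _) (norm_nonneg _)
      _ = (n + 1) * ε ^ 2 * ‖z‖⁻¹ ^ (n + 2) := by
          rw [pow_succ ‖z‖⁻¹ (n + 2)]
          field_simp
  · have hT : J2b_T n ε e z = 0 := by
      unfold J2b_T; rw [if_neg h]
    push Not at h
    rw [hT, sub_zero, abs_mul, abs_of_nonneg hkr]
    have h1 : |⟪e, z⟫| * kr n ε z ≤ ε⁻¹ ^ n :=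
      (mul_le_mul_of_nonneg_right hin hkr).trans (norm_mul_kr_le_eps n hε z)
    refine h1.trans ?_
    unfold J2b_K
    rw [if_pos h]
    have h2 : 0 ≤ (if ε ≤ ‖z‖ then (n + 1) * ε ^ 2 * ‖z‖⁻¹ ^ (n + 2) else 0 : ℝ) := by
      split_ifs <;> positivity
    linarith


private lemma J2b_K_int (n : ℕ) (hn : 1 ≤ n) : ∃ A : ℝ, 0 < A ∧ ∀ (C' : ℝ), 0 ≤ C' →
    ∀ μ : Measure (X d), IsFiniteMeasure μ → Gr n C' μ → ∀ (x : X d) (ε : ℝ), 0 < ε →
      ∫ y, J2b_K n ε (y - x) ∂μ ≤ A * C' := by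
  obtain ⟨A, hA, h⟩ := Gr.tail (d := d) n 2 hn (by norm_num)
  refine ⟨1 + (n + 1) * A, by positivity, ?_⟩
  intro C' hC' μ hμ hg x ε hε
  classical
  have hms : MeasurableSet {y : X d | ε ≤ ‖y - x‖} :=
    measurableSet_le measurable_const (measurable_id.sub measurable_const).norm
  have h1 : (fun y : X d => (if ‖y - x‖ ≤ ε then ε⁻¹ ^ n else 0 : ℝ))
      = (closedBall x ε).indicator (fun _ => ε⁻¹ ^ n) := by
    funext y
    rw [Set.indicator_apply]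
    simp only [mem_closedBall, dist_eq_norm]
  have h2 : (fun y : X d => (if ε ≤ ‖y - x‖ then (n + 1) * ε ^ 2 * ‖y - x‖⁻¹ ^ (n + 2) else 0 : ℝ))
      = {y : X d | ε ≤ ‖y - x‖}.indicator
        (fun y => (n + 1) * ε ^ 2 * ‖y - x‖⁻¹ ^ (n + 2)) := by
    funext y
    rw [Set.indicator_apply]
    rfl
  obtain ⟨hint, hbd⟩ := h C' hC' μ hg x ε hε
  have i1 : Integrable (fun y : X d => (if ‖y - x‖ ≤ ε then ε⁻¹ ^ n else 0 : ℝ)) μ := by
    rw [h1]
    exact (integrable_const _).indicator isClosed_closedBall.measurableSet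
  have i2 : Integrable (fun y : X d =>
      (if ε ≤ ‖y - x‖ then (n + 1) * ε ^ 2 * ‖y - x‖⁻¹ ^ (n + 2) else 0 : ℝ)) μ := by
    rw [h2, integrable_indicator_iff hms]
    exact hint.const_mul _
  have e1 : ∫ y, J2b_K n ε (y - x) ∂μ
      = (∫ y, (if ‖y - x‖ ≤ ε then ε⁻¹ ^ n else 0 : ℝ) ∂μ)
        + ∫ y, (if ε ≤ ‖y - x‖ then (n + 1) * ε ^ 2 * ‖y - x‖⁻¹ ^ (n + 2) else 0 : ℝ) ∂μ := by
    rw [← integral_add i1 i2]
    rfl
  have b1 : (∫ y, (if ‖y - x‖ ≤ ε then ε⁻¹ ^ n else 0 : ℝ) ∂μ) ≤ C' := by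
    rw [h1, integral_indicator_const _ isClosed_closedBall.measurableSet, smul_eq_mul]
    calc μ.real (closedBall x ε) * ε⁻¹ ^ n ≤ (C' * ε ^ n) * ε⁻¹ ^ n :=
          mul_le_mul_of_nonneg_right (hg.real_le hC' x hε) (by positivity)
      _ = C' := by
          rw [inv_pow]
          field_simp
  have b2 : (∫ y, (if ε ≤ ‖y - x‖ then (n + 1) * ε ^ 2 * ‖y - x‖⁻¹ ^ (n + 2) else 0 : ℝ) ∂μ)
      ≤ (n + 1) * A * C' := by
    rw [h2, integral_indicator hms, integral_const_mul]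
    calc (n + 1) * ε ^ 2 * ∫ y in {y | ε ≤ ‖y - x‖}, ‖y - x‖⁻¹ ^ (n + 2) ∂μ
        ≤ (n + 1) * ε ^ 2 * (A * C' * ε⁻¹ ^ 2) :=
          mul_le_mul_of_nonneg_left hbd (by positivity)
      _ = (n + 1) * A * C' := by
          rw [inv_pow]
          field_simp
  rw [e1]
  calc _ ≤ C' + (n + 1) * A * C' := add_le_add b1 b2
    _ = _ := by ring

theorem Bdd.l2b {n : ℕ} (hn : 1 ≤ n) {μ : Measure (X d)} [IsFiniteMeasure μ] {C : NNReal}
    (h : Bdd n μ C) {C' : ℝ} (hC' : 0 ≤ C') (hg : Gr n C' μ) : ∃ C'' : ℝ, 0 ≤ C'' ∧ L2b n C'' μ := by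
  obtain ⟨A, hA, hK⟩ := J2b_K_int (d := d) n hn
  refine ⟨Real.sqrt C + A * C', by positivity, ?_⟩
  intro ε hε e he f ψ hf hfc hψ hψc
  obtain ⟨Mf, hMf⟩ := hfc.exists_bound_of_continuous hf
  obtain ⟨Mψ, hMψ⟩ := hψc.exists_bound_of_continuous hψ
  have hMf0 : 0 ≤ Mf := (norm_nonneg _).trans (hMf 0)
  have hMψ0 : 0 ≤ Mψ := (norm_nonneg _).trans (hMψ 0)
  obtain ⟨MK, hMK⟩ : ∃ MK : ℝ, MK = ε⁻¹ ^ n + (n + 1) * ε ^ 2 * ε⁻¹ ^ (n + 2) := ⟨_, rfl⟩
  have hMK0 : 0 ≤ MK := by rw [hMK]; positivity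
  have hKle : ∀ z : X d, J2b_K n ε z ≤ MK := fun z => by rw [hMK]; exact J2b_K_le n hε z
  have hK0 : ∀ z : X d, 0 ≤ J2b_K n ε z := J2b_K_nonneg n hε
  -- integrability of bounded measurable functions
  have hint : ∀ (F : X d × X d → ℝ), Measurable F → (∃ M, ∀ p, |F p| ≤ M) →
      Integrable F (μ.prod μ) := by
    intro F hF ⟨M, hM⟩
    exact Integrable.of_bound hF.aestronglyMeasurable M (Eventually.of_forall hM)
  have hint1 : ∀ (F : X d → ℝ), Measurable F → (∃ M, ∀ p, |F p| ≤ M) → Integrable F μ := by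
    intro F hF ⟨M, hM⟩
    exact Integrable.of_bound hF.aestronglyMeasurable M (Eventually.of_forall hM)
  have m1 : Measurable fun p : X d × X d => p.1 - p.2 := measurable_fst.sub measurable_snd
  have mψ : Measurable fun p : X d × X d => ψ p.1 := hψ.measurable.comp measurable_fst
  have mf : Measurable fun p : X d × X d => f p.2 := hf.measurable.comp measurable_snd
  have mK : Measurable fun p : X d × X d => J2b_K n ε (p.1 - p.2) := (J2b_K_meas n ε).comp m1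
  have mT : Measurable fun p : X d × X d => J2b_T n ε e (p.1 - p.2) := (J2b_T_meas n ε e).comp m1
  have mk : Measurable fun p : X d × X d => ⟪e, p.1 - p.2⟫ * kr n ε (p.1 - p.2) :=
    (measurable_const.inner m1).mul ((kr_continuous n hε).measurable.comp m1)
  -- the kernel is bounded
  have hTb : ∀ z : X d, |J2b_T n ε e z| ≤ ε⁻¹ ^ n + MK := by
    intro z
    have e1 : |⟪e, z⟫ * kr n ε z| ≤ ε⁻¹ ^ n := by
      rw [abs_mul, abs_of_nonneg (kr_nonneg n ε z)]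
      refine le_trans (mul_le_mul_of_nonneg_right ?_ (kr_nonneg n ε z))
        (norm_mul_kr_le_eps n hε z)
      refine (abs_real_inner_le_norm e z).trans ?_
      calc ‖e‖ * ‖z‖ ≤ 1 * ‖z‖ := mul_le_mul_of_nonneg_right he (norm_nonneg _)
        _ = ‖z‖ := one_mul _
    have e2 := (J2b_diff n hε e he z).trans (hKle z)
    have e3 : J2b_T n ε e z = ⟪e, z⟫ * kr n ε z - (⟪e, z⟫ * kr n ε z - J2b_T n ε e z) := by ring
    rw [e3]
    exact (abs_sub _ _).trans (add_le_add e1 e2)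
  have hψf : ∀ p : X d × X d, |ψ p.1 * f p.2| ≤ Mψ * Mf := by
    intro p
    rw [abs_mul]
    exact mul_le_mul (hMψ p.1) (hMf p.2) (abs_nonneg _) hMψ0
  -- the three functions on the product
  obtain ⟨G1, hG1⟩ : ∃ G1 : X d × X d → ℝ,
      G1 = fun p => ψ p.1 * f p.2 * J2b_T n ε e (p.1 - p.2) := ⟨_, rfl⟩
  obtain ⟨G2, hG2⟩ : ∃ G2 : X d × X d → ℝ,
      G2 = fun p => ψ p.1 * f p.2 *
        (⟪e, p.1 - p.2⟫ * kr n ε (p.1 - p.2) - J2b_T n ε e (p.1 - p.2)) := ⟨_, rfl⟩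
  have iG1 : Integrable G1 (μ.prod μ) := by
    apply hint
    · rw [hG1]; exact (mψ.mul mf).mul mT
    · refine ⟨Mψ * Mf * (ε⁻¹ ^ n + MK), fun p => ?_⟩
      rw [hG1]
      simp only [abs_mul (ψ p.1 * f p.2)]
      exact mul_le_mul (hψf p) (hTb _) (abs_nonneg _) (by positivity)
  have iG2 : Integrable G2 (μ.prod μ) := by
    apply hint
    · rw [hG2]; exact (mψ.mul mf).mul (mk.sub mT)
    · refine ⟨Mψ * Mf * MK, fun p => ?_⟩
      rw [hG2]
      simp only [abs_mul (ψ p.1 * f p.2)]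
      exact mul_le_mul (hψf p) ((J2b_diff n hε e he _).trans (hKle _)) (abs_nonneg _)
        (by positivity)
  have hQ : Qf n ε μ e f ψ = ∫ p, G1 p ∂(μ.prod μ) + ∫ p, G2 p ∂(μ.prod μ) := by
    rw [← integral_add iG1 iG2]
    have e1 : ∀ p : X d × X d, G1 p + G2 p
        = ψ p.1 * f p.2 * (⟪e, p.1 - p.2⟫ * kr n ε (p.1 - p.2)) := by
      intro p; rw [hG1, hG2]; ring
    have e2 : Integrable (fun p => G1 p + G2 p) (μ.prod μ) := iG1.add iG2
    rw [integral_prod _ e2]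
    unfold Qf
    simp only [e1]
  obtain ⟨a, ha⟩ : ∃ a, a = Real.sqrt (∫ x, ψ x ^ 2 ∂μ) := ⟨_, rfl⟩
  obtain ⟨b, hb⟩ : ∃ b, b = Real.sqrt (∫ x, f x ^ 2 ∂μ) := ⟨_, rfl⟩
  have ha0 : 0 ≤ a := by rw [ha]; exact Real.sqrt_nonneg _
  have hb0 : 0 ≤ b := by rw [hb]; exact Real.sqrt_nonneg _
  have ha2 : a ^ 2 = ∫ x, ψ x ^ 2 ∂μ := by
    rw [ha]; exact Real.sq_sqrt (integral_nonneg fun x => sq_nonneg _)
  have hb2 : b ^ 2 = ∫ x, f x ^ 2 ∂μ := by
    rw [hb]; exact Real.sq_sqrt (integral_nonneg fun x => sq_nonneg _)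
  have hψsq : ∀ x, |ψ x ^ 2| ≤ Mψ ^ 2 := fun x => by
    rw [abs_pow]; exact pow_le_pow_left₀ (abs_nonneg _) (hMψ x) 2
  have hfsq : ∀ x, |f x ^ 2| ≤ Mf ^ 2 := fun x => by
    rw [abs_pow]; exact pow_le_pow_left₀ (abs_nonneg _) (hMf x) 2
  have iψ2 : Integrable (fun x => ψ x ^ 2) μ :=
    hint1 _ (hψ.measurable.pow_const 2) ⟨_, hψsq⟩
  have if2 : Integrable (fun x => f x ^ 2) μ :=
    hint1 _ (hf.measurable.pow_const 2) ⟨_, hfsq⟩
  -- Schur test
  have hS : |∫ p, G2 p ∂(μ.prod μ)| ≤ A * C' * b * a := by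
    have hS' : |∫ p, G2 p ∂(μ.prod μ)| ≤ (A * C') * a * b := by
      apply J2b_amgm ha0 hb0 (by positivity)
      intro t ht
      have iP : Integrable (fun p : X d × X d => ψ p.1 ^ 2 * J2b_K n ε (p.1 - p.2))
          (μ.prod μ) := by
        apply hint
        · exact (mψ.pow_const 2).mul mK
        · refine ⟨Mψ ^ 2 * MK, fun p => ?_⟩
          rw [abs_mul, abs_of_nonneg (hK0 (p.1 - p.2))]
          exact mul_le_mul (hψsq p.1) (hKle _) (hK0 _) (by positivity)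
      have iF : Integrable (fun p : X d × X d => f p.2 ^ 2 * J2b_K n ε (p.1 - p.2))
          (μ.prod μ) := by
        apply hint
        · exact (mf.pow_const 2).mul mK
        · refine ⟨Mf ^ 2 * MK, fun p => ?_⟩
          rw [abs_mul, abs_of_nonneg (hK0 (p.1 - p.2))]
          exact mul_le_mul (hfsq p.2) (hKle _) (hK0 _) (by positivity)
      have bP : ∫ p, ψ p.1 ^ 2 * J2b_K n ε (p.1 - p.2) ∂(μ.prod μ) ≤ (A * C') * a ^ 2 := by
        rw [integral_prod _ iP, ha2, ← integral_const_mul]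
        apply integral_mono iP.integral_prod_left (iψ2.const_mul _)
        intro x
        simp only [integral_const_mul]
        rw [mul_comm (A * C')]
        apply mul_le_mul_of_nonneg_left _ (sq_nonneg _)
        simp only [J2b_K_comm n ε x]
        exact hK C' hC' μ inferInstance hg x ε hε
      have bF : ∫ p, f p.2 ^ 2 * J2b_K n ε (p.1 - p.2) ∂(μ.prod μ) ≤ (A * C') * b ^ 2 := by
        rw [integral_prod_symm _ iF, hb2, ← integral_const_mul]
        apply integral_mono iF.integral_prod_right (if2.const_mul _)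
        intro y
        simp only [integral_const_mul]
        rw [mul_comm (A * C')]
        apply mul_le_mul_of_nonneg_left _ (sq_nonneg _)
        exact hK C' hC' μ inferInstance hg y ε hε
      have hpt : ∀ p : X d × X d, |G2 p| ≤ t / 2 * (ψ p.1 ^ 2 * J2b_K n ε (p.1 - p.2))
          + t⁻¹ / 2 * (f p.2 ^ 2 * J2b_K n ε (p.1 - p.2)) := by
        intro p
        rw [hG2]
        simp only [abs_mul (ψ p.1 * f p.2)]
        have e1 : |ψ p.1 * f p.2| ≤ t / 2 * ψ p.1 ^ 2 + t⁻¹ / 2 * f p.2 ^ 2 := by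
          rw [abs_mul]
          have e2 : 0 ≤ (t * |ψ p.1| - |f p.2|) ^ 2 / (2 * t) := by positivity
          have e3 : (t * |ψ p.1| - |f p.2|) ^ 2 / (2 * t)
              = t / 2 * ψ p.1 ^ 2 + t⁻¹ / 2 * f p.2 ^ 2 - |ψ p.1| * |f p.2| := by
            rw [← sq_abs (ψ p.1), ← sq_abs (f p.2)]
            field_simp
            ring
          linarith
        calc |ψ p.1 * f p.2| * _ ≤ (t / 2 * ψ p.1 ^ 2 + t⁻¹ / 2 * f p.2 ^ 2)
              * J2b_K n ε (p.1 - p.2) :=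
              mul_le_mul e1 (J2b_diff n hε e he _) (abs_nonneg _) (by positivity)
          _ = _ := by ring
      calc |∫ p, G2 p ∂(μ.prod μ)| ≤ ∫ p, |G2 p| ∂(μ.prod μ) := abs_integral_le_integral_abs
        _ ≤ ∫ p, (t / 2 * (ψ p.1 ^ 2 * J2b_K n ε (p.1 - p.2))
            + t⁻¹ / 2 * (f p.2 ^ 2 * J2b_K n ε (p.1 - p.2))) ∂(μ.prod μ) :=
            integral_mono iG2.abs ((iP.const_mul _).add (iF.const_mul _)) hpt
        _ = t / 2 * (∫ p, ψ p.1 ^ 2 * J2b_K n ε (p.1 - p.2) ∂(μ.prod μ))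
            + t⁻¹ / 2 * (∫ p, f p.2 ^ 2 * J2b_K n ε (p.1 - p.2) ∂(μ.prod μ)) := by
            rw [integral_add (iP.const_mul _) (iF.const_mul _), integral_const_mul,
              integral_const_mul]
        _ ≤ t / 2 * ((A * C') * a ^ 2) + t⁻¹ / 2 * ((A * C') * b ^ 2) :=
            add_le_add (mul_le_mul_of_nonneg_left bP (by positivity))
              (mul_le_mul_of_nonneg_left bF (by positivity))
        _ = (A * C') * ((t * a ^ 2 + t⁻¹ * b ^ 2) / 2) := by ring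
    calc _ ≤ _ := hS'
      _ = _ := by ring
  -- the truncated part
  have hM : |∫ p, G1 p ∂(μ.prod μ)| ≤ Real.sqrt C * b * a := by
    obtain ⟨F, hF⟩ : ∃ F : X d × X d → X d, F = fun p => if ε < dist p.1 p.2 then
        (f p.2 * (‖p.1 - p.2‖ ^ (n + 1))⁻¹) • (p.1 - p.2) else 0 := ⟨_, rfl⟩
    obtain ⟨R, hR⟩ : ∃ R : X d → X d, R = fun x => ∫ y in {y | ε < dist x y},
        (f y * (‖x - y‖ ^ (n + 1))⁻¹) • (x - y) ∂μ := ⟨_, rfl⟩
    have hFm : Measurable F := by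
      rw [hF]
      refine Measurable.ite (measurableSet_lt measurable_const
        (measurable_fst.dist measurable_snd)) ?_ measurable_const
      exact (mf.mul ((m1.norm.pow_const _).inv)).smul m1
    have hFb : ∀ p, ‖F p‖ ≤ Mf * ε⁻¹ ^ n := by
      intro p
      rw [hF]
      simp only
      split_ifs with hp
      · rw [dist_eq_norm] at hp
        have hz : 0 < ‖p.1 - p.2‖ := hε.trans hp
        rw [norm_smul, norm_mul, norm_inv, norm_pow, norm_norm, mul_assoc]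
        apply mul_le_mul (hMf p.2) _ (by positivity) hMf0
        have e1 : (‖p.1 - p.2‖ ^ (n + 1))⁻¹ * ‖p.1 - p.2‖ = ‖p.1 - p.2‖⁻¹ ^ n := by
          rw [pow_succ, inv_pow]
          field_simp
        rw [e1]
        exact pow_le_pow_left₀ (by positivity) (inv_anti₀ hε hp.le) n
      · rw [norm_zero]; positivity
    have hRF : ∀ x, R x = ∫ y, F (x, y) ∂μ := by
      intro x
      classical
      rw [hR, hF]
      simp only
      have hms : MeasurableSet {y : X d | ε < dist x y} :=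
        measurableSet_lt measurable_const (measurable_const.dist measurable_id)
      rw [← integral_indicator hms]
      apply integral_congr_ae
      apply Eventually.of_forall
      intro y
      simp only [Set.indicator_apply, mem_ofPred_eq]
    have hRm : StronglyMeasurable R := by
      have e1 : R = fun x => ∫ y, F (x, y) ∂μ := funext hRF
      rw [e1]
      exact hFm.stronglyMeasurable.integral_prod_right'
    have hRb : ∀ x, ‖R x‖ ≤ Mf * ε⁻¹ ^ n * μ.real univ := by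
      intro x
      rw [hRF x]
      exact norm_integral_le_of_norm_le_const (Eventually.of_forall fun y => hFb (x, y))
    have hFx : ∀ x, Integrable (fun y => F (x, y)) μ := by
      intro x
      exact Integrable.of_bound (hFm.comp measurable_prodMk_left).aestronglyMeasurable
        (Mf * ε⁻¹ ^ n) (Eventually.of_forall fun y => hFb (x, y))
    have hG1x : ∀ x, ∫ y, G1 (x, y) ∂μ = ψ x * ⟪e, R x⟫ := by
      intro x
      rw [hRF x, ← integral_inner (hFx x), ← integral_const_mul]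
      apply integral_congr_ae
      apply Eventually.of_forall
      intro y
      rw [hG1, hF]
      simp only
      unfold J2b_T
      rw [dist_eq_norm]
      split_ifs with hp
      · rw [inner_smul_right]; ring
      · rw [inner_zero_right]; ring
    have hint2 : ∫ p, G1 p ∂(μ.prod μ) = ∫ x, ψ x * ⟪e, R x⟫ ∂μ := by
      rw [integral_prod _ iG1]
      simp only [hG1x]
    have hRsq : ∀ x, |‖R x‖ ^ 2| ≤ (Mf * ε⁻¹ ^ n * μ.real univ) ^ 2 := fun x => by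
      rw [abs_pow, abs_norm]; exact pow_le_pow_left₀ (norm_nonneg _) (hRb x) 2
    have iR2 : Integrable (fun x => ‖R x‖ ^ 2) μ :=
      hint1 _ (hRm.measurable.norm.pow_const 2) ⟨_, hRsq⟩
    have hR2 : ∫ x, ‖R x‖ ^ 2 ∂μ ≤ C * b ^ 2 := by
      have hb1 := h ε hε f (hf.memLp_of_hasCompactSupport hfc)
      have e1 : ENNReal.ofReal (∫ x, ‖R x‖ ^ 2 ∂μ) = ∫⁻ x, ‖R x‖ₑ ^ 2 ∂μ := by
        rw [ofReal_integral_eq_lintegral_ofReal iR2 (Eventually.of_forall fun x => sq_nonneg _)]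
        apply lintegral_congr
        intro x
        rw [ENNReal.ofReal_pow (norm_nonneg _), ofReal_norm]
      have e2 : ENNReal.ofReal (∫ x, f x ^ 2 ∂μ) = ∫⁻ x, ‖f x‖ₑ ^ 2 ∂μ := by
        rw [ofReal_integral_eq_lintegral_ofReal if2 (Eventually.of_forall fun x => sq_nonneg _)]
        apply lintegral_congr
        intro x
        rw [← sq_abs, ← Real.norm_eq_abs, ENNReal.ofReal_pow (norm_nonneg _),
          ofReal_norm]
      have e3 : ∫⁻ x, ‖R x‖ₑ ^ 2 ∂μ ≤ (C : ℝ≥0∞) * ∫⁻ x, ‖f x‖ₑ ^ 2 ∂μ := by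
        rw [hR]; exact hb1
      rw [← e1, ← e2, ← ENNReal.ofReal_coe_nnreal, ← ENNReal.ofReal_mul C.coe_nonneg] at e3
      rw [hb2]
      refine (ENNReal.ofReal_le_ofReal_iff ?_).mp e3
      exact mul_nonneg C.coe_nonneg (integral_nonneg fun x => sq_nonneg _)
    have hfin : |∫ x, ψ x * ⟪e, R x⟫ ∂μ| ≤ 1 * a * (Real.sqrt C * b) := by
      apply J2b_amgm ha0 (by positivity) zero_le_one
      intro t ht
      have hpt : ∀ x, |ψ x * ⟪e, R x⟫| ≤ t / 2 * ψ x ^ 2 + t⁻¹ / 2 * ‖R x‖ ^ 2 := by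
        intro x
        rw [abs_mul]
        have e1 : |⟪e, R x⟫| ≤ ‖R x‖ := by
          refine (abs_real_inner_le_norm e _).trans ?_
          calc ‖e‖ * ‖R x‖ ≤ 1 * ‖R x‖ := mul_le_mul_of_nonneg_right he (norm_nonneg _)
            _ = ‖R x‖ := one_mul _
        have e2 : 0 ≤ (t * |ψ x| - ‖R x‖) ^ 2 / (2 * t) := by positivity
        have e3 : (t * |ψ x| - ‖R x‖) ^ 2 / (2 * t)
            = t / 2 * ψ x ^ 2 + t⁻¹ / 2 * ‖R x‖ ^ 2 - |ψ x| * ‖R x‖ := by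
          rw [← sq_abs (ψ x)]
          field_simp
          ring
        have e4 : |ψ x| * |⟪e, R x⟫| ≤ |ψ x| * ‖R x‖ :=
          mul_le_mul_of_nonneg_left e1 (abs_nonneg _)
        linarith
      have iψR : Integrable (fun x => ψ x * ⟪e, R x⟫) μ := by
        have e1 := iG1.integral_prod_left
        simp only [hG1x] at e1
        exact e1
      calc |∫ x, ψ x * ⟪e, R x⟫ ∂μ| ≤ ∫ x, |ψ x * ⟪e, R x⟫| ∂μ := abs_integral_le_integral_abs
        _ ≤ ∫ x, (t / 2 * ψ x ^ 2 + t⁻¹ / 2 * ‖R x‖ ^ 2) ∂μ :=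
            integral_mono iψR.abs ((iψ2.const_mul _).add (iR2.const_mul _)) hpt
        _ = t / 2 * (∫ x, ψ x ^ 2 ∂μ) + t⁻¹ / 2 * (∫ x, ‖R x‖ ^ 2 ∂μ) := by
            rw [integral_add (iψ2.const_mul _) (iR2.const_mul _), integral_const_mul,
              integral_const_mul]
        _ ≤ t / 2 * a ^ 2 + t⁻¹ / 2 * (C * b ^ 2) := by
            rw [ha2]
            exact add_le_add (le_refl _) (mul_le_mul_of_nonneg_left hR2 (by positivity))
        _ = 1 * ((t * a ^ 2 + t⁻¹ * (Real.sqrt C * b) ^ 2) / 2) := by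
            rw [mul_pow, Real.sq_sqrt C.coe_nonneg]; ring
    rw [hint2]
    calc _ ≤ _ := hfin
      _ = _ := by ring
  calc |Qf n ε μ e f ψ| = |∫ p, G1 p ∂(μ.prod μ) + ∫ p, G2 p ∂(μ.prod μ)| := by rw [hQ]
    _ ≤ |∫ p, G1 p ∂(μ.prod μ)| + |∫ p, G2 p ∂(μ.prod μ)| := abs_add_le _ _
    _ ≤ Real.sqrt C * b * a + A * C' * b * a := add_le_add hM hS
    _ = (Real.sqrt C + A * C') * b * a := by ring
    _ = _ := by rw [ha, hb]

end Pool.Agent.RZ
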