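import Pool.Agent.RZ.Gr1

/-!
J1: exhaustion by sets of upper regularity. mu = H^n restricted to E. G_j = {x in E : for all r > 0, mu (closedBall x r) <= ofReal (j r^n)} is closed (closedBall x r is contained in
closedBall x_k (r + |x - x_k|)), so compact. Growth for arbitrary centres: C = 2^n j (max 1). Let A = E \ U_j G_j. For every j and x in A there is r > 0 with mu(closedBall x r) > j r^n, and
r <= (mu X/j)^{1/n} =: delta_j -> 0. Vitali (Vitali.exists_disjoint_subfamily_covering_enlargement_closedBall, countable since disjoint balls of positive measure / separability):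
sum (10 r_i)^n <= 10^n mu(X)/j, diameters <= 10 delta_j; hausdorffMeasure_le_liminf_tsum: H^n(A) <= liminf_j 10^n mu(X)/j = 0.
-/

set_option autoImplicit false

open MeasureTheory Filter Topology Metric Set
open scoped RealInnerProductSpace ENNReal

namespace Pool.Agent.RZ

variable {d : ℕ}

private lemma J1_closed (n : ℕ) (μ : Measure (X d)) (j : ℕ) :
    IsClosed {x : X d | ∀ r : ℝ, 0 < r → μ (closedBall x r) ≤ ENNReal.ofReal (j * r ^ n)} := by
  apply IsSeqClosed.isClosed
  intro u x hu hx r hr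
  have h1 : ∀ k, μ (closedBall x r) ≤ ENNReal.ofReal (j * (r + dist x (u k)) ^ n) := by
    intro k
    have h0 : 0 ≤ dist x (u k) := dist_nonneg
    refine (measure_mono ?_).trans (hu k (r + dist x (u k)) (by linarith))
    exact closedBall_subset_closedBall' le_rfl
  have h2 : Tendsto (fun k => ENNReal.ofReal (j * (r + dist x (u k)) ^ n)) atTop
      (𝓝 (ENNReal.ofReal (j * r ^ n))) := by
    apply ENNReal.tendsto_ofReal
    have h3 : Tendsto (fun k => dist x (u k)) atTop (𝓝 0) := by
      have := (tendsto_const_nhds (x := x)).dist hx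
      simpa using this
    have h4 := (tendsto_const_nhds (x := (j : ℝ))).mul
      (((tendsto_const_nhds (x := r)).add h3).pow n)
    simpa using h4
  exact ge_of_tendsto' h2 h1

private lemma J1_ediam (x : X d) (r : ℝ) (hr : 0 ≤ r) :
    ediam (closedBall x r) ≤ ENNReal.ofReal (2 * r) := by
  apply ediam_le
  intro y hy z hz
  rw [edist_dist]
  apply ENNReal.ofReal_le_ofReal
  have h1 := mem_closedBall.mp hy
  have h2 := mem_closedBall.mp hz
  have h3 := dist_triangle_right y z x
  linarith

private lemma J1_null (n : ℕ) (hn : 1 ≤ n) (μ : Measure (X d)) [IsFiniteMeasure μ]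
    (A : Set (X d)) (hA : ∀ j : ℕ, ∀ x ∈ A, ∃ r : ℝ, 0 < r ∧
      ENNReal.ofReal (j * r ^ n) < μ (closedBall x r)) :
    Measure.hausdorffMeasure (n : ℝ) A = 0 := by
  have hn0 : n ≠ 0 := by omega
  have hA' : ∀ (j : ℕ) (x : X d), x ∈ A → ∃ r : ℝ, 0 < r ∧
      ENNReal.ofReal (((j + 1 : ℕ) : ℝ) * r ^ n) < μ (closedBall x r) :=
    fun j x hx => hA (j + 1) x hx
  choose! rr h1 h2 using hA'
  set M : ℝ := (μ univ).toReal with hM
  set R : ℕ → ℝ := fun j => (M / ((j + 1 : ℕ) : ℝ)) ^ ((n : ℝ)⁻¹) with hR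
  have hM0 : 0 ≤ M := ENNReal.toReal_nonneg
  have hj0 : ∀ j : ℕ, (0 : ℝ) < ((j + 1 : ℕ) : ℝ) := fun j => by exact_mod_cast Nat.succ_pos j
  have hle : ∀ j, ∀ x ∈ A, rr j x ≤ R j := by
    intro j x hx
    have h3 : ENNReal.ofReal (((j + 1 : ℕ) : ℝ) * rr j x ^ n) ≤ μ univ :=
      (h2 j x hx).le.trans (measure_mono (subset_univ _))
    have h4 : ((j + 1 : ℕ) : ℝ) * rr j x ^ n ≤ M := by
      rw [hM, ← ENNReal.ofReal_le_iff_le_toReal (measure_ne_top _ _)]
      exact h3
    have h5 : rr j x ^ n ≤ M / ((j + 1 : ℕ) : ℝ) := by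
      rw [le_div_iff₀ (hj0 j)]
      linarith
    have h6 : rr j x = (rr j x ^ n) ^ ((n : ℝ)⁻¹) :=
      (Real.pow_rpow_inv_natCast (h1 j x hx).le hn0).symm
    rw [h6]
    exact Real.rpow_le_rpow (pow_nonneg (h1 j x hx).le n) h5 (by positivity)
  have hR0 : Tendsto R atTop (𝓝 0) := by
    have h3 : Tendsto (fun j : ℕ => M / ((j + 1 : ℕ) : ℝ)) atTop (𝓝 0) := by
      have h4 : Tendsto (fun j : ℕ => ((j + 1 : ℕ) : ℝ)) atTop atTop :=
        tendsto_natCast_atTop_atTop.comp (tendsto_add_atTop_nat 1)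
      exact h4.const_div_atTop M
    have h5 : (0 : ℝ) < (n : ℝ)⁻¹ := by positivity
    have h6 := h3.rpow_const (p := (n : ℝ)⁻¹) (Or.inr h5.le)
    rwa [Real.zero_rpow h5.ne'] at h6
  have V := fun j => Vitali.exists_disjoint_subfamily_covering_enlargement_closedBall A
    (fun x : X d => x) (rr j) (R j) (hle j) 5 (by norm_num)
  choose u hu hd hc using V
  have hcnt : ∀ j, (u j).Countable := fun j =>
    (hd j).countable_of_nonempty_interior (fun i hi =>
      ⟨i, ball_subset_interior_closedBall (mem_ball_self (h1 j i (hu j hi)))⟩)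
  have _ : ∀ j, Countable (u j) := fun j => (hcnt j).to_subtype
  have hR1 : Tendsto (fun j => ENNReal.ofReal (10 * R j)) atTop (𝓝 0) := by
    have h3 : Tendsto (fun j => 10 * R j) atTop (𝓝 0) := by
      simpa using hR0.const_mul 10
    simpa using ENNReal.tendsto_ofReal h3
  have key := Measure.hausdorffMeasure_le_liminf_tsum (n : ℝ) A (l := atTop)
    (fun j => ENNReal.ofReal (10 * R j)) hR1
    (fun j (i : u j) => closedBall (i : X d) (5 * rr j i))
    (Eventually.of_forall fun j i => by
      have h3 := h1 j i (hu j i.2)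
      refine (J1_ediam _ _ (by linarith)).trans (ENNReal.ofReal_le_ofReal ?_)
      have h4 := hle j i (hu j i.2)
      linarith)
    (Eventually.of_forall fun j => by
      intro x hx
      obtain ⟨b, hb, hxb⟩ := hc j x hx
      exact mem_iUnion.mpr ⟨⟨b, hb⟩, hxb (mem_closedBall_self (h1 j x hx).le)⟩)
  have hbd : ∀ j : ℕ, ∑' i : u j, ediam (closedBall (i : X d) (5 * rr j i)) ^ (n : ℝ) ≤
      ENNReal.ofReal (10 ^ n * M / ((j + 1 : ℕ) : ℝ)) := by
    intro j
    have h3 : ∀ i : u j, ediam (closedBall (i : X d) (5 * rr j i)) ^ (n : ℝ) ≤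
        ENNReal.ofReal (10 ^ n / ((j + 1 : ℕ) : ℝ)) * μ (closedBall (i : X d) (rr j i)) := by
      intro i
      have h4 := h1 j i (hu j i.2)
      have h5 := h2 j i (hu j i.2)
      rw [ENNReal.rpow_natCast]
      calc ediam (closedBall (i : X d) (5 * rr j i)) ^ n
          ≤ (ENNReal.ofReal (2 * (5 * rr j i))) ^ n :=
            pow_le_pow_left₀ zero_le (J1_ediam _ _ (by linarith)) n
        _ = ENNReal.ofReal (10 ^ n / ((j + 1 : ℕ) : ℝ)) *
              ENNReal.ofReal (((j + 1 : ℕ) : ℝ) * rr j i ^ n) := by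
            have hj := hj0 j
            rw [← ENNReal.ofReal_pow (by linarith), ← ENNReal.ofReal_mul (by positivity)]
            congr 1
            have : 10 ^ n / ((j + 1 : ℕ) : ℝ) * (((j + 1 : ℕ) : ℝ) * rr j i ^ n) =
                10 ^ n * rr j i ^ n * (((j + 1 : ℕ) : ℝ) / ((j + 1 : ℕ) : ℝ)) := by ring
            rw [this, div_self hj.ne', mul_one, ← mul_pow]
            congr 1
            ring
        _ ≤ _ := mul_le_mul_right h5.le _
    refine (ENNReal.tsum_le_tsum h3).trans ?_
    rw [ENNReal.tsum_mul_left]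
    have h6 : ∑' i : u j, μ (closedBall (i : X d) (rr j i)) ≤ μ univ := by
      apply tsum_measure_le_measure_univ
      · intro i
        exact measurableSet_closedBall.nullMeasurableSet
      · intro i i' hii
        have := hd j i.2 i'.2 (fun h7 => hii (Subtype.ext h7))
        exact this.aedisjoint
    refine (mul_le_mul_right h6 _).trans (le_of_eq ?_)
    have h8 : μ univ = ENNReal.ofReal M := (ENNReal.ofReal_toReal (measure_ne_top _ _)).symm
    rw [h8, ← ENNReal.ofReal_mul (by positivity)]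
    congr 1
    ring
  have hlim : Tendsto (fun j : ℕ => ENNReal.ofReal (10 ^ n * M / ((j + 1 : ℕ) : ℝ))) atTop
      (𝓝 0) := by
    have h4 : Tendsto (fun j : ℕ => ((j + 1 : ℕ) : ℝ)) atTop atTop :=
      tendsto_natCast_atTop_atTop.comp (tendsto_add_atTop_nat 1)
    have h5 := h4.const_div_atTop (10 ^ n * M)
    simpa using ENNReal.tendsto_ofReal h5
  have h9 : liminf (fun j : ℕ => ∑' i : u j,
      ediam (closedBall (i : X d) (5 * rr j i)) ^ (n : ℝ)) atTop ≤ 0 := by
    rw [← hlim.liminf_eq]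
    exact liminf_le_liminf (Eventually.of_forall hbd)
  exact le_antisymm (key.trans h9) zero_le

theorem exhaust (n : ℕ) (hn : 1 ≤ n) {E : Set (X d)} (hE : IsCompact E)
    (hfin : Measure.hausdorffMeasure (n : ℝ) E < ⊤) :
    ∃ G : ℕ → Set (X d), (∀ j, IsCompact (G j) ∧ G j ⊆ E ∧
      ∃ C : ℝ, 1 ≤ C ∧ Gr n C ((Measure.hausdorffMeasure (n : ℝ)).restrict (G j))) ∧
      Measure.hausdorffMeasure (n : ℝ) (E \ ⋃ j, G j) = 0 := by
  set μ : Measure (X d) := (Measure.hausdorffMeasure (n : ℝ)).restrict E with hμ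
  have _ : IsFiniteMeasure μ := ⟨by
    rw [hμ, Measure.restrict_apply_univ]
    exact hfin⟩
  refine ⟨fun j => E ∩ {x : X d | ∀ r : ℝ, 0 < r →
    μ (closedBall x r) ≤ ENNReal.ofReal (j * r ^ n)}, ?_, ?_⟩
  · intro j
    refine ⟨hE.inter_right (J1_closed n μ j), inter_subset_left,
      max 1 (j * 2 ^ n), le_max_left _ _, ?_⟩
    intro x r hr
    rcases Set.eq_empty_or_nonempty (closedBall x r ∩ (E ∩ {x : X d | ∀ r : ℝ, 0 < r →
      μ (closedBall x r) ≤ ENNReal.ofReal (j * r ^ n)})) with h0 | ⟨y, hy1, hy2⟩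
    · rw [Measure.restrict_apply measurableSet_closedBall, h0, measure_empty]
      exact zero_le
    · have h1 : closedBall x r ⊆ closedBall y (2 * r) := by
        apply closedBall_subset_closedBall'
        have := mem_closedBall'.mp hy1
        linarith
      have h2 : (Measure.hausdorffMeasure (n : ℝ)).restrict (E ∩ {x : X d | ∀ r : ℝ, 0 < r →
          μ (closedBall x r) ≤ ENNReal.ofReal (j * r ^ n)}) (closedBall x r) ≤
          μ (closedBall x r) := by
        rw [hμ]
        exact Measure.restrict_mono inter_subset_left le_rfl _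
      refine h2.trans ((measure_mono h1).trans ((hy2.2 (2 * r) (by linarith)).trans ?_))
      apply ENNReal.ofReal_le_ofReal
      have h3 : (j : ℝ) * (2 * r) ^ n = j * 2 ^ n * r ^ n := by
        rw [mul_pow]; ring
      rw [h3]
      exact mul_le_mul_of_nonneg_right (le_max_right _ _) (by positivity)
  · apply J1_null n hn μ
    intro j x hx
    by_contra hcon
    push Not at hcon
    apply hx.2
    exact mem_iUnion.mpr ⟨j, hx.1, fun r hr => hcon r hr⟩

end Pool.Agent.RZ
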