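import Pool.Agent.RZ.Z1

set_option autoImplicit false

open MeasureTheory Filter Topology Metric Set
open scoped RealInnerProductSpace ENNReal

namespace Pool.Agent.RZ

variable {d : ℕ}

theorem main {n : ℕ} (hn : 1 ≤ n) (hnd : n ≤ d) {E : Set (X d)} (hE : IsCompact E)
    (hfin : Measure.hausdorffMeasure (n : ℝ) E < ⊤) {B : NNReal}
    (hb : Bdd n ((Measure.hausdorffMeasure (n : ℝ)).restrict E) B) :
    ∃ g : ℕ → X n → X d, (∀ i, ∃ K, LipschitzWith K (g i)) ∧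
      Measure.hausdorffMeasure (n : ℝ)
        ({x ∈ E | 0 < liminf (fun r : ℝ => Measure.hausdorffMeasure (n : ℝ) (E ∩ closedBall x r) /
          ENNReal.ofReal (r ^ n)) (𝓝[>] 0)} \ ⋃ i, Set.range (g i)) = 0 := by
  obtain ⟨G, hG, hcov⟩ := exhaust n hn hE hfin
  have key : ∀ j k : ℕ, ∃ g : ℕ → X n → X d, (∀ i, ∃ K, LipschitzWith K (g i)) ∧
      Measure.hausdorffMeasure (n : ℝ)
        ({y ∈ G j | ∀ r : ℝ, 0 < r → r ≤ 1 / (k + 1) → ENNReal.ofReal (r ^ n / (k + 1)) ≤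
          (Measure.hausdorffMeasure (n : ℝ)).restrict (G j) (closedBall y r)} \
          ⋃ i, Set.range (g i)) = 0 := by
    intro j k
    obtain ⟨hc, hsub, C, hC, hg⟩ := hG j
    have hb' : Bdd n ((Measure.hausdorffMeasure (n : ℝ)).restrict (G j)) B := by
      have h1 := hb.restrict hc.measurableSet
      rwa [Measure.restrict_restrict hc.measurableSet, inter_eq_self_of_subset_left hsub] at h1
    exact piece hn hnd hc (lt_of_le_of_lt (measure_mono hsub) hfin) hC hg hb' k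
  choose g hg1 hg2 using key
  refine ⟨fun m => g (Nat.unpair m).1 (Nat.unpair (Nat.unpair m).2).1
    (Nat.unpair (Nat.unpair m).2).2, fun i => hg1 _ _ _, ?_⟩
  have hdp := density_part hn hE hfin G (fun j => ⟨(hG j).1, (hG j).2.1⟩) hcov
  have hnull : Measure.hausdorffMeasure (n : ℝ) (⋃ j : ℕ, ⋃ k : ℕ,
      ({y ∈ G j | ∀ r : ℝ, 0 < r → r ≤ 1 / (k + 1) → ENNReal.ofReal (r ^ n / (k + 1)) ≤
          (Measure.hausdorffMeasure (n : ℝ)).restrict (G j) (closedBall y r)} \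
          ⋃ i, Set.range (g j k i))) = 0 :=
    measure_iUnion_null fun j => measure_iUnion_null fun k => hg2 j k
  refine measure_mono_null ?_ (measure_union_null hdp hnull)
  rintro x ⟨hx, hxg⟩
  by_cases hm : x ∈ ⋃ j : ℕ, ⋃ k : ℕ, {y ∈ G j | ∀ r : ℝ, 0 < r → r ≤ 1 / (k + 1) →
      ENNReal.ofReal (r ^ n / (k + 1)) ≤
        (Measure.hausdorffMeasure (n : ℝ)).restrict (G j) (closedBall y r)}
  · right
    obtain ⟨j, hj⟩ := mem_iUnion.1 hm
    obtain ⟨k, hk⟩ := mem_iUnion.1 hj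
    refine mem_iUnion.2 ⟨j, mem_iUnion.2 ⟨k, hk, fun hmem => hxg ?_⟩⟩
    obtain ⟨i, hi⟩ := mem_iUnion.1 hmem
    refine mem_iUnion.2 ⟨Nat.pair j (Nat.pair k i), ?_⟩
    simpa using hi
  · left
    exact ⟨hx, hm⟩

end Pool.Agent.RZ
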