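import Pool.Agent.RZ.L1
import Pool.Agent.RZ.V2
import Pool.Agent.RZ.Bl1

/-!
Bl: blow-ups. All by change of variables: int f d(blow n x r nu) = r^{-n} int f(r^{-1}(y-x)) dnu(y).
kr n eps (r^{-1} z) = r^{n+1} kr n (r eps) z (kr_scale), so with psi'(y) = psi(r^{-1}(y-x)):
Lam n eps (blow nu) psi (r^{-1}(y-x)) = r Lam n (r eps) nu psi' y, and
Qf n eps (blow nu) e f psi = r^{-n} Qf n (r eps) nu e f' psi',
int <e,z> Lam n eps (blow nu) psi z d(blow nu) = r^{-n} int <e,y-x> Lam n (r eps) nu psi' y dnu(y), and the constant <e,x> does not matter: if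
int psi' dnu = 0 then int Lam n eps' nu psi' dnu = 0 (lam_int_zero below: Fubini/antisymmetry; Lam is integrable by lam_bound).
-/

set_option autoImplicit false

open MeasureTheory Filter Topology Metric Set
open scoped RealInnerProductSpace ENNReal

namespace Pool.Agent.RZ

variable {d : ℕ}

private theorem Bl2_vec (x y b : X d) {r : ℝ} (hr : 0 < r) :
    r⁻¹ • (y - x) - b = r⁻¹ • (y - (x + r • b)) := by
  rw [← sub_sub, smul_sub r⁻¹ (y - x), smul_smul, inv_mul_cancel₀ hr.ne', one_smul]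

private theorem Bl2_cut (x y z : X d) {r s : ℝ} (hr : 0 < r) (hs : 0 < s) :
    cut s (r⁻¹ • (y - x) - z) = cut (r * s) (y - (x + r • z)) := by
  unfold cut
  rw [Bl2_vec x y z hr, norm_smul, Real.norm_eq_abs, abs_of_pos (inv_pos.2 hr)]
  have h : r⁻¹ * ‖y - (x + r • z)‖ / s = ‖y - (x + r • z)‖ / (r * s) := by
    field_simp
  rw [h]

private theorem Bl2_q {m : ℕ} (x y b : X d) (v : Fin m → X d) {r : ℝ} (hr : 0 < r) :
    q b v (r⁻¹ • (y - x)) = r⁻¹ ^ 2 * q (x + r • b) v y := by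
  unfold q
  rw [Bl2_vec x y b hr, norm_smul, Real.norm_eq_abs, abs_of_pos (inv_pos.2 hr), mul_pow, mul_sub,
    Finset.mul_sum]
  congr 1
  apply Finset.sum_congr rfl
  intro i _
  rw [inner_smul_right, mul_pow]

private theorem Bl2_pow (n : ℕ) (r s t : ℝ) :
    t ^ 2 * (r * s) ^ (n + 2) = r ^ (n + 2) * (t ^ 2 * s ^ (n + 2)) := by
  rw [mul_pow]; ring

/-- scaling of the flatness integral -/
theorem blow_q (n : ℕ) {m : ℕ} (x : X d) {r : ℝ} (hr : 0 < r) (ν : Measure (X d)) (z : X d) {s : ℝ}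
    (hs : 0 < s) (b : X d) (v : Fin m → X d) :
    ∫ y, cut s (y - z) * q b v y ∂(blow n x r ν)
      = r⁻¹ ^ (n + 2) * ∫ y, cut (r * s) (y - (x + r • z)) * q (x + r • b) v y ∂ν := by
  rw [integral_blow n x hr ν, pow_add r⁻¹ n 2, mul_assoc]
  congr 1
  rw [← integral_const_mul]
  apply integral_congr_ae
  filter_upwards with y
  rw [Bl2_cut x y z hr hs, Bl2_q x y b v hr]
  ring

theorem Flat.blow_iff (n : ℕ) (x : X d) {r : ℝ} (hr : 0 < r) (ν : Measure (X d)) (z : X d) {s : ℝ}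
    (hs : 0 < s) (ε : ℝ) : Flat n (blow n x r ν) z s ε ↔ Flat n ν (x + r • z) (r * s) ε := by
  have hp : 0 < r ^ (n + 2) := pow_pos hr _
  have key : ∀ (b : X d) (v : Fin n → X d),
      (∫ y, cut s (y - z) * q b v y ∂(blow n x r ν) ≤ ε ^ 2 * s ^ (n + 2) ↔
        ∫ y, cut (r * s) (y - (x + r • z)) * q (x + r • b) v y ∂ν ≤ ε ^ 2 * (r * s) ^ (n + 2)) := by
    intro b v
    rw [blow_q n x hr ν z hs b v, inv_pow, Bl2_pow n r s ε, inv_mul_le_iff₀ hp]
  constructor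
  · rintro ⟨b, v, hv, h⟩
    exact ⟨x + r • b, v, hv, (key b v).1 h⟩
  · rintro ⟨b, v, hv, h⟩
    have hb : x + r • (r⁻¹ • (b - x)) = b := by
      rw [smul_smul, mul_inv_cancel₀ hr.ne', one_smul, add_sub_cancel]
    refine ⟨r⁻¹ • (b - x), v, hv, (key _ v).2 ?_⟩
    rw [hb]
    exact h

theorem NF.blow_iff (n : ℕ) (x : X d) {r : ℝ} (hr : 0 < r) (ν : Measure (X d)) (z : X d) {s : ℝ}
    (hs : 0 < s) (δ : ℝ) : NF n (blow n x r ν) z s δ ↔ NF n ν (x + r • z) (r * s) δ := by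
  have hp : 0 < r ^ (n + 2) := pow_pos hr _
  have key : ∀ (b : X d) (v : Fin n → X d),
      (δ ^ 2 * s ^ (n + 2) ≤ ∫ y, cut s (y - z) * q b v y ∂(blow n x r ν) ↔
        δ ^ 2 * (r * s) ^ (n + 2) ≤ ∫ y, cut (r * s) (y - (x + r • z)) * q (x + r • b) v y ∂ν) := by
    intro b v
    rw [blow_q n x hr ν z hs b v, inv_pow, Bl2_pow n r s δ, le_inv_mul_iff₀ hp]
  constructor
  · intro h b v hv
    have hb : x + r • (r⁻¹ • (b - x)) = b := by
      rw [smul_smul, mul_inv_cancel₀ hr.ne', one_smul, add_sub_cancel]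
    have h1 := (key (r⁻¹ • (b - x)) v).1 (h _ v hv)
    rwa [hb] at h1
  · intro h b v hv
    exact (key b v).2 (h _ v hv)

end Pool.Agent.RZ
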