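import Pool.Agent.RZ.L1
import Pool.Agent.RZ.V2

/-!
Bl: blow-ups. All by change of variables: int f d(blow n x r nu) = r^{-n} int f(r^{-1}(y-x)) dnu(y).
kr n eps (r^{-1} z) = r^{n+1} kr n (r eps) z (kr_scale), so with psi'(y) = psi(r^{-1}(y-x)):
Lam n eps (blow nu) psi (r^{-1}(y-x)) = r Lam n (r eps) nu psi' y, and
Qf n eps (blow nu) e f psi = r^{-n} Qf n (r eps) nu e f' psi',
int <e,z> Lam n eps (blow nu) psi z d(blow nu) = r^{-n} int <e,y-x> Lam n (r eps) nu psi' y dnu(y), and the constant <e,x> does not matter: if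
int psi' dnu = 0 then int Lam n eps' nu psi' dnu = 0 (lam_int_zero below: Fubini/antisymmetry; Lam is integrable by lam_bound).
-/

set_option autoImplicit false

open MeasureTheory Filter Topology Metric Set
open scoped RealInnerProductSpace ENNReal

namespace Pool.Agent.RZ

variable {d : ℕ}

private theorem Bl3_cont {L ρ : ℝ} {ψ : X d → ℝ} (hψ : Tst L ρ ψ) : Continuous ψ := by
  have h : LipschitzWith (Real.toNNReal L) ψ := by
    refine LipschitzWith.of_dist_le_mul fun x y => ?_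
    rw [Real.dist_eq, dist_eq_norm]
    exact (hψ.lip x y).trans
      (mul_le_mul_of_nonneg_right (Real.le_coe_toNNReal L) (norm_nonneg _))
  exact h.continuous

private theorem Bl3_supp {L ρ : ℝ} {ψ : X d → ℝ} (hψ : Tst L ρ ψ) : HasCompactSupport ψ := by
  refine HasCompactSupport.intro (isCompact_closedBall (0 : X d) ρ) fun x hx => ?_
  rw [mem_closedBall, dist_zero_right, not_le] at hx
  exact hψ.supp x hx

private theorem Bl3_int {n : ℕ} (hn : 1 ≤ n) {C : ℝ} (hC : 0 ≤ C) {ν : Measure (X d)}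
    (h : Gr n C ν) [SFinite ν] {ε : ℝ} (hε : 0 < ε) {ψ : X d → ℝ} (hc : Continuous ψ)
    (hi : Integrable ψ ν) :
    Integrable (fun z : X d × X d => ψ z.1 * kr n ε (z.1 - z.2)) (ν.prod ν) := by
  obtain ⟨A, hA, hA2⟩ := Gr.kr_integrable (d := d) n hn
  have hcont : Continuous (fun z : X d × X d => ψ z.1 * kr n ε (z.1 - z.2)) :=
    (hc.comp continuous_fst).mul
      ((kr_continuous n hε).comp (continuous_fst.sub continuous_snd))
  have hm : AEStronglyMeasurable (fun z : X d × X d => ψ z.1 * kr n ε (z.1 - z.2))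
      (ν.prod ν) := hcont.aestronglyMeasurable
  rw [integrable_prod_iff hm]
  have hk : ∀ x : X d, Integrable (fun y => kr n ε (x - y)) ν := fun x => by
    have h1 := (hA2 C hC ν h x ε hε).1
    refine h1.congr (Eventually.of_forall fun y => ?_)
    exact kr_comm n ε y x
  have hk2 : ∀ x : X d, ∫ y, kr n ε (x - y) ∂ν ≤ A * C * ε⁻¹ := fun x => by
    have h1 := (hA2 C hC ν h x ε hε).2
    rwa [integral_congr_ae (Eventually.of_forall fun y => kr_comm n ε y x)] at h1
  refine ⟨Eventually.of_forall fun x => (hk x).const_mul (ψ x), ?_⟩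
  refine Integrable.mono' (hi.norm.mul_const (A * C * ε⁻¹)) hm.norm.integral_prod_right'
    (Eventually.of_forall fun x => ?_)
  have e1 : ∀ y, ‖ψ x * kr n ε (x - y)‖ = ‖ψ x‖ * kr n ε (x - y) := fun y => by
    rw [norm_mul, Real.norm_of_nonneg (kr_nonneg n ε _)]
  show ‖∫ y, ‖ψ x * kr n ε (x - y)‖ ∂ν‖ ≤ ‖ψ x‖ * (A * C * ε⁻¹)
  rw [integral_congr_ae (Eventually.of_forall e1), integral_const_mul, norm_mul, norm_norm,
    Real.norm_of_nonneg (integral_nonneg fun y => kr_nonneg n ε _)]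
  exact mul_le_mul_of_nonneg_left (hk2 x) (norm_nonneg _)

theorem lam_int_zero {n : ℕ} (hn : 1 ≤ n) (hd : 0 < d) {C : ℝ} (hC : 0 ≤ C) {ν : Measure (X d)}
    (h : Gr n C ν) {ε : ℝ} (hε : 0 < ε) {L ρ : ℝ} {ψ : X d → ℝ} (hψ : Tst L ρ ψ)
    (h0 : ∫ x, ψ x ∂ν = 0) : ∫ y, Lam n ε ν ψ y ∂ν = 0 := by
  haveI := h.isLocallyFinite
  have hc := Bl3_cont hψ
  have hi : Integrable ψ ν := hc.integrable_of_hasCompactSupport (Bl3_supp hψ)
  have hF := Bl3_int hn hC h hε hc hi
  have e1 : ∀ y, Lam n ε ν ψ y =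
      (∫ x, ψ y * kr n ε (y - x) ∂ν) - ∫ x, ψ x * kr n ε (x - y) ∂ν := fun y => by
    rw [lam_eq hn hC h hε hψ y, integral_const_mul,
      integral_congr_ae (Eventually.of_forall fun x => kr_comm n ε x y)]
  rw [integral_congr_ae (Eventually.of_forall e1)]
  have i1 : Integrable (fun y => ∫ x, ψ y * kr n ε (y - x) ∂ν) ν := hF.integral_prod_left
  have i2 : Integrable (fun y => ∫ x, ψ x * kr n ε (x - y) ∂ν) ν := hF.integral_prod_right
  rw [integral_sub i1 i2]
  have e2 := integral_prod _ hF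
  have e3 := integral_prod_symm _ hF
  have e4 : ∫ y, ∫ x, ψ y * kr n ε (y - x) ∂ν ∂ν = ∫ y, ∫ x, ψ x * kr n ε (x - y) ∂ν ∂ν :=
    e2.symm.trans e3
  rw [e4, sub_self]

end Pool.Agent.RZ
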