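import Pool.Agent.RZ.L1
import Pool.Agent.RZ.V2
import Pool.Agent.RZ.Bl1

/-!
Bl: blow-ups. All by change of variables: int f d(blow n x r nu) = r^{-n} int f(r^{-1}(y-x)) dnu(y).
kr n eps (r^{-1} z) = r^{n+1} kr n (r eps) z (kr_scale), so with psi'(y) = psi(r^{-1}(y-x)):
Lam n eps (blow nu) psi (r^{-1}(y-x)) = r Lam n (r eps) nu psi' y, and
Qf n eps (blow nu) e f psi = r^{-n} Qf n (r eps) nu e f' psi',
int <e,z> Lam n eps (blow nu) psi z d(blow nu) = r^{-n} int <e,y-x> Lam n (r eps) nu psi' y dnu(y), and the constant <e,x> does not matter: if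
int psi' dnu = 0 then int Lam n eps' nu psi' dnu = 0 (lam_int_zero below: Fubini/antisymmetry; Lam is integrable by lam_bound).
-/

set_option autoImplicit false

open MeasureTheory Filter Topology Metric Set
open scoped RealInnerProductSpace ENNReal

namespace Pool.Agent.RZ

variable {d : ℕ}

private theorem Bl4_cont (x : X d) (r : ℝ) {f : X d → ℝ} (hf : Continuous f) :
    Continuous fun y => f (r⁻¹ • (y - x)) :=
  hf.comp ((continuous_id.sub continuous_const).const_smul r⁻¹)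

private theorem Bl4_supp (x : X d) {r : ℝ} (hr : 0 < r) {f : X d → ℝ} (hf : HasCompactSupport f) :
    HasCompactSupport fun y => f (r⁻¹ • (y - x)) :=
  hf.comp_homeomorph ((Homeomorph.subRight x).trans
    (Homeomorph.smulOfNeZero r⁻¹ (inv_ne_zero hr.ne')))

private theorem Bl4_Qf (n : ℕ) (ε : ℝ) (ν : Measure (X d)) (e : X d) (f ψ : X d → ℝ) (x : X d)
    {r : ℝ} (hr : 0 < r) :
    Qf n ε (blow n x r ν) e f ψ =
      r⁻¹ ^ n * Qf n (r * ε) ν e (fun y => f (r⁻¹ • (y - x))) (fun y => ψ (r⁻¹ • (y - x))) := by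
  unfold Qf
  rw [integral_blow n x hr ν]
  congr 1
  apply integral_congr_ae
  apply Eventually.of_forall
  intro y
  dsimp only
  rw [integral_blow n x hr ν, ← integral_const_mul]
  apply integral_congr_ae
  apply Eventually.of_forall
  intro w
  dsimp only
  have e1 : r⁻¹ • (y - x) - r⁻¹ • (w - x) = r⁻¹ • (y - w) := by
    rw [← smul_sub]
    congr 1
    abel
  rw [e1, kr_scale n ε hr, real_inner_smul_right]
  have e2 : r⁻¹ ^ n * (r⁻¹ * r ^ (n + 1)) = 1 := by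
    rw [pow_succ, inv_pow]
    field_simp
  calc r⁻¹ ^ n * (ψ (r⁻¹ • (y - x)) * f (r⁻¹ • (w - x)) *
        (r⁻¹ * ⟪e, y - w⟫ * (r ^ (n + 1) * kr n (r * ε) (y - w))))
      = (r⁻¹ ^ n * (r⁻¹ * r ^ (n + 1))) * (ψ (r⁻¹ • (y - x)) * f (r⁻¹ • (w - x)) *
        (⟪e, y - w⟫ * kr n (r * ε) (y - w))) := by ring
    _ = _ := by rw [e2, one_mul]

theorem L2b.blow {n : ℕ} {C : ℝ} {ν : Measure (X d)} (h : L2b n C ν) (x : X d)
    {r : ℝ} (hr : 0 < r) : L2b n C (blow n x r ν) := by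
  intro ε hε e he f ψ hf hf' hψ hψ'
  have h1 := h (r * ε) (mul_pos hr hε) e he _ _ (Bl4_cont x r hf) (Bl4_supp x hr hf')
    (Bl4_cont x r hψ) (Bl4_supp x hr hψ')
  rw [Bl4_Qf n ε ν e f ψ x hr, integral_blow n x hr ν, integral_blow n x hr ν, abs_mul]
  have h2 : 0 ≤ r⁻¹ ^ n := by positivity
  rw [abs_of_nonneg h2, Real.sqrt_mul h2, Real.sqrt_mul h2]
  have h3 : Real.sqrt (r⁻¹ ^ n) * Real.sqrt (r⁻¹ ^ n) = r⁻¹ ^ n := Real.mul_self_sqrt h2
  calc r⁻¹ ^ n * |Qf n (r * ε) ν e (fun y => f (r⁻¹ • (y - x))) (fun y => ψ (r⁻¹ • (y - x)))|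
      ≤ r⁻¹ ^ n * (C * Real.sqrt (∫ y, f (r⁻¹ • (y - x)) ^ 2 ∂ν) *
        Real.sqrt (∫ y, ψ (r⁻¹ • (y - x)) ^ 2 ∂ν)) := mul_le_mul_of_nonneg_left h1 h2
    _ = (Real.sqrt (r⁻¹ ^ n) * Real.sqrt (r⁻¹ ^ n)) * (C *
        Real.sqrt (∫ y, f (r⁻¹ • (y - x)) ^ 2 ∂ν) *
        Real.sqrt (∫ y, ψ (r⁻¹ • (y - x)) ^ 2 ∂ν)) := by rw [h3]
    _ = _ := by ring

end Pool.Agent.RZ
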