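import Pool.Agent.RZ.L1
import Pool.Agent.RZ.V2
import Pool.Agent.RZ.Bl1
import Pool.Agent.RZ.Bl3
import Pool.Agent.RZ.Bl4

/-!
Bl: blow-ups. All by change of variables: int f d(blow n x r nu) = r^{-n} int f(r^{-1}(y-x)) dnu(y).
kr n eps (r^{-1} z) = r^{n+1} kr n (r eps) z (kr_scale), so with psi'(y) = psi(r^{-1}(y-x)):
Lam n eps (blow nu) psi (r^{-1}(y-x)) = r Lam n (r eps) nu psi' y, and
Qf n eps (blow nu) e f psi = r^{-n} Qf n (r eps) nu e f' psi',
int <e,z> Lam n eps (blow nu) psi z d(blow nu) = r^{-n} int <e,y-x> Lam n (r eps) nu psi' y dnu(y), and the constant <e,x> does not matter: if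
int psi' dnu = 0 then int Lam n eps' nu psi' dnu = 0 (lam_int_zero below: Fubini/antisymmetry; Lam is integrable by lam_bound).
-/

set_option autoImplicit false

open MeasureTheory Filter Topology Metric Set
open scoped RealInnerProductSpace ENNReal

namespace Pool.Agent.RZ

variable {d : ℕ}

private theorem Bl5_G_integrable {n : ℕ} (hn : 1 ≤ n) {C : ℝ} (hC : 0 ≤ C) {ν : Measure (X d)}
    (h : Gr n C ν) : Integrable (fun y => (1 + ‖y‖)⁻¹ ^ (n + 1)) ν := by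
  obtain ⟨A, _, hA⟩ := Gr.kr_integrable (d := d) n hn
  have h1 := (hA C hC ν h 0 1 one_pos).1
  have h2 : Integrable (fun y => kr n 1 y) ν := by
    simpa using h1
  refine h2.mono' ?_ (Eventually.of_forall (fun y => ?_))
  · refine Continuous.aestronglyMeasurable ?_
    exact ((continuous_const.add continuous_norm).inv₀
      (fun y => ne_of_gt (add_pos_of_pos_of_nonneg one_pos (norm_nonneg y)))).pow (n + 1)
  · rw [Real.norm_of_nonneg (by positivity)]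
    unfold kr
    refine pow_le_pow_left₀ (by positivity) ?_ (n + 1)
    refine inv_anti₀ (Real.sqrt_pos.mpr (by positivity)) ?_
    refine Real.sqrt_le_iff.mpr ⟨by positivity, ?_⟩
    nlinarith [norm_nonneg y]

/-- the transported test function -/
private theorem Bl5_tst {L ρ : ℝ} {ψ : X d → ℝ} (h : Tst L ρ ψ) (x : X d) {r : ℝ} (hr : 0 < r) :
    Tst (max (L * r⁻¹) 0) (max (r * ρ + ‖x‖) 1) (fun y => ψ (r⁻¹ • (y - x))) := by
  have h1 : Tst (L * r⁻¹) (r * ρ + ‖x‖) (fun y => ψ (r⁻¹ • (y - x))) := by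
    refine ⟨fun y y' => ?_, fun y hy => ?_⟩
    · refine (h.lip _ _).trans (le_of_eq ?_)
      rw [← smul_sub, sub_sub_sub_cancel_right, norm_smul, norm_inv, Real.norm_of_nonneg hr.le]
      ring
    · refine h.supp _ ?_
      rw [norm_smul, norm_inv, Real.norm_of_nonneg hr.le, ← div_eq_inv_mul, lt_div_iff₀ hr]
      have h2 : ‖y‖ - ‖x‖ ≤ ‖y - x‖ := norm_sub_norm_le y x
      linarith
  exact h1.mono (le_max_left _ _) (le_max_left _ _)

private theorem Bl5_lam {n : ℕ} {ν : Measure (X d)} (x : X d) {r : ℝ} (hr : 0 < r) (ε : ℝ)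
    (ψ : X d → ℝ) (y' : X d) :
    Lam n ε (RZ.blow n x r ν) ψ (r⁻¹ • (y' - x)) =
      r * Lam n (r * ε) ν (fun y => ψ (r⁻¹ • (y - x))) y' := by
  unfold Lam
  rw [integral_blow n x hr ν]
  have h1 : ∀ y : X d, (ψ (r⁻¹ • (y' - x)) - ψ (r⁻¹ • (y - x))) *
      kr n ε (r⁻¹ • (y - x) - r⁻¹ • (y' - x)) =
      r ^ (n + 1) * ((ψ (r⁻¹ • (y' - x)) - ψ (r⁻¹ • (y - x))) * kr n (r * ε) (y - y')) := by
    intro y
    rw [← smul_sub, sub_sub_sub_cancel_right, kr_scale n ε hr]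
    ring
  simp only [h1]
  rw [integral_const_mul, ← mul_assoc]
  congr 1
  rw [pow_succ r n, ← mul_assoc, ← mul_pow, inv_mul_cancel₀ hr.ne', one_pow, one_mul]

theorem Refl.blow {n : ℕ} (hn : 1 ≤ n) (hd : 0 < d) {C : ℝ} (hC : 0 ≤ C) {ν : Measure (X d)}
    (hg : Gr n C ν) (h : Refl n ν) (x : X d) {r : ℝ} (hr : 0 < r) : Refl n (blow n x r ν) := by
  intro e L ρ ψ hψ h0
  have hT := Bl5_tst hψ x hr
  have h0' : ∫ y, ψ (r⁻¹ • (y - x)) ∂ν = 0 := by
    rw [integral_blow n x hr ν] at h0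
    rcases mul_eq_zero.mp h0 with h1 | h1
    · exact absurd h1 (by positivity)
    · exact h1
  have hkey := h e _ _ _ hT h0'
  have hr0 : Tendsto (fun ε : ℝ => r * ε) (𝓝[>] 0) (𝓝[>] 0) := by
    refine tendsto_nhdsWithin_iff.mpr ⟨?_, ?_⟩
    · have h2 : Tendsto (fun ε : ℝ => r * ε) (𝓝 0) (𝓝 (r * 0)) :=
        (continuous_const.mul continuous_id).tendsto 0
      rw [mul_zero] at h2
      exact h2.mono_left nhdsWithin_le_nhds
    · exact eventually_mem_nhdsWithin.mono (fun ε hε => mul_pos hr hε)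
  have hlim := (hkey.comp hr0).const_mul (r⁻¹ ^ n)
  rw [mul_zero] at hlim
  refine hlim.congr' (eventually_mem_nhdsWithin.mono (fun ε hε => ?_))
  have hε' : 0 < r * ε := mul_pos hr hε
  obtain ⟨B, hB0, hB⟩ := lam_bound (d := d) n hn hd C (max (L * r⁻¹) 0)
    (max (r * ρ + ‖x‖) 1) (r * ε) hC (le_max_right _ _)
    (lt_of_lt_of_le one_pos (le_max_right _ _)) hε'
  have hBy := hB ν hg _ hT h0'
  have hcont := lam_continuous hn hC hg hε' hT
  have hGi := Bl5_G_integrable (d := d) hn hC hg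
  have hone : ∀ y : X d, (1 + ‖y‖)⁻¹ ≤ 1 := fun y =>
    inv_le_one_of_one_le₀ (by linarith [norm_nonneg y])
  have hi1 : Integrable (fun y => Lam n (r * ε) ν (fun y => ψ (r⁻¹ • (y - x))) y) ν := by
    refine (hGi.const_mul B).mono' hcont.aestronglyMeasurable (Eventually.of_forall (fun y => ?_))
    rw [Real.norm_eq_abs]
    refine (hBy y).trans (mul_le_mul_of_nonneg_left ?_ hB0.le)
    rw [pow_succ _ (n + 1)]
    exact mul_le_of_le_one_right (by positivity) (hone y)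
  have hi2 : Integrable (fun y => ⟪e, y⟫ * Lam n (r * ε) ν (fun y => ψ (r⁻¹ • (y - x))) y) ν := by
    refine (hGi.const_mul (‖e‖ * B)).mono'
      ((continuous_const.inner continuous_id).mul hcont).aestronglyMeasurable
      (Eventually.of_forall (fun y => ?_))
    rw [Real.norm_eq_abs, abs_mul]
    have h3 : |⟪e, y⟫| ≤ ‖e‖ * ‖y‖ := abs_real_inner_le_norm e y
    have h4 : ‖y‖ * (1 + ‖y‖)⁻¹ ≤ 1 := by
      rw [← div_eq_mul_inv, div_le_one (by positivity)]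
      linarith
    calc |⟪e, y⟫| * |Lam n (r * ε) ν (fun y => ψ (r⁻¹ • (y - x))) y|
        ≤ (‖e‖ * ‖y‖) * (B * (1 + ‖y‖)⁻¹ ^ (n + 2)) :=
          mul_le_mul h3 (hBy y) (abs_nonneg _) (by positivity)
      _ = ‖e‖ * B * (1 + ‖y‖)⁻¹ ^ (n + 1) * (‖y‖ * (1 + ‖y‖)⁻¹) := by ring
      _ ≤ ‖e‖ * B * (1 + ‖y‖)⁻¹ ^ (n + 1) :=
          mul_le_of_le_one_right (by positivity) h4
  have hz := lam_int_zero hn hd hC hg hε' hT h0'
  have hRHS : ∫ z, ⟪e, z⟫ * Lam n ε (RZ.blow n x r ν) ψ z ∂(RZ.blow n x r ν) =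
      r⁻¹ ^ n * ∫ y, ⟪e, y⟫ * Lam n (r * ε) ν (fun y => ψ (r⁻¹ • (y - x))) y ∂ν := by
    rw [integral_blow n x hr ν]
    congr 1
    have h5 : ∀ y : X d, ⟪e, r⁻¹ • (y - x)⟫ * Lam n ε (RZ.blow n x r ν) ψ (r⁻¹ • (y - x)) =
        ⟪e, y⟫ * Lam n (r * ε) ν (fun y => ψ (r⁻¹ • (y - x))) y -
        ⟪e, x⟫ * Lam n (r * ε) ν (fun y => ψ (r⁻¹ • (y - x))) y := by
      intro y
      rw [Bl5_lam x hr ε ψ y, inner_smul_right, inner_sub_right]
      field_simp
    simp only [h5]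
    rw [integral_sub hi2 (hi1.const_mul _), integral_const_mul, hz, mul_zero, sub_zero]
  exact hRHS.symm

theorem Reg.blow {n : ℕ} (hn : 1 ≤ n) (hd : 0 < d) {C : ℝ} (hC : 0 ≤ C) {ν : Measure (X d)}
    (h : Reg n C ν) (x : X d) {r : ℝ} (hr : 0 < r) : Reg n C (blow n x r ν) :=
  ⟨h.gr.blow x hr, h.lo.blow x hr, h.l2.blow x hr, h.refl.blow hn hd hC h.gr x hr⟩

end Pool.Agent.RZ
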