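import Pool.Agent.RZ.Bl1
import Pool.Agent.RZ.Bl2
import Pool.Agent.RZ.Bl3
import Pool.Agent.RZ.Bl4
import Pool.Agent.RZ.Bl5
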