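import Pool.Agent.RZ.Q1

/-!
D1: nondegeneracy and packing.
cover: if no y exists, S = empty. Otherwise fix y0 in the set, p0 = b + sum <v_i, y0 - b> v_i (so |y0 - p0| <= tau <= 1, |p0| <= 2), S = the grid points
p0 + sum tau k_i v_i, k_i integers, |k_i| <= 2/tau + 1: at most (7/tau)^m points; each y in the set has
y - p0 = sum <v_i, y - y0> v_i + (component orthogonal to all v_i, norm <= tau), |<v_i, y-y0>| <= 2.
nondeg (r = 1, then scale with blow or directly): nu({y in B_1 : q <= tau^2}) <= card S * C (A tau)^n <= A^{n+1} C tau <= 1/(2C) for small tau; on the rest q > tau^2.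
(directly for radius r: apply the covering lemma to y/r).
no_full: grid points (1/N) sum k_i v_i, 0 <= k_i < N, have mutual distances >= 1/N; disjoint closed balls of radius 1/(3N) with mass >= (1/3N)^n / C,
all contained in closedBall 0 (m+1): N^m (1/3N)^n/C <= C (m+1)^n for all N, contradiction to m > n.
-/

set_option autoImplicit false

open MeasureTheory Filter Topology Metric Set
open scoped RealInnerProductSpace ENNReal

namespace Pool.Agent.RZ

variable {d : ℕ}

/-- the component orthogonal to the frame -/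
private noncomputable def perp {m : ℕ} (v : Fin m → X d) (w : X d) : X d :=
  w - ∑ i, ⟪v i, w⟫ • v i

private theorem perp_sub {m : ℕ} (v : Fin m → X d) (w w' : X d) :
    perp v (w - w') = perp v w - perp v w' := by
  simp only [perp, inner_sub_right, sub_smul, Finset.sum_sub_distrib]
  abel

private theorem norm_sum_smul_le {m : ℕ} {v : Fin m → X d} (hv : Orthonormal ℝ v) (a : Fin m → ℝ) :
    ‖∑ i, a i • v i‖ ≤ ∑ i, |a i| := by
  refine (norm_sum_le _ _).trans ?_
  refine Finset.sum_le_sum fun i _ => ?_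
  rw [norm_smul, hv.1 i, mul_one, Real.norm_eq_abs]

private theorem abs_inner_le {m : ℕ} {v : Fin m → X d} (hv : Orthonormal ℝ v) (i : Fin m) (w : X d) :
    |⟪v i, w⟫| ≤ ‖w‖ := by
  have h := abs_real_inner_le_norm (v i) w
  rw [hv.1 i, one_mul] at h
  exact h

theorem plane_cover (m : ℕ) : ∃ A : ℝ, 1 ≤ A ∧ ∀ (b : X d) (v : Fin m → X d), Orthonormal ℝ v →
    ∀ τ : ℝ, 0 < τ → τ ≤ 1 → ∃ S : Finset (X d), (S.card : ℝ) ≤ A * τ⁻¹ ^ m ∧
      ∀ y : X d, ‖y‖ ≤ 1 → q b v y ≤ τ ^ 2 → ∃ s ∈ S, ‖y - s‖ ≤ A * τ := by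
  classical
  have h9 : (0 : ℝ) ≤ 9 ^ m := by positivity
  have hm0 : (0 : ℝ) ≤ m := Nat.cast_nonneg m
  refine ⟨9 ^ m + m + 2, by linarith, ?_⟩
  intro b v hv τ hτ hτ1
  by_cases hne : ∃ y0 : X d, ‖y0‖ ≤ 1 ∧ q b v y0 ≤ τ ^ 2
  · obtain ⟨y0, hy0, hq0⟩ := hne
    have hti : 1 ≤ τ⁻¹ := (one_le_inv₀ hτ).2 hτ1
    obtain ⟨N, hN⟩ : ∃ N : ℕ, N = ⌈2 * τ⁻¹⌉₊ + 1 := ⟨_, rfl⟩
    have hN1 : 2 * τ⁻¹ + 1 ≤ (N : ℝ) := by
      rw [hN]
      push_cast
      have := Nat.le_ceil (2 * τ⁻¹)
      linarith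
    have hN2 : (N : ℝ) ≤ 2 * τ⁻¹ + 2 := by
      rw [hN]
      push_cast
      have := (Nat.ceil_lt_add_one (a := 2 * τ⁻¹) (by positivity)).le
      linarith
    refine ⟨(Fintype.piFinset (fun _ : Fin m => Finset.Icc (-(N : ℤ)) N)).image
      (fun k => y0 + ∑ i, (τ * (k i : ℝ)) • v i), ?_, ?_⟩
    · have hc : ((Fintype.piFinset (fun _ : Fin m => Finset.Icc (-(N : ℤ)) N)).card : ℝ) =
          (2 * (N : ℝ) + 1) ^ m := by
        rw [Fintype.card_piFinset, Finset.prod_const, Finset.card_univ, Fintype.card_fin,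
          Int.card_Icc]
        have e : ((N : ℤ) + 1 - -(N : ℤ)).toNat = 2 * N + 1 := by omega
        rw [e]
        push_cast
        ring
      calc (((Fintype.piFinset (fun _ : Fin m => Finset.Icc (-(N : ℤ)) N)).image
            (fun k => y0 + ∑ i, (τ * (k i : ℝ)) • v i)).card : ℝ)
          ≤ ((Fintype.piFinset (fun _ : Fin m => Finset.Icc (-(N : ℤ)) N)).card : ℝ) := by
            exact_mod_cast Finset.card_image_le
        _ = (2 * (N : ℝ) + 1) ^ m := hc
        _ ≤ (9 * τ⁻¹) ^ m := by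
            refine pow_le_pow_left₀ (by positivity) ?_ m
            linarith
        _ = 9 ^ m * τ⁻¹ ^ m := by rw [mul_pow]
        _ ≤ (9 ^ m + m + 2) * τ⁻¹ ^ m := by
            refine mul_le_mul_of_nonneg_right ?_ (by positivity)
            linarith
    · intro y hy hq
      have hP : ∀ z : X d, q b v z ≤ τ ^ 2 → ‖perp v (z - b)‖ ≤ τ := by
        intro z hz
        have h1 : ‖perp v (z - b)‖ ^ 2 ≤ τ ^ 2 := by
          have := q_eq b hv z
          rw [perp, ← this]
          exact hz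
        exact abs_le_of_sq_le_sq' h1 hτ.le |>.2
      have hPy : ‖perp v (y - y0)‖ ≤ 2 * τ := by
        have e : y - y0 = (y - b) - (y0 - b) := by abel
        rw [e, perp_sub]
        have h1 := hP y hq
        have h2 := hP y0 hq0
        have h3 := norm_sub_le (perp v (y - b)) (perp v (y0 - b))
        linarith
      let k : Fin m → ℤ := fun i => round (⟪v i, y - y0⟫ * τ⁻¹)
      have hk1 : ∀ i, |⟪v i, y - y0⟫ * τ⁻¹ - (k i : ℝ)| ≤ 1 / 2 := fun i => abs_sub_round _
      have hin : ∀ i, |⟪v i, y - y0⟫ * τ⁻¹| ≤ 2 * τ⁻¹ := by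
        intro i
        rw [abs_mul, abs_of_pos (inv_pos.2 hτ)]
        refine mul_le_mul_of_nonneg_right ?_ (inv_pos.2 hτ).le
        have h1 := abs_inner_le hv i (y - y0)
        have h2 := norm_sub_le y y0
        linarith
      refine ⟨y0 + ∑ i, (τ * (k i : ℝ)) • v i, ?_, ?_⟩
      · refine Finset.mem_image.2 ⟨k, ?_, rfl⟩
        rw [Fintype.mem_piFinset]
        intro i
        rw [Finset.mem_Icc]
        have h1 := abs_le.1 (hk1 i)
        have h2 := abs_le.1 (hin i)
        constructor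
        · have : (-(N : ℝ)) ≤ (k i : ℝ) := by linarith
          exact_mod_cast this
        · have : (k i : ℝ) ≤ (N : ℝ) := by linarith
          exact_mod_cast this
      · have e : y - (y0 + ∑ i, (τ * (k i : ℝ)) • v i) =
            perp v (y - y0) + ∑ i, (⟪v i, y - y0⟫ - τ * (k i : ℝ)) • v i := by
          simp only [perp, sub_smul, Finset.sum_sub_distrib]
          abel
        rw [e]
        have h1 : ‖∑ i, (⟪v i, y - y0⟫ - τ * (k i : ℝ)) • v i‖ ≤ m * τ := by
          refine (norm_sum_smul_le hv _).trans ?_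
          have h2 : ∀ i ∈ (Finset.univ : Finset (Fin m)), |⟪v i, y - y0⟫ - τ * (k i : ℝ)| ≤ τ := by
            intro i _
            have e2 : ⟪v i, y - y0⟫ - τ * (k i : ℝ) =
                τ * (⟪v i, y - y0⟫ * τ⁻¹ - (k i : ℝ)) := by
              field_simp
            rw [e2, abs_mul, abs_of_pos hτ]
            have := hk1 i
            nlinarith
          refine (Finset.sum_le_sum h2).trans ?_
          simp
        calc ‖perp v (y - y0) + ∑ i, (⟪v i, y - y0⟫ - τ * (k i : ℝ)) • v i‖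
            ≤ 2 * τ + m * τ := (norm_add_le _ _).trans (add_le_add hPy h1)
          _ ≤ (9 ^ m + m + 2) * τ := by nlinarith
  · refine ⟨∅, ?_, ?_⟩
    · simp only [Finset.card_empty, Nat.cast_zero]
      positivity
    · intro y hy hq
      exact absurd ⟨y, hy, hq⟩ hne

private theorem q_scale {m : ℕ} (b : X d) (v : Fin m → X d) (y : X d) (s : ℝ) :
    q (s • b) v (s • y) = s ^ 2 * q b v y := by
  simp only [q, ← smul_sub, norm_smul, inner_smul_right, mul_pow, Real.norm_eq_abs, sq_abs]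
  rw [mul_sub, Finset.mul_sum]

/-- an `n`-regular measure is not close to an `(n-1)`-plane -/
theorem nondeg (n : ℕ) (hn : 1 ≤ n) (C : ℝ) (hC : 1 ≤ C) : ∃ c : ℝ, 0 < c ∧
    ∀ ν : Measure (X d), Gr n C ν → ∀ r : ℝ, 0 < r →
      ENNReal.ofReal (r ^ n / C) ≤ ν (closedBall 0 r) →
      ∀ (b : X d) (v : Fin (n - 1) → X d), Orthonormal ℝ v →
        c * r ^ (n + 2) ≤ ∫ y in closedBall 0 r, q b v y ∂ν := by
  obtain ⟨A, hA, hcov⟩ := plane_cover (d := d) (n - 1)
  have hC0 : 0 < C := by linarith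
  have hA0 : 0 < A := by linarith
  have hAn : 1 ≤ A ^ (n + 1) := one_le_pow₀ hA
  obtain ⟨τ, hτdef⟩ : ∃ τ : ℝ, τ = (2 * C ^ 2 * A ^ (n + 1))⁻¹ := ⟨_, rfl⟩
  have hD : 1 ≤ 2 * C ^ 2 * A ^ (n + 1) := by
    have h1 : 1 ≤ C ^ 2 := one_le_pow₀ hC
    nlinarith
  have hτ0 : 0 < τ := by rw [hτdef]; positivity
  have hτ1 : τ ≤ 1 := by rw [hτdef]; exact inv_le_one_of_one_le₀ hD
  have hτC : C * A ^ (n + 1) * τ = 1 / (2 * C) := by
    rw [hτdef]
    field_simp
  refine ⟨τ ^ 2 / (2 * C), by positivity, ?_⟩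
  intro ν hg r hr hmass b v hv
  have hlf := hg.isLocallyFinite
  obtain ⟨S, hS, hSc⟩ := hcov (r⁻¹ • b) v hv τ hτ0 hτ1
  have hqc : Continuous (q b v) := q_continuous b v
  -- the set near the plane
  have hEmeas : MeasurableSet (closedBall (0 : X d) r ∩ {y | q b v y ≤ (τ * r) ^ 2}) :=
    measurableSet_closedBall.inter (isClosed_le hqc continuous_const).measurableSet
  have hsub : closedBall (0 : X d) r ∩ {y | q b v y ≤ (τ * r) ^ 2} ⊆
      ⋃ s ∈ S, closedBall (r • s) (A * τ * r) := by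
    rintro y ⟨hy, hqy⟩
    rw [mem_closedBall_zero_iff] at hy
    have hqy' : q b v y ≤ (τ * r) ^ 2 := hqy
    have h1 : ‖r⁻¹ • y‖ ≤ 1 := by
      rw [norm_smul, norm_inv, Real.norm_of_nonneg hr.le, inv_mul_le_iff₀ hr, mul_one]
      exact hy
    have h2 : q (r⁻¹ • b) v (r⁻¹ • y) ≤ τ ^ 2 := by
      rw [q_scale, inv_pow, inv_mul_le_iff₀ (by positivity)]
      calc q b v y ≤ (τ * r) ^ 2 := hqy'
        _ = r ^ 2 * τ ^ 2 := by ring
    obtain ⟨s, hs, hys⟩ := hSc _ h1 h2
    refine mem_biUnion hs ?_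
    rw [mem_closedBall, dist_eq_norm]
    have e : y - r • s = r • (r⁻¹ • y - s) := by
      rw [smul_sub, smul_inv_smul₀ hr.ne']
    rw [e, norm_smul, Real.norm_of_nonneg hr.le]
    nlinarith
  have hE : ν (closedBall (0 : X d) r ∩ {y | q b v y ≤ (τ * r) ^ 2}) ≤
      ENNReal.ofReal (r ^ n / (2 * C)) := by
    calc ν (closedBall (0 : X d) r ∩ {y | q b v y ≤ (τ * r) ^ 2})
        ≤ ν (⋃ s ∈ S, closedBall (r • s) (A * τ * r)) := measure_mono hsub
      _ ≤ ∑ s ∈ S, ν (closedBall (r • s) (A * τ * r)) := measure_biUnion_finset_le S _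
      _ ≤ ∑ _s ∈ S, ENNReal.ofReal (C * (A * τ * r) ^ n) :=
          Finset.sum_le_sum fun s _ => hg (r • s) (A * τ * r) (by positivity)
      _ = ENNReal.ofReal ((S.card : ℝ) * (C * (A * τ * r) ^ n)) := by
          rw [Finset.sum_const, nsmul_eq_mul, ENNReal.ofReal_mul (Nat.cast_nonneg _),
            ENNReal.ofReal_natCast]
      _ ≤ ENNReal.ofReal (r ^ n / (2 * C)) := by
          refine ENNReal.ofReal_le_ofReal ?_
          have h1 : (S.card : ℝ) * (C * (A * τ * r) ^ n) ≤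
              A * τ⁻¹ ^ (n - 1) * (C * (A * τ * r) ^ n) :=
            mul_le_mul_of_nonneg_right hS (by positivity)
          refine h1.trans (le_of_eq ?_)
          obtain ⟨k, rfl⟩ : ∃ k, n = k + 1 := ⟨n - 1, by omega⟩
          have e1 : k + 1 - 1 = k := by omega
          rw [e1]
          have e2 : A * τ⁻¹ ^ k * (C * (A * τ * r) ^ (k + 1)) =
              (C * A ^ (k + 1 + 1) * τ) * r ^ (k + 1) * (τ⁻¹ ^ k * τ ^ k) := by
            rw [mul_pow, mul_pow]
            ring
          rw [e2, hτC, ← mul_pow, inv_mul_cancel₀ hτ0.ne', one_pow, mul_one]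
          ring
  -- the rest
  have hrest : r ^ n / (2 * C) ≤
      ν.real (closedBall (0 : X d) r \ {y | q b v y ≤ (τ * r) ^ 2}) := by
    have h1 : ENNReal.ofReal (r ^ n / (2 * C)) + ENNReal.ofReal (r ^ n / (2 * C)) ≤
        ENNReal.ofReal (r ^ n / (2 * C)) +
          ν (closedBall (0 : X d) r \ {y | q b v y ≤ (τ * r) ^ 2}) := by
      rw [← ENNReal.ofReal_add (by positivity) (by positivity)]
      have e : r ^ n / (2 * C) + r ^ n / (2 * C) = r ^ n / C := by
        field_simp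
        ring
      rw [e]
      refine hmass.trans ?_
      calc ν (closedBall 0 r) ≤ ν (closedBall (0 : X d) r ∩ {y | q b v y ≤ (τ * r) ^ 2}) +
            ν (closedBall (0 : X d) r \ {y | q b v y ≤ (τ * r) ^ 2}) :=
            measure_le_inter_add_sdiff ν _ _
        _ ≤ _ := add_le_add hE le_rfl
    have h2 : ENNReal.ofReal (r ^ n / (2 * C)) ≤
        ν (closedBall (0 : X d) r \ {y | q b v y ≤ (τ * r) ^ 2}) :=
      (ENNReal.add_le_add_iff_left ENNReal.ofReal_ne_top).1 h1
    have hfin : ν (closedBall (0 : X d) r \ {y | q b v y ≤ (τ * r) ^ 2}) ≠ ⊤ :=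
      ((measure_mono sdiff_subset).trans_lt (hg.finite 0 r)).ne
    rw [Measure.real]
    exact (ENNReal.ofReal_le_iff_le_toReal hfin).1 h2
  have hint : IntegrableOn (q b v) (closedBall 0 r) ν :=
    hqc.continuousOn.integrableOn_compact (isCompact_closedBall 0 r)
  have hRm : MeasurableSet (closedBall (0 : X d) r \ {y | q b v y ≤ (τ * r) ^ 2}) :=
    measurableSet_closedBall.diff (isClosed_le hqc continuous_const).measurableSet
  have hfin : ν (closedBall (0 : X d) r \ {y | q b v y ≤ (τ * r) ^ 2}) ≠ ⊤ :=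
    ((measure_mono sdiff_subset).trans_lt (hg.finite 0 r)).ne
  calc τ ^ 2 / (2 * C) * r ^ (n + 2) = (τ * r) ^ 2 * (r ^ n / (2 * C)) := by ring
    _ ≤ (τ * r) ^ 2 * ν.real (closedBall (0 : X d) r \ {y | q b v y ≤ (τ * r) ^ 2}) :=
        mul_le_mul_of_nonneg_left hrest (by positivity)
    _ = ∫ _ in closedBall (0 : X d) r \ {y | q b v y ≤ (τ * r) ^ 2}, (τ * r) ^ 2 ∂ν := by
        rw [setIntegral_const, smul_eq_mul, mul_comm]
    _ ≤ ∫ y in closedBall (0 : X d) r \ {y | q b v y ≤ (τ * r) ^ 2}, q b v y ∂ν := by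
        refine setIntegral_mono_on (integrableOn_const hfin) (hint.mono_set sdiff_subset) hRm ?_
        rintro y ⟨_, hy⟩
        exact (not_le.1 hy).le
    _ ≤ ∫ y in closedBall 0 r, q b v y ∂ν := by
        refine setIntegral_mono_set hint ?_ (ae_of_all _ sdiff_subset)
        exact ae_of_all _ fun y => q_nonneg b hv y

/-- the support of an `n`-regular measure is not an `m`-plane, `m > n` -/
theorem no_full {n m : ℕ} (hnm : n < m) {C : ℝ} (hC : 1 ≤ C) {ν : Measure (X d)}
    (hg : Gr n C ν) (hl : Lo n C ν) (v : Fin m → X d) (hv : Orthonormal ℝ v) :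
    ¬ ∀ y ∈ Submodule.span ℝ (Set.range v), y ∈ Supp ν := by
  classical
  intro hall
  have hC0 : 0 < C := by linarith
  have key : ∀ N : ℕ, 1 ≤ N → (N : ℝ) ≤ C ^ 2 * 3 ^ n * (m + 1) ^ n := by
    intro N hN
    have hN0 : (0 : ℝ) < N := by exact_mod_cast hN
    let p : (Fin m → Fin N) → X d := fun k => ∑ i, (((k i : ℕ) : ℝ) / (N : ℝ)) • v i
    have hp : ∀ k, p k ∈ Submodule.span ℝ (Set.range v) := by
      intro k
      refine Submodule.sum_mem _ fun i _ => Submodule.smul_mem _ _ ?_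
      exact Submodule.subset_span ⟨i, rfl⟩
    have hinner : ∀ k i, ⟪v i, p k⟫ = ((k i : ℕ) : ℝ) / N := by
      intro k i
      have := hv.inner_right_fintype (fun i => ((k i : ℕ) : ℝ) / N) i
      exact this
    have hdist : ∀ k l, k ≠ l → 1 / (N : ℝ) ≤ ‖p k - p l‖ := by
      intro k l hkl
      obtain ⟨i, hi⟩ := Function.ne_iff.1 hkl
      refine le_trans ?_ (abs_inner_le hv i (p k - p l))
      rw [inner_sub_right, hinner, hinner, ← sub_div, abs_div, abs_of_pos hN0]
      refine div_le_div_of_nonneg_right ?_ hN0.le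
      have h1 : ((k i : ℕ) : ℤ) - ((l i : ℕ) : ℤ) ≠ 0 := by
        intro h
        exact hi (Fin.ext (by omega))
      have h2 : (1 : ℤ) ≤ |((k i : ℕ) : ℤ) - ((l i : ℕ) : ℤ)| := Int.one_le_abs h1
      exact_mod_cast h2
    have hnorm : ∀ k, ‖p k‖ ≤ m := by
      intro k
      refine (norm_sum_smul_le hv _).trans ?_
      have h1 : ∀ i ∈ (Finset.univ : Finset (Fin m)), |((k i : ℕ) : ℝ) / N| ≤ 1 := by
        intro i _
        rw [abs_of_nonneg (by positivity), div_le_one hN0]
        exact_mod_cast (k i).2.le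
      refine (Finset.sum_le_sum h1).trans ?_
      simp
    have hr : (0 : ℝ) < 1 / (3 * N) := by positivity
    have hdisj : Pairwise (fun k l => Disjoint (closedBall (p k) (1 / (3 * (N : ℝ))))
        (closedBall (p l) (1 / (3 * (N : ℝ))))) := by
      intro k l hkl
      refine closedBall_disjoint_closedBall ?_
      rw [dist_eq_norm]
      refine lt_of_lt_of_le ?_ (hdist k l hkl)
      have e : (1 : ℝ) / N = 3 * (1 / (3 * N)) := by field_simp
      rw [e]
      linarith
    have hsub : (⋃ k, closedBall (p k) (1 / (3 * (N : ℝ)))) ⊆ closedBall 0 (m + 1) := by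
      refine iUnion_subset fun k => closedBall_subset_closedBall' ?_
      rw [dist_zero_right]
      have h1 : 1 / (3 * (N : ℝ)) ≤ 1 := by
        rw [div_le_one (by positivity)]
        have : (1 : ℝ) ≤ N := by exact_mod_cast hN
        linarith
      have := hnorm k
      linarith
    have h1 : (∑ _k : Fin m → Fin N, ENNReal.ofReal ((1 / (3 * (N : ℝ))) ^ n / C)) ≤
        ENNReal.ofReal (C * (m + 1) ^ n) := by
      calc (∑ _k : Fin m → Fin N, ENNReal.ofReal ((1 / (3 * (N : ℝ))) ^ n / C))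
          ≤ ∑ k : Fin m → Fin N, ν (closedBall (p k) (1 / (3 * (N : ℝ)))) :=
            Finset.sum_le_sum fun k _ => hl (p k) (hall _ (hp k)) _ hr
        _ = ν (⋃ k, closedBall (p k) (1 / (3 * (N : ℝ)))) := by
            rw [measure_iUnion hdisj (fun k => measurableSet_closedBall), tsum_fintype]
        _ ≤ ν (closedBall 0 (m + 1)) := measure_mono hsub
        _ ≤ ENNReal.ofReal (C * (m + 1) ^ n) := hg 0 (m + 1) (by positivity)
    rw [Finset.sum_const, nsmul_eq_mul, Finset.card_univ, Fintype.card_fun, Fintype.card_fin,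
      Fintype.card_fin, ← ENNReal.ofReal_natCast, ← ENNReal.ofReal_mul (Nat.cast_nonneg _),
      ENNReal.ofReal_le_ofReal_iff (by positivity)] at h1
    push_cast at h1
    have h2 : (N : ℝ) ^ (n + 1) ≤ (N : ℝ) ^ m :=
      pow_le_pow_right₀ (by exact_mod_cast hN) hnm
    have h3 : (N : ℝ) ^ (n + 1) * ((1 / (3 * (N : ℝ))) ^ n / C) ≤ C * (m + 1) ^ n :=
      (mul_le_mul_of_nonneg_right h2 (by positivity)).trans h1
    have h4 : (N : ℝ) ^ (n + 1) * ((1 / (3 * (N : ℝ))) ^ n / C) = N / (3 ^ n * C) := by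
      rw [div_pow, mul_pow, one_pow, pow_succ]
      field_simp
    rw [h4, div_le_iff₀ (by positivity)] at h3
    calc (N : ℝ) ≤ C * (m + 1) ^ n * (3 ^ n * C) := h3
      _ = C ^ 2 * 3 ^ n * (m + 1) ^ n := by ring
  obtain ⟨N, hN⟩ := exists_nat_gt (C ^ 2 * 3 ^ n * ((m : ℝ) + 1) ^ n)
  have h1 := key (N + 1) (by omega)
  push_cast at h1
  linarith

end Pool.Agent.RZ
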