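import Pool.Agent.RZ.L2

/-!
D2: the truncated Riesz transforms are bounded at the points of the support (here at 0).
Test function psi = theta_r/m_r - theta_R/m_R, theta_r = cut (r/4) (support in the ball r/2), m_r = int theta_r >= (r/4)^n/C.
bridge + Refl: Qf n eps nu e (cut R') psi -> 0 (first eps small, then R' large; the bound B/R' is uniform in eps).
Qf(cut R', theta_r) = Qf(cut r, theta_r) + Qf(cut R' - cut r, theta_r).
local part: by antisymmetry Qf(f, psi) = (1/2) iint (psi(x) f(y) - psi(y) f(x)) <e,x-y> k, |theta_r(x) cut_r(y) - theta_r(y) cut_r(x)| <= 5/r |x-y|,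
support in the ball 2r: |.| <= (5/(2r)) int_{B_2r} int_{B(x,4r)} |x-y|^2 k <= (5/2r) C (2r)^n A C 4r (Gr.near).
far part: for x in supp theta_r (|x| <= r/2), cut R'(y) - cut r(y) != 0 only if |y| >= r:
|<e,x-y> k(x-y) - <e,-y> k(y)| <= c_n |x| |y|^{-(n+1)} (Kr_sub_le, z = -y, z' = x-y), Gr.tail: the integral over |y| >= r is <= A.
So Qf(cut R', theta_r/m_r) = - int (cut R' - cut r)(y) <e,y> kr n eps y dnu + O(A'). The same with R; subtract:
|int (cut R - cut r)(y) <e,y> kr n eps y dnu| <= A'' + |Qf(cut R', psi)|. Let R' -> oo, eps -> 0 (dominated convergence on r <= |y| <= 2R).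
-/

set_option autoImplicit false

open MeasureTheory Filter Topology Metric Set
open scoped RealInnerProductSpace ENNReal

namespace Pool.Agent.RZ

variable {d : ℕ}

private theorem D2_K_cont (n : ℕ) {ε : ℝ} (hε : 0 < ε) (e : X d) :
    Continuous (fun z : X d => ⟪e, z⟫ * kr n ε z) :=
  (continuous_const.inner continuous_id).mul (kr_continuous n hε)

private theorem D2_K_neg (n : ℕ) (ε : ℝ) (e z : X d) :
    ⟪e, -z⟫ * kr n ε (-z) = -(⟪e, z⟫ * kr n ε z) := by
  rw [inner_neg_right, kr_neg]; ring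

private theorem D2_intg (n : ℕ) {ε : ℝ} (hε : 0 < ε) (ν : Measure (X d))
    [IsLocallyFiniteMeasure ν] (e : X d) {θ f : X d → ℝ} (hθ : Continuous θ)
    (hθc : HasCompactSupport θ) (hf : Continuous f) (hfc : HasCompactSupport f) :
    Integrable (fun p : X d × X d => θ p.1 * f p.2 * (⟪e, p.1 - p.2⟫ * kr n ε (p.1 - p.2)))
      (ν.prod ν) := by
  refine Continuous.integrable_of_hasCompactSupport ?_ ?_
  · have h1 : Continuous (fun p : X d × X d => ⟪e, p.1 - p.2⟫ * kr n ε (p.1 - p.2)) :=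
      (D2_K_cont n hε e).comp (continuous_fst.sub continuous_snd)
    exact ((hθ.comp continuous_fst).mul (hf.comp continuous_snd)).mul h1
  · refine HasCompactSupport.intro (K := tsupport θ ×ˢ tsupport f) (hθc.isCompact.prod hfc.isCompact) ?_
    rintro ⟨x, y⟩ hxy
    by_cases hx : x ∈ tsupport θ
    · have hy : y ∉ tsupport f := fun hy => hxy ⟨hx, hy⟩
      have : f y = 0 := image_eq_zero_of_notMem_tsupport hy
      simp [this]
    · have : θ x = 0 := image_eq_zero_of_notMem_tsupport hx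
      simp [this]

private theorem D2_intg1 (n : ℕ) {ε : ℝ} (hε : 0 < ε) (ν : Measure (X d))
    [IsLocallyFiniteMeasure ν] (e x : X d) {f : X d → ℝ} (hf : Continuous f)
    (hfc : HasCompactSupport f) :
    Integrable (fun y : X d => f y * (⟪e, x - y⟫ * kr n ε (x - y))) ν := by
  refine Continuous.integrable_of_hasCompactSupport ?_ ?_
  · exact hf.mul ((D2_K_cont n hε e).comp (continuous_const.sub continuous_id))
  · exact hfc.mul_right

/-- local part -/
private theorem D2_local (n : ℕ) (hn : 1 ≤ n) : ∃ A : ℝ, 0 < A ∧ ∀ C : ℝ, 0 ≤ C →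
    ∀ ν : Measure (X d), Gr n C ν → ∀ e : X d, ‖e‖ ≤ 1 → ∀ s ε : ℝ, 0 < s → 0 < ε →
      |∫ x, ∫ y, cut (s / 4) x * cut s y * (⟪e, x - y⟫ * kr n ε (x - y)) ∂ν ∂ν|
        ≤ A * C * (C * (2 * s) ^ n) := by
  obtain ⟨A, hA, hnear⟩ := Gr.near (d := d) n hn
  refine ⟨10 * A, by positivity, ?_⟩
  intro C hC ν h e he s ε hs hε
  have := h.isLocallyFinite
  have hs4 : 0 < s / 4 := by positivity
  have cθ : Continuous (cut (s / 4) : X d → ℝ) := cut_continuous hs4
  have kθ : HasCompactSupport (cut (s / 4) : X d → ℝ) := cut_hasCompactSupport hs4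
  have cf : Continuous (cut s : X d → ℝ) := cut_continuous hs
  have kf : HasCompactSupport (cut s : X d → ℝ) := cut_hasCompactSupport hs
  have I1 := D2_intg n hε ν e cθ kθ cf kf
  have I2 := D2_intg n hε ν e cf kf cθ kθ
  have e1 : ∫ x, ∫ y, cut (s / 4) x * cut s y * (⟪e, x - y⟫ * kr n ε (x - y)) ∂ν ∂ν
      = ∫ p : X d × X d, cut (s / 4) p.1 * cut s p.2 * (⟪e, p.1 - p.2⟫ * kr n ε (p.1 - p.2))
        ∂(ν.prod ν) := (integral_prod _ I1).symm
  have e2 : ∫ p : X d × X d, cut (s / 4) p.1 * cut s p.2 * (⟪e, p.1 - p.2⟫ * kr n ε (p.1 - p.2))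
        ∂(ν.prod ν)
      = -∫ p : X d × X d, cut s p.1 * cut (s / 4) p.2 * (⟪e, p.1 - p.2⟫ * kr n ε (p.1 - p.2))
        ∂(ν.prod ν) := by
    rw [← integral_prod_swap, ← integral_neg]
    refine integral_congr_ae (Filter.Eventually.of_forall fun p => ?_)
    simp only [Prod.fst_swap, Prod.snd_swap]
    have := D2_K_neg n ε e (p.1 - p.2)
    rw [neg_sub] at this
    rw [this]; ring
  have e3 : ∫ x, ∫ y, cut (s / 4) x * cut s y * (⟪e, x - y⟫ * kr n ε (x - y)) ∂ν ∂ν
      = (1 / 2) * ∫ p : X d × X d, (cut (s / 4) p.1 * cut s p.2 - cut s p.1 * cut (s / 4) p.2)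
          * (⟪e, p.1 - p.2⟫ * kr n ε (p.1 - p.2)) ∂(ν.prod ν) := by
    have : ∫ p : X d × X d, (cut (s / 4) p.1 * cut s p.2 - cut s p.1 * cut (s / 4) p.2)
          * (⟪e, p.1 - p.2⟫ * kr n ε (p.1 - p.2)) ∂(ν.prod ν)
        = (∫ p : X d × X d, cut (s / 4) p.1 * cut s p.2 * (⟪e, p.1 - p.2⟫ * kr n ε (p.1 - p.2))
            ∂(ν.prod ν)) -
          ∫ p : X d × X d, cut s p.1 * cut (s / 4) p.2 * (⟪e, p.1 - p.2⟫ * kr n ε (p.1 - p.2))
            ∂(ν.prod ν) := by
      rw [← integral_sub I1 I2]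
      refine integral_congr_ae (Filter.Eventually.of_forall fun p => ?_)
      simp only
      ring
    rw [this, e1, ← sub_eq_zero]
    linarith [e2]
  set F : X d × X d → ℝ := fun p => (cut (s / 4) p.1 * cut s p.2 - cut s p.1 * cut (s / 4) p.2)
          * (⟪e, p.1 - p.2⟫ * kr n ε (p.1 - p.2)) with hF
  have IF : Integrable F (ν.prod ν) := by
    refine (I1.sub I2).congr (Filter.Eventually.of_forall fun p => ?_)
    simp only [hF, Pi.sub_apply]
    ring
  -- pointwise bound of F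
  have hFb : ∀ x y : X d, |F (x, y)| ≤ 5 / s * (‖y - x‖ ^ 2 * kr n ε (y - x)) := by
    intro x y
    simp only [hF]
    rw [abs_mul]
    have a1 : |cut (s / 4) x * cut s y - cut s x * cut (s / 4) y| ≤ 5 / s * ‖x - y‖ := by
      have b1 : |cut (s / 4) x - cut (s / 4) y| ≤ (s / 4)⁻¹ * ‖x - y‖ := cut_lip hs4 x y
      have b2 : |cut s y - cut s x| ≤ s⁻¹ * ‖y - x‖ := cut_lip hs y x
      rw [norm_sub_rev y x] at b2
      have b3 : cut (s / 4) x * cut s y - cut s x * cut (s / 4) y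
          = (cut (s / 4) x - cut (s / 4) y) * cut s y + cut (s / 4) y * (cut s y - cut s x) := by
        ring
      rw [b3]
      refine (abs_add_le _ _).trans ?_
      rw [abs_mul, abs_mul, abs_of_nonneg (cut_nonneg s y), abs_of_nonneg (cut_nonneg (s / 4) y)]
      have c1 : |cut (s / 4) x - cut (s / 4) y| * cut s y ≤ (s / 4)⁻¹ * ‖x - y‖ * 1 :=
        mul_le_mul b1 (cut_le_one s y) (cut_nonneg s y) (by positivity)
      have c2 : cut (s / 4) y * |cut s y - cut s x| ≤ 1 * (s⁻¹ * ‖x - y‖) :=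
        mul_le_mul (cut_le_one _ y) b2 (abs_nonneg _) (by norm_num)
      have c3 : (s / 4)⁻¹ * ‖x - y‖ * 1 + 1 * (s⁻¹ * ‖x - y‖) = 5 / s * ‖x - y‖ := by
        field_simp
        ring
      linarith
    have a2 : |⟪e, x - y⟫ * kr n ε (x - y)| ≤ ‖x - y‖ * kr n ε (x - y) := by
      rw [abs_mul, abs_of_nonneg (kr_nonneg n ε _)]
      refine mul_le_mul_of_nonneg_right ?_ (kr_nonneg n ε _)
      refine (abs_real_inner_le_norm e (x - y)).trans ?_
      calc ‖e‖ * ‖x - y‖ ≤ 1 * ‖x - y‖ := mul_le_mul_of_nonneg_right he (norm_nonneg _)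
        _ = ‖x - y‖ := one_mul _
    calc |cut (s / 4) x * cut s y - cut s x * cut (s / 4) y| * |⟪e, x - y⟫ * kr n ε (x - y)|
        ≤ (5 / s * ‖x - y‖) * (‖x - y‖ * kr n ε (x - y)) :=
          mul_le_mul a1 a2 (abs_nonneg _) (by positivity)
      _ = 5 / s * (‖y - x‖ ^ 2 * kr n ε (y - x)) := by
          rw [kr_comm n ε y x, norm_sub_rev y x]; ring
  -- support of F
  have hF0 : ∀ x y : X d, (2 * s < ‖x‖ ∨ 2 * s < ‖y‖) → F (x, y) = 0 := by
    intro x y hxy
    simp only [hF]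
    rcases hxy with hx | hy
    · have h1 : cut (s / 4) x = 0 := cut_eq_zero hs4 (by linarith)
      have h2 : cut s x = 0 := cut_eq_zero hs (by linarith)
      rw [h1, h2]; ring
    · have h1 : cut (s / 4) y = 0 := cut_eq_zero hs4 (by linarith)
      have h2 : cut s y = 0 := cut_eq_zero hs (by linarith)
      rw [h1, h2]; ring
  have hinner : ∀ x : X d, ∫ y, ‖F (x, y)‖ ∂ν ≤ 20 * A * C := by
    intro x
    by_cases hx : 2 * s < ‖x‖
    · have : ∀ y, ‖F (x, y)‖ = 0 := fun y => by rw [hF0 x y (Or.inl hx), norm_zero]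
      simp only [this, integral_zero]
      positivity
    · push Not at hx
      have hz : ∀ y ∉ closedBall x (4 * s), ‖F (x, y)‖ = 0 := by
        intro y hy
        rw [mem_closedBall, dist_eq_norm, not_le] at hy
        have : 2 * s < ‖y‖ := by
          have := norm_sub_le y x
          linarith
        rw [hF0 x y (Or.inr this), norm_zero]
      rw [← setIntegral_eq_integral_of_forall_compl_eq_zero hz]
      have cK : Continuous (fun y : X d => 5 / s * (‖y - x‖ ^ 2 * kr n ε (y - x))) := by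
        have h1 : Continuous (fun y : X d => kr n ε (y - x)) :=
          (kr_continuous n hε).comp (continuous_id.sub continuous_const)
        have h2 : Continuous (fun y : X d => ‖y - x‖ ^ 2) :=
          (continuous_id.sub continuous_const).norm.pow 2
        exact continuous_const.mul (h2.mul h1)
      have cFx : Continuous (fun y : X d => ‖F (x, y)‖) := by
        have h1 : Continuous (fun y : X d => ⟪e, x - y⟫ * kr n ε (x - y)) :=
          (D2_K_cont n hε e).comp (continuous_const.sub continuous_id)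
        have h2 : Continuous (fun y : X d => F (x, y)) := by
          simp only [hF]
          exact ((continuous_const.mul cf).sub (continuous_const.mul cθ)).mul h1
        exact h2.norm
      have step : ∫ y in closedBall x (4 * s), ‖F (x, y)‖ ∂ν
          ≤ ∫ y in closedBall x (4 * s), 5 / s * (‖y - x‖ ^ 2 * kr n ε (y - x)) ∂ν := by
        refine setIntegral_mono_on
          (cFx.continuousOn.integrableOn_compact (isCompact_closedBall _ _))
          (cK.continuousOn.integrableOn_compact (isCompact_closedBall _ _))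
          measurableSet_closedBall ?_
        intro y _
        rw [Real.norm_eq_abs]
        exact hFb x y
      refine step.trans ?_
      rw [integral_const_mul]
      have := hnear C hC ν h x (4 * s) ε (by positivity) hε
      calc 5 / s * ∫ y in closedBall x (4 * s), ‖y - x‖ ^ 2 * kr n ε (y - x) ∂ν
          ≤ 5 / s * (A * C * (4 * s)) := mul_le_mul_of_nonneg_left this (by positivity)
        _ = 20 * A * C := by field_simp; ring
  have hout : ∫ x, ∫ y, ‖F (x, y)‖ ∂ν ∂ν ≤ 20 * A * C * (C * (2 * s) ^ n) := by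
    have hz : ∀ x ∉ closedBall (0 : X d) (2 * s), ∫ y, ‖F (x, y)‖ ∂ν = 0 := by
      intro x hx
      rw [mem_closedBall, dist_zero_right, not_le] at hx
      have : ∀ y, ‖F (x, y)‖ = 0 := fun y => by rw [hF0 x y (Or.inl hx), norm_zero]
      simp only [this, integral_zero]
    rw [← setIntegral_eq_integral_of_forall_compl_eq_zero hz]
    have h1 : ‖∫ x in closedBall (0 : X d) (2 * s), ∫ y, ‖F (x, y)‖ ∂ν ∂ν‖
        ≤ 20 * A * C * ν.real (closedBall (0 : X d) (2 * s)) := by
      refine norm_setIntegral_le_of_norm_le_const (h.finite 0 (2 * s)) ?_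
      intro x _
      rw [Real.norm_eq_abs, abs_of_nonneg (integral_nonneg fun y => norm_nonneg _)]
      exact hinner x
    refine (le_abs_self _).trans ?_
    rw [← Real.norm_eq_abs]
    refine h1.trans ?_
    exact mul_le_mul_of_nonneg_left (h.real_le hC 0 (by positivity)) (by positivity)
  rw [e3, abs_mul, abs_of_pos (by norm_num : (0 : ℝ) < 1 / 2)]
  have h2 : |∫ p, F p ∂(ν.prod ν)| ≤ ∫ p, ‖F p‖ ∂(ν.prod ν) := by
    rw [← Real.norm_eq_abs]; exact norm_integral_le_integral_norm F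
  have h3 : ∫ p, ‖F p‖ ∂(ν.prod ν) = ∫ x, ∫ y, ‖F (x, y)‖ ∂ν ∂ν := integral_prod _ IF.norm
  calc 1 / 2 * |∫ p, F p ∂(ν.prod ν)| ≤ 1 / 2 * (20 * A * C * (C * (2 * s) ^ n)) := by
        refine mul_le_mul_of_nonneg_left ?_ (by norm_num)
        exact h2.trans (h3.le.trans hout)
    _ = 10 * A * C * (C * (2 * s) ^ n) := by ring

/-- far part -/
private theorem D2_far (n : ℕ) (hn : 1 ≤ n) : ∃ A : ℝ, 0 < A ∧ ∀ C : ℝ, 0 ≤ C →
    ∀ ν : Measure (X d), Gr n C ν → ∀ e : X d, ‖e‖ ≤ 1 → ∀ s R' ε : ℝ, 0 < s → s ≤ R' → 0 < ε →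
      |(∫ x, ∫ y, cut (s / 4) x * (cut R' y - cut s y) * (⟪e, x - y⟫ * kr n ε (x - y)) ∂ν ∂ν)
        + (∫ x, cut (s / 4) x ∂ν) * ∫ y, (cut R' y - cut s y) * (⟪e, y⟫ * kr n ε y) ∂ν|
        ≤ A * C * (∫ x, cut (s / 4) x ∂ν) := by
  obtain ⟨A, hA, htail⟩ := Gr.tail (d := d) n 1 hn le_rfl
  refine ⟨((n + 2) * 2 ^ (n + 3)) * A, by positivity, ?_⟩
  intro C hC ν h e he s R' ε hs hsR hε
  have := h.isLocallyFinite
  have hs4 : 0 < s / 4 := by positivity
  have hR' : 0 < R' := lt_of_lt_of_le hs hsR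
  have cθ : Continuous (cut (s / 4) : X d → ℝ) := cut_continuous hs4
  have kθ : HasCompactSupport (cut (s / 4) : X d → ℝ) := cut_hasCompactSupport hs4
  have cg : Continuous (fun y : X d => cut R' y - cut s y) :=
    (cut_continuous hR').sub (cut_continuous hs)
  have kg : HasCompactSupport (fun y : X d => cut R' y - cut s y) := by
    refine HasCompactSupport.intro (isCompact_closedBall (0 : X d) (2 * R')) ?_
    intro y hy
    rw [mem_closedBall, dist_zero_right, not_le] at hy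
    rw [cut_eq_zero hR' hy.le, cut_eq_zero hs (by linarith)]; ring
  have Iθ : Integrable (cut (s / 4) : X d → ℝ) ν := cθ.integrable_of_hasCompactSupport kθ
  have I1 := D2_intg n hε ν e cθ kθ cg kg
  have I2 : Integrable (fun x : X d => ∫ y, cut (s / 4) x * (cut R' y - cut s y)
      * (⟪e, x - y⟫ * kr n ε (x - y)) ∂ν) ν := I1.integral_prod_left
  set T : ℝ := ∫ y, (cut R' y - cut s y) * (⟪e, y⟫ * kr n ε y) ∂ν with hT
  have e1 : (∫ x, ∫ y, cut (s / 4) x * (cut R' y - cut s y) * (⟪e, x - y⟫ * kr n ε (x - y)) ∂ν ∂ν)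
        + (∫ x, cut (s / 4) x ∂ν) * T
      = ∫ x, ((∫ y, cut (s / 4) x * (cut R' y - cut s y) * (⟪e, x - y⟫ * kr n ε (x - y)) ∂ν)
          + cut (s / 4) x * T) ∂ν := by
    rw [integral_add I2 (Iθ.mul_const T), integral_mul_const]
  rw [e1, ← Real.norm_eq_abs]
  have hT' : T = -∫ y, (cut R' y - cut s y) * (⟪e, 0 - y⟫ * kr n ε (0 - y)) ∂ν := by
    rw [hT, ← integral_neg]
    refine integral_congr_ae (Filter.Eventually.of_forall fun y => ?_)
    simp only [zero_sub]
    rw [D2_K_neg n ε e y]; ring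
  have J0 := D2_intg1 n hε ν e 0 cg kg
  have key : ∀ x : X d,
      ‖(∫ y, cut (s / 4) x * (cut R' y - cut s y) * (⟪e, x - y⟫ * kr n ε (x - y)) ∂ν)
          + cut (s / 4) x * T‖ ≤ ((n + 2) * 2 ^ (n + 3)) * A * C * cut (s / 4) x := by
    intro x
    have J1 := D2_intg1 n hε ν e x cg kg
    have f1 : (∫ y, cut (s / 4) x * (cut R' y - cut s y) * (⟪e, x - y⟫ * kr n ε (x - y)) ∂ν)
        = cut (s / 4) x * ∫ y, (cut R' y - cut s y) * (⟪e, x - y⟫ * kr n ε (x - y)) ∂ν := by
      rw [← integral_const_mul]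
      refine integral_congr_ae (Filter.Eventually.of_forall fun y => ?_)
      simp only
      ring
    have f2 : (∫ y, cut (s / 4) x * (cut R' y - cut s y) * (⟪e, x - y⟫ * kr n ε (x - y)) ∂ν)
          + cut (s / 4) x * T
        = cut (s / 4) x * ∫ y, ((cut R' y - cut s y) * (⟪e, x - y⟫ * kr n ε (x - y))
            - (cut R' y - cut s y) * (⟪e, 0 - y⟫ * kr n ε (0 - y))) ∂ν := by
      rw [integral_sub J1 J0, f1, hT']; ring
    rw [f2, norm_mul, Real.norm_eq_abs (cut (s / 4) x), abs_of_nonneg (cut_nonneg _ x), mul_comm]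
    rcases (cut_nonneg (s / 4) x).eq_or_lt with h0 | h0
    · rw [← h0]; simp
    have hx : ‖x‖ ≤ s / 2 := by
      by_contra hx
      push Not at hx
      rw [cut_eq_zero hs4 (by linarith)] at h0
      exact lt_irrefl _ h0
    refine mul_le_mul_of_nonneg_right ?_ (cut_nonneg _ x)
    set G : X d → ℝ := fun y => (cut R' y - cut s y) * (⟪e, x - y⟫ * kr n ε (x - y))
            - (cut R' y - cut s y) * (⟪e, 0 - y⟫ * kr n ε (0 - y)) with hG
    have hG0 : ∀ y ∉ {y : X d | s ≤ ‖y - 0‖}, G y = 0 := by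
      intro y hy
      have hy' : ‖y‖ < s := by
        have h' : ¬ s ≤ ‖y - 0‖ := hy
        rwa [sub_zero, not_le] at h'
      simp only [hG]
      rw [cut_eq_one hR' (by linarith), cut_eq_one hs hy'.le]; ring
    rw [← setIntegral_eq_integral_of_forall_compl_eq_zero hG0]
    obtain ⟨t1, t2⟩ := htail C hC ν h 0 s hs
    have hms : MeasurableSet {y : X d | s ≤ ‖y - 0‖} :=
      measurableSet_le measurable_const (measurable_id.sub measurable_const).norm
    have hb : ‖∫ y in {y : X d | s ≤ ‖y - 0‖}, G y ∂ν‖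
        ≤ ∫ y in {y : X d | s ≤ ‖y - 0‖}, (((n + 2) * 2 ^ (n + 3)) * (s / 2))
          * ‖y - 0‖⁻¹ ^ (n + 1) ∂ν := by
      refine norm_integral_le_of_norm_le (t1.const_mul _) ?_
      refine (ae_restrict_iff' hms).mpr (Filter.Eventually.of_forall fun y hy => ?_)
      have hy' : s ≤ ‖y‖ := by
        have : s ≤ ‖y - 0‖ := hy
        rwa [sub_zero] at this
      have hy0 : (0 - y) ≠ 0 := by
        intro h0
        rw [zero_sub, neg_eq_zero] at h0
        rw [h0, norm_zero] at hy'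
        linarith
      have q1 : ‖(0 - y) - (x - y)‖ ≤ ‖(0 : X d) - y‖ / 2 := by
        have : (0 : X d) - y - (x - y) = -x := by abel
        rw [this, norm_neg, zero_sub, norm_neg]
        linarith
      have q2 := Kr_sub_le n ε e he hy0 q1
      have q3 : (0 : X d) - y - (x - y) = -x := by abel
      rw [q3, norm_neg, zero_sub, norm_neg, abs_sub_comm] at q2
      have q4 : G y = (cut R' y - cut s y) * (⟪e, x - y⟫ * kr n ε (x - y)
          - ⟪e, -y⟫ * kr n ε (-y)) := by
        simp only [hG, zero_sub]; ring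
      rw [q4, Real.norm_eq_abs, abs_mul, sub_zero]
      have q5 : |cut R' y - cut s y| ≤ 1 := by
        rw [abs_le]
        constructor
        · linarith [cut_nonneg R' y, cut_le_one s y]
        · linarith [cut_le_one R' y, cut_nonneg s y]
      calc |cut R' y - cut s y| * |⟪e, x - y⟫ * kr n ε (x - y) - ⟪e, -y⟫ * kr n ε (-y)|
          ≤ 1 * (((n + 2) * 2 ^ (n + 3)) * ‖x‖ * ‖y‖⁻¹ ^ (n + 1)) :=
            mul_le_mul q5 q2 (abs_nonneg _) (by norm_num)
        _ ≤ ((n + 2) * 2 ^ (n + 3)) * (s / 2) * ‖y‖⁻¹ ^ (n + 1) := by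
            rw [one_mul]
            refine mul_le_mul_of_nonneg_right ?_ (by positivity)
            exact mul_le_mul_of_nonneg_left hx (by positivity)
    refine hb.trans ?_
    rw [integral_const_mul]
    calc ((n + 2) * 2 ^ (n + 3)) * (s / 2)
          * ∫ y in {y : X d | s ≤ ‖y - 0‖}, ‖y - 0‖⁻¹ ^ (n + 1) ∂ν
        ≤ ((n + 2) * 2 ^ (n + 3)) * (s / 2) * (A * C * s⁻¹ ^ 1) :=
          mul_le_mul_of_nonneg_left t2 (by positivity)
      _ = (1 / 2) * (((n + 2) * 2 ^ (n + 3)) * A * C) := by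
          field_simp
      _ ≤ ((n + 2) * 2 ^ (n + 3)) * A * C := by
          have : (0 : ℝ) ≤ ((n + 2) * 2 ^ (n + 3)) * A * C := by positivity
          linarith
  have := norm_integral_le_of_norm_le (Iθ.const_mul (((n + 2) * 2 ^ (n + 3)) * A * C))
    (Filter.Eventually.of_forall key)
  rwa [integral_const_mul] at this

private theorem D2_key (n : ℕ) (hn : 1 ≤ n) (C : ℝ) (hC : 1 ≤ C) : ∃ A : ℝ, 0 < A ∧
    ∀ ν : Measure (X d), Gr n C ν →
      (∀ r, 0 < r → ENNReal.ofReal (r ^ n / C) ≤ ν (closedBall 0 r)) →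
      ∀ e : X d, ‖e‖ ≤ 1 → ∀ s R' ε : ℝ, 0 < s → s ≤ R' → 0 < ε →
      0 < (∫ x, cut (s / 4) x ∂ν) ∧
      |(∫ x, cut (s / 4) x ∂ν)⁻¹ * (∫ x, ∫ y, cut (s / 4) x * cut R' y
            * (⟪e, x - y⟫ * kr n ε (x - y)) ∂ν ∂ν)
        + ∫ y, (cut R' y - cut s y) * (⟪e, y⟫ * kr n ε y) ∂ν| ≤ A := by
  obtain ⟨A1, hA1, hloc⟩ := D2_local (d := d) n hn
  obtain ⟨A2, hA2, hfar⟩ := D2_far (d := d) n hn
  have hC0 : 0 ≤ C := by linarith
  have hCpos : 0 < C := by linarith
  refine ⟨A1 * C ^ 3 * 8 ^ n + A2 * C, by positivity, ?_⟩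
  intro ν h hlow e he s R' ε hs hsR hε
  have := h.isLocallyFinite
  have hs4 : 0 < s / 4 := by positivity
  have hR' : 0 < R' := lt_of_lt_of_le hs hsR
  have cθ : Continuous (cut (s / 4) : X d → ℝ) := cut_continuous hs4
  have kθ : HasCompactSupport (cut (s / 4) : X d → ℝ) := cut_hasCompactSupport hs4
  have Iθ : Integrable (cut (s / 4) : X d → ℝ) ν := cθ.integrable_of_hasCompactSupport kθ
  have hm : (s / 4) ^ n / C ≤ ∫ x, cut (s / 4) x ∂ν := by
    have h1 : (s / 4) ^ n / C ≤ ν.real (closedBall 0 (s / 4)) := by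
      have := hlow (s / 4) hs4
      rw [Measure.real]
      rwa [← ENNReal.ofReal_le_iff_le_toReal (h.finite _ _).ne]
    refine h1.trans ?_
    have h2 : ∫ x in closedBall (0 : X d) (s / 4), (1 : ℝ) ∂ν = ν.real (closedBall 0 (s / 4)) := by
      rw [setIntegral_const, smul_eq_mul, mul_one]
    rw [← h2]
    calc ∫ x in closedBall (0 : X d) (s / 4), (1 : ℝ) ∂ν
        ≤ ∫ x in closedBall (0 : X d) (s / 4), cut (s / 4) x ∂ν := by
          refine setIntegral_mono_on ?_ Iθ.integrableOn measurableSet_closedBall ?_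
          · exact integrableOn_const (h.finite _ _).ne
          · intro x hx
            rw [mem_closedBall, dist_zero_right] at hx
            rw [cut_eq_one hs4 hx]
      _ ≤ ∫ x, cut (s / 4) x ∂ν :=
          setIntegral_le_integral Iθ (Filter.Eventually.of_forall fun x => cut_nonneg _ x)
  have hm0 : 0 < (s / 4) ^ n / C := by positivity
  set m : ℝ := ∫ x, cut (s / 4) x ∂ν with hmdef
  have hmpos : 0 < m := lt_of_lt_of_le hm0 hm
  refine ⟨hmpos, ?_⟩
  have cf : Continuous (cut s : X d → ℝ) := cut_continuous hs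
  have kf : HasCompactSupport (cut s : X d → ℝ) := cut_hasCompactSupport hs
  have cg : Continuous (fun y : X d => cut R' y - cut s y) :=
    (cut_continuous hR').sub (cut_continuous hs)
  have kg : HasCompactSupport (fun y : X d => cut R' y - cut s y) := by
    refine HasCompactSupport.intro (isCompact_closedBall (0 : X d) (2 * R')) ?_
    intro y hy
    rw [mem_closedBall, dist_zero_right, not_le] at hy
    rw [cut_eq_zero hR' hy.le, cut_eq_zero hs (by linarith)]; ring
  have I1 := D2_intg n hε ν e cθ kθ cf kf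
  have I2 := D2_intg n hε ν e cθ kθ cg kg
  have hsplit : (∫ x, ∫ y, cut (s / 4) x * cut R' y * (⟪e, x - y⟫ * kr n ε (x - y)) ∂ν ∂ν)
      = (∫ x, ∫ y, cut (s / 4) x * cut s y * (⟪e, x - y⟫ * kr n ε (x - y)) ∂ν ∂ν)
        + ∫ x, ∫ y, cut (s / 4) x * (cut R' y - cut s y) * (⟪e, x - y⟫ * kr n ε (x - y)) ∂ν ∂ν := by
    rw [← integral_add I1.integral_prod_left I2.integral_prod_left]
    refine integral_congr_ae (Filter.Eventually.of_forall fun x => ?_)
    simp only
    have j1 : Integrable (fun y => cut (s / 4) x * cut s y * (⟪e, x - y⟫ * kr n ε (x - y))) ν := by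
      have := (D2_intg1 n hε ν e x cf kf).const_mul (cut (s / 4) x)
      refine this.congr (Filter.Eventually.of_forall fun y => ?_)
      simp only
      ring
    have j2 : Integrable (fun y => cut (s / 4) x * (cut R' y - cut s y)
        * (⟪e, x - y⟫ * kr n ε (x - y))) ν := by
      have := (D2_intg1 n hε ν e x cg kg).const_mul (cut (s / 4) x)
      refine this.congr (Filter.Eventually.of_forall fun y => ?_)
      simp only
      ring
    rw [← integral_add j1 j2]
    refine integral_congr_ae (Filter.Eventually.of_forall fun y => ?_)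
    simp only
    ring
  have b1 := hloc C hC0 ν h e he s ε hs hε
  have b2 := hfar C hC0 ν h e he s R' ε hs hsR hε
  rw [← hmdef] at b2
  rw [hsplit]
  set L1 : ℝ := ∫ x, ∫ y, cut (s / 4) x * cut s y * (⟪e, x - y⟫ * kr n ε (x - y)) ∂ν ∂ν with hL1
  set L2 : ℝ := ∫ x, ∫ y, cut (s / 4) x * (cut R' y - cut s y)
      * (⟪e, x - y⟫ * kr n ε (x - y)) ∂ν ∂ν with hL2
  set T : ℝ := ∫ y, (cut R' y - cut s y) * (⟪e, y⟫ * kr n ε y) ∂ν with hT
  have h3 : m⁻¹ * (L1 + L2) + T = m⁻¹ * L1 + m⁻¹ * (L2 + m * T) := by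
    field_simp
    ring
  rw [h3]
  refine (abs_add_le _ _).trans (add_le_add ?_ ?_)
  · rw [abs_mul, abs_of_pos (inv_pos.mpr hmpos)]
    have hinv : m⁻¹ ≤ ((s / 4) ^ n / C)⁻¹ := inv_anti₀ hm0 hm
    calc m⁻¹ * |L1| ≤ ((s / 4) ^ n / C)⁻¹ * (A1 * C * (C * (2 * s) ^ n)) :=
          mul_le_mul hinv b1 (abs_nonneg _) (by positivity)
      _ = A1 * C ^ 3 * 8 ^ n := by
          have : (2 * s) ^ n = 8 ^ n * (s / 4) ^ n := by
            rw [← mul_pow]; congr 1; ring
          rw [this]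
          have h4 : (s / 4) ^ n ≠ 0 := by positivity
          field_simp
  · rw [abs_mul, abs_of_pos (inv_pos.mpr hmpos)]
    calc m⁻¹ * |L2 + m * T| ≤ m⁻¹ * (A2 * C * m) :=
          mul_le_mul_of_nonneg_left b2 (by positivity)
      _ = A2 * C := by field_simp

theorem trunc_bound (n : ℕ) (hn : 1 ≤ n) (hd : 0 < d) (C : ℝ) (hC : 1 ≤ C) : ∃ A : ℝ, 0 < A ∧
    ∀ ν : Measure (X d), Gr n C ν → Refl n ν →
      (∀ r, 0 < r → ENNReal.ofReal (r ^ n / C) ≤ ν (closedBall 0 r)) →
      ∀ e : X d, ‖e‖ ≤ 1 → ∀ r R : ℝ, 0 < r → r ≤ R →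
        |∫ y, (cut R y - cut r y) * (⟪e, y⟫ * ‖y‖⁻¹ ^ (n + 1)) ∂ν| ≤ A := by
  obtain ⟨A, hA, hkey⟩ := D2_key (d := d) n hn C hC
  refine ⟨2 * A, by positivity, ?_⟩
  intro ν h hrefl hlow e he r R hr hrR
  have hC0 : 0 ≤ C := by linarith
  have hloc := h.isLocallyFinite
  have hR : 0 < R := lt_of_lt_of_le hr hrR
  have hr4 : 0 < r / 4 := by positivity
  have hR4 : 0 < R / 4 := by positivity
  set a : ℝ := (∫ x, cut (r / 4) x ∂ν)⁻¹ with ha
  set b : ℝ := (∫ x, cut (R / 4) x ∂ν)⁻¹ with hb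
  obtain ⟨mr, -⟩ := hkey ν h hlow e he r R 1 hr hrR one_pos
  obtain ⟨mR, -⟩ := hkey ν h hlow e he R R 1 hR le_rfl one_pos
  have hapos : 0 < a := inv_pos.mpr mr
  have hbpos : 0 < b := inv_pos.mpr mR
  -- the test function
  have t1 : Tst (r / 4)⁻¹ (R / 2) (cut (r / 4) : X d → ℝ) :=
    (cut_tst hr4).mono le_rfl (by linarith)
  have t2 : Tst (R / 4)⁻¹ (R / 2) (cut (R / 4) : X d → ℝ) :=
    (cut_tst hR4).mono le_rfl (by linarith)
  have t3 := (t1.const_mul a).add (t2.const_mul (-b))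
  set ψ : X d → ℝ := fun x => a * cut (r / 4) x + -b * cut (R / 4) x with hψ
  set L : ℝ := |a| * (r / 4)⁻¹ + |-b| * (R / 4)⁻¹ with hL
  have hL0 : 0 ≤ L := by positivity
  have Ir : Integrable (cut (r / 4) : X d → ℝ) ν :=
    (cut_continuous hr4).integrable_of_hasCompactSupport (cut_hasCompactSupport hr4)
  have IR : Integrable (cut (R / 4) : X d → ℝ) ν :=
    (cut_continuous hR4).integrable_of_hasCompactSupport (cut_hasCompactSupport hR4)
  have h0 : ∫ x, ψ x ∂ν = 0 := by
    simp only [hψ]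
    rw [integral_add (Ir.const_mul a) (IR.const_mul (-b)), integral_const_mul, integral_const_mul,
      ha, hb, inv_mul_cancel₀ mr.ne', neg_mul, inv_mul_cancel₀ mR.ne']
    ring
  obtain ⟨B, hB⟩ := bridge hn hd hC0 h hL0 (by positivity : (0 : ℝ) < R / 2) t3 h0 e
  have hlim := hrefl e L (R / 2) ψ t3 h0
  -- the bound for fixed ε and R'
  have hfix : ∀ ε : ℝ, 0 < ε → ∀ R' : ℝ, R ≤ R' →
      |∫ y, (cut R y - cut r y) * (⟪e, y⟫ * kr n ε y) ∂ν|
        ≤ 2 * A + |∫ y, ⟪e, y⟫ * Lam n ε ν ψ y ∂ν| + B / R' := by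
    intro ε hε R' hRR'
    have hR' : 0 < R' := lt_of_lt_of_le hR hRR'
    obtain ⟨-, k1⟩ := hkey ν h hlow e he r R' ε hr (hrR.trans hRR') hε
    obtain ⟨-, k2⟩ := hkey ν h hlow e he R R' ε hR hRR' hε
    have k3 := hB ε hε R' (by linarith)
    rw [← ha] at k1
    rw [← hb] at k2
    have I1 := D2_intg n hε ν e (cut_continuous hr4) (cut_hasCompactSupport hr4)
      (cut_continuous hR') (cut_hasCompactSupport hR')
    have I2 := D2_intg n hε ν e (cut_continuous hR4) (cut_hasCompactSupport hR4)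
      (cut_continuous hR') (cut_hasCompactSupport hR')
    set Jr : ℝ := ∫ x, ∫ y, cut (r / 4) x * cut R' y * (⟪e, x - y⟫ * kr n ε (x - y)) ∂ν ∂ν
      with hJr
    set JR : ℝ := ∫ x, ∫ y, cut (R / 4) x * cut R' y * (⟪e, x - y⟫ * kr n ε (x - y)) ∂ν ∂ν
      with hJR
    have hQ : Qf n ε ν e (cut R') ψ = a * Jr - b * JR := by
      rw [Qf, hJr, hJR, ← integral_const_mul, ← integral_const_mul,
        ← integral_sub (I1.integral_prod_left.const_mul a) (I2.integral_prod_left.const_mul b)]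
      refine integral_congr_ae (Filter.Eventually.of_forall fun x => ?_)
      simp only
      have j0 := D2_intg1 n hε ν e x (cut_continuous hR') (cut_hasCompactSupport hR')
      have g1 : ∀ c : ℝ, ∫ y, c * cut R' y * (⟪e, x - y⟫ * kr n ε (x - y)) ∂ν
          = c * ∫ y, cut R' y * (⟪e, x - y⟫ * kr n ε (x - y)) ∂ν := by
        intro c
        rw [← integral_const_mul]
        refine integral_congr_ae (Filter.Eventually.of_forall fun y => ?_)
        simp only
        ring
      rw [g1, g1, g1]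
      simp only [hψ]
      ring
    have hgi : ∀ s : ℝ, 0 < s → Integrable (fun y : X d => cut s y * (⟪e, y⟫ * kr n ε y)) ν := by
      intro s hs
      refine Continuous.integrable_of_hasCompactSupport
        ((cut_continuous hs).mul (D2_K_cont n hε e)) ?_
      exact (cut_hasCompactSupport hs).mul_right
    have hT : (∫ y, (cut R y - cut r y) * (⟪e, y⟫ * kr n ε y) ∂ν)
        = (∫ y, (cut R' y - cut r y) * (⟪e, y⟫ * kr n ε y) ∂ν)
          - ∫ y, (cut R' y - cut R y) * (⟪e, y⟫ * kr n ε y) ∂ν := by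
      have i1 : Integrable (fun y : X d => (cut R' y - cut r y) * (⟪e, y⟫ * kr n ε y)) ν := by
        refine ((hgi R' hR').sub (hgi r hr)).congr (Filter.Eventually.of_forall fun y => ?_)
        simp only [Pi.sub_apply]
        ring
      have i2 : Integrable (fun y : X d => (cut R' y - cut R y) * (⟪e, y⟫ * kr n ε y)) ν := by
        refine ((hgi R' hR').sub (hgi R hR)).congr (Filter.Eventually.of_forall fun y => ?_)
        simp only [Pi.sub_apply]
        ring
      rw [← integral_sub i1 i2]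
      refine integral_congr_ae (Filter.Eventually.of_forall fun y => ?_)
      simp only
      ring
    rw [hT]
    set Tr : ℝ := ∫ y, (cut R' y - cut r y) * (⟪e, y⟫ * kr n ε y) ∂ν with hTr
    set TR : ℝ := ∫ y, (cut R' y - cut R y) * (⟪e, y⟫ * kr n ε y) ∂ν with hTR
    set Λ : ℝ := ∫ y, ⟪e, y⟫ * Lam n ε ν ψ y ∂ν with hΛ
    rw [hQ] at k3
    have e1 : Tr - TR = (a * Jr + Tr) - (b * JR + TR) + (Λ - (a * Jr - b * JR)) - Λ := by ring
    rw [abs_le] at k1 k2 k3
    have e2 : |Λ| = |Λ| := rfl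
    have e3 := neg_abs_le Λ
    have e4 := le_abs_self Λ
    rw [abs_le]
    constructor
    · linarith [k1.1, k1.2, k2.1, k2.2, k3.1, k3.2]
    · linarith [k1.1, k1.2, k2.1, k2.2, k3.1, k3.2]
  -- R' → ∞
  have hfix2 : ∀ ε : ℝ, 0 < ε →
      |∫ y, (cut R y - cut r y) * (⟪e, y⟫ * kr n ε y) ∂ν|
        ≤ 2 * A + |∫ y, ⟪e, y⟫ * Lam n ε ν ψ y ∂ν| := by
    intro ε hε
    have l1 : Tendsto (fun R' : ℝ => 2 * A + |∫ y, ⟪e, y⟫ * Lam n ε ν ψ y ∂ν| + B / R') atTop
        (𝓝 (2 * A + |∫ y, ⟪e, y⟫ * Lam n ε ν ψ y ∂ν| + 0)) :=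
      tendsto_const_nhds.add (tendsto_const_nhds.div_atTop tendsto_id)
    rw [add_zero] at l1
    refine ge_of_tendsto l1 ?_
    filter_upwards [eventually_ge_atTop R] with R' hR'
    exact hfix ε hε R' hR'
  -- ε → 0
  have l2 : Tendsto (fun ε : ℝ => 2 * A + |∫ y, ⟪e, y⟫ * Lam n ε ν ψ y ∂ν|) (𝓝[>] 0)
      (𝓝 (2 * A + |0|)) := tendsto_const_nhds.add hlim.abs
  rw [abs_zero, add_zero] at l2
  have l3 : Tendsto (fun ε : ℝ => ∫ y, (cut R y - cut r y) * (⟪e, y⟫ * kr n ε y) ∂ν) (𝓝[>] 0)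
      (𝓝 (∫ y, (cut R y - cut r y) * (⟪e, y⟫ * ‖y‖⁻¹ ^ (n + 1)) ∂ν)) := by
    refine tendsto_integral_filter_of_dominated_convergence
      ((closedBall (0 : X d) (2 * R)).indicator fun _ => r⁻¹ ^ n) ?_ ?_ ?_ ?_
    · filter_upwards [self_mem_nhdsWithin] with ε hε
      exact (((cut_continuous hR).sub (cut_continuous hr)).mul
        (D2_K_cont n hε e)).aestronglyMeasurable
    · filter_upwards [self_mem_nhdsWithin] with ε hε
      refine Filter.Eventually.of_forall fun y => ?_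
      have hε' : 0 < ε := hε
      by_cases hy : y ∈ closedBall (0 : X d) (2 * R)
      · rw [indicator_of_mem hy]
        by_cases hyr : ‖y‖ ≤ r
        · rw [cut_eq_one hR (hyr.trans hrR), cut_eq_one hr hyr, sub_self, zero_mul, norm_zero]
          positivity
        · push Not at hyr
          rw [Real.norm_eq_abs, abs_mul, abs_mul, abs_of_nonneg (kr_nonneg n ε y)]
          have q5 : |cut R y - cut r y| ≤ 1 := by
            rw [abs_le]
            constructor
            · linarith [cut_nonneg R y, cut_le_one r y]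
            · linarith [cut_le_one R y, cut_nonneg r y]
          have q6 : |⟪e, y⟫| * kr n ε y ≤ r⁻¹ ^ n := by
            have z1 : |⟪e, y⟫| ≤ ‖y‖ := by
              refine (abs_real_inner_le_norm e y).trans ?_
              calc ‖e‖ * ‖y‖ ≤ 1 * ‖y‖ := mul_le_mul_of_nonneg_right he (norm_nonneg _)
                _ = ‖y‖ := one_mul _
            calc |⟪e, y⟫| * kr n ε y ≤ ‖y‖ * kr n ε y :=
                  mul_le_mul_of_nonneg_right z1 (kr_nonneg n ε y)
              _ ≤ ‖y‖⁻¹ ^ n := norm_mul_kr_le n hε' y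
              _ ≤ r⁻¹ ^ n := by
                  refine pow_le_pow_left₀ (by positivity) ?_ n
                  exact inv_anti₀ hr hyr.le
          calc |cut R y - cut r y| * (|⟪e, y⟫| * kr n ε y) ≤ 1 * r⁻¹ ^ n :=
                mul_le_mul q5 q6 (mul_nonneg (abs_nonneg _) (kr_nonneg n ε y)) (by norm_num)
            _ = r⁻¹ ^ n := one_mul _
      · rw [indicator_of_notMem hy]
        rw [mem_closedBall, dist_zero_right, not_le] at hy
        rw [cut_eq_zero hR hy.le, cut_eq_zero hr (by linarith), sub_self, zero_mul, norm_zero]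
    · refine (integrable_indicator_iff measurableSet_closedBall).mpr ?_
      exact integrableOn_const (h.finite _ _).ne
    · refine Filter.Eventually.of_forall fun y => ?_
      by_cases hyr : ‖y‖ ≤ r
      · rw [cut_eq_one hR (hyr.trans hrR), cut_eq_one hr hyr]
        simp
      · push Not at hyr
        have hy0 : 0 < ‖y‖ := hr.trans hyr
        refine tendsto_const_nhds.mul (tendsto_const_nhds.mul ?_)
        have c1 : Tendsto (fun ε : ℝ => (Real.sqrt (‖y‖ ^ 2 + ε ^ 2))⁻¹ ^ (n + 1)) (𝓝 0)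
            (𝓝 ((Real.sqrt (‖y‖ ^ 2 + 0 ^ 2))⁻¹ ^ (n + 1))) := by
          have c2 : ContinuousAt (fun ε : ℝ => Real.sqrt (‖y‖ ^ 2 + ε ^ 2)) 0 := by fun_prop
          have c3 : Real.sqrt (‖y‖ ^ 2 + 0 ^ 2) ≠ 0 := by
            have : 0 < ‖y‖ ^ 2 + 0 ^ 2 := by positivity
            exact (Real.sqrt_pos.mpr this).ne'
          exact (c2.inv₀ c3).pow (n + 1)
        have c4 : Real.sqrt (‖y‖ ^ 2 + 0 ^ 2) = ‖y‖ := by
          rw [zero_pow two_ne_zero, add_zero, Real.sqrt_sq (norm_nonneg _)]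
        rw [c4] at c1
        exact c1.mono_left nhdsWithin_le_nhds
  refine le_of_tendsto_of_tendsto l3.abs l2 ?_
  filter_upwards [self_mem_nhdsWithin] with ε hε
  exact hfix2 ε hε

end Pool.Agent.RZ
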