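import Pool.Agent.RZ.D2
import Pool.Agent.RZ.V2
import Pool.Agent.RZ.Bl

/-!
D3: blow-ups at a point where the support is touched from outside are contained in the hyperplane orthogonal to e.
s(y) = <e,y> |y|^{-(n+1)}; on Supp nu: s <= a |y|^{1-n}, so int_{B_2} s^+ <= a A C 2 (Gr.near_lintegral). By trunc_bound (R = 1, r = 2^{-k}):
int (cut 1 - cut 2^{-k}) s^- <= A + 2aAC =: A' for all k, so int (cut 1 - cut 2^{-k}) |s| <= A'' for all k; hence int_{B_1 \ {0}} |s| dnu < oo (monotone convergence)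
and int_{0 < |y| <= t} |s| -> 0 as t -> 0. For f >= 0 in C_c with support in {1/J <= |z| <= J}:
int f |s| d(blow n 0 2^{-i} nu) = int f(2^i y) |s(y)| dnu(y) <= sup f int_{0<|y| <= J 2^{-i}} |s| -> 0. So int f |s| dnu' = 0, and nu'-a.e. <e,y> = 0 on f > 0.
-/

set_option autoImplicit false

open MeasureTheory Filter Topology Metric Set
open scoped RealInnerProductSpace ENNReal

namespace Pool.Agent.RZ

variable {d : ℕ}

/-- the kernel is bounded away from the origin -/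
private theorem D3_ker_le {n : ℕ} {e : X d} (he : ‖e‖ ≤ 1) {r : ℝ} (hr : 0 < r) {y : X d}
    (hy : r ≤ ‖y‖) : |⟪e, y⟫ * ‖y‖⁻¹ ^ (n + 1)| ≤ r⁻¹ ^ n := by
  have hy0 : 0 < ‖y‖ := lt_of_lt_of_le hr hy
  have h1 : |⟪e, y⟫| ≤ ‖y‖ := by
    calc |⟪e, y⟫| ≤ ‖e‖ * ‖y‖ := abs_real_inner_le_norm e y
      _ ≤ 1 * ‖y‖ := by gcongr
      _ = ‖y‖ := one_mul _
  rw [abs_mul, abs_of_nonneg (by positivity : (0:ℝ) ≤ ‖y‖⁻¹ ^ (n + 1))]
  calc |⟪e, y⟫| * ‖y‖⁻¹ ^ (n + 1) ≤ ‖y‖ * ‖y‖⁻¹ ^ (n + 1) := by gcongr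
    _ = ‖y‖⁻¹ ^ n * (‖y‖ * ‖y‖⁻¹) := by ring
    _ = ‖y‖⁻¹ ^ n := by rw [mul_inv_cancel₀ hy0.ne', mul_one]
    _ ≤ r⁻¹ ^ n := by gcongr

private theorem D3_meas (n : ℕ) (e : X d) :
    Measurable fun y : X d => ⟪e, y⟫ * ‖y‖⁻¹ ^ (n + 1) := by
  have h1 : Continuous fun y : X d => ⟪e, y⟫ := by fun_prop
  have h2 : Measurable fun y : X d => ‖y‖⁻¹ ^ (n + 1) := (measurable_norm.inv).pow_const _
  exact h1.measurable.mul h2

/-- the truncated kernels are integrable -/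
private theorem D3_int {n : ℕ} {C : ℝ} {ν : Measure (X d)} (hg : Gr n C ν) {e : X d}
    (he : ‖e‖ ≤ 1) {r : ℝ} (hr : 0 < r) (hr1 : r ≤ 1) :
    Integrable (fun y => (cut 1 y - cut r y) * (⟪e, y⟫ * ‖y‖⁻¹ ^ (n + 1))) ν := by
  have hball : Integrable ((closedBall (0 : X d) 2).indicator fun _ => r⁻¹ ^ n) ν := by
    rw [integrable_indicator_iff isClosed_closedBall.measurableSet]
    exact integrableOn_const (hs := (hg.finite 0 2).ne)
  refine hball.mono' ?_ ?_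
  · exact (((cut_continuous one_pos).measurable.sub (cut_continuous hr).measurable).mul
      (D3_meas n e)).aestronglyMeasurable
  · refine Eventually.of_forall fun y => ?_
    rw [Real.norm_eq_abs, abs_mul]
    have h0 : 0 ≤ cut 1 y - cut r y := sub_nonneg.2 (cut_mono hr hr1 y)
    rw [abs_of_nonneg h0]
    have h1 : cut 1 y - cut r y ≤ 1 := by
      have := cut_le_one 1 y
      have := cut_nonneg r y
      linarith
    by_cases hy2 : 2 < ‖y‖
    · have e1 : cut 1 y = 0 := cut_eq_zero one_pos (by linarith)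
      have e2 : cut r y = 0 := cut_eq_zero hr (by linarith)
      rw [e1, e2, sub_zero, zero_mul]
      exact indicator_nonneg (fun _ _ => by positivity) y
    · rw [indicator_of_mem (by simpa using not_lt.1 hy2)]
      by_cases hyr : r ≤ ‖y‖
      · calc (cut 1 y - cut r y) * |⟪e, y⟫ * ‖y‖⁻¹ ^ (n + 1)| ≤ 1 * r⁻¹ ^ n :=
            mul_le_mul h1 (D3_ker_le he hr hyr) (abs_nonneg _) zero_le_one
          _ = r⁻¹ ^ n := one_mul _
      · have e1 : cut 1 y = 1 := cut_eq_one one_pos (by linarith)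
        have e2 : cut r y = 1 := cut_eq_one hr (by linarith)
        rw [e1, e2, sub_self, zero_mul]
        positivity

/-- integrability of the kernel near the origin -/
private theorem D3_fin {n : ℕ} (hn : 1 ≤ n) (hd : 0 < d) {C : ℝ} (hC : 1 ≤ C) {ν : Measure (X d)}
    (hν : Reg n C ν) (h0 : 0 ∈ Supp ν) (e : X d) (he : ‖e‖ ≤ 1) {a : ℝ} (ha : 0 ≤ a)
    (htouch : ∀ y ∈ Supp ν, ⟪e, y⟫ ≤ a * ‖y‖ ^ 2) :
    ∫⁻ y in closedBall 0 1, ENNReal.ofReal |⟪e, y⟫ * ‖y‖⁻¹ ^ (n + 1)| ∂ν < ⊤ := by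
  obtain ⟨A₁, hA₁, hnear⟩ := Gr.near_lintegral (d := d) n hn
  obtain ⟨A₂, hA₂, htr⟩ := trunc_bound (d := d) n hn hd C hC
  have hlow : ∀ r, 0 < r → ENNReal.ofReal (r ^ n / C) ≤ ν (closedBall 0 r) :=
    fun r hr => hν.lo 0 h0 r hr
  set s : X d → ℝ := fun y => ⟪e, y⟫ * ‖y‖⁻¹ ^ (n + 1) with hs
  -- the positive part
  have hpos : ∫⁻ y in closedBall 0 2, ENNReal.ofReal (s y) ∂ν ≤
      ENNReal.ofReal (a * (A₁ * C * 2)) := by
    have hae : ∀ᵐ y ∂ν, y ∈ Supp ν := by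
      rw [ae_iff]
      exact supp_compl_null ν
    have h1 : ∀ᵐ y ∂(ν.restrict (closedBall 0 2)), ENNReal.ofReal (s y) ≤
        ENNReal.ofReal a * ENNReal.ofReal (‖y - 0‖ * ‖y - 0‖⁻¹ ^ n) := by
      refine (ae_restrict_of_ae hae).mono fun y hy => ?_
      rw [← ENNReal.ofReal_mul ha, sub_zero]
      refine ENNReal.ofReal_le_ofReal ?_
      have h2 := htouch y hy
      rcases eq_or_ne y 0 with rfl | hy0
      · simp [hs]
      · have hy1 : 0 < ‖y‖ := norm_pos_iff.2 hy0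
        calc s y = ⟪e, y⟫ * ‖y‖⁻¹ ^ (n + 1) := rfl
          _ ≤ a * ‖y‖ ^ 2 * ‖y‖⁻¹ ^ (n + 1) := by gcongr
          _ = a * (‖y‖ * ‖y‖⁻¹ ^ n) * (‖y‖ * ‖y‖⁻¹) := by ring
          _ = a * (‖y‖ * ‖y‖⁻¹ ^ n) := by rw [mul_inv_cancel₀ hy1.ne', mul_one]
    calc ∫⁻ y in closedBall 0 2, ENNReal.ofReal (s y) ∂ν
        ≤ ∫⁻ y in closedBall 0 2,
            ENNReal.ofReal a * ENNReal.ofReal (‖y - 0‖ * ‖y - 0‖⁻¹ ^ n) ∂ν := lintegral_mono_ae h1
      _ = ENNReal.ofReal a *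
            ∫⁻ y in closedBall 0 2, ENNReal.ofReal (‖y - 0‖ * ‖y - 0‖⁻¹ ^ n) ∂ν :=
          lintegral_const_mul' _ _ ENNReal.ofReal_ne_top
      _ ≤ ENNReal.ofReal a * ENNReal.ofReal (A₁ * C * 2) := by
          gcongr
          exact hnear C (by linarith) ν hν.gr 0 2 two_pos
      _ = ENNReal.ofReal (a * (A₁ * C * 2)) := (ENNReal.ofReal_mul ha).symm
  -- the truncations
  set M : ℝ := a * (A₁ * C * 2) with hM
  have hM0 : 0 ≤ M := by
    have : 0 < C := by linarith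
    positivity
  have hk : ∀ k : ℕ, ∫⁻ y, ENNReal.ofReal |(cut 1 y - cut ((2:ℝ)⁻¹ ^ k) y) * s y| ∂ν ≤
      ENNReal.ofReal M + ENNReal.ofReal (M + A₂) := by
    intro k
    have hr : (0:ℝ) < 2⁻¹ ^ k := by positivity
    have hr1 : (2:ℝ)⁻¹ ^ k ≤ 1 := pow_le_one₀ (by norm_num) (by norm_num)
    set f : X d → ℝ := fun y => (cut 1 y - cut ((2:ℝ)⁻¹ ^ k) y) * s y with hf
    have hfi : Integrable f ν := D3_int hν.gr he hr hr1
    have hfp : ∫⁻ y, ENNReal.ofReal (f y) ∂ν ≤ ENNReal.ofReal M := by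
      refine le_trans ?_ hpos
      rw [← lintegral_indicator isClosed_closedBall.measurableSet]
      refine lintegral_mono fun y => ?_
      have hg0 : 0 ≤ cut 1 y - cut ((2:ℝ)⁻¹ ^ k) y := sub_nonneg.2 (cut_mono hr hr1 y)
      have hg1 : cut 1 y - cut ((2:ℝ)⁻¹ ^ k) y ≤ 1 := by
        have := cut_le_one 1 y
        have := cut_nonneg ((2:ℝ)⁻¹ ^ k) y
        linarith
      by_cases hy2 : 2 < ‖y‖
      · have e1 : cut 1 y = 0 := cut_eq_zero one_pos (by linarith)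
        have e2 : cut ((2:ℝ)⁻¹ ^ k) y = 0 := cut_eq_zero hr (by linarith)
        simp only [hf]
        rw [e1, e2, sub_zero, zero_mul, ENNReal.ofReal_zero]
        exact zero_le
      · rw [indicator_of_mem (by simpa using not_lt.1 hy2)]
        simp only [hf]
        rcases le_total 0 (s y) with hsy | hsy
        · refine ENNReal.ofReal_le_ofReal ?_
          calc (cut 1 y - cut ((2:ℝ)⁻¹ ^ k) y) * s y ≤ 1 * s y := by gcongr
            _ = s y := one_mul _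
        · rw [ENNReal.ofReal_eq_zero.2 (mul_nonpos_of_nonneg_of_nonpos hg0 hsy)]
          exact zero_le
    have htrk : |∫ y, f y ∂ν| ≤ A₂ := htr ν hν.gr hν.refl hlow e he ((2:ℝ)⁻¹ ^ k) 1 hr hr1
    have hnegfin : ∫⁻ y, ENNReal.ofReal (-f y) ∂ν ≠ ⊤ := by
      have := hfi.neg.lintegral_lt_top
      simpa using this.ne
    have hposfin : ∫⁻ y, ENNReal.ofReal (f y) ∂ν ≠ ⊤ := hfi.lintegral_lt_top.ne
    have hsplit := integral_eq_lintegral_pos_part_sub_lintegral_neg_part hfi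
    have hneg : ∫⁻ y, ENNReal.ofReal (-f y) ∂ν ≤ ENNReal.ofReal (M + A₂) := by
      rw [← ENNReal.ofReal_toReal hnegfin]
      refine ENNReal.ofReal_le_ofReal ?_
      have h1 : (∫⁻ y, ENNReal.ofReal (f y) ∂ν).toReal ≤ M := by
        have := ENNReal.toReal_mono ENNReal.ofReal_ne_top hfp
        rwa [ENNReal.toReal_ofReal hM0] at this
      have h2 := neg_abs_le (∫ y, f y ∂ν)
      linarith
    calc ∫⁻ y, ENNReal.ofReal |f y| ∂ν
        ≤ ∫⁻ y, (ENNReal.ofReal (f y) + ENNReal.ofReal (-f y)) ∂ν := by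
          refine lintegral_mono fun y => ?_
          rcases le_total 0 (f y) with h | h
          · rw [abs_of_nonneg h]
            exact le_self_add
          · rw [abs_of_nonpos h]
            exact le_add_self
      _ = ∫⁻ y, ENNReal.ofReal (f y) ∂ν + ∫⁻ y, ENNReal.ofReal (-f y) ∂ν :=
          lintegral_add_left' (hfi.aestronglyMeasurable.aemeasurable.ennreal_ofReal) _
      _ ≤ ENNReal.ofReal M + ENNReal.ofReal (M + A₂) := add_le_add hfp hneg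
  -- Fatou
  have hmeas : ∀ k : ℕ, Measurable fun y =>
      ENNReal.ofReal |(cut 1 y - cut ((2:ℝ)⁻¹ ^ k) y) * s y| := by
    intro k
    have hr : (0:ℝ) < 2⁻¹ ^ k := by positivity
    exact (((cut_continuous one_pos).measurable.sub (cut_continuous hr).measurable).mul
      (D3_meas n e)).norm.ennreal_ofReal
  have hfatou := lintegral_liminf_le (μ := ν.restrict (closedBall 0 1)) (u := atTop) hmeas
  have hlim : ∀ y ∈ closedBall (0 : X d) 1, ENNReal.ofReal |s y| ≤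
      liminf (fun k : ℕ => ENNReal.ofReal |(cut 1 y - cut ((2:ℝ)⁻¹ ^ k) y) * s y|) atTop := by
    intro y hy
    rcases eq_or_ne y 0 with rfl | hy0
    · simp [hs]
    · have hy1 : 0 < ‖y‖ := norm_pos_iff.2 hy0
      have hyle : ‖y‖ ≤ 1 := by simpa using hy
      have hev : ∀ᶠ k : ℕ in atTop,
          ENNReal.ofReal |(cut 1 y - cut ((2:ℝ)⁻¹ ^ k) y) * s y| = ENNReal.ofReal |s y| := by
        have ht : Tendsto (fun k : ℕ => 2 * (2:ℝ)⁻¹ ^ k) atTop (𝓝 (2 * 0)) :=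
          (tendsto_pow_atTop_nhds_zero_of_lt_one (by norm_num) (by norm_num)).const_mul 2
        rw [mul_zero] at ht
        filter_upwards [ht.eventually (gt_mem_nhds hy1)] with k hk
        have hr : (0:ℝ) < 2⁻¹ ^ k := by positivity
        rw [cut_eq_one one_pos hyle, cut_eq_zero hr hk.le, sub_zero, one_mul]
      exact (Tendsto.liminf_eq (tendsto_const_nhds.congr' (hev.mono fun k hk => hk.symm))).ge
  calc ∫⁻ y in closedBall 0 1, ENNReal.ofReal |s y| ∂ν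
      ≤ ∫⁻ y in closedBall 0 1, liminf (fun k : ℕ =>
          ENNReal.ofReal |(cut 1 y - cut ((2:ℝ)⁻¹ ^ k) y) * s y|) atTop ∂ν :=
        setLIntegral_mono' isClosed_closedBall.measurableSet hlim
    _ ≤ liminf (fun k : ℕ => ∫⁻ y in closedBall 0 1,
          ENNReal.ofReal |(cut 1 y - cut ((2:ℝ)⁻¹ ^ k) y) * s y| ∂ν) atTop := hfatou
    _ ≤ liminf (fun _ : ℕ => ENNReal.ofReal M + ENNReal.ofReal (M + A₂)) atTop := by
        refine liminf_le_liminf (Eventually.of_forall fun k => ?_)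
        exact le_trans (lintegral_mono' Measure.restrict_le_self le_rfl) (hk k)
    _ = ENNReal.ofReal M + ENNReal.ofReal (M + A₂) := liminf_const _
    _ < ⊤ := ENNReal.add_lt_top.2 ⟨ENNReal.ofReal_lt_top, ENNReal.ofReal_lt_top⟩

/-- the integrals over small balls tend to zero -/
private theorem D3_tend {n : ℕ} (hn : 1 ≤ n) {C : ℝ} {ν : Measure (X d)} (hg : Gr n C ν)
    {g : X d → ℝ≥0∞} (hfin : ∫⁻ y in closedBall 0 1, g y ∂ν < ⊤) {ρ : ℝ} (hρ : 0 < ρ) :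
    Tendsto (fun i : ℕ => ∫⁻ y in closedBall 0 (ρ * (2:ℝ)⁻¹ ^ i), g y ∂ν) atTop (𝓝 0) := by
  have ht : Tendsto (fun k : ℕ => ρ * (2:ℝ)⁻¹ ^ k) atTop (𝓝 0) := by
    have := (tendsto_pow_atTop_nhds_zero_of_lt_one (by norm_num : (0:ℝ) ≤ 2⁻¹)
      (by norm_num)).const_mul ρ
    rwa [mul_zero] at this
  have hmu : Tendsto ((ν.restrict (closedBall 0 1)) ∘
      fun i : ℕ => closedBall (0 : X d) (ρ * (2:ℝ)⁻¹ ^ i)) atTop (𝓝 0) := by
    have hub : Tendsto (fun i : ℕ => ENNReal.ofReal (C * (ρ * (2:ℝ)⁻¹ ^ i) ^ n)) atTop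
        (𝓝 (ENNReal.ofReal (C * 0 ^ n))) :=
      (ENNReal.continuous_ofReal.tendsto _).comp ((ht.pow n).const_mul C)
    rw [zero_pow (by omega), mul_zero, ENNReal.ofReal_zero] at hub
    refine tendsto_of_tendsto_of_tendsto_of_le_of_le tendsto_const_nhds hub
      (fun _ => zero_le) fun i => ?_
    exact le_trans (Measure.restrict_apply_le _ _) (hg 0 _ (by positivity))
  have h1 := tendsto_setLIntegral_zero hfin.ne hmu
  refine h1.congr' ?_
  filter_upwards [ht.eventually (gt_mem_nhds one_pos)] with i hi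
  rw [Measure.restrict_restrict isClosed_closedBall.measurableSet,
    inter_eq_left.2 (closedBall_subset_closedBall hi.le)]

theorem blow_perp {n : ℕ} (hn : 1 ≤ n) (hd : 0 < d) {C : ℝ} (hC : 1 ≤ C) {ν : Measure (X d)}
    (hν : Reg n C ν) (h0 : 0 ∈ Supp ν) (e : X d) (he : ‖e‖ ≤ 1) {a : ℝ} (ha : 0 ≤ a)
    (htouch : ∀ y ∈ Supp ν, ⟪e, y⟫ ≤ a * ‖y‖ ^ 2) {ν' : Measure (X d)} (hg' : Gr n C ν')
    (hv : VC (fun i => blow n 0 ((2 : ℝ)⁻¹ ^ i) ν) ν') : ∀ y ∈ Supp ν', ⟪e, y⟫ = 0 := by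
  intro y₀ hy₀
  rcases eq_or_ne y₀ 0 with rfl | hne
  · exact inner_zero_right e
  have hy1 : 0 < ‖y₀‖ := norm_pos_iff.2 hne
  have hfin := D3_fin hn hd hC hν h0 e he ha htouch
  set s : X d → ℝ := fun y => ⟪e, y⟫ * ‖y‖⁻¹ ^ (n + 1) with hs
  set ρ : ℝ := 2 * ‖y₀‖ with hρ
  have hρ0 : 0 < ρ := by positivity
  set f : X d → ℝ := fun z => max 0 (1 - 2 / ‖y₀‖ * ‖z - y₀‖) with hf
  have hfc : Continuous f := by fun_prop
  have hf0 : ∀ z, 0 ≤ f z := fun z => le_max_left _ _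
  have hf1 : ∀ z, f z ≤ 1 := by
    intro z
    refine max_le zero_le_one ?_
    have : 0 ≤ 2 / ‖y₀‖ * ‖z - y₀‖ := by positivity
    linarith
  have hfs : ∀ z, f z ≠ 0 → ‖z - y₀‖ < ‖y₀‖ / 2 := by
    intro z hz
    by_contra hcon
    push Not at hcon
    apply hz
    refine max_eq_left ?_
    have : 2 / ‖y₀‖ * (‖y₀‖ / 2) ≤ 2 / ‖y₀‖ * ‖z - y₀‖ := by gcongr
    have h3 : 2 / ‖y₀‖ * (‖y₀‖ / 2) = 1 := by field_simp
    linarith
  have hfs1 : ∀ z, f z ≠ 0 → ‖z‖ ≤ ρ := by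
    intro z hz
    have h1 := hfs z hz
    have h2 : ‖z‖ ≤ ‖z - y₀‖ + ‖y₀‖ := by
      calc ‖z‖ = ‖(z - y₀) + y₀‖ := by rw [sub_add_cancel]
        _ ≤ ‖z - y₀‖ + ‖y₀‖ := norm_add_le _ _
    linarith
  have hfs2 : ∀ z, f z ≠ 0 → 0 < ‖z‖ := by
    intro z hz
    have h1 := hfs z hz
    have h2 : ‖y₀‖ ≤ ‖z - y₀‖ + ‖z‖ := by
      calc ‖y₀‖ = ‖z - (z - y₀)‖ := by rw [sub_sub_cancel]
        _ ≤ ‖z‖ + ‖z - y₀‖ := norm_sub_le _ _
        _ = ‖z - y₀‖ + ‖z‖ := add_comm _ _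
    linarith
  set h : X d → ℝ := fun z => f z * |⟪e, z⟫| with hh
  have hhc : Continuous h := by
    refine hfc.mul ?_
    fun_prop
  have hh0 : ∀ z, 0 ≤ h z := fun z => mul_nonneg (hf0 z) (abs_nonneg _)
  have hhs : HasCompactSupport h := by
    refine HasCompactSupport.intro (isCompact_closedBall (0 : X d) ρ) fun z hz => ?_
    have : f z = 0 := by
      by_contra hcon
      exact hz (by simpa using hfs1 z hcon)
    simp only [hh]
    rw [this, zero_mul]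
  have hbound : ∀ i : ℕ, ENNReal.ofReal (∫ z, h z ∂(blow n 0 ((2 : ℝ)⁻¹ ^ i) ν)) ≤
      ENNReal.ofReal (ρ ^ (n + 1)) *
        ∫⁻ y in closedBall 0 (ρ * (2:ℝ)⁻¹ ^ i), ENNReal.ofReal |s y| ∂ν := by
    intro i
    have hr : (0:ℝ) < 2⁻¹ ^ i := by positivity
    rw [integral_blow n 0 hr ν h, ← integral_const_mul]
    generalize (2:ℝ)⁻¹ ^ i = r at hr ⊢
    have hr' : (0:ℝ) < r⁻¹ := inv_pos.2 hr
    have hFc : Continuous fun y : X d => r⁻¹ ^ n * h (r⁻¹ • (y - 0)) := by fun_prop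
    rw [integral_eq_lintegral_of_nonneg_ae
      (Eventually.of_forall fun y => mul_nonneg (by positivity) (hh0 _))
      hFc.aestronglyMeasurable]
    refine le_trans ENNReal.ofReal_toReal_le ?_
    rw [← lintegral_const_mul' _ _ ENNReal.ofReal_ne_top,
      ← lintegral_indicator isClosed_closedBall.measurableSet]
    refine lintegral_mono fun y => ?_
    rw [sub_zero]
    rcases eq_or_ne (f (r⁻¹ • y)) 0 with hf00 | hfne
    · simp only [hh]
      rw [hf00, zero_mul, mul_zero, ENNReal.ofReal_zero]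
      exact zero_le
    · have hz1 := hfs1 _ hfne
      have hz2 := hfs2 _ hfne
      rw [norm_smul, Real.norm_eq_abs, abs_of_pos hr'] at hz1 hz2
      have hyr : ‖y‖ ≤ ρ * r := by
        calc ‖y‖ = r⁻¹ * ‖y‖ * r := by field_simp
          _ ≤ ρ * r := by gcongr
      have hy2 : 0 < ‖y‖ := (pos_iff_pos_of_mul_pos hz2).1 hr'
      rw [indicator_of_mem (by simpa using hyr), ← ENNReal.ofReal_mul (by positivity)]
      refine ENNReal.ofReal_le_ofReal ?_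
      simp only [hh, hs]
      rw [inner_smul_right, abs_mul, abs_of_pos hr', abs_mul,
        abs_of_nonneg (by positivity : (0:ℝ) ≤ ‖y‖⁻¹ ^ (n + 1))]
      have hkey : r⁻¹ ^ (n + 1) ≤ ρ ^ (n + 1) * ‖y‖⁻¹ ^ (n + 1) := by
        rw [← mul_pow]
        have : r⁻¹ ≤ ρ * ‖y‖⁻¹ := by
          rw [← div_eq_mul_inv, le_div_iff₀ hy2]
          exact hz1
        gcongr
      calc r⁻¹ ^ n * (f (r⁻¹ • y) * (r⁻¹ * |⟪e, y⟫|))
          ≤ r⁻¹ ^ n * (1 * (r⁻¹ * |⟪e, y⟫|)) := by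
            have := hf1 (r⁻¹ • y)
            gcongr
        _ = r⁻¹ ^ (n + 1) * |⟪e, y⟫| := by ring
        _ ≤ ρ ^ (n + 1) * ‖y‖⁻¹ ^ (n + 1) * |⟪e, y⟫| := by gcongr
        _ = ρ ^ (n + 1) * (|⟪e, y⟫| * ‖y‖⁻¹ ^ (n + 1)) := by ring
  have hto := D3_tend hn hν.gr hfin hρ0
  have hto2 : Tendsto (fun i : ℕ => ENNReal.ofReal (ρ ^ (n + 1)) *
      ∫⁻ y in closedBall 0 (ρ * (2:ℝ)⁻¹ ^ i), ENNReal.ofReal |s y| ∂ν) atTop (𝓝 0) := by
    have := ENNReal.Tendsto.const_mul (a := ENNReal.ofReal (ρ ^ (n + 1))) hto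
      (Or.inr ENNReal.ofReal_ne_top)
    rwa [mul_zero] at this
  have hto3 : Tendsto (fun i : ℕ => ENNReal.ofReal (∫ z, h z ∂(blow n 0 ((2 : ℝ)⁻¹ ^ i) ν)))
      atTop (𝓝 0) :=
    tendsto_of_tendsto_of_tendsto_of_le_of_le tendsto_const_nhds hto2 (fun _ => zero_le) hbound
  have hto4 := hto3.mono_left Nat.hyperfilter_le_atTop
  have hto5 : Tendsto (fun i : ℕ => ENNReal.ofReal (∫ z, h z ∂(blow n 0 ((2 : ℝ)⁻¹ ^ i) ν)))
      (hyperfilter ℕ) (𝓝 (ENNReal.ofReal (∫ z, h z ∂ν'))) :=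
    (ENNReal.continuous_ofReal.tendsto _).comp (hv h hhc hhs)
  have hz : ENNReal.ofReal (∫ z, h z ∂ν') = 0 := tendsto_nhds_unique hto5 hto4
  have hz' : ∫ z, h z ∂ν' ≤ 0 := ENNReal.ofReal_eq_zero.1 hz
  have := hg'.isLocallyFinite
  have hfinal := eq_zero_on_supp hhc hh0 (hhc.integrable_of_hasCompactSupport hhs) hz' y₀ hy₀
  have hfy : f y₀ = 1 := by
    simp only [hf]
    rw [sub_self, norm_zero, mul_zero, sub_zero]
    exact max_eq_right zero_le_one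
  simp only [hh] at hfinal
  rw [hfy, one_mul] at hfinal
  exact abs_eq_zero.1 hfinal

end Pool.Agent.RZ
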