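import Pool.Agent.RZ.Gr1

/-!
V3: convergence of parameter integrals, uniformly on compact sets.
Tails: |int_{|y| >= R} F(x,y) dnu| <= B A C / R by Gr.tail. On closedBall 0 (2R) multiply F by cut R (y); for fixed x this is vague convergence;
uniformity: F is uniformly continuous on K x closedBall 0 (2R), finite net of K, masses bounded.
-/

set_option autoImplicit false

open MeasureTheory Filter Topology Metric Set
open scoped RealInnerProductSpace ENNReal

namespace Pool.Agent.RZ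

variable {d : ℕ}

private theorem V3_G_nonneg (n : ℕ) (y : X d) : 0 ≤ (1 + ‖y‖)⁻¹ ^ (n + 1) := by positivity

private theorem V3_G_le_kr (n : ℕ) (y : X d) : (1 + ‖y‖)⁻¹ ^ (n + 1) ≤ kr n 1 y := by
  unfold kr
  refine pow_le_pow_left₀ (by positivity) ?_ (n + 1)
  refine inv_anti₀ (Real.sqrt_pos.mpr (by positivity)) ?_
  refine Real.sqrt_le_iff.mpr ⟨by positivity, ?_⟩
  nlinarith [norm_nonneg y]

private theorem V3_G_integrable {n : ℕ} (hn : 1 ≤ n) {C : ℝ} (hC : 0 ≤ C) {ν : Measure (X d)}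
    (h : Gr n C ν) : Integrable (fun y => (1 + ‖y‖)⁻¹ ^ (n + 1)) ν := by
  obtain ⟨A, _, hA⟩ := Gr.kr_integrable (d := d) n hn
  have h1 := (hA C hC ν h 0 1 one_pos).1
  have h2 : Integrable (fun y => kr n 1 y) ν := by
    simpa using h1
  refine h2.mono' ?_ (Eventually.of_forall (fun y => ?_))
  · refine Continuous.aestronglyMeasurable ?_
    exact ((continuous_const.add continuous_norm).inv₀
      (fun y => ne_of_gt (add_pos_of_pos_of_nonneg one_pos (norm_nonneg y)))).pow (n + 1)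
  · rw [Real.norm_of_nonneg (V3_G_nonneg n y)]
    exact V3_G_le_kr n y

private theorem V3_int {n : ℕ} (hn : 1 ≤ n) {C : ℝ} (hC : 0 ≤ C) {ν : Measure (X d)}
    (h : Gr n C ν) {f : X d → ℝ} (hf : Continuous f) {B : ℝ}
    (hB : ∀ y, |f y| ≤ B * (1 + ‖y‖)⁻¹ ^ (n + 1)) : Integrable f ν :=
  ((V3_G_integrable hn hC h).const_mul B).mono' hf.aestronglyMeasurable
    (Eventually.of_forall hB)

private theorem V3_tail (n : ℕ) (hn : 1 ≤ n) : ∃ A : ℝ, 0 < A ∧ ∀ (C : ℝ), 0 ≤ C →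
    ∀ ν : Measure (X d), Gr n C ν → ∀ (f : X d → ℝ), Continuous f → ∀ (B R : ℝ), 0 ≤ B → 0 < R →
      (∀ y, |f y| ≤ B * (1 + ‖y‖)⁻¹ ^ (n + 1)) →
      |(∫ y, f y ∂ν) - ∫ y, f y * cut R y ∂ν| ≤ B * (A * C * R⁻¹) := by
  obtain ⟨A, hA0, hA⟩ := Gr.tail (d := d) n 1 hn le_rfl
  refine ⟨A, hA0, fun C hC ν h f hf B R hB0 hR hB => ?_⟩
  obtain ⟨hi, hle⟩ := hA C hC ν h 0 R hR
  simp only [sub_zero, pow_one] at hi hle
  have hfi : Integrable f ν := V3_int hn hC h hf hB
  have hfc : Integrable (fun y => f y * cut R y) ν := by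
    refine hfi.abs.mono' (hf.mul (cut_continuous hR)).aestronglyMeasurable
      (Eventually.of_forall (fun y => ?_))
    rw [Real.norm_eq_abs, abs_mul, abs_of_nonneg (cut_nonneg R y)]
    exact mul_le_of_le_one_right (abs_nonneg _) (cut_le_one R y)
  rw [← integral_sub hfi hfc]
  have hms : MeasurableSet {y : X d | R ≤ ‖y‖} := (isClosed_le continuous_const
    continuous_norm).measurableSet
  have h1 : Integrable ({y : X d | R ≤ ‖y‖}.indicator (fun y => B * ‖y‖⁻¹ ^ (n + 1))) ν :=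
    IntegrableOn.integrable_indicator (hi.const_mul B) hms
  have h2 := norm_integral_le_of_norm_le (f := fun y => f y - f y * cut R y) h1
    (Eventually.of_forall (fun y => by
      by_cases hy : R ≤ ‖y‖
      · rw [Set.indicator_of_mem (show y ∈ {y : X d | R ≤ ‖y‖} from hy)]
        have e1 : f y - f y * cut R y = f y * (1 - cut R y) := by ring
        rw [Real.norm_eq_abs, e1, abs_mul, abs_of_nonneg (sub_nonneg.mpr (cut_le_one R y))]
        refine (mul_le_of_le_one_right (abs_nonneg _)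
          (by linarith [cut_nonneg R y])).trans ((hB y).trans ?_)
        refine mul_le_mul_of_nonneg_left (pow_le_pow_left₀ (by positivity) ?_ (n + 1)) hB0
        exact inv_anti₀ (lt_of_lt_of_le hR hy) (by linarith)
      · rw [Set.indicator_of_notMem (show y ∉ {y : X d | R ≤ ‖y‖} from hy)]
        rw [cut_eq_one hR (le_of_not_ge hy)]
        simp))
  rw [integral_indicator hms, integral_const_mul] at h2
  rw [Real.norm_eq_abs] at h2
  exact h2.trans (mul_le_mul_of_nonneg_left hle hB0)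

private theorem V3_ball_bound {n : ℕ} {C : ℝ} (hC : 0 ≤ C) {ν : Measure (X d)} (h : Gr n C ν)
    {f : X d → ℝ} {R a : ℝ} (hR : 0 < R) (ha : 0 ≤ a) (hf : ∀ y, ‖y‖ ≤ R → |f y| ≤ a)
    (hs : ∀ y, R < ‖y‖ → f y = 0) : |∫ y, f y ∂ν| ≤ a * (C * R ^ n) := by
  have h1 : ∫ y in closedBall 0 R, f y ∂ν = ∫ y, f y ∂ν := by
    refine setIntegral_eq_integral_of_forall_compl_eq_zero (fun y hy => hs y ?_)
    rw [mem_closedBall, dist_eq_norm, not_le, sub_zero] at hy
    exact hy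
  rw [← h1]
  have h2 := norm_setIntegral_le_of_norm_le_const (μ := ν) (s := closedBall 0 R) (f := f) (C := a)
    (h.finite 0 R) (fun y hy => by
      rw [mem_closedBall, dist_eq_norm, sub_zero] at hy
      rw [Real.norm_eq_abs]
      exact hf y hy)
  rw [Real.norm_eq_abs] at h2
  exact h2.trans (mul_le_mul_of_nonneg_left (h.real_le hC 0 hR) ha)

theorem VC.param {n : ℕ} (hn : 1 ≤ n) {C : ℝ} (hC : 0 ≤ C) {ν : ℕ → Measure (X d)}
    {ν' : Measure (X d)} (h : ∀ i, Gr n C (ν i)) (h' : Gr n C ν') (hv : VC ν ν')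
    {F : X d → X d → ℝ} (hF : Continuous fun p : X d × X d => F p.1 p.2) {K : Set (X d)}
    (hK : IsCompact K) {B : ℝ} (hB : ∀ x ∈ K, ∀ y, |F x y| ≤ B * (1 + ‖y‖)⁻¹ ^ (n + 1)) :
    ∀ δ : ℝ, 0 < δ → ∀ᶠ i in (hyperfilter ℕ : Filter ℕ), ∀ x ∈ K,
      |(∫ y, F x y ∂(ν i)) - ∫ y, F x y ∂ν'| ≤ δ := by
  intro δ hδ
  obtain ⟨A, hA0, hA⟩ := V3_tail (d := d) n hn
  have hB' : ∀ x ∈ K, ∀ y, |F x y| ≤ |B| * (1 + ‖y‖)⁻¹ ^ (n + 1) := fun x hx y =>
    (hB x hx y).trans (mul_le_mul_of_nonneg_right (le_abs_self B) (V3_G_nonneg n y))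
  have hFx : ∀ x, Continuous (F x) := fun x => hF.comp (Continuous.prodMk_right x)
  obtain ⟨R, hR1, hRT⟩ : ∃ R : ℝ, 1 ≤ R ∧ |B| * (A * C * R⁻¹) ≤ δ / 8 := by
    have h1 : Tendsto (fun R : ℝ => |B| * (A * C * R⁻¹)) atTop (𝓝 (|B| * (A * C * 0))) :=
      (tendsto_inv_atTop_zero.const_mul (A * C)).const_mul |B|
    rw [mul_zero, mul_zero] at h1
    have h2 := h1.eventually_le_const (show (0 : ℝ) < δ / 8 by positivity)
    obtain ⟨R, hR, hR1⟩ := (h2.and (eventually_ge_atTop 1)).exists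
    exact ⟨R, hR1, hR⟩
  have hR0 : 0 < R := by linarith
  have hM0 : 0 ≤ C * (2 * R) ^ n := by positivity
  obtain ⟨δ₁, hδ₁, hδ₁M⟩ : ∃ δ₁ : ℝ, 0 < δ₁ ∧ δ₁ * (C * (2 * R) ^ n) ≤ δ / 8 := by
    refine ⟨δ / 8 / (C * (2 * R) ^ n + 1), by positivity, ?_⟩
    rw [div_mul_eq_mul_div, div_le_iff₀ (by positivity)]
    nlinarith
  have hKc : IsCompact (K ×ˢ closedBall (0 : X d) (2 * R)) :=
    hK.prod (isCompact_closedBall 0 (2 * R))
  have huc := hKc.uniformContinuousOn_of_continuous hF.continuousOn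
  rw [Metric.uniformContinuousOn_iff] at huc
  obtain ⟨η, hη, hηF⟩ := huc δ₁ hδ₁
  have hclose : ∀ x ∈ K, ∀ x' ∈ K, dist x x' < η → ∀ y : X d, ‖y‖ ≤ 2 * R →
      |F x y - F x' y| ≤ δ₁ := by
    intro x hx x' hx' hd y hy
    have hy' : y ∈ closedBall (0 : X d) (2 * R) := by
      rw [mem_closedBall, dist_eq_norm, sub_zero]
      exact hy
    have := hηF (x, y) ⟨hx, hy'⟩ (x', y) ⟨hx', hy'⟩ (by
      rw [Prod.dist_eq, dist_self]
      exact max_lt hd hη)
    rw [Real.dist_eq] at this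
    exact this.le
  obtain ⟨t, htK, htc⟩ := hK.elim_nhds_subcover (fun x => ball x η) (fun x _ => ball_mem_nhds x hη)
  have hev : ∀ᶠ i in (hyperfilter ℕ : Filter ℕ), ∀ x ∈ t,
      |(∫ y, F x y * cut R y ∂(ν i)) - ∫ y, F x y * cut R y ∂ν'| ≤ δ / 8 := by
    rw [Filter.eventually_all_finset]
    intro x _
    have h1 := hv (fun y => F x y * cut R y) ((hFx x).mul (cut_continuous hR0))
      ((cut_hasCompactSupport hR0).mul_left)
    have h2 := (Metric.tendsto_nhds.mp h1) (δ / 8) (by positivity)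
    exact h2.mono (fun i hi => by
      rw [Real.dist_eq] at hi
      exact hi.le)
  have hint : ∀ (μ : Measure (X d)), Gr n C μ → ∀ x ∈ K, Integrable (fun y => F x y * cut R y) μ := by
    intro μ hμ x hx
    have hfi : Integrable (F x) μ := V3_int hn hC hμ (hFx x) (hB' x hx)
    refine hfi.abs.mono' ((hFx x).mul (cut_continuous hR0)).aestronglyMeasurable
      (Eventually.of_forall (fun y => ?_))
    rw [Real.norm_eq_abs, abs_mul, abs_of_nonneg (cut_nonneg R y)]
    exact mul_le_of_le_one_right (abs_nonneg _) (cut_le_one R y)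
  have hcut : ∀ (μ : Measure (X d)), Gr n C μ → ∀ x ∈ K, ∀ x' ∈ K, dist x x' < η →
      |(∫ y, F x y * cut R y ∂μ) - ∫ y, F x' y * cut R y ∂μ| ≤ δ / 8 := by
    intro μ hμ x hx x' hx' hd
    rw [← integral_sub (hint μ hμ x hx) (hint μ hμ x' hx')]
    refine (V3_ball_bound hC hμ (R := 2 * R) (a := δ₁) (by linarith) hδ₁.le (fun y hy => ?_)
      (fun y hy => ?_)).trans hδ₁M
    · have e1 : F x y * cut R y - F x' y * cut R y = (F x y - F x' y) * cut R y := by ring
      rw [e1, abs_mul, abs_of_nonneg (cut_nonneg R y)]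
      exact (mul_le_of_le_one_right (abs_nonneg _) (cut_le_one R y)).trans
        (hclose x hx x' hx' hd y hy)
    · rw [cut_eq_zero hR0 hy.le]
      ring
  refine hev.mono (fun i hi x hx => ?_)
  obtain ⟨x', hx't, hxx'⟩ := Set.mem_iUnion₂.mp (htc hx)
  have hx'K : x' ∈ K := htK x' hx't
  have hd : dist x x' < η := hxx'
  have t1 := hA C hC (ν i) (h i) (F x) (hFx x) |B| R (abs_nonneg B) hR0 (hB' x hx)
  have t2 := hA C hC ν' h' (F x) (hFx x) |B| R (abs_nonneg B) hR0 (hB' x hx)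
  have t3 := hcut (ν i) (h i) x hx x' hx'K hd
  have t4 := hcut ν' h' x hx x' hx'K hd
  have t5 := hi x' hx't
  rw [abs_le] at t1 t2 t3 t4 t5 ⊢
  constructor <;> linarith [t1.1, t1.2, t2.1, t2.2, t3.1, t3.2, t4.1, t4.2, t5.1, t5.2]

/-- iterated integrals of compactly supported continuous functions converge -/
theorem VC.prod {n : ℕ} (hn : 1 ≤ n) {C : ℝ} (hC : 0 ≤ C) {ν : ℕ → Measure (X d)}
    {ν' : Measure (X d)} (h : ∀ i, Gr n C (ν i)) (h' : Gr n C ν') (hv : VC ν ν')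
    {F : X d → X d → ℝ} (hF : Continuous fun p : X d × X d => F p.1 p.2) {R : ℝ}
    (hR : ∀ x y, R < ‖x‖ ∨ R < ‖y‖ → F x y = 0) :
    Tendsto (fun i => ∫ x, ∫ y, F x y ∂(ν i) ∂(ν i)) (hyperfilter ℕ)
      (𝓝 (∫ x, ∫ y, F x y ∂ν' ∂ν')) := by
  obtain ⟨ρ, hρ1, hρ⟩ : ∃ ρ : ℝ, 1 ≤ ρ ∧ ∀ x y : X d, ρ < ‖x‖ ∨ ρ < ‖y‖ → F x y = 0 := by
    refine ⟨max R 1, le_max_right R 1, fun x y hxy => hR x y ?_⟩
    rcases hxy with hx | hy
    · exact Or.inl (lt_of_le_of_lt (le_max_left R 1) hx)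
    · exact Or.inr (lt_of_le_of_lt (le_max_left R 1) hy)
  have hρ0 : 0 < ρ := by linarith
  have hFx : ∀ x, Continuous (F x) := fun x => hF.comp (Continuous.prodMk_right x)
  obtain ⟨M, hM0, hM⟩ : ∃ M : ℝ, 0 ≤ M ∧ ∀ x y, |F x y| ≤ M := by
    have hc : IsCompact (closedBall (0 : X d) ρ ×ˢ closedBall (0 : X d) ρ) :=
      (isCompact_closedBall 0 ρ).prod (isCompact_closedBall 0 ρ)
    obtain ⟨M, hM⟩ := hc.exists_bound_of_continuousOn hF.continuousOn
    refine ⟨max M 0, le_max_right M 0, fun x y => ?_⟩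
    by_cases hx : ρ < ‖x‖
    · rw [hρ x y (Or.inl hx), abs_zero]
      exact le_max_right M 0
    by_cases hy : ρ < ‖y‖
    · rw [hρ x y (Or.inr hy), abs_zero]
      exact le_max_right M 0
    have := hM (x, y) ⟨by
      rw [mem_closedBall, dist_eq_norm, sub_zero]; exact not_lt.mp hx, by
      rw [mem_closedBall, dist_eq_norm, sub_zero]; exact not_lt.mp hy⟩
    exact this.trans (le_max_left M 0)
  have hBd : ∀ x y, |F x y| ≤ (M * (1 + ρ) ^ (n + 1)) * (1 + ‖y‖)⁻¹ ^ (n + 1) := by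
    intro x y
    by_cases hy : ρ < ‖y‖
    · rw [hρ x y (Or.inr hy), abs_zero]
      positivity
    · refine (hM x y).trans ?_
      rw [mul_assoc, ← mul_pow]
      refine le_mul_of_one_le_right hM0 (one_le_pow₀ ?_)
      rw [← div_eq_mul_inv, one_le_div (by positivity)]
      linarith [not_lt.mp hy]
  -- the inner integrals are continuous and compactly supported
  have hΦ : ∀ (μ : Measure (X d)), Gr n C μ → Continuous (fun x => ∫ y, F x y ∂μ) := by
    intro μ hμ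
    haveI := hμ.isLocallyFinite
    have h1 := continuous_parametric_integral_of_continuous (μ := μ) (f := F) hF
      (isCompact_closedBall (0 : X d) ρ)
    have h2 : (fun x => ∫ y, F x y ∂μ) = fun x => ∫ y in closedBall (0 : X d) ρ, F x y ∂μ := by
      funext x
      refine (setIntegral_eq_integral_of_forall_compl_eq_zero (fun y hy => hρ x y ?_)).symm
      rw [mem_closedBall, dist_eq_norm, not_le, sub_zero] at hy
      exact Or.inr hy
    rw [h2]
    exact h1
  have hΦ0 : ∀ (μ : Measure (X d)) (x : X d), ρ < ‖x‖ → ∫ y, F x y ∂μ = 0 := by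
    intro μ x hx
    have : (fun y => F x y) = fun _ => (0 : ℝ) := by
      funext y
      exact hρ x y (Or.inl hx)
    rw [this, integral_zero]
  have hΦs : ∀ (μ : Measure (X d)), HasCompactSupport (fun x => ∫ y, F x y ∂μ) := by
    intro μ
    refine HasCompactSupport.of_support_subset_isCompact (isCompact_closedBall (0 : X d) ρ) ?_
    intro x hx
    rw [mem_closedBall, dist_eq_norm, sub_zero]
    by_contra hlt
    exact hx (hΦ0 μ x (not_le.mp hlt))
  have hΦi : ∀ (μ μ' : Measure (X d)), Gr n C μ → Gr n C μ' →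
      Integrable (fun x => ∫ y, F x y ∂μ) μ' := by
    intro μ μ' hμ hμ'
    haveI := hμ'.isLocallyFinite
    exact (hΦ μ hμ).integrable_of_hasCompactSupport (hΦs μ)
  have hmain := hv (fun x => ∫ y, F x y ∂ν') (hΦ ν' h') (hΦs ν')
  have hdiff : Tendsto (fun i => ∫ x, ((∫ y, F x y ∂(ν i)) - ∫ y, F x y ∂ν') ∂(ν i))
      (hyperfilter ℕ) (𝓝 0) := by
    rw [Metric.tendsto_nhds]
    intro δ hδ
    obtain ⟨δ₁, hδ₁, hδ₁M⟩ : ∃ δ₁ : ℝ, 0 < δ₁ ∧ δ₁ * (C * ρ ^ n) < δ := by
      refine ⟨δ / (C * ρ ^ n + 1), by positivity, ?_⟩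
      rw [div_mul_eq_mul_div, div_lt_iff₀ (by positivity)]
      nlinarith [show 0 ≤ C * ρ ^ n by positivity]
    have hp := VC.param hn hC h h' hv hF (isCompact_closedBall (0 : X d) ρ)
      (B := M * (1 + ρ) ^ (n + 1)) (fun x _ y => hBd x y) δ₁ hδ₁
    refine hp.mono (fun i hi => ?_)
    rw [Real.dist_eq, sub_zero]
    refine lt_of_le_of_lt (V3_ball_bound hC (h i) hρ0 hδ₁.le (fun x hx => ?_) (fun x hx => ?_)) hδ₁M
    · refine hi x ?_
      rw [mem_closedBall, dist_eq_norm, sub_zero]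
      exact hx
    · rw [hΦ0 (ν i) x hx, hΦ0 ν' x hx, sub_zero]
  have hsum := hdiff.add hmain
  rw [zero_add] at hsum
  refine hsum.congr (fun i => ?_)
  rw [integral_sub (hΦi (ν i) (ν i) (h i) (h i)) (hΦi ν' (ν i) h' (h i))]
  ring

/-- convergence against functions of moderate decay -/
theorem VC.decay {n : ℕ} (hn : 1 ≤ n) {C : ℝ} (hC : 0 ≤ C) {ν : ℕ → Measure (X d)}
    {ν' : Measure (X d)} (h : ∀ i, Gr n C (ν i)) (h' : Gr n C ν') (hv : VC ν ν')
    {F : X d → ℝ} (hF : Continuous F) {B : ℝ} (hB : ∀ y, |F y| ≤ B * (1 + ‖y‖)⁻¹ ^ (n + 1)) :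
    Tendsto (fun i => ∫ y, F y ∂(ν i)) (hyperfilter ℕ) (𝓝 (∫ y, F y ∂ν')) := by
  rw [Metric.tendsto_nhds]
  intro δ hδ
  have hp := VC.param hn hC h h' hv (F := fun _ y => F y) (hF.comp continuous_snd)
    (isCompact_singleton (x := (0 : X d))) (B := B) (fun _ _ y => hB y) (δ / 2) (by positivity)
  refine hp.mono (fun i hi => ?_)
  rw [Real.dist_eq]
  have := hi 0 (Set.mem_singleton 0)
  linarith

/-- the `L²` bounds of the forms pass to the limit (`VC.prod` and vague convergence) -/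
theorem VC.l2 {n : ℕ} (hn : 1 ≤ n) {C : ℝ} (hC : 0 ≤ C) {ν : ℕ → Measure (X d)}
    {ν' : Measure (X d)} (h : ∀ i, Gr n C (ν i)) (h' : Gr n C ν') (hv : VC ν ν')
    {C' : ℝ} (hl : ∀ i, L2b n C' (ν i)) : L2b n C' ν' := by
  intro ε hε e he f ψ hf hfs hψ hψs
  obtain ⟨Rf, hRf⟩ := (hfs.isCompact.isBounded).subset_closedBall (0 : X d)
  obtain ⟨Rψ, hRψ⟩ := (hψs.isCompact.isBounded).subset_closedBall (0 : X d)
  have hz : ∀ (g : X d → ℝ) (r : ℝ), tsupport g ⊆ closedBall 0 r → ∀ y, r < ‖y‖ → g y = 0 := by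
    intro g r hg y hy
    by_contra hne
    have h1 := hg (subset_tsupport g hne)
    rw [mem_closedBall, dist_eq_norm, sub_zero] at h1
    exact absurd hy (not_lt.mpr h1)
  have hQ : Tendsto (fun i => Qf n ε (ν i) e f ψ) (hyperfilter ℕ) (𝓝 (Qf n ε ν' e f ψ)) := by
    refine VC.prod hn hC h h' hv (F := fun x y => ψ x * f y * (⟪e, x - y⟫ * kr n ε (x - y)))
      (R := max Rf Rψ) ?_ ?_
    · have hxy : Continuous (fun p : X d × X d => p.1 - p.2) := continuous_fst.sub continuous_snd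
      exact ((hψ.comp continuous_fst).mul (hf.comp continuous_snd)).mul
        ((continuous_const.inner hxy).mul ((kr_continuous n hε).comp hxy))
    · intro x y hxy
      rcases hxy with hx | hy
      · rw [hz ψ Rψ hRψ x (lt_of_le_of_lt (le_max_right Rf Rψ) hx)]
        ring
      · rw [hz f Rf hRf y (lt_of_le_of_lt (le_max_left Rf Rψ) hy)]
        ring
  have hsq : ∀ g : X d → ℝ, Continuous g → HasCompactSupport g →
      Tendsto (fun i => Real.sqrt (∫ x, g x ^ 2 ∂(ν i))) (hyperfilter ℕ)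
        (𝓝 (Real.sqrt (∫ x, g x ^ 2 ∂ν'))) := by
    intro g hg hgs
    have h1 := hv (fun x => g x ^ 2) (hg.pow 2) (by
      have : (fun x => g x ^ 2) = fun x => g x * g x := by
        funext x
        ring
      rw [this]
      exact hgs.mul_left)
    exact (Real.continuous_sqrt.tendsto _).comp h1
  refine le_of_tendsto_of_tendsto' hQ.abs (((hsq f hf hfs).const_mul C').mul (hsq ψ hψ hψs))
    (fun i => ?_)
  exact hl i ε hε e he f ψ hf hfs hψ hψs

end Pool.Agent.RZ
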