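import Pool.Agent.RZ.V2
import Pool.Agent.RZ.V3

/-!
Q1: the quadratic function q and its behaviour under vague limits.
q b v y = |y-b - sum <v_i, y-b> v_i|^2 for orthonormal v (0 <= q <= |y-b|^2), = dist(y, b + span v)^2.
compactness: Orthonormal v is closed and bounded in (Fin m -> X d); the hyperfilter has a limit.
flat_limit: if Flat nu_i x r eps for hyperfilter-many i (with planes b_i, v_i). If the b_i can be chosen bounded: replace b_i by the point of the
plane closest to x; if some point y of the ball with q(y) <= 1 exists then |b_i - x| bounded. Otherwise q >= 1... simpler: b_i closest to x,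
|b_i - x|^2 = q(x); for y in closedBall x r: sqrt q(y) >= sqrt q(x) - r, so int cut r (y-x) q >= (|b_i-x| - r)^2 nu_i(closedBall x r) if |b_i - x| >= r; with
nu_i(closedBall x r) >= m > 0 this bounds |b_i - x|. Then b_i -> b, v_i -> v, and int cut q_{b_i,v_i} dnu_i -> int cut q_{b,v} dnu' (uniform
convergence of q on the ball, bounded masses).
-/

set_option autoImplicit false

open MeasureTheory Filter Topology Metric Set
open scoped RealInnerProductSpace ENNReal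

namespace Pool.Agent.RZ

variable {d : ℕ}

theorem q_nonneg {m : ℕ} (b : X d) {v : Fin m → X d} (hv : Orthonormal ℝ v) (y : X d) :
    0 ≤ q b v y := by
  have h := hv.sum_inner_products_le (y - b) (s := Finset.univ)
  simp only [Real.norm_eq_abs, sq_abs] at h
  unfold q
  linarith

theorem q_le {m : ℕ} (b : X d) (v : Fin m → X d) (y : X d) : q b v y ≤ ‖y - b‖ ^ 2 := by
  have h : 0 ≤ ∑ i, ⟪v i, y - b⟫ ^ 2 := Finset.sum_nonneg fun i _ => sq_nonneg _
  unfold q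
  linarith

private theorem Q1a_inner_sum {m : ℕ} {v : Fin m → X d} (hv : Orthonormal ℝ v) (a : Fin m → ℝ)
    (i : Fin m) : ⟪v i, ∑ j, a j • v j⟫ = a i := by
  rw [hv.inner_right_fintype]

private theorem Q1a_norm {m : ℕ} {v : Fin m → X d} (hv : Orthonormal ℝ v) (w : X d) :
    ‖w - ∑ i, ⟪v i, w⟫ • v i‖ ^ 2 = ‖w‖ ^ 2 - ∑ i, ⟪v i, w⟫ ^ 2 := by
  have h1 : ⟪w, ∑ i, ⟪v i, w⟫ • v i⟫ = ∑ i, ⟪v i, w⟫ ^ 2 := by
    rw [inner_sum]
    refine Finset.sum_congr rfl fun i _ => ?_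
    rw [real_inner_smul_right, real_inner_comm w (v i), sq]
  have h2 : ‖∑ i, ⟪v i, w⟫ • v i‖ ^ 2 = ∑ i, ⟪v i, w⟫ ^ 2 := by
    rw [← real_inner_self_eq_norm_sq, sum_inner]
    refine Finset.sum_congr rfl fun i _ => ?_
    rw [real_inner_smul_left, Q1a_inner_sum hv, sq]
  rw [norm_sub_sq_real, h1, h2]
  ring

theorem q_eq {m : ℕ} (b : X d) {v : Fin m → X d} (hv : Orthonormal ℝ v) (y : X d) :
    q b v y = ‖y - b - ∑ i, ⟪v i, y - b⟫ • v i‖ ^ 2 := by
  rw [Q1a_norm hv]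
  rfl

/-- the base point may be moved in the plane -/
theorem q_move {m : ℕ} (b : X d) {v : Fin m → X d} (hv : Orthonormal ℝ v) (a : Fin m → ℝ)
    (y : X d) : q (b + ∑ i, a i • v i) v y = q b v y := by
  rw [q_eq _ hv, q_eq _ hv]
  have h : ∀ i, ⟪v i, y - (b + ∑ j, a j • v j)⟫ = ⟪v i, y - b⟫ - a i := by
    intro i
    rw [← sub_sub, inner_sub_right, Q1a_inner_sum hv]
  have h2 : y - (b + ∑ i, a i • v i) - ∑ i, ⟪v i, y - (b + ∑ j, a j • v j)⟫ • v i
      = y - b - ∑ i, ⟪v i, y - b⟫ • v i := by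
    have h3 : ∑ i, ⟪v i, y - (b + ∑ j, a j • v j)⟫ • v i
        = ∑ i, ⟪v i, y - b⟫ • v i - ∑ i, a i • v i := by
      rw [← Finset.sum_sub_distrib]
      refine Finset.sum_congr rfl fun i _ => ?_
      rw [h i, sub_smul]
    rw [h3]
    abel
  rw [h2]

/-- base point closest to `x` -/
theorem q_base {m : ℕ} (b : X d) {v : Fin m → X d} (hv : Orthonormal ℝ v) (x : X d) :
    ∃ b' : X d, (∀ y, q b' v y = q b v y) ∧ (∀ i, ⟪v i, b' - x⟫ = 0) ∧
      ‖b' - x‖ ^ 2 = q b v x := by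
  refine ⟨b + ∑ i, ⟪v i, x - b⟫ • v i, fun y => q_move b hv _ y, ?_, ?_⟩
  · intro i
    have h : b + ∑ i, ⟪v i, x - b⟫ • v i - x = ∑ i, ⟪v i, x - b⟫ • v i - (x - b) := by abel
    rw [h, inner_sub_right, Q1a_inner_sum hv, sub_self]
  · rw [q_eq _ hv]
    have h : b + ∑ i, ⟪v i, x - b⟫ • v i - x = -(x - b - ∑ i, ⟪v i, x - b⟫ • v i) := by abel
    rw [h, norm_neg]

theorem q_sqrt_lip {m : ℕ} (b : X d) {v : Fin m → X d} (hv : Orthonormal ℝ v) (y z : X d) :
    |Real.sqrt (q b v y) - Real.sqrt (q b v z)| ≤ ‖y - z‖ := by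
  rw [q_eq _ hv, q_eq _ hv, Real.sqrt_sq (norm_nonneg _), Real.sqrt_sq (norm_nonneg _)]
  refine le_trans (abs_norm_sub_norm_le _ _) ?_
  have h : y - b - ∑ i, ⟪v i, y - b⟫ • v i - (z - b - ∑ i, ⟪v i, z - b⟫ • v i)
      = (y - z) - ∑ i, ⟪v i, y - z⟫ • v i := by
    have h3 : ∑ i, ⟪v i, y - z⟫ • v i
        = ∑ i, ⟪v i, y - b⟫ • v i - ∑ i, ⟪v i, z - b⟫ • v i := by
      rw [← Finset.sum_sub_distrib]
      refine Finset.sum_congr rfl fun i _ => ?_
      rw [← sub_smul, ← inner_sub_right]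
      congr 2
      abel
    rw [h3]
    abel
  rw [h]
  have h4 := Q1a_norm hv (y - z)
  have h5 : 0 ≤ ∑ i, ⟪v i, y - z⟫ ^ 2 := Finset.sum_nonneg fun i _ => sq_nonneg _
  have h6 : ‖(y - z) - ∑ i, ⟪v i, y - z⟫ • v i‖ ^ 2 ≤ ‖y - z‖ ^ 2 := by linarith
  exact (sq_le_sq₀ (norm_nonneg _) (norm_nonneg _)).1 h6

theorem q_continuous {m : ℕ} (b : X d) (v : Fin m → X d) : Continuous (q b v) := by
  unfold q
  fun_prop

/-- `q` vanishes iff `y` is in the plane -/
theorem q_eq_zero_iff {m : ℕ} (b : X d) {v : Fin m → X d} (hv : Orthonormal ℝ v) (y : X d) :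
    q b v y = 0 ↔ y - b ∈ Submodule.span ℝ (Set.range v) := by
  constructor
  · intro h
    rw [q_eq _ hv] at h
    have h1 : y - b - ∑ i, ⟪v i, y - b⟫ • v i = 0 := by
      rw [← norm_eq_zero]
      exact (pow_eq_zero_iff two_ne_zero).1 h
    rw [Submodule.mem_span_range_iff_exists_fun]
    exact ⟨fun i => ⟪v i, y - b⟫, (sub_eq_zero.1 h1).symm⟩
  · intro h
    rw [Submodule.mem_span_range_iff_exists_fun] at h
    obtain ⟨c, hc⟩ := h
    rw [← q_move b hv c y]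
    have h2 : b + ∑ i, c i • v i = y := by rw [hc]; abel
    rw [h2]
    unfold q
    simp

end Pool.Agent.RZ
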