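import Pool.Agent.RZ.V2
import Pool.Agent.RZ.V3
import Pool.Agent.RZ.Q1a

/-!
Q1: the quadratic function q and its behaviour under vague limits.
q b v y = |y-b - sum <v_i, y-b> v_i|^2 for orthonormal v (0 <= q <= |y-b|^2), = dist(y, b + span v)^2.
compactness: Orthonormal v is closed and bounded in (Fin m -> X d); the hyperfilter has a limit.
flat_limit: if Flat nu_i x r eps for hyperfilter-many i (with planes b_i, v_i). If the b_i can be chosen bounded: replace b_i by the point of the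
plane closest to x; if some point y of the ball with q(y) <= 1 exists then |b_i - x| bounded. Otherwise q >= 1... simpler: b_i closest to x,
|b_i - x|^2 = q(x); for y in closedBall x r: sqrt q(y) >= sqrt q(x) - r, so int cut r (y-x) q >= (|b_i-x| - r)^2 nu_i(closedBall x r) if |b_i - x| >= r; with
nu_i(closedBall x r) >= m > 0 this bounds |b_i - x|. Then b_i -> b, v_i -> v, and int cut q_{b_i,v_i} dnu_i -> int cut q_{b,v} dnu' (uniform
convergence of q on the ball, bounded masses).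
-/

set_option autoImplicit false

open MeasureTheory Filter Topology Metric Set
open scoped RealInnerProductSpace ENNReal

namespace Pool.Agent.RZ

variable {d : ℕ}

/-- limits of frames along the hyperfilter -/
theorem frame_limit {m : ℕ} (v : ℕ → Fin m → X d) (hv : ∀ i, Orthonormal ℝ (v i)) :
    ∃ v' : Fin m → X d, Orthonormal ℝ v' ∧ Tendsto v (hyperfilter ℕ) (𝓝 v') := by
  have h1 : ((hyperfilter ℕ).map v : Filter (Fin m → X d)) ≤
      𝓟 (closedBall (0 : Fin m → X d) 1) := by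
    rw [Ultrafilter.coe_map, le_principal_iff, mem_map]
    refine Filter.univ_mem' ?_
    intro i
    show v i ∈ closedBall (0 : Fin m → X d) 1
    rw [mem_closedBall, dist_zero_right, pi_norm_le_iff_of_nonneg zero_le_one]
    intro j
    exact ((hv i).1 j).le
  obtain ⟨v', -, hv'⟩ := (isCompact_closedBall (0 : Fin m → X d) 1).ultrafilter_le_nhds _ h1
  rw [Ultrafilter.coe_map] at hv'
  have hlim : Tendsto v (hyperfilter ℕ) (𝓝 v') := hv'
  refine ⟨v', ?_, hlim⟩
  rw [orthonormal_iff_ite]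
  intro i j
  have h2 : Tendsto (fun k => ⟪v k i, v k j⟫) (hyperfilter ℕ) (𝓝 ⟪v' i, v' j⟫) :=
    (tendsto_pi_nhds.1 hlim i).inner (tendsto_pi_nhds.1 hlim j)
  have h3 : (fun k => ⟪v k i, v k j⟫) = fun _ => if i = j then (1 : ℝ) else 0 := by
    funext k
    exact (orthonormal_iff_ite.1 (hv k)) i j
  rw [h3] at h2
  exact tendsto_nhds_unique h2 tendsto_const_nhds

private noncomputable def Q1b_G {m : ℕ} (r : ℝ) (θ : X d × (Fin m → X d) × X d) (y : X d) : ℝ :=
  cut r (y - θ.2.2) * q θ.1 θ.2.1 y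

private lemma Q1b_cont {m : ℕ} {r : ℝ} (hr : 0 < r) :
    Continuous (Function.uncurry (Q1b_G (d := d) (m := m) r)) := by
  have h1 : Continuous fun p : (X d × (Fin m → X d) × X d) × X d => cut r (p.2 - p.1.2.2) :=
    (cut_continuous hr).comp
      (continuous_snd.sub (continuous_snd.comp (continuous_snd.comp continuous_fst)))
  have hyb : Continuous fun p : (X d × (Fin m → X d) × X d) × X d => p.2 - p.1.1 :=
    continuous_snd.sub (continuous_fst.comp continuous_fst)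
  have h2 : Continuous fun p : (X d × (Fin m → X d) × X d) × X d => q p.1.1 p.1.2.1 p.2 := by
    unfold q
    refine Continuous.sub (hyb.norm.pow 2) (continuous_finsetSum _ ?_)
    intro i _
    refine Continuous.pow (Continuous.inner ?_ hyb) 2
    exact (continuous_apply i).comp (continuous_fst.comp (continuous_snd.comp continuous_fst))
  exact h1.mul h2

private lemma Q1b_zero {m : ℕ} {r : ℝ} (hr : 0 < r) (x' : X d)
    (θ : X d × (Fin m → X d) × X d) (hθ : ‖θ.2.2 - x'‖ ≤ 1) (y : X d)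
    (hy : y ∉ closedBall (0 : X d) (‖x'‖ + 1 + 2 * r)) : Q1b_G r θ y = 0 := by
  rw [mem_closedBall, dist_zero_right, not_le] at hy
  have h1 : 2 * r ≤ ‖y - θ.2.2‖ := by
    have h2 : ‖y‖ ≤ ‖y - θ.2.2‖ + ‖θ.2.2 - x'‖ + ‖x'‖ := by
      calc ‖y‖ = ‖(y - θ.2.2) + (θ.2.2 - x') + x'‖ := by congr 1; abel
        _ ≤ ‖(y - θ.2.2) + (θ.2.2 - x')‖ + ‖x'‖ := norm_add_le _ _
        _ ≤ _ := by linarith [norm_add_le (y - θ.2.2) (θ.2.2 - x')]
    linarith
  unfold Q1b_G
  rw [cut_eq_zero hr h1, zero_mul]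

private lemma Q1b_contθ {m : ℕ} {r : ℝ} (hr : 0 < r) (θ : X d × (Fin m → X d) × X d) :
    Continuous (Q1b_G r θ) := by
  have h1 : Continuous fun y : X d => cut r (y - θ.2.2) :=
    (cut_continuous hr).comp (continuous_id.sub continuous_const)
  exact h1.mul (q_continuous θ.1 θ.2.1)

private lemma Q1b_diff {n m : ℕ} {C : ℝ} (hC : 0 ≤ C) {ν : ℕ → Measure (X d)}
    (h : ∀ i, Gr n C (ν i)) {θ : ℕ → X d × (Fin m → X d) × X d}
    {θ' : X d × (Fin m → X d) × X d} (hθ : Tendsto θ (hyperfilter ℕ) (𝓝 θ')) {r : ℝ}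
    (hr : 0 < r) :
    Tendsto (fun i => (∫ y, Q1b_G r (θ i) y ∂(ν i)) - ∫ y, Q1b_G r θ' y ∂(ν i)) (hyperfilter ℕ)
      (𝓝 0) := by
  have lf : ∀ i, IsLocallyFiniteMeasure (ν i) := fun i => (h i).isLocallyFinite
  have hRpos : 0 < ‖θ'.2.2‖ + 1 + 2 * r := by positivity
  have hxe : ∀ᶠ i in (hyperfilter ℕ : Filter ℕ), ‖(θ i).2.2 - θ'.2.2‖ ≤ 1 := by
    have h0 : Tendsto (fun i => (θ i).2.2) (hyperfilter ℕ) (𝓝 θ'.2.2) :=
      ((continuous_snd.comp continuous_snd).tendsto θ').comp hθ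
    have h1 := h0.eventually (Metric.closedBall_mem_nhds θ'.2.2 one_pos)
    filter_upwards [h1] with i hi
    rwa [dist_eq_norm] at hi
  have h1' : ‖θ'.2.2 - θ'.2.2‖ ≤ 1 := by rw [sub_self, norm_zero]; exact zero_le_one
  rw [Metric.tendsto_nhds]
  intro ε hε
  have hKnn : 0 ≤ C * (‖θ'.2.2‖ + 1 + 2 * r) ^ n := by positivity
  have hδpos : 0 < ε / (C * (‖θ'.2.2‖ + 1 + 2 * r) ^ n + 1) := by positivity
  obtain ⟨V, hV, hVu⟩ := (isCompact_closedBall (0 : X d)
    (‖θ'.2.2‖ + 1 + 2 * r)).mem_uniformity_of_prod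
    (s := Set.univ) (q := θ') ((Q1b_cont hr).continuousOn) (Set.mem_univ _)
    (Metric.dist_mem_uniformity hδpos)
  rw [nhdsWithin_univ] at hV
  have hVe := hθ.eventually hV
  filter_upwards [hVe, hxe] with i hi hxi
  have hd : ∀ y ∈ closedBall (0 : X d) (‖θ'.2.2‖ + 1 + 2 * r),
      ‖Q1b_G r (θ i) y - Q1b_G r θ' y‖ ≤ ε / (C * (‖θ'.2.2‖ + 1 + 2 * r) ^ n + 1) := by
    intro y hy
    have h1 := hVu _ hi y hy
    have h2 : dist (Q1b_G r (θ i) y) (Q1b_G r θ' y) <
      ε / (C * (‖θ'.2.2‖ + 1 + 2 * r) ^ n + 1) := h1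
    rw [dist_eq_norm] at h2
    exact h2.le
  have i1 : Integrable (Q1b_G r (θ i)) (ν i) := by
    refine (Q1b_contθ hr _).integrable_of_hasCompactSupport ?_
    refine HasCompactSupport.intro (isCompact_closedBall (0 : X d) (‖θ'.2.2‖ + 1 + 2 * r)) ?_
    intro y hy
    exact Q1b_zero hr θ'.2.2 (θ i) hxi y hy
  have i2 : Integrable (Q1b_G r θ') (ν i) := by
    refine (Q1b_contθ hr _).integrable_of_hasCompactSupport ?_
    refine HasCompactSupport.intro (isCompact_closedBall (0 : X d) (‖θ'.2.2‖ + 1 + 2 * r)) ?_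
    intro y hy
    exact Q1b_zero hr θ'.2.2 θ' h1' y hy
  rw [dist_zero_right, ← integral_sub i1 i2]
  have h3 : ∫ y in closedBall (0 : X d) (‖θ'.2.2‖ + 1 + 2 * r),
      (Q1b_G r (θ i) y - Q1b_G r θ' y) ∂(ν i) =
      ∫ y, (Q1b_G r (θ i) y - Q1b_G r θ' y) ∂(ν i) := by
    refine setIntegral_eq_integral_of_forall_compl_eq_zero ?_
    intro y hy
    rw [Q1b_zero hr θ'.2.2 (θ i) hxi y hy, Q1b_zero hr θ'.2.2 θ' h1' y hy, sub_zero]
  rw [← h3]
  have h4 := norm_setIntegral_le_of_norm_le_const (μ := ν i)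
    ((h i).finite 0 (‖θ'.2.2‖ + 1 + 2 * r)) hd
  have h5 : (ν i).real (closedBall (0 : X d) (‖θ'.2.2‖ + 1 + 2 * r)) ≤
      C * (‖θ'.2.2‖ + 1 + 2 * r) ^ n := (h i).real_le hC 0 hRpos
  refine h4.trans_lt ?_
  refine (mul_le_mul_of_nonneg_left h5 hδpos.le).trans_lt ?_
  rw [div_mul_eq_mul_div, div_lt_iff₀ (by positivity)]
  nlinarith

theorem q_conv {n m : ℕ} (hn : 1 ≤ n) {C : ℝ} (hC : 0 ≤ C) {ν : ℕ → Measure (X d)}
    {ν' : Measure (X d)} (h : ∀ i, Gr n C (ν i)) (h' : Gr n C ν') (hv : VC ν ν')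
    {b : ℕ → X d} {b' : X d} (hb : Tendsto b (hyperfilter ℕ) (𝓝 b')) {v : ℕ → Fin m → X d}
    {v' : Fin m → X d} (hvv : Tendsto v (hyperfilter ℕ) (𝓝 v')) {x : ℕ → X d} {x' : X d}
    (hx : Tendsto x (hyperfilter ℕ) (𝓝 x')) {r : ℝ} (hr : 0 < r) :
    Tendsto (fun i => ∫ y, cut r (y - x i) * q (b i) (v i) y ∂(ν i)) (hyperfilter ℕ)
      (𝓝 (∫ y, cut r (y - x') * q b' v' y ∂ν')) := by
  have hθlim : Tendsto (fun i => ((b i, v i, x i) : X d × (Fin m → X d) × X d)) (hyperfilter ℕ)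
      (𝓝 (b', v', x')) := hb.prodMk_nhds (hvv.prodMk_nhds hx)
  have hdiff := Q1b_diff hC h hθlim hr
  have hf's : HasCompactSupport (Q1b_G r (b', v', x')) := by
    refine HasCompactSupport.intro (isCompact_closedBall (0 : X d) (‖x'‖ + 1 + 2 * r)) ?_
    intro y hy
    exact Q1b_zero hr x' (b', v', x') (by rw [sub_self, norm_zero]; exact zero_le_one) y hy
  have hlim' : Tendsto (fun i => ∫ y, Q1b_G r (b', v', x') y ∂(ν i)) (hyperfilter ℕ)
      (𝓝 (∫ y, Q1b_G r (b', v', x') y ∂ν')) := hv _ (Q1b_contθ hr _) hf's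
  have hsum := hdiff.add hlim'
  simp only [sub_add_cancel, zero_add] at hsum
  exact hsum

end Pool.Agent.RZ
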