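import Pool.Agent.RZ.V2
import Pool.Agent.RZ.V3
import Pool.Agent.RZ.Q1b

/-!
Q1: the quadratic function q and its behaviour under vague limits.
q b v y = |y-b - sum <v_i, y-b> v_i|^2 for orthonormal v (0 <= q <= |y-b|^2), = dist(y, b + span v)^2.
compactness: Orthonormal v is closed and bounded in (Fin m -> X d); the hyperfilter has a limit.
flat_limit: if Flat nu_i x r eps for hyperfilter-many i (with planes b_i, v_i). If the b_i can be chosen bounded: replace b_i by the point of the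
plane closest to x; if some point y of the ball with q(y) <= 1 exists then |b_i - x| bounded. Otherwise q >= 1... simpler: b_i closest to x,
|b_i - x|^2 = q(x); for y in closedBall x r: sqrt q(y) >= sqrt q(x) - r, so int cut r (y-x) q >= (|b_i-x| - r)^2 nu_i(closedBall x r) if |b_i - x| >= r; with
nu_i(closedBall x r) >= m > 0 this bounds |b_i - x|. Then b_i -> b, v_i -> v, and int cut q_{b_i,v_i} dnu_i -> int cut q_{b,v} dnu' (uniform
convergence of q on the ball, bounded masses).
-/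

set_option autoImplicit false

open MeasureTheory Filter Topology Metric Set
open scoped RealInnerProductSpace ENNReal

namespace Pool.Agent.RZ

variable {d : ℕ}

private theorem Q1c_int {n : ℕ} {C : ℝ} {ν : Measure (X d)} (h : Gr n C ν) (x b : X d) {m : ℕ}
    (v : Fin m → X d) {r : ℝ} (hr : 0 < r) :
    Integrable (fun y => cut r (y - x) * q b v y) ν := by
  have := h.isLocallyFinite
  have hc : Continuous fun y : X d => cut r (y - x) :=
    (cut_continuous hr).comp (continuous_id.sub continuous_const)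
  refine Continuous.integrable_of_hasCompactSupport (hc.mul (q_continuous b v)) ?_
  refine HasCompactSupport.mul_right ?_
  refine HasCompactSupport.intro (isCompact_closedBall x (2 * r)) fun y hy => ?_
  rw [mem_closedBall, dist_eq_norm, not_le] at hy
  exact cut_eq_zero hr hy.le

private theorem Q1c_bound {n : ℕ} {C : ℝ} {ν : Measure (X d)} (h : Gr n C ν) (x b : X d) {m : ℕ}
    {v : Fin m → X d} (hv : Orthonormal ℝ v) {r a E : ℝ} (hr : 0 < r) (ha : 0 < a)
    (hm : ENNReal.ofReal a ≤ ν (closedBall x r)) (hq : ‖b - x‖ ^ 2 = q b v x)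
    (hE : ∫ y, cut r (y - x) * q b v y ∂ν ≤ E) : ‖b - x‖ ≤ r + Real.sqrt (E / a) := by
  by_contra hlt
  rw [not_le] at hlt
  set t := ‖b - x‖ - r with ht
  have ht0 : Real.sqrt (E / a) < t := by linarith
  have ht1 : 0 < t := lt_of_le_of_lt (Real.sqrt_nonneg _) ht0
  have hfin := h.finite x r
  have h1 : t ^ 2 * (ν (closedBall x r)).toReal ≤ E := by
    have h2 : ∫ y in closedBall x r, t ^ 2 ∂ν ≤ ∫ y in closedBall x r, cut r (y - x) * q b v y ∂ν := by
      refine setIntegral_mono_on ?_ (Q1c_int h x b v hr).integrableOn measurableSet_closedBall ?_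
      · exact (integrableOn_const_iff).2 (Or.inr hfin)
      · intro y hy
        rw [mem_closedBall, dist_eq_norm] at hy
        rw [cut_eq_one hr hy, one_mul]
        have h3 := q_sqrt_lip b hv x y
        have h4 : Real.sqrt (q b v x) = ‖b - x‖ := by rw [← hq, Real.sqrt_sq (norm_nonneg _)]
        rw [h4, norm_sub_rev x y] at h3
        have h5 := (abs_le.1 h3).2
        have h6 : t ≤ Real.sqrt (q b v y) := by linarith
        calc t ^ 2 ≤ Real.sqrt (q b v y) ^ 2 := pow_le_pow_left₀ ht1.le h6 2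
          _ = q b v y := Real.sq_sqrt (q_nonneg b hv y)
    have h3 : ∫ y in closedBall x r, cut r (y - x) * q b v y ∂ν ≤
        ∫ y, cut r (y - x) * q b v y ∂ν := by
      refine setIntegral_le_integral (Q1c_int h x b v hr) ?_
      exact Filter.Eventually.of_forall fun y => mul_nonneg (cut_nonneg _ _) (q_nonneg b hv y)
    rw [setIntegral_const, smul_eq_mul, mul_comm] at h2
    exact h2.trans (h3.trans hE)
  have h2 : a ≤ (ν (closedBall x r)).toReal := by
    rw [← ENNReal.toReal_ofReal ha.le]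
    exact ENNReal.toReal_mono hfin.ne hm
  have h3 : t ^ 2 * a ≤ E := (mul_le_mul_of_nonneg_left h2 (sq_nonneg t)).trans h1
  have h4 : t ^ 2 ≤ E / a := by rwa [le_div_iff₀ ha]
  have h5 : t ≤ Real.sqrt (E / a) := Real.le_sqrt_of_sq_le h4
  linarith

/-- flatness passes to the limit -/
theorem flat_limit {n : ℕ} (hn : 1 ≤ n) {C : ℝ} (hC : 0 ≤ C) {ν : ℕ → Measure (X d)}
    {ν' : Measure (X d)} (h : ∀ i, Gr n C (ν i)) (h' : Gr n C ν') (hv : VC ν ν') (x : X d)
    {r a : ℝ} (hr : 0 < r) (ha : 0 < a)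
    (hm : ∀ᶠ i in (hyperfilter ℕ : Filter ℕ), ENNReal.ofReal a ≤ ν i (closedBall x r))
    {ε : ℕ → ℝ} {ε' : ℝ} (hε : Tendsto ε (hyperfilter ℕ) (𝓝 ε'))
    (hF : ∀ᶠ i in (hyperfilter ℕ : Filter ℕ), Flat n (ν i) x r (ε i)) : Flat n ν' x r ε' := by
  classical
  -- a default frame
  obtain ⟨i₀, b₀, v₀, hv₀, -⟩ := hF.exists
  -- choice of planes
  have hch : ∀ i, ∃ (b : X d) (v : Fin n → X d), Orthonormal ℝ v ∧
      (Flat n (ν i) x r (ε i) → ‖b - x‖ ^ 2 = q b v x ∧
        ∫ y, cut r (y - x) * q b v y ∂(ν i) ≤ ε i ^ 2 * r ^ (n + 2)) := by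
    intro i
    by_cases hi : Flat n (ν i) x r (ε i)
    · obtain ⟨b, v, hvo, hb⟩ := hi
      obtain ⟨b', hb', -, hb2⟩ := q_base b hvo x
      refine ⟨b', v, hvo, fun _ => ⟨?_, ?_⟩⟩
      · rw [hb2, hb']
      · simp only [hb']
        exact hb
    · exact ⟨b₀, v₀, hv₀, fun h => absurd h hi⟩
  choose b v hvo hbv using hch
  obtain ⟨v', hv'o, hv't⟩ := frame_limit v hvo
  have hE : ∀ᶠ i in (hyperfilter ℕ : Filter ℕ), ε i ^ 2 * r ^ (n + 2) ≤
      ε' ^ 2 * r ^ (n + 2) + 1 := by
    have h1 : Tendsto (fun i => ε i ^ 2 * r ^ (n + 2)) (hyperfilter ℕ)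
        (𝓝 (ε' ^ 2 * r ^ (n + 2))) := (hε.pow 2).mul_const _
    filter_upwards [h1.eventually_lt_const (lt_add_one _)] with i hi using hi.le
  set E := ε' ^ 2 * r ^ (n + 2) + 1 with hEdef
  have hbd : ∀ᶠ i in (hyperfilter ℕ : Filter ℕ), b i ∈ closedBall x (r + Real.sqrt (E / a)) := by
    filter_upwards [hm, hF, hE] with i h1 h2 h3
    rw [mem_closedBall, dist_eq_norm]
    exact Q1c_bound (h i) x (b i) (hvo i) hr ha h1 (hbv i h2).1 ((hbv i h2).2.trans h3)
  obtain ⟨b', -, hb't⟩ := (isCompact_closedBall x (r + Real.sqrt (E / a))).ultrafilter_le_nhds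
    ((hyperfilter ℕ).map b) (by
      rw [Filter.le_principal_iff, Ultrafilter.coe_map]
      exact hbd)
  have hbt : Tendsto b (hyperfilter ℕ) (𝓝 b') := by
    rw [Ultrafilter.coe_map] at hb't
    exact hb't
  have hconv := q_conv hn hC h h' hv hbt hv't (tendsto_const_nhds (x := x)) hr
  refine ⟨b', v', hv'o, ?_⟩
  refine le_of_tendsto_of_tendsto hconv ((hε.pow 2).mul_const (r ^ (n + 2))) ?_
  filter_upwards [hF] with i h2 using (hbv i h2).2

/-- non-flatness passes to the limit (with moving centres) -/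
theorem nf_limit {n : ℕ} (hn : 1 ≤ n) {C : ℝ} (hC : 0 ≤ C) {ν : ℕ → Measure (X d)}
    {ν' : Measure (X d)} (h : ∀ i, Gr n C (ν i)) (h' : Gr n C ν') (hv : VC ν ν')
    {x : ℕ → X d} {x' : X d} (hx : Tendsto x (hyperfilter ℕ) (𝓝 x')) {r : ℝ} (hr : 0 < r) {δ : ℝ}
    (hF : ∀ᶠ i in (hyperfilter ℕ : Filter ℕ), NF n (ν i) (x i) r δ) : NF n ν' x' r δ := by
  intro b v hvo
  have hconv := q_conv hn hC h h' hv (tendsto_const_nhds (x := b)) (tendsto_const_nhds (x := v))
    hx hr
  refine ge_of_tendsto hconv ?_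
  filter_upwards [hF] with i hi using hi b v hvo

end Pool.Agent.RZ
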