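import Pool.Agent.RZ.V2
import Pool.Agent.RZ.V3
import Pool.Agent.RZ.Q1a

/-!
Q1: the quadratic function q and its behaviour under vague limits.
q b v y = |y-b - sum <v_i, y-b> v_i|^2 for orthonormal v (0 <= q <= |y-b|^2), = dist(y, b + span v)^2.
compactness: Orthonormal v is closed and bounded in (Fin m -> X d); the hyperfilter has a limit.
flat_limit: if Flat nu_i x r eps for hyperfilter-many i (with planes b_i, v_i). If the b_i can be chosen bounded: replace b_i by the point of the
plane closest to x; if some point y of the ball with q(y) <= 1 exists then |b_i - x| bounded. Otherwise q >= 1... simpler: b_i closest to x,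
|b_i - x|^2 = q(x); for y in closedBall x r: sqrt q(y) >= sqrt q(x) - r, so int cut r (y-x) q >= (|b_i-x| - r)^2 nu_i(closedBall x r) if |b_i - x| >= r; with
nu_i(closedBall x r) >= m > 0 this bounds |b_i - x|. Then b_i -> b, v_i -> v, and int cut q_{b_i,v_i} dnu_i -> int cut q_{b,v} dnu' (uniform
convergence of q on the ball, bounded masses).
-/

set_option autoImplicit false

open MeasureTheory Filter Topology Metric Set
open scoped RealInnerProductSpace ENNReal

namespace Pool.Agent.RZ

variable {d : ℕ}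

/-- monotonicity of flatness -/
theorem Flat.mono {n : ℕ} {ν : Measure (X d)} {x : X d} {r ε ε' : ℝ} (h : Flat n ν x r ε)
    (hr : 0 < r) (h0 : 0 ≤ ε) (hε : ε ≤ ε') : Flat n ν x r ε' := by
  obtain ⟨b, v, hv, hb⟩ := h
  refine ⟨b, v, hv, hb.trans ?_⟩
  have h1 : ε ^ 2 ≤ ε' ^ 2 := pow_le_pow_left₀ h0 hε 2
  exact mul_le_mul_of_nonneg_right h1 (by positivity)

theorem not_flat_nf {n : ℕ} {ν : Measure (X d)} {x : X d} {r ε : ℝ} (h : ¬ Flat n ν x r ε) :
    NF n ν x r ε := by
  intro b v hv
  by_contra hc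
  exact h ⟨b, v, hv, (not_le.mp hc).le⟩

theorem not_nf_flat {n : ℕ} {ν : Measure (X d)} {x : X d} {r ε : ℝ} (h : ¬ NF n ν x r ε) :
    Flat n ν x r ε := by
  by_contra hc
  exact h (not_flat_nf hc)

private theorem Q1d_integral_le {n m : ℕ} {C : ℝ} {ν : Measure (X d)} (hg : Gr n C ν) {x : X d}
    {r s : ℝ} (hs : 0 < s) (hsr : s ≤ r) {b : X d} {v : Fin m → X d} (hv : Orthonormal ℝ v) :
    ∫ y, cut s (y - x) * q b v y ∂ν ≤ ∫ y, cut r (y - x) * q b v y ∂ν := by
  have := hg.isLocallyFinite
  have hr : 0 < r := lt_of_lt_of_le hs hsr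
  have hc : Continuous fun y : X d => cut r (y - x) * q b v y :=
    ((cut_continuous hr).comp (continuous_id.sub continuous_const)).mul (q_continuous b v)
  have hsupp : HasCompactSupport fun y : X d => cut r (y - x) * q b v y := by
    have h1 : HasCompactSupport fun y : X d => cut r (y - x) := by
      have h2 := (cut_hasCompactSupport (d := d) hr).comp_homeomorph (Homeomorph.subRight x)
      exact h2
    exact h1.mul_right
  have hint : Integrable (fun y : X d => cut r (y - x) * q b v y) ν :=
    hc.integrable_of_hasCompactSupport hsupp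
  refine integral_mono_of_nonneg ?_ hint ?_
  · exact Filter.Eventually.of_forall fun y => mul_nonneg (cut_nonneg _ _) (q_nonneg b hv y)
  · exact Filter.Eventually.of_forall fun y =>
      mul_le_mul_of_nonneg_right (cut_mono hs hsr _) (q_nonneg b hv y)

/-- flatness at a smaller scale -/
theorem Flat.down {n : ℕ} {C : ℝ} {ν : Measure (X d)} (hg : Gr n C ν) {x : X d} {r s ε : ℝ}
    (hs : 0 < s) (hsr : s ≤ r) (h : Flat n ν x r ε) (h0 : 0 ≤ ε) {ε' : ℝ}
    (hε : ε ^ 2 * r ^ (n + 2) ≤ ε' ^ 2 * s ^ (n + 2)) : Flat n ν x s ε' := by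
  obtain ⟨b, v, hv, hb⟩ := h
  refine ⟨b, v, hv, le_trans ?_ (hb.trans hε)⟩
  exact Q1d_integral_le hg hs hsr hv

end Pool.Agent.RZ
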