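import Pool.Agent.RZ.Gr1

/-!
V1: existence of vague limits along the hyperfilter.
For f in C_c(X, R) the sequence int f dnu_i is bounded (|f| <= a on closedBall 0 R, mass <= C R^n), so it has a limit along the
hyperfilter (Ultrafilter, compactness of [-b, b]); the limit is a positive linear functional; nu' = RealRMK.rieszMeasure,
RealRMK.integral_rieszMeasure. Growth: test functions equal to 1 on closedBall x r and 0 outside closedBall x (r + s), s -> 0.
-/

set_option autoImplicit false

open MeasureTheory Filter Topology Metric Set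
open scoped RealInnerProductSpace ENNReal

namespace Pool.Agent.RZ

variable {d : ℕ}

private theorem V1_bound {n : ℕ} {C : ℝ} (hC : 0 ≤ C) {ν : Measure (X d)} (h : Gr n C ν)
    {f : X d → ℝ} {x : X d} {R a : ℝ} (hR : 0 < R) (ha : 0 ≤ a) (hf : ∀ y, |f y| ≤ a)
    (hs : ∀ y, R < ‖y - x‖ → f y = 0) : |∫ y, f y ∂ν| ≤ a * (C * R ^ n) := by
  have h1 : ∫ y in closedBall x R, f y ∂ν = ∫ y, f y ∂ν := by
    refine setIntegral_eq_integral_of_forall_compl_eq_zero (fun y hy => hs y ?_)
    rw [mem_closedBall, dist_eq_norm, not_le] at hy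
    exact hy
  rw [← h1]
  have h2 := norm_setIntegral_le_of_norm_le_const (μ := ν) (s := closedBall x R) (f := f) (C := a)
    (h.finite x R) (fun y _ => by rw [Real.norm_eq_abs]; exact hf y)
  rw [Real.norm_eq_abs] at h2
  exact h2.trans (mul_le_mul_of_nonneg_left (h.real_le hC x hR) ha)

private theorem V1_lim {n : ℕ} {C : ℝ} (hC : 0 ≤ C) (ν : ℕ → Measure (X d))
    (h : ∀ i, Gr n C (ν i)) (f : X d → ℝ) (hf : Continuous f) (hs : HasCompactSupport f) :
    ∃ L : ℝ, Tendsto (fun i => ∫ x, f x ∂(ν i)) (hyperfilter ℕ) (𝓝 L) := by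
  obtain ⟨a, ha⟩ := hf.bounded_above_of_compact_support hs
  obtain ⟨R, hR⟩ := (hs.isCompact.isBounded).subset_closedBall (0 : X d)
  have hR' : ∀ y : X d, max R 1 < ‖y - 0‖ → f y = 0 := by
    intro y hy
    by_contra hne
    have h1 : y ∈ tsupport f := subset_tsupport f hne
    have h2 := hR h1
    rw [mem_closedBall, dist_eq_norm] at h2
    exact absurd (lt_of_le_of_lt (le_max_left R 1) hy) (not_lt.mpr h2)
  have ha0 : 0 ≤ a := (norm_nonneg (f 0)).trans (ha 0)
  have hb : ∀ i, |∫ x, f x ∂(ν i)| ≤ a * (C * (max R 1) ^ n) := fun i =>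
    V1_bound hC (h i) (lt_of_lt_of_le one_pos (le_max_right R 1)) ha0 (fun y => ha y) hR'
  have hK : IsCompact (Icc (-(a * (C * (max R 1) ^ n))) (a * (C * (max R 1) ^ n))) :=
    isCompact_Icc
  obtain ⟨L, _, hL⟩ := hK.ultrafilter_le_nhds
    ((hyperfilter ℕ).map (fun i => ∫ x, f x ∂(ν i))) (by
      rw [Ultrafilter.coe_map, le_principal_iff, mem_map]
      refine univ_mem' (fun i => ?_)
      exact abs_le.mp (hb i))
  exact ⟨L, hL⟩

open CompactlySupported in
theorem exists_VC {n : ℕ} {C : ℝ} (hC : 0 ≤ C) (ν : ℕ → Measure (X d)) (h : ∀ i, Gr n C (ν i)) :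
    ∃ ν' : Measure (X d), Gr n C ν' ∧ VC ν ν' := by
  have hlf : ∀ i, IsLocallyFiniteMeasure (ν i) := fun i => (h i).isLocallyFinite
  have hint : ∀ i (f : C_c(X d, ℝ)), Integrable f (ν i) := fun i f => by
    haveI := hlf i
    exact f.continuous.integrable_of_hasCompactSupport f.hasCompactSupport
  have hex : ∀ f : C_c(X d, ℝ), ∃ L : ℝ,
      Tendsto (fun i => ∫ x, f x ∂(ν i)) (hyperfilter ℕ) (𝓝 L) := fun f =>
    V1_lim hC ν h f f.continuous f.hasCompactSupport
  choose L hL using hex
  let Λ₀ : C_c(X d, ℝ) →ₗ[ℝ] ℝ :=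
    { toFun := L
      map_add' := by
        intro f g
        refine tendsto_nhds_unique (hL (f + g)) ?_
        refine ((hL f).add (hL g)).congr (fun i => ?_)
        rw [← integral_add (hint i f) (hint i g)]
        rfl
      map_smul' := by
        intro c f
        refine tendsto_nhds_unique (hL (c • f)) ?_
        refine ((hL f).const_mul c).congr (fun i => ?_)
        rw [← integral_const_mul]
        rfl }
  let Λ : C_c(X d, ℝ) →ₚ[ℝ] ℝ := PositiveLinearMap.mk₀ Λ₀ (by
    intro f hf
    refine ge_of_tendsto' (hL f) (fun i => ?_)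
    exact integral_nonneg (fun x => hf x))
  have hΛ : ∀ f : C_c(X d, ℝ), Λ f = L f := fun f => rfl
  refine ⟨RealRMK.rieszMeasure Λ, ?_, ?_⟩
  · intro x r hr
    have key : ∀ s : ℝ, 0 < s → RealRMK.rieszMeasure Λ (closedBall x r) ≤
        ENNReal.ofReal (C * (r + s) ^ n) := by
      intro s hs
      let g : X d → ℝ := fun y => max 0 (min 1 (1 - (‖y - x‖ - r) / s))
      have hg : Continuous g := by
        refine continuous_const.max (continuous_const.min ?_)
        exact continuous_const.sub (((continuous_id.sub continuous_const).norm.sub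
          continuous_const).div_const s)
      have hg0 : ∀ y, 0 ≤ g y := fun y => le_max_left _ _
      have hg1 : ∀ y, g y ≤ 1 := fun y => max_le zero_le_one (min_le_left _ _)
      have hgz : ∀ y, r + s < ‖y - x‖ → g y = 0 := by
        intro y hy
        refine max_eq_left ((min_le_right _ _).trans ?_)
        rw [sub_nonpos, one_le_div hs]
        linarith
      have hgs : HasCompactSupport g := by
        refine HasCompactSupport.of_support_subset_isCompact (isCompact_closedBall x (r + s)) ?_
        intro y hy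
        rw [mem_closedBall, dist_eq_norm]
        by_contra hlt
        exact hy (hgz y (not_le.mp hlt))
      let gc : C_c(X d, ℝ) := ⟨⟨g, hg⟩, hgs⟩
      have h1 : RealRMK.rieszMeasure Λ (closedBall x r) ≤ ENNReal.ofReal (Λ gc) := by
        refine RealRMK.rieszMeasure_le_of_eq_one Λ (f := gc) hg0 (isCompact_closedBall x r) ?_
        intro y hy
        rw [mem_closedBall, dist_eq_norm] at hy
        have h2 : (1 : ℝ) ≤ 1 - (‖y - x‖ - r) / s := by
          have h3 : (‖y - x‖ - r) / s ≤ 0 := div_nonpos_of_nonpos_of_nonneg (by linarith) hs.le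
          linarith
        change max 0 (min 1 (1 - (‖y - x‖ - r) / s)) = 1
        rw [min_eq_left h2]
        exact max_eq_right zero_le_one
      refine h1.trans (ENNReal.ofReal_le_ofReal ?_)
      rw [hΛ]
      refine le_of_tendsto' (hL gc) (fun i => ?_)
      have h4 := V1_bound hC (h i) (f := g) (x := x) (R := r + s) (a := 1) (by linarith)
        zero_le_one (fun y => by rw [abs_of_nonneg (hg0 y)]; exact hg1 y) hgz
      rw [one_mul] at h4
      exact (le_abs_self _).trans h4
    have hcont : Tendsto (fun s : ℝ => ENNReal.ofReal (C * (r + s) ^ n)) (𝓝[>] 0)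
        (𝓝 (ENNReal.ofReal (C * r ^ n))) := by
      have h5 : Continuous (fun s : ℝ => ENNReal.ofReal (C * (r + s) ^ n)) :=
        ENNReal.continuous_ofReal.comp (continuous_const.mul
          ((continuous_const.add continuous_id).pow n))
      have h6 := h5.tendsto 0
      simp only [add_zero] at h6
      exact h6.mono_left nhdsWithin_le_nhds
    exact ge_of_tendsto hcont (eventually_mem_nhdsWithin.mono (fun s hs => key s hs))
  · intro f hf hs
    let fc : C_c(X d, ℝ) := ⟨⟨f, hf⟩, hs⟩
    have h1 : ∫ x, f x ∂(RealRMK.rieszMeasure Λ) = L fc := by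
      have := RealRMK.integral_rieszMeasure Λ fc
      rw [hΛ] at this
      exact this
    rw [h1]
    exact hL fc

end Pool.Agent.RZ
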