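import Pool.Agent.RZ.L2

/-!
V5: dependence on the regularisation. Apply sum_parts with rho' = 2 rho + 1 for eps and eps' and subtract:
(1) (1/2) iint_{B^2} (u(y)-u(x))(psi(y)-psi(x))(k_eps' - k_eps): Cauchy-Schwarz, iint (u-u)^2 (k_eps'-k_eps) <= E,
    iint_{B^2} (psi-psi)^2 (k_eps'-k_eps) <= L^2 int_B A C eps (Gr.kr_diff) <= L^2 C (2 rho+1)^n A C eps.
(2) for y in supp psi and x notin B: |x-y| >= 1, k_eps'-k_eps <= (n+1) eps^2 |x-y|^{-(n+3)}, Gr.tail; int_B |u psi| <= L rho (M (2 rho+1)^{n+3} C (2rho+1)^n)^{1/2}.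
(3) for y notin B: (Lam_eps' - Lam_eps) psi(y) = - int psi(x) (k_eps'-k_eps)(x-y) dnu, |.| <= L rho C rho^n (n+1) eps^2 (|y|/2)^{-(n+3)}; Gr.weight.
Since eps <= 1: eps^2 <= sqrt eps.
-/

set_option autoImplicit false

open MeasureTheory Filter Topology Metric Set
open scoped RealInnerProductSpace ENNReal

namespace Pool.Agent.RZ

variable {d : ℕ}

private lemma V5_amgm {s a b D : ℝ} (hs : 0 < s) (hD : 0 ≤ D) :
    |a * b * D| ≤ 1 / 2 * (s * (a ^ 2 * D) + s⁻¹ * (b ^ 2 * D)) := by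
  have h1 : |a * b| ≤ 1 / 2 * (s * a ^ 2 + s⁻¹ * b ^ 2) := by
    rw [abs_mul]
    have h2 : 0 ≤ (s * |a| - |b|) ^ 2 * s⁻¹ := mul_nonneg (sq_nonneg _) (inv_nonneg.mpr hs.le)
    have h3 : (s * |a| - |b|) ^ 2 * s⁻¹ = s * |a| ^ 2 - 2 * (|a| * |b|) + s⁻¹ * |b| ^ 2 := by
      field_simp
      ring
    rw [h3, sq_abs, sq_abs] at h2
    linarith
  rw [abs_mul, abs_of_nonneg hD]
  calc |a * b| * D ≤ 1 / 2 * (s * a ^ 2 + s⁻¹ * b ^ 2) * D := mul_le_mul_of_nonneg_right h1 hD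
    _ = 1 / 2 * (s * (a ^ 2 * D) + s⁻¹ * (b ^ 2 * D)) := by ring

private lemma V5_fin {n : ℕ} {C : ℝ} {ν : Measure (X d)} (h : Gr n C ν) (r : ℝ) :
    IsFiniteMeasure (ν.restrict (closedBall (0 : X d) r)) :=
  ⟨by rw [Measure.restrict_apply_univ]; exact h.finite 0 r⟩

private lemma V5_real {n : ℕ} {C : ℝ} (hC : 0 ≤ C) {ν : Measure (X d)} (h : Gr n C ν) {r : ℝ}
    (hr : 0 < r) : (ν.restrict (closedBall (0 : X d) r)).real univ ≤ C * r ^ n := by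
  have e : (ν.restrict (closedBall (0 : X d) r)).real univ = ν.real (closedBall 0 r) := by
    rw [Measure.real, Measure.real, Measure.restrict_apply_univ]
  rw [e]
  exact h.real_le hC 0 hr

private lemma V5_T1 (n : ℕ) (hn : 1 ≤ n) : ∃ A : ℝ, 0 < A ∧ ∀ C : ℝ, 0 ≤ C →
    ∀ ν : Measure (X d), Gr n C ν → ∀ (L ρ : ℝ) (ψ : X d → ℝ), Tst L ρ ψ →
      ∀ u : X d → ℝ, Continuous u → ∀ ρ' : ℝ, 0 < ρ' → ∀ E : ℝ,
      (∀ ε : ℝ, 0 < ε → ∫ y in closedBall 0 ρ', ∫ x in closedBall 0 ρ',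
          (u y - u x) ^ 2 * kr n ε (x - y) ∂ν ∂ν ≤ E) →
      ∀ ε ε' : ℝ, 0 < ε' → ε' ≤ ε →
      |(∫ y in closedBall 0 ρ', ∫ x in closedBall 0 ρ',
        (u y - u x) * (ψ y - ψ x) * kr n ε' (x - y) ∂ν ∂ν) -
       ∫ y in closedBall 0 ρ', ∫ x in closedBall 0 ρ',
        (u y - u x) * (ψ y - ψ x) * kr n ε (x - y) ∂ν ∂ν| ≤
        1 / 2 * (E + L ^ 2 * (A * C * (C * ρ' ^ n))) * Real.sqrt ε := by
  obtain ⟨A, hA, hAd⟩ := Gr.kr_diff (d := d) n hn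
  refine ⟨A, hA, ?_⟩
  intro C hC ν hg L ρ ψ hψ u hu ρ' hρ' E hE ε ε' hε' hle
  have hε : 0 < ε := hε'.trans_le hle
  haveI := hg.isLocallyFinite
  set μB : Measure (X d) := ν.restrict (closedBall (0 : X d) ρ') with hμB
  haveI : IsFiniteMeasure μB := V5_fin hg ρ'
  have hreal : μB.real univ ≤ C * ρ' ^ n := V5_real hC hg hρ'
  have hint : ∀ f : X d × X d → ℝ, Continuous f → Integrable f (μB.prod μB) := by
    intro f hf
    rw [hμB, Measure.prod_restrict]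
    exact hf.continuousOn.integrableOn_compact
      ((isCompact_closedBall 0 ρ').prod (isCompact_closedBall 0 ρ'))
  have hk : ∀ δ : ℝ, 0 < δ → Continuous fun p : X d × X d => kr n δ (p.2 - p.1) := fun δ hδ =>
    (kr_continuous n hδ).comp (continuous_snd.sub continuous_fst)
  have hu2 : Continuous fun p : X d × X d => u p.1 - u p.2 :=
    (hu.comp continuous_fst).sub (hu.comp continuous_snd)
  have hψ2 : Continuous fun p : X d × X d => ψ p.1 - ψ p.2 :=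
    (hψ.continuous.comp continuous_fst).sub (hψ.continuous.comp continuous_snd)
  have hI : ∀ δ : ℝ, 0 < δ → ∫ y, ∫ x, (u y - u x) * (ψ y - ψ x) * kr n δ (x - y) ∂μB ∂μB =
      ∫ p : X d × X d, (u p.1 - u p.2) * (ψ p.1 - ψ p.2) * kr n δ (p.2 - p.1) ∂(μB.prod μB) :=
    fun δ hδ => (integral_prod _ (hint _ ((hu2.mul hψ2).mul (hk δ hδ)))).symm
  have hcc : ∀ δ : ℝ, 0 < δ → Continuous fun p : X d × X d =>
      (u p.1 - u p.2) * (ψ p.1 - ψ p.2) * kr n δ (p.2 - p.1) := fun δ hδ =>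
    (hu2.mul hψ2).mul (hk δ hδ)
  rw [hI ε' hε', hI ε hε, ← integral_sub (hint _ (hcc ε' hε')) (hint _ (hcc ε hε))]
  set s : ℝ := Real.sqrt ε with hs
  have hs0 : 0 < s := Real.sqrt_pos.mpr hε
  have hss : s * s = ε := Real.mul_self_sqrt hε.le
  have c1 : Continuous fun p : X d × X d => (u p.1 - u p.2) ^ 2 *
      (kr n ε' (p.2 - p.1) - kr n ε (p.2 - p.1)) := (hu2.pow 2).mul ((hk ε' hε').sub (hk ε hε))
  have c2 : Continuous fun p : X d × X d => (ψ p.1 - ψ p.2) ^ 2 *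
      (kr n ε' (p.2 - p.1) - kr n ε (p.2 - p.1)) := (hψ2.pow 2).mul ((hk ε' hε').sub (hk ε hε))
  have c3 : Continuous fun p : X d × X d => (u p.1 - u p.2) ^ 2 * kr n ε' (p.2 - p.1) :=
    (hu2.pow 2).mul (hk ε' hε')
  have c4 : Continuous fun p : X d × X d => ‖p.2 - p.1‖ ^ 2 *
      (kr n ε' (p.2 - p.1) - kr n ε (p.2 - p.1)) :=
    ((continuous_snd.sub continuous_fst).norm.pow 2).mul ((hk ε' hε').sub (hk ε hε))
  have hD : ∀ z : X d, 0 ≤ kr n ε' z - kr n ε z := kr_eps_diff_nonneg n hε' hle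
  have step1 : |∫ p : X d × X d, ((u p.1 - u p.2) * (ψ p.1 - ψ p.2) * kr n ε' (p.2 - p.1) -
      (u p.1 - u p.2) * (ψ p.1 - ψ p.2) * kr n ε (p.2 - p.1)) ∂(μB.prod μB)| ≤
      ∫ p : X d × X d, 1 / 2 * (s * ((u p.1 - u p.2) ^ 2 *
        (kr n ε' (p.2 - p.1) - kr n ε (p.2 - p.1))) + s⁻¹ * ((ψ p.1 - ψ p.2) ^ 2 *
        (kr n ε' (p.2 - p.1) - kr n ε (p.2 - p.1)))) ∂(μB.prod μB) := by
    rw [← Real.norm_eq_abs]
    refine norm_integral_le_of_norm_le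
      ((((hint _ c1).const_mul s).add ((hint _ c2).const_mul s⁻¹)).const_mul (1 / 2))
      (ae_of_all _ fun p => ?_)
    rw [Real.norm_eq_abs, ← mul_sub]
    exact V5_amgm hs0 (hD _)
  have step2 : ∫ p : X d × X d, 1 / 2 * (s * ((u p.1 - u p.2) ^ 2 *
        (kr n ε' (p.2 - p.1) - kr n ε (p.2 - p.1))) + s⁻¹ * ((ψ p.1 - ψ p.2) ^ 2 *
        (kr n ε' (p.2 - p.1) - kr n ε (p.2 - p.1)))) ∂(μB.prod μB) =
      1 / 2 * (s * (∫ p : X d × X d, (u p.1 - u p.2) ^ 2 *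
        (kr n ε' (p.2 - p.1) - kr n ε (p.2 - p.1)) ∂(μB.prod μB)) +
      s⁻¹ * ∫ p : X d × X d, (ψ p.1 - ψ p.2) ^ 2 *
        (kr n ε' (p.2 - p.1) - kr n ε (p.2 - p.1)) ∂(μB.prod μB)) := by
    rw [integral_const_mul, integral_add ((hint _ c1).const_mul s) ((hint _ c2).const_mul s⁻¹),
      integral_const_mul, integral_const_mul]
  have step3 : ∫ p : X d × X d, (u p.1 - u p.2) ^ 2 *
        (kr n ε' (p.2 - p.1) - kr n ε (p.2 - p.1)) ∂(μB.prod μB) ≤ E := by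
    calc ∫ p : X d × X d, (u p.1 - u p.2) ^ 2 *
        (kr n ε' (p.2 - p.1) - kr n ε (p.2 - p.1)) ∂(μB.prod μB)
        ≤ ∫ p : X d × X d, (u p.1 - u p.2) ^ 2 * kr n ε' (p.2 - p.1) ∂(μB.prod μB) := by
          refine integral_mono (hint _ c1) (hint _ c3) fun p => ?_
          exact mul_le_mul_of_nonneg_left (by have := kr_nonneg n ε (p.2 - p.1); linarith)
            (sq_nonneg _)
      _ = ∫ y, ∫ x, (u y - u x) ^ 2 * kr n ε' (x - y) ∂μB ∂μB := integral_prod _ (hint _ c3)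
      _ ≤ E := hE ε' hε'
  have step4 : ∫ p : X d × X d, (ψ p.1 - ψ p.2) ^ 2 *
        (kr n ε' (p.2 - p.1) - kr n ε (p.2 - p.1)) ∂(μB.prod μB) ≤
        L ^ 2 * (A * C * ε * (C * ρ' ^ n)) := by
    have h1 : ∫ p : X d × X d, (ψ p.1 - ψ p.2) ^ 2 *
        (kr n ε' (p.2 - p.1) - kr n ε (p.2 - p.1)) ∂(μB.prod μB)
        ≤ ∫ p : X d × X d, L ^ 2 * (‖p.2 - p.1‖ ^ 2 *
        (kr n ε' (p.2 - p.1) - kr n ε (p.2 - p.1))) ∂(μB.prod μB) := by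
      refine integral_mono (hint _ c2) ((hint _ c4).const_mul _) fun p => ?_
      show (ψ p.1 - ψ p.2) ^ 2 * (kr n ε' (p.2 - p.1) - kr n ε (p.2 - p.1)) ≤
        L ^ 2 * (‖p.2 - p.1‖ ^ 2 * (kr n ε' (p.2 - p.1) - kr n ε (p.2 - p.1)))
      rw [← mul_assoc]
      refine mul_le_mul_of_nonneg_right ?_ (hD _)
      have h2 := hψ.lip p.1 p.2
      rw [← mul_pow, ← sq_abs (ψ p.1 - ψ p.2), norm_sub_rev p.2 p.1]
      exact pow_le_pow_left₀ (abs_nonneg _) h2 2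
    refine h1.trans ?_
    rw [integral_const_mul]
    refine mul_le_mul_of_nonneg_left ?_ (sq_nonneg L)
    have h3 : ∫ p : X d × X d, ‖p.2 - p.1‖ ^ 2 *
        (kr n ε' (p.2 - p.1) - kr n ε (p.2 - p.1)) ∂(μB.prod μB) =
        ∫ y, ∫ x, ‖x - y‖ ^ 2 * (kr n ε' (x - y) - kr n ε (x - y)) ∂μB ∂μB :=
      integral_prod _ (hint _ c4)
    rw [h3]
    have h4 : ∀ y, ‖∫ x, ‖x - y‖ ^ 2 * (kr n ε' (x - y) - kr n ε (x - y)) ∂μB‖ ≤ A * C * ε := by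
      intro y
      obtain ⟨k1, k2⟩ := hAd C hC ν hg y ε ε' hε' hle
      have hnn : ∀ x : X d, 0 ≤ ‖x - y‖ ^ 2 * (kr n ε' (x - y) - kr n ε (x - y)) := fun x =>
        mul_nonneg (sq_nonneg _) (hD _)
      rw [Real.norm_eq_abs, abs_of_nonneg (integral_nonneg hnn)]
      exact (setIntegral_le_integral k1 (ae_of_all _ hnn)).trans k2
    have h5 := norm_integral_le_of_norm_le_const (μ := μB) (ae_of_all _ h4)
    have hACε : 0 ≤ A * C * ε := by positivity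
    exact (le_abs_self _).trans (h5.trans (mul_le_mul_of_nonneg_left hreal hACε))
  refine step1.trans ?_
  rw [step2]
  have e1 : s⁻¹ * (L ^ 2 * (A * C * ε * (C * ρ' ^ n))) = L ^ 2 * (A * C * (C * ρ' ^ n)) * s := by
    rw [← hss]; field_simp
  have h6 := mul_le_mul_of_nonneg_left step3 hs0.le
  have h7 := mul_le_mul_of_nonneg_left step4 (inv_nonneg.mpr hs0.le)
  rw [e1] at h7
  calc 1 / 2 * (s * (∫ p : X d × X d, (u p.1 - u p.2) ^ 2 *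
        (kr n ε' (p.2 - p.1) - kr n ε (p.2 - p.1)) ∂(μB.prod μB)) +
      s⁻¹ * ∫ p : X d × X d, (ψ p.1 - ψ p.2) ^ 2 *
        (kr n ε' (p.2 - p.1) - kr n ε (p.2 - p.1)) ∂(μB.prod μB))
      ≤ 1 / 2 * (s * E + L ^ 2 * (A * C * (C * ρ' ^ n)) * s) := by linarith
    _ = 1 / 2 * (E + L ^ 2 * (A * C * (C * ρ' ^ n))) * s := by ring

private lemma V5_kint {n : ℕ} (hn : 1 ≤ n) {C : ℝ} (hC : 0 ≤ C) {ν : Measure (X d)}
    (h : Gr n C ν) {ε : ℝ} (hε : 0 < ε) (y : X d) :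
    Integrable (fun x => kr n ε (x - y)) ν := by
  obtain ⟨A, -, hA⟩ := Gr.kr_integrable (d := d) n hn
  exact (hA C hC ν h y ε hε).1

private lemma V5_T2 (n : ℕ) (hn : 1 ≤ n) (hd : 0 < d) : ∃ A : ℝ, 0 < A ∧ ∀ C : ℝ, 0 ≤ C →
    ∀ ν : Measure (X d), Gr n C ν → ∀ (L ρ : ℝ), 0 ≤ L → 0 < ρ → ∀ ψ : X d → ℝ, Tst L ρ ψ →
      ∀ u : X d → ℝ, Continuous u → ∀ ρ' : ℝ, 2 * ρ + 1 ≤ ρ' → ∀ M : ℝ,
      ∫ y in closedBall 0 ρ', u y ^ 2 ∂ν ≤ M →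
      ∀ ε ε' : ℝ, 0 < ε' → ε' ≤ ε →
      |(∫ y in closedBall 0 ρ', u y * ψ y * (∫ x in (closedBall 0 ρ')ᶜ, kr n ε' (x - y) ∂ν) ∂ν) -
       ∫ y in closedBall 0 ρ', u y * ψ y * (∫ x in (closedBall 0 ρ')ᶜ, kr n ε (x - y) ∂ν) ∂ν| ≤
        (L * ρ * ((n + 1) * (A * C))) * (1 / 2 * (C * ρ' ^ n + M)) * ε ^ 2 := by
  obtain ⟨A, hA, hAt⟩ := Gr.tail (d := d) n 3 hn (by norm_num)
  refine ⟨A, hA, ?_⟩
  intro C hC ν hg L ρ hL hρ ψ hψ u hu ρ' hρ' M hM ε ε' hε' hle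
  have hε : 0 < ε := hε'.trans_le hle
  haveI := hg.isLocallyFinite
  have hρ'0 : 0 < ρ' := by linarith
  set μB : Measure (X d) := ν.restrict (closedBall (0 : X d) ρ') with hμB
  haveI : IsFiniteMeasure μB := V5_fin hg ρ'
  have hreal : μB.real univ ≤ C * ρ' ^ n := V5_real hC hg hρ'0
  set μc : Measure (X d) := ν.restrict (closedBall (0 : X d) ρ')ᶜ with hμc
  have hki : ∀ δ : ℝ, 0 < δ → ∀ y : X d, Integrable (fun x => kr n δ (x - y)) μc :=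
    fun δ hδ y => (V5_kint hn hC hg hδ y).integrableOn
  obtain ⟨A₂, hA₂, hAk⟩ := Gr.kr_integrable (d := d) n hn
  have hJb : ∀ δ : ℝ, 0 < δ → ∀ y : X d, ‖∫ x, kr n δ (x - y) ∂μc‖ ≤ A₂ * C * δ⁻¹ := by
    intro δ hδ y
    obtain ⟨k1, k2⟩ := hAk C hC ν hg y δ hδ
    have hnn : ∀ x : X d, 0 ≤ kr n δ (x - y) := fun x => kr_nonneg n δ _
    rw [Real.norm_eq_abs, abs_of_nonneg (integral_nonneg hnn)]
    exact (setIntegral_le_integral k1 (ae_of_all _ hnn)).trans k2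
  have hJm : ∀ δ : ℝ, 0 < δ → AEStronglyMeasurable (fun y => ∫ x, kr n δ (x - y) ∂μc) μB := by
    intro δ hδ
    have hc : Continuous fun p : X d × X d => kr n δ (p.2 - p.1) :=
      (kr_continuous n hδ).comp (continuous_snd.sub continuous_fst)
    exact (hc.stronglyMeasurable.integral_prod_right' (ν := μc)).aestronglyMeasurable
  have huψ : Integrable (fun y => u y * ψ y) μB :=
    (hu.mul hψ.continuous).continuousOn.integrableOn_compact (isCompact_closedBall 0 ρ')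
  have hJi : ∀ δ : ℝ, 0 < δ → Integrable (fun y => u y * ψ y * ∫ x, kr n δ (x - y) ∂μc) μB :=
    fun δ hδ => huψ.mul_bdd (hJm δ hδ) (ae_of_all _ (hJb δ hδ))
  rw [← integral_sub (hJi ε' hε') (hJi ε hε)]
  -- bound of the difference of the inner integrals
  have hin : ∀ y : X d, ‖y‖ ≤ ρ →
      |(∫ x, kr n ε' (x - y) ∂μc) - ∫ x, kr n ε (x - y) ∂μc| ≤ (n + 1) * (A * C) * ε ^ 2 := by
    intro y hy
    obtain ⟨k1, k2⟩ := hAt C hC ν hg y 1 one_pos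
    rw [← integral_sub (hki ε' hε' y) (hki ε hε y)]
    have hsub : (closedBall (0 : X d) ρ')ᶜ ⊆ {x | 1 ≤ ‖x - y‖} := by
      intro x hx
      rw [mem_compl_iff, mem_closedBall_zero_iff, not_le] at hx
      show 1 ≤ ‖x - y‖
      have := norm_sub_norm_le x y
      linarith
    have hmeas : MeasurableSet (closedBall (0 : X d) ρ')ᶜ := isClosed_closedBall.measurableSet.compl
    have k3 : IntegrableOn (fun x => ‖x - y‖⁻¹ ^ (n + 3)) (closedBall (0 : X d) ρ')ᶜ ν :=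
      k1.mono_set hsub
    have h1 : ‖∫ x, (kr n ε' (x - y) - kr n ε (x - y)) ∂μc‖ ≤
        ∫ x, ((n + 1) * ε ^ 2) * ‖x - y‖⁻¹ ^ (n + 3) ∂μc := by
      refine norm_integral_le_of_norm_le (k3.const_mul _) ?_
      rw [hμc]
      refine (ae_restrict_iff' hmeas).mpr (ae_of_all _ fun x hx => ?_)
      have hx1 : 1 ≤ ‖x - y‖ := hsub hx
      have hx0 : x - y ≠ 0 := norm_pos_iff.mp (by linarith)
      rw [Real.norm_eq_abs, abs_of_nonneg (kr_eps_diff_nonneg n hε' hle _)]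
      exact kr_eps_diff n hε' hle hx0
    rw [integral_const_mul] at h1
    have h2 : ∫ x, ‖x - y‖⁻¹ ^ (n + 3) ∂μc ≤ A * C := by
      have h3 : ∫ x, ‖x - y‖⁻¹ ^ (n + 3) ∂μc ≤ ∫ x in {x | 1 ≤ ‖x - y‖}, ‖x - y‖⁻¹ ^ (n + 3) ∂ν :=
        setIntegral_mono_set k1 (ae_of_all _ fun x => by positivity)
          (Eventually.of_forall hsub)
      refine h3.trans (k2.trans (le_of_eq ?_))
      rw [inv_one, one_pow, mul_one]
    rw [Real.norm_eq_abs] at h1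
    have h4 : (0 : ℝ) ≤ (n + 1) * ε ^ 2 := by positivity
    calc |∫ x, (kr n ε' (x - y) - kr n ε (x - y)) ∂μc|
        ≤ (n + 1) * ε ^ 2 * ∫ x, ‖x - y‖⁻¹ ^ (n + 3) ∂μc := h1
      _ ≤ (n + 1) * ε ^ 2 * (A * C) := mul_le_mul_of_nonneg_left h2 h4
      _ = (n + 1) * (A * C) * ε ^ 2 := by ring
  set Kc : ℝ := L * ρ * ((n + 1) * (A * C)) * ε ^ 2 with hKc
  have hKc0 : 0 ≤ Kc := by rw [hKc]; positivity
  have hu2 : Integrable (fun y => u y ^ 2) μB :=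
    (hu.pow 2).continuousOn.integrableOn_compact (isCompact_closedBall 0 ρ')
  have h1 : ‖∫ y, (u y * ψ y * (∫ x, kr n ε' (x - y) ∂μc) - u y * ψ y *
      ∫ x, kr n ε (x - y) ∂μc) ∂μB‖ ≤ ∫ y, Kc * (1 / 2 * (1 + u y ^ 2)) ∂μB := by
    refine norm_integral_le_of_norm_le
      (((((integrable_const (1 : ℝ)).add hu2)).const_mul (1 / 2)).const_mul Kc)
      (ae_of_all _ fun y => ?_)
    rw [← mul_sub, Real.norm_eq_abs, abs_mul, abs_mul]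
    have hu1 : |u y| ≤ 1 / 2 * (1 + u y ^ 2) := by
      have := sq_nonneg (|u y| - 1)
      rw [← sq_abs (u y)]
      nlinarith
    by_cases hy : ‖y‖ ≤ ρ
    · have hb := hin y hy
      have hψb := hψ.abs_le hL hρ hd y
      have hLρ : 0 ≤ L * ρ := mul_nonneg hL hρ.le
      calc |u y| * |ψ y| * |(∫ x, kr n ε' (x - y) ∂μc) - ∫ x, kr n ε (x - y) ∂μc|
          ≤ |u y| * (L * ρ) * ((n + 1) * (A * C) * ε ^ 2) :=
            mul_le_mul (mul_le_mul_of_nonneg_left hψb (abs_nonneg _)) hb (abs_nonneg _)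
              (mul_nonneg (abs_nonneg _) hLρ)
        _ = Kc * |u y| := by rw [hKc]; ring
        _ ≤ Kc * (1 / 2 * (1 + u y ^ 2)) := mul_le_mul_of_nonneg_left hu1 hKc0
    · have hψ0 := hψ.supp y (not_le.mp hy)
      rw [hψ0, abs_zero, mul_zero, zero_mul]
      have : 0 ≤ 1 / 2 * (1 + u y ^ 2) := by positivity
      exact mul_nonneg hKc0 this
  rw [Real.norm_eq_abs] at h1
  refine h1.trans ?_
  rw [integral_const_mul, integral_const_mul, integral_add (integrable_const _) hu2,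
    integral_const, smul_eq_mul, mul_one]
  calc Kc * (1 / 2 * (μB.real univ + ∫ y, u y ^ 2 ∂μB))
      ≤ Kc * (1 / 2 * (C * ρ' ^ n + M)) := by
        refine mul_le_mul_of_nonneg_left ?_ hKc0
        have : ∫ y, u y ^ 2 ∂μB ≤ M := hM
        linarith
    _ = (L * ρ * ((n + 1) * (A * C))) * (1 / 2 * (C * ρ' ^ n + M)) * ε ^ 2 := by
        rw [hKc]; ring

private lemma V5_T3 (n : ℕ) (hn : 1 ≤ n) (hd : 0 < d) : ∃ A : ℝ, 0 < A ∧ ∀ C : ℝ, 0 ≤ C →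
    ∀ ν : Measure (X d), Gr n C ν → ∀ (L ρ : ℝ), 0 ≤ L → 0 < ρ → ∀ ψ : X d → ℝ, Tst L ρ ψ →
      ∫ x, ψ x ∂ν = 0 →
      ∀ u : X d → ℝ, Continuous u → ∀ ρ' : ℝ, 2 * ρ + 1 ≤ ρ' → ∀ M : ℝ, 0 ≤ M →
      (∀ r, 1 ≤ r → ∫ y in closedBall 0 r, u y ^ 2 ∂ν ≤ M * r ^ (n + 3)) →
      ∀ ε ε' : ℝ, 0 < ε' → ε' ≤ ε →
      |(∫ y in (closedBall 0 ρ')ᶜ, u y * Lam n ε' ν ψ y ∂ν) -
       ∫ y in (closedBall 0 ρ')ᶜ, u y * Lam n ε ν ψ y ∂ν| ≤
        (L * ρ * ((n + 1) * 4 ^ (n + 3)) * (C * ρ ^ n)) * (A * Real.sqrt (M * C)) * ε ^ 2 := by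
  obtain ⟨A, hA, hAw⟩ := Gr.weight (d := d) n hn
  refine ⟨A, hA, ?_⟩
  intro C hC ν hg L ρ hL hρ ψ hψ h0 u hu ρ' hρ' M hM huM ε ε' hε' hle
  have hε : 0 < ε := hε'.trans_le hle
  haveI := hg.isLocallyFinite
  obtain ⟨w1, w2⟩ := hAw C hC ν hg u hu M hM huM
  have hmeas : MeasurableSet (closedBall (0 : X d) ρ')ᶜ := isClosed_closedBall.measurableSet.compl
  have hLi : ∀ δ : ℝ, 0 < δ → Integrable (fun y => u y * Lam n δ ν ψ y) ν := by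
    intro δ hδ
    obtain ⟨B, hB, hBb⟩ := lam_bound (d := d) n hn hd C L ρ δ hC hL hρ hδ
    refine (w1.const_mul B).mono'
      (hu.mul (lam_continuous hn hC hg hδ hψ)).aestronglyMeasurable (ae_of_all _ fun y => ?_)
    rw [Real.norm_eq_abs, abs_mul]
    calc |u y| * |Lam n δ ν ψ y| ≤ |u y| * (B * (1 + ‖y‖)⁻¹ ^ (n + 2)) :=
          mul_le_mul_of_nonneg_left (hBb ν hg ψ hψ h0 y) (abs_nonneg _)
      _ = B * (|u y| * (1 + ‖y‖)⁻¹ ^ (n + 2)) := by ring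
  rw [← integral_sub (hLi ε' hε').integrableOn (hLi ε hε).integrableOn]
  set Kc : ℝ := L * ρ * ((n + 1) * 4 ^ (n + 3)) * (C * ρ ^ n) * ε ^ 2 with hKc
  have hKc0 : 0 ≤ Kc := by rw [hKc]; positivity
  -- pointwise bound
  have hpt : ∀ y : X d, ρ' < ‖y‖ →
      |Lam n ε' ν ψ y - Lam n ε ν ψ y| ≤ Kc * (1 + ‖y‖)⁻¹ ^ (n + 2) := by
    intro y hy
    have hψy : ψ y = 0 := hψ.supp y (by linarith)
    rw [lam_eq hn hC hg hε' hψ y, lam_eq hn hC hg hε hψ y, hψy, zero_mul, zero_mul, zero_sub,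
      zero_sub]
    haveI : IsFiniteMeasure (ν.restrict (closedBall (0 : X d) ρ)) := V5_fin hg ρ
    have hsupp : ∀ δ : ℝ, ∫ x, ψ x * kr n δ (x - y) ∂ν =
        ∫ x in closedBall 0 ρ, ψ x * kr n δ (x - y) ∂ν := by
      intro δ
      refine (setIntegral_eq_integral_of_forall_compl_eq_zero fun x hx => ?_).symm
      rw [mem_closedBall_zero_iff, not_le] at hx
      rw [hψ.supp x hx, zero_mul]
    have hci : ∀ δ : ℝ, 0 < δ →
        Integrable (fun x => ψ x * kr n δ (x - y)) (ν.restrict (closedBall 0 ρ)) := by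
      intro δ hδ
      have hc : Continuous fun x : X d => ψ x * kr n δ (x - y) :=
        hψ.continuous.mul ((kr_continuous n hδ).comp (continuous_id.sub continuous_const))
      exact hc.continuousOn.integrableOn_compact (isCompact_closedBall 0 ρ)
    have e1 : -(∫ x, ψ x * kr n ε' (x - y) ∂ν) - -(∫ x, ψ x * kr n ε (x - y) ∂ν) =
        -∫ x in closedBall 0 ρ, (ψ x * kr n ε' (x - y) - ψ x * kr n ε (x - y)) ∂ν := by
      rw [hsupp, hsupp, integral_sub (hci ε' hε') (hci ε hε)]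
      ring
    rw [e1, abs_neg]
    have hy1 : 1 ≤ ‖y‖ := by linarith
    have hbd : ∀ x ∈ closedBall (0 : X d) ρ,
        ‖ψ x * kr n ε' (x - y) - ψ x * kr n ε (x - y)‖ ≤
          L * ρ * ((n + 1) * 4 ^ (n + 3)) * ε ^ 2 * (1 + ‖y‖)⁻¹ ^ (n + 2) := by
      intro x hx
      rw [mem_closedBall_zero_iff] at hx
      have hxy : (1 + ‖y‖) / 4 ≤ ‖x - y‖ := by
        have := norm_sub_norm_le y x
        rw [norm_sub_rev y x] at this
        linarith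
      have hy0 : 0 < 1 + ‖y‖ := by positivity
      have hx0 : x - y ≠ 0 := norm_pos_iff.mp (by linarith)
      have hk := kr_eps_diff n hε' hle hx0
      have hk0 := kr_eps_diff_nonneg n hε' hle (x - y)
      have hinv : ‖x - y‖⁻¹ ≤ 4 * (1 + ‖y‖)⁻¹ := by
        have h1 := inv_anti₀ (by positivity) hxy
        rw [inv_div, div_eq_mul_inv] at h1
        exact h1
      have hp : ‖x - y‖⁻¹ ^ (n + 3) ≤ 4 ^ (n + 3) * (1 + ‖y‖)⁻¹ ^ (n + 2) := by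
        calc ‖x - y‖⁻¹ ^ (n + 3) ≤ (4 * (1 + ‖y‖)⁻¹) ^ (n + 3) :=
              pow_le_pow_left₀ (by positivity) hinv _
          _ = 4 ^ (n + 3) * ((1 + ‖y‖)⁻¹ ^ (n + 2) * (1 + ‖y‖)⁻¹) := by
              rw [mul_pow, pow_succ ((1 + ‖y‖)⁻¹) (n + 2)]
          _ ≤ 4 ^ (n + 3) * ((1 + ‖y‖)⁻¹ ^ (n + 2) * 1) := by
              refine mul_le_mul_of_nonneg_left (mul_le_mul_of_nonneg_left ?_ (by positivity))
                (by positivity)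
              exact inv_le_one_of_one_le₀ (by linarith)
          _ = 4 ^ (n + 3) * (1 + ‖y‖)⁻¹ ^ (n + 2) := by rw [mul_one]
      rw [← mul_sub, Real.norm_eq_abs, abs_mul, abs_of_nonneg hk0]
      have hψb := hψ.abs_le hL hρ hd x
      have hLρ : 0 ≤ L * ρ := mul_nonneg hL hρ.le
      calc |ψ x| * (kr n ε' (x - y) - kr n ε (x - y))
          ≤ (L * ρ) * ((n + 1) * ε ^ 2 * (4 ^ (n + 3) * (1 + ‖y‖)⁻¹ ^ (n + 2))) :=
            mul_le_mul hψb (hk.trans (mul_le_mul_of_nonneg_left hp (by positivity))) hk0 hLρ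
        _ = L * ρ * ((n + 1) * 4 ^ (n + 3)) * ε ^ 2 * (1 + ‖y‖)⁻¹ ^ (n + 2) := by ring
    have h1 := norm_setIntegral_le_of_norm_le_const (hg.finite 0 ρ) hbd
    rw [Real.norm_eq_abs] at h1
    refine h1.trans ?_
    have h2 := hg.real_le hC 0 hρ
    calc L * ρ * ((n + 1) * 4 ^ (n + 3)) * ε ^ 2 * (1 + ‖y‖)⁻¹ ^ (n + 2) *
          ν.real (closedBall 0 ρ)
        ≤ L * ρ * ((n + 1) * 4 ^ (n + 3)) * ε ^ 2 * (1 + ‖y‖)⁻¹ ^ (n + 2) * (C * ρ ^ n) :=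
          mul_le_mul_of_nonneg_left h2 (by positivity)
      _ = Kc * (1 + ‖y‖)⁻¹ ^ (n + 2) := by rw [hKc]; ring
  have h3 : ‖∫ y in (closedBall 0 ρ')ᶜ, (u y * Lam n ε' ν ψ y - u y * Lam n ε ν ψ y) ∂ν‖ ≤
      ∫ y in (closedBall 0 ρ')ᶜ, Kc * (|u y| * (1 + ‖y‖)⁻¹ ^ (n + 2)) ∂ν := by
    refine norm_integral_le_of_norm_le (w1.const_mul Kc).integrableOn ?_
    refine (ae_restrict_iff' hmeas).mpr (ae_of_all _ fun y hy => ?_)
    rw [mem_compl_iff, mem_closedBall_zero_iff, not_le] at hy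
    rw [← mul_sub, Real.norm_eq_abs, abs_mul]
    calc |u y| * |Lam n ε' ν ψ y - Lam n ε ν ψ y| ≤ |u y| * (Kc * (1 + ‖y‖)⁻¹ ^ (n + 2)) :=
          mul_le_mul_of_nonneg_left (hpt y hy) (abs_nonneg _)
      _ = Kc * (|u y| * (1 + ‖y‖)⁻¹ ^ (n + 2)) := by ring
  rw [Real.norm_eq_abs, integral_const_mul] at h3
  have h4 : ∫ y in (closedBall 0 ρ')ᶜ, |u y| * (1 + ‖y‖)⁻¹ ^ (n + 2) ∂ν ≤
      A * Real.sqrt (M * C) := by
    have h5 := w2 1 le_rfl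
    rw [Real.sqrt_one, inv_one, mul_one] at h5
    refine le_trans ?_ h5
    refine setIntegral_mono_set w1.integrableOn (ae_of_all _ fun y => by positivity)
      (Eventually.of_forall fun y hy => ?_)
    have hy' : y ∈ (closedBall (0 : X d) ρ')ᶜ := hy
    rw [mem_compl_iff, mem_closedBall_zero_iff, not_le] at hy'
    show 1 ≤ ‖y‖
    linarith
  refine h3.trans ((mul_le_mul_of_nonneg_left h4 hKc0).trans (le_of_eq ?_))
  rw [hKc]; ring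

theorem eps_diff (n : ℕ) (hn : 1 ≤ n) (hd : 0 < d) (C L ρ M E : ℝ) (hC : 0 ≤ C) (hL : 0 ≤ L)
    (hρ : 0 < ρ) (hM : 0 ≤ M) (hE : 0 ≤ E) : ∃ B : ℝ, 0 < B ∧ ∀ ν : Measure (X d), Gr n C ν →
      ∀ ψ : X d → ℝ, Tst L ρ ψ → ∫ x, ψ x ∂ν = 0 → ∀ u : X d → ℝ, Continuous u →
        (∀ r, 1 ≤ r → ∫ y in closedBall 0 r, u y ^ 2 ∂ν ≤ M * r ^ (n + 3)) →
        (∀ ε : ℝ, 0 < ε → ∫ y in closedBall 0 (2 * ρ + 1), ∫ x in closedBall 0 (2 * ρ + 1),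
          (u y - u x) ^ 2 * kr n ε (x - y) ∂ν ∂ν ≤ E) →
        ∀ ε ε' : ℝ, 0 < ε' → ε' ≤ ε → ε ≤ 1 →
          |(∫ y, u y * Lam n ε' ν ψ y ∂ν) - ∫ y, u y * Lam n ε ν ψ y ∂ν| ≤ B * Real.sqrt ε := by
  obtain ⟨A₁, hA₁, h1⟩ := V5_T1 (d := d) n hn
  obtain ⟨A₂, hA₂, h2⟩ := V5_T2 (d := d) n hn hd
  obtain ⟨A₃, hA₃, h3⟩ := V5_T3 (d := d) n hn hd
  set ρ' : ℝ := 2 * ρ + 1 with hρ'
  have hρ'1 : 1 ≤ ρ' := by rw [hρ']; linarith
  have hρ'0 : 0 < ρ' := by linarith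
  set c1 : ℝ := 1 / 2 * (E + L ^ 2 * (A₁ * C * (C * ρ' ^ n))) with hc1
  set c2 : ℝ := (L * ρ * ((n + 1) * (A₂ * C))) * (1 / 2 * (C * ρ' ^ n + M * ρ' ^ (n + 3)))
    with hc2
  set c3 : ℝ := (L * ρ * ((n + 1) * 4 ^ (n + 3)) * (C * ρ ^ n)) * (A₃ * Real.sqrt (M * C))
    with hc3
  have hc10 : 0 ≤ c1 := by rw [hc1]; positivity
  have hc20 : 0 ≤ c2 := by rw [hc2]; positivity
  have hc30 : 0 ≤ c3 := by rw [hc3]; positivity
  refine ⟨c1 + c2 + c3 + 1, by linarith, ?_⟩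
  intro ν hg ψ hψ h0 u hu huM hEu ε ε' hε' hle hε1
  have hε : 0 < ε := hε'.trans_le hle
  have s1 := sum_parts hn hd hC hg hε hL hρ (by rw [hρ']; linarith : 2 * ρ ≤ ρ') hψ h0 hu hM huM
  have s2 := sum_parts hn hd hC hg hε' hL hρ (by rw [hρ']; linarith : 2 * ρ ≤ ρ') hψ h0 hu hM huM
  have b1 := h1 C hC ν hg L ρ ψ hψ u hu ρ' hρ'0 E hEu ε ε' hε' hle
  have b2 := h2 C hC ν hg L ρ hL hρ ψ hψ u hu ρ' le_rfl (M * ρ' ^ (n + 3)) (huM ρ' hρ'1) ε ε'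
    hε' hle
  have b3 := h3 C hC ν hg L ρ hL hρ ψ hψ h0 u hu ρ' le_rfl M hM huM ε ε' hε' hle
  rw [← hc1] at b1
  rw [← hc2] at b2
  rw [← hc3] at b3
  have hsq : ε ^ 2 ≤ Real.sqrt ε := by
    have hs0 := Real.sqrt_nonneg ε
    have hss := Real.mul_self_sqrt hε.le
    have hs1 : Real.sqrt ε ≤ 1 := by
      rw [← Real.sqrt_one]; exact Real.sqrt_le_sqrt hε1
    have h4 : ε ≤ Real.sqrt ε := by nlinarith
    nlinarith
  have b2' : c2 * ε ^ 2 ≤ c2 * Real.sqrt ε := mul_le_mul_of_nonneg_left hsq hc20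
  have b3' : c3 * ε ^ 2 ≤ c3 * Real.sqrt ε := mul_le_mul_of_nonneg_left hsq hc30
  have hs0 := Real.sqrt_nonneg ε
  rw [s1, s2]
  rw [abs_le] at b1 b2 b3 ⊢
  constructor <;> nlinarith [b1.1, b1.2, b2.1, b2.2, b3.1, b3.2, mul_nonneg hc10 hs0]

end Pool.Agent.RZ
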