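import Pool.Agent.RZ.V4
import Pool.Agent.RZ.V5
import Pool.Agent.RZ.V2

/-!
V6: passage to the limit in the equation.
c_i = int psi dnu_i / int theta dnu_i -> 0 (vague convergence), psi_i = psi - c_i theta has mean value 0 for nu_i (for i such that int theta dnu_i > 0) and
Tst constants bounded (|c_i| <= 1). By AEq and eps_diff (let eps' -> 0): |int u_i Lam eps nu_i psi_i dnu_i| <= B sqrt eps + eta/2 for hyperfilter-many i. Then lam_bound (uniform B),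
lam_conv and convL.
-/

set_option autoImplicit false

open MeasureTheory Filter Topology Metric Set
open scoped RealInnerProductSpace ENNReal

namespace Pool.Agent.RZ

variable {d : ℕ}

/-- asymptotic validity of the equation along the sequence -/
def AEq (n : ℕ) (ν : ℕ → Measure (X d)) (u : ℕ → X d → ℝ) : Prop :=
  ∀ L ρ δ : ℝ, 0 < δ → ∀ᶠ i in (hyperfilter ℕ : Filter ℕ), ∀ ψ : X d → ℝ, Tst L ρ ψ →
    ∫ x, ψ x ∂(ν i) = 0 → ∀ᶠ ε in 𝓝[>] (0 : ℝ), |∫ y, u i y * Lam n ε (ν i) ψ y ∂(ν i)| ≤ δ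

theorem AEq.of_EqL {n : ℕ} {ν : ℕ → Measure (X d)} {u : ℕ → X d → ℝ}
    (h : ∀ i, EqL n (ν i) (u i)) : AEq n ν u := by
  intro L ρ δ hδ
  refine Filter.Eventually.of_forall ?_
  intro i ψ hψ h0
  have h1 := h i L ρ ψ hψ h0
  have h2 := h1.eventually (Metric.closedBall_mem_nhds (0 : ℝ) hδ)
  filter_upwards [h2] with ε hε
  rw [dist_zero_right, Real.norm_eq_abs] at hε
  exact hε

theorem lin_limit {n : ℕ} (hn : 1 ≤ n) (hd : 0 < d) {C : ℝ} (hC : 0 ≤ C)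
    {ν : ℕ → Measure (X d)} {ν' : Measure (X d)} (h : ∀ i, Gr n C (ν i)) (h' : Gr n C ν')
    (hv : VC ν ν') {u : ℕ → X d → ℝ} (hu : ∀ i, Continuous (u i)) {M : ℝ} (hM : 0 ≤ M)
    (huM : ∀ i, ∀ r, 1 ≤ r → ∫ y in closedBall 0 r, u i y ^ 2 ∂(ν i) ≤ M * r ^ (n + 3))
    {E : ℝ → ℝ} (hE : ∀ i, ∀ R, 1 ≤ R → ∀ ε : ℝ, 0 < ε →
      ∫ y in closedBall 0 R, ∫ x in closedBall 0 R,
        (u i y - u i x) ^ 2 * kr n ε (x - y) ∂(ν i) ∂(ν i) ≤ E R)
    (hA : AEq n ν u) (hne : (Supp ν').Nonempty)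
    {L ρ : ℝ} {ψ : X d → ℝ} (hψ : Tst L ρ ψ) (h0 : ∫ x, ψ x ∂ν' = 0) :
    ∃ B : ℝ, ∀ ε : ℝ, 0 < ε → ε ≤ 1 → ∀ η : ℝ, 0 < η → ∀ᶠ i in (hyperfilter ℕ : Filter ℕ),
      |∫ y, u i y * Lam n ε ν' ψ y ∂(ν i)| ≤ B * Real.sqrt ε + η := by
  classical
  obtain ⟨z, hz⟩ := hne
  have lf : ∀ i, IsLocallyFiniteMeasure (ν i) := fun i => (h i).isLocallyFinite
  have lf' : IsLocallyFiniteMeasure ν' := h'.isLocallyFinite
  set R0 : ℝ := ‖z‖ + 1 with hR0
  have hR0pos : 0 < R0 := by positivity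
  have hθ0 : Tst R0⁻¹ (2 * R0) (cut R0 : X d → ℝ) := cut_tst hR0pos
  set ρ1 : ℝ := max (max ρ 1) (2 * R0) with hρ1
  have hρ1one : 1 ≤ ρ1 := (le_max_right ρ 1).trans (le_max_left _ _)
  have hρ1pos : 0 < ρ1 := lt_of_lt_of_le one_pos hρ1one
  have hψ1 : Tst |L| ρ1 ψ :=
    hψ.mono (le_abs_self L) ((le_max_left ρ 1).trans (le_max_left _ _))
  have hθ : Tst R0⁻¹ ρ1 (cut R0 : X d → ℝ) := hθ0.mono le_rfl (le_max_right _ _)
  set L1 : ℝ := |L| + R0⁻¹ with hL1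
  have hR0inv : 0 < R0⁻¹ := inv_pos.2 hR0pos
  have hL1nn : 0 ≤ L1 := by positivity
  have hpos : 0 < ∫ x, cut R0 x ∂ν' := by
    have i1 : Integrable (cut R0 : X d → ℝ) ν' :=
      (cut_continuous hR0pos).integrable_of_hasCompactSupport (cut_hasCompactSupport hR0pos)
    refine (integral_pos_iff_support_of_nonneg (cut_nonneg R0) i1).2
      (lt_of_lt_of_le (hz 1 one_pos) (measure_mono ?_))
    intro x hx
    rw [mem_ball, dist_eq_norm] at hx
    have h1 : ‖x‖ ≤ R0 := by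
      calc ‖x‖ = ‖(x - z) + z‖ := by rw [sub_add_cancel]
        _ ≤ ‖x - z‖ + ‖z‖ := norm_add_le _ _
        _ ≤ R0 := by rw [hR0]; linarith
    rw [Function.mem_support, cut_eq_one hR0pos h1]
    exact one_ne_zero
  set c : ℕ → ℝ := fun i => (∫ x, ψ x ∂(ν i)) / ∫ x, cut R0 x ∂(ν i) with hcdef
  have hψlim : Tendsto (fun i => ∫ x, ψ x ∂(ν i)) (hyperfilter ℕ) (𝓝 0) := by
    have := hv ψ hψ.continuous hψ.hasCompactSupport
    rwa [h0] at this
  have hθlim : Tendsto (fun i => ∫ x, cut R0 x ∂(ν i)) (hyperfilter ℕ)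
      (𝓝 (∫ x, cut R0 x ∂ν')) :=
    hv _ (cut_continuous hR0pos) (cut_hasCompactSupport hR0pos)
  have hc : Tendsto c (hyperfilter ℕ) (𝓝 0) := by
    have h1 := hψlim.div hθlim hpos.ne'
    rw [zero_div] at h1
    exact h1
  let good : ℕ → Prop := fun i => |c i| ≤ 1 ∧ 0 < ∫ x, cut R0 x ∂(ν i)
  have hgood : ∀ᶠ i in (hyperfilter ℕ : Filter ℕ), good i := by
    have h1 := hc.eventually (Metric.closedBall_mem_nhds (0 : ℝ) one_pos)
    have h2 := hθlim.eventually (eventually_gt_nhds hpos)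
    filter_upwards [h1, h2] with i hi1 hi2
    rw [dist_zero_right, Real.norm_eq_abs] at hi1
    exact ⟨hi1, hi2⟩
  have hTst' : ∀ i, Tst (|L| + |c i| * R0⁻¹) ρ1 (fun x => ψ x - c i * cut R0 x) := by
    intro i
    have h1 := hψ1.add (hθ.const_mul (-c i))
    rw [abs_neg] at h1
    have h2 : (fun x => ψ x + -c i * cut R0 x) = fun x => ψ x - c i * cut R0 x := by
      funext x
      ring
    rw [h2] at h1
    exact h1
  have hTst : ∀ i, good i → Tst L1 ρ1 (fun x => ψ x - c i * cut R0 x) := by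
    intro i hi
    refine (hTst' i).mono ?_ le_rfl
    rw [hL1]
    have h1 : |c i| * R0⁻¹ ≤ 1 * R0⁻¹ := mul_le_mul_of_nonneg_right hi.1 hR0inv.le
    linarith
  have hmean : ∀ i, good i → ∫ x, (ψ x - c i * cut R0 x) ∂(ν i) = 0 := by
    intro i hi
    have i1 : Integrable ψ (ν i) :=
      hψ.continuous.integrable_of_hasCompactSupport hψ.hasCompactSupport
    have i2 : Integrable (cut R0 : X d → ℝ) (ν i) :=
      (cut_continuous hR0pos).integrable_of_hasCompactSupport (cut_hasCompactSupport hR0pos)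
    rw [integral_sub i1 (i2.const_mul _), integral_const_mul]
    have h1 : c i * ∫ x, cut R0 x ∂(ν i) = ∫ x, ψ x ∂(ν i) := by
      rw [hcdef]
      exact div_mul_cancel₀ _ hi.2.ne'
    rw [h1, sub_self]
  have hψL1 : Tst L1 ρ1 ψ := hψ1.mono (by rw [hL1]; linarith) le_rfl
  obtain ⟨B, hBpos, hB⟩ := eps_diff (d := d) n hn hd C L1 ρ1 M |E (2 * ρ1 + 1)| hC hL1nn hρ1pos hM
    (abs_nonneg _)
  refine ⟨B, fun ε hε hε1 η hη => ?_⟩
  have hA' := hA L1 ρ1 (η / 2) (half_pos hη)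
  obtain ⟨B2, hB2pos, hB2⟩ := lam_bound (d := d) n hn hd C L1 ρ1 ε hC hL1nn hρ1pos hε
  let F : ℕ → X d → ℝ := fun i =>
    if good i then Lam n ε (ν i) (fun x => ψ x - c i * cut R0 x) else Lam n ε ν' ψ
  have hFg : ∀ i, good i → F i = Lam n ε (ν i) (fun x => ψ x - c i * cut R0 x) := by
    intro i hi
    simp only [F, if_pos hi]
  have hFb : ∀ i, ¬ good i → F i = Lam n ε ν' ψ := by
    intro i hi
    simp only [F, if_neg hi]
  have hF'c : Continuous (Lam n ε ν' ψ) := lam_continuous hn hC h' hε hψ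
  have hFc : ∀ i, Continuous (F i) := by
    intro i
    by_cases hi : good i
    · rw [hFg i hi]
      exact lam_continuous hn hC (h i) hε (hTst' i)
    · rw [hFb i hi]
      exact hF'c
  have hF'B : ∀ y, |Lam n ε ν' ψ y| ≤ B2 * (1 + ‖y‖)⁻¹ ^ (n + 2) :=
    fun y => hB2 ν' h' ψ hψL1 h0 y
  have hFB : ∀ i y, |F i y| ≤ B2 * (1 + ‖y‖)⁻¹ ^ (n + 2) := by
    intro i y
    by_cases hi : good i
    · rw [hFg i hi]
      exact hB2 (ν i) (h i) _ (hTst i hi) (hmean i hi) y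
    · rw [hFb i hi]
      exact hF'B y
  have hlim : ∀ R δ : ℝ, 0 < δ → ∀ᶠ i in (hyperfilter ℕ : Filter ℕ),
      ∀ y ∈ closedBall (0 : X d) R, |F i y - Lam n ε ν' ψ y| ≤ δ := by
    intro R δ hδ
    have h1 := lam_conv hn hC h h' hv hε hψ1 hθ hc R δ hδ
    filter_upwards [h1] with i hi y hy
    by_cases hg : good i
    · rw [hFg i hg]
      exact hi y hy
    · rw [hFb i hg, sub_self, abs_zero]
      exact hδ.le
  have hconv := convL hn hC h hu hM huM hFc hF'c hFB hF'B hlim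
  have hconv' := hconv.eventually (Metric.closedBall_mem_nhds (0 : ℝ) (half_pos hη))
  filter_upwards [hgood, hA', hconv'] with i hi hAi hci
  rw [dist_zero_right, Real.norm_eq_abs] at hci
  -- the bound for the corrected function
  have hmain : |∫ y, u i y * F i y ∂(ν i)| ≤ B * Real.sqrt ε + η / 2 := by
    rw [hFg i hi]
    have h1 := hAi _ (hTst i hi) (hmean i hi)
    have h2 : ∀ᶠ ε' in 𝓝[>] (0 : ℝ), ε' ∈ Ioc (0 : ℝ) ε := Ioc_mem_nhdsGT hε
    obtain ⟨ε', hε'1, hε'2⟩ := (h1.and h2).exists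
    have hE' : ∀ ε : ℝ, 0 < ε →
        ∫ y in closedBall 0 (2 * ρ1 + 1), ∫ x in closedBall 0 (2 * ρ1 + 1),
          (u i y - u i x) ^ 2 * kr n ε (x - y) ∂(ν i) ∂(ν i) ≤ |E (2 * ρ1 + 1)| :=
      fun ε hε => (hE i (2 * ρ1 + 1) (by linarith) ε hε).trans (le_abs_self _)
    have h3 := hB (ν i) (h i) _ (hTst i hi) (hmean i hi) (u i) (hu i) (huM i) hE' ε ε' hε'2.1
      hε'2.2 hε1
    rw [abs_le] at h3 hε'1 ⊢
    constructor <;> linarith
  rw [abs_le] at hci hmain ⊢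
  constructor <;> linarith

end Pool.Agent.RZ
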