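import Pool.Agent.RZ.V4
import Pool.Agent.RZ.V5
import Pool.Agent.RZ.V2
import Pool.Agent.RZ.V6a

/-!
V6: passage to the limit in the equation.
c_i = int psi dnu_i / int theta dnu_i -> 0 (vague convergence), psi_i = psi - c_i theta has mean value 0 for nu_i (for i such that int theta dnu_i > 0) and
Tst constants bounded (|c_i| <= 1). By AEq and eps_diff (let eps' -> 0): |int u_i Lam eps nu_i psi_i dnu_i| <= B sqrt eps + eta/2 for hyperfilter-many i. Then lam_bound (uniform B),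
lam_conv and convL.
-/

set_option autoImplicit false

open MeasureTheory Filter Topology Metric Set
open scoped RealInnerProductSpace ENNReal

namespace Pool.Agent.RZ

variable {d : ℕ}

private theorem V6b_inner_sq (e z : X d) : ⟪e, z⟫ ^ 2 ≤ ‖e‖ ^ 2 * ‖z‖ ^ 2 := by
  rw [← mul_pow, ← sq_abs]
  have h := abs_real_inner_le_norm e z
  exact pow_le_pow_left₀ (abs_nonneg _) h 2

/-- the energy of linear functions -/
theorem energy_linear (n : ℕ) (hn : 1 ≤ n) {C : ℝ} (hC : 0 ≤ C) (e : X d) (R : ℝ) (hR : 1 ≤ R) :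
    ∃ E : ℝ, ∀ ν : Measure (X d), Gr n C ν → ∀ ε : ℝ, 0 < ε →
      ∫ y in closedBall 0 R, ∫ x in closedBall 0 R,
        (⟪e, y⟫ - ⟪e, x⟫) ^ 2 * kr n ε (x - y) ∂ν ∂ν ≤ E := by
  obtain ⟨A, hA, hnear⟩ := Gr.near (d := d) n hn
  refine ⟨‖e‖ ^ 2 * (A * C * (2 * R)) * (C * R ^ n), fun ν hν ε hε => ?_⟩
  have hR0 : 0 < R := by linarith
  have := hν.isLocallyFinite
  have hK0 : 0 ≤ ‖e‖ ^ 2 * (A * C * (2 * R)) := by positivity
  -- the inner integral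
  have hin : ∀ y ∈ closedBall (0 : X d) R, ‖∫ x in closedBall 0 R,
      (⟪e, y⟫ - ⟪e, x⟫) ^ 2 * kr n ε (x - y) ∂ν‖ ≤ ‖e‖ ^ 2 * (A * C * (2 * R)) := by
    intro y hy
    have hnn : ∀ x : X d, 0 ≤ (⟪e, y⟫ - ⟪e, x⟫) ^ 2 * kr n ε (x - y) := fun x =>
      mul_nonneg (sq_nonneg _) (kr_nonneg n ε _)
    have hkc : Continuous fun x : X d => kr n ε (x - y) :=
      (kr_continuous n hε).comp (continuous_id.sub continuous_const)
    have hc1 : Continuous fun x : X d => (⟪e, y⟫ - ⟪e, x⟫) ^ 2 * kr n ε (x - y) :=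
      ((continuous_const.sub (continuous_const.inner continuous_id)).pow 2).mul hkc
    have hc2 : Continuous fun x : X d => ‖e‖ ^ 2 * (‖x - y‖ ^ 2 * kr n ε (x - y)) :=
      continuous_const.mul (((continuous_id.sub continuous_const).norm.pow 2).mul hkc)
    rw [Real.norm_of_nonneg (integral_nonneg hnn)]
    calc ∫ x in closedBall 0 R, (⟪e, y⟫ - ⟪e, x⟫) ^ 2 * kr n ε (x - y) ∂ν
        ≤ ∫ x in closedBall y (2 * R), (⟪e, y⟫ - ⟪e, x⟫) ^ 2 * kr n ε (x - y) ∂ν := by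
          refine setIntegral_mono_set
            (hc1.continuousOn.integrableOn_compact (isCompact_closedBall _ _))
            (Filter.Eventually.of_forall hnn) (HasSubset.Subset.eventuallyLE ?_)
          intro x hx
          rw [mem_closedBall, dist_eq_norm] at hx hy ⊢
          rw [sub_zero] at hx hy
          have := norm_sub_le x y
          linarith
      _ ≤ ∫ x in closedBall y (2 * R), ‖e‖ ^ 2 * (‖x - y‖ ^ 2 * kr n ε (x - y)) ∂ν := by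
          refine setIntegral_mono
            (hc1.continuousOn.integrableOn_compact (isCompact_closedBall _ _))
            (hc2.continuousOn.integrableOn_compact (isCompact_closedBall _ _)) fun x => ?_
          have h1 : ⟪e, y⟫ - ⟪e, x⟫ = -⟪e, x - y⟫ := by
            rw [inner_sub_right]
            ring
          have h2 : (⟪e, y⟫ - ⟪e, x⟫) ^ 2 ≤ ‖e‖ ^ 2 * ‖x - y‖ ^ 2 := by
            rw [h1, neg_sq]
            exact V6b_inner_sq e (x - y)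
          have h3 := mul_le_mul_of_nonneg_right h2 (kr_nonneg n ε (x - y))
          calc (⟪e, y⟫ - ⟪e, x⟫) ^ 2 * kr n ε (x - y)
              ≤ ‖e‖ ^ 2 * ‖x - y‖ ^ 2 * kr n ε (x - y) := h3
            _ = ‖e‖ ^ 2 * (‖x - y‖ ^ 2 * kr n ε (x - y)) := by ring
      _ = ‖e‖ ^ 2 * ∫ x in closedBall y (2 * R), ‖x - y‖ ^ 2 * kr n ε (x - y) ∂ν :=
          integral_const_mul _ _
      _ ≤ ‖e‖ ^ 2 * (A * C * (2 * R)) :=
          mul_le_mul_of_nonneg_left (hnear C hC ν hν y (2 * R) ε (by linarith) hε)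
            (by positivity)
  have h1 := norm_setIntegral_le_of_norm_le_const (hν.finite (0 : X d) R) hin
  calc ∫ y in closedBall 0 R, ∫ x in closedBall 0 R,
        (⟪e, y⟫ - ⟪e, x⟫) ^ 2 * kr n ε (x - y) ∂ν ∂ν
      ≤ ‖∫ y in closedBall 0 R, ∫ x in closedBall 0 R,
        (⟪e, y⟫ - ⟪e, x⟫) ^ 2 * kr n ε (x - y) ∂ν ∂ν‖ := Real.le_norm_self _
    _ ≤ ‖e‖ ^ 2 * (A * C * (2 * R)) * ν.real (closedBall 0 R) := h1
    _ ≤ ‖e‖ ^ 2 * (A * C * (2 * R)) * (C * R ^ n) :=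
        mul_le_mul_of_nonneg_left (hν.real_le hC 0 hR0) hK0

/-- the mean square of linear functions -/
private theorem V6b_mean {n : ℕ} {C : ℝ} (hC : 0 ≤ C) (e : X d) {ν : Measure (X d)}
    (hν : Gr n C ν) {r : ℝ} (hr : 1 ≤ r) :
    ∫ y in closedBall 0 r, ⟪e, y⟫ ^ 2 ∂ν ≤ (‖e‖ ^ 2 * C) * r ^ (n + 3) := by
  have hr0 : 0 < r := by linarith
  have hin : ∀ y ∈ closedBall (0 : X d) r, ‖⟪e, y⟫ ^ 2‖ ≤ ‖e‖ ^ 2 * r ^ 2 := by
    intro y hy
    rw [mem_closedBall, dist_eq_norm, sub_zero] at hy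
    rw [Real.norm_of_nonneg (sq_nonneg _)]
    refine (V6b_inner_sq e y).trans ?_
    exact mul_le_mul_of_nonneg_left (pow_le_pow_left₀ (norm_nonneg _) hy 2) (by positivity)
  have h1 := norm_setIntegral_le_of_norm_le_const (hν.finite (0 : X d) r) hin
  have h2 : r ^ 2 * r ^ n ≤ r ^ (n + 3) := by
    rw [← pow_add]
    exact pow_le_pow_right₀ hr (by omega)
  calc ∫ y in closedBall 0 r, ⟪e, y⟫ ^ 2 ∂ν
      ≤ ‖∫ y in closedBall 0 r, ⟪e, y⟫ ^ 2 ∂ν‖ := Real.le_norm_self _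
    _ ≤ ‖e‖ ^ 2 * r ^ 2 * ν.real (closedBall 0 r) := h1
    _ ≤ ‖e‖ ^ 2 * r ^ 2 * (C * r ^ n) :=
        mul_le_mul_of_nonneg_left (hν.real_le hC 0 hr0) (by positivity)
    _ = (‖e‖ ^ 2 * C) * (r ^ 2 * r ^ n) := by ring
    _ ≤ (‖e‖ ^ 2 * C) * r ^ (n + 3) := mul_le_mul_of_nonneg_left h2 (by positivity)

theorem refl_limit {n : ℕ} (hn : 1 ≤ n) (hd : 0 < d) {C : ℝ} (hC : 0 ≤ C)
    {ν : ℕ → Measure (X d)} {ν' : Measure (X d)} (h : ∀ i, Gr n C (ν i)) (h' : Gr n C ν')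
    (hv : VC ν ν') (hA : ∀ e : X d, AEq n ν fun _ y => ⟪e, y⟫) (hne : (Supp ν').Nonempty) :
    Refl n ν' := by
  classical
  intro e L₀ ρ₀ ψ hψ₀ h0
  -- enlarge the constants of the test function
  have hψ : Tst |L₀| (|ρ₀| + 1) ψ :=
    hψ₀.mono (le_abs_self _) ((le_abs_self _).trans (by linarith))
  have hρ : 0 < |ρ₀| + 1 := by positivity
  have hex : ∀ R : ℝ, ∃ E : ℝ, 1 ≤ R → ∀ ν : Measure (X d), Gr n C ν → ∀ ε : ℝ, 0 < ε →
      ∫ y in closedBall 0 R, ∫ x in closedBall 0 R,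
        (⟪e, y⟫ - ⟪e, x⟫) ^ 2 * kr n ε (x - y) ∂ν ∂ν ≤ E := by
    intro R
    by_cases hR : 1 ≤ R
    · obtain ⟨E, hE⟩ := energy_linear n hn hC e R hR
      exact ⟨E, fun _ => hE⟩
    · exact ⟨0, fun h => absurd h hR⟩
  choose E hE using hex
  have huc : Continuous fun y : X d => ⟪e, y⟫ := continuous_const.inner continuous_id
  obtain ⟨B, hB⟩ := lin_limit (d := d) hn hd hC h h' hv (u := fun _ y => ⟪e, y⟫) (fun _ => huc)
    (M := ‖e‖ ^ 2 * C) (by positivity) (fun i r hr => V6b_mean hC e (h i) hr) (E := E)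
    (fun i R hR ε hε => hE R hR (ν i) (h i) ε hε) (hA e) hne hψ h0
  -- the bound for the limit
  have hkey : ∀ ε : ℝ, 0 < ε → ε ≤ 1 →
      |∫ y, ⟪e, y⟫ * Lam n ε ν' ψ y ∂ν'| ≤ B * Real.sqrt ε := by
    intro ε hε hε1
    obtain ⟨K, hK, hKb⟩ := lam_bound n hn hd C |L₀| (|ρ₀| + 1) ε hC (abs_nonneg _) hρ hε
    have hFc : Continuous fun y : X d => ⟪e, y⟫ * Lam n ε ν' ψ y :=
      huc.mul (lam_continuous hn hC h' hε hψ)
    have hFb : ∀ y : X d, |⟪e, y⟫ * Lam n ε ν' ψ y| ≤ (‖e‖ * K) * (1 + ‖y‖)⁻¹ ^ (n + 1) := by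
      intro y
      have h1 := hKb ν' h' ψ hψ h0 y
      have h2 : |⟪e, y⟫| ≤ ‖e‖ * ‖y‖ := abs_real_inner_le_norm e y
      have h3 : 0 < 1 + ‖y‖ := by positivity
      have h4 : ‖y‖ * (1 + ‖y‖)⁻¹ ≤ 1 := by
        rw [← div_eq_mul_inv, div_le_one h3]
        linarith
      have h5 : 0 ≤ (1 + ‖y‖)⁻¹ ^ (n + 1) := by positivity
      calc |⟪e, y⟫ * Lam n ε ν' ψ y| = |⟪e, y⟫| * |Lam n ε ν' ψ y| := abs_mul _ _
        _ ≤ (‖e‖ * ‖y‖) * (K * (1 + ‖y‖)⁻¹ ^ (n + 2)) :=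
            mul_le_mul h2 h1 (abs_nonneg _) (by positivity)
        _ = (‖e‖ * K) * ((‖y‖ * (1 + ‖y‖)⁻¹) * (1 + ‖y‖)⁻¹ ^ (n + 1)) := by
            rw [pow_succ (1 + ‖y‖)⁻¹ (n + 1)]
            ring
        _ ≤ (‖e‖ * K) * (1 * (1 + ‖y‖)⁻¹ ^ (n + 1)) := by
            refine mul_le_mul_of_nonneg_left ?_ (by positivity)
            exact mul_le_mul_of_nonneg_right h4 h5
        _ = (‖e‖ * K) * (1 + ‖y‖)⁻¹ ^ (n + 1) := by rw [one_mul]
    have hlim := (VC.decay hn hC h h' hv hFc hFb).abs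
    refine le_of_forall_pos_le_add fun η hη => ?_
    exact le_of_tendsto hlim (hB ε hε hε1 η hη)
  have hsq : Tendsto (fun ε : ℝ => B * Real.sqrt ε) (𝓝[>] 0) (𝓝 0) := by
    have h1 : Tendsto (fun ε : ℝ => B * Real.sqrt ε) (𝓝 0) (𝓝 (B * Real.sqrt 0)) :=
      (continuous_const.mul Real.continuous_sqrt).tendsto 0
    rw [Real.sqrt_zero, mul_zero] at h1
    exact h1.mono_left nhdsWithin_le_nhds
  refine squeeze_zero_norm' ?_ hsq
  have h1 : ∀ᶠ ε : ℝ in 𝓝[>] 0, ε ≤ 1 := by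
    have : ∀ᶠ ε : ℝ in 𝓝 0, ε < 1 := Iio_mem_nhds (by norm_num)
    exact (this.filter_mono nhdsWithin_le_nhds).mono fun ε h => h.le
  filter_upwards [h1, self_mem_nhdsWithin] with ε h2 h3
  rw [Real.norm_eq_abs]
  exact hkey ε h3 h2

end Pool.Agent.RZ
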