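import Pool.Agent.RZ.D1
import Pool.Agent.RZ.D3
import Pool.Agent.RZ.V1
import Pool.Agent.RZ.V6
import Pool.Agent.RZ.Q1

/-!
D4: touching and dimension reduction.
reg_limit: VC.lo_seq, VC.zero_mem, VC.l2, refl_limit with AEq.of_EqL.
step: p in W not in Supp nu, z a nearest point of the closed set Supp nu (contains 0), e = (p - z)/|p - z| in W, |y - p| >= |p - z| for y in Supp nu gives
<e, y - z> <= |y-z|^2/(2|p-z|). Let nu_z = blow n z 1 nu (translation), blow-ups at 0 of nu_z (dyadic), exists_VC, reg_limit, blow_perp;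
Supp nu' in W: W closed, Supp of the blow-ups in W. W' = W inf (R e)^perp, finrank W' + 1 = finrank W. NFall passes (nf_limit; z' in Supp nu' is a
limit of points of the supports).
supp_eq: otherwise step gives nu' in Reg with support in an (n-1)-dimensional W'; orthonormal basis v : Fin (n-1) -> X d, q 0 v = 0 on Supp, contradiction to nondeg.
no_NFall: induction on finrank W from d down: W of dimension m > n is not the support (no_full), step. m = n: supp in W gives int cut q = 0 < delta^2.
-/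

set_option autoImplicit false

open MeasureTheory Filter Topology Metric Set
open scoped RealInnerProductSpace ENNReal

namespace Pool.Agent.RZ

variable {d : ℕ}

theorem reg_limit {n : ℕ} (hn : 1 ≤ n) (hd : 0 < d) {C : ℝ} (hC : 1 ≤ C)
    {ν : ℕ → Measure (X d)} (h : ∀ i, Reg n C (ν i)) (h0 : ∀ i, 0 ∈ Supp (ν i)) :
    ∃ ν' : Measure (X d), VC ν ν' ∧ Reg n C ν' ∧ 0 ∈ Supp ν' := by
  have hC0 : 0 ≤ C := zero_le_one.trans hC
  have hg : ∀ i, Gr n C (ν i) := fun i => (h i).gr
  obtain ⟨ν', hg', hv⟩ := exists_VC hC0 ν hg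
  have hz : 0 ∈ Supp ν' := VC.zero_mem hC hg hg' hv
    (fun r hr => Eventually.of_forall fun i => (h i).lo 0 (h0 i) r hr)
  exact ⟨ν', hv, ⟨hg', VC.lo_seq hC hg hg' hv fun i => (h i).lo,
    VC.l2 hn hC0 hg hg' hv fun i => (h i).l2,
    refl_limit hn hd hC0 hg hg' hv (fun e => AEq.of_EqL fun i => (h i).refl e) ⟨0, hz⟩⟩, hz⟩

end Pool.Agent.RZ
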