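import Pool.Agent.RZ.D1
import Pool.Agent.RZ.D3
import Pool.Agent.RZ.V1
import Pool.Agent.RZ.V6
import Pool.Agent.RZ.Q1
import Pool.Agent.RZ.D4a

/-!
D4: touching and dimension reduction.
reg_limit: VC.lo_seq, VC.zero_mem, VC.l2, refl_limit with AEq.of_EqL.
step: p in W not in Supp nu, z a nearest point of the closed set Supp nu (contains 0), e = (p - z)/|p - z| in W, |y - p| >= |p - z| for y in Supp nu gives
<e, y - z> <= |y-z|^2/(2|p-z|). Let nu_z = blow n z 1 nu (translation), blow-ups at 0 of nu_z (dyadic), exists_VC, reg_limit, blow_perp;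
Supp nu' in W: W closed, Supp of the blow-ups in W. W' = W inf (R e)^perp, finrank W' + 1 = finrank W. NFall passes (nf_limit; z' in Supp nu' is a
limit of points of the supports).
supp_eq: otherwise step gives nu' in Reg with support in an (n-1)-dimensional W'; orthonormal basis v : Fin (n-1) -> X d, q 0 v = 0 on Supp, contradiction to nondeg.
no_NFall: induction on finrank W from d down: W of dimension m > n is not the support (no_full), step. m = n: supp in W gives int cut q = 0 < delta^2.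
-/

set_option autoImplicit false

open MeasureTheory Filter Topology Metric Set
open scoped RealInnerProductSpace ENNReal

namespace Pool.Agent.RZ

variable {d : ℕ}

/-- nowhere flat at dyadic scales -/
def NFall (n : ℕ) (δ : ℝ) (ν : Measure (X d)) : Prop :=
  ∀ z ∈ Supp ν, ∀ j : ℤ, NF n ν z ((2 : ℝ) ^ j) δ

/-- nearest point of the support -/
theorem D4b_nearest (ν : Measure (X d)) (h0 : (Supp ν).Nonempty) (p : X d) :
    ∃ z ∈ Supp ν, ∀ y ∈ Supp ν, ‖z - p‖ ≤ ‖y - p‖ := by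
  obtain ⟨z, hz, he⟩ := (supp_isClosed ν).exists_infDist_eq_dist h0 p
  refine ⟨z, hz, fun y hy => ?_⟩
  have h1 := Metric.infDist_le_dist_of_mem (x := p) hy
  rw [he, dist_comm, dist_eq_norm, dist_comm, dist_eq_norm] at h1
  exact h1

/-- approximation of the points of the support of the limit -/
theorem D4b_approx {n : ℕ} {C : ℝ} {ν : ℕ → Measure (X d)} {ν' : Measure (X d)}
    (h : ∀ i, Gr n C (ν i)) (h' : Gr n C ν') (hv : VC ν ν') (h0 : ∀ i, (Supp (ν i)).Nonempty)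
    {y : X d} (hy : y ∈ Supp ν') :
    ∃ x : ℕ → X d, (∀ i, x i ∈ Supp (ν i)) ∧ Tendsto x (hyperfilter ℕ) (𝓝 y) := by
  choose x hx hmin using fun i => D4b_nearest (ν i) (h0 i) y
  refine ⟨x, hx, ?_⟩
  rw [Metric.tendsto_nhds]
  intro r hr
  have h1 := hy r hr
  filter_upwards [VC.lt_ball h h' hv y r 0 h1] with i hi
  have h2 : ((ball y r) ∩ Supp (ν i)).Nonempty := by
    by_contra hemp
    rw [Set.not_nonempty_iff_eq_empty, Set.eq_empty_iff_forall_notMem] at hemp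
    have h3 : ball y r ⊆ (Supp (ν i))ᶜ := fun w hw hws => hemp w ⟨hw, hws⟩
    have h4 := measure_mono_null h3 (supp_compl_null (ν i))
    rw [h4] at hi
    exact lt_irrefl _ hi
  obtain ⟨w, hw, hws⟩ := h2
  have h3 := hmin i w hws
  rw [mem_ball, dist_eq_norm] at hw
  rw [dist_eq_norm]
  exact lt_of_le_of_lt h3 hw

theorem D4b_pow (i : ℕ) (j : ℤ) : ((2 : ℝ)⁻¹ ^ i) * (2 : ℝ) ^ j = (2 : ℝ) ^ (j - i) := by
  rw [zpow_sub₀ (by norm_num : (2 : ℝ) ≠ 0), zpow_natCast, inv_pow]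
  field_simp

theorem touch_step {n : ℕ} (hn : 1 ≤ n) (hd : 0 < d) {C : ℝ} (hC : 1 ≤ C) {ν : Measure (X d)}
    (h : Reg n C ν) (h0 : 0 ∈ Supp ν) (W : Submodule ℝ (X d)) (hW : Supp ν ⊆ W)
    (hne : ¬ ((W : Set (X d)) ⊆ Supp ν)) :
    ∃ (ν' : Measure (X d)) (W' : Submodule ℝ (X d)), Reg n C ν' ∧ 0 ∈ Supp ν' ∧ Supp ν' ⊆ W' ∧
      W' ≤ W ∧ Module.finrank ℝ W' + 1 = Module.finrank ℝ W ∧
      ∀ δ, NFall n δ ν → NFall n δ ν' := by
  have hC0 : 0 ≤ C := le_trans zero_le_one hC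
  rw [Set.not_subset] at hne
  obtain ⟨p, hpW, hp⟩ := hne
  obtain ⟨z, hz, hmin⟩ := D4b_nearest ν ⟨0, h0⟩ p
  have hzp : z ≠ p := fun he => hp (he ▸ hz)
  have hρ : 0 < ‖z - p‖ := norm_pos_iff.2 (sub_ne_zero.2 hzp)
  have hzW : z ∈ W := hW hz
  have hpW' : p ∈ W := hpW
  set ρ : ℝ := ‖z - p‖ with hρdef
  set e : X d := ρ⁻¹ • (p - z) with he
  have heW : e ∈ W := W.smul_mem _ (W.sub_mem hpW' hzW)
  have hne1 : ‖e‖ = 1 := by
    rw [he, norm_smul, norm_inv, Real.norm_of_nonneg hρ.le, norm_sub_rev, ← hρdef]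
    exact inv_mul_cancel₀ hρ.ne'
  have he0 : e ≠ 0 := by
    intro h1
    rw [h1, norm_zero] at hne1
    exact zero_ne_one hne1
  -- translation
  have hreg1 : Reg n C (blow n z 1 ν) := Reg.blow hn hd hC0 h z one_pos
  have hsupp1 : ∀ w, w ∈ Supp (blow n z 1 ν) ↔ z + w ∈ Supp ν := by
    intro w
    rw [blow_supp n z one_pos ν w, one_smul]
  have h01 : (0 : X d) ∈ Supp (blow n z 1 ν) := by
    rw [hsupp1, add_zero]
    exact hz
  have htouch : ∀ y ∈ Supp (blow n z 1 ν), ⟪e, y⟫ ≤ (2 * ρ)⁻¹ * ‖y‖ ^ 2 := by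
    intro y hy
    rw [hsupp1] at hy
    have h1 := hmin _ hy
    have h2 : ρ ^ 2 ≤ ‖z + y - p‖ ^ 2 := pow_le_pow_left₀ hρ.le h1 2
    have h3 : z + y - p = y - (p - z) := by abel
    have h5 : ‖p - z‖ = ρ := by rw [norm_sub_rev, ← hρdef]
    rw [h3, norm_sub_sq_real y (p - z), h5] at h2
    have h4 : ⟪p - z, y⟫ ≤ ‖y‖ ^ 2 / 2 := by
      rw [real_inner_comm]
      linarith
    rw [he, real_inner_smul_left]
    calc ρ⁻¹ * ⟪p - z, y⟫ ≤ ρ⁻¹ * (‖y‖ ^ 2 / 2) :=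
          mul_le_mul_of_nonneg_left h4 (inv_nonneg.2 hρ.le)
      _ = (2 * ρ)⁻¹ * ‖y‖ ^ 2 := by
          rw [mul_inv]
          ring
  -- blow-ups
  have hsc : ∀ i : ℕ, (0 : ℝ) < (2 : ℝ)⁻¹ ^ i := fun i => by positivity
  have hregi : ∀ i : ℕ, Reg n C (blow n 0 ((2 : ℝ)⁻¹ ^ i) (blow n z 1 ν)) := fun i =>
    Reg.blow hn hd hC0 hreg1 0 (hsc i)
  have hsuppi : ∀ (i : ℕ) (w : X d), w ∈ Supp (blow n 0 ((2 : ℝ)⁻¹ ^ i) (blow n z 1 ν)) ↔
      z + ((2 : ℝ)⁻¹ ^ i) • w ∈ Supp ν := by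
    intro i w
    rw [blow_supp n 0 (hsc i) _ w, hsupp1, zero_add]
  have h0i : ∀ i : ℕ, (0 : X d) ∈ Supp (blow n 0 ((2 : ℝ)⁻¹ ^ i) (blow n z 1 ν)) := by
    intro i
    rw [hsuppi, smul_zero, add_zero]
    exact hz
  obtain ⟨ν', hv, hreg', h0'⟩ := reg_limit hn hd hC hregi h0i
  have hperp := blow_perp hn hd hC hreg1 h01 e hne1.le (inv_nonneg.2 (by positivity)) htouch
    hreg'.gr hv
  have happ : ∀ y ∈ Supp ν', ∃ x : ℕ → X d,
      (∀ i, x i ∈ Supp (blow n 0 ((2 : ℝ)⁻¹ ^ i) (blow n z 1 ν))) ∧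
        Tendsto x (hyperfilter ℕ) (𝓝 y) := fun y hy =>
    D4b_approx (fun i => (hregi i).gr) hreg'.gr hv (fun i => ⟨0, h0i i⟩) hy
  have hW' : ∀ y ∈ Supp ν', y ∈ W := by
    intro y hy
    obtain ⟨x, hx, hxy⟩ := happ y hy
    have hcl : IsClosed (W : Set (X d)) := W.closed_of_finiteDimensional
    refine hcl.mem_of_tendsto hxy (Eventually.of_forall fun i => ?_)
    have h1 := (hsuppi i (x i)).1 (hx i)
    have h2 : z + ((2 : ℝ)⁻¹ ^ i) • x i ∈ W := hW h1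
    have h3 : ((2 : ℝ)⁻¹ ^ i) • x i ∈ W := by
      have h4 := W.sub_mem h2 hzW
      rwa [add_sub_cancel_left] at h4
    exact (W.smul_mem_iff (hsc i).ne').1 h3
  refine ⟨ν', (ℝ ∙ e)ᗮ ⊓ W, hreg', h0', ?_, inf_le_right, ?_, ?_⟩
  · intro y hy
    refine ⟨?_, hW' y hy⟩
    rw [SetLike.mem_coe, Submodule.mem_orthogonal_singleton_iff_inner_right]
    exact hperp y hy
  · have h1 := Submodule.finrank_add_inf_finrank_orthogonal (𝕜 := ℝ) (K₁ := ℝ ∙ e) (K₂ := W)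
      ((Submodule.span_singleton_le_iff_mem e W).2 heW)
    rw [finrank_span_singleton he0] at h1
    omega
  · intro δ hδ w hw j
    obtain ⟨x, hx, hxw⟩ := happ w hw
    refine nf_limit hn hC0 (fun i => (hregi i).gr) hreg'.gr hv hxw (by positivity)
      (Eventually.of_forall fun i => ?_)
    rw [NF.blow_iff n 0 (hsc i) _ _ (by positivity), D4b_pow,
      NF.blow_iff n z one_pos ν _ (by positivity), one_mul, one_smul, zero_add]
    exact hδ _ ((hsuppi i (x i)).1 (hx i)) (j - i)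

end Pool.Agent.RZ
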