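import Pool.Agent.RZ.D1
import Pool.Agent.RZ.D3
import Pool.Agent.RZ.V1
import Pool.Agent.RZ.V6
import Pool.Agent.RZ.Q1
import Pool.Agent.RZ.D4b

/-!
D4: touching and dimension reduction.
reg_limit: VC.lo_seq, VC.zero_mem, VC.l2, refl_limit with AEq.of_EqL.
step: p in W not in Supp nu, z a nearest point of the closed set Supp nu (contains 0), e = (p - z)/|p - z| in W, |y - p| >= |p - z| for y in Supp nu gives
<e, y - z> <= |y-z|^2/(2|p-z|). Let nu_z = blow n z 1 nu (translation), blow-ups at 0 of nu_z (dyadic), exists_VC, reg_limit, blow_perp;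
Supp nu' in W: W closed, Supp of the blow-ups in W. W' = W inf (R e)^perp, finrank W' + 1 = finrank W. NFall passes (nf_limit; z' in Supp nu' is a
limit of points of the supports).
supp_eq: otherwise step gives nu' in Reg with support in an (n-1)-dimensional W'; orthonormal basis v : Fin (n-1) -> X d, q 0 v = 0 on Supp, contradiction to nondeg.
no_NFall: induction on finrank W from d down: W of dimension m > n is not the support (no_full), step. m = n: supp in W gives int cut q = 0 < delta^2.
-/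

set_option autoImplicit false

open MeasureTheory Filter Topology Metric Set
open scoped RealInnerProductSpace ENNReal

namespace Pool.Agent.RZ

variable {d : ℕ}

private theorem D4c_basis {m : ℕ} (W : Submodule ℝ (X d)) (h : Module.finrank ℝ W = m) :
    ∃ v : Fin m → X d, Orthonormal ℝ v ∧ Submodule.span ℝ (Set.range v) = W := by
  subst h
  set b := stdOrthonormalBasis ℝ W
  refine ⟨fun i => (b i : X d), b.orthonormal.comp_linearIsometry W.subtypeₗᵢ, ?_⟩
  have h1 : Set.range (fun i => (b i : X d)) = W.subtype '' Set.range b := by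
    ext z
    simp only [Set.mem_range, Set.mem_image, Submodule.subtype_apply, exists_exists_eq_and]
  have h2 : Submodule.span ℝ (Set.range b) = ⊤ := by
    rw [← b.coe_toBasis]; exact b.toBasis.span_eq
  rw [h1, ← Submodule.map_span, h2, Submodule.map_top, Submodule.range_subtype]

private theorem D4c_q_ae {m : ℕ} {ν : Measure (X d)} {W : Submodule ℝ (X d)} (hW : Supp ν ⊆ W)
    {v : Fin m → X d} (hv : Orthonormal ℝ v) (hs : Submodule.span ℝ (Set.range v) = W) :
    ∀ᵐ y ∂ν, q 0 v y = 0 := by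
  have hsupp : ∀ᵐ x ∂ν, x ∈ Supp ν := mem_ae_iff.mpr (supp_compl_null ν)
  filter_upwards [hsupp] with y hy
  rw [q_eq_zero_iff 0 hv, hs, sub_zero]
  exact hW hy

theorem supp_eq {n : ℕ} (hn : 1 ≤ n) (hd : 0 < d) {C : ℝ} (hC : 1 ≤ C) {ν : Measure (X d)}
    (h : Reg n C ν) (h0 : 0 ∈ Supp ν) (W : Submodule ℝ (X d)) (hW : Supp ν ⊆ W)
    (hdim : Module.finrank ℝ W = n) : Supp ν = W := by
  by_contra hne
  have hne' : ¬ ((W : Set (X d)) ⊆ Supp ν) := fun h' => hne (Set.Subset.antisymm hW h')
  obtain ⟨ν', W', hr, h0', hW', -, hfin, -⟩ := touch_step hn hd hC h h0 W hW hne'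
  have hf : Module.finrank ℝ W' = n - 1 := by omega
  obtain ⟨v, hv, hs⟩ := D4c_basis W' hf
  obtain ⟨c, hc, hnd⟩ := nondeg (d := d) n hn C hC
  have h1 := hnd ν' hr.gr 1 one_pos (hr.lo 0 h0' 1 one_pos) 0 v hv
  have h2 : ∫ y in closedBall (0 : X d) 1, q 0 v y ∂ν' = 0 :=
    integral_eq_zero_of_ae (ae_restrict_of_ae (D4c_q_ae hW' hv hs))
  rw [h2, one_pow, mul_one] at h1
  linarith

theorem no_NFall {n : ℕ} (hn : 1 ≤ n) (hnd : n ≤ d) {C : ℝ} (hC : 1 ≤ C) {ν : Measure (X d)}
    (h : Reg n C ν) (h0 : 0 ∈ Supp ν) {δ : ℝ} (hδ : 0 < δ) : ¬ NFall n δ ν := by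
  have hd : 0 < d := by omega
  have key : ∀ (k : ℕ) (ν : Measure (X d)) (W : Submodule ℝ (X d)), Reg n C ν → 0 ∈ Supp ν →
      NFall n δ ν → Supp ν ⊆ W → Module.finrank ℝ W = n + k → False := by
    intro k
    induction k with
    | zero =>
      intro ν W hr h0 hNF hW hfin
      obtain ⟨v, hv, hs⟩ := D4c_basis W (m := n) (by simpa using hfin)
      have h1 := hNF 0 h0 0 0 v hv
      have h2 : ∫ y, cut ((2 : ℝ) ^ (0 : ℤ)) (y - 0) * q 0 v y ∂ν = 0 := by
        refine integral_eq_zero_of_ae ?_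
        filter_upwards [D4c_q_ae hW hv hs] with y hy
        rw [hy, mul_zero]
        rfl
      rw [h2, zpow_zero, one_pow, mul_one] at h1
      have := sq_pos_of_pos hδ
      linarith
    | succ k ih =>
      intro ν W hr h0 hNF hW hfin
      obtain ⟨v, hv, hs⟩ := D4c_basis W hfin
      have hne : ¬ ((W : Set (X d)) ⊆ Supp ν) := by
        intro hsub
        refine no_full (n := n) (m := n + (k + 1)) (by omega) hC hr.gr hr.lo v hv ?_
        intro y hy
        rw [hs] at hy
        exact hsub hy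
      obtain ⟨ν', W', hr', h0', hW', -, hfin', hN⟩ := touch_step hn hd hC hr h0 W hW hne
      exact ih ν' W' hr' h0' (hN δ hNF) hW' (by omega)
  intro hNF
  refine key (d - n) ν ⊤ h h0 hNF (fun x _ => Submodule.mem_top) ?_
  rw [finrank_top]
  simp only [finrank_euclideanSpace, Fintype.card_fin]
  omega

end Pool.Agent.RZ
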