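import Mathlib

/-!
# Riesz transforms and rectifiability: definitions

Regularised kernels, reflectionless regular measures, flatness.
-/

set_option autoImplicit false

open MeasureTheory Filter Topology Metric Set
open scoped RealInnerProductSpace ENNReal

namespace Pool.Agent.RZ

/-- The ambient space `ℝ^d`. -/
abbrev X (d : ℕ) := EuclideanSpace ℝ (Fin d)

variable {d : ℕ}

/-- The regularised kernel `(|z|² + ε²)^{-(n+1)/2}`. -/
noncomputable def kr (n : ℕ) (ε : ℝ) (z : X d) : ℝ := (Real.sqrt (‖z‖ ^ 2 + ε ^ 2))⁻¹ ^ (n + 1)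

/-- Lipschitz cut-off: `1` on the ball of radius `R`, `0` outside the ball of radius `2R`. -/
noncomputable def cut (R : ℝ) (z : X d) : ℝ := max 0 (min 1 (2 - ‖z‖ / R))

/-- Test functions: `L`-Lipschitz and supported in the closed ball of radius `ρ`. -/
structure Tst (L ρ : ℝ) (ψ : X d → ℝ) : Prop where
  lip : ∀ x y, |ψ x - ψ y| ≤ L * ‖x - y‖
  supp : ∀ x, ρ < ‖x‖ → ψ x = 0

/-- Growth condition. -/
def Gr (n : ℕ) (C : ℝ) (ν : Measure (X d)) : Prop :=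
  ∀ (x : X d) (r : ℝ), 0 < r → ν (closedBall x r) ≤ ENNReal.ofReal (C * r ^ n)

/-- The support of a measure. -/
def Supp (ν : Measure (X d)) : Set (X d) := {x | ∀ r : ℝ, 0 < r → 0 < ν (ball x r)}

/-- Lower regularity on the support. -/
def Lo (n : ℕ) (C : ℝ) (ν : Measure (X d)) : Prop :=
  ∀ x ∈ Supp ν, ∀ r : ℝ, 0 < r → ENNReal.ofReal (r ^ n / C) ≤ ν (closedBall x r)

/-- `Λ_ε ψ (y) = ∫ (ψ(y) - ψ(x)) k_ε(x - y) dν(x)`. -/
noncomputable def Lam (n : ℕ) (ε : ℝ) (ν : Measure (X d)) (ψ : X d → ℝ) (y : X d) : ℝ :=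
  ∫ x, (ψ y - ψ x) * kr n ε (x - y) ∂ν

/-- Weak form of `Λ u = const`. -/
def EqL (n : ℕ) (ν : Measure (X d)) (u : X d → ℝ) : Prop :=
  ∀ (L ρ : ℝ) (ψ : X d → ℝ), Tst L ρ ψ → ∫ x, ψ x ∂ν = 0 →
    Tendsto (fun ε : ℝ => ∫ y, u y * Lam n ε ν ψ y ∂ν) (𝓝[>] 0) (𝓝 0)

/-- The form `∬ ψ(x) f(y) ⟨e, x - y⟩ k_ε(x - y) dν(y) dν(x)`. -/
noncomputable def Qf (n : ℕ) (ε : ℝ) (ν : Measure (X d)) (e : X d) (f ψ : X d → ℝ) : ℝ :=
  ∫ x, ∫ y, ψ x * f y * (⟪e, x - y⟫ * kr n ε (x - y)) ∂ν ∂ν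

/-- Uniform `L²` bounds of the regularised Riesz forms. -/
def L2b (n : ℕ) (C : ℝ) (ν : Measure (X d)) : Prop :=
  ∀ (ε : ℝ), 0 < ε → ∀ e : X d, ‖e‖ ≤ 1 → ∀ f ψ : X d → ℝ, Continuous f → HasCompactSupport f →
    Continuous ψ → HasCompactSupport ψ →
    |Qf n ε ν e f ψ| ≤ C * Real.sqrt (∫ x, f x ^ 2 ∂ν) * Real.sqrt (∫ x, ψ x ^ 2 ∂ν)

/-- Reflectionless measures: the Riesz transform of `1` is constant in the weak sense. -/
def Refl (n : ℕ) (ν : Measure (X d)) : Prop := ∀ e : X d, EqL n ν fun y => ⟪e, y⟫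

/-- The class of reflectionless `n`-regular measures with bounded Riesz transform. -/
structure Reg (n : ℕ) (C : ℝ) (ν : Measure (X d)) : Prop where
  gr : Gr n C ν
  lo : Lo n C ν
  l2 : L2b n C ν
  refl : Refl n ν

/-- The squared distance of `y` to the affine plane `b + span v` (if `v` is orthonormal). -/
noncomputable def q {m : ℕ} (b : X d) (v : Fin m → X d) (y : X d) : ℝ :=
  ‖y - b‖ ^ 2 - ∑ i, ⟪v i, y - b⟫ ^ 2

/-- The measure is `ε`-flat in the ball of centre `x` and radius `r`. -/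
def Flat (n : ℕ) (ν : Measure (X d)) (x : X d) (r ε : ℝ) : Prop :=
  ∃ (b : X d) (v : Fin n → X d), Orthonormal ℝ v ∧
    ∫ y, cut r (y - x) * q b v y ∂ν ≤ ε ^ 2 * r ^ (n + 2)

/-- The measure is not `δ`-flat in the ball of centre `x` and radius `r` (closed condition). -/
def NF (n : ℕ) (ν : Measure (X d)) (x : X d) (r δ : ℝ) : Prop :=
  ∀ (b : X d) (v : Fin n → X d), Orthonormal ℝ v →
    δ ^ 2 * r ^ (n + 2) ≤ ∫ y, cut r (y - x) * q b v y ∂ν

/-- Vague convergence along the hyperfilter. -/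
def VC (ν : ℕ → Measure (X d)) (ν' : Measure (X d)) : Prop :=
  ∀ f : X d → ℝ, Continuous f → HasCompactSupport f →
    Tendsto (fun i => ∫ x, f x ∂(ν i)) (hyperfilter ℕ) (𝓝 (∫ x, f x ∂ν'))

/-- The blow-up of `ν` at `x` with scale `r`. -/
noncomputable def blow (n : ℕ) (x : X d) (r : ℝ) (ν : Measure (X d)) : Measure (X d) :=
  ENNReal.ofReal (r⁻¹ ^ n) • ν.map fun y => r⁻¹ • (y - x)

/-- coordinates of the projection to the span of `v` -/
noncomputable def pr {n : ℕ} (v : Fin n → X d) (y : X d) : X n :=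
  (WithLp.equiv 2 (Fin n → ℝ)).symm fun i => ⟪v i, y⟫

/-- bilateral flatness of the set `F` at `x` with scale `r` -/
def BF (n : ℕ) (F : Set (X d)) (x : X d) (r η : ℝ) : Prop :=
  ∃ v : Fin n → X d, Orthonormal ℝ v ∧ (∀ y ∈ F, ‖y - x‖ ≤ r → q x v y ≤ (η * r) ^ 2) ∧
    ∀ p : X d, q x v p = 0 → ‖p - x‖ ≤ r → ∃ y ∈ F, ‖y - p‖ ≤ η * r

end Pool.Agent.RZ
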