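import Pool.Agent.RZ.F1a

/-!
F1c: the far part. psi = (cut R)^2 w, int psi dnu = 0. |Lam psi(y)| <= A 2R |psi|_1 |y|^{-(n+2)} for |y| >= 4R (lam_far_L1), |psi|_1 <= (C (2R)^n int_{B_2R} w^2)^{1/2} <= (C (2R)^n S 2^{n+3})^{1/2};
int_{|y| >= 4R} |w| |y|^{-(n+2)} <= A (S C R^n)^{1/2} R^{-(n+2)} (Gr.tail_L2). Product <= A(C) S / R.
-/

set_option autoImplicit false

open MeasureTheory Filter Topology Metric Set
open scoped RealInnerProductSpace ENNReal

namespace Pool.Agent.RZ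

variable {d : ℕ}

private theorem F1c_cs {μ : Measure (X d)} [IsFiniteMeasure μ] {w : X d → ℝ}
    (h1 : Integrable (fun x => |w x|) μ) (h2 : Integrable (fun x => w x ^ 2) μ) :
    (∫ x, |w x| ∂μ) ^ 2 ≤ μ.real univ * ∫ x, w x ^ 2 ∂μ := by
  set m := μ.real univ with hm
  set N := ∫ x, |w x| ∂μ with hN
  set V := ∫ x, w x ^ 2 ∂μ with hV
  have hm0 : 0 ≤ m := measureReal_nonneg
  have hV0 : 0 ≤ V := integral_nonneg fun x => sq_nonneg _
  rcases hm0.eq_or_lt with h | h
  · have hμ : μ = 0 := by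
      rw [← Measure.measure_univ_eq_zero]
      have h3 : μ.real univ = 0 := by rw [← hm, ← h]
      rwa [measureReal_eq_zero_iff] at h3
    have hN0 : N = 0 := by rw [hN, hμ, integral_zero_measure]
    rw [hN0, ← h]
    simp
  · have e1 : ∫ x, (m * |w x| - N) ^ 2 ∂μ = m ^ 2 * V - 2 * m * N * N + N ^ 2 * m := by
      have g1 : Integrable (fun x => m ^ 2 * w x ^ 2) μ := h2.const_mul _
      have g2 : Integrable (fun x => 2 * m * N * |w x|) μ := h1.const_mul _
      have g3 : Integrable (fun x => m ^ 2 * w x ^ 2 - 2 * m * N * |w x|) μ := g1.sub g2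
      have g4 : Integrable (fun _ : X d => N ^ 2) μ := integrable_const _
      have e2 : ∫ x, (m * |w x| - N) ^ 2 ∂μ =
          ∫ x, (m ^ 2 * w x ^ 2 - 2 * m * N * |w x|) + N ^ 2 ∂μ := by
        apply integral_congr_ae (Eventually.of_forall fun x => ?_)
        have e3 : (m * |w x| - N) ^ 2 = (m ^ 2 * |w x| ^ 2 - 2 * m * N * |w x|) + N ^ 2 := by ring
        rw [sq_abs] at e3
        exact e3
      rw [e2, integral_add g3 g4, integral_sub g1 g2, integral_const_mul, integral_const_mul,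
        integral_const, smul_eq_mul, ← hm, ← hN, ← hV]
      ring
    have e3 : 0 ≤ ∫ x, (m * |w x| - N) ^ 2 ∂μ := integral_nonneg fun x => sq_nonneg _
    rw [e1] at e3
    have e4 : 0 ≤ m * (m * V - N ^ 2) := by nlinarith [e3]
    have e5 : 0 ≤ m * V - N ^ 2 := nonneg_of_mul_nonneg_right e4 h
    linarith

theorem far_part (n : ℕ) (hn : 1 ≤ n) (C : ℝ) (hC : 1 ≤ C) : ∃ A : ℝ, 0 < A ∧
    ∀ ν : Measure (X d), Gr n C ν → ∀ w : X d → ℝ, Continuous w → ∀ S R L : ℝ, 0 ≤ S → 1 ≤ R →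
        (∀ r, R ≤ r → ∫ y in closedBall 0 r, w y ^ 2 ∂ν ≤ S * (r / R) ^ (n + 3)) →
        Tst L (2 * R) (fun x => cut R x ^ 2 * w x) → ∫ x, cut R x ^ 2 * w x ∂ν = 0 →
        ∀ ε : ℝ, 0 < ε →
          |∫ y in (closedBall 0 (4 * R))ᶜ, w y * Lam n ε ν (fun x => cut R x ^ 2 * w x) y ∂ν|
            ≤ A * S / R := by
  obtain ⟨A1, hA1, H1⟩ := lam_far_L1 (d := d) n hn
  obtain ⟨A2, hA2, H2⟩ := Gr.tail_L2 (d := d) n hn
  refine ⟨2 * A1 * A2 * Real.sqrt (2 ^ (2 * n + 3)) * C, by positivity, ?_⟩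
  intro ν h w hw S R L hS hR1 hgrow hT h0 ε hε
  have hR : 0 < R := by linarith
  have hC0 : 0 < C := by linarith
  have := h.isLocallyFinite
  obtain ⟨T1, T2⟩ := H2 C hC0.le ν h w hw S R hR hS hgrow
  -- the `L¹` norm of the test function
  set N : ℝ := ∫ x, |cut R x ^ 2 * w x| ∂ν with hN
  have hN0 : 0 ≤ N := integral_nonneg fun x => abs_nonneg _
  have hN1 : N ≤ Real.sqrt (2 ^ (2 * n + 3)) * Real.sqrt (S * C * R ^ n) := by
    have hfin : ν (closedBall (0 : X d) (2 * R)) < ⊤ := h.finite 0 _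
    have hI1 : IntegrableOn (fun x : X d => |w x|) (closedBall 0 (2 * R)) ν :=
      hw.abs.continuousOn.integrableOn_compact (isCompact_closedBall _ _)
    have hI2 : IntegrableOn (fun x : X d => w x ^ 2) (closedBall 0 (2 * R)) ν :=
      (hw.pow 2).continuousOn.integrableOn_compact (isCompact_closedBall _ _)
    have hI3 : IntegrableOn (fun x : X d => |cut R x ^ 2 * w x|) (closedBall 0 (2 * R)) ν :=
      ((((cut_continuous hR).pow 2).mul hw).abs).continuousOn.integrableOn_compact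
        (isCompact_closedBall _ _)
    have e1 : N = ∫ x in closedBall (0 : X d) (2 * R), |cut R x ^ 2 * w x| ∂ν := by
      rw [hN, setIntegral_eq_integral_of_forall_compl_eq_zero]
      intro x hx
      rw [mem_closedBall_zero_iff, not_le] at hx
      rw [cut_eq_zero hR hx.le]
      simp
    have e2 : N ≤ ∫ x in closedBall (0 : X d) (2 * R), |w x| ∂ν := by
      rw [e1]
      apply setIntegral_mono_on hI3 hI1 measurableSet_closedBall
      intro x _
      rw [abs_mul]
      have h5 := cut_nonneg R x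
      have h6 := cut_le_one R x
      have h7 : |cut R x ^ 2| ≤ 1 := by
        rw [abs_of_nonneg (sq_nonneg _)]
        nlinarith
      nlinarith [abs_nonneg (w x)]
    have : IsFiniteMeasure (ν.restrict (closedBall (0 : X d) (2 * R))) :=
      ⟨by rw [Measure.restrict_apply_univ]; exact hfin⟩
    have e3 := F1c_cs (μ := ν.restrict (closedBall (0 : X d) (2 * R))) hI1 hI2
    have e4 : (ν.restrict (closedBall (0 : X d) (2 * R))).real univ ≤ C * (2 * R) ^ n := by
      rw [measureReal_restrict_apply_univ]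
      exact h.real_le hC0.le 0 (by positivity)
    have e5 := hgrow (2 * R) (by linarith)
    have h2 : (2 * R / R) = 2 := by field_simp
    rw [h2] at e5
    have e6 : (∫ x in closedBall (0 : X d) (2 * R), |w x| ∂ν) ^ 2 ≤
        (2 ^ (2 * n + 3)) * (S * C * R ^ n) := by
      refine e3.trans ?_
      calc (ν.restrict (closedBall (0 : X d) (2 * R))).real univ *
            ∫ x in closedBall (0 : X d) (2 * R), w x ^ 2 ∂ν
          ≤ (C * (2 * R) ^ n) * (S * 2 ^ (n + 3)) := by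
            apply mul_le_mul e4 e5 (integral_nonneg fun x => sq_nonneg _) (by positivity)
        _ = (2 ^ (2 * n + 3)) * (S * C * R ^ n) := by
            rw [mul_pow]; ring
    rw [← Real.sqrt_mul (by positivity)]
    apply Real.le_sqrt_of_sq_le
    refine le_trans ?_ e6
    exact pow_le_pow_left₀ hN0 e2 2
  -- pointwise bound of `Lam`
  have hpt : ∀ y ∈ (closedBall (0 : X d) (4 * R))ᶜ,
      ‖w y * Lam n ε ν (fun x => cut R x ^ 2 * w x) y‖ ≤
        A1 * (2 * R) * N * (|w y| * ‖y‖⁻¹ ^ (n + 2)) := by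
    intro y hy
    rw [mem_compl_iff, mem_closedBall_zero_iff, not_le] at hy
    have h1 := H1 C hC0.le ν h L (2 * R) (by positivity) _ hT h0 ε hε y (by linarith)
    rw [Real.norm_eq_abs, abs_mul]
    calc |w y| * |Lam n ε ν (fun x => cut R x ^ 2 * w x) y|
        ≤ |w y| * (A1 * (2 * R) * (∫ x, |cut R x ^ 2 * w x| ∂ν) * ‖y‖⁻¹ ^ (n + 2)) :=
          mul_le_mul_of_nonneg_left h1 (abs_nonneg _)
      _ = A1 * (2 * R) * N * (|w y| * ‖y‖⁻¹ ^ (n + 2)) := by rw [← hN]; ring
  have hsub : (closedBall (0 : X d) (4 * R))ᶜ ⊆ {y | R ≤ ‖y‖} := by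
    intro y hy
    rw [mem_compl_iff, mem_closedBall_zero_iff, not_le] at hy
    show R ≤ ‖y‖
    linarith
  have hmeas : MeasurableSet ((closedBall (0 : X d) (4 * R))ᶜ) := measurableSet_closedBall.compl
  have hInt : IntegrableOn (fun y : X d => A1 * (2 * R) * N * (|w y| * ‖y‖⁻¹ ^ (n + 2)))
      ((closedBall (0 : X d) (4 * R))ᶜ) ν := (T1.mono_set hsub).const_mul _
  have e1 : |∫ y in (closedBall 0 (4 * R))ᶜ, w y * Lam n ε ν (fun x => cut R x ^ 2 * w x) y ∂ν| ≤
      ∫ y in (closedBall (0 : X d) (4 * R))ᶜ, A1 * (2 * R) * N * (|w y| * ‖y‖⁻¹ ^ (n + 2)) ∂ν := by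
    rw [← Real.norm_eq_abs]
    apply norm_integral_le_of_norm_le hInt
    exact (ae_restrict_iff' hmeas).2 (Eventually.of_forall hpt)
  have e2 : ∫ y in (closedBall (0 : X d) (4 * R))ᶜ, |w y| * ‖y‖⁻¹ ^ (n + 2) ∂ν ≤
      ∫ y in {y : X d | R ≤ ‖y‖}, |w y| * ‖y‖⁻¹ ^ (n + 2) ∂ν := by
    apply setIntegral_mono_set T1 _ hsub.eventuallyLE
    exact Eventually.of_forall fun y => by positivity
  rw [integral_const_mul] at e1
  have hq : Real.sqrt (S * C * R ^ n) * Real.sqrt (S * C * R ^ n) = S * C * R ^ n :=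
    Real.mul_self_sqrt (by positivity)
  calc |∫ y in (closedBall 0 (4 * R))ᶜ, w y * Lam n ε ν (fun x => cut R x ^ 2 * w x) y ∂ν|
      ≤ A1 * (2 * R) * N *
        ∫ y in (closedBall (0 : X d) (4 * R))ᶜ, |w y| * ‖y‖⁻¹ ^ (n + 2) ∂ν := e1
    _ ≤ A1 * (2 * R) * (Real.sqrt (2 ^ (2 * n + 3)) * Real.sqrt (S * C * R ^ n)) *
        (A2 * Real.sqrt (S * C * R ^ n) * R⁻¹ ^ (n + 2)) := by
        apply mul_le_mul
        · exact mul_le_mul_of_nonneg_left hN1 (by positivity)
        · exact e2.trans T2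
        · exact integral_nonneg fun y => by positivity
        · positivity
    _ = 2 * A1 * A2 * Real.sqrt (2 ^ (2 * n + 3)) *
        (Real.sqrt (S * C * R ^ n) * Real.sqrt (S * C * R ^ n)) * (R * R⁻¹ ^ (n + 2)) := by ring
    _ = 2 * A1 * A2 * Real.sqrt (2 ^ (2 * n + 3)) * C * S / R := by
        rw [hq, inv_pow]
        field_simp
        ring

end Pool.Agent.RZ
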