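import Pool.Agent.RZ.F1b
import Pool.Agent.RZ.F1c

/-!
F1: Caccioppoli inequality (assembly). w = u - c (center), psi = (cut R)^2 w (cut_test). EqL nu w: int w Lam psi' = int u Lam psi' - c int Lam psi' = int u Lam psi' (lam_int_zero; integrability from Gr.weight and lam_bound).
sum_parts with rho = 2R, rho' = 4R for w and psi: int w Lam psi = (1/2) I + II + III with II >= 0 (w psi = eta^2 w^2 >= 0, kr >= 0), |III| <= A S/R (far_part), I >= energy on B_R - A S/R (near_part).
So energy_eps(B_R) <= 2 |int w Lam_eps psi| + A S/R. For eps' <= eps the energy with eps is <= the one with eps' (kr_anti), eps' -> 0 with EqL.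
-/

set_option autoImplicit false

open MeasureTheory Filter Topology Metric Set
open scoped RealInnerProductSpace ENNReal

namespace Pool.Agent.RZ

variable {d : ℕ}

/-- growth from `R` on gives growth from `1` on -/
private theorem F1_growth {n : ℕ} {ν : Measure (X d)} [IsLocallyFiniteMeasure ν] {u : X d → ℝ}
    (hu : Continuous u) {S R : ℝ} (hS : 0 ≤ S) (hR : 1 ≤ R)
    (hg : ∀ r, R ≤ r → ∫ y in closedBall 0 r, u y ^ 2 ∂ν ≤ S * (r / R) ^ (n + 3)) :
    ∀ r, 1 ≤ r → ∫ y in closedBall 0 r, u y ^ 2 ∂ν ≤ S * r ^ (n + 3) := by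
  intro r hr
  have hR0 : 0 < R := by linarith
  rcases le_total R r with h | h
  · refine (hg r h).trans (mul_le_mul_of_nonneg_left ?_ hS)
    apply pow_le_pow_left₀ (by positivity)
    exact div_le_self (by linarith) hR
  · have h1 := hg R le_rfl
    rw [div_self hR0.ne', one_pow, mul_one] at h1
    have h2 : ∫ y in closedBall (0 : X d) r, u y ^ 2 ∂ν ≤
        ∫ y in closedBall (0 : X d) R, u y ^ 2 ∂ν := by
      apply setIntegral_mono_set
      · exact (hu.pow 2).continuousOn.integrableOn_compact (isCompact_closedBall _ _)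
      · exact Eventually.of_forall fun y => sq_nonneg _
      · exact (closedBall_subset_closedBall h).eventuallyLE
    have h3 : S * 1 ≤ S * r ^ (n + 3) := mul_le_mul_of_nonneg_left (one_le_pow₀ hr) hS
    linarith

/-- continuity of the inner integral of the energy -/
private theorem F1_inner_cont {n : ℕ} {ν : Measure (X d)} [IsLocallyFiniteMeasure ν] {u : X d → ℝ}
    (hu : Continuous u) {ε : ℝ} (hε : 0 < ε) (R : ℝ) :
    Continuous fun y : X d => ∫ x in closedBall (0 : X d) R, (u y - u x) ^ 2 * kr n ε (x - y) ∂ν := by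
  apply continuous_parametric_integral_of_continuous (f := fun y x : X d =>
    (u y - u x) ^ 2 * kr n ε (x - y)) _ (isCompact_closedBall _ _)
  have h1 : Continuous fun p : X d × X d => kr n ε (p.2 - p.1) :=
    (kr_continuous n hε).comp (continuous_snd.sub continuous_fst)
  exact (((hu.comp continuous_fst).sub (hu.comp continuous_snd)).pow 2).mul h1

/-- the energy increases when `ε` decreases -/
private theorem F1_energy_mono {n : ℕ} {ν : Measure (X d)} [IsLocallyFiniteMeasure ν] {u : X d → ℝ}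
    (hu : Continuous u) {ε ε' : ℝ} (hε' : 0 < ε') (h : ε' ≤ ε) (R : ℝ) :
    ∫ y in closedBall 0 R, ∫ x in closedBall 0 R, (u y - u x) ^ 2 * kr n ε (x - y) ∂ν ∂ν ≤
      ∫ y in closedBall 0 R, ∫ x in closedBall 0 R, (u y - u x) ^ 2 * kr n ε' (x - y) ∂ν ∂ν := by
  have hε : 0 < ε := by linarith
  apply setIntegral_mono_on
  · exact (F1_inner_cont hu hε R).continuousOn.integrableOn_compact (isCompact_closedBall _ _)
  · exact (F1_inner_cont hu hε' R).continuousOn.integrableOn_compact (isCompact_closedBall _ _)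
  · exact measurableSet_closedBall
  · intro y _
    have hc : ∀ e : ℝ, 0 < e → Continuous fun x : X d => (u y - u x) ^ 2 * kr n e (x - y) := by
      intro e he
      exact ((continuous_const.sub hu).pow 2).mul
        ((kr_continuous n he).comp (continuous_id.sub continuous_const))
    apply setIntegral_mono_on
    · exact (hc ε hε).continuousOn.integrableOn_compact (isCompact_closedBall _ _)
    · exact (hc ε' hε').continuousOn.integrableOn_compact (isCompact_closedBall _ _)
    · exact measurableSet_closedBall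
    · intro x _
      exact mul_le_mul_of_nonneg_left (kr_anti n hε' h _) (sq_nonneg _)

/-- integrability of `u * Lam` -/
private theorem F1_int {n : ℕ} (hn : 1 ≤ n) (hd : 0 < d) {C : ℝ} (hC : 0 ≤ C) {ν : Measure (X d)}
    (h : Gr n C ν) {ε : ℝ} (hε : 0 < ε) {L ρ : ℝ} (hL : 0 ≤ L) (hρ : 0 < ρ) {ψ : X d → ℝ}
    (hψ : Tst L ρ ψ) (h0 : ∫ x, ψ x ∂ν = 0) {u : X d → ℝ} (hu : Continuous u) {M : ℝ}
    (hM : 0 ≤ M) (huM : ∀ r, 1 ≤ r → ∫ y in closedBall 0 r, u y ^ 2 ∂ν ≤ M * r ^ (n + 3)) :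
    Integrable (fun y => u y * Lam n ε ν ψ y) ν := by
  obtain ⟨A, hA, H⟩ := Gr.weight (d := d) n hn
  obtain ⟨B, hB, HB⟩ := lam_bound n hn hd C L ρ ε hC hL hρ hε
  have h1 := (H C hC ν h u hu M hM huM).1
  apply Integrable.mono' (h1.const_mul B)
  · exact (hu.mul (lam_continuous hn hC h hε hψ)).aestronglyMeasurable
  · refine Eventually.of_forall fun y => ?_
    have h2 := HB ν h ψ hψ h0 y
    rw [Real.norm_eq_abs, abs_mul]
    calc |u y| * |Lam n ε ν ψ y| ≤ |u y| * (B * (1 + ‖y‖)⁻¹ ^ (n + 2)) :=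
          mul_le_mul_of_nonneg_left h2 (abs_nonneg _)
      _ = B * (|u y| * (1 + ‖y‖)⁻¹ ^ (n + 2)) := by ring

theorem caccioppoli (n : ℕ) (hn : 1 ≤ n) (hd : 0 < d) (C : ℝ) (hC : 1 ≤ C) : ∃ A : ℝ, 0 < A ∧
    ∀ ν : Measure (X d), Gr n C ν →
      (∀ r, 0 < r → ENNReal.ofReal (r ^ n / C) ≤ ν (closedBall 0 r)) →
      ∀ u : X d → ℝ, LL u → EqL n ν u → ∀ S R : ℝ, 0 ≤ S → 1 ≤ R →
        (∀ r, R ≤ r → ∫ y in closedBall 0 r, u y ^ 2 ∂ν ≤ S * (r / R) ^ (n + 3)) →
        ∀ ε : ℝ, 0 < ε → ∫ y in closedBall 0 R, ∫ x in closedBall 0 R,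
          (u y - u x) ^ 2 * kr n ε (x - y) ∂ν ∂ν ≤ A * S / R := by
  obtain ⟨A0, hA0, H0⟩ := center (d := d) n C hC
  obtain ⟨A1, hA1, H1⟩ := near_part (d := d) n hn
  obtain ⟨A2, hA2, H2⟩ := far_part (d := d) n hn C hC
  have hC0 : 0 < C := by linarith
  refine ⟨(2 * A2 + A1 * C * 4 ^ (n + 3)) * A0, by positivity, ?_⟩
  intro ν h hlo u hLL hEq S R hS hR1 hgrow ε hε
  have hR : 0 < R := by linarith
  have := h.isLocallyFinite
  have hu := hLL.continuous
  obtain ⟨c, hc0, hcg⟩ := H0 ν h hlo u hu S R hS hR1 hgrow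
  obtain ⟨L, hL, hT⟩ := cut_test hLL c hR
  have hw : Continuous fun x : X d => u x - c := hu.sub continuous_const
  have hS' : 0 ≤ A0 * S := by positivity
  have hgu := F1_growth hu hS hR1 hgrow
  have hgw := F1_growth (u := fun x => u x - c) hw hS' hR1 hcg
  -- main estimate
  have main : ∀ ε' : ℝ, 0 < ε' → ε' ≤ ε →
      ∫ y in closedBall 0 R, ∫ x in closedBall 0 R, (u y - u x) ^ 2 * kr n ε (x - y) ∂ν ∂ν ≤
        2 * |∫ y, u y * Lam n ε' ν (fun x => cut R x ^ 2 * (u x - c)) y ∂ν| +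
          (2 * A2 + A1 * C * 4 ^ (n + 3)) * A0 * S / R := by
    intro ε' hε' hle
    refine (F1_energy_mono hu hε' hle R).trans ?_
    have h2R : (0 : ℝ) < 2 * R := by linarith
    -- `w` and `u` give the same
    have e1 : ∫ y, (u y - c) * Lam n ε' ν (fun x => cut R x ^ 2 * (u x - c)) y ∂ν =
        ∫ y, u y * Lam n ε' ν (fun x => cut R x ^ 2 * (u x - c)) y ∂ν := by
      have i1 := F1_int hn hd hC0.le h hε' hL h2R hT hc0 hu hS hgu
      have i2 := F1_int hn hd hC0.le h hε' hL h2R hT hc0 (u := fun _ => (1 : ℝ))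
        continuous_const hC0.le (by
          intro r hr
          have hr0 : 0 < r := by linarith
          have k1 := h.real_le hC0.le 0 hr0
          rw [setIntegral_const, smul_eq_mul, one_pow, mul_one]
          refine k1.trans (mul_le_mul_of_nonneg_left ?_ hC0.le)
          exact pow_le_pow_right₀ hr (by omega))
      have i3 : Integrable (fun y =>
          c * Lam n ε' ν (fun x => cut R x ^ 2 * (u x - c)) y) ν := by
        have := i2.const_mul c
        simpa using this
      have e2 := lam_int_zero hn hd hC0.le h hε' hT hc0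
      have e3 : ∫ y, (u y - c) * Lam n ε' ν (fun x => cut R x ^ 2 * (u x - c)) y ∂ν =
          ∫ y, u y * Lam n ε' ν (fun x => cut R x ^ 2 * (u x - c)) y ∂ν -
            ∫ y, c * Lam n ε' ν (fun x => cut R x ^ 2 * (u x - c)) y ∂ν := by
        rw [← integral_sub i1 i3]
        exact integral_congr_ae (Eventually.of_forall fun x => by simp only []; ring)
      rw [e3, integral_const_mul, e2, mul_zero, sub_zero]
    have e4 := sum_parts hn hd hC0.le h hε' hL h2R (ρ' := 4 * R) (by linarith) hT hc0 hw hS' hgw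
    rw [e1] at e4
    have e5 := H1 C hC0.le ν h (fun x => u x - c) hw R ε' hR hε'
    have e6 := H2 ν h (fun x => u x - c) hw (A0 * S) R L hS' hR1 hcg hT hc0 ε' hε'
    have e7 : 0 ≤ ∫ y in closedBall (0 : X d) (4 * R),
        (u y - c) * (cut R y ^ 2 * (u y - c)) *
          (∫ x in (closedBall (0 : X d) (4 * R))ᶜ, kr n ε' (x - y) ∂ν) ∂ν := by
      apply integral_nonneg
      intro y
      apply mul_nonneg
      · have : (u y - c) * (cut R y ^ 2 * (u y - c)) = (cut R y * (u y - c)) ^ 2 := by ring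
        rw [this]
        exact sq_nonneg _
      · exact integral_nonneg fun x => kr_nonneg n ε' _
    have e8 := hcg (4 * R) (by linarith)
    have e9 : 4 * R / R = 4 := by field_simp
    rw [e9] at e8
    have e10 : A1 * C * R⁻¹ * ∫ y in closedBall (0 : X d) (4 * R), (u y - c) ^ 2 ∂ν ≤
        A1 * C * R⁻¹ * (A0 * S * 4 ^ (n + 3)) :=
      mul_le_mul_of_nonneg_left e8 (by positivity)
    have e11 : ∫ y in closedBall (0 : X d) R, ∫ x in closedBall (0 : X d) R,
        (u y - u x) ^ 2 * kr n ε' (x - y) ∂ν ∂ν =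
        ∫ y in closedBall (0 : X d) R, ∫ x in closedBall (0 : X d) R,
          (u y - c - (u x - c)) ^ 2 * kr n ε' (x - y) ∂ν ∂ν := by
      simp only [sub_sub_sub_cancel_right]
    have e12 := abs_le.1 e6
    have e13 := le_abs_self (∫ y, u y * Lam n ε' ν (fun x => cut R x ^ 2 * (u x - c)) y ∂ν)
    have e14 : (2 * A2 + A1 * C * 4 ^ (n + 3)) * A0 * S / R =
        2 * (A2 * (A0 * S) / R) + A1 * C * R⁻¹ * (A0 * S * 4 ^ (n + 3)) := by
      rw [div_eq_mul_inv, div_eq_mul_inv]; ring
    rw [e11, e14]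
    linarith [e4, e5, e7, e10, e12.1, e13]
  -- limit
  have hlim := hEq L (2 * R) _ hT hc0
  have hlim2 : Tendsto (fun ε' : ℝ =>
      2 * |∫ y, u y * Lam n ε' ν (fun x => cut R x ^ 2 * (u x - c)) y ∂ν| +
          (2 * A2 + A1 * C * 4 ^ (n + 3)) * A0 * S / R) (𝓝[>] 0)
      (𝓝 (2 * |(0 : ℝ)| + (2 * A2 + A1 * C * 4 ^ (n + 3)) * A0 * S / R)) :=
    (hlim.abs.const_mul 2).add_const _
  rw [abs_zero, mul_zero, zero_add] at hlim2
  apply ge_of_tendsto hlim2
  have hmem : Ioc (0 : ℝ) ε ∈ 𝓝[>] (0 : ℝ) := Ioc_mem_nhdsGT hε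
  filter_upwards [hmem] with ε' hε'
  exact main ε' hε'.1 hε'.2

end Pool.Agent.RZ
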