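import Pool.Agent.RZ.L2
import Pool.Agent.RZ.Bl

/-!
F1a: preparations for the Caccioppoli inequality.
lam_far_L1: as lam_far of L1, but with the L1 norm of psi: |Lam psi(y)| = |int psi(x)(k(x-y)-k(-y)) dnu| <= int |psi| c_n rho |y|^{-(n+2)} (kr_sub_le, |x| <= rho <= |y|/2).
center: c = int (cut R)^2 u / int (cut R)^2; int (cut R)^2 >= nu(closedBall 0 R) >= R^n/C, (int eta^2 u)^2 <= int eta^2 int eta^2 u^2, so c^2 <= C R^{-n} int_{B_2R} u^2 <= C R^{-n} S 2^{n+3};
for r >= R: int_{B_r}(u-c)^2 <= 2 int_{B_r}u^2 + 2 c^2 C r^n <= A S (r/R)^{n+3}.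
cut_test: eta^2 (u-c) is a test function: u is Lipschitz and bounded on the ball of radius 2R+1, eta^2 is Lipschitz, bounded by 1 and vanishes outside the ball 2R.
-/

set_option autoImplicit false

open MeasureTheory Filter Topology Metric Set
open scoped RealInnerProductSpace ENNReal

namespace Pool.Agent.RZ

variable {d : ℕ}

/-- locally Lipschitz functions -/
def LL (u : X d → ℝ) : Prop :=
  ∀ R : ℝ, ∃ L : ℝ, ∀ x ∈ closedBall (0 : X d) R, ∀ y ∈ closedBall (0 : X d) R,
    |u x - u y| ≤ L * ‖x - y‖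

theorem LL.continuous {u : X d → ℝ} (h : LL u) : Continuous u := by
  rw [Metric.continuous_iff]
  intro x e he
  obtain ⟨L, hL⟩ := h (‖x‖ + 1)
  have hL1 : 0 < |L| + 1 := by positivity
  refine ⟨min 1 (e / (|L| + 1)), lt_min one_pos (div_pos he hL1), ?_⟩
  intro y hy
  have hy1 : dist y x < 1 := lt_of_lt_of_le hy (min_le_left _ _)
  have hy2 : dist y x < e / (|L| + 1) := lt_of_lt_of_le hy (min_le_right _ _)
  have hxm : x ∈ closedBall (0 : X d) (‖x‖ + 1) := by
    rw [mem_closedBall_zero_iff]; linarith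
  have hym : y ∈ closedBall (0 : X d) (‖x‖ + 1) := by
    rw [mem_closedBall_zero_iff]
    rw [dist_eq_norm] at hy1
    have : ‖y‖ ≤ ‖y - x‖ + ‖x‖ := by simpa using norm_add_le (y - x) x
    linarith
  have h1 := hL y hym x hxm
  rw [Real.dist_eq]
  rw [← dist_eq_norm] at h1
  have h2 : L * dist y x ≤ (|L| + 1) * dist y x :=
    mul_le_mul_of_nonneg_right (by linarith [le_abs_self L]) dist_nonneg
  have h3 : (|L| + 1) * dist y x < e := by
    rw [lt_div_iff₀ hL1] at hy2
    linarith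
  linarith

/-- decay of `Lam` in terms of the `L¹` norm -/
theorem lam_far_L1 (n : ℕ) (hn : 1 ≤ n) : ∃ A : ℝ, 0 < A ∧ ∀ (C : ℝ), 0 ≤ C →
    ∀ ν : Measure (X d), Gr n C ν → ∀ (L ρ : ℝ), 0 < ρ → ∀ ψ : X d → ℝ, Tst L ρ ψ →
      ∫ x, ψ x ∂ν = 0 → ∀ ε : ℝ, 0 < ε → ∀ y : X d, 2 * ρ ≤ ‖y‖ →
        |Lam n ε ν ψ y| ≤ A * ρ * (∫ x, |ψ x| ∂ν) * ‖y‖⁻¹ ^ (n + 2) := by
  refine ⟨(n + 1) * 2 ^ (n + 2), by positivity, ?_⟩
  intro C hC ν h L ρ hρ ψ hψ h0 ε hε y hy
  have := h.isLocallyFinite
  have hcont := hψ.continuous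
  have hcs := hψ.hasCompactSupport
  have hψy : ψ y = 0 := hψ.supp y (by linarith)
  have hkc : Continuous fun x : X d => kr n ε (x - y) :=
    (kr_continuous n hε).comp (continuous_id.sub continuous_const)
  have hint1 : Integrable (fun x => ψ x * kr n ε (x - y)) ν :=
    (hcont.mul hkc).integrable_of_hasCompactSupport hcs.mul_right
  have hint2 : Integrable (fun x => ψ x * kr n ε (-y)) ν :=
    (hcont.mul continuous_const).integrable_of_hasCompactSupport hcs.mul_right
  have hint3 : Integrable (fun x => |ψ x|) ν :=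
    (hcont.integrable_of_hasCompactSupport hcs).abs
  have e1 : Lam n ε ν ψ y = ∫ x, ψ x * (kr n ε (-y) - kr n ε (x - y)) ∂ν := by
    have e2 : ∫ x, ψ x * kr n ε (-y) ∂ν = 0 := by
      rw [integral_mul_const, h0, zero_mul]
    have e3 : ∫ x, ψ x * (kr n ε (-y) - kr n ε (x - y)) ∂ν =
        ∫ x, ψ x * kr n ε (-y) ∂ν - ∫ x, ψ x * kr n ε (x - y) ∂ν := by
      rw [← integral_sub hint2 hint1]
      exact integral_congr_ae (Eventually.of_forall fun x => by simp only []; ring)
    rw [e3, e2, zero_sub, ← integral_neg]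
    unfold Lam
    exact integral_congr_ae (Eventually.of_forall fun x => by simp only [hψy]; ring)
  rw [e1]
  have hbound : ∀ x, |ψ x * (kr n ε (-y) - kr n ε (x - y))| ≤
      |ψ x| * ((n + 1) * 2 ^ (n + 2) * ρ * ‖y‖⁻¹ ^ (n + 2)) := by
    intro x
    rw [abs_mul]
    by_cases hx : ‖x‖ ≤ ρ
    · apply mul_le_mul_of_nonneg_left _ (abs_nonneg _)
      have hyne : -y ≠ 0 := by
        intro hy0
        rw [neg_eq_zero] at hy0
        rw [hy0, norm_zero] at hy
        linarith
      have hz : (-y : X d) - (x - y) = -x := by abel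
      have h1 := kr_sub_le n ε (z := -y) (z' := x - y) hyne
        (by rw [hz, norm_neg, norm_neg]; linarith)
      rw [hz, norm_neg, norm_neg] at h1
      refine h1.trans ?_
      apply mul_le_mul_of_nonneg_right _ (by positivity)
      exact mul_le_mul_of_nonneg_left hx (by positivity)
    · have : ψ x = 0 := hψ.supp x (not_le.1 hx)
      rw [this]
      simp
  calc |∫ x, ψ x * (kr n ε (-y) - kr n ε (x - y)) ∂ν|
      ≤ ∫ x, |ψ x * (kr n ε (-y) - kr n ε (x - y))| ∂ν := abs_integral_le_integral_abs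
    _ ≤ ∫ x, |ψ x| * ((n + 1) * 2 ^ (n + 2) * ρ * ‖y‖⁻¹ ^ (n + 2)) ∂ν := by
        apply integral_mono_of_nonneg (Eventually.of_forall fun x => abs_nonneg _)
          (hint3.mul_const _) (Eventually.of_forall hbound)
    _ = (n + 1) * 2 ^ (n + 2) * ρ * (∫ x, |ψ x| ∂ν) * ‖y‖⁻¹ ^ (n + 2) := by
        rw [integral_mul_const]; ring

private theorem F1a_cut_sq_cont {R : ℝ} (hR : 0 < R) :
    Continuous fun x : X d => cut R x ^ 2 := (cut_continuous hR).pow 2

private theorem F1a_cut_sq_cs {R : ℝ} (hR : 0 < R) :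
    HasCompactSupport fun x : X d => cut R x ^ 2 := by
  have h := (cut_hasCompactSupport (d := d) hR)
  have h2 : (fun x : X d => cut R x ^ 2) = fun x => cut R x * cut R x := by
    funext x; ring
  rw [h2]
  exact h.mul_right

theorem center (n : ℕ) (C : ℝ) (hC : 1 ≤ C) : ∃ A : ℝ, 0 < A ∧
    ∀ ν : Measure (X d), Gr n C ν →
      (∀ r, 0 < r → ENNReal.ofReal (r ^ n / C) ≤ ν (closedBall 0 r)) →
      ∀ u : X d → ℝ, Continuous u → ∀ S R : ℝ, 0 ≤ S → 1 ≤ R →
        (∀ r, R ≤ r → ∫ y in closedBall 0 r, u y ^ 2 ∂ν ≤ S * (r / R) ^ (n + 3)) →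
        ∃ c : ℝ, ∫ x, cut R x ^ 2 * (u x - c) ∂ν = 0 ∧
          ∀ r, R ≤ r → ∫ y in closedBall 0 r, (u y - c) ^ 2 ∂ν ≤ A * S * (r / R) ^ (n + 3) := by
  refine ⟨2 + 2 ^ (n + 4) * C ^ 2, by positivity, ?_⟩
  intro ν h hlo u hu S R hS hR1 hgrow
  have hR : 0 < R := by linarith
  have hC0 : 0 < C := by linarith
  have := h.isLocallyFinite
  have hfin : ∀ r : ℝ, ν (closedBall (0 : X d) r) ≠ ⊤ := fun r => (h.finite 0 r).ne
  have hcc := F1a_cut_sq_cont (d := d) hR
  have hcs := F1a_cut_sq_cs (d := d) hR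
  have i1 : Integrable (fun x : X d => cut R x ^ 2) ν := hcc.integrable_of_hasCompactSupport hcs
  have i2 : Integrable (fun x : X d => cut R x ^ 2 * u x) ν :=
    (hcc.mul hu).integrable_of_hasCompactSupport hcs.mul_right
  have i3 : Integrable (fun x : X d => cut R x ^ 2 * u x ^ 2) ν :=
    (hcc.mul (hu.pow 2)).integrable_of_hasCompactSupport hcs.mul_right
  -- lower bound of the mass
  set m : ℝ := ∫ x, cut R x ^ 2 ∂ν with hm
  have hm1 : R ^ n / C ≤ m := by
    have h1 : ν.real (closedBall (0 : X d) R) ≤ m := by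
      have h2 : ν.real (closedBall (0 : X d) R) =
          ∫ x in closedBall (0 : X d) R, (1 : ℝ) ∂ν := by
        rw [setIntegral_const, smul_eq_mul, mul_one]
      rw [h2, hm]
      calc ∫ x in closedBall (0 : X d) R, (1 : ℝ) ∂ν
          = ∫ x in closedBall (0 : X d) R, cut R x ^ 2 ∂ν := by
            apply setIntegral_congr_fun measurableSet_closedBall
            intro x hx
            rw [mem_closedBall_zero_iff] at hx
            simp only []
            rw [cut_eq_one hR hx, one_pow]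
        _ ≤ ∫ x, cut R x ^ 2 ∂ν :=
            setIntegral_le_integral i1 (Eventually.of_forall fun x => sq_nonneg _)
    have h2 := hlo R hR
    have h3 : R ^ n / C ≤ ν.real (closedBall (0 : X d) R) := by
      rw [Measure.real]
      rw [← ENNReal.ofReal_le_iff_le_toReal (hfin R)]
      exact h2
    linarith
  have hmpos : 0 < m := lt_of_lt_of_le (by positivity) hm1
  set c : ℝ := (∫ x, cut R x ^ 2 * u x ∂ν) / m with hc
  refine ⟨c, ?_, ?_⟩
  · have : ∫ x, cut R x ^ 2 * (u x - c) ∂ν =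
        ∫ x, cut R x ^ 2 * u x ∂ν - ∫ x, cut R x ^ 2 * c ∂ν := by
      rw [← integral_sub i2 (i1.mul_const c)]
      exact integral_congr_ae (Eventually.of_forall fun x => by simp only []; ring)
    rw [this, integral_mul_const, ← hm, hc, mul_div_cancel₀ _ hmpos.ne', sub_self]
  · -- bound of `c`
    have hcs2 : c ^ 2 * m ≤ ∫ x, cut R x ^ 2 * u x ^ 2 ∂ν := by
      have h1 : 0 ≤ ∫ x, cut R x ^ 2 * (u x - c) ^ 2 ∂ν :=
        integral_nonneg fun x => mul_nonneg (sq_nonneg _) (sq_nonneg _)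
      have h2 : ∫ x, cut R x ^ 2 * (u x - c) ^ 2 ∂ν =
          ∫ x, cut R x ^ 2 * u x ^ 2 ∂ν - 2 * c * ∫ x, cut R x ^ 2 * u x ∂ν +
            c ^ 2 * ∫ x, cut R x ^ 2 ∂ν := by
        have g1 : Integrable (fun x : X d => 2 * c * (cut R x ^ 2 * u x)) ν := i2.const_mul _
        have g2 : Integrable (fun x : X d => c ^ 2 * cut R x ^ 2) ν := i1.const_mul _
        have g3 : Integrable (fun x : X d => cut R x ^ 2 * u x ^ 2 -
          2 * c * (cut R x ^ 2 * u x)) ν := i3.sub g1
        rw [← integral_const_mul, ← integral_const_mul, ← integral_sub i3 g1,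
          ← integral_add g3 g2]
        exact integral_congr_ae (Eventually.of_forall fun x => by simp only []; ring)
      have h3 : ∫ x, cut R x ^ 2 * u x ∂ν = c * m := by
        rw [hc, div_mul_cancel₀ _ hmpos.ne']
      rw [h2, h3, ← hm] at h1
      nlinarith [h1]
    have hu2 : ∫ x, cut R x ^ 2 * u x ^ 2 ∂ν ≤ S * 2 ^ (n + 3) := by
      have h1 := hgrow (2 * R) (by linarith)
      have h2 : (2 * R / R) = 2 := by field_simp
      rw [h2] at h1
      refine le_trans ?_ h1
      have h3 : ∫ x, cut R x ^ 2 * u x ^ 2 ∂ν =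
          ∫ x in closedBall (0 : X d) (2 * R), cut R x ^ 2 * u x ^ 2 ∂ν := by
        rw [setIntegral_eq_integral_of_forall_compl_eq_zero]
        intro x hx
        rw [mem_closedBall_zero_iff, not_le] at hx
        rw [cut_eq_zero hR hx.le]
        simp
      rw [h3]
      apply setIntegral_mono_on i3.integrableOn
        ((hu.pow 2).continuousOn.integrableOn_compact (isCompact_closedBall _ _))
        measurableSet_closedBall
      intro x _
      have h4 := cut_nonneg R x
      have h5 := cut_le_one R x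
      have h6 : cut R x ^ 2 ≤ 1 := by nlinarith
      have h7 : cut R x ^ 2 * u x ^ 2 ≤ u x ^ 2 := by nlinarith [sq_nonneg (u x)]
      exact h7
    have hc2 : c ^ 2 * (R ^ n / C) ≤ S * 2 ^ (n + 3) :=
      (mul_le_mul_of_nonneg_left hm1 (sq_nonneg c)).trans (hcs2.trans hu2)
    have hc3 : c ^ 2 ≤ C * S * 2 ^ (n + 3) / R ^ n := by
      rw [le_div_iff₀ (by positivity)]
      have : c ^ 2 * R ^ n = C * (c ^ 2 * (R ^ n / C)) := by
        field_simp
      rw [this]
      nlinarith [hc2]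
    intro r hr
    have hr0 : 0 < r := by linarith
    have j1 : IntegrableOn (fun y : X d => 2 * u y ^ 2 + 2 * c ^ 2) (closedBall 0 r) ν :=
      ((continuous_const.mul (hu.pow 2)).add continuous_const).continuousOn.integrableOn_compact
        (isCompact_closedBall _ _)
    have j2 : IntegrableOn (fun y : X d => (u y - c) ^ 2) (closedBall 0 r) ν :=
      ((hu.sub continuous_const).pow 2).continuousOn.integrableOn_compact
        (isCompact_closedBall _ _)
    have j3 : IntegrableOn (fun y : X d => 2 * u y ^ 2) (closedBall 0 r) ν :=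
      (continuous_const.mul (hu.pow 2)).continuousOn.integrableOn_compact
        (isCompact_closedBall _ _)
    have k1 : ∫ y in closedBall (0 : X d) r, (u y - c) ^ 2 ∂ν ≤
        ∫ y in closedBall (0 : X d) r, (2 * u y ^ 2 + 2 * c ^ 2) ∂ν := by
      apply setIntegral_mono_on j2 j1 measurableSet_closedBall
      intro x _
      nlinarith [sq_nonneg (u x + c)]
    have k2 : ∫ y in closedBall (0 : X d) r, (2 * u y ^ 2 + 2 * c ^ 2) ∂ν =
        2 * ∫ y in closedBall (0 : X d) r, u y ^ 2 ∂ν +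
          ν.real (closedBall (0 : X d) r) * (2 * c ^ 2) := by
      have j4 : IntegrableOn (fun _ : X d => 2 * c ^ 2) (closedBall 0 r) ν :=
        continuous_const.continuousOn.integrableOn_compact (isCompact_closedBall _ _)
      rw [integral_add j3 j4, integral_const_mul, setIntegral_const, smul_eq_mul]
    have k3 : ν.real (closedBall (0 : X d) r) ≤ C * r ^ n := h.real_le hC0.le 0 hr0
    have k4 := hgrow r hr
    have hrR : 1 ≤ r / R := by rw [le_div_iff₀ hR]; linarith
    have k5 : ν.real (closedBall (0 : X d) r) * (2 * c ^ 2) ≤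
        2 ^ (n + 4) * C ^ 2 * S * (r / R) ^ (n + 3) := by
      calc ν.real (closedBall (0 : X d) r) * (2 * c ^ 2)
          ≤ (C * r ^ n) * (2 * (C * S * 2 ^ (n + 3) / R ^ n)) := by
            apply mul_le_mul k3 _ (by positivity) (by positivity)
            linarith
        _ = 2 ^ (n + 4) * C ^ 2 * S * (r / R) ^ n := by
            rw [div_pow, pow_succ 2 (n + 3)]; field_simp
        _ ≤ 2 ^ (n + 4) * C ^ 2 * S * (r / R) ^ (n + 3) := by
            apply mul_le_mul_of_nonneg_left _ (by positivity)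
            exact pow_le_pow_right₀ hrR (by omega)
    calc ∫ y in closedBall (0 : X d) r, (u y - c) ^ 2 ∂ν
        ≤ 2 * ∫ y in closedBall (0 : X d) r, u y ^ 2 ∂ν +
          ν.real (closedBall (0 : X d) r) * (2 * c ^ 2) := k1.trans k2.le
      _ ≤ 2 * (S * (r / R) ^ (n + 3)) + 2 ^ (n + 4) * C ^ 2 * S * (r / R) ^ (n + 3) := by
          linarith
      _ = (2 + 2 ^ (n + 4) * C ^ 2) * S * (r / R) ^ (n + 3) := by ring

theorem cut_test {u : X d → ℝ} (hu : LL u) (c : ℝ) {R : ℝ} (hR : 0 < R) :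
    ∃ L : ℝ, 0 ≤ L ∧ Tst L (2 * R) fun x => cut R x ^ 2 * (u x - c) := by
  obtain ⟨L0, hL0⟩ := hu (2 * R)
  set M : ℝ := |u 0 - c| + |L0| * (2 * R) with hM
  have hMnn : 0 ≤ M := by positivity
  have h0m : (0 : X d) ∈ closedBall (0 : X d) (2 * R) := by
    rw [mem_closedBall_zero_iff, norm_zero]; linarith
  have hbd : ∀ x : X d, ‖x‖ ≤ 2 * R → |u x - c| ≤ M := by
    intro x hx
    have h1 := hL0 x (by rwa [mem_closedBall_zero_iff]) 0 h0m
    rw [sub_zero] at h1
    have h2 : u x - c = (u x - u 0) + (u 0 - c) := by ring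
    rw [h2]
    have h3 : L0 * ‖x‖ ≤ |L0| * (2 * R) :=
      mul_le_mul (le_abs_self _) hx (norm_nonneg _) (abs_nonneg _)
    calc |(u x - u 0) + (u 0 - c)| ≤ |u x - u 0| + |u 0 - c| := abs_add_le _ _
      _ ≤ M := by rw [hM]; linarith
  have hsq : ∀ x y : X d, |cut R x ^ 2 - cut R y ^ 2| ≤ 2 * R⁻¹ * ‖x - y‖ := by
    intro x y
    have h1 : cut R x ^ 2 - cut R y ^ 2 = (cut R x + cut R y) * (cut R x - cut R y) := by ring
    rw [h1, abs_mul]
    have h2 : |cut R x + cut R y| ≤ 2 := by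
      rw [abs_of_nonneg (add_nonneg (cut_nonneg _ _) (cut_nonneg _ _))]
      linarith [cut_le_one R x, cut_le_one R y]
    calc |cut R x + cut R y| * |cut R x - cut R y| ≤ 2 * (R⁻¹ * ‖x - y‖) :=
          mul_le_mul h2 (cut_lip hR x y) (abs_nonneg _) (by norm_num)
      _ = 2 * R⁻¹ * ‖x - y‖ := by ring
  -- first case: `x` in the ball
  have key : ∀ x y : X d, ‖x‖ ≤ 2 * R → |cut R x ^ 2 * (u x - c) - cut R y ^ 2 * (u y - c)| ≤
      (|L0| + 2 * R⁻¹ * M) * ‖x - y‖ := by
    intro x y hx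
    have hb := hbd x hx
    by_cases hy : ‖y‖ ≤ 2 * R
    · have h1 : cut R x ^ 2 * (u x - c) - cut R y ^ 2 * (u y - c) =
          (cut R x ^ 2 - cut R y ^ 2) * (u x - c) + cut R y ^ 2 * (u x - u y) := by ring
      rw [h1]
      have h2 : |(cut R x ^ 2 - cut R y ^ 2) * (u x - c)| ≤ 2 * R⁻¹ * ‖x - y‖ * M := by
        rw [abs_mul]
        exact mul_le_mul (hsq x y) hb (abs_nonneg _) (by positivity)
      have h3 : |cut R y ^ 2 * (u x - u y)| ≤ |L0| * ‖x - y‖ := by
        rw [abs_mul]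
        have h4 : |cut R y ^ 2| ≤ 1 := by
          rw [abs_of_nonneg (sq_nonneg _)]
          have h5 := cut_nonneg R y
          have h6 := cut_le_one R y
          nlinarith
        have h7 := hL0 x (by rwa [mem_closedBall_zero_iff]) y (by rwa [mem_closedBall_zero_iff])
        have h8 : |u x - u y| ≤ |L0| * ‖x - y‖ :=
          h7.trans (mul_le_mul_of_nonneg_right (le_abs_self _) (norm_nonneg _))
        calc |cut R y ^ 2| * |u x - u y| ≤ 1 * (|L0| * ‖x - y‖) :=
              mul_le_mul h4 h8 (abs_nonneg _) (by norm_num)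
          _ = |L0| * ‖x - y‖ := one_mul _
      calc _ ≤ |(cut R x ^ 2 - cut R y ^ 2) * (u x - c)| + |cut R y ^ 2 * (u x - u y)| :=
            abs_add_le _ _
        _ ≤ (|L0| + 2 * R⁻¹ * M) * ‖x - y‖ := by nlinarith [h2, h3]
    · have h1 : cut R y = 0 := cut_eq_zero hR (not_le.1 hy).le
      have h2 : cut R x ^ 2 * (u x - c) - cut R y ^ 2 * (u y - c) =
          (cut R x ^ 2 - cut R y ^ 2) * (u x - c) := by rw [h1]; ring
      rw [h2, abs_mul]
      have h3 : |cut R x ^ 2 - cut R y ^ 2| * |u x - c| ≤ 2 * R⁻¹ * ‖x - y‖ * M :=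
        mul_le_mul (hsq x y) hb (abs_nonneg _) (by positivity)
      have h4 : 0 ≤ |L0| * ‖x - y‖ := by positivity
      nlinarith [h3, h4]
  refine ⟨|L0| + 2 * R⁻¹ * M, by positivity, ?_, ?_⟩
  · intro x y
    by_cases hx : ‖x‖ ≤ 2 * R
    · exact key x y hx
    · by_cases hy : ‖y‖ ≤ 2 * R
      · rw [abs_sub_comm, norm_sub_rev]
        exact key y x hy
      · have h1 : cut R x = 0 := cut_eq_zero hR (not_le.1 hx).le
        have h2 : cut R y = 0 := cut_eq_zero hR (not_le.1 hy).le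
        simp only [h1, h2]
        rw [zero_pow two_ne_zero, zero_mul, zero_mul, sub_zero, abs_zero]
        positivity
  · intro x hx
    have h1 : cut R x = 0 := cut_eq_zero hR hx.le
    rw [h1]
    simp

end Pool.Agent.RZ
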