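import Pool.Agent.RZ.F1a

/-!
F1b: the near part. w continuous, eta = cut R, B = closedBall 0 (4R):
(w_y - w_x)(eta_y^2 w_y - eta_x^2 w_x) = (eta_y w_y - eta_x w_x)^2 - (eta_y-eta_x)^2 w_x w_y, (eta_y-eta_x)^2 <= R^{-2} |x-y|^2, |w_x w_y| <= (w_x^2+w_y^2)/2,
int_{x in B} |x-y|^2 kr n eps (x-y) <= A C 8R (Gr.near, B in closedBall y (8R)); on closedBall 0 R x closedBall 0 R: eta = 1.
-/

set_option autoImplicit false

open MeasureTheory Filter Topology Metric Set
open scoped RealInnerProductSpace ENNReal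

namespace Pool.Agent.RZ

variable {d : ℕ}

private theorem F1b_int {ν : Measure (X d)} [IsLocallyFiniteMeasure ν] {F : X d × X d → ℝ}
    (hF : Continuous F) (ρ : ℝ) :
    Integrable F ((ν.restrict (closedBall 0 ρ)).prod (ν.restrict (closedBall 0 ρ))) := by
  rw [Measure.prod_restrict]
  exact hF.continuousOn.integrableOn_compact
    ((isCompact_closedBall _ _).prod (isCompact_closedBall _ _))

private theorem F1b_it {ν : Measure (X d)} [IsLocallyFiniteMeasure ν] {F : X d × X d → ℝ}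
    (hF : Continuous F) (ρ : ℝ) :
    ∫ y in closedBall 0 ρ, ∫ x in closedBall 0 ρ, F (y, x) ∂ν ∂ν =
      ∫ p in closedBall 0 ρ ×ˢ closedBall 0 ρ, F p ∂(ν.prod ν) := by
  rw [← Measure.prod_restrict, integral_prod _ (F1b_int hF ρ)]

private theorem F1b_inner {n : ℕ} {C A : ℝ} {ν : Measure (X d)} (hν : Gr n C ν)
    (hA : ∀ (x : X d) (r ε : ℝ), 0 < r → 0 < ε →
      ∫ y in closedBall x r, ‖y - x‖ ^ 2 * kr n ε (y - x) ∂ν ≤ A * C * r)
    {R ε : ℝ} (hR : 0 < R) (hε : 0 < ε) {y : X d} (hy : y ∈ closedBall (0 : X d) (4 * R)) :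
    ∫ x in closedBall 0 (4 * R), ‖x - y‖ ^ 2 * kr n ε (x - y) ∂ν ≤ A * C * (8 * R) := by
  have := hν.isLocallyFinite
  have hkc := kr_continuous (d := d) n hε
  have hc : Continuous fun x : X d => ‖x - y‖ ^ 2 * kr n ε (x - y) := by fun_prop
  refine le_trans ?_ (hA y (8 * R) ε (by positivity) hε)
  refine setIntegral_mono_set (hc.continuousOn.integrableOn_compact (isCompact_closedBall _ _))
    ?_ ?_
  · exact Eventually.of_forall fun x => mul_nonneg (by positivity) (kr_nonneg n ε _)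
  · refine (closedBall_subset_closedBall' ?_).eventuallyLE
    rw [mem_closedBall, dist_comm] at hy
    linarith

theorem near_part (n : ℕ) (hn : 1 ≤ n) : ∃ A : ℝ, 0 < A ∧ ∀ C : ℝ, 0 ≤ C →
    ∀ ν : Measure (X d), Gr n C ν → ∀ w : X d → ℝ, Continuous w → ∀ R ε : ℝ, 0 < R → 0 < ε →
      ∫ y in closedBall 0 R, ∫ x in closedBall 0 R, (w y - w x) ^ 2 * kr n ε (x - y) ∂ν ∂ν ≤
        (∫ y in closedBall 0 (4 * R), ∫ x in closedBall 0 (4 * R),
          (w y - w x) * (cut R y ^ 2 * w y - cut R x ^ 2 * w x) * kr n ε (x - y) ∂ν ∂ν) +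
        A * C * R⁻¹ * ∫ y in closedBall 0 (4 * R), w y ^ 2 ∂ν := by
  obtain ⟨A, hA0, hA⟩ := Gr.near (d := d) n hn
  refine ⟨8 * A, by positivity, fun C hC ν hν w hw R ε hR hε => ?_⟩
  have := hν.isLocallyFinite
  have hkc := kr_continuous (d := d) n hε
  have hcut := cut_continuous (d := d) hR
  set μ : Measure (X d) := ν.restrict (closedBall 0 (4 * R)) with hμ
  -- the integrands on the product
  set F1 : X d × X d → ℝ := fun p => (w p.1 - w p.2) ^ 2 * kr n ε (p.2 - p.1) with hF1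
  set F2 : X d × X d → ℝ := fun p =>
    (w p.1 - w p.2) * (cut R p.1 ^ 2 * w p.1 - cut R p.2 ^ 2 * w p.2) * kr n ε (p.2 - p.1) with hF2
  set f : X d × X d → ℝ := fun p =>
    (cut R p.1 * w p.1 - cut R p.2 * w p.2) ^ 2 * kr n ε (p.2 - p.1) with hf
  set g1 : X d × X d → ℝ := fun p =>
    w p.1 ^ 2 * (‖p.2 - p.1‖ ^ 2 * kr n ε (p.2 - p.1)) with hg1
  set g2 : X d × X d → ℝ := fun p =>
    w p.2 ^ 2 * (‖p.2 - p.1‖ ^ 2 * kr n ε (p.2 - p.1)) with hg2
  have hF1c : Continuous F1 := by fun_prop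
  have hF2c : Continuous F2 := by fun_prop
  have hfc : Continuous f := by fun_prop
  have hg1c : Continuous g1 := by fun_prop
  have hg2c : Continuous g2 := by fun_prop
  have e1 : ∫ y in closedBall 0 R, ∫ x in closedBall 0 R, (w y - w x) ^ 2 * kr n ε (x - y) ∂ν ∂ν =
      ∫ p in closedBall 0 R ×ˢ closedBall 0 R, F1 p ∂(ν.prod ν) := F1b_it hF1c R
  have e2 : (∫ y in closedBall 0 (4 * R), ∫ x in closedBall 0 (4 * R),
          (w y - w x) * (cut R y ^ 2 * w y - cut R x ^ 2 * w x) * kr n ε (x - y) ∂ν ∂ν) =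
      ∫ p in closedBall 0 (4 * R) ×ˢ closedBall 0 (4 * R), F2 p ∂(ν.prod ν) := F1b_it hF2c (4 * R)
  have i2 := F1b_int (ν := ν) hF2c (4 * R)
  have iF := F1b_int (ν := ν) hfc (4 * R)
  have i1 := F1b_int (ν := ν) hg1c (4 * R)
  have i2' := F1b_int (ν := ν) hg2c (4 * R)
  have hP : (ν.prod ν).restrict (closedBall 0 (4 * R) ×ˢ closedBall 0 (4 * R)) = μ.prod μ :=
    (Measure.prod_restrict _ _).symm
  rw [e1, e2]
  -- step 1: the small ball
  have s1 : ∫ p in closedBall 0 R ×ˢ closedBall 0 R, F1 p ∂(ν.prod ν) ≤ ∫ p, f p ∂(μ.prod μ) := by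
    have : ∫ p in closedBall 0 R ×ˢ closedBall 0 R, F1 p ∂(ν.prod ν) =
        ∫ p in closedBall 0 R ×ˢ closedBall 0 R, f p ∂(ν.prod ν) := by
      refine setIntegral_congr_fun
        (isClosed_closedBall.measurableSet.prod isClosed_closedBall.measurableSet) ?_
      rintro ⟨y, x⟩ ⟨hy, hx⟩
      simp only [mem_closedBall, dist_zero_right] at hy hx
      simp only [hF1, hf]
      rw [cut_eq_one hR hy, cut_eq_one hR hx, one_mul, one_mul]
    rw [this, ← hP]
    refine setIntegral_mono_set ?_ ?_ ?_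
    · rw [IntegrableOn, hP]; exact iF
    · exact Eventually.of_forall fun p => mul_nonneg (by positivity) (kr_nonneg n ε _)
    · refine (Set.prod_mono ?_ ?_).eventuallyLE <;>
        exact closedBall_subset_closedBall (by linarith)
  -- step 2: the pointwise inequality
  have s2 : ∫ p, f p ∂(μ.prod μ) ≤
      ∫ p, F2 p ∂(μ.prod μ) + (R⁻¹ ^ 2 / 2) * (∫ p, g1 p ∂(μ.prod μ) + ∫ p, g2 p ∂(μ.prod μ)) := by
    have hI : Integrable (fun p => R⁻¹ ^ 2 / 2 * (g1 p + g2 p)) (μ.prod μ) :=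
      (i1.add i2').const_mul _
    have hJ : Integrable (fun p => F2 p + R⁻¹ ^ 2 / 2 * (g1 p + g2 p)) (μ.prod μ) := i2.add hI
    have e3 : ∫ p, F2 p ∂(μ.prod μ) +
        (R⁻¹ ^ 2 / 2) * (∫ p, g1 p ∂(μ.prod μ) + ∫ p, g2 p ∂(μ.prod μ)) =
        ∫ p, (F2 p + R⁻¹ ^ 2 / 2 * (g1 p + g2 p)) ∂(μ.prod μ) := by
      rw [integral_add i2 hI, integral_const_mul, integral_add i1 i2']
    rw [e3]
    refine integral_mono iF hJ ?_
    rintro ⟨y, x⟩
    simp only [hf, hF2, hg1, hg2]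
    have hl := cut_lip hR y x
    have hk := kr_nonneg n ε (x - y)
    rw [norm_sub_rev y x] at hl
    have h1 : (cut R y - cut R x) ^ 2 ≤ R⁻¹ ^ 2 * ‖x - y‖ ^ 2 := by
      rw [← mul_pow, ← sq_abs]
      exact pow_le_pow_left₀ (abs_nonneg _) hl 2
    have h2 : (cut R y - cut R x) ^ 2 * (w x * w y) ≤
        R⁻¹ ^ 2 * ‖x - y‖ ^ 2 * ((w y ^ 2 + w x ^ 2) / 2) := by
      have h3 : w x * w y ≤ (w y ^ 2 + w x ^ 2) / 2 := by nlinarith [sq_nonneg (w x - w y)]
      calc (cut R y - cut R x) ^ 2 * (w x * w y)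
          ≤ (cut R y - cut R x) ^ 2 * ((w y ^ 2 + w x ^ 2) / 2) := by gcongr
        _ ≤ _ := by gcongr
    have h4 := mul_le_mul_of_nonneg_right h2 hk
    calc (cut R y * w y - cut R x * w x) ^ 2 * kr n ε (x - y)
        = (w y - w x) * (cut R y ^ 2 * w y - cut R x ^ 2 * w x) * kr n ε (x - y) +
          (cut R y - cut R x) ^ 2 * (w x * w y) * kr n ε (x - y) := by ring
      _ ≤ (w y - w x) * (cut R y ^ 2 * w y - cut R x ^ 2 * w x) * kr n ε (x - y) +
          R⁻¹ ^ 2 * ‖x - y‖ ^ 2 * ((w y ^ 2 + w x ^ 2) / 2) * kr n ε (x - y) := by gcongr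
      _ = _ := by ring
  -- step 3: the two remainders
  have hwi : Integrable (fun y => w y ^ 2) μ :=
    (hw.pow 2).continuousOn.integrableOn_compact (isCompact_closedBall _ _)
  have s3 : ∫ p, g1 p ∂(μ.prod μ) ≤ A * C * (8 * R) * ∫ y, w y ^ 2 ∂μ := by
    rw [integral_prod _ i1, ← integral_const_mul]
    refine setIntegral_mono_on i1.integral_prod_left (hwi.const_mul _)
      isClosed_closedBall.measurableSet fun y hy => ?_
    simp only [hg1]
    rw [integral_const_mul, mul_comm]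
    exact mul_le_mul_of_nonneg_right
      (F1b_inner hν (fun x r ε => hA C hC ν hν x r ε) hR hε hy) (by positivity)
  have s4 : ∫ p, g2 p ∂(μ.prod μ) ≤ A * C * (8 * R) * ∫ y, w y ^ 2 ∂μ := by
    rw [integral_prod_symm _ i2', ← integral_const_mul]
    refine setIntegral_mono_on i2'.integral_prod_right (hwi.const_mul _)
      isClosed_closedBall.measurableSet fun y hy => ?_
    simp only [hg2]
    rw [integral_const_mul, mul_comm]
    refine mul_le_mul_of_nonneg_right ?_ (by positivity)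
    refine le_trans (le_of_eq ?_) (F1b_inner hν (fun x r ε => hA C hC ν hν x r ε) hR hε hy)
    refine integral_congr_ae (Eventually.of_forall fun x => ?_)
    simp only
    rw [norm_sub_rev, kr_comm]
  have hW : 0 ≤ ∫ y, w y ^ 2 ∂μ := integral_nonneg fun y => by positivity
  rw [hP]
  have hRR : R⁻¹ ^ 2 / 2 * (A * C * (8 * R) * ∫ y, w y ^ 2 ∂μ) =
      4 * A * C * R⁻¹ * ∫ y, w y ^ 2 ∂μ := by
    field_simp
    ring
  have h5 := mul_le_mul_of_nonneg_left s3 (show 0 ≤ R⁻¹ ^ 2 / 2 by positivity)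
  have h6 := mul_le_mul_of_nonneg_left s4 (show 0 ≤ R⁻¹ ^ 2 / 2 by positivity)
  rw [hRR] at h5 h6
  linarith

end Pool.Agent.RZ
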