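import Pool.Agent.RZ.F1
import Pool.Agent.RZ.Bl

/-!
G1: Lebesgue measure on X n, differences.
vol_reg: volume (closedBall x r) = r^n volume (closedBall 0 1) (Measure.addHaar_closedBall).
eqL_shift: EqL is translation invariant for volume: Lam n eps volume (psi(. - h)) (y) = Lam n eps volume psi (y - h); linear in u (integrability: convL-type
weight, Gr.weight).
diff_energy: for z in closedBall x 1: |b(x+h)-b(x)|^2 <= 2|b(x+h)-b(z)|^2 + 2|b(z)-b(x)|^2, |x+h-z| <= |h|+1, and kr n 1 w >= kappa := (sqrt((|h|+1)^2+1))^{-(n+1)} for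
|w| <= |h|+1. Integrate over x in B_R, z in closedBall x 1 (volume v_n): v_n int_{B_R} |Delta_h b|^2 <= 4 kappa^{-1} iint_{B_{R+|h|+1}^2} (b(x)-b(z))^2 kr n 1 (x-z).
-/

set_option autoImplicit false

open MeasureTheory Filter Topology Metric Set
open scoped RealInnerProductSpace ENNReal

namespace Pool.Agent.RZ

variable {n : ℕ}

theorem vol_reg (n : ℕ) : ∃ C : ℝ, 1 ≤ C ∧ Gr n C (volume : Measure (X n)) ∧
    ∀ (x : X n) (r : ℝ), 0 < r → ENNReal.ofReal (r ^ n / C) ≤ (volume : Measure (X n)) (closedBall x r) := by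
  set v : ℝ := (volume : Measure (X n)).real (closedBall 0 1) with hv
  have hfin : (volume : Measure (X n)) (closedBall 0 1) ≠ ⊤ := measure_closedBall_lt_top.ne
  have hv0 : 0 < v := by
    rw [hv, measureReal_def]
    exact ENNReal.toReal_pos (measure_closedBall_pos _ _ one_pos).ne' hfin
  have hball : ∀ (x : X n) (r : ℝ), 0 < r →
      (volume : Measure (X n)) (closedBall x r) = ENNReal.ofReal (r ^ n * v) := by
    intro x r hr
    rw [Measure.addHaar_closedBall' _ x hr.le, finrank_euclideanSpace_fin,
      ENNReal.ofReal_mul (by positivity), hv, measureReal_def, ENNReal.ofReal_toReal hfin]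
  refine ⟨1 + v + v⁻¹, ?_, ?_, ?_⟩
  · have : 0 < v⁻¹ := by positivity
    linarith
  · intro x r hr
    rw [hball x r hr]
    apply ENNReal.ofReal_le_ofReal
    rw [mul_comm]
    apply mul_le_mul_of_nonneg_right _ (by positivity)
    have : 0 < v⁻¹ := by positivity
    linarith
  · intro x r hr
    rw [hball x r hr]
    apply ENNReal.ofReal_le_ofReal
    rw [div_eq_mul_inv]
    apply mul_le_mul_of_nonneg_left _ (by positivity)
    rw [inv_le_comm₀ (by positivity) hv0]
    linarith

theorem G1a_kr_lower (n : ℕ) {ρ : ℝ} (w : X n) (hw : ‖w‖ ≤ ρ) :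
    (Real.sqrt (ρ ^ 2 + 1 ^ 2))⁻¹ ^ (n + 1) ≤ kr n 1 w := by
  unfold kr
  apply pow_le_pow_left₀ (by positivity)
  apply inv_anti₀ (by positivity)
  apply Real.sqrt_le_sqrt
  have := norm_nonneg w
  nlinarith

theorem diff_energy (hn : 1 ≤ n) (a : X n) : ∃ A : ℝ, 0 < A ∧ ∀ b : X n → ℝ, Continuous b →
    ∀ R : ℝ, 1 ≤ R → ∫ x in closedBall 0 R, (b (x + a) - b x) ^ 2 ≤
      A * ∫ y in closedBall 0 (R + ‖a‖ + 1), ∫ x in closedBall 0 (R + ‖a‖ + 1),
        (b y - b x) ^ 2 * kr n 1 (x - y) := by
  set v : ℝ := (volume : Measure (X n)).real (closedBall 0 1) with hv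
  have hfin : (volume : Measure (X n)) (closedBall 0 1) ≠ ⊤ := measure_closedBall_lt_top.ne
  have hv0 : 0 < v := by
    rw [hv, measureReal_def]
    exact ENNReal.toReal_pos (measure_closedBall_pos _ _ one_pos).ne' hfin
  set κ : ℝ := (Real.sqrt ((‖a‖ + 1) ^ 2 + 1 ^ 2))⁻¹ ^ (n + 1) with hκ
  have hκ0 : 0 < κ := by positivity
  refine ⟨4 * κ⁻¹ * v⁻¹, by positivity, ?_⟩
  intro b hb R hR
  set K : Set (X n) := closedBall 0 (R + ‖a‖ + 1) with hK
  have hKc : IsCompact K := isCompact_closedBall 0 _
  have ha0 : 0 ≤ ‖a‖ := norm_nonneg a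
  have hkc : Continuous (kr n 1 : X n → ℝ) := kr_continuous n one_pos
  have hF : Continuous (Function.uncurry fun y x : X n => (b y - b x) ^ 2 * kr n 1 (x - y)) := by
    have h1 : Continuous fun p : X n × X n => (b p.1 - b p.2) ^ 2 * kr n 1 (p.2 - p.1) := by
      fun_prop
    exact h1
  set G : X n → ℝ := fun y => ∫ x in K, (b y - b x) ^ 2 * kr n 1 (x - y) with hG
  have hGc : Continuous G := continuous_parametric_integral_of_continuous hF hKc
  have hG0 : ∀ y, 0 ≤ G y := fun y =>
    integral_nonneg fun x => mul_nonneg (sq_nonneg _) (kr_nonneg n 1 _)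
  have hBK : closedBall (0 : X n) R ⊆ K := closedBall_subset_closedBall (by linarith)
  have hpt : ∀ x ∈ closedBall (0 : X n) R,
      (b (x + a) - b x) ^ 2 ≤ 2 * κ⁻¹ * v⁻¹ * (G (x + a) + G x) := by
    intro x hx
    rw [mem_closedBall_zero_iff] at hx
    have hsub : closedBall x 1 ⊆ K := by
      intro z hz
      rw [mem_closedBall, dist_eq_norm] at hz
      rw [hK, mem_closedBall_zero_iff]
      have : ‖z‖ ≤ ‖z - x‖ + ‖x‖ := by
        calc ‖z‖ = ‖(z - x) + x‖ := by rw [sub_add_cancel]
          _ ≤ _ := norm_add_le _ _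
      linarith
    have hc1 : Continuous fun z : X n => (b (x + a) - b z) ^ 2 * kr n 1 (z - (x + a)) := by
      fun_prop
    have hc2 : Continuous fun z : X n => (b x - b z) ^ 2 * kr n 1 (z - x) := by
      fun_prop
    have j1 : ∀ s : Set (X n), IsCompact s →
        IntegrableOn (fun z : X n => (b (x + a) - b z) ^ 2 * kr n 1 (z - (x + a))) s volume :=
      fun s hs => hc1.continuousOn.integrableOn_compact hs
    have j2 : ∀ s : Set (X n), IsCompact s →
        IntegrableOn (fun z : X n => (b x - b z) ^ 2 * kr n 1 (z - x)) s volume :=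
      fun s hs => hc2.continuousOn.integrableOn_compact hs
    have hcb : IsCompact (closedBall x 1) := isCompact_closedBall x 1
    have hconst : ∫ z in closedBall x 1, (b (x + a) - b x) ^ 2 = v * (b (x + a) - b x) ^ 2 := by
      rw [integral_const, smul_eq_mul, measureReal_restrict_apply_univ,
        Measure.addHaar_real_closedBall_center]
    have h1 : v * (b (x + a) - b x) ^ 2 ≤ ∫ z in closedBall x 1,
        (2 * κ⁻¹) * ((b (x + a) - b z) ^ 2 * kr n 1 (z - (x + a))
          + (b x - b z) ^ 2 * kr n 1 (z - x)) := by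
      rw [← hconst]
      apply setIntegral_mono_on
      · exact continuous_const.continuousOn.integrableOn_compact hcb
      · exact ((j1 _ hcb).add (j2 _ hcb)).const_mul _
      · exact measurableSet_closedBall
      · intro z hz
        rw [mem_closedBall, dist_eq_norm] at hz
        have k1 : κ ≤ kr n 1 (z - (x + a)) := by
          apply G1a_kr_lower
          have : ‖z - (x + a)‖ ≤ ‖z - x‖ + ‖a‖ := by
            rw [← sub_sub]
            exact norm_sub_le _ _
          linarith
        have k2 : κ ≤ kr n 1 (z - x) := by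
          apply G1a_kr_lower
          linarith
        have e1 : (b (x + a) - b z) ^ 2 ≤ κ⁻¹ * ((b (x + a) - b z) ^ 2 * kr n 1 (z - (x + a))) := by
          calc (b (x + a) - b z) ^ 2 = κ⁻¹ * ((b (x + a) - b z) ^ 2 * κ) := by
                field_simp
            _ ≤ _ := by
                apply mul_le_mul_of_nonneg_left _ (by positivity)
                exact mul_le_mul_of_nonneg_left k1 (sq_nonneg _)
        have e2 : (b x - b z) ^ 2 ≤ κ⁻¹ * ((b x - b z) ^ 2 * kr n 1 (z - x)) := by
          calc (b x - b z) ^ 2 = κ⁻¹ * ((b x - b z) ^ 2 * κ) := by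
                field_simp
            _ ≤ _ := by
                apply mul_le_mul_of_nonneg_left _ (by positivity)
                exact mul_le_mul_of_nonneg_left k2 (sq_nonneg _)
        calc (b (x + a) - b x) ^ 2
            ≤ 2 * ((b (x + a) - b z) ^ 2) + 2 * ((b x - b z) ^ 2) := by
              nlinarith [sq_nonneg ((b (x + a) - b z) + (b x - b z))]
          _ ≤ 2 * (κ⁻¹ * ((b (x + a) - b z) ^ 2 * kr n 1 (z - (x + a))))
              + 2 * (κ⁻¹ * ((b x - b z) ^ 2 * kr n 1 (z - x))) := by linarith
          _ = _ := by ring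
    have h2 : ∫ z in closedBall x 1,
        (2 * κ⁻¹) * ((b (x + a) - b z) ^ 2 * kr n 1 (z - (x + a))
          + (b x - b z) ^ 2 * kr n 1 (z - x)) =
        (2 * κ⁻¹) * ((∫ z in closedBall x 1, (b (x + a) - b z) ^ 2 * kr n 1 (z - (x + a)))
          + ∫ z in closedBall x 1, (b x - b z) ^ 2 * kr n 1 (z - x)) := by
      rw [integral_const_mul, integral_add (j1 _ hcb) (j2 _ hcb)]
    have h3 : ∫ z in closedBall x 1, (b (x + a) - b z) ^ 2 * kr n 1 (z - (x + a)) ≤ G (x + a) := by
      apply setIntegral_mono_set (j1 _ hKc)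
      · exact Filter.Eventually.of_forall fun z => mul_nonneg (sq_nonneg _) (kr_nonneg n 1 _)
      · exact Filter.Eventually.of_forall hsub
    have h4 : ∫ z in closedBall x 1, (b x - b z) ^ 2 * kr n 1 (z - x) ≤ G x := by
      apply setIntegral_mono_set (j2 _ hKc)
      · exact Filter.Eventually.of_forall fun z => mul_nonneg (sq_nonneg _) (kr_nonneg n 1 _)
      · exact Filter.Eventually.of_forall hsub
    have h5 : v * (b (x + a) - b x) ^ 2 ≤ 2 * κ⁻¹ * (G (x + a) + G x) := by
      rw [h2] at h1
      refine h1.trans ?_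
      apply mul_le_mul_of_nonneg_left _ (by positivity)
      linarith
    calc (b (x + a) - b x) ^ 2 = v⁻¹ * (v * (b (x + a) - b x) ^ 2) := by field_simp
      _ ≤ v⁻¹ * (2 * κ⁻¹ * (G (x + a) + G x)) :=
          mul_le_mul_of_nonneg_left h5 (by positivity)
      _ = _ := by ring
  have hGa : Continuous fun x : X n => G (x + a) := by fun_prop
  have hBc : IsCompact (closedBall (0 : X n) R) := isCompact_closedBall 0 R
  have hcb2 : Continuous fun x : X n => (b (x + a) - b x) ^ 2 := by fun_prop
  have hcb3 : Continuous fun x : X n => 2 * κ⁻¹ * v⁻¹ * (G (x + a) + G x) := by fun_prop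
  have hm : ∫ x in closedBall 0 R, (b (x + a) - b x) ^ 2 ≤
      ∫ x in closedBall 0 R, 2 * κ⁻¹ * v⁻¹ * (G (x + a) + G x) := by
    apply setIntegral_mono_on _ _ measurableSet_closedBall hpt
    · exact hcb2.continuousOn.integrableOn_compact hBc
    · exact hcb3.continuousOn.integrableOn_compact hBc
  have hsplit : ∫ x in closedBall 0 R, 2 * κ⁻¹ * v⁻¹ * (G (x + a) + G x) =
      2 * κ⁻¹ * v⁻¹ * ((∫ x in closedBall 0 R, G (x + a)) + ∫ x in closedBall 0 R, G x) := by
    rw [integral_const_mul, integral_add (hGa.continuousOn.integrableOn_compact hBc)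
      (hGc.continuousOn.integrableOn_compact hBc)]
  have hg2 : ∫ x in closedBall 0 R, G x ≤ ∫ x in K, G x := by
    apply setIntegral_mono_set (hGc.continuousOn.integrableOn_compact hKc)
    · exact Filter.Eventually.of_forall hG0
    · exact Filter.Eventually.of_forall hBK
  have hg1 : ∫ x in closedBall 0 R, G (x + a) ≤ ∫ x in K, G x := by
    have hmp : MeasurePreserving (fun x : X n => x + a) volume volume :=
      measurePreserving_add_right volume a
    have hme : MeasurableEmbedding (fun x : X n => x + a) :=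
      (Homeomorph.addRight a).measurableEmbedding
    have hpre : ∫ x in (fun x : X n => x + a) ⁻¹' K, G (x + a) = ∫ x in K, G x :=
      hmp.setIntegral_preimage_emb hme G K
    rw [← hpre]
    apply setIntegral_mono_set
    · have hpc : IsCompact ((fun x : X n => x + a) ⁻¹' K) :=
        (Homeomorph.addRight a).isCompact_preimage.2 hKc
      exact hGa.continuousOn.integrableOn_compact hpc
    · exact Filter.Eventually.of_forall fun x => hG0 _
    · refine Filter.Eventually.of_forall fun x hx => ?_
      have hx' : ‖x‖ ≤ R := by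
        have := mem_closedBall_zero_iff.1 hx
        exact this
      show x + a ∈ K
      rw [hK, mem_closedBall_zero_iff]
      have := norm_add_le x a
      linarith
  have hfinal : ∫ x in closedBall 0 R, (b (x + a) - b x) ^ 2 ≤
      2 * κ⁻¹ * v⁻¹ * ((∫ x in K, G x) + ∫ x in K, G x) := by
    rw [hsplit] at hm
    refine hm.trans ?_
    apply mul_le_mul_of_nonneg_left _ (by positivity)
    linarith
  refine hfinal.trans (le_of_eq ?_)
  ring

end Pool.Agent.RZ
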