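import Pool.Agent.RZ.F1
import Pool.Agent.RZ.Bl
import Pool.Agent.RZ.G1a

/-!
G1: Lebesgue measure on X n, differences.
vol_reg: volume (closedBall x r) = r^n volume (closedBall 0 1) (Measure.addHaar_closedBall).
eqL_shift: EqL is translation invariant for volume: Lam n eps volume (psi(. - h)) (y) = Lam n eps volume psi (y - h); linear in u (integrability: convL-type
weight, Gr.weight).
diff_energy: for z in closedBall x 1: |b(x+h)-b(x)|^2 <= 2|b(x+h)-b(z)|^2 + 2|b(z)-b(x)|^2, |x+h-z| <= |h|+1, and kr n 1 w >= kappa := (sqrt((|h|+1)^2+1))^{-(n+1)} for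
|w| <= |h|+1. Integrate over x in B_R, z in closedBall x 1 (volume v_n): v_n int_{B_R} |Delta_h b|^2 <= 4 kappa^{-1} iint_{B_{R+|h|+1}^2} (b(x)-b(z))^2 kr n 1 (x-z).
-/

set_option autoImplicit false

open MeasureTheory Filter Topology Metric Set
open scoped RealInnerProductSpace ENNReal

namespace Pool.Agent.RZ

variable {n : ℕ}

private theorem G1b_lam (n : ℕ) (ε : ℝ) (ψ : X n → ℝ) (a y : X n) :
    Lam n ε volume ψ y = Lam n ε volume (fun x => ψ (x + -a)) (y + a) := by
  unfold Lam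
  rw [← integral_add_right_eq_self
    (fun x => (ψ (y + a + -a) - ψ (x + -a)) * kr n ε (x - (y + a))) a]
  refine integral_congr_ae (Filter.Eventually.of_forall fun x => ?_)
  simp only [add_neg_cancel_right, add_sub_add_right_eq_sub]

theorem eqL_shift (hn : 1 ≤ n) {b : X n → ℝ} (hb : Continuous b) (h : EqL n volume b) (a : X n) :
    EqL n volume fun x => b (x + a) := by
  intro L ρ ψ hψ h0
  have h1 : Tst (max L 0) (ρ + ‖-a‖) (fun x => ψ (x + -a)) :=
    (hψ.mono (le_max_left L 0) le_rfl).translate (le_max_right L 0) (-a)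
  have h2 : ∫ x, ψ (x + -a) = 0 := by
    rw [integral_add_right_eq_self ψ (-a)]
    exact h0
  have h3 := h _ _ _ h1 h2
  refine h3.congr fun ε => ?_
  rw [← integral_add_right_eq_self (fun y => b y * Lam n ε volume (fun x => ψ (x + -a)) y) a]
  refine integral_congr_ae (Filter.Eventually.of_forall fun y => ?_)
  simp only
  rw [← G1b_lam n ε ψ a y]

private theorem G1b_int (hn : 1 ≤ n) {b : X n → ℝ} (hb : Continuous b) {M : ℝ} (hM : 0 ≤ M)
    (hbM : ∀ r, 1 ≤ r → ∫ y in closedBall 0 r, b y ^ 2 ≤ M * r ^ (n + 3)) {L ρ : ℝ}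
    {ψ : X n → ℝ} (hψ : Tst L ρ ψ) (h0 : ∫ x, ψ x = 0) {ε : ℝ} (hε : 0 < ε) :
    Integrable (fun y => b y * Lam n ε volume ψ y) := by
  obtain ⟨C, hC, hG, -⟩ := vol_reg n
  obtain ⟨A, hA, hw⟩ := Gr.weight (d := n) n hn
  have hi := (hw C (by linarith) volume hG b hb M hM hbM).1
  have hψ' : Tst (max L 0) (max ρ 1) ψ := hψ.mono (le_max_left L 0) (le_max_left ρ 1)
  obtain ⟨B, hB, hl⟩ := lam_bound (d := n) n hn hn C (max L 0) (max ρ 1) ε (by linarith)
    (le_max_right L 0) (lt_of_lt_of_le one_pos (le_max_right ρ 1)) hε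
  have hc : Continuous (Lam n ε volume ψ) := lam_continuous hn (by linarith) hG hε hψ
  refine (hi.const_mul B).mono' (hb.mul hc).aestronglyMeasurable
    (Filter.Eventually.of_forall fun y => ?_)
  rw [norm_mul, Real.norm_eq_abs, Real.norm_eq_abs]
  calc |b y| * |Lam n ε volume ψ y| ≤ |b y| * (B * (1 + ‖y‖)⁻¹ ^ (n + 2)) :=
        mul_le_mul_of_nonneg_left (hl volume hG ψ hψ' h0 y) (abs_nonneg _)
    _ = B * (|b y| * (1 + ‖y‖)⁻¹ ^ (n + 2)) := by ring

theorem eqL_diff (hn : 1 ≤ n) {b : X n → ℝ} (hb : Continuous b) {M : ℝ} (hM : 0 ≤ M)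
    (hbM : ∀ r, 1 ≤ r → ∫ y in closedBall 0 r, b y ^ 2 ≤ M * r ^ (n + 3))
    (h : EqL n volume b) (a : X n) : EqL n volume fun x => b (x + a) - b x := by
  intro L ρ ψ hψ h0
  have h1 := (eqL_shift hn hb h a L ρ ψ hψ h0).sub (h L ρ ψ hψ h0)
  rw [sub_zero] at h1
  refine h1.congr' ?_
  filter_upwards [self_mem_nhdsWithin] with ε hε
  have hε' : 0 < ε := hε
  have i1 : Integrable (fun y => b y * Lam n ε volume ψ y) := G1b_int hn hb hM hbM hψ h0 hε'
  have hψ2 : Tst (max L 0) (ρ + ‖-a‖) (fun x => ψ (x + -a)) :=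
    (hψ.mono (le_max_left L 0) le_rfl).translate (le_max_right L 0) (-a)
  have h2 : ∫ x, ψ (x + -a) = 0 := by
    rw [integral_add_right_eq_self ψ (-a)]
    exact h0
  have i2 : Integrable (fun y => b (y + a) * Lam n ε volume ψ y) := by
    have i3 := (G1b_int hn hb hM hbM hψ2 h2 hε').comp_add_right a
    refine i3.congr (Filter.Eventually.of_forall fun y => ?_)
    simp only
    rw [← G1b_lam n ε ψ a y]
  rw [← integral_sub i2 i1]
  refine integral_congr_ae (Filter.Eventually.of_forall fun y => ?_)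
  simp only
  ring

end Pool.Agent.RZ
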