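import Pool.Agent.RZ.G1

/-!
G2: iterated differences vanish.
diffs b l = iterated difference of b along the list l. Claim by induction on l: b_l := diffs b l is LL, EqL, and there is M_l with
R^{l.length} int_{B_R} b_l^2 <= M_l R^{n+3} for all R >= 1 (as long as l.length <= n + 4).
Step: caccioppoli with S = M_l R'^{n+3}/R'^{l.length}, R' = R+|a|+1 (for r >= R': int_{B_r} b_l^2 <= M_l r^{n+3}/r^{len} <= S (r/R')^{n+3}), eps = 1, then diff_energy:
int_{B_R} (Delta_a b_l)^2 <= A A' M_l R'^{n+3}/R'^{len+1} <= const R^{n+3}/R^{len+1}, since R <= R' <= (|a|+2) R.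
For l.length = n+4: int_{B_R} b_l^2 <= M/R for all R >= 1, so = 0, b_l = 0 by continuity.
-/

set_option autoImplicit false

open MeasureTheory Filter Topology Metric Set
open scoped RealInnerProductSpace ENNReal

namespace Pool.Agent.RZ

variable {n : ℕ}

/-- iterated differences -/
def diffs (b : X n → ℝ) : List (X n) → X n → ℝ
  | [] => b
  | a :: l => fun x => diffs b l (x + a) - diffs b l x

private theorem G2_sub {b : X n → ℝ} (hb : LL b) (a : X n) : LL fun x => b (x + a) - b x := by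
  intro R
  obtain ⟨L1, h1⟩ := hb (R + ‖a‖)
  obtain ⟨L2, h2⟩ := hb R
  refine ⟨L1 + L2, fun x hx y hy => ?_⟩
  have hx' : ‖x‖ ≤ R := mem_closedBall_zero_iff.1 hx
  have hy' : ‖y‖ ≤ R := mem_closedBall_zero_iff.1 hy
  have e1 := h1 (x + a) (mem_closedBall_zero_iff.2 ((norm_add_le _ _).trans (by linarith)))
    (y + a) (mem_closedBall_zero_iff.2 ((norm_add_le _ _).trans (by linarith)))
  have e2 := h2 x hx y hy
  rw [add_sub_add_right_eq_sub] at e1
  have e3 : b (x + a) - b x - (b (y + a) - b y) = (b (x + a) - b (y + a)) - (b x - b y) := by ring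
  rw [e3]
  refine (abs_sub _ _).trans ?_
  rw [add_mul]
  exact add_le_add e1 e2

private theorem G2_step (hn : 1 ≤ n) (a : X n) {b : X n → ℝ} (hb : LL b) {M : ℝ} (hM : 0 ≤ M)
    (k : ℕ) (hbM : ∀ R, 1 ≤ R → R ^ k * ∫ y in closedBall 0 R, b y ^ 2 ≤ M * R ^ (n + 3))
    (h : EqL n volume b) :
    (EqL n volume fun x => b (x + a) - b x) ∧ ∃ M', 0 ≤ M' ∧
      ∀ R, 1 ≤ R → R ^ (k + 1) * ∫ y in closedBall 0 R, (b (y + a) - b y) ^ 2 ≤
        M' * R ^ (n + 3) := by
  have hnn : ∀ R, 0 ≤ ∫ y in closedBall (0 : X n) R, b y ^ 2 := fun R =>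
    integral_nonneg fun _ => sq_nonneg _
  have hbM' : ∀ r, 1 ≤ r → ∫ y in closedBall 0 r, b y ^ 2 ≤ M * r ^ (n + 3) := by
    intro r hr
    refine le_trans ?_ (hbM r hr)
    exact le_mul_of_one_le_left (hnn r) (one_le_pow₀ hr)
  refine ⟨eqL_diff hn hb.continuous hM hbM' h a, ?_⟩
  obtain ⟨C, hC1, hCg, hCl⟩ := vol_reg n
  obtain ⟨A, hA, hAc⟩ := caccioppoli (d := n) n hn (by omega) C hC1
  obtain ⟨A', hA', hAd⟩ := diff_energy hn a
  refine ⟨A' * (A * M) * (‖a‖ + 2) ^ (n + 3), by positivity, fun R hR => ?_⟩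
  have hR0 : 0 < R := by linarith
  have ha0 : 0 ≤ ‖a‖ := norm_nonneg a
  set R' := R + ‖a‖ + 1 with hR'
  have hR'1 : 1 ≤ R' := by linarith
  have hR'0 : 0 < R' := by linarith
  have hRR' : R ≤ R' := by linarith
  have hR'R : R' ≤ (‖a‖ + 2) * R := by nlinarith
  set S := M * R' ^ (n + 3) / R' ^ k with hS
  have hS0 : 0 ≤ S := by positivity
  have h1 : ∀ r, R' ≤ r → ∫ y in closedBall 0 r, b y ^ 2 ≤ S * (r / R') ^ (n + 3) := by
    intro r hr
    have hr0 : 0 < r := by linarith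
    have h2 := hbM r (by linarith)
    have h3 : ∫ y in closedBall 0 r, b y ^ 2 ≤ M * r ^ (n + 3) / r ^ k := by
      rw [le_div_iff₀ (by positivity)]
      linarith
    refine h3.trans ?_
    have h4 : S * (r / R') ^ (n + 3) = M * r ^ (n + 3) / R' ^ k := by
      rw [hS, div_pow]
      field_simp
    rw [h4]
    exact div_le_div_of_nonneg_left (by positivity) (by positivity)
      (pow_le_pow_left₀ hR'0.le hr k)
  have h2 := hAc volume hCg (fun r hr => hCl 0 r hr) b hb h S R' hS0 hR'1 h1 1 one_pos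
  have h3 := hAd b hb.continuous R hR
  have h4 : ∫ y in closedBall 0 R, (b (y + a) - b y) ^ 2 ≤ A' * (A * S / R') :=
    h3.trans (mul_le_mul_of_nonneg_left h2 hA'.le)
  have h5 : A' * (A * S / R') = A' * (A * M) * R' ^ (n + 3) / R' ^ (k + 1) := by
    rw [hS]
    field_simp
    ring
  rw [h5] at h4
  calc R ^ (k + 1) * ∫ y in closedBall 0 R, (b (y + a) - b y) ^ 2
      ≤ R ^ (k + 1) * (A' * (A * M) * R' ^ (n + 3) / R' ^ (k + 1)) :=
        mul_le_mul_of_nonneg_left h4 (by positivity)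
    _ = A' * (A * M) * R' ^ (n + 3) * (R ^ (k + 1) / R' ^ (k + 1)) := by ring
    _ ≤ A' * (A * M) * R' ^ (n + 3) * 1 := by
        refine mul_le_mul_of_nonneg_left ?_ (by positivity)
        rw [div_le_one (by positivity)]
        exact pow_le_pow_left₀ hR0.le hRR' _
    _ = A' * (A * M) * R' ^ (n + 3) := mul_one _
    _ ≤ A' * (A * M) * ((‖a‖ + 2) * R) ^ (n + 3) := by
        refine mul_le_mul_of_nonneg_left ?_ (by positivity)
        exact pow_le_pow_left₀ hR'0.le hR'R _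
    _ = A' * (A * M) * (‖a‖ + 2) ^ (n + 3) * R ^ (n + 3) := by rw [mul_pow]; ring

private theorem G2_main (hn : 1 ≤ n) {b : X n → ℝ} (hb : LL b) {M : ℝ} (hM : 0 ≤ M)
    (hbM : ∀ r, 1 ≤ r → ∫ y in closedBall 0 r, b y ^ 2 ≤ M * r ^ (n + 3))
    (h : EqL n volume b) (l : List (X n)) :
    LL (diffs b l) ∧ EqL n volume (diffs b l) ∧ ∃ M', 0 ≤ M' ∧
      ∀ R, 1 ≤ R → R ^ l.length * ∫ y in closedBall 0 R, (diffs b l y) ^ 2 ≤
        M' * R ^ (n + 3) := by
  induction l with
  | nil =>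
    refine ⟨hb, h, M, hM, fun R hR => ?_⟩
    have h1 := hbM R hR
    simpa [diffs] using h1
  | cons a l ih =>
    obtain ⟨h1, h2, M', hM', h3⟩ := ih
    obtain ⟨h4, M'', hM'', h5⟩ := G2_step hn a h1 hM' l.length h3 h2
    exact ⟨G2_sub h1 a, h4, M'', hM'', h5⟩

theorem diffs_vanish (hn : 1 ≤ n) {b : X n → ℝ} (hb : LL b) {M : ℝ} (hM : 0 ≤ M)
    (hbM : ∀ r, 1 ≤ r → ∫ y in closedBall 0 r, b y ^ 2 ≤ M * r ^ (n + 3))
    (h : EqL n volume b) (l : List (X n)) (hl : l.length = n + 4) (x : X n) :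
    diffs b l x = 0 := by
  obtain ⟨h1, -, M', hM', h3⟩ := G2_main hn hb hM hbM h l
  have hc : Continuous (diffs b l) := h1.continuous
  have h4 : ∀ R, 1 ≤ R → ∫ y in closedBall 0 R, (diffs b l y) ^ 2 ≤ M' / R := by
    intro R hR
    have hR0 : 0 < R := by linarith
    have h5 := h3 R hR
    rw [hl] at h5
    rw [le_div_iff₀ hR0]
    have h6 : R ^ (n + 3) * (R * ∫ y in closedBall 0 R, (diffs b l y) ^ 2) ≤
        R ^ (n + 3) * M' := by
      calc R ^ (n + 3) * (R * ∫ y in closedBall 0 R, (diffs b l y) ^ 2)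
          = R ^ (n + 4) * ∫ y in closedBall 0 R, (diffs b l y) ^ 2 := by ring
        _ ≤ M' * R ^ (n + 3) := h5
        _ = R ^ (n + 3) * M' := mul_comm _ _
    have h7 := le_of_mul_le_mul_left h6 (by positivity)
    linarith
  set R₀ := ‖x‖ + 1 with hR₀
  have hint : ∀ R, IntegrableOn (fun y => (diffs b l y) ^ 2) (closedBall 0 R) volume := fun R =>
    (hc.pow 2).continuousOn.integrableOn_compact (isCompact_closedBall _ _)
  have h5 : ∫ y in closedBall 0 R₀, (diffs b l y) ^ 2 ≤ 0 := by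
    have h6 : Tendsto (fun R : ℝ => M' / R) atTop (𝓝 0) := tendsto_const_nhds.div_atTop tendsto_id
    refine ge_of_tendsto h6 ?_
    filter_upwards [eventually_ge_atTop R₀, eventually_ge_atTop 1] with R hR hR1
    refine le_trans ?_ (h4 R hR1)
    exact setIntegral_mono_set (hint R) (Eventually.of_forall fun _ => sq_nonneg _)
      (closedBall_subset_closedBall hR).eventuallyLE
  have h6 : ∫ y in closedBall 0 R₀, (diffs b l y) ^ 2 = 0 :=
    le_antisymm h5 (integral_nonneg fun _ => sq_nonneg _)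
  have h7 : (fun y => (diffs b l y) ^ 2) =ᵐ[volume.restrict (closedBall (0 : X n) R₀)] 0 :=
    (integral_eq_zero_iff_of_nonneg (fun _ => sq_nonneg _) (hint R₀)).1 h6
  have h8 : (fun y => (diffs b l y) ^ 2) =ᵐ[volume.restrict (ball (0 : X n) R₀)] 0 :=
    ae_restrict_of_ae_restrict_of_subset ball_subset_closedBall h7
  have h9 := Measure.eqOn_open_of_ae_eq h8 isOpen_ball (hc.pow 2).continuousOn
    continuousOn_const
  have hx : x ∈ ball (0 : X n) R₀ := by
    rw [mem_ball_zero_iff]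
    linarith
  have h10 : (diffs b l x) ^ 2 = 0 := h9 hx
  exact pow_eq_zero_iff (two_ne_zero) |>.1 h10

end Pool.Agent.RZ
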