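import Pool.Agent.RZ.Defs

/-!
G3: pure algebra and growth. `dfs b l` iterated differences (same definition as in G2; here on its own).
(1) dfs is independent of the order (commuting differences): dfs b (a :: c :: l) = dfs b (c :: a :: l), hence dfs b (a :: l) x = dfs (fun y => b (y + a) - b y) l x.
(2) If all (N+1)-fold differences of f vanish then for l of length N: dfs f (l.map (2 * .)) x = 2^N dfs f l x. Induction on l as in: Delta_{2a} F = Delta_a F(.+a) + Delta_a F.
(3) growth: int_{B_R} b^2 <= M R^{n+3} (R >= 1). For l of length N >= 2 with dfs b l = const = c: dfs b (2^k l) = 2^{kN} c, and with R = 2^k: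
 vol(B_R) 2^{2kN} c^2 = int_{B_R} (dfs b (2^k l))^2 <= 4^N sum over subsets int_{B_R} b(. + sum)^2 <= A (2^k)^{n+3}: c^2 2^{k(2N-3)} <= A for all k, so c = 0.
(4) so all N-fold differences vanish for N = n+4, n+3, ..., 2. Then g = b - b 0 satisfies g(x+y) = g(x) + g(y), continuous, so linear (AddMonoidHom.toRealLinearMap),
 represented by an inner product (InnerProductSpace.toDual).
-/

set_option autoImplicit false

open MeasureTheory Filter Topology Metric Set
open scoped RealInnerProductSpace ENNReal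

namespace Pool.Agent.RZ

variable {n : ℕ}

/-- iterated differences -/
def dfs (b : X n → ℝ) : List (X n) → X n → ℝ
  | [] => b
  | a :: l => fun x => dfs b l (x + a) - dfs b l x

private theorem dfs_cont {b : X n → ℝ} (hb : Continuous b) (l : List (X n)) :
    Continuous (dfs b l) := by
  induction l with
  | nil => exact hb
  | cons a l ih =>
    have h1 : Continuous fun x => dfs b l (x + a) := ih.comp (continuous_id.add continuous_const)
    exact h1.sub ih

private theorem dfs_intOn {f : X n → ℝ} (hf : Continuous f) (x : X n) (r : ℝ) :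
    IntegrableOn (fun y => f y ^ 2) (closedBall x r) volume :=
  (hf.pow 2).continuousOn.integrableOn_compact (isCompact_closedBall x r)

private theorem dfs_shift {f : X n → ℝ} (hf : Continuous f) (a : X n) (r : ℝ) :
    ∫ x in closedBall 0 r, f (x + a) ^ 2 ≤ ∫ x in closedBall 0 (r + ‖a‖), f x ^ 2 := by
  have h1 : ∫ x in closedBall 0 r, f (x + a) ^ 2 = ∫ y in closedBall a r, f y ^ 2 := by
    have hp : MeasurePreserving (fun x : X n => x + a) volume volume :=
      measurePreserving_add_right volume a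
    have he : MeasurableEmbedding (fun x : X n => x + a) :=
      (MeasurableEquiv.addRight a).measurableEmbedding
    have h2 := hp.setIntegral_preimage_emb he (fun y => f y ^ 2) (closedBall a r)
    have h3 : (fun x : X n => x + a) ⁻¹' closedBall a r = closedBall 0 r := by
      ext x
      simp [mem_closedBall, dist_eq_norm]
    rw [h3] at h2
    exact h2
  rw [h1]
  refine setIntegral_mono_set (dfs_intOn hf _ _) ?_ ?_
  · exact Filter.Eventually.of_forall fun x => sq_nonneg _
  · refine LE.le.eventuallyLE ?_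
    intro y hy
    rw [mem_closedBall, dist_eq_norm] at hy
    rw [mem_closedBall, dist_zero_right]
    calc ‖y‖ = ‖(y - a) + a‖ := by rw [sub_add_cancel]
      _ ≤ ‖y - a‖ + ‖a‖ := norm_add_le _ _
      _ ≤ r + ‖a‖ := by linarith

private theorem dfs_growth {b : X n → ℝ} (hb : Continuous b) {M : ℝ} (hM : 0 ≤ M)
    (hbM : ∀ r, 1 ≤ r → ∫ y in closedBall 0 r, b y ^ 2 ≤ M * r ^ (n + 3)) (l : List (X n)) :
    ∀ r : ℝ, 1 ≤ r → ∫ y in closedBall 0 r, dfs b l y ^ 2 ≤
      4 ^ l.length * M * (r + (l.map fun a => ‖a‖).sum) ^ (n + 3) := by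
  induction l with
  | nil =>
    intro r hr
    have := hbM r hr
    simpa [dfs] using this
  | cons a l ih =>
    intro r hr
    have hs0 : 0 ≤ (l.map fun a => ‖a‖).sum := by
      apply List.sum_nonneg
      intro x hx
      rw [List.mem_map] at hx
      obtain ⟨y, -, rfl⟩ := hx
      exact norm_nonneg y
    have hcl := dfs_cont hb l
    have h1 : ∫ y in closedBall 0 r, dfs b (a :: l) y ^ 2 ≤
        ∫ y in closedBall 0 r, (2 * dfs b l (y + a) ^ 2 + 2 * dfs b l y ^ 2) := by
      refine setIntegral_mono (dfs_intOn (dfs_cont hb (a :: l)) 0 r) ?_ ?_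
      · have hc : Continuous fun y => dfs b l (y + a) := hcl.comp (continuous_id.add continuous_const)
        exact ((dfs_intOn hc 0 r).const_mul 2).add ((dfs_intOn hcl 0 r).const_mul 2)
      · intro y
        show (dfs b l (y + a) - dfs b l y) ^ 2 ≤ 2 * dfs b l (y + a) ^ 2 + 2 * dfs b l y ^ 2
        nlinarith [sq_nonneg (dfs b l (y + a) + dfs b l y)]
    have h2 : ∫ y in closedBall 0 r, (2 * dfs b l (y + a) ^ 2 + 2 * dfs b l y ^ 2) =
        2 * (∫ y in closedBall 0 r, dfs b l (y + a) ^ 2) +
          2 * (∫ y in closedBall 0 r, dfs b l y ^ 2) := by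
      have hc : Continuous fun y => dfs b l (y + a) := hcl.comp (continuous_id.add continuous_const)
      rw [integral_add ((dfs_intOn hc 0 r).const_mul 2) ((dfs_intOn hcl 0 r).const_mul 2),
        integral_const_mul, integral_const_mul]
    have h3 := dfs_shift hcl a r
    have h4 := ih (r + ‖a‖) (by have := norm_nonneg a; linarith)
    have h5 := ih r hr
    have h6 : (r + (l.map fun a => ‖a‖).sum) ^ (n + 3) ≤
        (r + ‖a‖ + (l.map fun a => ‖a‖).sum) ^ (n + 3) := by
      have := norm_nonneg a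
      exact pow_le_pow_left₀ (by linarith) (by linarith) _
    have h7 : (0 : ℝ) ≤ 4 ^ l.length * M := by positivity
    have h8 := mul_le_mul_of_nonneg_left h6 h7
    have h9 : ((a :: l).map fun a => ‖a‖).sum = ‖a‖ + (l.map fun a => ‖a‖).sum := by simp
    rw [h9, ← add_assoc, List.length_cons, pow_succ]
    have h10 : 4 ^ l.length * 4 * M * (r + ‖a‖ + (l.map fun a => ‖a‖).sum) ^ (n + 3) =
      2 * (4 ^ l.length * M * (r + ‖a‖ + (l.map fun a => ‖a‖).sum) ^ (n + 3)) +
      2 * (4 ^ l.length * M * (r + ‖a‖ + (l.map fun a => ‖a‖).sum) ^ (n + 3)) := by ring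
    rw [h10]
    linarith

private theorem dfs_swap (b : X n → ℝ) (a c : X n) (l : List (X n)) (x : X n) :
    dfs b (a :: c :: l) x = dfs b (c :: a :: l) x := by
  simp only [dfs]
  rw [show x + a + c = x + c + a by abel]
  ring

private theorem dfs_const {b : X n → ℝ} {K : ℕ}
    (h : ∀ l : List (X n), l.length = K + 1 → ∀ x, dfs b l x = 0) (l : List (X n))
    (hl : l.length = K) (x : X n) : dfs b l x = dfs b l 0 := by
  have := h (x :: l) (by simp [hl]) 0
  simp only [dfs, zero_add] at this
  linarith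

private theorem dfs_scale {b : X n → ℝ} {K : ℕ}
    (h : ∀ l : List (X n), l.length = K + 1 → ∀ x, dfs b l x = 0) (a : X n) (l : List (X n))
    (hl : l.length + 1 = K) (m : ℕ) : dfs b (((m : ℝ) • a) :: l) 0 = m * dfs b (a :: l) 0 := by
  have key : ∀ m : ℕ, dfs b l ((m : ℝ) • a) - dfs b l 0 = m * dfs b (a :: l) 0 := by
    intro m
    induction m with
    | zero => simp
    | succ m ih =>
      have h1 := dfs_const h (a :: l) (by simp [hl]) ((m : ℝ) • a)
      have h2 : dfs b (a :: l) ((m : ℝ) • a) = dfs b l ((m : ℝ) • a + a) - dfs b l ((m : ℝ) • a) := rfl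
      have h3 : ((m + 1 : ℕ) : ℝ) • a = (m : ℝ) • a + a := by
        push_cast
        rw [add_smul, one_smul]
      rw [h3]
      push_cast
      linarith
  have h4 : dfs b (((m : ℝ) • a) :: l) 0 = dfs b l (0 + (m : ℝ) • a) - dfs b l 0 := rfl
  rw [h4, zero_add]
  exact key m

private theorem dfs_descend (hn : 1 ≤ n) {b : X n → ℝ} (hb : Continuous b) {M : ℝ} (hM : 0 ≤ M)
    (hbM : ∀ r, 1 ≤ r → ∫ y in closedBall 0 r, b y ^ 2 ≤ M * r ^ (n + 3)) {K : ℕ}
    (h : ∀ l : List (X n), l.length = K + 2 + 1 → ∀ x, dfs b l x = 0) :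
    ∀ l : List (X n), l.length = K + 2 → ∀ x, dfs b l x = 0 := by
  intro l hl x
  rw [dfs_const h l hl x]
  match l, hl with
  | a :: c :: l, hl =>
    have hl' : l.length = K := by simpa using hl
    set κ := dfs b (a :: c :: l) 0 with hκ
    -- scaling in two directions
    have hsc : ∀ m : ℕ, ∀ x, dfs b (((m : ℝ) • a) :: ((m : ℝ) • c) :: l) x = m * (m * κ) := by
      intro m x
      rw [dfs_const h _ (by simp [hl']) x, dfs_swap, dfs_scale h c _ (by simp [hl']), dfs_swap,
        dfs_scale h a _ (by simp [hl'])]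
    set S := 1 + ‖a‖ + ‖c‖ + (l.map fun a => ‖a‖).sum with hS
    have hs0 : 0 ≤ (l.map fun a => ‖a‖).sum := by
      apply List.sum_nonneg
      intro x hx
      rw [List.mem_map] at hx
      obtain ⟨y, -, rfl⟩ := hx
      exact norm_nonneg y
    have hS0 : 0 ≤ S := by positivity
    set V := (volume (closedBall (0 : X n) 1)).toReal with hV
    have hV0 : 0 < V := by
      rw [hV]
      refine ENNReal.toReal_pos ?_ ?_
      · exact (measure_closedBall_pos volume (0 : X n) one_pos).ne'
      · exact measure_closedBall_lt_top.ne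
    have hvol : ∀ m : ℕ, (volume (closedBall (0 : X n) (m : ℝ))).toReal = (m : ℝ) ^ n * V := by
      intro m
      have h1 := Measure.addHaar_closedBall (volume : Measure (X n)) 0 (r := (m : ℝ)) (by positivity)
      have h2 := Measure.addHaar_closedBall (volume : Measure (X n)) 0 (r := (1 : ℝ)) (by positivity)
      rw [finrank_euclideanSpace, Fintype.card_fin] at h1 h2
      rw [one_pow, ENNReal.ofReal_one, one_mul] at h2
      rw [h1, hV, h2, ENNReal.toReal_mul, ENNReal.toReal_ofReal (by positivity)]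
    have hmain : ∀ m : ℕ, 1 ≤ m → (m : ℝ) * (V * κ ^ 2) ≤ 4 ^ (K + 2) * M * S ^ (n + 3) := by
      intro m hm
      have hm1 : (1 : ℝ) ≤ m := by exact_mod_cast hm
      have h1 := dfs_growth hb hM hbM (((m : ℝ) • a) :: ((m : ℝ) • c) :: l) m hm1
      have h2 : ∫ y in closedBall 0 (m : ℝ), dfs b (((m : ℝ) • a) :: ((m : ℝ) • c) :: l) y ^ 2 =
          (m : ℝ) ^ n * V * (m * (m * κ)) ^ 2 := by
        simp only [hsc m]
        rw [setIntegral_const, smul_eq_mul]
        congr 1
        exact hvol m
      have h3 : ((m : ℝ) + ((((m : ℝ) • a) :: ((m : ℝ) • c) :: l).map fun a => ‖a‖).sum) ≤ m * S := by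
        simp only [List.map_cons, List.sum_cons, norm_smul, Real.norm_natCast]
        rw [hS]
        nlinarith
      have h4 : (0 : ℝ) ≤ (m : ℝ) + ((((m : ℝ) • a) :: ((m : ℝ) • c) :: l).map fun a => ‖a‖).sum := by
        simp only [List.map_cons, List.sum_cons, norm_smul, Real.norm_natCast]
        positivity
      have h5 := pow_le_pow_left₀ h4 h3 (n + 3)
      have h6 : (((m : ℝ) • a) :: ((m : ℝ) • c) :: l).length = K + 2 := by simp [hl']
      rw [h2, h6] at h1
      have h7 : (0 : ℝ) ≤ 4 ^ (K + 2) * M := by positivity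
      have h8 := mul_le_mul_of_nonneg_left h5 h7
      have h9 : (m : ℝ) ^ n * V * (m * (m * κ)) ^ 2 = (m : ℝ) ^ (n + 3) * (m * (V * κ ^ 2)) := by ring
      have h10 : 4 ^ (K + 2) * M * (m * S) ^ (n + 3) =
        (m : ℝ) ^ (n + 3) * (4 ^ (K + 2) * M * S ^ (n + 3)) := by
        rw [mul_pow]; ring
      rw [h9] at h1
      rw [h10] at h8
      have h11 : (0 : ℝ) < (m : ℝ) ^ (n + 3) := by positivity
      exact le_of_mul_le_mul_left (h1.trans h8) h11
    by_contra hne
    have hpos : 0 < V * κ ^ 2 := by positivity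
    obtain ⟨m, hm⟩ := exists_nat_gt (4 ^ (K + 2) * M * S ^ (n + 3) / (V * κ ^ 2))
    rw [div_lt_iff₀ hpos] at hm
    have h1 := hmain (m + 1) (by omega)
    push_cast at h1
    linarith

private theorem dfs_mono {b : X n → ℝ} {N : ℕ}
    (h : ∀ l : List (X n), l.length = N → ∀ x, dfs b l x = 0) :
    ∀ l : List (X n), l.length = N + 1 → ∀ x, dfs b l x = 0 := by
  intro l hl x
  match l, hl with
  | a :: l, hl =>
    have h1 : l.length = N := by simpa using hl
    show dfs b l (x + a) - dfs b l x = 0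
    rw [h l h1, h l h1, sub_zero]

private theorem dfs_two (hn : 1 ≤ n) {b : X n → ℝ} (hb : Continuous b) {M : ℝ} (hM : 0 ≤ M)
    (hbM : ∀ r, 1 ≤ r → ∫ y in closedBall 0 r, b y ^ 2 ≤ M * r ^ (n + 3)) (K : ℕ)
    (h : ∀ l : List (X n), l.length = K + 2 → ∀ x, dfs b l x = 0) :
    ∀ l : List (X n), l.length = 2 → ∀ x, dfs b l x = 0 := by
  induction K with
  | zero => exact h
  | succ K ih => exact ih (dfs_descend hn hb hM hbM h)

theorem affine_of_dfs (hn : 1 ≤ n) {b : X n → ℝ} (hb : Continuous b) {M : ℝ} (hM : 0 ≤ M)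
    (hbM : ∀ r, 1 ≤ r → ∫ y in closedBall 0 r, b y ^ 2 ≤ M * r ^ (n + 3)) {N : ℕ}
    (h : ∀ l : List (X n), l.length = N → ∀ x, dfs b l x = 0) :
    ∃ (c : ℝ) (w : X n), ∀ x, b x = c + ⟪w, x⟫ := by
  have h2 : ∀ l : List (X n), l.length = 2 → ∀ x, dfs b l x = 0 :=
    dfs_two hn hb hM hbM N (dfs_mono (dfs_mono h))
  have hadd : ∀ x y, b (x + y) - b 0 = (b x - b 0) + (b y - b 0) := by
    intro x y
    have h3 := h2 [x, y] rfl 0
    simp only [dfs, zero_add] at h3
    linarith
  let g : X n →+ ℝ :=
    { toFun := fun x => b x - b 0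
      map_zero' := sub_self _
      map_add' := hadd }
  have hg : Continuous g := hb.sub continuous_const
  let L := g.toRealLinearMap hg
  refine ⟨b 0, (InnerProductSpace.toDual ℝ (X n)).symm L, fun x => ?_⟩
  rw [InnerProductSpace.toDual_symm_apply]
  show b x = b 0 + (b x - b 0)
  ring

end Pool.Agent.RZ
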