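import Pool.Agent.RZ.G2
import Pool.Agent.RZ.G3

/-!
G4: the Liouville theorem (assembly: diffs = dfs by induction/rfl).
-/

set_option autoImplicit false

open MeasureTheory Filter Topology Metric Set
open scoped RealInnerProductSpace ENNReal

namespace Pool.Agent.RZ

variable {n : ℕ}

theorem liouville (hn : 1 ≤ n) {b : X n → ℝ} (hb : LL b) {M : ℝ} (hM : 0 ≤ M)
    (hbM : ∀ r, 1 ≤ r → ∫ y in closedBall 0 r, b y ^ 2 ≤ M * r ^ (n + 3))
    (h : EqL n volume b) : ∃ (c : ℝ) (w : X n), ∀ x, b x = c + ⟪w, x⟫ := by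
  refine affine_of_dfs hn hb.continuous hM hbM (N := n + 4) fun l hl x => ?_
  have key : ∀ l : List (X n), dfs b l = diffs b l := by
    intro l
    induction l with
    | nil => rfl
    | cons a l ih => simp only [dfs, diffs, ih]
  rw [key]
  exact diffs_vanish hn hb hM hbM h l hl x

end Pool.Agent.RZ
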