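import Pool.Agent.RZ.K1
import Pool.Agent.RZ.Ct

/-!
Gr1: integrals of powers against a measure with growth.
All by dyadic annuli. near: on 2^{-j-1} r < |y-x| <= 2^{-j} r the integrand |z|^2 kr <= |z|^{1-n} (|z| = 0: zero)
is at most (2^{-j-1} r)^{1-n}, the mass is at most C (2^{-j} r)^n.
tail: on 2^j r <= |y-x| < 2^{j+1} r.
For the lintegral versions the measure of an annulus is bounded by the measure of the closed ball.
-/

set_option autoImplicit false

open MeasureTheory Filter Topology Metric Set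
open scoped RealInnerProductSpace ENNReal

namespace Pool.Agent.RZ

variable {d : ℕ}

theorem Gr.finite {n : ℕ} {C : ℝ} {ν : Measure (X d)} (h : Gr n C ν) (x : X d) (r : ℝ) :
    ν (closedBall x r) < ⊤ := by
  have h1 := h x (max r 1) (lt_of_lt_of_le one_pos (le_max_right r 1))
  have h2 : ν (closedBall x r) ≤ ν (closedBall x (max r 1)) :=
    measure_mono (closedBall_subset_closedBall (le_max_left r 1))
  exact lt_of_le_of_lt (h2.trans h1) ENNReal.ofReal_lt_top

theorem Gr.isLocallyFinite {n : ℕ} {C : ℝ} {ν : Measure (X d)} (h : Gr n C ν) :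
    IsLocallyFiniteMeasure ν :=
  ⟨fun x => ⟨closedBall x 1, closedBall_mem_nhds x one_pos, h.finite x 1⟩⟩

theorem Gr.real_le {n : ℕ} {C : ℝ} (hC : 0 ≤ C) {ν : Measure (X d)} (h : Gr n C ν) (x : X d)
    {r : ℝ} (hr : 0 < r) : ν.real (closedBall x r) ≤ C * r ^ n :=
  ENNReal.toReal_le_of_le_ofReal (by positivity) (h x r hr)

theorem Gr.mono {n : ℕ} {C C' : ℝ} (hCC : C ≤ C') {ν : Measure (X d)} (h : Gr n C ν) :
    Gr n C' ν := by
  intro x r hr
  refine (h x r hr).trans (ENNReal.ofReal_le_ofReal ?_)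
  exact mul_le_mul_of_nonneg_right hCC (pow_nonneg hr.le n)

/-- points have measure zero -/
theorem Gr.singleton {n : ℕ} (hn : 1 ≤ n) {C : ℝ} {ν : Measure (X d)} (h : Gr n C ν) (x : X d) :
    ν {x} = 0 := by
  have h1 : Tendsto (fun r : ℝ => ENNReal.ofReal (C * r ^ n)) (𝓝[>] 0) (𝓝 0) := by
    have h2 : Continuous fun r : ℝ => ENNReal.ofReal (C * r ^ n) :=
      ENNReal.continuous_ofReal.comp (continuous_const.mul (continuous_id.pow n))
    have h3 := h2.tendsto 0
    rw [zero_pow (by omega), mul_zero, ENNReal.ofReal_zero] at h3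
    exact h3.mono_left nhdsWithin_le_nhds
  have h4 : ν {x} ≤ 0 := by
    refine ge_of_tendsto h1 ?_
    filter_upwards [self_mem_nhdsWithin] with r hr
    exact (measure_mono (singleton_subset_iff.2 (mem_closedBall_self (le_of_lt hr)))).trans
      (h x r hr)
  exact le_antisymm h4 bot_le

end Pool.Agent.RZ
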