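import Pool.Agent.RZ.K1
import Pool.Agent.RZ.Ct
import Pool.Agent.RZ.Gr1a

/-!
Gr1: integrals of powers against a measure with growth.
All by dyadic annuli. near: on 2^{-j-1} r < |y-x| <= 2^{-j} r the integrand |z|^2 kr <= |z|^{1-n} (|z| = 0: zero)
is at most (2^{-j-1} r)^{1-n}, the mass is at most C (2^{-j} r)^n.
tail: on 2^j r <= |y-x| < 2^{j+1} r.
For the lintegral versions the measure of an annulus is bounded by the measure of the closed ball.
-/

set_option autoImplicit false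

open MeasureTheory Filter Topology Metric Set
open scoped RealInnerProductSpace ENNReal

namespace Pool.Agent.RZ

variable {d : ℕ}

/-- a nonnegative function which is at most `c j` on pieces contained in balls of radius `ρ j`. -/
theorem Gr1b_geom {n : ℕ} {C : ℝ} {ν : Measure (X d)} (h : Gr n C ν)
    {S : Set (X d)} (hS : MeasurableSet S) (f : X d → ℝ≥0∞) (x : X d) (ρ c : ℕ → ℝ) {K : ℝ}
    (hK : 0 ≤ K) (hc : ∀ j, 0 ≤ c j) (hρ : ∀ j, 0 < ρ j)
    (hcov : ∀ y ∈ S, f y ≠ 0 → ∃ j, ‖y - x‖ ≤ ρ j ∧ f y ≤ ENNReal.ofReal (c j))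
    (hs : ∀ j, c j * (C * ρ j ^ n) ≤ K * (1 / 2) ^ j) :
    ∫⁻ y in S, f y ∂ν ≤ ENNReal.ofReal (2 * K) := by
  have h1 : ∀ y ∈ S, f y ≤ ∑' j, (closedBall x (ρ j)).indicator
      (fun _ => ENNReal.ofReal (c j)) y := by
    intro y hy
    rcases eq_or_ne (f y) 0 with h0 | h0
    · rw [h0]; exact zero_le
    · obtain ⟨j, hj1, hj2⟩ := hcov y hy h0
      refine le_trans ?_ (ENNReal.le_tsum j)
      have hmem : y ∈ closedBall x (ρ j) := by
        rw [mem_closedBall, dist_eq_norm]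
        exact hj1
      rw [indicator_of_mem hmem]
      exact hj2
  calc ∫⁻ y in S, f y ∂ν
      ≤ ∫⁻ y in S, ∑' j, (closedBall x (ρ j)).indicator (fun _ => ENNReal.ofReal (c j)) y ∂ν :=
        setLIntegral_mono' hS h1
    _ ≤ ∫⁻ y, ∑' j, (closedBall x (ρ j)).indicator (fun _ => ENNReal.ofReal (c j)) y ∂ν :=
        setLIntegral_le_lintegral _ _
    _ = ∑' j, ∫⁻ y, (closedBall x (ρ j)).indicator (fun _ => ENNReal.ofReal (c j)) y ∂ν := by
        refine lintegral_tsum fun j => ?_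
        exact (measurable_const.indicator isClosed_closedBall.measurableSet).aemeasurable
    _ = ∑' j, ENNReal.ofReal (c j) * ν (closedBall x (ρ j)) := by
        refine tsum_congr fun j => ?_
        exact lintegral_indicator_const isClosed_closedBall.measurableSet _
    _ ≤ ∑' j, ENNReal.ofReal (K * (1 / 2) ^ j) := by
        refine ENNReal.tsum_le_tsum fun j => ?_
        refine (mul_le_mul_right (h x (ρ j) (hρ j)) _).trans ?_
        rw [← ENNReal.ofReal_mul (hc j)]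
        exact ENNReal.ofReal_le_ofReal (hs j)
    _ = ENNReal.ofReal (2 * K) := by
        rw [← ENNReal.ofReal_tsum_of_nonneg (fun j => by positivity)
          (summable_geometric_two.mul_left K), tsum_mul_left, tsum_geometric_two, mul_comm]

/-- the same without regularisation, for the lower integral -/
theorem Gr1b_near {n : ℕ} (hn : 1 ≤ n) {C : ℝ} (hC : 0 ≤ C) {ν : Measure (X d)}
    (h : Gr n C ν) (x : X d) {r : ℝ} (hr : 0 < r) :
    ∫⁻ y in closedBall x r, ENNReal.ofReal (‖y - x‖ * ‖y - x‖⁻¹ ^ n) ∂ν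
        ≤ ENNReal.ofReal (2 * (2 ^ n * C * r)) := by
  obtain ⟨m, rfl⟩ : ∃ m, n = m + 1 := ⟨n - 1, by omega⟩
  have hval : ∀ t : ℝ, 0 < t → t * t⁻¹ ^ (m + 1) = t⁻¹ ^ m := by
    intro t ht
    rw [pow_succ', ← mul_assoc, mul_inv_cancel₀ ht.ne', one_mul]
  refine Gr1b_geom h isClosed_closedBall.measurableSet _ x (fun j => r * (1 / 2) ^ j)
    (fun j => (r * (1 / 2) ^ (j + 1))⁻¹ ^ m) (by positivity) (fun j => by positivity)
    (fun j => by positivity) ?_ ?_
  · intro y hy hf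
    have hpos : 0 < ‖y - x‖ := by
      rcases (norm_nonneg (y - x)).eq_or_lt with h0 | h0
      · exfalso
        apply hf
        rw [← h0, zero_mul, ENNReal.ofReal_zero]
      · exact h0
    rw [mem_closedBall, dist_eq_norm] at hy
    obtain ⟨j, hj1, hj2⟩ := exists_nat_pow_near_of_lt_one (x := ‖y - x‖ / r) (y := (1 / 2 : ℝ))
      (div_pos hpos hr) ((div_le_one hr).2 hy) (by norm_num) (by norm_num)
    refine ⟨j, ?_, ?_⟩
    · rw [div_le_iff₀ hr] at hj2
      linarith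
    · refine ENNReal.ofReal_le_ofReal ?_
      rw [hval _ hpos]
      refine pow_le_pow_left₀ (inv_nonneg.2 (norm_nonneg _)) ?_ _
      refine inv_anti₀ (by positivity) ?_
      rw [lt_div_iff₀ hr] at hj1
      linarith
  · intro j
    have h2 : (r * (1 / 2) ^ (j + 1))⁻¹ ^ m * (C * (r * (1 / 2) ^ j) ^ (m + 1))
        = C * r * 2 ^ m * (1 / 2) ^ j := by
      have e1 : (r * (1 / 2) ^ j) ^ (m + 1) = (r * (1 / 2) ^ (j + 1)) ^ m * 2 ^ m
          * (r * (1 / 2) ^ j) := by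
        rw [← mul_pow, pow_succ (r * (1 / 2) ^ j) m]
        congr 2
        rw [pow_succ]
        ring
      have e2 : (r * (1 / 2 : ℝ) ^ (j + 1))⁻¹ ^ m * (r * (1 / 2) ^ (j + 1)) ^ m = 1 := by
        rw [← mul_pow, inv_mul_cancel₀ (by positivity), one_pow]
      rw [e1]
      calc (r * (1 / 2 : ℝ) ^ (j + 1))⁻¹ ^ m * (C * ((r * (1 / 2) ^ (j + 1)) ^ m * 2 ^ m
            * (r * (1 / 2) ^ j)))
          = ((r * (1 / 2 : ℝ) ^ (j + 1))⁻¹ ^ m * (r * (1 / 2) ^ (j + 1)) ^ m)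
            * (C * r * 2 ^ m * (1 / 2) ^ j) := by ring
        _ = C * r * 2 ^ m * (1 / 2) ^ j := by rw [e2, one_mul]
    rw [h2]
    refine mul_le_mul_of_nonneg_right ?_ (by positivity)
    have h3 : (2 : ℝ) ^ (m + 1) * C * r = 2 * (C * r * 2 ^ m) := by ring
    rw [h3]
    have h4 : 0 ≤ C * r * 2 ^ m := by positivity
    linarith

/-- near the diagonal -/
theorem Gr.near (n : ℕ) (hn : 1 ≤ n) : ∃ A : ℝ, 0 < A ∧ ∀ (C : ℝ), 0 ≤ C → ∀ ν : Measure (X d),
    Gr n C ν → ∀ (x : X d) (r ε : ℝ), 0 < r → 0 < ε →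
      ∫ y in closedBall x r, ‖y - x‖ ^ 2 * kr n ε (y - x) ∂ν ≤ A * C * r := by
  refine ⟨2 * 2 ^ n, by positivity, fun C hC ν h x r ε hr hε => ?_⟩
  have hcont : Continuous fun y : X d => ‖y - x‖ ^ 2 * kr n ε (y - x) :=
    ((continuous_id.sub continuous_const).norm.pow 2).mul
      ((kr_continuous n hε).comp (continuous_id.sub continuous_const))
  rw [integral_eq_lintegral_of_nonneg_ae
    (Eventually.of_forall fun y => mul_nonneg (by positivity) (kr_nonneg _ _ _))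
    hcont.aestronglyMeasurable]
  have h1 : ∫⁻ y in closedBall x r, ENNReal.ofReal (‖y - x‖ ^ 2 * kr n ε (y - x)) ∂ν
      ≤ ENNReal.ofReal (2 * (2 ^ n * C * r)) := by
    refine le_trans (lintegral_mono fun y => ENNReal.ofReal_le_ofReal ?_) (Gr1b_near hn hC h x hr)
    calc ‖y - x‖ ^ 2 * kr n ε (y - x) = ‖y - x‖ * (‖y - x‖ * kr n ε (y - x)) := by ring
      _ ≤ ‖y - x‖ * ‖y - x‖⁻¹ ^ n :=
        mul_le_mul_of_nonneg_left (norm_mul_kr_le n hε _) (norm_nonneg _)
  refine ENNReal.toReal_le_of_le_ofReal (by positivity) (h1.trans (le_of_eq ?_))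
  congr 1
  ring

/-- the same without regularisation, for the lower integral -/
theorem Gr.near_lintegral (n : ℕ) (hn : 1 ≤ n) : ∃ A : ℝ, 0 < A ∧ ∀ (C : ℝ), 0 ≤ C →
    ∀ ν : Measure (X d), Gr n C ν → ∀ (x : X d) (r : ℝ), 0 < r →
      ∫⁻ y in closedBall x r, ENNReal.ofReal (‖y - x‖ * ‖y - x‖⁻¹ ^ n) ∂ν
        ≤ ENNReal.ofReal (A * C * r) := by
  refine ⟨2 * 2 ^ n, by positivity, fun C hC ν h x r hr => ?_⟩
  refine (Gr1b_near hn hC h x hr).trans (le_of_eq ?_)
  congr 1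
  ring

end Pool.Agent.RZ
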