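import Pool.Agent.RZ.K1
import Pool.Agent.RZ.Ct
import Pool.Agent.RZ.Gr1a

/-!
Gr1: integrals of powers against a measure with growth.
All by dyadic annuli. near: on 2^{-j-1} r < |y-x| <= 2^{-j} r the integrand |z|^2 kr <= |z|^{1-n} (|z| = 0: zero)
is at most (2^{-j-1} r)^{1-n}, the mass is at most C (2^{-j} r)^n.
tail: on 2^j r <= |y-x| < 2^{j+1} r.
For the lintegral versions the measure of an annulus is bounded by the measure of the closed ball.
-/

set_option autoImplicit false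

open MeasureTheory Filter Topology Metric Set
open scoped RealInnerProductSpace ENNReal

namespace Pool.Agent.RZ

variable {d : ℕ}

/-- a nonnegative function which is at most `c j` on pieces contained in balls of radius `ρ j`. -/
theorem Gr1c_geom {n : ℕ} {C : ℝ} {ν : Measure (X d)} (h : Gr n C ν)
    {S : Set (X d)} (hS : MeasurableSet S) (f : X d → ℝ≥0∞) (x : X d) (ρ c : ℕ → ℝ) {K : ℝ}
    (hK : 0 ≤ K) (hc : ∀ j, 0 ≤ c j) (hρ : ∀ j, 0 < ρ j)
    (hcov : ∀ y ∈ S, f y ≠ 0 → ∃ j, ‖y - x‖ ≤ ρ j ∧ f y ≤ ENNReal.ofReal (c j))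
    (hs : ∀ j, c j * (C * ρ j ^ n) ≤ K * (1 / 2) ^ j) :
    ∫⁻ y in S, f y ∂ν ≤ ENNReal.ofReal (2 * K) := by
  have h1 : ∀ y ∈ S, f y ≤ ∑' j, (closedBall x (ρ j)).indicator
      (fun _ => ENNReal.ofReal (c j)) y := by
    intro y hy
    rcases eq_or_ne (f y) 0 with h0 | h0
    · rw [h0]; exact zero_le
    · obtain ⟨j, hj1, hj2⟩ := hcov y hy h0
      refine le_trans ?_ (ENNReal.le_tsum j)
      have hmem : y ∈ closedBall x (ρ j) := by
        rw [mem_closedBall, dist_eq_norm]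
        exact hj1
      rw [indicator_of_mem hmem]
      exact hj2
  calc ∫⁻ y in S, f y ∂ν
      ≤ ∫⁻ y in S, ∑' j, (closedBall x (ρ j)).indicator (fun _ => ENNReal.ofReal (c j)) y ∂ν :=
        setLIntegral_mono' hS h1
    _ ≤ ∫⁻ y, ∑' j, (closedBall x (ρ j)).indicator (fun _ => ENNReal.ofReal (c j)) y ∂ν :=
        setLIntegral_le_lintegral _ _
    _ = ∑' j, ∫⁻ y, (closedBall x (ρ j)).indicator (fun _ => ENNReal.ofReal (c j)) y ∂ν := by
        refine lintegral_tsum fun j => ?_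
        exact (measurable_const.indicator isClosed_closedBall.measurableSet).aemeasurable
    _ = ∑' j, ENNReal.ofReal (c j) * ν (closedBall x (ρ j)) := by
        refine tsum_congr fun j => ?_
        exact lintegral_indicator_const isClosed_closedBall.measurableSet _
    _ ≤ ∑' j, ENNReal.ofReal (K * (1 / 2) ^ j) := by
        refine ENNReal.tsum_le_tsum fun j => ?_
        refine (mul_le_mul_right (h x (ρ j) (hρ j)) _).trans ?_
        rw [← ENNReal.ofReal_mul (hc j)]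
        exact ENNReal.ofReal_le_ofReal (hs j)
    _ = ENNReal.ofReal (2 * K) := by
        rw [← ENNReal.ofReal_tsum_of_nonneg (fun j => by positivity)
          (summable_geometric_two.mul_left K), tsum_mul_left, tsum_geometric_two, mul_comm]

theorem Gr1c_tail {n a : ℕ} (ha : 1 ≤ a) {C : ℝ} (hC : 0 ≤ C) {ν : Measure (X d)}
    (h : Gr n C ν) (x : X d) {r : ℝ} (hr : 0 < r) :
    ∫⁻ y in {y | r ≤ ‖y - x‖}, ENNReal.ofReal (‖y - x‖⁻¹ ^ (n + a)) ∂ν
      ≤ ENNReal.ofReal (2 * (2 ^ n * C * r⁻¹ ^ a)) := by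
  have hS : MeasurableSet {y : X d | r ≤ ‖y - x‖} :=
    (isClosed_le continuous_const (continuous_id.sub continuous_const).norm).measurableSet
  refine Gr1c_geom h hS _ x (fun j => r * 2 ^ (j + 1))
    (fun j => (r * 2 ^ j)⁻¹ ^ (n + a)) (by positivity) (fun j => by positivity)
    (fun j => by positivity) ?_ ?_
  · intro y hy _
    have hy' : r ≤ ‖y - x‖ := hy
    obtain ⟨j, hj1, hj2⟩ := exists_nat_pow_near (x := ‖y - x‖ / r) (y := (2 : ℝ))
      ((one_le_div hr).2 hy') (by norm_num)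
    refine ⟨j, ?_, ?_⟩
    · rw [div_lt_iff₀ hr] at hj2
      linarith
    · refine ENNReal.ofReal_le_ofReal ?_
      refine pow_le_pow_left₀ (inv_nonneg.2 (norm_nonneg _)) ?_ _
      refine inv_anti₀ (by positivity) ?_
      rw [le_div_iff₀ hr] at hj1
      linarith
  · intro j
    have e2 : (r * (2 : ℝ) ^ j)⁻¹ ^ n * (r * 2 ^ j) ^ n = 1 := by
      rw [← mul_pow, inv_mul_cancel₀ (by positivity), one_pow]
    have e1 : (r * (2 : ℝ) ^ (j + 1)) ^ n = (r * 2 ^ j) ^ n * 2 ^ n := by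
      rw [← mul_pow]
      congr 1
      rw [pow_succ]
      ring
    have h2 : (r * 2 ^ j)⁻¹ ^ (n + a) * (C * (r * 2 ^ (j + 1)) ^ n)
        = C * 2 ^ n * (r * 2 ^ j)⁻¹ ^ a := by
      rw [e1, pow_add]
      calc (r * (2 : ℝ) ^ j)⁻¹ ^ n * (r * 2 ^ j)⁻¹ ^ a * (C * ((r * 2 ^ j) ^ n * 2 ^ n))
          = ((r * (2 : ℝ) ^ j)⁻¹ ^ n * (r * 2 ^ j) ^ n) * (C * 2 ^ n * (r * 2 ^ j)⁻¹ ^ a) := by
            ring
        _ = C * 2 ^ n * (r * 2 ^ j)⁻¹ ^ a := by rw [e2, one_mul]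
    rw [h2, mul_inv, mul_pow]
    have h3 : ((2 : ℝ) ^ j)⁻¹ ^ a ≤ (1 / 2) ^ j := by
      have h4 : ((2 : ℝ) ^ j)⁻¹ = (1 / 2) ^ j := by
        rw [← inv_pow, one_div]
      rw [h4]
      exact pow_le_of_le_one (by positivity) (pow_le_one₀ (by norm_num) (by norm_num)) (by omega)
    calc C * 2 ^ n * (r⁻¹ ^ a * ((2 : ℝ) ^ j)⁻¹ ^ a)
        ≤ C * 2 ^ n * (r⁻¹ ^ a * (1 / 2) ^ j) :=
          mul_le_mul_of_nonneg_left (mul_le_mul_of_nonneg_left h3 (by positivity)) (by positivity)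
      _ = 2 ^ n * C * r⁻¹ ^ a * (1 / 2) ^ j := by ring

/-- tails -/
theorem Gr.tail (n a : ℕ) (hn : 1 ≤ n) (ha : 1 ≤ a) : ∃ A : ℝ, 0 < A ∧ ∀ (C : ℝ), 0 ≤ C →
    ∀ ν : Measure (X d), Gr n C ν → ∀ (x : X d) (r : ℝ), 0 < r →
      IntegrableOn (fun y => ‖y - x‖⁻¹ ^ (n + a)) {y | r ≤ ‖y - x‖} ν ∧
      ∫ y in {y | r ≤ ‖y - x‖}, ‖y - x‖⁻¹ ^ (n + a) ∂ν ≤ A * C * r⁻¹ ^ a := by
  refine ⟨2 * 2 ^ n, by positivity, fun C hC ν h x r hr => ?_⟩
  have h1 := Gr1c_tail ha hC h x hr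
  have hm : Measurable fun y : X d => ‖y - x‖⁻¹ ^ (n + a) :=
    ((continuous_id.sub continuous_const).norm.measurable.inv).pow_const _
  have hnn : ∀ y : X d, 0 ≤ ‖y - x‖⁻¹ ^ (n + a) := fun y => by positivity
  constructor
  · refine ⟨hm.aestronglyMeasurable, ?_⟩
    rw [hasFiniteIntegral_iff_ofReal (Eventually.of_forall hnn)]
    exact h1.trans_lt ENNReal.ofReal_lt_top
  · rw [integral_eq_lintegral_of_nonneg_ae (Eventually.of_forall hnn) hm.aestronglyMeasurable]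
    refine ENNReal.toReal_le_of_le_ofReal (by positivity) (h1.trans (le_of_eq ?_))
    congr 1
    ring

/-- total mass of the kernel -/
theorem Gr.kr_integrable (n : ℕ) (hn : 1 ≤ n) : ∃ A : ℝ, 0 < A ∧ ∀ (C : ℝ), 0 ≤ C →
    ∀ ν : Measure (X d), Gr n C ν → ∀ (x : X d) (ε : ℝ), 0 < ε →
      Integrable (fun y => kr n ε (y - x)) ν ∧ ∫ y, kr n ε (y - x) ∂ν ≤ A * C * ε⁻¹ := by
  refine ⟨1 + 2 * 2 ^ n, by positivity, fun C hC ν h x ε hε => ?_⟩
  have hcont : Continuous fun y : X d => kr n ε (y - x) :=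
    (kr_continuous n hε).comp (continuous_id.sub continuous_const)
  have hnn : ∀ y : X d, 0 ≤ kr n ε (y - x) := fun y => kr_nonneg _ _ _
  have hS : MeasurableSet {y : X d | ε ≤ ‖y - x‖} :=
    (isClosed_le continuous_const (continuous_id.sub continuous_const).norm).measurableSet
  have hfar : ∫⁻ y in {y | ε ≤ ‖y - x‖}, ENNReal.ofReal (kr n ε (y - x)) ∂ν
      ≤ ENNReal.ofReal (2 * (2 ^ n * C * ε⁻¹ ^ 1)) := by
    refine le_trans (setLIntegral_mono' hS fun y hy => ENNReal.ofReal_le_ofReal ?_)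
      (Gr1c_tail (a := 1) le_rfl hC h x hε)
    have hy' : ε ≤ ‖y - x‖ := hy
    exact kr_le_norm n ε (norm_pos_iff.1 (hε.trans_le hy'))
  have hnear : ∫⁻ y in {y | ε ≤ ‖y - x‖}ᶜ, ENNReal.ofReal (kr n ε (y - x)) ∂ν
      ≤ ENNReal.ofReal (C * ε⁻¹) := by
    have hsub : {y : X d | ε ≤ ‖y - x‖}ᶜ ⊆ closedBall x ε := by
      intro y hy
      rw [mem_compl_iff, mem_setOf_eq, not_le] at hy
      rw [mem_closedBall, dist_eq_norm]
      exact hy.le
    calc ∫⁻ y in {y | ε ≤ ‖y - x‖}ᶜ, ENNReal.ofReal (kr n ε (y - x)) ∂ν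
        ≤ ∫⁻ y in {y | ε ≤ ‖y - x‖}ᶜ, ENNReal.ofReal (ε⁻¹ ^ (n + 1)) ∂ν :=
          lintegral_mono fun y => ENNReal.ofReal_le_ofReal (kr_le_eps n hε _)
      _ = ENNReal.ofReal (ε⁻¹ ^ (n + 1)) * ν {y | ε ≤ ‖y - x‖}ᶜ := setLIntegral_const _ _
      _ ≤ ENNReal.ofReal (ε⁻¹ ^ (n + 1)) * ENNReal.ofReal (C * ε ^ n) :=
          mul_le_mul_right ((measure_mono hsub).trans (h x ε hε)) _
      _ = ENNReal.ofReal (C * ε⁻¹) := by
          rw [← ENNReal.ofReal_mul (by positivity)]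
          congr 1
          have e2 : ε⁻¹ ^ n * ε ^ n = 1 := by
            rw [← mul_pow, inv_mul_cancel₀ hε.ne', one_pow]
          calc ε⁻¹ ^ (n + 1) * (C * ε ^ n) = (ε⁻¹ ^ n * ε ^ n) * (C * ε⁻¹) := by ring
            _ = C * ε⁻¹ := by rw [e2, one_mul]
  have htot : ∫⁻ y, ENNReal.ofReal (kr n ε (y - x)) ∂ν
      ≤ ENNReal.ofReal ((1 + 2 * 2 ^ n) * C * ε⁻¹) := by
    rw [← lintegral_add_compl _ hS]
    refine (add_le_add hfar hnear).trans ?_
    rw [← ENNReal.ofReal_add (by positivity) (by positivity)]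
    refine ENNReal.ofReal_le_ofReal (le_of_eq ?_)
    ring
  constructor
  · refine ⟨hcont.aestronglyMeasurable, ?_⟩
    rw [hasFiniteIntegral_iff_ofReal (Eventually.of_forall hnn)]
    exact htot.trans_lt ENNReal.ofReal_lt_top
  · rw [integral_eq_lintegral_of_nonneg_ae (Eventually.of_forall hnn)
      hcont.aestronglyMeasurable]
    exact ENNReal.toReal_le_of_le_ofReal (by positivity) htot

end Pool.Agent.RZ
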