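import Pool.Agent.RZ.K1
import Pool.Agent.RZ.Ct
import Pool.Agent.RZ.Gr1b
import Pool.Agent.RZ.Gr1c

/-!
Gr1: integrals of powers against a measure with growth.
All by dyadic annuli. near: on 2^{-j-1} r < |y-x| <= 2^{-j} r the integrand |z|^2 kr <= |z|^{1-n} (|z| = 0: zero)
is at most (2^{-j-1} r)^{1-n}, the mass is at most C (2^{-j} r)^n.
tail: on 2^j r <= |y-x| < 2^{j+1} r.
For the lintegral versions the measure of an annulus is bounded by the measure of the closed ball.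
-/

set_option autoImplicit false

open MeasureTheory Filter Topology Metric Set
open scoped RealInnerProductSpace ENNReal

namespace Pool.Agent.RZ

variable {d : ℕ}

/-- difference of the kernels for two regularisations -/
theorem Gr.kr_diff (n : ℕ) (hn : 1 ≤ n) : ∃ A : ℝ, 0 < A ∧ ∀ (C : ℝ), 0 ≤ C →
    ∀ ν : Measure (X d), Gr n C ν → ∀ (x : X d) (ε ε' : ℝ), 0 < ε' → ε' ≤ ε →
      Integrable (fun y => ‖y - x‖ ^ 2 * (kr n ε' (y - x) - kr n ε (y - x))) ν ∧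
      ∫ y, ‖y - x‖ ^ 2 * (kr n ε' (y - x) - kr n ε (y - x)) ∂ν ≤ A * C * ε := by
  obtain ⟨A₁, hA₁, h₁⟩ := Gr.near (d := d) n hn
  obtain ⟨A₂, hA₂, h₂⟩ := Gr.tail (d := d) n 1 hn le_rfl
  refine ⟨A₁ + (n + 1) * A₂, by positivity, ?_⟩
  intro C hC ν hν x ε ε' hε' hle
  have hε : 0 < ε := lt_of_lt_of_le hε' hle
  have : IsLocallyFiniteMeasure ν := hν.isLocallyFinite
  set F : X d → ℝ := fun y => ‖y - x‖ ^ 2 * (kr n ε' (y - x) - kr n ε (y - x)) with hF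
  have hnc : Continuous fun y : X d => ‖y - x‖ ^ 2 := by fun_prop
  have hkc : ∀ {η : ℝ}, 0 < η → Continuous fun y : X d => kr n η (y - x) := fun hη =>
    (kr_continuous n hη).comp (continuous_id.sub continuous_const)
  have hFc : Continuous F := hnc.mul ((hkc hε').sub (hkc hε))
  have hGc : Continuous fun y : X d => ‖y - x‖ ^ 2 * kr n ε' (y - x) := hnc.mul (hkc hε')
  have hF0 : ∀ y, 0 ≤ F y := fun y =>
    mul_nonneg (by positivity) (kr_eps_diff_nonneg n hε' hle _)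
  have hSm : MeasurableSet (closedBall x ε) := isClosed_closedBall.measurableSet
  have hSc : IsCompact (closedBall x ε) := isCompact_closedBall x ε
  -- near part
  have hI1 : IntegrableOn F (closedBall x ε) ν := hFc.continuousOn.integrableOn_compact hSc
  have hG1 : IntegrableOn (fun y : X d => ‖y - x‖ ^ 2 * kr n ε' (y - x)) (closedBall x ε) ν :=
    hGc.continuousOn.integrableOn_compact hSc
  have hle1 : ∫ y in closedBall x ε, F y ∂ν ≤ A₁ * C * ε := by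
    refine le_trans (setIntegral_mono hI1 hG1 fun y => ?_) (h₁ C hC ν hν x ε ε' hε hε')
    refine mul_le_mul_of_nonneg_left ?_ (by positivity)
    have := kr_nonneg n ε (y - x)
    linarith
  -- far part
  obtain ⟨hT, hTle⟩ := h₂ C hC ν hν x ε hε
  have hTm : MeasurableSet {y : X d | ε ≤ ‖y - x‖} :=
    (isClosed_le continuous_const (continuous_norm.comp (continuous_id.sub continuous_const))).measurableSet
  have hsub : (closedBall x ε)ᶜ ⊆ {y : X d | ε ≤ ‖y - x‖} := by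
    intro y hy
    rw [mem_compl_iff, mem_closedBall, dist_eq_norm, not_le] at hy
    exact hy.le
  have hdom : IntegrableOn (fun y : X d => (n + 1) * ε ^ 2 * ‖y - x‖⁻¹ ^ (n + 1))
      {y : X d | ε ≤ ‖y - x‖} ν := hT.const_mul _
  have hbd : ∀ y ∈ {y : X d | ε ≤ ‖y - x‖}, F y ≤ (n + 1) * ε ^ 2 * ‖y - x‖⁻¹ ^ (n + 1) := by
    intro y hy
    have hpos : 0 < ‖y - x‖ := lt_of_lt_of_le hε hy
    have hz : y - x ≠ 0 := norm_pos_iff.1 hpos
    have h3 := kr_eps_diff n hε' hle hz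
    have h4 : ‖y - x‖ ^ 2 * ((n + 1) * ε ^ 2 * ‖y - x‖⁻¹ ^ (n + 3)) =
        (n + 1) * ε ^ 2 * ‖y - x‖⁻¹ ^ (n + 1) := by
      have h5 : ‖y - x‖⁻¹ ^ (n + 3) = ‖y - x‖⁻¹ ^ (n + 1) * (‖y - x‖⁻¹ ^ 2) := by
        rw [← pow_add]
      have h6 : ‖y - x‖ ^ 2 * ‖y - x‖⁻¹ ^ 2 = 1 := by
        rw [← mul_pow, mul_inv_cancel₀ hpos.ne', one_pow]
      rw [h5]
      calc ‖y - x‖ ^ 2 * ((n + 1) * ε ^ 2 * (‖y - x‖⁻¹ ^ (n + 1) * (‖y - x‖⁻¹ ^ 2)))
          = (n + 1) * ε ^ 2 * ‖y - x‖⁻¹ ^ (n + 1) * (‖y - x‖ ^ 2 * ‖y - x‖⁻¹ ^ 2) := by ring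
        _ = (n + 1) * ε ^ 2 * ‖y - x‖⁻¹ ^ (n + 1) := by rw [h6, mul_one]
    calc F y ≤ ‖y - x‖ ^ 2 * ((n + 1) * ε ^ 2 * ‖y - x‖⁻¹ ^ (n + 3)) :=
          mul_le_mul_of_nonneg_left h3 (by positivity)
      _ = (n + 1) * ε ^ 2 * ‖y - x‖⁻¹ ^ (n + 1) := h4
  have hI2T : IntegrableOn F {y : X d | ε ≤ ‖y - x‖} ν := by
    refine Integrable.mono' hdom hFc.aestronglyMeasurable ?_
    refine (ae_restrict_iff' hTm).2 (Eventually.of_forall fun y hy => ?_)
    rw [Real.norm_of_nonneg (hF0 y)]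
    exact hbd y hy
  have hI2 : IntegrableOn F (closedBall x ε)ᶜ ν := hI2T.mono_set hsub
  have hle2 : ∫ y in (closedBall x ε)ᶜ, F y ∂ν ≤ (n + 1) * A₂ * C * ε := by
    have h7 : ∫ y in (closedBall x ε)ᶜ, F y ∂ν ≤ ∫ y in {y : X d | ε ≤ ‖y - x‖}, F y ∂ν :=
      setIntegral_mono_set hI2T (Eventually.of_forall fun y => hF0 y) (Eventually.of_forall hsub)
    have h8 : ∫ y in {y : X d | ε ≤ ‖y - x‖}, F y ∂ν ≤
        ∫ y in {y : X d | ε ≤ ‖y - x‖}, (n + 1) * ε ^ 2 * ‖y - x‖⁻¹ ^ (n + 1) ∂ν :=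
      setIntegral_mono_on hI2T hdom hTm hbd
    rw [integral_const_mul] at h8
    have h9 : (n + 1) * ε ^ 2 * ∫ y in {y : X d | ε ≤ ‖y - x‖}, ‖y - x‖⁻¹ ^ (n + 1) ∂ν ≤
        (n + 1) * ε ^ 2 * (A₂ * C * ε⁻¹ ^ 1) :=
      mul_le_mul_of_nonneg_left hTle (by positivity)
    have h10 : (n + 1) * ε ^ 2 * (A₂ * C * ε⁻¹ ^ 1) = (n + 1) * A₂ * C * ε := by
      field_simp
    linarith
  have hI : Integrable F ν := by
    rw [← integrableOn_univ, ← union_compl_self (closedBall x ε)]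
    exact hI1.union hI2
  refine ⟨hI, ?_⟩
  have hsum := integral_add_compl hSm hI
  rw [← hsum]
  have : (A₁ + (n + 1) * A₂) * C * ε = A₁ * C * ε + (n + 1) * A₂ * C * ε := by ring
  rw [this]
  exact add_le_add hle1 hle2

end Pool.Agent.RZ
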