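import Pool.Agent.RZ.K1
import Pool.Agent.RZ.Ct
import Pool.Agent.RZ.Gr1a

/-!
Gr1: integrals of powers against a measure with growth.
All by dyadic annuli. near: on 2^{-j-1} r < |y-x| <= 2^{-j} r the integrand |z|^2 kr <= |z|^{1-n} (|z| = 0: zero)
is at most (2^{-j-1} r)^{1-n}, the mass is at most C (2^{-j} r)^n.
tail: on 2^j r <= |y-x| < 2^{j+1} r.
For the lintegral versions the measure of an annulus is bounded by the measure of the closed ball.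
-/

set_option autoImplicit false

open MeasureTheory Filter Topology Metric Set
open scoped RealInnerProductSpace ENNReal

namespace Pool.Agent.RZ

variable {d : ℕ}

/-- Cauchy-Schwarz on a ball -/
theorem Gr1e_cs {n : ℕ} {C : ℝ} {ν : Measure (X d)} (h : Gr n C ν) {u : X d → ℝ}
    (hu : Continuous u) (ρ : ℝ) :
    (∫ y in closedBall 0 ρ, |u y| ∂ν) ^ 2 ≤
      (∫ y in closedBall 0 ρ, u y ^ 2 ∂ν) * ν.real (closedBall 0 ρ) := by
  have := h.isLocallyFinite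
  have hK : IsCompact (closedBall (0 : X d) ρ) := isCompact_closedBall 0 ρ
  have i1 : IntegrableOn (fun y => |u y|) (closedBall 0 ρ) ν :=
    hu.abs.continuousOn.integrableOn_compact hK
  have i2 : IntegrableOn (fun y => u y ^ 2) (closedBall 0 ρ) ν :=
    (hu.pow 2).continuousOn.integrableOn_compact hK
  have i3 : ∀ t : ℝ, IntegrableOn (fun _ : X d => t) (closedBall 0 ρ) ν := fun t =>
    continuous_const.continuousOn.integrableOn_compact hK
  have key : ∀ t : ℝ, 0 ≤ ν.real (closedBall (0 : X d) ρ) * (t * t)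
      + (-2 * ∫ y in closedBall 0 ρ, |u y| ∂ν) * t + ∫ y in closedBall 0 ρ, u y ^ 2 ∂ν := by
    intro t
    have h0 : 0 ≤ ∫ y in closedBall 0 ρ, (t * t + (-2 * t) * |u y| + u y ^ 2) ∂ν := by
      apply integral_nonneg
      intro y
      show 0 ≤ t * t + (-2 * t) * |u y| + u y ^ 2
      nlinarith [sq_nonneg (t - |u y|), sq_abs (u y)]
    have h1 : ∫ y in closedBall 0 ρ, (t * t + (-2 * t) * |u y| + u y ^ 2) ∂ν
        = ν.real (closedBall (0 : X d) ρ) * (t * t)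
          + (-2 * ∫ y in closedBall 0 ρ, |u y| ∂ν) * t + ∫ y in closedBall 0 ρ, u y ^ 2 ∂ν := by
      have i4 : IntegrableOn (fun y => t * t + (-2 * t) * |u y|) (closedBall 0 ρ) ν :=
        (i3 (t * t)).add (i1.const_mul (-2 * t))
      rw [integral_add i4 i2, integral_add (i3 (t * t)) (i1.const_mul (-2 * t)), integral_const_mul (-2 * t),
        integral_const, smul_eq_mul, measureReal_restrict_apply_univ]
      ring
    rw [h1] at h0
    exact h0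
  have hd := discrim_le_zero key
  unfold discrim at hd
  nlinarith [hd]

theorem Gr1e_annulus {n : ℕ} {C : ℝ} (hC : 0 ≤ C) {ν : Measure (X d)} (h : Gr n C ν)
    {u : X d → ℝ} (hu : Continuous u) {S R : ℝ} (hR : 0 < R) (hS : 0 ≤ S)
    (hb : ∀ r, R ≤ r → ∫ y in closedBall 0 r, u y ^ 2 ∂ν ≤ S * (r / R) ^ (n + 3)) (j : ℕ) :
    IntegrableOn (fun y => |u y| * ‖y‖⁻¹ ^ (n + 2)) {y : X d | 2 ^ j * R ≤ ‖y‖ ∧ ‖y‖ < 2 ^ (j + 1) * R} ν ∧
    ∫ y in {y : X d | 2 ^ j * R ≤ ‖y‖ ∧ ‖y‖ < 2 ^ (j + 1) * R}, |u y| * ‖y‖⁻¹ ^ (n + 2) ∂ν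
      ≤ (2 ^ (n + 1) * Real.sqrt 2 * (Real.sqrt (S * C * R ^ n) * R⁻¹ ^ (n + 2)))
        * (Real.sqrt 2)⁻¹ ^ j := by
  have := h.isLocallyFinite
  set s : Set (X d) := {y : X d | 2 ^ j * R ≤ ‖y‖ ∧ ‖y‖ < 2 ^ (j + 1) * R} with hs
  have h2j : (0 : ℝ) < 2 ^ j := by positivity
  have ha : 0 < 2 ^ j * R := by positivity
  have hsm : MeasurableSet s := by
    apply MeasurableSet.inter
    · exact measurableSet_le measurable_const measurable_norm
    · exact measurableSet_lt measurable_norm measurable_const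
  have hsub : s ⊆ closedBall 0 (2 ^ (j + 1) * R) := by
    intro y hy
    rw [mem_closedBall_zero_iff]
    exact hy.2.le
  have hK : IsCompact (closedBall (0 : X d) (2 ^ (j + 1) * R)) := isCompact_closedBall 0 _
  have i1 : IntegrableOn (fun y => |u y|) (closedBall 0 (2 ^ (j + 1) * R)) ν :=
    hu.abs.continuousOn.integrableOn_compact hK
  have i2 : IntegrableOn (fun y => |u y| * (2 ^ j * R)⁻¹ ^ (n + 2)) s ν :=
    (i1.mono_set hsub).mul_const _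
  have hpt : ∀ y ∈ s, |u y| * ‖y‖⁻¹ ^ (n + 2) ≤ |u y| * (2 ^ j * R)⁻¹ ^ (n + 2) := by
    intro y hy
    apply mul_le_mul_of_nonneg_left _ (abs_nonneg _)
    apply pow_le_pow_left₀ (by positivity)
    exact inv_anti₀ ha hy.1
  have i3 : IntegrableOn (fun y => |u y| * ‖y‖⁻¹ ^ (n + 2)) s ν := by
    refine Integrable.mono' i2 ?_ ?_
    · exact (hu.abs.measurable.mul ((measurable_norm.inv).pow_const _)).aestronglyMeasurable
    · refine (ae_restrict_iff' hsm).2 (Filter.Eventually.of_forall fun y hy => ?_)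
      rw [Real.norm_of_nonneg (by positivity)]
      exact hpt y hy
  refine ⟨i3, ?_⟩
  have e1 : ∫ y in s, |u y| * ‖y‖⁻¹ ^ (n + 2) ∂ν ≤
      ∫ y in s, |u y| * (2 ^ j * R)⁻¹ ^ (n + 2) ∂ν := by
    refine setIntegral_mono_on i3 i2 hsm hpt
  have e2 : ∫ y in s, |u y| * (2 ^ j * R)⁻¹ ^ (n + 2) ∂ν
      = (∫ y in s, |u y| ∂ν) * (2 ^ j * R)⁻¹ ^ (n + 2) := by
    rw [integral_mul_const]
  have e3 : ∫ y in s, |u y| ∂ν ≤ ∫ y in closedBall 0 (2 ^ (j + 1) * R), |u y| ∂ν := by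
    apply setIntegral_mono_set i1
    · exact Filter.Eventually.of_forall fun y => abs_nonneg _
    · exact Filter.Eventually.of_forall hsub
  have hcs := Gr1e_cs h hu (2 ^ (j + 1) * R)
  have hq := hb (2 ^ (j + 1) * R) (by
    have : (1 : ℝ) ≤ 2 ^ (j + 1) := one_le_pow₀ (by norm_num)
    nlinarith)
  have hm := h.real_le hC (0 : X d) (r := 2 ^ (j + 1) * R) (by positivity)
  have hdiv : 2 ^ (j + 1) * R / R = 2 ^ (j + 1) := by field_simp
  rw [hdiv] at hq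
  have hq0 : 0 ≤ ∫ y in closedBall 0 (2 ^ (j + 1) * R), u y ^ 2 ∂ν :=
    integral_nonneg fun y => sq_nonneg _
  have hI0 : 0 ≤ ∫ y in closedBall 0 (2 ^ (j + 1) * R), |u y| ∂ν :=
    integral_nonneg fun y => abs_nonneg _
  have e4 : (∫ y in closedBall 0 (2 ^ (j + 1) * R), |u y| ∂ν) ^ 2 ≤
      (S * C * R ^ n) * (((2 : ℝ) ^ (j + 1)) ^ (n + 1)) ^ 2 * (Real.sqrt 2 ^ (j + 1)) ^ 2 := by
    have e5 : (Real.sqrt 2 ^ (j + 1)) ^ 2 = (2 : ℝ) ^ (j + 1) := by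
      rw [← pow_mul, mul_comm (j + 1) 2, pow_mul, Real.sq_sqrt (by norm_num)]
    rw [e5]
    calc (∫ y in closedBall 0 (2 ^ (j + 1) * R), |u y| ∂ν) ^ 2
        ≤ (S * (2 ^ (j + 1)) ^ (n + 3)) * (C * (2 ^ (j + 1) * R) ^ n) :=
          hcs.trans (mul_le_mul hq hm measureReal_nonneg (by positivity))
      _ = (S * C * R ^ n) * (((2 : ℝ) ^ (j + 1)) ^ (n + 1)) ^ 2 * 2 ^ (j + 1) := by
          generalize (2 : ℝ) ^ (j + 1) = w
          ring
  have e6 : ∫ y in closedBall 0 (2 ^ (j + 1) * R), |u y| ∂ν ≤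
      Real.sqrt (S * C * R ^ n) * ((2 : ℝ) ^ (j + 1)) ^ (n + 1) * Real.sqrt 2 ^ (j + 1) := by
    refine abs_le_of_sq_le_sq' ?_ (by positivity) |>.2
    rw [mul_pow, mul_pow, Real.sq_sqrt (by positivity)]
    exact e4
  calc ∫ y in s, |u y| * ‖y‖⁻¹ ^ (n + 2) ∂ν
      ≤ (∫ y in s, |u y| ∂ν) * (2 ^ j * R)⁻¹ ^ (n + 2) := by rw [← e2]; exact e1
    _ ≤ (Real.sqrt (S * C * R ^ n) * ((2 : ℝ) ^ (j + 1)) ^ (n + 1) * Real.sqrt 2 ^ (j + 1))
          * (2 ^ j * R)⁻¹ ^ (n + 2) :=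
        mul_le_mul_of_nonneg_right (e3.trans e6) (by positivity)
    _ = (2 ^ (n + 1) * Real.sqrt 2 * (Real.sqrt (S * C * R ^ n) * R⁻¹ ^ (n + 2)))
        * (Real.sqrt 2)⁻¹ ^ j := by
        have h2 : Real.sqrt 2 * Real.sqrt 2 = 2 := Real.mul_self_sqrt (by norm_num)
        have hs2 : 0 < Real.sqrt 2 := by positivity
        have e7 : Real.sqrt 2 ^ (j + 1) * (2 ^ j)⁻¹ = Real.sqrt 2 * (Real.sqrt 2)⁻¹ ^ j := by
          have : ((2 : ℝ) ^ j) = Real.sqrt 2 ^ j * Real.sqrt 2 ^ j := by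
            rw [← mul_pow, h2]
          have hne' : Real.sqrt 2 ^ j ≠ 0 := by positivity
          rw [this, inv_pow, mul_inv, pow_succ]
          calc Real.sqrt 2 ^ j * Real.sqrt 2 * ((Real.sqrt 2 ^ j)⁻¹ * (Real.sqrt 2 ^ j)⁻¹)
              = Real.sqrt 2 * (Real.sqrt 2 ^ j)⁻¹ * (Real.sqrt 2 ^ j * (Real.sqrt 2 ^ j)⁻¹) := by
                ring
            _ = _ := by rw [mul_inv_cancel₀ hne', mul_one]
        have e8 : ((2 : ℝ) ^ (j + 1)) ^ (n + 1) = 2 ^ (n + 1) * (2 ^ j) ^ (n + 1) := by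
          rw [pow_succ' 2 j, mul_pow]
        have e9 : ((2 : ℝ) ^ j * R)⁻¹ ^ (n + 2) = ((2 ^ j) ^ (n + 1))⁻¹ * (2 ^ j)⁻¹ * R⁻¹ ^ (n + 2) := by
          rw [mul_inv, mul_pow, pow_succ ((2 ^ j)⁻¹ : ℝ) (n + 1), inv_pow]
        rw [e8, e9]
        have hne : ((2 : ℝ) ^ j) ^ (n + 1) ≠ 0 := by positivity
        calc Real.sqrt (S * C * R ^ n) * (2 ^ (n + 1) * (2 ^ j) ^ (n + 1)) * Real.sqrt 2 ^ (j + 1) *
              (((2 ^ j) ^ (n + 1))⁻¹ * (2 ^ j)⁻¹ * R⁻¹ ^ (n + 2))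
            = Real.sqrt (S * C * R ^ n) * 2 ^ (n + 1) * (((2 : ℝ) ^ j) ^ (n + 1) * ((2 ^ j) ^ (n + 1))⁻¹)
              * (Real.sqrt 2 ^ (j + 1) * (2 ^ j)⁻¹) * R⁻¹ ^ (n + 2) := by ring
          _ = _ := by
            rw [mul_inv_cancel₀ hne, e7]
            ring

/-- tails of `L²_loc` functions of polynomial growth -/
theorem Gr.tail_L2 (n : ℕ) (hn : 1 ≤ n) : ∃ A : ℝ, 0 < A ∧ ∀ (C : ℝ), 0 ≤ C →
    ∀ ν : Measure (X d), Gr n C ν → ∀ (u : X d → ℝ), Continuous u → ∀ (S R : ℝ), 0 < R → 0 ≤ S →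
      (∀ r, R ≤ r → ∫ y in closedBall 0 r, u y ^ 2 ∂ν ≤ S * (r / R) ^ (n + 3)) →
      IntegrableOn (fun y => |u y| * ‖y‖⁻¹ ^ (n + 2)) {y | R ≤ ‖y‖} ν ∧
      ∫ y in {y | R ≤ ‖y‖}, |u y| * ‖y‖⁻¹ ^ (n + 2) ∂ν
        ≤ A * Real.sqrt (S * C * R ^ n) * R⁻¹ ^ (n + 2) := by
  have hθ0 : 0 ≤ (Real.sqrt 2)⁻¹ := by positivity
  have hθ1 : (Real.sqrt 2)⁻¹ < 1 := by
    apply inv_lt_one_of_one_lt₀
    rw [Real.lt_sqrt (by norm_num)]
    norm_num
  have h1θ : 0 < 1 - (Real.sqrt 2)⁻¹ := by linarith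
  refine ⟨2 ^ (n + 1) * Real.sqrt 2 * (1 - (Real.sqrt 2)⁻¹)⁻¹, by positivity, ?_⟩
  intro C hC ν h u hu S R hR hS hb
  have := h.isLocallyFinite
  set s : ℕ → Set (X d) := fun j => {y : X d | 2 ^ j * R ≤ ‖y‖ ∧ ‖y‖ < 2 ^ (j + 1) * R} with hs
  have hsm : ∀ j, MeasurableSet (s j) := by
    intro j
    apply MeasurableSet.inter
    · exact measurableSet_le measurable_const measurable_norm
    · exact measurableSet_lt measurable_norm measurable_const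
  have hU : {y : X d | R ≤ ‖y‖} = ⋃ j, s j := by
    ext y
    simp only [hs, mem_ofPred_eq, mem_iUnion]
    constructor
    · intro hy
      have h1 : 1 ≤ ‖y‖ / R := by rwa [le_div_iff₀ hR, one_mul]
      obtain ⟨j, hj1, hj2⟩ := exists_nat_pow_near h1 (by norm_num : (1 : ℝ) < 2)
      refine ⟨j, ?_, ?_⟩
      · rwa [le_div_iff₀ hR] at hj1
      · rwa [div_lt_iff₀ hR] at hj2
    · rintro ⟨j, hj1, hj2⟩
      have : (1 : ℝ) ≤ 2 ^ j := one_le_pow₀ (by norm_num)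
      nlinarith
  have hdisj : Pairwise (Function.onFun Disjoint s) := by
    have hlt : ∀ i j, i < j → Disjoint (s i) (s j) := by
      intro i j hij
      rw [Set.disjoint_left]
      intro y hy1 hy2
      have h1 : ‖y‖ < 2 ^ (i + 1) * R := hy1.2
      have h2 : 2 ^ j * R ≤ ‖y‖ := hy2.1
      have h3 : (2 : ℝ) ^ (i + 1) ≤ 2 ^ j := pow_le_pow_right₀ (by norm_num) hij
      nlinarith
    intro i j hij
    rcases lt_or_gt_of_ne hij with h' | h'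
    · exact hlt i j h'
    · exact (hlt j i h').symm
  have hann := fun j => Gr1e_annulus hC h hu hR hS hb j
  set B : ℝ := 2 ^ (n + 1) * Real.sqrt 2 * (Real.sqrt (S * C * R ^ n) * R⁻¹ ^ (n + 2)) with hB
  have hgeo : Summable fun j : ℕ => B * (Real.sqrt 2)⁻¹ ^ j :=
    (summable_geometric_of_lt_one hθ0 hθ1).mul_left B
  have hnn : ∀ j, 0 ≤ ∫ y in s j, |u y| * ‖y‖⁻¹ ^ (n + 2) ∂ν := fun j =>
    integral_nonneg fun y => by positivity
  have hsum : Summable fun j => ∫ y in s j, |u y| * ‖y‖⁻¹ ^ (n + 2) ∂ν :=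
    Summable.of_nonneg_of_le hnn (fun j => (hann j).2) hgeo
  have hsum' : Summable fun j => ∫ y in s j, ‖|u y| * ‖y‖⁻¹ ^ (n + 2)‖ ∂ν := by
    have : (fun j => ∫ y in s j, ‖|u y| * ‖y‖⁻¹ ^ (n + 2)‖ ∂ν)
        = fun j => ∫ y in s j, |u y| * ‖y‖⁻¹ ^ (n + 2) ∂ν := by
      funext j
      refine integral_congr_ae (Filter.Eventually.of_forall fun y => ?_)
      exact Real.norm_of_nonneg (by positivity)
    rw [this]
    exact hsum
  have hint : IntegrableOn (fun y => |u y| * ‖y‖⁻¹ ^ (n + 2)) (⋃ j, s j) ν :=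
    integrableOn_iUnion_of_summable_integral_norm (fun j => (hann j).1) hsum'
  rw [hU]
  refine ⟨hint, ?_⟩
  rw [integral_iUnion hsm hdisj hint]
  calc ∑' j, ∫ y in s j, |u y| * ‖y‖⁻¹ ^ (n + 2) ∂ν
      ≤ ∑' j : ℕ, B * (Real.sqrt 2)⁻¹ ^ j := hsum.tsum_le_tsum (fun j => (hann j).2) hgeo
    _ = B * (1 - (Real.sqrt 2)⁻¹)⁻¹ := by
        rw [tsum_mul_left, tsum_geometric_of_lt_one hθ0 hθ1]
    _ = _ := by rw [hB]; ring

/-- tails of `L²_loc` functions of polynomial growth, with the weight `1 + |y|` -/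
theorem Gr.weight (n : ℕ) (hn : 1 ≤ n) : ∃ A : ℝ, 0 < A ∧ ∀ (C : ℝ), 0 ≤ C →
    ∀ ν : Measure (X d), Gr n C ν → ∀ (u : X d → ℝ), Continuous u → ∀ (M : ℝ), 0 ≤ M →
      (∀ r, 1 ≤ r → ∫ y in closedBall 0 r, u y ^ 2 ∂ν ≤ M * r ^ (n + 3)) →
      Integrable (fun y => |u y| * (1 + ‖y‖)⁻¹ ^ (n + 2)) ν ∧
      ∀ R, 1 ≤ R → ∫ y in {y | R ≤ ‖y‖}, |u y| * (1 + ‖y‖)⁻¹ ^ (n + 2) ∂ν
        ≤ A * Real.sqrt (M * C) * (Real.sqrt R)⁻¹ := by
  obtain ⟨A, hA, hAll⟩ := Gr.tail_L2 (d := d) n hn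
  refine ⟨A, hA, ?_⟩
  intro C hC ν h u hu M hM hb
  have := h.isLocallyFinite
  have hsm : ∀ R : ℝ, MeasurableSet {y : X d | R ≤ ‖y‖} := fun R =>
    measurableSet_le measurable_const measurable_norm
  have hcont : Continuous fun y : X d => |u y| * (1 + ‖y‖)⁻¹ ^ (n + 2) := by
    refine hu.abs.mul (Continuous.pow (Continuous.inv₀ (by fun_prop) fun y => ?_) _)
    have := norm_nonneg y
    positivity
  have hmain : ∀ R, 1 ≤ R →
      IntegrableOn (fun y => |u y| * ‖y‖⁻¹ ^ (n + 2)) {y | R ≤ ‖y‖} ν ∧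
      ∫ y in {y | R ≤ ‖y‖}, |u y| * ‖y‖⁻¹ ^ (n + 2) ∂ν ≤ A * Real.sqrt (M * C) * (Real.sqrt R)⁻¹ := by
    intro R hR
    have hR0 : 0 < R := by linarith
    obtain ⟨h1, h2⟩ := hAll C hC ν h u hu (M * R ^ (n + 3)) R hR0 (by positivity) (by
      intro r hr
      refine (hb r (hR.trans hr)).trans (le_of_eq ?_)
      rw [div_pow]
      field_simp)
    refine ⟨h1, h2.trans (le_of_eq ?_)⟩
    have hsq : 0 < Real.sqrt R := Real.sqrt_pos.2 hR0
    have e1 : M * R ^ (n + 3) * C * R ^ n = (M * C) * (R ^ (n + 1) * Real.sqrt R) ^ 2 := by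
      rw [mul_pow, Real.sq_sqrt hR0.le]
      ring
    rw [e1, Real.sqrt_mul (by positivity), Real.sqrt_sq (by positivity)]
    have e2 : R⁻¹ ^ (n + 2) = (R ^ (n + 1))⁻¹ * ((Real.sqrt R)⁻¹ * (Real.sqrt R)⁻¹) := by
      rw [← mul_inv, Real.mul_self_sqrt hR0.le, pow_succ, inv_pow]
    rw [e2]
    have hne : R ^ (n + 1) ≠ 0 := by positivity
    calc A * (Real.sqrt (M * C) * (R ^ (n + 1) * Real.sqrt R)) *
          ((R ^ (n + 1))⁻¹ * ((Real.sqrt R)⁻¹ * (Real.sqrt R)⁻¹))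
        = A * Real.sqrt (M * C) * (R ^ (n + 1) * (R ^ (n + 1))⁻¹) *
          (Real.sqrt R * (Real.sqrt R)⁻¹) * (Real.sqrt R)⁻¹ := by ring
      _ = _ := by
        rw [mul_inv_cancel₀ hne, mul_inv_cancel₀ hsq.ne']
        ring
  have hle : ∀ R, 1 ≤ R → ∀ y ∈ {y : X d | R ≤ ‖y‖},
      |u y| * (1 + ‖y‖)⁻¹ ^ (n + 2) ≤ |u y| * ‖y‖⁻¹ ^ (n + 2) := by
    intro R hR y hy
    have hy' : R ≤ ‖y‖ := hy
    have hy0 : 0 < ‖y‖ := by linarith
    apply mul_le_mul_of_nonneg_left _ (abs_nonneg _)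
    apply pow_le_pow_left₀ (by positivity)
    exact inv_anti₀ hy0 (by linarith)
  have htail : ∀ R, 1 ≤ R →
      IntegrableOn (fun y => |u y| * (1 + ‖y‖)⁻¹ ^ (n + 2)) {y | R ≤ ‖y‖} ν := by
    intro R hR
    refine Integrable.mono' (hmain R hR).1 hcont.aestronglyMeasurable ?_
    refine (ae_restrict_iff' (hsm R)).2 (Filter.Eventually.of_forall fun y hy => ?_)
    rw [Real.norm_of_nonneg (by positivity)]
    exact hle R hR y hy
  refine ⟨?_, ?_⟩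
  · rw [← integrableOn_univ]
    have hun : (univ : Set (X d)) = closedBall 0 1 ∪ {y | 1 ≤ ‖y‖} := by
      ext y
      simp only [mem_univ, mem_union, mem_closedBall_zero_iff, mem_ofPred_eq, true_iff]
      exact le_total _ _
    rw [hun]
    exact (hcont.continuousOn.integrableOn_compact (isCompact_closedBall 0 1)).union
      (htail 1 le_rfl)
  · intro R hR
    refine le_trans ?_ (hmain R hR).2
    exact setIntegral_mono_on (htail R hR) (hmain R hR).1 (hsm R) (hle R hR)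

end Pool.Agent.RZ
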