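import Pool.Agent.RZ.G1

/-!
H1: transfer of a measure carried by an n-dimensional subspace to coordinates. iota : X n ->li X d, W = range iota, the adjoint
iota* (ContinuousLinearMap.adjoint iota.toContinuousLinearMap) satisfies iota* (iota y) = y, and iota (iota* x) = x for x in W. nu_Y = nu.map iota*.
nu is concentrated on Supp nu = W (supp_compl_null), so nu = nu_Y.map iota, int f dnu = int f(iota y) dnu_Y(y).
Norms and inner products are preserved, so kr n eps (iota x - iota y) = kr n eps (x - y); Qf for e in X n is Qf for iota e; a test function psi on X n is lifted to psi o iota*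
on X d times a cutoff (psi(iota* x) cut_R(x - iota iota* x)), equal to psi on W, Lipschitz with compact support.
A continuous compactly supported f on X n is lifted in the same way.
-/

set_option autoImplicit false

open MeasureTheory Filter Topology Metric Set
open scoped RealInnerProductSpace ENNReal

namespace Pool.Agent.RZ

variable {d n : ℕ}

/-- a left inverse of a linear isometry, of norm at most one -/
private theorem H1_proj (ι : X n →ₗᵢ[ℝ] X d) :
    ∃ π : X d →L[ℝ] X n, (∀ y, π (ι y) = y) ∧ ∀ z, ‖π z‖ ≤ ‖z‖ := by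
  refine ⟨ContinuousLinearMap.adjoint ι.toContinuousLinearMap, fun y => ?_, fun z => ?_⟩
  · refine ext_inner_left ℝ fun w => ?_
    rw [ContinuousLinearMap.adjoint_inner_right]
    show ⟪ι w, ι y⟫ = ⟪w, y⟫
    exact ι.inner_map_map w y
  · set p := ContinuousLinearMap.adjoint ι.toContinuousLinearMap z with hp
    have h1 : ‖p‖ ^ 2 ≤ ‖z‖ * ‖p‖ := by
      rw [← real_inner_self_eq_norm_sq]
      nth_rewrite 1 [hp]
      rw [ContinuousLinearMap.adjoint_inner_left]
      refine (real_inner_le_norm _ _).trans ?_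
      have : ‖ι.toContinuousLinearMap p‖ = ‖p‖ := ι.norm_map p
      rw [this]
    rcases eq_or_lt_of_le (norm_nonneg p) with h2 | h2
    · rw [← h2]; exact norm_nonneg z
    · rw [sq] at h1
      exact le_of_mul_le_mul_right h1 h2

/-- extension of a function on the plane to the space -/
private noncomputable def H1_ex (ι : X n →ₗᵢ[ℝ] X d) (π : X d →L[ℝ] X n) (f : X n → ℝ) (z : X d) :
    ℝ := f (π z) * cut 1 (z - ι (π z))

private theorem H1_ex_apply (ι : X n →ₗᵢ[ℝ] X d) {π : X d →L[ℝ] X n} (hπ : ∀ y, π (ι y) = y)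
    (f : X n → ℝ) (y : X n) : H1_ex ι π f (ι y) = f y := by
  rw [H1_ex, hπ, sub_self, cut_eq_one one_pos (by rw [norm_zero]; exact zero_le_one), mul_one]

private theorem H1_ex_cont (ι : X n →ₗᵢ[ℝ] X d) (π : X d →L[ℝ] X n) {f : X n → ℝ}
    (hf : Continuous f) : Continuous (H1_ex ι π f) := by
  have h1 : Continuous fun z : X d => f (π z) := hf.comp π.continuous
  have h2 : Continuous fun z : X d => z - ι (π z) :=
    continuous_id.sub (ι.continuous.comp π.continuous)
  exact h1.mul ((cut_continuous one_pos).comp h2)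

private theorem H1_ex_supp (ι : X n →ₗᵢ[ℝ] X d) (π : X d →L[ℝ] X n) {f : X n → ℝ} {ρ : ℝ}
    (hf : ∀ x, ρ < ‖x‖ → f x = 0) (z : X d) (hz : ρ + 2 < ‖z‖) : H1_ex ι π f z = 0 := by
  rw [H1_ex]
  by_cases h1 : ρ < ‖π z‖
  · rw [hf _ h1, zero_mul]
  · rw [not_lt] at h1
    have h2 : 2 * (1 : ℝ) ≤ ‖z - ι (π z)‖ := by
      have h3 : ‖z‖ ≤ ‖z - ι (π z)‖ + ‖ι (π z)‖ := by
        calc ‖z‖ = ‖(z - ι (π z)) + ι (π z)‖ := by rw [sub_add_cancel]
          _ ≤ _ := norm_add_le _ _
      rw [ι.norm_map] at h3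
      linarith
    rw [cut_eq_zero one_pos h2, mul_zero]

private theorem H1_ex_tst (hn : 1 ≤ n) (ι : X n →ₗᵢ[ℝ] X d) {π : X d →L[ℝ] X n}
    (hπ : ∀ z, ‖π z‖ ≤ ‖z‖) {f : X n → ℝ} {L ρ : ℝ} (hf : Tst L ρ f) (hL : 0 ≤ L) (hρ : 0 < ρ) :
    Tst (L + L * ρ * 2) (ρ + 2) (H1_ex ι π f) := by
  refine ⟨fun x y => ?_, H1_ex_supp ι π hf.supp⟩
  have h1 : |f (π x) - f (π y)| ≤ L * ‖x - y‖ := by
    refine (hf.lip _ _).trans (mul_le_mul_of_nonneg_left ?_ hL)
    rw [← map_sub]
    exact hπ _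
  have h2 : |cut 1 (x - ι (π x)) - cut 1 (y - ι (π y))| ≤ 2 * ‖x - y‖ := by
    refine (cut_lip one_pos _ _).trans ?_
    rw [inv_one, one_mul]
    have h3 : x - ι (π x) - (y - ι (π y)) = (x - y) - ι (π (x - y)) := by
      rw [map_sub, map_sub]
      abel
    rw [h3]
    refine (norm_sub_le _ _).trans ?_
    rw [ι.norm_map]
    have := hπ (x - y)
    linarith
  have h3 := hf.abs_le hL hρ hn (π y)
  have h4 : H1_ex ι π f x - H1_ex ι π f y = (f (π x) - f (π y)) * cut 1 (x - ι (π x)) +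
      f (π y) * (cut 1 (x - ι (π x)) - cut 1 (y - ι (π y))) := by
    rw [H1_ex, H1_ex]; ring
  rw [h4]
  refine (abs_add_le _ _).trans ?_
  rw [abs_mul, abs_mul]
  have h5 : |f (π x) - f (π y)| * |cut 1 (x - ι (π x))| ≤ L * ‖x - y‖ * 1 := by
    refine mul_le_mul h1 ?_ (abs_nonneg _) (by positivity)
    rw [abs_of_nonneg (cut_nonneg _ _)]
    exact cut_le_one _ _
  have h6 : |f (π y)| * |cut 1 (x - ι (π x)) - cut 1 (y - ι (π y))| ≤
      L * ρ * (2 * ‖x - y‖) := mul_le_mul h3 h2 (abs_nonneg _) (by positivity)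
  calc |f (π x) - f (π y)| * |cut 1 (x - ι (π x))| +
        |f (π y)| * |cut 1 (x - ι (π x)) - cut 1 (y - ι (π y))| ≤
        L * ‖x - y‖ * 1 + L * ρ * (2 * ‖x - y‖) := add_le_add h5 h6
    _ = (L + L * ρ * 2) * ‖x - y‖ := by ring

private theorem H1_kr (ι : X n →ₗᵢ[ℝ] X d) (ε : ℝ) (x y : X n) :
    kr n ε (ι x - ι y) = kr n ε (x - y) := by
  rw [kr, kr, ← map_sub, ι.norm_map]

theorem transfer (hn : 1 ≤ n) {C : ℝ} (hC : 1 ≤ C) {ν : Measure (X d)} (h : Reg n C ν)
    (ι : X n →ₗᵢ[ℝ] X d) (hW : Supp ν = Set.range ι) :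
    ∃ ν₁ : Measure (X n), ν = ν₁.map ι ∧ Reg n C ν₁ ∧ Supp ν₁ = Set.univ := by
  obtain ⟨π, hπι, hπn⟩ := H1_proj ι
  have hemb : MeasurableEmbedding ι := ι.isometry.isClosedEmbedding.measurableEmbedding
  have hnull : ν (Set.range ι)ᶜ = 0 := by
    rw [← hW]
    exact supp_compl_null ν
  set ν₁ : Measure (X n) := ν.comap ι with hν₁
  have hmap : ν = ν₁.map ι := by
    rw [hν₁, hemb.map_comap]
    exact (Measure.restrict_eq_self_of_ae_mem (by
      rw [ae_iff]
      exact hnull)).symm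
  have happ : ∀ s, MeasurableSet s → ν (s ∩ Set.range ι) = ν s := by
    intro s hs
    rw [← measure_inter_add_sdiff s hemb.measurableSet_range (μ := ν)]
    have h1 : ν (s \ Set.range ι) = 0 := by
      refine measure_mono_null ?_ hnull
      intro z hz
      exact hz.2
    rw [h1, add_zero]
  have hball : ∀ x r, ν₁ (ball x r) = ν (ball (ι x) r) := by
    intro x r
    rw [hν₁, hemb.comap_apply, ← happ _ measurableSet_ball]
    congr 1
    ext z
    constructor
    · rintro ⟨y, hy, rfl⟩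
      refine ⟨?_, ⟨y, rfl⟩⟩
      rw [mem_ball, ι.isometry.dist_eq]
      exact hy
    · rintro ⟨hz, ⟨y, rfl⟩⟩
      refine ⟨y, ?_, rfl⟩
      rw [mem_ball, ι.isometry.dist_eq] at hz
      exact hz
  have hcball : ∀ x r, ν₁ (closedBall x r) = ν (closedBall (ι x) r) := by
    intro x r
    rw [hν₁, hemb.comap_apply, ← happ _ measurableSet_closedBall]
    congr 1
    ext z
    constructor
    · rintro ⟨y, hy, rfl⟩
      refine ⟨?_, ⟨y, rfl⟩⟩
      rw [mem_closedBall, ι.isometry.dist_eq]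
      exact hy
    · rintro ⟨hz, ⟨y, rfl⟩⟩
      refine ⟨y, ?_, rfl⟩
      rw [mem_closedBall, ι.isometry.dist_eq] at hz
      exact hz
  have hmem : ∀ x, ι x ∈ Supp ν := by
    intro x
    rw [hW]
    exact ⟨x, rfl⟩
  have hint : ∀ F : X d → ℝ, ∫ z, F z ∂ν = ∫ y, F (ι y) ∂ν₁ := by
    intro F
    rw [hmap]
    exact hemb.integral_map F
  have hlam : ∀ (ε : ℝ) (ψ : X n → ℝ) (y : X n),
      Lam n ε ν (H1_ex ι π ψ) (ι y) = Lam n ε ν₁ ψ y := by
    intro ε ψ y
    rw [Lam, Lam, hint]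
    simp only [H1_ex_apply ι hπι, H1_kr]
  refine ⟨ν₁, hmap, ⟨?_, ?_, ?_, ?_⟩, ?_⟩
  · intro x r hr
    rw [hcball]
    exact h.gr _ _ hr
  · intro x _ r hr
    rw [hcball]
    exact h.lo _ (hmem x) r hr
  · intro ε hε e he f ψ hf hfc hψ hψc
    have hcs : ∀ g : X n → ℝ, HasCompactSupport g → HasCompactSupport (H1_ex ι π g) := by
      intro g hg
      obtain ⟨ρ, hρ⟩ := hg.isCompact.isBounded.subset_closedBall (0 : X n)
      refine HasCompactSupport.intro (isCompact_closedBall 0 (ρ + 2)) fun z hz => ?_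
      rw [mem_closedBall, dist_zero_right, not_le] at hz
      refine H1_ex_supp ι π (fun x hx => ?_) z hz
      by_contra hne
      have h1 := hρ (subset_tsupport g hne)
      rw [mem_closedBall, dist_zero_right] at h1
      linarith
    have h1 := h.l2 ε hε (ι e) (by rw [ι.norm_map]; exact he) (H1_ex ι π f) (H1_ex ι π ψ)
      (H1_ex_cont ι π hf) (hcs f hfc) (H1_ex_cont ι π hψ) (hcs ψ hψc)
    have h2 : Qf n ε ν (ι e) (H1_ex ι π f) (H1_ex ι π ψ) = Qf n ε ν₁ e f ψ := by
      rw [Qf, Qf, hint]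
      simp only [hint, H1_ex_apply ι hπι, H1_kr, ← map_sub, ι.inner_map_map]
      simp only [map_sub, H1_kr]
    rw [h2, hint, hint] at h1
    simpa only [H1_ex_apply ι hπι] using h1
  · intro e L ρ ψ hψ h0
    have hψ' : Tst |L| (|ρ| + 1) ψ :=
      hψ.mono (le_abs_self L) ((le_abs_self ρ).trans (by linarith))
    have h1 := h.refl (ι e) _ _ _ (H1_ex_tst hn ι hπn hψ' (abs_nonneg L) (by positivity)) (by
      rw [hint]
      simpa only [H1_ex_apply ι hπι] using h0)
    refine h1.congr fun ε => ?_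
    rw [hint]
    simp only [hlam, ι.inner_map_map]
  · ext x
    constructor
    · intro _; trivial
    · intro _ r hr
      rw [hball]
      exact hmem x r hr

end Pool.Agent.RZ
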