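import Pool.Agent.RZ.G1

/-!
H2: comparison of measures, bounded density.
compare: for an open set U containing A with beta(U) <= beta(A) + delta, cover A alpha-a.e. by disjoint closed balls of radii <= 1 inside U with centres in A
(Besicovitch.exists_disjoint_closedBall_covering_ae); alpha(A) <= sum alpha(B_i) <= c sum beta(B_i) <= c beta(U).
density: nu <= c volume, so nu << volume, nu = volume.withDensity (rnDeriv), and the bounds for all Borel sets give the bounds of the density a.e.
-/

set_option autoImplicit false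

open MeasureTheory Filter Topology Metric Set
open scoped RealInnerProductSpace ENNReal

namespace Pool.Agent.RZ

variable {d n : ℕ}

theorem compare (α β : Measure (X d)) [IsLocallyFiniteMeasure α] [IsLocallyFiniteMeasure β]
    (c : ℝ≥0∞) (hc : c ≠ ⊤) (A : Set (X d))
    (h : ∀ x ∈ A, ∀ δ : ℝ, 0 < δ → ∃ r, 0 < r ∧ r ≤ δ ∧ α (closedBall x r) ≤ c * β (closedBall x r)) :
    α A ≤ c * β A := by
  have key : ∀ U : Set (X d), IsOpen U → A ⊆ U → α A ≤ c * β U := by
    intro U hU hAU
    have hR : ∀ x : X d, ∃ R : ℝ, x ∈ A → 0 < R ∧ closedBall x R ⊆ U := by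
      intro x
      by_cases hx : x ∈ A
      · obtain ⟨R, hR0, hR⟩ := Metric.nhds_basis_closedBall.mem_iff.1 (hU.mem_nhds (hAU hx))
        exact ⟨R, fun _ => ⟨hR0, hR⟩⟩
      · exact ⟨1, fun h => absurd h hx⟩
    choose R hR using hR
    obtain ⟨t, r, htc, hts, hr, hcov, hdis⟩ := Besicovitch.exists_disjoint_closedBall_covering_ae α
      (fun x => {r | α (closedBall x r) ≤ c * β (closedBall x r)}) A (by
        intro x hx δ hδ
        obtain ⟨r, hr0, hrδ, hr⟩ := h x hx (δ / 2) (by linarith)
        exact ⟨r, hr, hr0, by linarith⟩) R (fun x hx => (hR x hx).1)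
    calc α A ≤ α ((A \ ⋃ x ∈ t, closedBall x (r x)) ∪ ⋃ x ∈ t, closedBall x (r x)) := by
          refine measure_mono fun x hx => ?_
          by_cases hx' : x ∈ ⋃ x ∈ t, closedBall x (r x)
          · exact Or.inr hx'
          · exact Or.inl ⟨hx, hx'⟩
      _ ≤ α (A \ ⋃ x ∈ t, closedBall x (r x)) + α (⋃ x ∈ t, closedBall x (r x)) :=
          measure_union_le _ _
      _ = α (⋃ x ∈ t, closedBall x (r x)) := by rw [hcov, zero_add]
      _ ≤ ∑' x : t, α (closedBall (x : X d) (r x)) := measure_biUnion_le α htc _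
      _ ≤ ∑' x : t, c * β (closedBall (x : X d) (r x)) :=
          ENNReal.tsum_le_tsum fun x => (hr x x.2).1
      _ = c * ∑' x : t, β (closedBall (x : X d) (r x)) := ENNReal.tsum_mul_left
      _ = c * β (⋃ x ∈ t, closedBall x (r x)) := by
          rw [measure_biUnion htc hdis fun x _ => isClosed_closedBall.measurableSet]
      _ ≤ c * β U := by
          gcongr
          refine iUnion₂_subset fun x hx => ?_
          exact (closedBall_subset_closedBall (hr x hx).2.2.le).trans (hR x (hts hx)).2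
  refine ENNReal.le_of_forall_pos_le_add fun ε hε _ => ?_
  obtain ⟨δ, hδ0, hδ⟩ : ∃ δ : ℝ≥0∞, δ ≠ 0 ∧ c * δ ≤ ε := by
    by_cases h0 : c = 0
    · exact ⟨1, one_ne_zero, by rw [h0, zero_mul]; exact zero_le⟩
    · refine ⟨ε / c, ?_, ?_⟩
      · refine (ENNReal.div_pos ?_ hc).ne'
        exact_mod_cast hε.ne'
      · rw [ENNReal.mul_div_cancel h0 hc]
  obtain ⟨U, hAU, hU, hβ⟩ := A.exists_isOpen_le_add β hδ0
  calc α A ≤ c * β U := key U hU hAU
    _ ≤ c * (β A + δ) := by gcongr
    _ = c * β A + c * δ := mul_add _ _ _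
    _ ≤ c * β A + ε := by gcongr

end Pool.Agent.RZ
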