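import Pool.Agent.RZ.G1
import Pool.Agent.RZ.H2a

/-!
H2: comparison of measures, bounded density.
compare: for an open set U containing A with beta(U) <= beta(A) + delta, cover A alpha-a.e. by disjoint closed balls of radii <= 1 inside U with centres in A
(Besicovitch.exists_disjoint_closedBall_covering_ae); alpha(A) <= sum alpha(B_i) <= c sum beta(B_i) <= c beta(U).
density: nu <= c volume, so nu << volume, nu = volume.withDensity (rnDeriv), and the bounds for all Borel sets give the bounds of the density a.e.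
-/

set_option autoImplicit false

open MeasureTheory Filter Topology Metric Set
open scoped RealInnerProductSpace ENNReal

namespace Pool.Agent.RZ

variable {d n : ℕ}

theorem H2b_bounds {f : X n → ℝ≥0∞} (hf : Measurable f) {a b : ℝ≥0∞}
    (h1 : ∀ s, MeasurableSet s → a * volume s ≤ ∫⁻ x in s, f x ∂volume)
    (h2 : ∀ s, MeasurableSet s → ∫⁻ x in s, f x ∂volume ≤ b * volume s) :
    ∀ᵐ x ∂(volume : Measure (X n)), a ≤ f x ∧ f x ≤ b := by
  have h3 : (fun _ => a) ≤ᵐ[(volume : Measure (X n))] f := by
    refine ae_le_of_forall_setLIntegral_le_of_sigmaFinite measurable_const fun s hs _ => ?_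
    rw [setLIntegral_const]
    exact h1 s hs
  have h4 : f ≤ᵐ[(volume : Measure (X n))] fun _ => b := by
    refine ae_le_of_forall_setLIntegral_le_of_sigmaFinite hf fun s hs _ => ?_
    rw [setLIntegral_const]
    exact h2 s hs
  filter_upwards [h3, h4] with x hx1 hx2
  exact ⟨hx1, hx2⟩

theorem density (hn : 1 ≤ n) {C : ℝ} (hC : 1 ≤ C) {ν : Measure (X n)} (hg : Gr n C ν)
    (hl : Lo n C ν) (hs : Supp ν = Set.univ) :
    ∃ (D : ℝ) (h : X n → ℝ), 1 ≤ D ∧ Measurable h ∧ (∀ x, D⁻¹ ≤ h x) ∧ (∀ x, h x ≤ D) ∧
      ν = volume.withDensity fun x => ENNReal.ofReal (h x) := by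
  have : IsLocallyFiniteMeasure ν := hg.isLocallyFinite
  have hC0 : 0 < C := by linarith
  set ω : ℝ := (volume : Measure (X n)).real (closedBall 0 1) with hω
  have hωfin : (volume : Measure (X n)) (closedBall 0 1) ≠ ⊤ :=
    measure_closedBall_lt_top.ne
  have hω0 : 0 < ω := by
    rw [hω]
    refine ENNReal.toReal_pos ?_ hωfin
    exact (measure_closedBall_pos _ _ one_pos).ne'
  have hvol : ∀ (x : X n) (r : ℝ), 0 < r →
      (volume : Measure (X n)) (closedBall x r) = ENNReal.ofReal (r ^ n * ω) := by
    intro x r hr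
    rw [Measure.addHaar_closedBall' _ _ hr.le, finrank_euclideanSpace, Fintype.card_fin,
      ENNReal.ofReal_mul (by positivity), hω, ofReal_measureReal hωfin]
  set c : ℝ := C / ω with hc
  set c' : ℝ := C * ω with hc'
  have hc0 : 0 < c := by positivity
  have hc'0 : 0 < c' := by positivity
  have hup : ∀ A : Set (X n), ν A ≤ ENNReal.ofReal c * volume A := by
    intro A
    refine compare ν volume (ENNReal.ofReal c) ENNReal.ofReal_ne_top A fun x _ δ hδ =>
      ⟨δ, hδ, le_rfl, ?_⟩
    refine (hg x δ hδ).trans (le_of_eq ?_)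
    rw [hvol x δ hδ, ← ENNReal.ofReal_mul hc0.le]
    congr 1
    rw [hc]
    field_simp
  have hlow : ∀ A : Set (X n), volume A ≤ ENNReal.ofReal c' * ν A := by
    intro A
    refine compare volume ν (ENNReal.ofReal c') ENNReal.ofReal_ne_top A fun x _ δ hδ =>
      ⟨δ, hδ, le_rfl, ?_⟩
    have hx : x ∈ Supp ν := by rw [hs]; exact mem_univ x
    rw [hvol x δ hδ]
    refine le_trans (le_of_eq ?_) (mul_le_mul_right (hl x hx δ hδ) _)
    rw [← ENNReal.ofReal_mul hc'0.le]
    congr 1
    rw [hc']
    field_simp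
  have hac : ν ≪ (volume : Measure (X n)) := by
    refine Measure.AbsolutelyContinuous.mk fun s _ h0 => ?_
    have := hup s
    rw [h0, mul_zero] at this
    exact le_antisymm this zero_le
  set f := ν.rnDeriv (volume : Measure (X n)) with hf
  have hfm : Measurable f := Measure.measurable_rnDeriv _ _
  have hνf : (volume : Measure (X n)).withDensity f = ν :=
    Measure.withDensity_rnDeriv_eq _ _ hac
  have hint : ∀ s, MeasurableSet s → ∫⁻ x in s, f x ∂volume = ν s := by
    intro s hs
    rw [← withDensity_apply f hs, hνf]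
  have hb := H2b_bounds hfm (a := ENNReal.ofReal c'⁻¹) (b := ENNReal.ofReal c)
    (fun s hs => by
      rw [hint s hs]
      refine (mul_le_mul_right (hlow s) _).trans (le_of_eq ?_)
      rw [← mul_assoc, ← ENNReal.ofReal_mul (by positivity), inv_mul_cancel₀ hc'0.ne',
        ENNReal.ofReal_one, one_mul])
    (fun s hs => by
      rw [hint s hs]
      exact hup s)
  set D : ℝ := max 1 (max c c') with hD
  have hD1 : 1 ≤ D := le_max_left _ _
  have hD0 : 0 < D := by linarith
  have hcD : c ≤ D := (le_max_left _ _).trans (le_max_right _ _)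
  have hc'D : c' ≤ D := (le_max_right _ _).trans (le_max_right _ _)
  have hDinv : D⁻¹ ≤ D := (inv_le_one_of_one_le₀ hD1).trans hD1
  refine ⟨D, fun x => max D⁻¹ (min D (f x).toReal), hD1, ?_, fun x => le_max_left _ _,
    fun x => max_le hDinv (min_le_left _ _), ?_⟩
  · exact measurable_const.max (measurable_const.min hfm.ennreal_toReal)
  · rw [← hνf]
    refine withDensity_congr_ae ?_
    filter_upwards [hb] with x hx
    have hfin : f x ≠ ⊤ := (hx.2.trans_lt ENNReal.ofReal_lt_top).ne
    have h1 : (f x).toReal ≤ D := (ENNReal.toReal_le_of_le_ofReal hc0.le hx.2).trans hcD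
    have h2 : D⁻¹ ≤ (f x).toReal := by
      refine le_trans (inv_anti₀ hc'0 hc'D) ?_
      exact (ENNReal.ofReal_le_iff_le_toReal hfin).1 hx.1
    rw [min_eq_right h1, max_eq_right h2, ENNReal.ofReal_toReal hfin]

end Pool.Agent.RZ
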