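import Pool.Agent.RZ.H2

/-!
H3: approximation of test functions. h bounded between 1/D and D, measurable. rho_k a normed smooth bump (ContDiffBump) with radius 1/(k+1);
h_k = convolution of h with rho_k: Lipschitz (rho_k Lipschitz with compact support, h bounded), 1/D <= h_k <= D, h_k -> h a.e. (ContDiffBump.ae_convolution_tendsto_right_of_locallyIntegrable).
g continuous, Lipschitz, compact support (g = partial derivative of a smooth function, int g = 0).
psi_k = g/h_k - c_k theta, theta = cut rho: Lipschitz, c_k = int (g/h_k) dnu / int theta dnu -> int g dx/.. = 0. ||psi_k - g/h||_{L2(nu)} -> 0 by dominated convergence.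
-/

set_option autoImplicit false

open MeasureTheory Filter Topology Metric Set
open scoped RealInnerProductSpace ENNReal

namespace Pool.Agent.RZ

variable {n : ℕ}

/-- mollification by a bump: integrability -/
private theorem H3_int {D : ℝ} {h : X n → ℝ} (hm : Measurable h)
    (h0 : ∀ x, 0 ≤ h x) (h2 : ∀ x, h x ≤ D) (φ : ContDiffBump (0 : X n)) (x : X n) :
    Integrable (fun y => φ.normed volume (x - y) * h y) := by
  have h3 : Integrable (fun y => φ.normed volume (x - y)) := φ.integrable_normed.comp_sub_left x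
  refine (h3.mul_const D).mono
    ((h3.aestronglyMeasurable).mul hm.aestronglyMeasurable) (Eventually.of_forall fun y => ?_)
  rw [norm_mul, norm_mul]
  refine mul_le_mul_of_nonneg_left ?_ (norm_nonneg _)
  rw [Real.norm_of_nonneg (h0 y)]
  exact (h2 y).trans (le_abs_self D)

private theorem H3_bounds {D : ℝ} (hD : 1 ≤ D) {h : X n → ℝ} (hm : Measurable h)
    (h1 : ∀ x, D⁻¹ ≤ h x) (h2 : ∀ x, h x ≤ D) (φ : ContDiffBump (0 : X n)) (x : X n) :
    D⁻¹ ≤ ∫ y, φ.normed volume (x - y) * h y ∧ ∫ y, φ.normed volume (x - y) * h y ≤ D := by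
  have hD0 : 0 < D := by linarith
  have h0 : ∀ x, 0 ≤ h x := fun x => (inv_pos.2 hD0).le.trans (h1 x)
  have h3 : Integrable (fun y => φ.normed volume (x - y)) := φ.integrable_normed.comp_sub_left x
  have h4 : ∫ y, φ.normed volume (x - y) = 1 := by
    rw [integral_sub_left_eq_self (fun y => φ.normed volume y) volume x]
    exact φ.integral_normed
  have h5 := H3_int hm h0 h2 φ x
  constructor
  · calc D⁻¹ = ∫ y, φ.normed volume (x - y) * D⁻¹ := by rw [integral_mul_const, h4, one_mul]
      _ ≤ _ := integral_mono (h3.mul_const _) h5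
        (fun y => mul_le_mul_of_nonneg_left (h1 y) (φ.nonneg_normed _))
  · calc ∫ y, φ.normed volume (x - y) * h y ≤ ∫ y, φ.normed volume (x - y) * D :=
          integral_mono h5 (h3.mul_const _)
            (fun y => mul_le_mul_of_nonneg_left (h2 y) (φ.nonneg_normed _))
      _ = D := by rw [integral_mul_const, h4, one_mul]

private theorem H3_lip {D : ℝ} (hD : 1 ≤ D) {h : X n → ℝ} (hm : Measurable h)
    (h1 : ∀ x, D⁻¹ ≤ h x) (h2 : ∀ x, h x ≤ D) (φ : ContDiffBump (0 : X n)) :
    ∃ K : ℝ, 0 ≤ K ∧ ∀ x x', |(∫ y, φ.normed volume (x - y) * h y) -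
      ∫ y, φ.normed volume (x' - y) * h y| ≤ K * ‖x - x'‖ := by
  have hD0 : 0 < D := by linarith
  have h0 : ∀ x, 0 ≤ h x := fun x => (inv_pos.2 hD0).le.trans (h1 x)
  obtain ⟨K, hK⟩ := ContDiff.lipschitzWith_of_hasCompactSupport
    (φ.hasCompactSupport_normed (μ := (volume : Measure (X n)))) (φ.contDiff_normed (n := 1))
    (by norm_num)
  set V : ℝ := volume.real (closedBall (0 : X n) φ.rOut) with hV
  refine ⟨K * D * (V + V), by positivity, fun x x' => ?_⟩
  have hi := H3_int hm h0 h2 φ x
  have hi' := H3_int hm h0 h2 φ x'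
  rw [← integral_sub hi hi']
  set S : Set (X n) := closedBall x φ.rOut ∪ closedBall x' φ.rOut with hS
  have hzero : ∀ z : X n, ∀ y, y ∉ closedBall z φ.rOut → φ.normed volume (z - y) = 0 := by
    intro z y hy
    have h6 : z - y ∉ Function.support (φ.normed (volume : Measure (X n))) := by
      rw [φ.support_normed_eq]
      intro h7
      apply hy
      rw [mem_ball, dist_zero_right] at h7
      rw [mem_closedBall, dist_eq_norm, norm_sub_rev]
      exact h7.le
    simpa using h6
  have hsupp : ∀ y, y ∉ S → φ.normed volume (x - y) * h y - φ.normed volume (x' - y) * h y = 0 := by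
    intro y hy
    rw [hS, mem_union, not_or] at hy
    rw [hzero x y hy.1, hzero x' y hy.2]
    ring
  have hSm : MeasurableSet S := isClosed_closedBall.measurableSet.union
    isClosed_closedBall.measurableSet
  have hSfin : volume S < ⊤ := (measure_union_le _ _).trans_lt
    (ENNReal.add_lt_top.2 ⟨measure_closedBall_lt_top, measure_closedBall_lt_top⟩)
  rw [← setIntegral_eq_integral_of_forall_compl_eq_zero hsupp]
  rw [← Real.norm_eq_abs]
  have hb : ∀ y ∈ S, ‖φ.normed volume (x - y) * h y - φ.normed volume (x' - y) * h y‖ ≤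
      K * ‖x - x'‖ * D := by
    intro y _
    rw [← sub_mul, norm_mul, Real.norm_of_nonneg (h0 y)]
    refine mul_le_mul ?_ (h2 y) (h0 y) (by positivity)
    have := hK.dist_le_mul (x - y) (x' - y)
    rw [dist_eq_norm, dist_eq_norm] at this
    rwa [show x - y - (x' - y) = x - x' by abel] at this
  refine (norm_setIntegral_le_of_norm_le_const hSfin hb).trans ?_
  have hVS : volume.real S ≤ V + V := by
    have h8 : volume.real S ≤ volume.real (closedBall x φ.rOut)
        + volume.real (closedBall x' φ.rOut) := measureReal_union_le _ _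
    refine h8.trans (le_of_eq ?_)
    rw [hV, Measure.real, Measure.real, Measure.real, Measure.addHaar_closedBall_center,
      Measure.addHaar_closedBall_center volume x']
  calc K * ‖x - x'‖ * D * volume.real S ≤ K * ‖x - x'‖ * D * (V + V) := by gcongr
    _ = K * D * (V + V) * ‖x - x'‖ := by ring

theorem approx_test (hn : 1 ≤ n) {D : ℝ} (hD : 1 ≤ D) {h : X n → ℝ} (hm : Measurable h)
    (h1 : ∀ x, D⁻¹ ≤ h x) (h2 : ∀ x, h x ≤ D) {ν : Measure (X n)}
    (hν : ν = volume.withDensity fun x => ENNReal.ofReal (h x))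
    {L ρ : ℝ} (hρ : 0 < ρ) {g : X n → ℝ} (hg : Tst L ρ g) (h0 : ∫ x, g x = 0) (η : ℝ) (hη : 0 < η) :
    ∃ (L' : ℝ) (ψ : X n → ℝ), Tst L' (2 * ρ) ψ ∧ ∫ x, ψ x ∂ν = 0 ∧
      ∫ x, (ψ x - g x / h x) ^ 2 ∂ν ≤ η := by
  have hD0 : 0 < D := by linarith
  have hpos : ∀ x, 0 < h x := fun x => lt_of_lt_of_le (inv_pos.2 hD0) (h1 x)
  -- WLOG properties of g
  have hgc : Continuous g := hg.continuous
  have hgs : HasCompactSupport g := hg.hasCompactSupport
  obtain ⟨G, hG⟩ : ∃ G : ℝ, ∀ x, |g x| ≤ G := by
    obtain ⟨G, hG⟩ := hgs.exists_bound_of_continuous hgc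
    exact ⟨G, fun x => by simpa using hG x⟩
  have hG0 : 0 ≤ G := (abs_nonneg _).trans (hG 0)
  have hL0 : ∀ x y, |g x - g y| ≤ |L| * ‖x - y‖ := fun x y =>
    (hg.lip x y).trans (mul_le_mul_of_nonneg_right (le_abs_self L) (norm_nonneg _))
  -- the measure ν
  have hνac : ν ≪ volume := by rw [hν]; exact withDensity_absolutelyContinuous _ _
  have hνle : ν ≤ ENNReal.ofReal D • (volume : Measure (X n)) := by
    rw [hν, ← withDensity_const]
    exact withDensity_mono (Eventually.of_forall fun x => ENNReal.ofReal_le_ofReal (h2 x))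
  have hνfin : ∀ K : Set (X n), IsCompact K → ν K < ⊤ := by
    intro K hK
    refine (hνle K).trans_lt ?_
    rw [Measure.smul_apply, smul_eq_mul]
    exact ENNReal.mul_lt_top ENNReal.ofReal_lt_top hK.measure_lt_top
  have : IsFiniteMeasureOnCompacts ν := ⟨fun K hK => hνfin K hK⟩
  have hint : ∀ f : X n → ℝ, Measurable f → ∫ x, f x ∂ν = ∫ x, h x * f x := by
    intro f _
    rw [hν, integral_withDensity_eq_integral_toReal_smul (by fun_prop)
      (Eventually.of_forall fun x => ENNReal.ofReal_lt_top)]
    refine integral_congr_ae (Eventually.of_forall fun y => ?_)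
    simp only [smul_eq_mul, ENNReal.toReal_ofReal (hpos y).le]
  -- the bumps
  let φ : ℕ → ContDiffBump (0 : X n) := fun k =>
    { rIn := 1 / (k + 1 : ℝ)
      rOut := 2 * (1 / (k + 1 : ℝ))
      rIn_pos := by positivity
      rIn_lt_rOut := by
        have : (0 : ℝ) < 1 / (k + 1 : ℝ) := by positivity
        linarith }
  have hφ : Tendsto (fun i => (φ i).rOut) atTop (𝓝 0) := by
    have := (tendsto_one_div_add_atTop_nhds_zero_nat (𝕜 := ℝ)).const_mul 2
    simpa [φ] using this
  have hφ' : ∀ᶠ i in atTop, (φ i).rOut ≤ 2 * (φ i).rIn := Eventually.of_forall fun i => le_rfl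
  have hloc : LocallyIntegrable h (volume : Measure (X n)) := by
    refine (locallyIntegrable_const D).mono hm.aestronglyMeasurable ?_
    refine Eventually.of_forall fun x => ?_
    rw [Real.norm_of_nonneg (hpos x).le, Real.norm_of_nonneg hD0.le]
    exact h2 x
  let hk : ℕ → X n → ℝ := fun k x => ∫ y, (φ k).normed volume (x - y) * h y
  have hae0 := ContDiffBump.ae_convolution_tendsto_right_of_locallyIntegrable
    (μ := (volume : Measure (X n))) hφ hφ' hloc
  have hae : ∀ᵐ x ∂ν, Tendsto (fun k => hk k x) atTop (𝓝 (h x)) := by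
    refine hνac.ae_le ?_
    filter_upwards [hae0] with x hx
    refine hx.congr fun k => ?_
    rw [convolution_eq_swap]
    rfl
  have hb1 : ∀ k x, D⁻¹ ≤ hk k x := fun k x => (H3_bounds hD hm h1 h2 (φ k) x).1
  have hb2 : ∀ k x, hk k x ≤ D := fun k x => (H3_bounds hD hm h1 h2 (φ k) x).2
  have hkpos : ∀ k x, 0 < hk k x := fun k x => lt_of_lt_of_le (inv_pos.2 hD0) (hb1 k x)
  choose K hK0 hK using fun k => H3_lip hD hm h1 h2 (φ k)
  -- ψ_k = g / h_k is a test function
  have hinvle : ∀ k x, (hk k x)⁻¹ ≤ D := fun k x => by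
    rw [inv_le_comm₀ (hkpos k x) hD0]; exact hb1 k x
  have hψ0 : ∀ k, Tst (|L| * D + G * (D * D * K k)) (2 * ρ) (fun x => g x / hk k x) := by
    intro k
    constructor
    · intro x y
      have e1 : g x / hk k x - g y / hk k y =
          (g x - g y) * (hk k x)⁻¹ + g y * ((hk k y - hk k x) * (hk k x)⁻¹ * (hk k y)⁻¹) := by
        have := (hkpos k x).ne'
        have := (hkpos k y).ne'
        field_simp
        ring
      rw [e1]
      refine (abs_add_le _ _).trans ?_
      rw [add_mul]
      refine add_le_add ?_ ?_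
      · rw [abs_mul, abs_of_pos (inv_pos.2 (hkpos k x))]
        calc |g x - g y| * (hk k x)⁻¹ ≤ (|L| * ‖x - y‖) * D :=
              mul_le_mul (hL0 x y) (hinvle k x) (inv_pos.2 (hkpos k x)).le (by positivity)
          _ = |L| * D * ‖x - y‖ := by ring
      · rw [abs_mul, abs_mul, abs_mul, abs_of_pos (inv_pos.2 (hkpos k x)),
          abs_of_pos (inv_pos.2 (hkpos k y))]
        have e2 := hK k y x
        rw [norm_sub_rev] at e2
        calc |g y| * (|hk k y - hk k x| * (hk k x)⁻¹ * (hk k y)⁻¹)
            ≤ G * ((K k * ‖x - y‖) * D * D) := by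
              have := hK0 k
              refine mul_le_mul (hG y) ?_ (mul_nonneg (mul_nonneg (abs_nonneg _)
                (inv_pos.2 (hkpos k x)).le) (inv_pos.2 (hkpos k y)).le) hG0
              refine mul_le_mul ?_ (hinvle k y) (inv_pos.2 (hkpos k y)).le (by positivity)
              exact mul_le_mul e2 (hinvle k x) (inv_pos.2 (hkpos k x)).le (by positivity)
          _ = G * (D * D * K k) * ‖x - y‖ := by ring
    · intro x hx
      have : g x = 0 := hg.supp x (by linarith)
      rw [this, zero_div]
  -- the corrector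
  have hθ : Tst ρ⁻¹ (2 * ρ) (cut ρ : X n → ℝ) := cut_tst hρ
  set m : ℝ := ∫ x, cut ρ x ∂ν with hmdef
  have hθint : Integrable (cut ρ : X n → ℝ) ν :=
    (cut_continuous hρ).integrable_of_hasCompactSupport (cut_hasCompactSupport hρ)
  have hmpos : 0 < m := by
    rw [hmdef, hint _ (cut_continuous hρ).measurable]
    have e3 : 0 < ∫ x in closedBall (0 : X n) ρ, D⁻¹ := by
      rw [setIntegral_const, smul_eq_mul]
      refine mul_pos ?_ (inv_pos.2 hD0)
      exact ENNReal.toReal_pos (measure_closedBall_pos volume _ hρ).ne'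
        measure_closedBall_lt_top.ne
    refine e3.trans_le ?_
    have hicut : Integrable (fun x => h x * cut ρ x) (volume : Measure (X n)) := by
      have h9 : Integrable (cut ρ : X n → ℝ) (volume : Measure (X n)) :=
        (cut_continuous hρ).integrable_of_hasCompactSupport (cut_hasCompactSupport hρ)
      refine (h9.const_mul D).mono (hm.aestronglyMeasurable.mul h9.aestronglyMeasurable)
        (Eventually.of_forall fun y => ?_)
      rw [norm_mul, norm_mul]
      refine mul_le_mul_of_nonneg_right ?_ (norm_nonneg _)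
      rw [Real.norm_of_nonneg (hpos y).le, Real.norm_of_nonneg hD0.le]
      exact h2 y
    calc ∫ x in closedBall (0 : X n) ρ, D⁻¹ ≤ ∫ x in closedBall (0 : X n) ρ, h x * cut ρ x := by
          refine setIntegral_mono_on ?_ hicut.integrableOn isClosed_closedBall.measurableSet ?_
          · exact integrableOn_const measure_closedBall_lt_top.ne
          · intro x hx
            rw [mem_closedBall, dist_zero_right] at hx
            rw [cut_eq_one hρ hx, mul_one]
            exact h1 x
      _ ≤ ∫ x, h x * cut ρ x := setIntegral_le_integral hicut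
          (Eventually.of_forall fun x => mul_nonneg (hpos x).le (cut_nonneg ρ x))
  let c : ℕ → ℝ := fun k => (∫ x, g x / hk k x ∂ν) / m
  -- measurability
  have hkm : ∀ k, Measurable (hk k) := by
    intro k
    have : Continuous (hk k) := by
      refine continuous_iff_continuousAt.2 fun x => ?_
      rw [ContinuousAt, tendsto_iff_norm_sub_tendsto_zero]
      have e4 : Tendsto (fun y : X n => K k * ‖y - x‖) (𝓝 x) (𝓝 0) := by
        have : Continuous fun y : X n => K k * ‖y - x‖ := by fun_prop
        simpa using this.tendsto x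
      exact squeeze_zero (fun y => norm_nonneg _) (fun y => hK k y x) e4
    exact this.measurable
  have hbound : Integrable (fun x => D * |g x|) ν := by
    have h9 : Integrable g ν := hgc.integrable_of_hasCompactSupport hgs
    exact h9.abs.const_mul D
  have hc0 : Tendsto c atTop (𝓝 0) := by
    have e5 : Tendsto (fun k => ∫ x, g x / hk k x ∂ν) atTop (𝓝 (∫ x, g x / h x ∂ν)) := by
      refine tendsto_integral_of_dominated_convergence (fun x => D * |g x|)
        (fun k => (hgc.measurable.div (hkm k)).aestronglyMeasurable) hbound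
        (fun k => Eventually.of_forall fun x => ?_) ?_
      · rw [Real.norm_eq_abs, abs_div, abs_of_pos (hkpos k x), div_eq_mul_inv, mul_comm]
        exact mul_le_mul_of_nonneg_right (hinvle k x) (abs_nonneg _)
      · filter_upwards [hae] with x hx
        exact Tendsto.div tendsto_const_nhds hx (hpos x).ne'
    have e6 : ∫ x, g x / h x ∂ν = 0 := by
      rw [hint (fun x => g x / h x) (hgc.measurable.div hm), ← h0]
      refine integral_congr_ae (Eventually.of_forall fun x => ?_)
      have := (hpos x).ne'
      simp only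
      field_simp
    rw [e6] at e5
    have := e5.div_const m
    simpa [c] using this
  have hfin : Tendsto (fun k => ∫ x, (g x / hk k x - c k * cut ρ x - g x / h x) ^ 2 ∂ν) atTop
      (𝓝 (∫ _, (0 : ℝ) ∂ν)) := by
    have hev : ∀ᶠ k in atTop, |c k| ≤ 1 := by
      have := hc0.abs
      rw [abs_zero] at this
      exact (this.eventually (gt_mem_nhds (by norm_num : (0:ℝ) < 1))).mono fun k hk => hk.le
    refine tendsto_integral_filter_of_dominated_convergence
      (fun x => (2 * (D * |g x|) + cut ρ x) ^ 2) ?_ ?_ ?_ ?_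
    · exact Eventually.of_forall fun k => (((((hgc.measurable.div (hkm k)).sub
        ((cut_continuous hρ).measurable.const_mul _)).sub
        (hgc.measurable.div hm)).pow_const 2)).aestronglyMeasurable
    · filter_upwards [hev] with k hck
      refine Eventually.of_forall fun x => ?_
      rw [Real.norm_eq_abs, abs_pow]
      refine pow_le_pow_left₀ (abs_nonneg _) ?_ 2
      have e7 : |g x / hk k x| ≤ D * |g x| := by
        rw [abs_div, abs_of_pos (hkpos k x), div_eq_mul_inv, mul_comm]
        exact mul_le_mul_of_nonneg_right (hinvle k x) (abs_nonneg _)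
      have e8 : |g x / h x| ≤ D * |g x| := by
        rw [abs_div, abs_of_pos (hpos x), div_eq_mul_inv, mul_comm]
        refine mul_le_mul_of_nonneg_right ?_ (abs_nonneg _)
        rw [inv_le_comm₀ (hpos x) hD0]; exact h1 x
      have e9 : |c k * cut ρ x| ≤ cut ρ x := by
        rw [abs_mul, abs_of_nonneg (cut_nonneg ρ x)]
        exact mul_le_of_le_one_left (cut_nonneg ρ x) hck
      calc |g x / hk k x - c k * cut ρ x - g x / h x|
          ≤ |g x / hk k x - c k * cut ρ x| + |g x / h x| := abs_sub _ _
        _ ≤ (|g x / hk k x| + |c k * cut ρ x|) + |g x / h x| := by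
            gcongr; exact abs_sub _ _
        _ ≤ (D * |g x| + cut ρ x) + D * |g x| := by gcongr
        _ = 2 * (D * |g x|) + cut ρ x := by ring
    · have hcont : Continuous fun x => (2 * (D * |g x|) + cut ρ x) ^ 2 := by
        have := cut_continuous (d := n) hρ
        fun_prop
      refine hcont.integrable_of_hasCompactSupport ?_
      refine HasCompactSupport.intro (isCompact_closedBall (0 : X n) (2 * ρ)) fun x hx => ?_
      rw [mem_closedBall, dist_zero_right, not_le] at hx
      rw [hg.supp x (by linarith), cut_eq_zero hρ hx.le]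
      simp
    · filter_upwards [hae] with x hx
      have e10 : Tendsto (fun k => (g x / hk k x - c k * cut ρ x - g x / h x) ^ 2) atTop
          (𝓝 ((g x / h x - 0 * cut ρ x - g x / h x) ^ 2)) :=
        (((Tendsto.div tendsto_const_nhds hx (hpos x).ne').sub
          (hc0.mul_const _)).sub_const _).pow 2
      simpa using e10
  rw [integral_zero] at hfin
  obtain ⟨k, hk'⟩ := (hfin.eventually (gt_mem_nhds hη)).exists
  have e11 := (hψ0 k).add (hθ.const_mul (-(c k)))
  have e12 : Tst (|L| * D + G * (D * D * K k) + |-(c k)| * ρ⁻¹) (2 * ρ)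
      (fun x => g x / hk k x - c k * cut ρ x) := by
    refine ⟨fun x y => ?_, fun x hx => ?_⟩
    · have := e11.lip x y
      simpa [sub_eq_add_neg] using this
    · have := e11.supp x hx
      simpa [sub_eq_add_neg] using this
  refine ⟨_, fun x => g x / hk k x - c k * cut ρ x, e12, ?_, hk'.le⟩
  have hi1 : Integrable (fun x => g x / hk k x) ν :=
    ((hψ0 k).continuous).integrable_of_hasCompactSupport (hψ0 k).hasCompactSupport
  rw [integral_sub hi1 (hθint.const_mul _), integral_const_mul, ← hmdef]
  simp only [c]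
  field_simp
  ring

end Pool.Agent.RZ
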