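import Pool.Agent.RZ.H3
import Pool.Agent.RZ.D2

/-!
H4: the weak equation tested against g/h. Let g be a test function with int g dx = 0, e a vector with |e| <= 1. Then
  iint g(x) cut_R(y) <e, x-y> k_eps(x-y) dx dnu(y) -> 0 as eps -> 0, R -> oo.
G_{eps,R}(x) = int cut_R(y) <e,x-y> k_eps(x-y) dnu(y), continuous. int g G dx = int (g/h) G dnu.
For psi from approx_test: |int (g/h - psi) G_{eps,R} dnu|: with R0 = 4 rho fixed: G_{eps,R} - G_{eps,R0} on the ball 2 rho is constant up to A (far part, as in D2), and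
int (g/h - psi) dnu = 0 (int g dx = 0), so this part is <= A int |g/h - psi| dnu <= A (eta C (2 rho)^n)^{1/2}; and the R0-part is
|Qf n eps nu e (cut R0) (g/h - psi)| <= C ||cut R0||_2 eta^{1/2} (L2b extended to the bounded compactly supported function g/h - psi: approximate g/h by psi_m in L2(nu) (approx_test),
for fixed eps the kernel is bounded, so Qf(psi_m - psi) -> Qf(g/h - psi)).
And Qf n eps nu e (cut R) psi -> 0 by Refl and bridge. Let eta -> 0.
Statement: for all delta there are eps0, R0 such that for all eps < eps0, R > R0 the form is <= delta.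
-/

set_option autoImplicit false

open MeasureTheory Filter Topology Metric Set
open scoped RealInnerProductSpace ENNReal

namespace Pool.Agent.RZ

variable {n : ℕ}

private theorem H4_prod (μ ν : Measure (X n)) [IsLocallyFiniteMeasure μ]
    [IsLocallyFiniteMeasure ν] {ε : ℝ} (hε : 0 < ε) {f w : X n → ℝ} (hf : Continuous f)
    (hfc : HasCompactSupport f) (hw : Continuous w) (hwc : HasCompactSupport w) (e : X n) :
    Integrable (fun p : X n × X n =>
      f p.2 * (w p.1 * (⟪e, p.1 - p.2⟫ * kr n ε (p.1 - p.2)))) (μ.prod ν) := by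
  have hk : Continuous (kr n ε : X n → ℝ) := kr_continuous n hε
  refine Continuous.integrable_of_hasCompactSupport ?_ ?_
  · exact (hf.comp continuous_snd).mul ((hw.comp continuous_fst).mul
      ((continuous_const.inner (continuous_fst.sub continuous_snd)).mul
        (hk.comp (continuous_fst.sub continuous_snd))))
  · refine HasCompactSupport.of_support_subset_isCompact (hwc.isCompact.prod hfc.isCompact) ?_
    rintro ⟨x, y⟩ h
    rw [Function.mem_support] at h
    refine ⟨subset_tsupport w fun h1 : w x = 0 => h ?_,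
      subset_tsupport f fun h1 : f y = 0 => h ?_⟩
    · change f y * (w x * _) = 0
      rw [h1, zero_mul, mul_zero]
    · change f y * (w x * _) = 0
      rw [h1, zero_mul]

private theorem H4_int (μ ν : Measure (X n)) [IsLocallyFiniteMeasure μ]
    [IsLocallyFiniteMeasure ν] {ε : ℝ} (hε : 0 < ε) {f w : X n → ℝ} (hf : Continuous f)
    (hfc : HasCompactSupport f) (hw : Continuous w) (hwc : HasCompactSupport w) (e : X n) :
    Integrable (fun y => f y * ∫ x, w x * (⟪e, x - y⟫ * kr n ε (x - y)) ∂μ) ν := by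
  have h := (H4_prod μ ν hε hf hfc hw hwc e).integral_prod_right
  refine h.congr (Eventually.of_forall fun y => ?_)
  dsimp only
  rw [integral_const_mul]

private theorem H4_inner (μ : Measure (X n)) [IsLocallyFiniteMeasure μ] {ε : ℝ} (hε : 0 < ε)
    {w : X n → ℝ} (hw : Continuous w) (hwc : HasCompactSupport w) (e y : X n) :
    Integrable (fun x => w x * (⟪e, x - y⟫ * kr n ε (x - y))) μ := by
  have hk : Continuous (kr n ε : X n → ℝ) := kr_continuous n hε
  refine Continuous.integrable_of_hasCompactSupport ?_ ?_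
  · exact hw.mul ((continuous_const.inner (continuous_id.sub continuous_const)).mul
      (hk.comp (continuous_id.sub continuous_const)))
  · exact hwc.mul_right

private theorem H4_swap (ν : Measure (X n)) [IsLocallyFiniteMeasure ν] {ε : ℝ} (hε : 0 < ε)
    {f w : X n → ℝ} (hf : Continuous f) (hfc : HasCompactSupport f) (hw : Continuous w)
    (hwc : HasCompactSupport w) (e : X n) :
    Qf n ε ν e f w = ∫ y, f y * (∫ x, w x * (⟪e, x - y⟫ * kr n ε (x - y)) ∂ν) ∂ν := by
  have h := H4_prod ν ν hε hf hfc hw hwc e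
  unfold Qf
  rw [integral_integral_swap]
  · refine integral_congr_ae (Eventually.of_forall fun y => ?_)
    dsimp only
    rw [← integral_const_mul]
    refine integral_congr_ae (Eventually.of_forall fun x => ?_)
    dsimp only
    ring
  · refine h.congr (Eventually.of_forall fun p => ?_)
    dsimp only [Function.uncurry]
    ring

private theorem H4_K {ε : ℝ} (hε : 0 < ε) (e : X n) (he : ‖e‖ ≤ 1) (z : X n) :
    |⟪e, z⟫ * kr n ε z| ≤ ε⁻¹ ^ n := by
  rw [abs_mul, abs_of_nonneg (kr_nonneg n ε z)]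
  have h1 : |⟪e, z⟫| ≤ ‖z‖ := by
    refine (abs_real_inner_le_norm e z).trans ?_
    calc ‖e‖ * ‖z‖ ≤ 1 * ‖z‖ := mul_le_mul_of_nonneg_right he (norm_nonneg _)
      _ = ‖z‖ := one_mul _
  exact (mul_le_mul_of_nonneg_right h1 (kr_nonneg n ε z)).trans (norm_mul_kr_le_eps n hε z)

private theorem H4_l1 (ν : Measure (X n)) {r : ℝ} {θ : X n → ℝ}
    (hm : AEStronglyMeasurable θ ν) (hs : ∀ x, x ∉ closedBall (0 : X n) r → θ x = 0)
    (hfin : ν (closedBall (0 : X n) r) < ⊤) (hi : Integrable (fun x => θ x ^ 2) ν) {t : ℝ}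
    (ht : 0 < t) (hle : ∫ x, θ x ^ 2 ∂ν ≤ t ^ 2) :
    Integrable θ ν ∧ ∫ x, |θ x| ∂ν ≤ t * (1 + ν.real (closedBall (0 : X n) r)) / 2 := by
  have hms : MeasurableSet (closedBall (0 : X n) r) := isClosed_closedBall.measurableSet
  have hind : Integrable ((closedBall (0 : X n) r).indicator (fun _ => (1 : ℝ))) ν := by
    rw [integrable_indicator_iff hms]
    exact integrableOn_const hfin.ne
  have hb : ∀ x, |θ x| ≤ t⁻¹ / 2 * θ x ^ 2 +
      t / 2 * (closedBall (0 : X n) r).indicator (fun _ => (1 : ℝ)) x := by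
    intro x
    by_cases hx : x ∈ closedBall (0 : X n) r
    · rw [Set.indicator_of_mem hx]
      have h1 : 0 ≤ (|θ x| - t) ^ 2 := sq_nonneg _
      have h2 : |θ x| ^ 2 = θ x ^ 2 := sq_abs _
      have h3 : 0 ≤ t⁻¹ / 2 * (|θ x| - t) ^ 2 := mul_nonneg (by positivity) h1
      have h4 : t⁻¹ / 2 * (|θ x| - t) ^ 2 = t⁻¹ / 2 * |θ x| ^ 2 - |θ x| * (t⁻¹ * t) +
          t / 2 * (t⁻¹ * t) := by ring
      rw [h4, inv_mul_cancel₀ ht.ne', h2] at h3
      linarith
    · rw [hs x hx, Set.indicator_of_notMem hx]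
      simp
  have hg : Integrable (fun x => t⁻¹ / 2 * θ x ^ 2 +
      t / 2 * (closedBall (0 : X n) r).indicator (fun _ => (1 : ℝ)) x) ν :=
    (hi.const_mul _).add (hind.const_mul _)
  have hθ : Integrable θ ν := hg.mono' hm (Eventually.of_forall hb)
  refine ⟨hθ, ?_⟩
  have h5 : ∫ x, |θ x| ∂ν ≤ ∫ x, (t⁻¹ / 2 * θ x ^ 2 +
      t / 2 * (closedBall (0 : X n) r).indicator (fun _ => (1 : ℝ)) x) ∂ν :=
    integral_mono hθ.abs hg hb
  have h6 : ∫ x, (t⁻¹ / 2 * θ x ^ 2 +
      t / 2 * (closedBall (0 : X n) r).indicator (fun _ => (1 : ℝ)) x) ∂ν =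
      t⁻¹ / 2 * (∫ x, θ x ^ 2 ∂ν) + t / 2 * ν.real (closedBall (0 : X n) r) := by
    rw [integral_add (hi.const_mul _) (hind.const_mul _), integral_const_mul,
      integral_const_mul]
    congr 2
    exact integral_indicator_one hms
  rw [h6] at h5
  have h7 : t⁻¹ / 2 * (∫ x, θ x ^ 2 ∂ν) ≤ t⁻¹ / 2 * t ^ 2 :=
    mul_le_mul_of_nonneg_left hle (by positivity)
  have h8 : t⁻¹ / 2 * t ^ 2 = t / 2 := by
    field_simp
  rw [h8] at h7
  linarith

private theorem H4_wd {h : X n → ℝ} (hm : Measurable h) (hpos : ∀ x, 0 < h x)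
    {ν : Measure (X n)} (hν : ν = volume.withDensity fun x => ENNReal.ofReal (h x))
    (g F : X n → ℝ) : ∫ x, g x / h x * F x ∂ν = ∫ x, g x * F x := by
  rw [hν, integral_withDensity_eq_integral_toReal_smul hm.ennreal_ofReal
    (Eventually.of_forall fun x => ENNReal.ofReal_lt_top)]
  refine integral_congr_ae (Eventually.of_forall fun x => ?_)
  dsimp only
  rw [ENNReal.toReal_ofReal (hpos x).le, smul_eq_mul]
  have := (hpos x).ne'
  field_simp

theorem weak_leb (hn : 1 ≤ n) {C : ℝ} (hC : 1 ≤ C) {ν : Measure (X n)} (hν : Reg n C ν)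
    (hs : Supp ν = Set.univ) {L ρ : ℝ} (hρ : 0 < ρ) {g : X n → ℝ} (hg : Tst L ρ g)
    (h0 : ∫ x, g x = 0) (e : X n) (he : ‖e‖ ≤ 1) (δ : ℝ) (hδ : 0 < δ) :
    ∃ ε₀ R₀ : ℝ, 0 < ε₀ ∧ ∀ ε : ℝ, 0 < ε → ε < ε₀ → ∀ R : ℝ, R₀ < R →
      |∫ y, cut R y * (∫ x, g x * (⟪e, x - y⟫ * kr n ε (x - y))) ∂ν| ≤ δ := by
  have hn0 : 0 < n := hn
  have hC0 : 0 ≤ C := by linarith
  have hlf : IsLocallyFiniteMeasure ν := hν.gr.isLocallyFinite
  obtain ⟨D, h, hD, hm, h1, h2, hνh⟩ := density hn hC hν.gr hν.lo hs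
  have hD0 : 0 < D := by linarith
  have hpos : ∀ x, 0 < h x := fun x => lt_of_lt_of_le (inv_pos.2 hD0) (h1 x)
  have hgc := hg.continuous
  have hgs := hg.hasCompactSupport
  have hφm : Measurable fun x => g x / h x := hgc.measurable.div hm
  have hφle : ∀ x, |g x / h x| ≤ D * |g x| := by
    intro x
    rw [abs_div, abs_of_pos (hpos x), div_eq_mul_inv, mul_comm]
    refine mul_le_mul_of_nonneg_right ?_ (abs_nonneg _)
    rw [inv_le_comm₀ (hpos x) hD0]
    exact h1 x
  have hgi : Integrable g ν := hgc.integrable_of_hasCompactSupport hgs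
  have hgsq : Integrable (fun x => g x ^ 2) ν := by
    have hgg : (fun x => g x ^ 2) = fun x => g x * g x := by
      funext x
      ring
    rw [hgg]
    exact (hgc.mul hgc).integrable_of_hasCompactSupport hgs.mul_right
  -- squares of the differences
  have hsq : ∀ w : X n → ℝ, Continuous w → HasCompactSupport w →
      Integrable (fun x => (w x - g x / h x) ^ 2) ν := by
    intro w hw hwc
    have hwsq : Integrable (fun x => w x ^ 2) ν := by
      have hww : (fun x => w x ^ 2) = fun x => w x * w x := by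
        funext x
        ring
      rw [hww]
      exact (hw.mul hw).integrable_of_hasCompactSupport hwc.mul_right
    refine ((hwsq.const_mul 2).add (hgsq.const_mul (2 * D ^ 2))).mono'
      ((hw.measurable.sub hφm).pow_const 2).aestronglyMeasurable
      (Eventually.of_forall fun x => ?_)
    rw [Real.norm_eq_abs, abs_of_nonneg (sq_nonneg _)]
    have h3 : (g x / h x) ^ 2 ≤ (D * |g x|) ^ 2 := by
      rw [← sq_abs (g x / h x)]
      exact pow_le_pow_left₀ (abs_nonneg _) (hφle x) 2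
    rw [mul_pow, sq_abs] at h3
    have h4 : (w x - g x / h x) ^ 2 ≤ 2 * w x ^ 2 + 2 * (g x / h x) ^ 2 := by
      have := sq_nonneg (w x + g x / h x)
      nlinarith
    change (w x - g x / h x) ^ 2 ≤ 2 * w x ^ 2 + 2 * D ^ 2 * g x ^ 2
    linarith
  -- the constants
  obtain ⟨A, hA, hAt⟩ := Gr.tail (d := n) n 1 hn le_rfl
  have hrho4 : 0 < 4 * ρ := by linarith
  obtain ⟨htI, htle⟩ := hAt C hC0 ν hν.gr 0 (4 * ρ) hrho4
  set V : ℝ := ν.real (closedBall (0 : X n) (2 * ρ)) with hV
  have hV0 : 0 ≤ V := measureReal_nonneg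
  set Kc : ℝ := ((n : ℝ) + 2) * 2 ^ (n + 3) * (2 * ρ) * (A * C * (4 * ρ)⁻¹ ^ 1) with hKc
  have hKc0 : 0 ≤ Kc := by positivity
  set S : ℝ := 2 * (C * Real.sqrt (∫ x, cut (4 * ρ) x ^ 2 ∂ν)) + Kc * (1 + V) with hS
  have hS0 : 0 ≤ S := by positivity
  set t : ℝ := δ / (4 * (S + 1)) with ht
  have ht0 : 0 < t := by positivity
  have htS : t * S ≤ δ / 4 := by
    rw [ht, div_mul_eq_mul_div, div_le_div_iff₀ (by positivity) (by norm_num)]
    nlinarith
  obtain ⟨L₁, ψ, hψ, hψ0, hψη⟩ := approx_test hn hD hm h1 h2 hνh hρ hg h0 (t ^ 2)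
    (by positivity)
  have h2ρ : 0 < 2 * ρ := by linarith
  obtain ⟨Bb, hBb⟩ := bridge hn hn0 hC0 hν.gr (abs_nonneg L₁) h2ρ
    (hψ.mono (le_abs_self L₁) le_rfl) hψ0 e
  have hrefl := hν.refl e L₁ (2 * ρ) ψ hψ hψ0
  have hev : ∀ᶠ ε : ℝ in 𝓝[>] 0, |∫ y, ⟪e, y⟫ * Lam n ε ν ψ y ∂ν| < δ / 8 := by
    have h3 := hrefl.eventually (Metric.ball_mem_nhds (0 : ℝ) (by positivity : 0 < δ / 8))
    refine h3.mono fun ε hε => ?_
    rw [dist_zero_right, Real.norm_eq_abs] at hε
    exact hε
  obtain ⟨ε₀, hε₀, hε₀'⟩ := mem_nhdsGT_iff_exists_Ioo_subset.1 hev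
  refine ⟨ε₀, max (4 * ρ) (8 * |Bb| / δ), hε₀, fun ε hε hεε R hR => ?_⟩
  have hR4 : 4 * ρ < R := lt_of_le_of_lt (le_max_left _ _) hR
  have hRB : 8 * |Bb| / δ < R := lt_of_le_of_lt (le_max_right _ _) hR
  have hR0 : 0 < R := by linarith
  -- the second approximation
  set S' : ℝ := ν.real (closedBall (0 : X n) (2 * R)) * ε⁻¹ ^ n * (1 + V) / 2 with hS'
  have hS'0 : 0 ≤ S' := by
    have : 0 ≤ ν.real (closedBall (0 : X n) (2 * R)) := measureReal_nonneg
    positivity
  set t' : ℝ := min t (δ / (4 * (S' + 1))) with ht'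
  have ht'0 : 0 < t' := lt_min ht0 (by positivity)
  have ht't : t' ≤ t := min_le_left _ _
  have ht'S : t' * S' ≤ δ / 4 := by
    have h3 : t' ≤ δ / (4 * (S' + 1)) := min_le_right _ _
    refine (mul_le_mul_of_nonneg_right h3 hS'0).trans ?_
    rw [div_mul_eq_mul_div, div_le_div_iff₀ (by positivity) (by norm_num)]
    nlinarith
  obtain ⟨L₂, χ, hχ, hχ0, hχη⟩ := approx_test hn hD hm h1 h2 hνh hρ hg h0 (t' ^ 2)
    (by positivity)
  have hψc := hψ.continuous
  have hψs := hψ.hasCompactSupport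
  have hχc := hχ.continuous
  have hχs := hχ.hasCompactSupport
  have hcc : Continuous (cut R : X n → ℝ) := cut_continuous hR0
  have hcs : HasCompactSupport (cut R : X n → ℝ) := cut_hasCompactSupport hR0
  have hcc4 : Continuous (cut (4 * ρ) : X n → ℝ) := cut_continuous hrho4
  have hcs4 : HasCompactSupport (cut (4 * ρ) : X n → ℝ) := cut_hasCompactSupport hrho4
  have hwc : Continuous fun x => χ x - ψ x := hχc.sub hψc
  have hws : HasCompactSupport fun x => χ x - ψ x := hχs.sub hψs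
  -- (a): from `g / h` to `χ`
  have hθ := H4_l1 ν (r := 2 * ρ) (θ := fun x => χ x - g x / h x)
    (hχc.measurable.sub hφm).aestronglyMeasurable (by
      intro x hx
      rw [mem_closedBall_zero_iff, not_le] at hx
      rw [hχ.supp x hx, hg.supp x (by linarith), zero_div, sub_zero])
    (hν.gr.finite 0 (2 * ρ)) (hsq χ hχc hχs) ht'0 hχη
  have hcutint : Integrable (cut R : X n → ℝ) ν := hcc.integrable_of_hasCompactSupport hcs
  have hcutle : ∫ y, cut R y ∂ν ≤ ν.real (closedBall (0 : X n) (2 * R)) := by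
    have hms : MeasurableSet (closedBall (0 : X n) (2 * R)) := isClosed_closedBall.measurableSet
    have hind : Integrable ((closedBall (0 : X n) (2 * R)).indicator (fun _ => (1 : ℝ))) ν := by
      rw [integrable_indicator_iff hms]
      exact integrableOn_const (hν.gr.finite 0 (2 * R)).ne
    rw [← integral_indicator_one hms]
    refine integral_mono hcutint hind fun y => ?_
    by_cases hy : y ∈ closedBall (0 : X n) (2 * R)
    · rw [Set.indicator_of_mem hy]
      exact cut_le_one R y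
    · rw [Set.indicator_of_notMem hy]
      rw [mem_closedBall_zero_iff, not_le] at hy
      exact (cut_eq_zero hR0 hy.le).le
  have ha : |(∫ y, cut R y * (∫ x, g x * (⟪e, x - y⟫ * kr n ε (x - y))) ∂ν) -
      Qf n ε ν e (cut R) χ| ≤ δ / 4 := by
    rw [H4_swap ν hε hcc hcs hχc hχs e, ← integral_sub
      (H4_int volume ν hε hcc hcs hgc hgs e) (H4_int ν ν hε hcc hcs hχc hχs e)]
    have hb : ∀ y, ‖cut R y * (∫ x, g x * (⟪e, x - y⟫ * kr n ε (x - y))) -
        cut R y * (∫ x, χ x * (⟪e, x - y⟫ * kr n ε (x - y)) ∂ν)‖ ≤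
        cut R y * (ε⁻¹ ^ n * (t' * (1 + V) / 2)) := by
      intro y
      rw [← mul_sub, norm_mul, Real.norm_eq_abs, abs_of_nonneg (cut_nonneg R y)]
      refine mul_le_mul_of_nonneg_left ?_ (cut_nonneg R y)
      rw [← H4_wd hm hpos hνh g fun x => ⟪e, x - y⟫ * kr n ε (x - y)]
      have hk : Continuous fun x : X n => ⟪e, x - y⟫ * kr n ε (x - y) := by
        have hk' : Continuous (kr n ε : X n → ℝ) := kr_continuous n hε
        exact (continuous_const.inner (continuous_id.sub continuous_const)).mul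
          (hk'.comp (continuous_id.sub continuous_const))
      have hφi : Integrable (fun x => g x / h x * (⟪e, x - y⟫ * kr n ε (x - y))) ν := by
        refine ((hgi.abs.const_mul D).mul_const (ε⁻¹ ^ n)).mono'
          (hφm.mul hk.measurable).aestronglyMeasurable (Eventually.of_forall fun x => ?_)
        rw [Real.norm_eq_abs, abs_mul]
        exact mul_le_mul (hφle x) (H4_K hε e he _) (abs_nonneg _)
          (mul_nonneg hD0.le (abs_nonneg _))
      rw [← integral_sub hφi (H4_inner ν hε hχc hχs e y)]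
      refine (norm_integral_le_of_norm_le (hθ.1.abs.const_mul (ε⁻¹ ^ n))
        (Eventually.of_forall fun x => ?_)).trans ?_
      · rw [← sub_mul, norm_mul, Real.norm_eq_abs, Real.norm_eq_abs, abs_sub_comm, mul_comm]
        exact mul_le_mul_of_nonneg_right (H4_K hε e he _) (abs_nonneg _)
      · rw [integral_const_mul]
        exact mul_le_mul_of_nonneg_left hθ.2 (by positivity)
    refine (norm_integral_le_of_norm_le (hcutint.mul_const _)
      (Eventually.of_forall hb)).trans ?_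
    rw [integral_mul_const]
    have h3 : (∫ y, cut R y ∂ν) * (ε⁻¹ ^ n * (t' * (1 + V) / 2)) ≤
        ν.real (closedBall (0 : X n) (2 * R)) * (ε⁻¹ ^ n * (t' * (1 + V) / 2)) :=
      mul_le_mul_of_nonneg_right hcutle (by positivity)
    refine h3.trans (le_trans (le_of_eq ?_) ht'S)
    rw [hS']
    ring
  -- (b): splitting
  have hb : Qf n ε ν e (cut R) χ = Qf n ε ν e (cut R) (fun x => χ x - ψ x) +
      Qf n ε ν e (cut R) ψ := by
    rw [H4_swap ν hε hcc hcs hχc hχs e, H4_swap ν hε hcc hcs hψc hψs e,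
      H4_swap ν hε hcc hcs hwc hws e, ← integral_add (H4_int ν ν hε hcc hcs hwc hws e)
        (H4_int ν ν hε hcc hcs hψc hψs e)]
    refine integral_congr_ae (Eventually.of_forall fun y => ?_)
    dsimp only
    rw [← mul_add, ← integral_add (H4_inner ν hε hwc hws e y) (H4_inner ν hε hψc hψs e y)]
    congr 1
    refine integral_congr_ae (Eventually.of_forall fun x => ?_)
    dsimp only
    ring
  -- the function `χ - ψ`
  have hw2 : Integrable (fun x => (χ x - ψ x) ^ 2) ν := by
    have : (fun x => (χ x - ψ x) ^ 2) = fun x => (χ x - ψ x) * (χ x - ψ x) := by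
      funext x
      ring
    rw [this]
    exact (hwc.mul hwc).integrable_of_hasCompactSupport hws.mul_right
  have hw2le : ∫ x, (χ x - ψ x) ^ 2 ∂ν ≤ (2 * t) ^ 2 := by
    have h3 : ∫ x, (χ x - ψ x) ^ 2 ∂ν ≤
        ∫ x, (2 * (χ x - g x / h x) ^ 2 + 2 * (ψ x - g x / h x) ^ 2) ∂ν := by
      refine integral_mono hw2
        (((hsq χ hχc hχs).const_mul 2).add ((hsq ψ hψc hψs).const_mul 2)) fun x => ?_
      have := sq_nonneg ((χ x - g x / h x) + (ψ x - g x / h x))
      dsimp only
      nlinarith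
    rw [integral_add ((hsq χ hχc hχs).const_mul 2) ((hsq ψ hψc hψs).const_mul 2),
      integral_const_mul, integral_const_mul] at h3
    have h4 : t' ^ 2 ≤ t ^ 2 := pow_le_pow_left₀ ht'0.le ht't 2
    nlinarith
  have hw0 : ∫ x, (χ x - ψ x) ∂ν = 0 := by
    rw [integral_sub (hχc.integrable_of_hasCompactSupport hχs)
      (hψc.integrable_of_hasCompactSupport hψs), hχ0, hψ0, sub_zero]
  have hwl1 := H4_l1 ν (r := 2 * ρ) (θ := fun x => χ x - ψ x) hwc.aestronglyMeasurable (by
      intro x hx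
      rw [mem_closedBall_zero_iff, not_le] at hx
      rw [hχ.supp x hx, hψ.supp x hx, sub_zero])
    (hν.gr.finite 0 (2 * ρ)) hw2 (by linarith : 0 < 2 * t) hw2le
  -- (c): the local part
  have hc : |Qf n ε ν e (cut (4 * ρ)) (fun x => χ x - ψ x)| ≤
      C * Real.sqrt (∫ x, cut (4 * ρ) x ^ 2 ∂ν) * (2 * t) := by
    refine (hν.l2 ε hε e he _ _ hcc4 hcs4 hwc hws).trans ?_
    refine mul_le_mul_of_nonneg_left ?_ (by positivity)
    rw [← Real.sqrt_sq (by linarith : (0 : ℝ) ≤ 2 * t)]
    exact Real.sqrt_le_sqrt hw2le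
  -- (d): the far part
  have hd : |Qf n ε ν e (cut R) (fun x => χ x - ψ x) -
      Qf n ε ν e (cut (4 * ρ)) (fun x => χ x - ψ x)| ≤ Kc * (t * (1 + V)) := by
    rw [H4_swap ν hε hcc hcs hwc hws e, H4_swap ν hε hcc4 hcs4 hwc hws e,
      ← integral_sub (H4_int ν ν hε hcc hcs hwc hws e) (H4_int ν ν hε hcc4 hcs4 hwc hws e)]
    have hset : MeasurableSet {y : X n | 4 * ρ ≤ ‖y - 0‖} :=
      (isClosed_le continuous_const
        (continuous_norm.comp (continuous_id.sub continuous_const))).measurableSet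
    set W : ℝ := ∫ x, |χ x - ψ x| ∂ν with hW
    have hW0 : 0 ≤ W := integral_nonneg fun x => abs_nonneg _
    have hb' : ∀ y : X n, ‖cut R y * (∫ x, (χ x - ψ x) * (⟪e, x - y⟫ * kr n ε (x - y)) ∂ν) -
        cut (4 * ρ) y * (∫ x, (χ x - ψ x) * (⟪e, x - y⟫ * kr n ε (x - y)) ∂ν)‖ ≤
        ({y : X n | 4 * ρ ≤ ‖y - 0‖}.indicator
          (fun y => ((n : ℝ) + 2) * 2 ^ (n + 3) * (2 * ρ) * W * ‖y - 0‖⁻¹ ^ (n + 1))) y := by
      intro y
      rw [← sub_mul, norm_mul, Real.norm_eq_abs, Real.norm_eq_abs]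
      by_cases hy : 4 * ρ ≤ ‖y - 0‖
      · rw [Set.indicator_of_mem (by exact hy)]
        rw [sub_zero] at hy ⊢
        have hy0 : y ≠ 0 := by
          rintro rfl
          rw [norm_zero] at hy
          linarith
        have h3 : |cut R y - cut (4 * ρ) y| ≤ 1 := by
          rw [abs_le]
          have h4 := cut_nonneg R y
          have h5 := cut_le_one R y
          have h6 := cut_nonneg (4 * ρ) y
          have h7 := cut_le_one (4 * ρ) y
          constructor <;> linarith
        have h8 : ∫ x, (χ x - ψ x) * (⟪e, x - y⟫ * kr n ε (x - y)) ∂ν =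
            ∫ x, (χ x - ψ x) * (⟪e, x - y⟫ * kr n ε (x - y) - ⟪e, -y⟫ * kr n ε (-y)) ∂ν := by
          have h9 : Integrable (fun x => (χ x - ψ x) * (⟪e, -y⟫ * kr n ε (-y))) ν :=
            hwl1.1.mul_const _
          have h10 : ∫ x, (χ x - ψ x) * (⟪e, -y⟫ * kr n ε (-y)) ∂ν = 0 := by
            rw [integral_mul_const, hw0, zero_mul]
          rw [← sub_zero (∫ x, (χ x - ψ x) * (⟪e, x - y⟫ * kr n ε (x - y)) ∂ν), ← h10,
            ← integral_sub (H4_inner ν hε hwc hws e y) h9]
          refine integral_congr_ae (Eventually.of_forall fun x => ?_)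
          dsimp only
          ring
        have h11 : |∫ x, (χ x - ψ x) * (⟪e, x - y⟫ * kr n ε (x - y)) ∂ν| ≤
            ((n : ℝ) + 2) * 2 ^ (n + 3) * (2 * ρ) * W * ‖y‖⁻¹ ^ (n + 1) := by
          rw [h8, ← Real.norm_eq_abs]
          have h12 : Integrable (fun x => |χ x - ψ x| *
              (((n : ℝ) + 2) * 2 ^ (n + 3) * (2 * ρ) * ‖y‖⁻¹ ^ (n + 1))) ν :=
            hwl1.1.abs.mul_const _
          refine (norm_integral_le_of_norm_le h12 (Eventually.of_forall fun x => ?_)).trans ?_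
          · rw [norm_mul, Real.norm_eq_abs, Real.norm_eq_abs]
            by_cases hx : ‖x‖ ≤ 2 * ρ
            · refine mul_le_mul_of_nonneg_left ?_ (abs_nonneg _)
              rw [abs_sub_comm]
              have h13 : ‖-y - (x - y)‖ = ‖x‖ := by
                rw [show -y - (x - y) = -x by abel, norm_neg]
              have h14 := Kr_sub_le n ε (z := -y) (z' := x - y) e he (neg_ne_zero.2 hy0) (by
                rw [h13, norm_neg]
                linarith)
              rw [h13, norm_neg] at h14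
              refine h14.trans ?_
              refine mul_le_mul_of_nonneg_right ?_ (by positivity)
              exact mul_le_mul_of_nonneg_left hx (by positivity)
            · rw [not_le] at hx
              rw [hχ.supp x hx, hψ.supp x hx, sub_zero, abs_zero, zero_mul, zero_mul]
          · rw [integral_mul_const]
            refine le_of_eq ?_
            rw [hW]
            ring
        calc |cut R y - cut (4 * ρ) y| *
              |∫ x, (χ x - ψ x) * (⟪e, x - y⟫ * kr n ε (x - y)) ∂ν|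
            ≤ 1 * (((n : ℝ) + 2) * 2 ^ (n + 3) * (2 * ρ) * W * ‖y‖⁻¹ ^ (n + 1)) :=
              mul_le_mul h3 h11 (abs_nonneg _) zero_le_one
          _ = _ := one_mul _
      · rw [Set.indicator_of_notMem (by exact hy)]
        rw [sub_zero, not_le] at hy
        rw [cut_eq_one hR0 (by linarith : ‖y‖ ≤ R), cut_eq_one hrho4 hy.le, sub_self, abs_zero,
          zero_mul]
    have hint : Integrable ({y : X n | 4 * ρ ≤ ‖y - 0‖}.indicator
        (fun y => ((n : ℝ) + 2) * 2 ^ (n + 3) * (2 * ρ) * W * ‖y - 0‖⁻¹ ^ (n + 1))) ν := by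
      rw [integrable_indicator_iff hset]
      exact htI.const_mul _
    refine (norm_integral_le_of_norm_le hint (Eventually.of_forall hb')).trans ?_
    rw [integral_indicator hset, integral_const_mul]
    have h15 : ((n : ℝ) + 2) * 2 ^ (n + 3) * (2 * ρ) * W *
        (∫ y in {y : X n | 4 * ρ ≤ ‖y - 0‖}, ‖y - 0‖⁻¹ ^ (n + 1) ∂ν) ≤
        ((n : ℝ) + 2) * 2 ^ (n + 3) * (2 * ρ) * W * (A * C * (4 * ρ)⁻¹ ^ 1) :=
      mul_le_mul_of_nonneg_left htle (by positivity)
    refine h15.trans ?_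
    have h16 : W ≤ t * (1 + V) := by
      have := hwl1.2
      linarith
    calc ((n : ℝ) + 2) * 2 ^ (n + 3) * (2 * ρ) * W * (A * C * (4 * ρ)⁻¹ ^ 1) = Kc * W := by
          rw [hKc]
          ring
      _ ≤ Kc * (t * (1 + V)) := mul_le_mul_of_nonneg_left h16 hKc0
  -- (e): the smooth part
  have he' : |Qf n ε ν e (cut R) ψ| ≤ δ / 4 := by
    have h3 := hBb ε hε R (by linarith)
    have h4 : |∫ y, ⟪e, y⟫ * Lam n ε ν ψ y ∂ν| < δ / 8 := hε₀' ⟨hε, hεε⟩
    have h5 : Bb / R ≤ δ / 8 := by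
      rw [div_le_iff₀ hR0]
      rw [div_lt_iff₀ hδ] at hRB
      have := le_abs_self Bb
      linarith
    have h6 := abs_sub_abs_le_abs_sub (Qf n ε ν e (cut R) ψ)
      (∫ y, ⟪e, y⟫ * Lam n ε ν ψ y ∂ν)
    rw [abs_sub_comm] at h6
    linarith
  -- conclusion
  have hfinal : |∫ y, cut R y * (∫ x, g x * (⟪e, x - y⟫ * kr n ε (x - y))) ∂ν| ≤
      δ / 4 + (Kc * (t * (1 + V)) + C * Real.sqrt (∫ x, cut (4 * ρ) x ^ 2 ∂ν) * (2 * t)) +
        δ / 4 := by
    rw [hb] at ha
    rw [abs_le] at ha hc hd he' ⊢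
    constructor <;> linarith [ha.1, ha.2, hc.1, hc.2, hd.1, hd.2, he'.1, he'.2]
  refine hfinal.trans ?_
  have h7 : Kc * (t * (1 + V)) + C * Real.sqrt (∫ x, cut (4 * ρ) x ^ 2 ∂ν) * (2 * t) =
      t * S := by
    rw [hS]
    ring
  rw [h7]
  linarith

end Pool.Agent.RZ
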