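import Pool.Agent.RZ.G1

/-!
H5: integration by parts. phi C^2 with compact support on X n (Lebesgue measure), K_eps(z) = k_eps(z) z.
d_j (k_eps(z) z_j) summed over j: div K_eps = n s^{-(n+1)} - (n+1)|z|^2 s^{-(n+3)} = - s^{-(n+1)} + (n+1) eps^2 s^{-(n+3)}, s = sqrt(|z|^2+eps^2).
div_int: sum_j int (d_j phi)(x) (x-y)_j k_eps(x-y) dx = int phi(x) (k_eps(x-y) - (n+1) eps^2 s(x-y)^{-(n+3)}) dx
(integral_mul_fderiv_eq_neg_fderiv_mul_of_integrable, compact support).
mass: int k_eps = (n+1) eps^2 int s^{-(n+3)} (both finite): apply div_int to smooth cutoffs phi_R(x) = phi(x/R) with phi = 1 near 0, R -> oo: the left side is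
<= sup|grad phi|/R int_{|x| ~ R} |x|^{-n} -> 0 (or scaling: I(eps) = int k_eps = I(1)/eps and differentiate).
lam_phi: Lam n eps volume phi y = - sum_j int d_j phi (x) (x-y)_j k_eps(x-y) dx + (n+1) eps^2 int (phi(y) - phi(x)) s(x-y)^{-(n+3)} dx.
second difference: |int (phi(y)-phi(y+z)) s(z)^{-(n+3)} dz| = (1/2)|int (2phi(y)-phi(y+z)-phi(y-z)) s^{-(n+3)}| <= A sup|D^2 phi| int |z|^2 s(z)^{-(n+3)} dz = A'/eps.
For |y| >= 2 rho (supp phi in the ball rho) it is |int phi(x) s(x-y)^{-(n+3)}| <= A |y|^{-(n+3)}.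
-/

set_option autoImplicit false

open MeasureTheory Filter Topology Metric Set
open scoped RealInnerProductSpace ENNReal

namespace Pool.Agent.RZ

variable {n : ℕ}

private theorem H5_kr (hn : 1 ≤ n) : ∃ A : ℝ, 0 < A ∧ ∀ ε : ℝ, 0 < ε →
    Integrable (fun z : X n => kr n ε z) ∧ ∫ z : X n, kr n ε z ≤ A * ε⁻¹ := by
  obtain ⟨C, hC, hG, -⟩ := vol_reg n
  obtain ⟨A, hA, h⟩ := Gr.kr_integrable (d := n) n hn
  refine ⟨A * C, by positivity, fun ε hε => ?_⟩
  have := h C (by linarith) volume hG 0 ε hε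
  simpa using this

private theorem H5_kr2 (n : ℕ) {ε : ℝ} (hε : 0 < ε) (z : X n) :
    kr (n + 2) ε z * (‖z‖ ^ 2 + ε ^ 2) = kr n ε z := by
  unfold kr
  have hs : 0 < ‖z‖ ^ 2 + ε ^ 2 := by positivity
  have h2 : Real.sqrt (‖z‖ ^ 2 + ε ^ 2) ^ 2 = ‖z‖ ^ 2 + ε ^ 2 := Real.sq_sqrt hs.le
  have hp : 0 < Real.sqrt (‖z‖ ^ 2 + ε ^ 2) := Real.sqrt_pos.2 hs
  generalize Real.sqrt (‖z‖ ^ 2 + ε ^ 2) = s at *
  rw [← h2]
  have : s⁻¹ ^ (n + 2 + 1) = s⁻¹ ^ (n + 1) * s⁻¹ ^ 2 := by ring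
  rw [this, mul_assoc, ← mul_pow, inv_mul_cancel₀ hp.ne', one_pow, mul_one]

private theorem H5_deriv (n : ℕ) {ε t : ℝ} (hε : 0 < ε) (ht : 0 < t) (w : X n) :
    HasDerivAt (fun t : ℝ => t * kr n (t * ε) w)
      (kr n (t * ε) w - (n + 1) * ((t * ε) ^ 2 * kr (n + 2) (t * ε) w)) t := by
  have hs : 0 < ‖w‖ ^ 2 + (t * ε) ^ 2 := by positivity
  have hp : 0 < Real.sqrt (‖w‖ ^ 2 + (t * ε) ^ 2) := Real.sqrt_pos.2 hs
  have h0 : HasDerivAt (fun t : ℝ => t * ε) (1 * ε) t := (hasDerivAt_id t).mul_const ε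
  have h1 : HasDerivAt (fun t : ℝ => ‖w‖ ^ 2 + (t * ε) ^ 2) (2 * (t * ε) * ε) t := by
    refine ((h0.pow 2).const_add (‖w‖ ^ 2)).congr_deriv ?_
    push_cast
    ring
  have h2 : HasDerivAt (fun t : ℝ => (Real.sqrt (‖w‖ ^ 2 + (t * ε) ^ 2))⁻¹ ^ (n + 1)) _ t :=
    ((h1.sqrt hs.ne').fun_inv hp.ne').fun_pow (n + 1)
  have h3 : HasDerivAt (fun t : ℝ => t * (Real.sqrt (‖w‖ ^ 2 + (t * ε) ^ 2))⁻¹ ^ (n + 1)) _ t :=
    (hasDerivAt_id t).fun_mul h2
  unfold kr
  refine h3.congr_deriv ?_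
  generalize Real.sqrt (‖w‖ ^ 2 + (t * ε) ^ 2) = s at *
  simp only [id, Nat.add_sub_cancel]
  have e : -(2 * (t * ε) * ε / (2 * s)) / s ^ 2 = -(t * ε * ε) * s⁻¹ ^ 3 := by
    field_simp
  rw [e]
  push_cast
  ring

private theorem H5_bd (n : ℕ) {ε t : ℝ} (hε : 0 < ε) (ht : 1 / 2 < t) (w : X n) :
    |kr n (t * ε) w - (n + 1) * ((t * ε) ^ 2 * kr (n + 2) (t * ε) w)| ≤
      (n + 2) * kr n (ε / 2) w := by
  have htε : 0 < t * ε := by
    have : (0 : ℝ) < t := by linarith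
    positivity
  have h1 := kr_nonneg n (t * ε) w
  have h2 := kr_nonneg (n + 2) (t * ε) w
  have h3 : kr n (t * ε) w ≤ kr n (ε / 2) w := by
    refine kr_anti n (by positivity) ?_ w
    nlinarith
  have h4 : (t * ε) ^ 2 * kr (n + 2) (t * ε) w ≤ kr n (t * ε) w := by
    rw [← H5_kr2 n htε w]
    nlinarith [mul_nonneg h2 (sq_nonneg ‖w‖)]
  have h5 : 0 ≤ (t * ε) ^ 2 * kr (n + 2) (t * ε) w := by positivity
  have hn0 : (0 : ℝ) ≤ n := Nat.cast_nonneg n
  have h6 : ((n : ℝ) + 1) * ((t * ε) ^ 2 * kr (n + 2) (t * ε) w) ≤ (n + 1) * kr n (ε / 2) w :=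
    mul_le_mul_of_nonneg_left (h4.trans h3) (by linarith)
  have h7 : 0 ≤ ((n : ℝ) + 1) * ((t * ε) ^ 2 * kr (n + 2) (t * ε) w) := by positivity
  rw [abs_le]
  have h8 : 0 ≤ kr n (ε / 2) w := kr_nonneg _ _ _
  have h9 : 0 ≤ (n : ℝ) * kr n (ε / 2) w := by positivity
  constructor <;> nlinarith

private theorem H5_zero {φ : X n → ℝ} (hc : HasCompactSupport φ) :
    ∃ ρ : ℝ, 1 ≤ ρ ∧ ∀ x, ρ < ‖x‖ → φ x = 0 ∧ fderiv ℝ φ x = 0 := by
  obtain ⟨ρ, hρ⟩ := hc.isCompact.isBounded.subset_closedBall (0 : X n)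
  refine ⟨max ρ 1, le_max_right _ _, fun x hx => ?_⟩
  have hx' : x ∉ tsupport φ := fun h => by
    have := hρ h
    rw [mem_closedBall_zero_iff] at this
    linarith [le_max_left ρ 1]
  refine ⟨image_eq_zero_of_notMem_tsupport hx', ?_⟩
  by_contra h
  exact hx' (support_fderiv_subset ℝ h)

private theorem H5_id (hn : 1 ≤ n) {φ : X n → ℝ} (hφ : ContDiff ℝ 2 φ) (hc : HasCompactSupport φ)
    {ε : ℝ} (hε : 0 < ε) (y : X n) :
    ∫ z, fderiv ℝ φ (y + z) z * kr n ε z =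
      ∫ w, (φ (y + w) - φ y) * (kr n ε w - (n + 1) * (ε ^ 2 * kr (n + 2) ε w)) := by
  obtain ⟨A, hA, hkr⟩ := H5_kr hn
  obtain ⟨ρ, hρ1, hρ⟩ := H5_zero hc
  obtain ⟨M, hM⟩ := hc.exists_bound_of_continuous hφ.continuous
  obtain ⟨M', hM'⟩ := (hc.fderiv ℝ).exists_bound_of_continuous
    (hφ.continuous_fderiv (by norm_num))
  have hM0 : 0 ≤ M := (norm_nonneg _).trans (hM 0)
  have hM'0 : 0 ≤ M' := (norm_nonneg _).trans (hM' 0)
  have hd : Differentiable ℝ φ := hφ.differentiable (by norm_num)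
  have hkc : ∀ m : ℕ, ∀ e : ℝ, 0 < e → Continuous (fun z : X n => kr m e z) :=
    fun m e he => kr_continuous m he
  have hcd : Continuous (fderiv ℝ φ) := hφ.continuous_fderiv (by norm_num)
  -- first derivative
  have hG1 : HasDerivAt (fun t : ℝ => ∫ z, (φ (y + t • z) - φ y) * kr n ε z)
      (∫ z, fderiv ℝ φ (y + (1 : ℝ) • z) z * kr n ε z) 1 := by
    have hs : Ioi (1 / 2 : ℝ) ∈ 𝓝 (1 : ℝ) := Ioi_mem_nhds (by norm_num)
    have key : ∀ t : ℝ, 1 / 2 < t → ∀ z : X n,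
        ‖fderiv ℝ φ (y + t • z) z‖ ≤ 2 * (M' * (ρ + ‖y‖)) := by
      intro t ht z
      have ht0 : 0 < t := by linarith
      have hb : 0 ≤ 2 * (M' * (ρ + ‖y‖)) := by
        have := norm_nonneg y
        positivity
      by_cases hx : ρ < ‖y + t • z‖
      · rw [(hρ _ hx).2]
        simpa using hb
      · push Not at hx
        have h1 : t * ‖z‖ ≤ ρ + ‖y‖ := by
          have h2 : t • z = (y + t • z) - y := by abel
          calc t * ‖z‖ = ‖t • z‖ := by rw [norm_smul, Real.norm_of_nonneg ht0.le]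
            _ = ‖(y + t • z) - y‖ := by rw [← h2]
            _ ≤ ‖y + t • z‖ + ‖y‖ := norm_sub_le _ _
            _ ≤ ρ + ‖y‖ := by linarith
        have h3 : ‖z‖ ≤ 2 * (ρ + ‖y‖) := by nlinarith [norm_nonneg z]
        calc ‖fderiv ℝ φ (y + t • z) z‖ ≤ ‖fderiv ℝ φ (y + t • z)‖ * ‖z‖ :=
              ContinuousLinearMap.le_opNorm _ _
          _ ≤ M' * (2 * (ρ + ‖y‖)) := mul_le_mul (hM' _) h3 (norm_nonneg _) hM'0
          _ = 2 * (M' * (ρ + ‖y‖)) := by ring
    refine (hasDerivAt_integral_of_dominated_loc_of_deriv_le (μ := volume)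
      (F := fun (t : ℝ) (z : X n) => (φ (y + t • z) - φ y) * kr n ε z)
      (F' := fun (t : ℝ) (z : X n) => fderiv ℝ φ (y + t • z) z * kr n ε z)
      (bound := fun z => 2 * (M' * (ρ + ‖y‖)) * kr n ε z) (s := Ioi (1 / 2 : ℝ)) hs
      ?_ ?_ ?_ ?_ ?_ ?_).2
    · refine Filter.Eventually.of_forall fun t => ?_
      exact (((hφ.continuous.comp (by fun_prop : Continuous fun z : X n => y + t • z)).sub
        continuous_const).mul (hkc n ε hε)).aestronglyMeasurable
    · refine ((hkr ε hε).1.bdd_mul (c := M + M) ?_ ?_)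
      · exact ((hφ.continuous.comp (by fun_prop : Continuous fun z : X n => y + (1 : ℝ) • z)).sub
          continuous_const).aestronglyMeasurable
      · exact Filter.Eventually.of_forall fun z =>
          (norm_sub_le _ _).trans (add_le_add (hM _) (hM _))
    · refine Continuous.aestronglyMeasurable ?_
      refine Continuous.mul ?_ (hkc n ε hε)
      exact (hcd.comp (by fun_prop : Continuous fun z : X n => y + (1 : ℝ) • z)).clm_apply
        continuous_id
    · refine Filter.Eventually.of_forall fun z t ht => ?_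
      rw [norm_mul, Real.norm_of_nonneg (kr_nonneg n ε z)]
      exact mul_le_mul_of_nonneg_right (key t ht z) (kr_nonneg n ε z)
    · exact (hkr ε hε).1.const_mul _
    · refine Filter.Eventually.of_forall fun z t ht => ?_
      have h1 : HasDerivAt (fun t : ℝ => y + t • z) z t := by
        have := ((hasDerivAt_id t).smul_const z).const_add y
        simpa using this
      have h2 : HasDerivAt (fun t : ℝ => φ (y + t • z)) (fderiv ℝ φ (y + t • z) z) t :=
        (hd (y + t • z)).hasFDerivAt.comp_hasDerivAt t h1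
      exact (h2.sub_const (φ y)).mul_const (kr n ε z)
  -- second derivative
  have hG2 : HasDerivAt (fun t : ℝ => ∫ w, (φ (y + w) - φ y) * (t * kr n (t * ε) w))
      (∫ w, (φ (y + w) - φ y) *
        (kr n (1 * ε) w - (n + 1) * ((1 * ε) ^ 2 * kr (n + 2) (1 * ε) w))) 1 := by
    have hs : Ioi (1 / 2 : ℝ) ∈ 𝓝 (1 : ℝ) := Ioi_mem_nhds (by norm_num)
    refine (hasDerivAt_integral_of_dominated_loc_of_deriv_le (μ := volume)
      (F := fun (t : ℝ) (w : X n) => (φ (y + w) - φ y) * (t * kr n (t * ε) w))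
      (F' := fun (t : ℝ) (w : X n) => (φ (y + w) - φ y) *
        (kr n (t * ε) w - (n + 1) * ((t * ε) ^ 2 * kr (n + 2) (t * ε) w)))
      (bound := fun w => (M + M) * ((n + 2) * kr n (ε / 2) w)) (s := Ioi (1 / 2 : ℝ)) hs
      ?_ ?_ ?_ ?_ ?_ ?_).2
    · filter_upwards [hs] with t ht
      have ht' : (1 / 2 : ℝ) < t := ht
      have ht0 : 0 < t * ε := by
        have : (0 : ℝ) < t := by linarith
        positivity
      exact (((hφ.continuous.comp (by fun_prop : Continuous fun z : X n => y + z)).sub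
        continuous_const).mul (continuous_const.mul (hkc n _ ht0))).aestronglyMeasurable
    · have h1 : Integrable (fun w : X n => 1 * kr n (1 * ε) w) := by
        simpa using (hkr ε hε).1
      refine (h1.bdd_mul (c := M + M) ?_ ?_)
      · exact ((hφ.continuous.comp (by fun_prop : Continuous fun z : X n => y + z)).sub
          continuous_const).aestronglyMeasurable
      · exact Filter.Eventually.of_forall fun z =>
          (norm_sub_le _ _).trans (add_le_add (hM _) (hM _))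
    · have h1ε : 0 < 1 * ε := by linarith
      exact (((hφ.continuous.comp (by fun_prop : Continuous fun z : X n => y + z)).sub
        continuous_const).mul ((hkc n _ h1ε).sub (continuous_const.mul
          (continuous_const.mul (hkc (n + 2) _ h1ε))))).aestronglyMeasurable
    · refine Filter.Eventually.of_forall fun w t ht => ?_
      rw [norm_mul]
      exact mul_le_mul ((norm_sub_le _ _).trans (add_le_add (hM _) (hM _)))
        (H5_bd n hε ht w) (norm_nonneg _) (by linarith)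
    · exact ((hkr (ε / 2) (by positivity)).1.const_mul _).const_mul _
    · refine Filter.Eventually.of_forall fun w t ht => ?_
      have ht' : (1 / 2 : ℝ) < t := ht
      exact (H5_deriv n hε (by linarith) w).const_mul (φ (y + w) - φ y)
  have hEq : (fun t : ℝ => ∫ z, (φ (y + t • z) - φ y) * kr n ε z) =ᶠ[𝓝 1]
      (fun t : ℝ => ∫ w, (φ (y + w) - φ y) * (t * kr n (t * ε) w)) := by
    filter_upwards [Ioi_mem_nhds (show (0 : ℝ) < 1 by norm_num)] with t ht
    have ht0 : 0 < t := ht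
    have h1 := Measure.integral_comp_smul_of_nonneg (volume : Measure (X n))
      (fun w : X n => (φ (y + w) - φ y) * kr n ε (t⁻¹ • w)) t (hR := ht0.le)
    have h2 : ∀ z : X n, t⁻¹ • t • z = z := fun z => inv_smul_smul₀ ht0.ne' z
    simp only [h2] at h1
    rw [h1, ← integral_smul]
    refine integral_congr_ae (Filter.Eventually.of_forall fun w => ?_)
    simp only [finrank_euclideanSpace_fin, smul_eq_mul]
    rw [kr_scale n ε ht0 w]
    have : (t ^ n)⁻¹ * t ^ (n + 1) = t := by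
      rw [pow_succ, ← mul_assoc, inv_mul_cancel₀ (pow_pos ht0 n).ne', one_mul]
    calc (t ^ n)⁻¹ * ((φ (y + w) - φ y) * (t ^ (n + 1) * kr n (t * ε) w)) =
          (φ (y + w) - φ y) * (((t ^ n)⁻¹ * t ^ (n + 1)) * kr n (t * ε) w) := by ring
      _ = (φ (y + w) - φ y) * (t * kr n (t * ε) w) := by rw [this]
  have := hG1.unique (hG2.congr_of_eventuallyEq hEq)
  simpa using this

private theorem H5_sd {φ : X n → ℝ} (hφ : ContDiff ℝ 2 φ) (hc : HasCompactSupport φ) :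
    ∃ M : ℝ, 0 ≤ M ∧ ∀ y w : X n, |φ (y + w) + φ (y - w) - 2 * φ y| ≤ M * ‖w‖ ^ 2 := by
  have hd : Differentiable ℝ φ := hφ.differentiable (by norm_num)
  obtain ⟨C, hC⟩ := ContDiff.lipschitzWith_of_hasCompactSupport (hc.fderiv ℝ)
    (hφ.fderiv_right (m := 1) (by norm_num)) (by norm_num)
  refine ⟨2 * C, by positivity, fun y w => ?_⟩
  have h := norm_image_sub_le_of_norm_deriv_le_segment_01'
    (f := fun t : ℝ => φ (y + t • w) + φ (y - t • w))
    (f' := fun t : ℝ => fderiv ℝ φ (y + t • w) w + fderiv ℝ φ (y - t • w) (-w))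
    (C := 2 * C * ‖w‖ ^ 2) ?_ ?_
  · have e : φ (y + (1 : ℝ) • w) + φ (y - (1 : ℝ) • w) -
        (φ (y + (0 : ℝ) • w) + φ (y - (0 : ℝ) • w)) = φ (y + w) + φ (y - w) - 2 * φ y := by
      simp only [one_smul, zero_smul, add_zero, sub_zero]
      ring
    rw [← e]
    exact h
  · intro t _
    have h1 : HasDerivAt (fun t : ℝ => y + t • w) w t := by
      have := ((hasDerivAt_id t).smul_const w).const_add y
      simpa using this
    have h2 : HasDerivAt (fun t : ℝ => y - t • w) (-w) t := by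
      have := ((hasDerivAt_id t).smul_const w).const_sub y
      simpa using this
    exact ((((hd (y + t • w)).hasFDerivAt.comp_hasDerivAt t h1)).add
      ((hd (y - t • w)).hasFDerivAt.comp_hasDerivAt t h2)).hasDerivWithinAt
  · intro t ht
    have e : fderiv ℝ φ (y + t • w) w + fderiv ℝ φ (y - t • w) (-w) =
        (fderiv ℝ φ (y + t • w) - fderiv ℝ φ (y - t • w)) w := by
      rw [map_neg]
      rfl
    rw [e]
    have h3 := hC.norm_sub_le (y + t • w) (y - t • w)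
    have h4 : (y + t • w) - (y - t • w) = (2 * t) • w := by
      rw [mul_smul, two_smul]
      abel
    rw [h4, norm_smul, Real.norm_of_nonneg (by linarith [ht.1])] at h3
    calc ‖(fderiv ℝ φ (y + t • w) - fderiv ℝ φ (y - t • w)) w‖ ≤
          ‖fderiv ℝ φ (y + t • w) - fderiv ℝ φ (y - t • w)‖ * ‖w‖ :=
            ContinuousLinearMap.le_opNorm _ _
      _ ≤ (C * (2 * t * ‖w‖)) * ‖w‖ := mul_le_mul_of_nonneg_right h3 (norm_nonneg _)
      _ ≤ (C * (2 * 1 * ‖w‖)) * ‖w‖ := by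
          have h5 : t ≤ 1 := ht.2.le
          have h6 : (0 : ℝ) ≤ C := C.2
          have h7 := norm_nonneg w
          gcongr
      _ = 2 * C * ‖w‖ ^ 2 := by ring

private theorem H5_int2 (hn : 1 ≤ n) {ε : ℝ} (hε : 0 < ε) :
    Integrable (fun z : X n => kr (n + 2) ε z) := by
  obtain ⟨A, hA, hkr⟩ := H5_kr hn
  refine ((hkr ε hε).1.const_mul (ε ^ 2)⁻¹).mono' (kr_continuous (n + 2) hε).aestronglyMeasurable
    (Filter.Eventually.of_forall fun z => ?_)
  rw [Real.norm_of_nonneg (kr_nonneg _ _ _)]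
  have h1 := H5_kr2 n hε z
  have h2 : kr (n + 2) ε z * ε ^ 2 ≤ kr n ε z := by
    rw [← h1]
    exact mul_le_mul_of_nonneg_left (by nlinarith [sq_nonneg ‖z‖]) (kr_nonneg _ _ _)
  rw [inv_mul_eq_div, le_div_iff₀ (by positivity)]
  exact h2

private theorem H5_near (hn : 1 ≤ n) {φ : X n → ℝ} (hφ : ContDiff ℝ 2 φ)
    (hc : HasCompactSupport φ) : ∃ B : ℝ, 0 ≤ B ∧ ∀ ε : ℝ, 0 < ε → ∀ y : X n,
      |∫ w, (φ (y + w) - φ y) * kr (n + 2) ε w| ≤ B * ε⁻¹ := by
  obtain ⟨A, hA, hkr⟩ := H5_kr hn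
  obtain ⟨M, hM0, hM⟩ := H5_sd hφ hc
  obtain ⟨N, hN⟩ := hc.exists_bound_of_continuous hφ.continuous
  refine ⟨M * A, by positivity, fun ε hε y => ?_⟩
  have hi : ∀ g : X n → X n, Continuous g →
      Integrable (fun w => (φ (g w) - φ y) * kr (n + 2) ε w) := by
    intro g hg
    refine (H5_int2 hn hε).bdd_mul (c := N + N) ?_ ?_
    · exact ((hφ.continuous.comp hg).sub continuous_const).aestronglyMeasurable
    · exact Filter.Eventually.of_forall fun z =>
        (norm_sub_le _ _).trans (add_le_add (hN _) (hN _))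
  have h1 : ∫ w, (φ (y - w) - φ y) * kr (n + 2) ε w =
      ∫ w, (φ (y + w) - φ y) * kr (n + 2) ε w := by
    rw [← integral_neg_eq_self (fun w => (φ (y + w) - φ y) * kr (n + 2) ε w)]
    refine integral_congr_ae (Filter.Eventually.of_forall fun w => ?_)
    simp only [kr_neg, sub_eq_add_neg]
  have h2 : ∫ w, (φ (y + w) - φ y) * kr (n + 2) ε w =
      (1 / 2) * ∫ w, (φ (y + w) + φ (y - w) - 2 * φ y) * kr (n + 2) ε w := by
    have h3 : ∫ w, (φ (y + w) + φ (y - w) - 2 * φ y) * kr (n + 2) ε w =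
        (∫ w, (φ (y + w) - φ y) * kr (n + 2) ε w) +
          ∫ w, (φ (y - w) - φ y) * kr (n + 2) ε w := by
      rw [← integral_add (hi (fun w => y + w) (by fun_prop)) (hi (fun w => y - w) (by fun_prop))]
      refine integral_congr_ae (Filter.Eventually.of_forall fun w => ?_)
      simp only
      ring
    rw [h3, h1]
    ring
  have h4 : |∫ w, (φ (y + w) + φ (y - w) - 2 * φ y) * kr (n + 2) ε w| ≤
      ∫ w : X n, M * kr n ε w := by
    rw [← Real.norm_eq_abs]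
    refine norm_integral_le_of_norm_le ((hkr ε hε).1.const_mul M)
      (Filter.Eventually.of_forall fun w => ?_)
    rw [norm_mul, Real.norm_of_nonneg (kr_nonneg _ _ _), Real.norm_eq_abs]
    have h5 := H5_kr2 n hε w
    have h6 := kr_nonneg (n + 2) ε w
    calc |φ (y + w) + φ (y - w) - 2 * φ y| * kr (n + 2) ε w ≤
          M * ‖w‖ ^ 2 * kr (n + 2) ε w := mul_le_mul_of_nonneg_right (hM y w) h6
      _ ≤ M * (kr (n + 2) ε w * (‖w‖ ^ 2 + ε ^ 2)) := by
          nlinarith [mul_nonneg (mul_nonneg hM0 h6) (sq_nonneg ε)]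
      _ = M * kr n ε w := by rw [h5]
  rw [h2, abs_mul, abs_of_pos (by norm_num : (0 : ℝ) < 1 / 2)]
  rw [integral_const_mul] at h4
  have h7 := mul_le_mul_of_nonneg_left (hkr ε hε).2 hM0
  have h8 : 0 ≤ M * (A * ε⁻¹) := by positivity
  nlinarith

private theorem H5_far (hn : 1 ≤ n) {φ : X n → ℝ} (hφ : ContDiff ℝ 2 φ)
    (hc : HasCompactSupport φ) {ρ : ℝ} (hρ1 : 1 ≤ ρ)
    (hρ : ∀ x, ρ < ‖x‖ → φ x = 0 ∧ fderiv ℝ φ x = 0) : ∃ B : ℝ, 0 ≤ B ∧ ∀ ε : ℝ, 0 < ε →
      ∀ y : X n, 2 * ρ ≤ ‖y‖ →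
      |∫ w, (φ (y + w) - φ y) * kr (n + 2) ε w| ≤ B * (1 + ‖y‖)⁻¹ ^ (n + 3) := by
  have hI : Integrable (fun x => |φ x|) :=
    (hφ.continuous.integrable_of_hasCompactSupport hc).abs
  refine ⟨(∫ x, |φ x|) * 4 ^ (n + 3), by positivity, fun ε hε y hy => ?_⟩
  have hy0 : φ y = 0 := (hρ y (by linarith)).1
  have h1 : ∫ w, (φ (y + w) - φ y) * kr (n + 2) ε w = ∫ x, φ x * kr (n + 2) ε (x - y) := by
    rw [← integral_add_left_eq_self (fun x => φ x * kr (n + 2) ε (x - y)) y]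
    refine integral_congr_ae (Filter.Eventually.of_forall fun w => ?_)
    simp only [hy0, sub_zero, add_sub_cancel_left]
  rw [h1, ← Real.norm_eq_abs]
  have h2 : ‖∫ x, φ x * kr (n + 2) ε (x - y)‖ ≤
      ∫ x, |φ x| * ((4 : ℝ) ^ (n + 3) * (1 + ‖y‖)⁻¹ ^ (n + 3)) := by
    refine norm_integral_le_of_norm_le (hI.mul_const _)
      (Filter.Eventually.of_forall fun x => ?_)
    rw [norm_mul, Real.norm_of_nonneg (kr_nonneg _ _ _), Real.norm_eq_abs]
    by_cases hx : ρ < ‖x‖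
    · rw [(hρ x hx).1]
      simp
    · push Not at hx
      have h3 : (1 + ‖y‖) / 4 ≤ ‖x - y‖ := by
        have := norm_sub_norm_le y x
        rw [norm_sub_rev] at this
        linarith
      have h4 : 0 < ‖x - y‖ := lt_of_lt_of_le (by positivity) h3
      have h5 : ‖x - y‖⁻¹ ≤ 4 * (1 + ‖y‖)⁻¹ := by
        have := inv_anti₀ (by positivity) h3
        calc ‖x - y‖⁻¹ ≤ ((1 + ‖y‖) / 4)⁻¹ := this
          _ = 4 * (1 + ‖y‖)⁻¹ := by rw [inv_div]; rfl
      refine mul_le_mul_of_nonneg_left ?_ (abs_nonneg _)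
      calc kr (n + 2) ε (x - y) ≤ ‖x - y‖⁻¹ ^ (n + 2 + 1) := kr_le_norm _ _ (norm_pos_iff.1 h4)
        _ ≤ (4 * (1 + ‖y‖)⁻¹) ^ (n + 2 + 1) := pow_le_pow_left₀ (by positivity) h5 _
        _ = (4 : ℝ) ^ (n + 3) * (1 + ‖y‖)⁻¹ ^ (n + 3) := by rw [mul_pow]
  rw [integral_mul_const] at h2
  refine h2.trans (le_of_eq ?_)
  ring

private theorem H5_sum {φ : X n → ℝ} (x z : X n) :
    ∑ j, fderiv ℝ φ x (EuclideanSpace.single j 1) *
      ⟪EuclideanSpace.single j (1 : ℝ), z⟫ = fderiv ℝ φ x z := by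
  have h : z = ∑ j, ⟪EuclideanSpace.single j (1 : ℝ), z⟫ • (EuclideanSpace.single j (1 : ℝ)) := by
    have := (EuclideanSpace.basisFun (Fin n) ℝ).sum_repr' z
    simpa using this.symm
  conv_rhs => rw [h]
  rw [map_sum]
  refine Finset.sum_congr rfl fun j _ => ?_
  rw [map_smul, smul_eq_mul, mul_comm]

theorem lam_ibp (hn : 1 ≤ n) {φ : X n → ℝ} (hφ : ContDiff ℝ 2 φ) (hc : HasCompactSupport φ) :
    ∃ B : ℝ, 0 < B ∧ ∀ ε : ℝ, 0 < ε → ε ≤ 1 → ∀ y : X n,
      |Lam n ε volume φ y + ∑ j, ∫ x, fderiv ℝ φ x (EuclideanSpace.single j 1) *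
        (⟪EuclideanSpace.single j (1 : ℝ), x - y⟫ * kr n ε (x - y))|
        ≤ B * ε * (1 + ‖y‖)⁻¹ ^ (n + 1) := by
  obtain ⟨A, hA, hkr⟩ := H5_kr hn
  obtain ⟨ρ, hρ1, hρ⟩ := H5_zero hc
  obtain ⟨B₁, hB₁, h₁⟩ := H5_near hn hφ hc
  obtain ⟨B₂, hB₂, h₂⟩ := H5_far hn hφ hc hρ1 hρ
  obtain ⟨N, hN⟩ := hc.exists_bound_of_continuous hφ.continuous
  have hcd : Continuous (fderiv ℝ φ) := hφ.continuous_fderiv (by norm_num)
  refine ⟨(n + 1) * (B₁ * (1 + 2 * ρ) ^ (n + 1) + B₂) + 1, by positivity, fun ε hε hε1 y => ?_⟩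
  have hi : Integrable (fun w => (φ (y + w) - φ y) * kr n ε w) := by
    refine (hkr ε hε).1.bdd_mul (c := N + N) ?_ ?_
    · exact ((hφ.continuous.comp (by fun_prop : Continuous fun z : X n => y + z)).sub
        continuous_const).aestronglyMeasurable
    · exact Filter.Eventually.of_forall fun z =>
        (norm_sub_le _ _).trans (add_le_add (hN _) (hN _))
  have hi2 : Integrable (fun w => (φ (y + w) - φ y) * kr (n + 2) ε w) := by
    refine (H5_int2 hn hε).bdd_mul (c := N + N) ?_ ?_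
    · exact ((hφ.continuous.comp (by fun_prop : Continuous fun z : X n => y + z)).sub
        continuous_const).aestronglyMeasurable
    · exact Filter.Eventually.of_forall fun z =>
        (norm_sub_le _ _).trans (add_le_add (hN _) (hN _))
  have e1 : Lam n ε volume φ y = -∫ w, (φ (y + w) - φ y) * kr n ε w := by
    unfold Lam
    rw [← integral_add_left_eq_self (fun x => (φ y - φ x) * kr n ε (x - y)) y, ← integral_neg]
    refine integral_congr_ae (Filter.Eventually.of_forall fun w => ?_)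
    simp only [add_sub_cancel_left]
    ring
  have e2 : ∑ j, ∫ x, fderiv ℝ φ x (EuclideanSpace.single j 1) *
      (⟪EuclideanSpace.single j (1 : ℝ), x - y⟫ * kr n ε (x - y)) =
      ∫ z, fderiv ℝ φ (y + z) z * kr n ε z := by
    rw [← integral_finsetSum]
    · rw [← integral_add_left_eq_self (fun x => ∑ j, fderiv ℝ φ x (EuclideanSpace.single j 1) *
        (⟪EuclideanSpace.single j (1 : ℝ), x - y⟫ * kr n ε (x - y))) y]
      refine integral_congr_ae (Filter.Eventually.of_forall fun w => ?_)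
      simp only [add_sub_cancel_left]
      rw [← H5_sum (φ := φ) (y + w) w, Finset.sum_mul]
      refine Finset.sum_congr rfl fun j _ => ?_
      ring
    · intro j _
      refine Continuous.integrable_of_hasCompactSupport ?_ ?_
      · refine Continuous.mul ?_ (Continuous.mul ?_ ?_)
        · exact hcd.clm_apply continuous_const
        · fun_prop
        · exact (kr_continuous n hε).comp (by fun_prop)
      · refine HasCompactSupport.mul_right ?_
        refine HasCompactSupport.of_support_subset_isCompact (hc.fderiv ℝ).isCompact ?_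
        intro x hx
        refine subset_tsupport _ ?_
        intro h0
        apply hx
        simp [h0]
  have e3 : ∫ w, (φ (y + w) - φ y) * (kr n ε w - (n + 1) * (ε ^ 2 * kr (n + 2) ε w)) =
      (∫ w, (φ (y + w) - φ y) * kr n ε w) -
        (n + 1) * ε ^ 2 * ∫ w, (φ (y + w) - φ y) * kr (n + 2) ε w := by
    rw [← integral_const_mul, ← integral_sub hi (hi2.const_mul _)]
    refine integral_congr_ae (Filter.Eventually.of_forall fun w => ?_)
    simp only
    ring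
  rw [e1, e2, H5_id hn hφ hc hε y, e3]
  have e4 : -(∫ w, (φ (y + w) - φ y) * kr n ε w) + ((∫ w, (φ (y + w) - φ y) * kr n ε w) -
        (n + 1) * ε ^ 2 * ∫ w, (φ (y + w) - φ y) * kr (n + 2) ε w) =
      -((n + 1) * ε ^ 2 * ∫ w, (φ (y + w) - φ y) * kr (n + 2) ε w) := by ring
  rw [e4, abs_neg, abs_mul, abs_of_nonneg (by positivity : (0 : ℝ) ≤ (n + 1) * ε ^ 2)]
  have hy0 : 0 < 1 + ‖y‖ := by positivity
  have hP : 0 < (1 + ‖y‖)⁻¹ ^ (n + 1) := by positivity
  rcases le_total ‖y‖ (2 * ρ) with hy | hy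
  · have h3 : 1 ≤ (1 + 2 * ρ) ^ (n + 1) * (1 + ‖y‖)⁻¹ ^ (n + 1) := by
      rw [← mul_pow]
      refine one_le_pow₀ ?_
      rw [← div_eq_mul_inv, one_le_div hy0]
      linarith
    calc (n + 1) * ε ^ 2 * |∫ w, (φ (y + w) - φ y) * kr (n + 2) ε w| ≤
          (n + 1) * ε ^ 2 * (B₁ * ε⁻¹) :=
            mul_le_mul_of_nonneg_left (h₁ ε hε y) (by positivity)
      _ = (n + 1) * B₁ * ε * 1 := by
          field_simp
      _ ≤ (n + 1) * B₁ * ε * ((1 + 2 * ρ) ^ (n + 1) * (1 + ‖y‖)⁻¹ ^ (n + 1)) :=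
          mul_le_mul_of_nonneg_left h3 (by positivity)
      _ ≤ ((n + 1) * (B₁ * (1 + 2 * ρ) ^ (n + 1) + B₂) + 1) * ε * (1 + ‖y‖)⁻¹ ^ (n + 1) := by
          have h4 : 0 ≤ ((n : ℝ) + 1) * B₂ * ε * (1 + ‖y‖)⁻¹ ^ (n + 1) := by positivity
          have h5 : 0 ≤ ε * (1 + ‖y‖)⁻¹ ^ (n + 1) := by positivity
          linarith
  · have h3 : (1 + ‖y‖)⁻¹ ^ (n + 3) ≤ (1 + ‖y‖)⁻¹ ^ (n + 1) := by
      refine pow_le_pow_of_le_one (by positivity) ?_ (by omega)
      exact inv_le_one_of_one_le₀ (by linarith [norm_nonneg y])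
    have h6 : ε ^ 2 ≤ ε := by nlinarith
    calc (n + 1) * ε ^ 2 * |∫ w, (φ (y + w) - φ y) * kr (n + 2) ε w| ≤
          (n + 1) * ε ^ 2 * (B₂ * (1 + ‖y‖)⁻¹ ^ (n + 3)) :=
            mul_le_mul_of_nonneg_left (h₂ ε hε y hy) (by positivity)
      _ ≤ (n + 1) * ε * (B₂ * (1 + ‖y‖)⁻¹ ^ (n + 1)) := by gcongr
      _ ≤ ((n + 1) * (B₁ * (1 + 2 * ρ) ^ (n + 1) + B₂) + 1) * ε * (1 + ‖y‖)⁻¹ ^ (n + 1) := by
          have h4 : 0 ≤ ((n : ℝ) + 1) * (B₁ * (1 + 2 * ρ) ^ (n + 1)) * ε *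
            (1 + ‖y‖)⁻¹ ^ (n + 1) := by positivity
          have h5 : 0 ≤ ε * (1 + ‖y‖)⁻¹ ^ (n + 1) := by positivity
          linarith

end Pool.Agent.RZ
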