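import Pool.Agent.RZ.H6a
import Pool.Agent.RZ.G4

/-!
H6b: convolutions of nu are constant. rho C^2 with compact support, b(x) = int rho(x - y) dnu(y): bounded (growth), Lipschitz, so LL and int_{B_r} b^2 <= M r^n <= M r^{n+3}.
EqL n volume b: for psi Tst with int psi dx = 0: int b Lam n eps volume psi dx = int_y [int_x rho(x-y) Lam psi (x) dx] dnu(y) (Fubini: |Lam psi(x)| <= B(1+|x|)^{-(n+2)} for fixed eps, lam_bound with vol_reg)
= int Lam n eps volume phi dnu, phi(y) = int psi(x) rho(x-y) dx, C^2 with compact support (HasCompactSupport.contDiff_convolution_right with rho^vee), by translation invariance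
(int_x rho(x-y) int_z (psi(x)-psi(z)) kr(z-x) = int_z (phi(y)-phi(z)) kr(z-y): substitute x = y + t, z = z' + t). Then H6a. liouville: b affine; bounded, so constant.
-/

set_option autoImplicit false

open MeasureTheory Filter Topology Metric Set
open scoped RealInnerProductSpace ENNReal

namespace Pool.Agent.RZ

variable {d n : ℕ}

private theorem H6b_tst {m : ℕ} {f : X m → ℝ} (hf : ContDiff ℝ 1 f) (hc : HasCompactSupport f) :
    ∃ L ρ : ℝ, 0 ≤ L ∧ 0 < ρ ∧ Tst L ρ f := by
  obtain ⟨K, hK⟩ := ContDiff.lipschitzWith_of_hasCompactSupport hc hf (by norm_num)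
  obtain ⟨r, hr⟩ := hc.isCompact.isBounded.subset_closedBall (0 : X m)
  refine ⟨K, max r 1, K.2, lt_of_lt_of_le one_pos (le_max_right _ _), ⟨fun x y => ?_, fun x hx => ?_⟩⟩
  · have := hK.dist_le_mul x y
    rwa [Real.dist_eq, dist_eq_norm] at this
  · by_contra hcon
    have h1 : x ∈ tsupport f := subset_tsupport f hcon
    have h2 := hr h1
    rw [mem_closedBall, dist_zero_right] at h2
    have := le_max_left r 1
    linarith

/-- continuous functions with compact support composed with a reflection and translation -/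
private theorem H6b_shift_int {f : X n → ℝ} (hf : Continuous f) (hc : HasCompactSupport f)
    (ν : Measure (X n)) [IsFiniteMeasureOnCompacts ν] (x : X n) :
    Integrable (fun y => f (x - y)) ν := by
  refine (hf.comp (by fun_prop)).integrable_of_hasCompactSupport ?_
  exact hc.comp_homeomorph (Homeomorph.subLeft x)

/-- the convolution identity for `Lam` -/
private theorem H6b_lam (hn : 1 ≤ n) {f ψ : X n → ℝ} (hf : Continuous f) {R₂ : ℝ}
    (hfs : ∀ x, R₂ < ‖x‖ → f x = 0) {L R₁ : ℝ} (hψ : Tst L R₁ ψ) {L' R' : ℝ}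
    (hφ : Tst L' R' fun y => ∫ x, ψ x * f (x - y)) {ε : ℝ} (hε : 0 < ε) (y : X n) :
    ∫ x, f (x - y) * Lam n ε volume ψ x = Lam n ε volume (fun y => ∫ x, ψ x * f (x - y)) y := by
  obtain ⟨Cv, hCv, hgv, -⟩ := vol_reg n
  have hCv0 : 0 ≤ Cv := by linarith
  set κ : ℝ := ∫ x : X n, kr n ε x with hκ
  have h2 : ∀ y : X n, ∫ x, kr n ε (x - y) = κ := fun y =>
    integral_sub_right_eq_self (fun x => kr n ε x) y
  have hψc := hψ.continuous
  have hψs := hψ.hasCompactSupport
  have hkc := kr_continuous (d := n) n hε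
  have hLc : Continuous (Lam n ε volume ψ) := lam_continuous hn hCv0 hgv hε hψ
  have hL : ∀ x, Lam n ε volume ψ x = ψ x * κ - ∫ z, ψ z * kr n ε (z - x) := fun x => by
    rw [lam_eq hn hCv0 hgv hε hψ, h2]
  have hTc : Continuous fun x => ∫ z, ψ z * kr n ε (z - x) := by
    have h5 : Continuous fun x => ψ x * κ - Lam n ε volume ψ x :=
      (hψc.mul continuous_const).sub hLc
    refine h5.congr fun x => ?_
    rw [hL]; ring
  have hfcs : HasCompactSupport fun x => f (x - y) := by
    refine HasCompactSupport.intro (isCompact_closedBall y R₂) fun x hx => ?_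
    rw [mem_closedBall, dist_eq_norm, not_le] at hx
    exact hfs _ hx
  have hfc : Continuous fun x => f (x - y) := hf.comp (by fun_prop)
  rw [lam_eq hn hCv0 hgv hε hφ, h2]
  have e1 : ∫ x, f (x - y) * Lam n ε volume ψ x =
      (∫ x, ψ x * f (x - y)) * κ - ∫ x, f (x - y) * ∫ z, ψ z * kr n ε (z - x) := by
    rw [← integral_mul_const, ← integral_sub]
    · refine integral_congr_ae (Eventually.of_forall fun x => ?_)
      simp only
      rw [hL]; ring
    · exact ((hψc.mul hfc).mul continuous_const).integrable_of_hasCompactSupport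
        (hψs.mul_right.mul_right)
    · exact (hfc.mul hTc).integrable_of_hasCompactSupport hfcs.mul_right
  rw [e1]
  congr 1
  -- both sides are ∫ ψ(p) ∫ f(p - z) kr(z - y)
  have hcont1 : Continuous (Function.uncurry fun z x : X n => ψ x * f (x - z) * kr n ε (z - y)) := by
    simp only [Function.uncurry_def]
    fun_prop
  have hcs1 : HasCompactSupport
      (Function.uncurry fun z x : X n => ψ x * f (x - z) * kr n ε (z - y)) := by
    refine HasCompactSupport.intro ((isCompact_closedBall (0 : X n) (R₁ + R₂)).prod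
      (isCompact_closedBall (0 : X n) R₁)) fun p hp => ?_
    rw [mem_prod, mem_closedBall, mem_closedBall, dist_zero_right, dist_zero_right] at hp
    simp only [Function.uncurry_def]
    by_cases h7 : R₁ < ‖p.2‖
    · rw [hψ.supp _ h7]; ring
    · have h8 : R₂ < ‖p.2 - p.1‖ := by
        by_contra hcon
        apply hp
        refine ⟨?_, not_lt.1 h7⟩
        have h9 : ‖p.1‖ ≤ ‖p.2‖ + ‖p.2 - p.1‖ := by
          have := norm_sub_le p.2 (p.2 - p.1)
          rwa [sub_sub_cancel] at this
        linarith [not_lt.1 h7, not_lt.1 hcon]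
      rw [hfs _ h8]; ring
  have hcont2 : Continuous (Function.uncurry fun x z : X n => f (x - y) * ψ z * kr n ε (z - x)) := by
    simp only [Function.uncurry_def]
    fun_prop
  have hcs2 : HasCompactSupport
      (Function.uncurry fun x z : X n => f (x - y) * ψ z * kr n ε (z - x)) := by
    refine HasCompactSupport.intro ((isCompact_closedBall y R₂).prod
      (isCompact_closedBall (0 : X n) R₁)) fun p hp => ?_
    rw [mem_prod, mem_closedBall, mem_closedBall, dist_eq_norm, dist_zero_right] at hp
    simp only [Function.uncurry_def]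
    by_cases h7 : R₁ < ‖p.2‖
    · rw [hψ.supp _ h7]; ring
    · have h8 : R₂ < ‖p.1 - y‖ := by
        by_contra hcon
        exact hp ⟨not_lt.1 hcon, not_lt.1 h7⟩
      rw [hfs _ h8]; ring
  have hinner : ∀ p : X n, ∫ z, f (p - z) * kr n ε (z - y) = ∫ x, f (x - y) * kr n ε (p - x) := by
    intro p
    rw [← integral_sub_left_eq_self (fun z => f (p - z) * kr n ε (z - y)) volume (p + y)]
    refine integral_congr_ae (Eventually.of_forall fun x => ?_)
    simp only
    rw [show p - (p + y - x) = x - y by abel, show p + y - x - y = p - x by abel]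
  calc ∫ x, f (x - y) * ∫ z, ψ z * kr n ε (z - x)
      = ∫ x, ∫ z, f (x - y) * ψ z * kr n ε (z - x) := by
        refine integral_congr_ae (Eventually.of_forall fun x => ?_)
        simp only
        rw [← integral_const_mul]
        refine integral_congr_ae (Eventually.of_forall fun z => ?_)
        simp only
        ring
    _ = ∫ z, ∫ x, f (x - y) * ψ z * kr n ε (z - x) :=
        integral_integral_swap_of_hasCompactSupport hcont2 hcs2
    _ = ∫ z, ψ z * ∫ x, f (x - y) * kr n ε (z - x) := by
        refine integral_congr_ae (Eventually.of_forall fun z => ?_)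
        simp only
        rw [← integral_const_mul]
        refine integral_congr_ae (Eventually.of_forall fun x => ?_)
        simp only
        ring
    _ = ∫ x, ψ x * ∫ z, f (x - z) * kr n ε (z - y) := by simp only [hinner]
    _ = ∫ x, ∫ z, ψ x * f (x - z) * kr n ε (z - y) := by
        refine integral_congr_ae (Eventually.of_forall fun x => ?_)
        simp only
        rw [← integral_const_mul]
        refine integral_congr_ae (Eventually.of_forall fun z => ?_)
        simp only
        ring
    _ = ∫ z, ∫ x, ψ x * f (x - z) * kr n ε (z - y) :=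
        (integral_integral_swap_of_hasCompactSupport hcont1 hcs1).symm
    _ = ∫ z, (∫ x, ψ x * f (x - z)) * kr n ε (z - y) := by
        refine integral_congr_ae (Eventually.of_forall fun z => ?_)
        simp only
        rw [← integral_mul_const]

theorem conv_const (hn : 1 ≤ n) {C : ℝ} (hC : 1 ≤ C) {ν : Measure (X n)} (hν : Reg n C ν)
    (hs : Supp ν = Set.univ) {ρ : X n → ℝ} (hρ : ContDiff ℝ 2 ρ) (hc : HasCompactSupport ρ) :
    ∃ c : ℝ, ∀ x, ∫ y, ρ (x - y) ∂ν = c := by
  have hC0 : 0 ≤ C := by linarith
  have := hν.gr.isLocallyFinite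
  obtain ⟨Cv, hCv, hgv, -⟩ := vol_reg n
  have hCv0 : 0 ≤ Cv := by linarith
  obtain ⟨K, r, hK, hr, hT⟩ := H6b_tst (hρ.of_le (by norm_num)) hc
  obtain ⟨G, hG⟩ : ∃ G : ℝ, ∀ x, |ρ x| ≤ G := by
    obtain ⟨G, hG⟩ := hc.exists_bound_of_continuous hρ.continuous
    exact ⟨G, fun x => by simpa using hG x⟩
  have hG0 : 0 ≤ G := (abs_nonneg _).trans (hG 0)
  set b : X n → ℝ := fun x => ∫ y, ρ (x - y) ∂ν with hb
  have hzero : ∀ x y : X n, y ∉ closedBall x r → ρ (x - y) = 0 := by
    intro x y hy
    rw [mem_closedBall, dist_comm, dist_eq_norm, not_le] at hy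
    exact hT.supp _ hy
  have hint : ∀ x, Integrable (fun y => ρ (x - y)) ν := fun x =>
    H6b_shift_int hρ.continuous hc ν x
  have habs : ∀ x, ∫ y, |ρ (x - y)| ∂ν ≤ G * (C * r ^ n) := by
    intro x
    have h1 : ∫ y, |ρ (x - y)| ∂ν = ∫ y in closedBall x r, |ρ (x - y)| ∂ν := by
      refine (setIntegral_eq_integral_of_forall_compl_eq_zero fun y hy => ?_).symm
      rw [hzero x y hy, abs_zero]
    rw [h1]
    calc ∫ y in closedBall x r, |ρ (x - y)| ∂ν ≤ ∫ y in closedBall x r, G ∂ν := by
          refine setIntegral_mono (hint x).abs.integrableOn ?_ fun y => hG _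
          exact integrableOn_const (hν.gr.finite x r).ne
      _ = G * ν.real (closedBall x r) := by rw [setIntegral_const, smul_eq_mul, mul_comm]
      _ ≤ G * (C * r ^ n) := by gcongr; exact hν.gr.real_le hC0 x hr
  have hbb : ∀ x, |b x| ≤ G * (C * r ^ n) := fun x =>
    (abs_integral_le_integral_abs).trans (habs x)
  have hblip : ∀ x x', |b x - b x'| ≤ K * (2 * (C * r ^ n)) * ‖x - x'‖ := by
    intro x x'
    have h1 : b x - b x' = ∫ y, (ρ (x - y) - ρ (x' - y)) ∂ν :=
      (integral_sub (hint x) (hint x')).symm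
    set S : Set (X n) := closedBall x r ∪ closedBall x' r
    have h2 : ∫ y, (ρ (x - y) - ρ (x' - y)) ∂ν = ∫ y in S, (ρ (x - y) - ρ (x' - y)) ∂ν := by
      refine (setIntegral_eq_integral_of_forall_compl_eq_zero fun y hy => ?_).symm
      rw [mem_union, not_or] at hy
      rw [hzero x y hy.1, hzero x' y hy.2, sub_zero]
    have hSfin : ν S < ⊤ := (measure_union_le _ _).trans_lt
      (ENNReal.add_lt_top.2 ⟨hν.gr.finite x r, hν.gr.finite x' r⟩)
    rw [h1, h2, ← Real.norm_eq_abs]
    refine (norm_setIntegral_le_of_norm_le_const hSfin (C := K * ‖x - x'‖) fun y _ => ?_).trans ?_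
    · have h3 := hT.lip (x - y) (x' - y)
      rwa [show x - y - (x' - y) = x - x' by abel] at h3
    · have h4 : ν.real S ≤ C * r ^ n + C * r ^ n := (measureReal_union_le _ _).trans
        (add_le_add (hν.gr.real_le hC0 x hr) (hν.gr.real_le hC0 x' hr))
      calc K * ‖x - x'‖ * ν.real S ≤ K * ‖x - x'‖ * (C * r ^ n + C * r ^ n) := by gcongr
        _ = _ := by ring
  have hLL : LL b := fun R => ⟨K * (2 * (C * r ^ n)), fun x _ y _ => hblip x y⟩
  have hbc : Continuous b := hLL.continuous
  -- growth
  set Q : ℝ := G * (C * r ^ n) with hQ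
  have hQ0 : 0 ≤ Q := by positivity
  have hgrow : ∀ s, 1 ≤ s → ∫ y in closedBall 0 s, b y ^ 2 ≤ Q ^ 2 * Cv * s ^ (n + 3) := by
    intro s hs1
    have hs0 : 0 < s := by linarith
    calc ∫ y in closedBall (0 : X n) s, b y ^ 2 ≤ ∫ y in closedBall (0 : X n) s, Q ^ 2 := by
          refine setIntegral_mono ?_ (integrableOn_const (hgv.finite 0 s).ne) fun y => ?_
          · exact (hbc.pow 2).continuousOn.integrableOn_compact (isCompact_closedBall _ _)
          · rw [← sq_abs]; exact pow_le_pow_left₀ (abs_nonneg _) (hbb y) 2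
      _ = Q ^ 2 * (volume : Measure (X n)).real (closedBall 0 s) := by
          rw [setIntegral_const, smul_eq_mul, mul_comm]
      _ ≤ Q ^ 2 * (Cv * s ^ n) := by gcongr; exact hgv.real_le hCv0 0 hs0
      _ ≤ Q ^ 2 * (Cv * s ^ (n + 3)) := by
          gcongr
          omega
      _ = _ := by ring
  -- the equation
  have hEq : EqL n volume b := by
    intro L R ψ hψ0 hψm
    obtain ⟨L1, hL1⟩ : ∃ L1, L1 = |L| := ⟨_, rfl⟩
    have hψ : Tst |L| (max R 1) ψ := hψ0.mono (le_abs_self L) (le_max_left _ _)
    have hR1 : 0 < max R 1 := lt_of_lt_of_le one_pos (le_max_right _ _)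
    have hψc := hψ.continuous
    have hψs := hψ.hasCompactSupport
    set φ : X n → ℝ := fun y => ∫ x, ψ x * ρ (x - y) with hφ
    have hφeq : φ = convolution ψ (fun u => ρ (-u)) (ContinuousLinearMap.lsmul ℝ ℝ) volume := by
      funext y
      simp only [hφ, convolution_def, ContinuousLinearMap.lsmul_apply, smul_eq_mul, neg_sub]
    have hρs : HasCompactSupport fun u => ρ (-u) := hc.comp_homeomorph (Homeomorph.neg (X n))
    have hφ2 : ContDiff ℝ 2 φ := by
      rw [hφeq]
      exact hρs.contDiff_convolution_right (n := 2) _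
        (hψc.integrable_of_hasCompactSupport hψs).locallyIntegrable (hρ.comp contDiff_neg)
    have hφs : HasCompactSupport φ := by
      rw [hφeq]
      exact hψs.convolution _ hρs
    obtain ⟨L', R', -, -, hφT⟩ := H6b_tst (hφ2.of_le (by norm_num)) hφs
    refine (lam_leb_tendsto hn hC hν hs hφ2 hφs).congr' ?_
    filter_upwards [self_mem_nhdsWithin] with ε hε
    rw [mem_Ioi] at hε
    have hstep : ∀ y, Lam n ε volume φ y = ∫ x, ρ (x - y) * Lam n ε volume ψ x := fun y =>
      (H6b_lam hn hρ.continuous hT.supp hψ hφT hε y).symm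
    simp only [hstep]
    -- Fubini
    have hLc : Continuous (Lam n ε volume ψ) := lam_continuous hn hCv0 hgv hε hψ
    have hd : 0 < n := by omega
    obtain ⟨B, hB, hBd⟩ := lam_bound (d := n) n hn hd Cv |L| (max R 1) ε hCv0 (abs_nonneg _) hR1 hε
    have hLb := hBd volume hgv ψ hψ hψm
    obtain ⟨A, hA, hAk⟩ := Gr.kr_integrable (d := n) n hn
    obtain ⟨hk1, -⟩ := hAk Cv hCv0 volume hgv 0 1 one_pos
    simp only [sub_zero] at hk1
    have hwle : ∀ y : X n, (1 + ‖y‖)⁻¹ ^ (n + 2) ≤ kr n 1 y := by
      intro y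
      have h0 : (1 + ‖y‖)⁻¹ ^ (n + 2) ≤ (1 + ‖y‖)⁻¹ ^ (n + 1) := by
        refine pow_le_pow_of_le_one (by positivity) ?_ (by omega)
        refine inv_le_one_of_one_le₀ ?_
        linarith [norm_nonneg y]
      refine h0.trans ?_
      unfold kr
      refine pow_le_pow_left₀ (by positivity) ?_ _
      refine inv_anti₀ (Real.sqrt_pos.2 (by positivity)) ?_
      rw [Real.sqrt_le_left (by positivity)]
      nlinarith [norm_nonneg y]
    have hLi : Integrable (Lam n ε volume ψ) := by
      refine (hk1.const_mul B).mono hLc.aestronglyMeasurable (Eventually.of_forall fun y => ?_)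
      rw [Real.norm_eq_abs, Real.norm_of_nonneg (mul_nonneg hB.le (kr_nonneg _ _ _))]
      exact (hLb y).trans (mul_le_mul_of_nonneg_left (hwle y) hB.le)
    have hmeas : AEStronglyMeasurable (Function.uncurry fun x y : X n =>
        ρ (x - y) * Lam n ε volume ψ x) ((volume : Measure (X n)).prod ν) := by
      have h1 : Continuous (Function.uncurry fun x y : X n => ρ (x - y) * Lam n ε volume ψ x) := by
        simp only [Function.uncurry_def]
        have := hρ.continuous
        fun_prop
      exact h1.aestronglyMeasurable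
    have hprod : Integrable (Function.uncurry fun x y : X n =>
        ρ (x - y) * Lam n ε volume ψ x) ((volume : Measure (X n)).prod ν) := by
      rw [integrable_prod_iff hmeas]
      refine ⟨Eventually.of_forall fun x => ?_, ?_⟩
      · simp only [Function.uncurry_apply_pair]
        exact (hint x).mul_const _
      refine (hLi.norm.const_mul (G * (C * r ^ n))).mono hmeas.norm.integral_prod_right'
        (Eventually.of_forall fun x => ?_)
      rw [Real.norm_of_nonneg (integral_nonneg fun y => norm_nonneg _),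
        Real.norm_of_nonneg (by positivity)]
      have h2 : ∫ y, ‖Function.uncurry (fun x y : X n => ρ (x - y) * Lam n ε volume ψ x) (x, y)‖ ∂ν
          = (∫ y, |ρ (x - y)| ∂ν) * ‖Lam n ε volume ψ x‖ := by
        rw [← integral_mul_const]
        refine integral_congr_ae (Eventually.of_forall fun y => ?_)
        simp only [Function.uncurry_apply_pair, norm_mul, Real.norm_eq_abs]
      rw [h2]
      gcongr
      exact habs x
    rw [← integral_integral_swap hprod]
    refine integral_congr_ae (Eventually.of_forall fun x => ?_)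
    simp only [hb]
    rw [← integral_mul_const]
  obtain ⟨c, w, hcw⟩ := liouville hn hLL (by positivity) hgrow hEq
  refine ⟨c, fun x => ?_⟩
  have hw : w = 0 := by
    by_contra hw
    have hwp : 0 < ‖w‖ := norm_pos_iff.2 hw
    obtain ⟨k, hk⟩ := exists_nat_gt ((Q + |c|) / ‖w‖ ^ 2)
    have h1 := hbb ((k : ℝ) • w)
    rw [hcw, real_inner_smul_right, real_inner_self_eq_norm_sq] at h1
    rw [div_lt_iff₀ (by positivity)] at hk
    have h2 := abs_le.1 h1
    have h3 := neg_abs_le c
    linarith [h2.2]
  have := hcw x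
  rw [hw, inner_zero_left, add_zero] at this
  exact this

end Pool.Agent.RZ
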