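import Pool.Agent.RZ.H6b
import Pool.Agent.RZ.H2

/-!
H6c: nu = c volume. nu = h dx, D^{-1} <= h <= D (density). rho_k normed smooth bumps with radius -> 0 (ContDiffBump): h * rho_k = c_k everywhere (conv_const), and h * rho_k -> h a.e.
(ContDiffBump.ae_convolution_tendsto_right_of_locallyIntegrable): c_k converges to some c and h = c a.e., c >= 1/D > 0. (Or: conv_const gives translation invariance of nu:
int f(x+a) dnu = int f dnu for f in C_c^2, hence nu is a Haar measure: Measure.isAddLeftInvariant, Measure.isAddHaarMeasure_eq_smul.)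
-/

set_option autoImplicit false

open MeasureTheory Filter Topology Metric Set
open scoped RealInnerProductSpace ENNReal

namespace Pool.Agent.RZ

variable {d n : ℕ}

theorem const_of_univ (hn : 1 ≤ n) {C : ℝ} (hC : 1 ≤ C) {ν : Measure (X n)} (hν : Reg n C ν)
    (hs : Supp ν = Set.univ) :
    ∃ c : ℝ, 0 < c ∧ ν = ENNReal.ofReal c • (volume : Measure (X n)) := by
  obtain ⟨D, h, hD, hm, h1, h2, hνh⟩ := density hn hC hν.gr hν.lo hs
  have hD0 : 0 < D := by linarith
  have hpos : ∀ x, 0 < h x := fun x => lt_of_lt_of_le (inv_pos.2 hD0) (h1 x)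
  -- the bumps
  let φ : ℕ → ContDiffBump (0 : X n) := fun k =>
    { rIn := 1 / (k + 1 : ℝ)
      rOut := 2 * (1 / (k + 1 : ℝ))
      rIn_pos := by positivity
      rIn_lt_rOut := by
        have : (0 : ℝ) < 1 / (k + 1 : ℝ) := by positivity
        linarith }
  have hφ : Tendsto (fun i => (φ i).rOut) atTop (𝓝 0) := by
    have := (tendsto_one_div_add_atTop_nhds_zero_nat (𝕜 := ℝ)).const_mul 2
    simpa [φ] using this
  have hφ' : ∀ᶠ i in atTop, (φ i).rOut ≤ 2 * (φ i).rIn := Eventually.of_forall fun i => le_rfl
  have hloc : LocallyIntegrable h (volume : Measure (X n)) := by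
    refine (locallyIntegrable_const D).mono hm.aestronglyMeasurable ?_
    refine Eventually.of_forall fun x => ?_
    rw [Real.norm_of_nonneg (hpos x).le, Real.norm_of_nonneg hD0.le]
    exact h2 x
  have hae := ContDiffBump.ae_convolution_tendsto_right_of_locallyIntegrable
    (μ := (volume : Measure (X n))) hφ hφ' hloc
  -- the convolutions are constant
  have hconst : ∀ k, ∃ c : ℝ, ∀ x,
      convolution ((φ k).normed volume) h (ContinuousLinearMap.lsmul ℝ ℝ) volume x = c := by
    intro k
    obtain ⟨c, hc⟩ := conv_const hn hC hν hs (ρ := (φ k).normed volume)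
      ((φ k).contDiff_normed) ((φ k).hasCompactSupport_normed)
    refine ⟨c, fun x => ?_⟩
    rw [← hc x, convolution_eq_swap, hνh]
    rw [integral_withDensity_eq_integral_toReal_smul (by fun_prop)
      (Eventually.of_forall fun x => ENNReal.ofReal_lt_top)]
    refine integral_congr_ae (Eventually.of_forall fun y => ?_)
    simp only [ContinuousLinearMap.lsmul_apply, smul_eq_mul, ENNReal.toReal_ofReal (hpos y).le]
    ring
  choose c hc using hconst
  have hae' : ∀ᵐ x ∂(volume : Measure (X n)), Tendsto c atTop (𝓝 (h x)) := by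
    filter_upwards [hae] with x hx
    refine hx.congr fun k => hc k x
  obtain ⟨x0, hx0⟩ := hae'.exists
  refine ⟨h x0, hpos x0, ?_⟩
  have heq : (fun x => ENNReal.ofReal (h x)) =ᵐ[volume] fun _ => ENNReal.ofReal (h x0) := by
    filter_upwards [hae'] with x hx
    rw [tendsto_nhds_unique hx hx0]
  rw [hνh, withDensity_congr_ae heq, withDensity_const]

end Pool.Agent.RZ
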