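import Pool.Agent.RZ.H4
import Pool.Agent.RZ.H5

/-!
H6a: for phi C^2 with compact support: int Lam n eps volume phi dnu -> 0 (eps -> 0). By lam_ibp and weak_leb (g = d_j phi : fderiv phi x (single j 1), C^1 with compact support, so Tst; int g dx = 0: integral of a derivative,
integral_fderiv_eq_zero or integral by parts with 1): for eps < eps0, R > R0: |int cut_R Lam n eps volume phi dnu| <= sum_j delta + B eps int (1+|y|)^{-(n+1)} dnu. (Fubini is not needed: weak_leb has the same order of integration.)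
For fixed eps, R -> oo: |Lam n eps volume phi y| <= B' (1+|y|)^{-(n+1)} (from lam_ibp, |<e,z>| kr <= |z|^{-n}.. or directly: for |y| >= 2 rho, |Lam| <= int |phi| (|y|/2)^{-(n+1)}), integrable for nu; dominated convergence.
-/

set_option autoImplicit false

open MeasureTheory Filter Topology Metric Set
open scoped RealInnerProductSpace ENNReal

namespace Pool.Agent.RZ

variable {d n : ℕ}

private theorem H6a_tst {m : ℕ} {f : X m → ℝ} (hf : ContDiff ℝ 1 f) (hc : HasCompactSupport f) :
    ∃ L ρ : ℝ, 0 ≤ L ∧ 0 < ρ ∧ Tst L ρ f := by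
  obtain ⟨K, hK⟩ := ContDiff.lipschitzWith_of_hasCompactSupport hc hf (by norm_num)
  obtain ⟨r, hr⟩ := hc.isCompact.isBounded.subset_closedBall (0 : X m)
  refine ⟨K, max r 1, K.2, lt_of_lt_of_le one_pos (le_max_right _ _), ⟨fun x y => ?_, fun x hx => ?_⟩⟩
  · have := hK.dist_le_mul x y
    rwa [Real.dist_eq, dist_eq_norm] at this
  · by_contra hcon
    have h1 : x ∈ tsupport f := subset_tsupport f hcon
    have h2 := hr h1
    rw [mem_closedBall, dist_zero_right] at h2
    have := le_max_left r 1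
    linarith

private theorem H6a_deriv_int {m : ℕ} {f : X m → ℝ} (hf : ContDiff ℝ 2 f)
    (hc : HasCompactSupport f) (v : X m) : ∫ x, fderiv ℝ f x v = 0 := by
  have h1 : Continuous fun x => fderiv ℝ f x v :=
    (hf.continuous_fderiv (by norm_num)).clm_apply continuous_const
  have h2 : HasCompactSupport fun x => fderiv ℝ f x v := hc.fderiv_apply ℝ v
  have h3 : Integrable (fun x => fderiv ℝ f x v) := h1.integrable_of_hasCompactSupport h2
  have h4 : Integrable f := hf.continuous.integrable_of_hasCompactSupport hc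
  have h5 := integral_mul_fderiv_eq_neg_fderiv_mul_of_integrable (μ := (volume : Measure (X m)))
    (f := fun _ : X m => (1 : ℝ)) (g := f) (v := v) (by simp) (by simpa using h3)
    (by simpa using h4) (fun x _ => differentiableAt_const _)
    (fun x _ => (hf.differentiable (by norm_num)).differentiableAt)
  simpa using h5

theorem lam_leb_tendsto (hn : 1 ≤ n) {C : ℝ} (hC : 1 ≤ C) {ν : Measure (X n)} (hν : Reg n C ν)
    (hs : Supp ν = Set.univ) {φ : X n → ℝ} (hφ : ContDiff ℝ 2 φ) (hc : HasCompactSupport φ) :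
    Tendsto (fun ε : ℝ => ∫ y, Lam n ε volume φ y ∂ν) (𝓝[>] 0) (𝓝 0) := by
  have hC0 : 0 ≤ C := by linarith
  have := hν.gr.isLocallyFinite
  obtain ⟨Cv, hCv, hgv, -⟩ := vol_reg n
  have hCv0 : 0 ≤ Cv := by linarith
  obtain ⟨B, hB, hibp⟩ := lam_ibp hn hφ hc
  obtain ⟨L, ρ, hL, hρ, hT⟩ := H6a_tst (hφ.of_le (by norm_num)) hc
  let g : Fin n → X n → ℝ := fun j x => fderiv ℝ φ x (EuclideanSpace.single j 1)
  have hgC : ∀ j, ContDiff ℝ 1 (g j) := fun j =>
    (hφ.fderiv_right (m := 1) (by norm_num)).clm_apply contDiff_const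
  have hgs : ∀ j, HasCompactSupport (g j) := fun j => hc.fderiv_apply ℝ _
  have hgT : ∀ j, ∃ L ρ : ℝ, 0 ≤ L ∧ 0 < ρ ∧ Tst L ρ (g j) := fun j => H6a_tst (hgC j) (hgs j)
  have hg0 : ∀ j, ∫ x, g j x = 0 := fun j => H6a_deriv_int hφ hc _
  obtain ⟨A, hA, hAk⟩ := Gr.kr_integrable (d := n) n hn
  obtain ⟨hk1, -⟩ := hAk C hC0 ν hν.gr 0 1 one_pos
  simp only [sub_zero] at hk1
  -- the weight
  have hwle : ∀ y : X n, (1 + ‖y‖)⁻¹ ^ (n + 1) ≤ kr n 1 y := by
    intro y
    unfold kr
    refine pow_le_pow_left₀ (by positivity) ?_ _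
    refine inv_anti₀ (Real.sqrt_pos.2 (by positivity)) ?_
    rw [Real.sqrt_le_left (by positivity)]
    nlinarith [norm_nonneg y]
  have hwc : Continuous fun y : X n => (1 + ‖y‖)⁻¹ ^ (n + 1) := by
    refine Continuous.pow (Continuous.inv₀ (by fun_prop) fun y => ?_) _
    positivity
  have hwi : Integrable (fun y : X n => (1 + ‖y‖)⁻¹ ^ (n + 1)) ν := by
    refine hk1.mono hwc.aestronglyMeasurable (Eventually.of_forall fun y => ?_)
    rw [Real.norm_of_nonneg (by positivity), Real.norm_of_nonneg (kr_nonneg _ _ _)]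
    exact hwle y
  set W : ℝ := ∫ y, (1 + ‖y‖)⁻¹ ^ (n + 1) ∂ν with hW
  have hW0 : 0 ≤ W := integral_nonneg fun y => by positivity
  -- integrability of Lam
  have hLi : ∀ ε : ℝ, 0 < ε → Integrable (fun y => Lam n ε volume φ y) ν := by
    intro ε hε
    have h1 : ∀ y, Lam n ε volume φ y = φ y * (∫ x, kr n ε (x - y)) - ∫ x, φ x * kr n ε (x - y) :=
      fun y => lam_eq hn hCv0 hgv hε hT y
    have h2 : ∀ y : X n, ∫ x, kr n ε (x - y) = ∫ x : X n, kr n ε x := fun y =>
      integral_sub_right_eq_self (fun x => kr n ε x) y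
    have h3 : Integrable (fun y => φ y * (∫ x, kr n ε (x - y))) ν := by
      simp only [h2]
      exact (hφ.continuous.integrable_of_hasCompactSupport hc).mul_const _
    have h4 : Continuous fun y => ∫ x, φ x * kr n ε (x - y) := by
      have h5 : Continuous fun y => φ y * (∫ x : X n, kr n ε x) - Lam n ε volume φ y :=
        (hφ.continuous.mul continuous_const).sub (lam_continuous hn hCv0 hgv hε hT)
      refine h5.congr fun y => ?_
      rw [h1, h2]; ring
    obtain ⟨hk2, -⟩ := hAk C hC0 ν hν.gr 0 ε hε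
    simp only [sub_zero] at hk2
    have hφi : Integrable φ := hφ.continuous.integrable_of_hasCompactSupport hc
    have h6 : Integrable (fun y => ∫ x, φ x * kr n ε (x - y)) ν := by
      refine (hk2.const_mul ((∫ x, |φ x|) * (1 + ρ / ε) ^ (n + 1))).mono h4.aestronglyMeasurable
        (Eventually.of_forall fun y => ?_)
      refine (norm_integral_le_integral_norm _).trans ?_
      rw [Real.norm_of_nonneg (by
        have := kr_nonneg n ε y
        have h9 : 0 ≤ ∫ x, |φ x| := integral_nonneg fun x => abs_nonneg _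
        positivity)]
      have h7 : ∀ x, ‖φ x * kr n ε (x - y)‖ ≤ |φ x| * ((1 + ρ / ε) ^ (n + 1) * kr n ε y) := by
        intro x
        rw [norm_mul, Real.norm_eq_abs, Real.norm_of_nonneg (kr_nonneg _ _ _)]
        by_cases hx : ρ < ‖x‖
        · rw [hT.supp x hx]; simp
        · refine mul_le_mul_of_nonneg_left ?_ (abs_nonneg _)
          have h8 := kr_le_shift (d := n) n hε (a := ρ) (x - y) (-y) (by
            rw [show x - y - -y = x by abel]; exact not_lt.1 hx)
          rwa [kr_neg] at h8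
      calc ∫ x, ‖φ x * kr n ε (x - y)‖ ≤ ∫ x, |φ x| * ((1 + ρ / ε) ^ (n + 1) * kr n ε y) := by
            refine integral_mono_of_nonneg (Eventually.of_forall fun x => norm_nonneg _)
              (hφi.abs.mul_const _) (Eventually.of_forall h7)
        _ = (∫ x, |φ x|) * (1 + ρ / ε) ^ (n + 1) * kr n ε y := by
            rw [integral_mul_const]; ring
    refine (h3.sub h6).congr (Eventually.of_forall fun y => ?_)
    simp only [Pi.sub_apply]
    rw [h1]
  -- the second integrals
  let I : Fin n → ℝ → X n → ℝ := fun j ε y =>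
    ∫ x, g j x * (⟪EuclideanSpace.single j (1 : ℝ), x - y⟫ * kr n ε (x - y))
  have hIc : ∀ j (ε : ℝ), 0 < ε → Continuous (I j ε) := by
    intro j ε hε
    have hgi : Integrable (g j) := (hgC j).continuous.integrable_of_hasCompactSupport (hgs j)
    refine continuous_of_dominated (bound := fun x => |g j x| * ε⁻¹ ^ n) (fun y => ?_) (fun y => ?_)
      (hgi.abs.mul_const _) (Eventually.of_forall fun x => ?_)
    · have h1 : Continuous fun x : X n =>
          g j x * (⟪EuclideanSpace.single j (1 : ℝ), x - y⟫ * kr n ε (x - y)) := by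
        have := kr_continuous (d := n) n hε
        have := (hgC j).continuous
        fun_prop
      exact h1.aestronglyMeasurable
    · refine Eventually.of_forall fun x => ?_
      rw [norm_mul, Real.norm_eq_abs]
      refine mul_le_mul_of_nonneg_left ?_ (abs_nonneg _)
      rw [norm_mul, Real.norm_of_nonneg (kr_nonneg _ _ _)]
      refine le_trans ?_ (norm_mul_kr_le_eps n hε (x - y))
      refine mul_le_mul_of_nonneg_right ?_ (kr_nonneg _ _ _)
      refine (norm_inner_le_norm _ _).trans ?_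
      rw [PiLp.norm_single, norm_one, one_mul]
    · have := kr_continuous (d := n) n hε
      fun_prop
  -- the main bound
  rw [Metric.tendsto_nhdsWithin_nhds]
  intro η hη
  have hweak : ∀ j, ∃ ε₀ R₀ : ℝ, 0 < ε₀ ∧ ∀ ε : ℝ, 0 < ε → ε < ε₀ → ∀ R : ℝ, R₀ < R →
      |∫ y, cut R y * I j ε y ∂ν| ≤ η / (4 * (n + 1)) := by
    intro j
    obtain ⟨L', ρ', hL', hρ', hT'⟩ := hgT j
    exact weak_leb hn hC hν hs hρ' hT' (hg0 j) (EuclideanSpace.single j 1)
      (by rw [PiLp.norm_single, norm_one]) _ (by positivity)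
  choose ε₀ R₀ hε₀ hweak using hweak
  obtain ⟨e0, he0, he0'⟩ : ∃ e0 : ℝ, 0 < e0 ∧ ∀ j, e0 ≤ ε₀ j := by
    rcases isEmpty_or_nonempty (Fin n) with hE | hE
    · exact ⟨1, one_pos, fun j => (hE.false j).elim⟩
    · obtain ⟨j0, hj0⟩ := Finite.exists_min ε₀
      exact ⟨ε₀ j0, hε₀ j0, hj0⟩
  refine ⟨min (min e0 1) (η / (4 * (B * (W + 1)))), by positivity, fun {ε} hε hεd => ?_⟩
  rw [mem_Ioi] at hε
  rw [dist_zero_right, Real.norm_of_nonneg hε.le] at hεd
  have hε1 : ε < e0 := hεd.trans_le ((min_le_left _ _).trans (min_le_left _ _))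
  have hε2 : ε ≤ 1 := (hεd.trans_le ((min_le_left _ _).trans (min_le_right _ _))).le
  have hε3 : ε < η / (4 * (B * (W + 1))) := hεd.trans_le (min_le_right _ _)
  rw [dist_zero_right, Real.norm_eq_abs]
  have hBW : B * ε * W ≤ η / 4 := by
    rw [lt_div_iff₀ (by positivity)] at hε3
    nlinarith [mul_nonneg hB.le hε.le]
  -- convergence R → ∞
  have hlim : Tendsto (fun k : ℕ => ∫ y, cut (k + 1 : ℝ) y * Lam n ε volume φ y ∂ν) atTop
      (𝓝 (∫ y, Lam n ε volume φ y ∂ν)) := by
    refine tendsto_integral_of_dominated_convergence (fun y => |Lam n ε volume φ y|)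
      (fun k => ((cut_continuous (by positivity)).mul
        (lam_continuous hn hCv0 hgv hε hT)).aestronglyMeasurable) (hLi ε hε).abs
      (fun k => Eventually.of_forall fun y => ?_) (Eventually.of_forall fun y => ?_)
    · rw [norm_mul, Real.norm_of_nonneg (cut_nonneg _ _), Real.norm_eq_abs]
      exact mul_le_of_le_one_left (abs_nonneg _) (cut_le_one _ _)
    · refine tendsto_const_nhds.congr' ?_
      obtain ⟨K, hK⟩ := exists_nat_gt ‖y‖
      filter_upwards [eventually_ge_atTop K] with k hk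
      have h1 : ‖y‖ ≤ (k + 1 : ℝ) := by
        have : (K : ℝ) ≤ k := by exact_mod_cast hk
        linarith
      rw [cut_eq_one (by positivity) h1, one_mul]
  have hbd : ∀ᶠ k : ℕ in atTop, |∫ y, cut (k + 1 : ℝ) y * Lam n ε volume φ y ∂ν| ≤
      η / 4 + η / 4 := by
    have hR : ∀ j, ∀ᶠ k : ℕ in atTop, R₀ j < (k + 1 : ℝ) := by
      intro j
      obtain ⟨K, hK⟩ := exists_nat_gt (R₀ j)
      filter_upwards [eventually_ge_atTop K] with k hk
      have : (K : ℝ) ≤ k := by exact_mod_cast hk
      linarith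
    rw [← eventually_all] at hR
    filter_upwards [hR] with k hk
    have hkp : (0 : ℝ) < k + 1 := by positivity
    have hcc : Continuous (cut (k + 1 : ℝ) : X n → ℝ) := cut_continuous hkp
    have hcs : HasCompactSupport (cut (k + 1 : ℝ) : X n → ℝ) := cut_hasCompactSupport hkp
    have hIi : ∀ j, Integrable (fun y => cut (k + 1 : ℝ) y * I j ε y) ν := fun j =>
      (hcc.mul (hIc j ε hε)).integrable_of_hasCompactSupport hcs.mul_right
    have hLc : Continuous (Lam n ε volume φ) := lam_continuous hn hCv0 hgv hε hT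
    have hLi' : Integrable (fun y => cut (k + 1 : ℝ) y * Lam n ε volume φ y) ν :=
      (hcc.mul hLc).integrable_of_hasCompactSupport hcs.mul_right
    have hsum : ∫ y, cut (k + 1 : ℝ) y * Lam n ε volume φ y ∂ν =
        (∫ y, cut (k + 1 : ℝ) y * (Lam n ε volume φ y + ∑ j, I j ε y) ∂ν)
          - ∑ j, ∫ y, cut (k + 1 : ℝ) y * I j ε y ∂ν := by
      have h1 : ∀ y, cut (k + 1 : ℝ) y * (Lam n ε volume φ y + ∑ j, I j ε y) =
          cut (k + 1 : ℝ) y * Lam n ε volume φ y + ∑ j, cut (k + 1 : ℝ) y * I j ε y := by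
        intro y
        rw [mul_add, Finset.mul_sum]
      simp only [h1]
      rw [integral_add hLi' (integrable_finsetSum _ fun j _ => hIi j),
        integral_finsetSum _ fun j _ => hIi j]
      ring
    rw [hsum]
    refine (abs_sub _ _).trans (add_le_add ?_ ?_)
    · have h2 : ∀ y, |cut (k + 1 : ℝ) y * (Lam n ε volume φ y + ∑ j, I j ε y)| ≤
          B * ε * (1 + ‖y‖)⁻¹ ^ (n + 1) := by
        intro y
        rw [abs_mul, abs_of_nonneg (cut_nonneg _ _)]
        refine (mul_le_of_le_one_left (abs_nonneg _) (cut_le_one _ _)).trans ?_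
        exact hibp ε hε hε2 y
      calc |∫ y, cut (k + 1 : ℝ) y * (Lam n ε volume φ y + ∑ j, I j ε y) ∂ν|
          ≤ ∫ y, |cut (k + 1 : ℝ) y * (Lam n ε volume φ y + ∑ j, I j ε y)| ∂ν :=
            abs_integral_le_integral_abs
        _ ≤ ∫ y, B * ε * (1 + ‖y‖)⁻¹ ^ (n + 1) ∂ν :=
            integral_mono_of_nonneg (Eventually.of_forall fun y => abs_nonneg _)
              (hwi.const_mul _) (Eventually.of_forall h2)
        _ = B * ε * W := by rw [integral_const_mul]
        _ ≤ η / 4 := hBW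
    · calc |∑ j, ∫ y, cut (k + 1 : ℝ) y * I j ε y ∂ν|
          ≤ ∑ j, |∫ y, cut (k + 1 : ℝ) y * I j ε y ∂ν| := Finset.abs_sum_le_sum_abs _ _
        _ ≤ ∑ _j : Fin n, η / (4 * (n + 1)) :=
            Finset.sum_le_sum fun j _ => hweak j ε hε (hε1.trans_le (he0' j)) _ (hk j)
        _ = n * (η / (4 * (n + 1))) := by simp
        _ ≤ η / 4 := by
            rw [show (n : ℝ) * (η / (4 * (n + 1))) = η / 4 * (n / (n + 1)) by field_simp]
            refine mul_le_of_le_one_right (by positivity) ?_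
            rw [div_le_one (by positivity)]
            linarith
  have := le_of_tendsto hlim.abs hbd
  linarith

end Pool.Agent.RZ
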