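import Pool.Agent.RZ.H1
import Pool.Agent.RZ.H6

/-!
H7: constant density on a plane (assembly).
-/

set_option autoImplicit false

open MeasureTheory Filter Topology Metric Set
open scoped RealInnerProductSpace ENNReal

namespace Pool.Agent.RZ

variable {d n : ℕ}

theorem const_density (hn : 1 ≤ n) {C : ℝ} (hC : 1 ≤ C) {ν : Measure (X d)} (h : Reg n C ν)
    (ι : X n →ₗᵢ[ℝ] X d) (hW : Supp ν = Set.range ι) :
    ∃ c : ℝ, 0 < c ∧ ν = ENNReal.ofReal c • ((volume : Measure (X n)).map ι) := by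
  obtain ⟨ν₁, h1, h2, h3⟩ := transfer hn hC h ι hW
  obtain ⟨c, hc, h4⟩ := const_of_univ hn hC h2 h3
  exact ⟨c, hc, by rw [h1, h4, Measure.map_smul]⟩

end Pool.Agent.RZ
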