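import Pool.Agent.RZ.D1

/-!
I1: two planes which are both close to nu in the ball of radius r are close to each other.
W = span v, W' = span v'. For a unit vector e orthogonal to W let f = orthogonal projection of e to W' (= sum <v'_i, e> v'_i), g = e - f orthogonal to W', |g| <= 1.
<e,y-b>^2 <= q b v y, <g,y-b'>^2 <= q b' v' y, so with a suitable constant a: int_{B_r} (<f,y>-a)^2 <= 4 delta^2 r^{n+2}. If f != 0, the (n-1)-plane
Q = {y in b'+W' : <f,y> = a} has dist(y,Q)^2 = q b' v' y + (<f,y>-a)^2/|f|^2 (orthonormal basis of f^perp in W': v'' : Fin (n-1) -> X d), nondeg: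
c <= delta^2 + 4 delta^2/|f|^2, so |f| <= A delta (if delta^2 > c/2 use |f| <= 1).
There is y0 in closedBall 0 r with q b v y0 + q b' v' y0 <= 2 C delta^2 r^2 (average). For y with w = component of y-b orthogonal to W, w != 0, e = w/|w|:
sqrt(q b v y) = <e,y-b> = <e,y0-b> + <f,y-y0> + <g,y-b'> - <g,y0-b'>.
-/

set_option autoImplicit false

open MeasureTheory Filter Topology Metric Set
open scoped RealInnerProductSpace ENNReal

namespace Pool.Agent.RZ

variable {d : ℕ}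

private noncomputable def I1_pj {m : ℕ} (v : Fin m → X d) (z : X d) : X d := ∑ i, ⟪v i, z⟫ • v i

private theorem I1_pj_sub {m : ℕ} (v : Fin m → X d) (z z' : X d) :
    I1_pj v (z - z') = I1_pj v z - I1_pj v z' := by
  unfold I1_pj
  rw [← Finset.sum_sub_distrib]
  refine Finset.sum_congr rfl fun i _ => ?_
  rw [inner_sub_right, sub_smul]

private theorem I1_pj_smul {m : ℕ} (v : Fin m → X d) (c : ℝ) (z : X d) :
    I1_pj v (c • z) = c • I1_pj v z := by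
  unfold I1_pj
  rw [Finset.smul_sum]
  refine Finset.sum_congr rfl fun i _ => ?_
  rw [inner_smul_right, mul_smul]

private theorem I1_inner_pj {m : ℕ} {v : Fin m → X d} (hv : Orthonormal ℝ v) (i : Fin m)
    (z : X d) : ⟪v i, I1_pj v z⟫ = ⟪v i, z⟫ := by
  unfold I1_pj
  exact hv.inner_right_fintype _ i

private theorem I1_pj_symm {m : ℕ} (v : Fin m → X d) (z w : X d) :
    ⟪w, I1_pj v z⟫ = ⟪I1_pj v w, z⟫ := by
  unfold I1_pj
  rw [inner_sum, sum_inner]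
  refine Finset.sum_congr rfl fun i _ => ?_
  rw [inner_smul_right, real_inner_smul_left, real_inner_comm w (v i)]
  ring

private theorem I1_pj_idem {m : ℕ} {v : Fin m → X d} (hv : Orthonormal ℝ v) (z : X d) :
    I1_pj v (I1_pj v z) = I1_pj v z := by
  show (∑ i, ⟪v i, I1_pj v z⟫ • v i) = ∑ i, ⟪v i, z⟫ • v i
  refine Finset.sum_congr rfl fun i _ => ?_
  rw [I1_inner_pj hv]

private theorem I1_perp {m : ℕ} {v : Fin m → X d} (hv : Orthonormal ℝ v) (i : Fin m)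
    (z : X d) : ⟪v i, z - I1_pj v z⟫ = 0 := by
  rw [inner_sub_right, I1_inner_pj hv, sub_self]

/-- pythagoras. -/
private theorem I1_pyth {m : ℕ} {v : Fin m → X d} (hv : Orthonormal ℝ v) (z : X d) :
    ‖z‖ ^ 2 = ‖z - I1_pj v z‖ ^ 2 + ‖I1_pj v z‖ ^ 2 := by
  have h : ⟪z - I1_pj v z, I1_pj v z⟫ = 0 := by
    rw [I1_pj_symm, I1_pj_sub, I1_pj_idem hv, sub_self, inner_zero_left]
  have e : z = (z - I1_pj v z) + I1_pj v z := by abel
  have := norm_add_sq_real (z - I1_pj v z) (I1_pj v z)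
  rw [h, ← e] at this
  linarith

private theorem I1_pj_norm {m : ℕ} {v : Fin m → X d} (hv : Orthonormal ℝ v) (z : X d) :
    ‖I1_pj v z‖ ≤ ‖z‖ := by
  have := I1_pyth hv z
  exact le_of_sq_le_sq (by nlinarith [sq_nonneg ‖z - I1_pj v z‖]) (norm_nonneg _)

private theorem I1_T_norm {m : ℕ} {v : Fin m → X d} (hv : Orthonormal ℝ v) (z : X d) :
    ‖z - I1_pj v z‖ ≤ ‖z‖ := by
  have := I1_pyth hv z
  exact le_of_sq_le_sq (by nlinarith [sq_nonneg ‖I1_pj v z‖]) (norm_nonneg _)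

private theorem I1_q {m : ℕ} (b : X d) {v : Fin m → X d} (hv : Orthonormal ℝ v) (y : X d) :
    q b v y = ‖(y - b) - I1_pj v (y - b)‖ ^ 2 := q_eq b hv y

private theorem I1_sqrtq {m : ℕ} (b : X d) {v : Fin m → X d} (hv : Orthonormal ℝ v) (y : X d) :
    Real.sqrt (q b v y) = ‖(y - b) - I1_pj v (y - b)‖ := by
  rw [I1_q b hv, Real.sqrt_sq (norm_nonneg _)]

/-- splitting a unit vector off. -/
private theorem I1_split {m : ℕ} {v : Fin (m + 1) → X d} (hv : Orthonormal ℝ v) (u : X d)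
    (hu : u ∈ Submodule.span ℝ (Set.range v)) (hu1 : ‖u‖ = 1) :
    ∃ v' : Fin m → X d, Orthonormal ℝ v' ∧ (∀ j, ⟪v' j, u⟫ = 0) ∧
      ∀ z, ∑ i, ⟪v i, z⟫ ^ 2 = ⟪u, z⟫ ^ 2 + ∑ j, ⟪v' j, z⟫ ^ 2 := by
  set W := Submodule.span ℝ (Set.range v) with hW
  have hfr : Module.finrank ℝ W = Fintype.card (Fin (m + 1)) :=
    finrank_span_eq_card hv.linearIndependent
  have hmem : ∀ i, v i ∈ W := fun i => Submodule.subset_span ⟨i, rfl⟩
  have hsum : ∀ (B : OrthonormalBasis (Fin (m + 1)) ℝ W) (z : X d),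
      ∑ i, ⟪(B i : X d), z⟫ ^ 2 = ‖W.orthogonalProjectionOnto z‖ ^ 2 := by
    intro B z
    rw [← B.sum_sq_norm_inner_right (W.orthogonalProjectionOnto z)]
    refine Finset.sum_congr rfl fun i _ => ?_
    rw [Submodule.inner_orthogonalProjectionOnto_eq_of_mem_left, Real.norm_eq_abs, sq_abs]
  have h1 : Orthonormal ℝ (({0} : Set (Fin (m + 1))).domRestrict
      (fun _ : Fin (m + 1) => (⟨u, hu⟩ : W))) := by
    rw [orthonormal_iff_ite]
    rintro ⟨i, hi⟩ ⟨j, hj⟩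
    have hij : (⟨i, hi⟩ : ({0} : Set (Fin (m + 1)))) = ⟨j, hj⟩ := by
      apply Subtype.ext
      rw [Set.mem_singleton_iff] at hi hj
      show i = j
      rw [hi, hj]
    rw [if_pos hij]
    show ⟪u, u⟫ = 1
    rw [real_inner_self_eq_norm_sq, hu1, one_pow]
  obtain ⟨B, hB⟩ := h1.exists_orthonormalBasis_extension_of_card_eq hfr
  have hB0 : B 0 = ⟨u, hu⟩ := hB 0 rfl
  have h2 : Orthonormal ℝ ((Set.univ : Set (Fin (m + 1))).domRestrict
      (fun i : Fin (m + 1) => (⟨v i, hmem i⟩ : W))) := by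
    rw [orthonormal_iff_ite]
    rintro ⟨i, hi⟩ ⟨j, hj⟩
    have := (orthonormal_iff_ite.1 hv) i j
    show ⟪v i, v j⟫ = _
    rw [this]
    simp [Subtype.ext_iff]
  obtain ⟨B', hB'⟩ := h2.exists_orthonormalBasis_extension_of_card_eq hfr
  refine ⟨fun j => (B j.succ : X d), ?_, ?_, ?_⟩
  · rw [orthonormal_iff_ite]
    intro i j
    have := (orthonormal_iff_ite.1 B.orthonormal) i.succ j.succ
    have e : ⟪(B i.succ : X d), (B j.succ : X d)⟫ = ⟪B i.succ, B j.succ⟫ := rfl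
    rw [e, this]
    simp
  · intro j
    have := (orthonormal_iff_ite.1 B.orthonormal) j.succ 0
    rw [hB0, if_neg (Fin.succ_ne_zero j)] at this
    exact this
  · intro z
    have e1 := hsum B z
    have e2 := hsum B' z
    have e3 : ∑ i, ⟪(B' i : X d), z⟫ ^ 2 = ∑ i, ⟪v i, z⟫ ^ 2 := by
      refine Finset.sum_congr rfl fun i _ => ?_
      rw [hB' i (Set.mem_univ i)]
    rw [← e3, e2, ← e1, Fin.sum_univ_succ, hB0]

/-- the core estimate. -/
private theorem I1_core (n : ℕ) (hn : 1 ≤ n) (C : ℝ) {c : ℝ} (hc : 0 < c)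
    (ν : Measure (X d)) (hg : Gr n C ν) (r : ℝ) (hr : 0 < r)
    (hnd : ∀ (b : X d) (v : Fin (n - 1) → X d), Orthonormal ℝ v →
        c * r ^ (n + 2) ≤ ∫ y in closedBall 0 r, q b v y ∂ν)
    (δ : ℝ) (hδ : 0 ≤ δ) (b b' : X d) (v v' : Fin n → X d) (hv : Orthonormal ℝ v)
    (hv' : Orthonormal ℝ v')
    (h1 : ∫ y in closedBall 0 r, q b v y ∂ν ≤ δ ^ 2 * r ^ (n + 2))
    (h2 : ∫ y in closedBall 0 r, q b' v' y ∂ν ≤ δ ^ 2 * r ^ (n + 2))
    (e : X d) (he : ∀ i, ⟪v i, e⟫ = 0) (he1 : ‖e‖ = 1) :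
    ‖I1_pj v' e‖ ≤ Real.sqrt (5 / c) * δ := by
  have := hg.isLocallyFinite
  obtain ⟨m, rfl⟩ : ∃ m, n = m + 1 := ⟨n - 1, by omega⟩
  set f := I1_pj v' e with hf
  set F := ‖f‖ with hF
  by_cases hf0 : F = 0
  · rw [hf0]; positivity
  have hFpos : 0 < F := lt_of_le_of_ne (norm_nonneg _) (Ne.symm hf0)
  have hF1 : F ≤ 1 := by rw [← he1]; exact I1_pj_norm hv' e
  set u := F⁻¹ • f with hu
  have hu1 : ‖u‖ = 1 := by
    rw [hu, norm_smul, norm_inv, Real.norm_of_nonneg hFpos.le, ← hF, inv_mul_cancel₀ hf0]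
  have hfW : f ∈ Submodule.span ℝ (Set.range v') := by
    rw [hf]
    unfold I1_pj
    exact Submodule.sum_mem _ fun i _ => Submodule.smul_mem _ _ (Submodule.subset_span ⟨i, rfl⟩)
  obtain ⟨w, hw, hwu, hws⟩ := I1_split hv' u (Submodule.smul_mem _ _ hfW) hu1
  set g := e - f with hg'
  have hgn : ‖g‖ ≤ 1 := by rw [← he1]; exact I1_T_norm hv' e
  have hgv : ∀ i, ⟪v' i, g⟫ = 0 := fun i => I1_perp hv' i e
  set a := ⟪e, b⟫ - ⟪g, b'⟫ with ha
  -- pointwise bound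
  have hinn : ∀ (k : ℕ) (x : Fin k → X d) (hx : Orthonormal ℝ x) (c0 z : X d), (∀ i, ⟪x i, z⟫ = 0) →
      ‖z‖ ≤ 1 → ∀ y, ⟪z, y - c0⟫ ^ 2 ≤ q c0 x y := by
    intro k x hx c0 z hz hz1 y
    rw [I1_q c0 hx]
    have e0 : I1_pj x z = 0 := by
      unfold I1_pj
      refine Finset.sum_eq_zero fun i _ => ?_
      rw [hz i, zero_smul]
    have e1 : ⟪z, y - c0⟫ = ⟪z, (y - c0) - I1_pj x (y - c0)⟫ := by
      rw [inner_sub_right z (y - c0) (I1_pj x (y - c0)), I1_pj_symm x (y - c0) z, e0,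
        inner_zero_left, sub_zero]
    rw [e1, ← sq_abs]
    have := abs_real_inner_le_norm z ((y - c0) - I1_pj x (y - c0))
    refine pow_le_pow_left₀ (abs_nonneg _) (this.trans ?_) 2
    exact mul_le_of_le_one_left (norm_nonneg _) hz1
  have hpt : ∀ y, (⟪f, y⟫ - a) ^ 2 ≤ 2 * (q b v y + q b' v' y) := by
    intro y
    have e1 := hinn _ v hv b e he he1.le y
    have e2 := hinn _ v' hv' b' g hgv hgn y
    have e3 : ⟪f, y⟫ - a = ⟪e, y - b⟫ - ⟪g, y - b'⟫ := by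
      have : f = e - g := by rw [hg']; abel
      rw [ha, inner_sub_right, inner_sub_right]
      have e4 : ⟪f, y⟫ = ⟪e, y⟫ - ⟪g, y⟫ := by rw [this, inner_sub_left]
      rw [e4]; ring
    rw [e3]
    nlinarith [sq_nonneg (⟪e, y - b⟫ + ⟪g, y - b'⟫)]
  set s := (a - ⟪f, b'⟫) / F with hs
  have hq : ∀ y, q (b' + s • u) w y ≤ q b' v' y + 2 / F ^ 2 * (q b v y + q b' v' y) := by
    intro y
    have e0 : y - (b' + s • u) = (y - b') - s • u := by abel
    have e1 : ‖(y - b') - s • u‖ ^ 2 = ‖y - b'‖ ^ 2 - 2 * (s * ⟪u, y - b'⟫) + s ^ 2 := by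
      rw [norm_sub_sq_real, inner_smul_right, real_inner_comm, norm_smul, hu1, mul_one,
        Real.norm_eq_abs, sq_abs]
    have e2 : ∀ j, ⟪w j, (y - b') - s • u⟫ = ⟪w j, y - b'⟫ := by
      intro j
      rw [inner_sub_right, inner_smul_right, hwu j, mul_zero, sub_zero]
    have e3 : q (b' + s • u) w y = q b' v' y + (⟪u, y - b'⟫ - s) ^ 2 := by
      unfold q
      rw [e0, e1, hws (y - b')]
      simp only [e2]
      ring
    have e4 : ⟪u, y - b'⟫ - s = (⟪f, y⟫ - a) / F := by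
      rw [hu, hs, real_inner_smul_left, inner_sub_right]
      field_simp
      ring
    rw [e3, e4, div_pow]
    have := hpt y
    have hF2 : 0 < F ^ 2 := by positivity
    have e5 : (⟪f, y⟫ - a) ^ 2 / F ^ 2 ≤ (2 * (q b v y + q b' v' y)) / F ^ 2 :=
      div_le_div_of_nonneg_right this hF2.le
    have e6 : (2 * (q b v y + q b' v' y)) / F ^ 2 = 2 / F ^ 2 * (q b v y + q b' v' y) := by ring
    rw [e6] at e5
    linarith
  have hint : ∀ (k : ℕ) (c0 : X d) (x : Fin k → X d),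
      IntegrableOn (q c0 x) (closedBall 0 r) ν := fun k c0 x =>
    (q_continuous c0 x).continuousOn.integrableOn_compact (isCompact_closedBall _ _)
  have hI := hnd (b' + s • u) w hw
  have hI2 : ∫ y in closedBall 0 r, q (b' + s • u) w y ∂ν ≤
      ∫ y in closedBall 0 r, (q b' v' y + 2 / F ^ 2 * (q b v y + q b' v' y)) ∂ν := by
    refine setIntegral_mono (hint _ _ _) ?_ hq
    exact (hint _ _ _).add (((hint _ _ _).add (hint _ _ _)).const_mul _)
  have hI3 : ∫ y in closedBall 0 r, (q b' v' y + 2 / F ^ 2 * (q b v y + q b' v' y)) ∂ν =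
      ∫ y in closedBall 0 r, q b' v' y ∂ν + 2 / F ^ 2 *
        (∫ y in closedBall 0 r, q b v y ∂ν + ∫ y in closedBall 0 r, q b' v' y ∂ν) := by
    have i1 : IntegrableOn (fun y => q b v y + q b' v' y) (closedBall 0 r) ν :=
      (hint _ b v).add (hint _ b' v')
    rw [integral_add (hint _ b' v') (i1.const_mul (2 / F ^ 2)), integral_const_mul,
      integral_add (hint _ b v) (hint _ b' v')]
  rw [hI3] at hI2
  have hrn : 0 < r ^ (m + 1 + 2) := by positivity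
  have hF2 : 0 < F ^ 2 := by positivity
  have hF21 : F ^ 2 ≤ 1 := by nlinarith
  have h2F : 0 ≤ 2 / F ^ 2 := by positivity
  have key : c * r ^ (m + 1 + 2) ≤ (5 * δ ^ 2 / F ^ 2) * r ^ (m + 1 + 2) := by
    have e1 : 2 / F ^ 2 * (∫ y in closedBall 0 r, q b v y ∂ν + ∫ y in closedBall 0 r, q b' v' y ∂ν)
        ≤ 2 / F ^ 2 * (δ ^ 2 * r ^ (m + 1 + 2) + δ ^ 2 * r ^ (m + 1 + 2)) :=
      mul_le_mul_of_nonneg_left (add_le_add h1 h2) h2F
    have e2 : δ ^ 2 ≤ δ ^ 2 / F ^ 2 := by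
      rw [le_div_iff₀ hF2]
      nlinarith [sq_nonneg δ]
    have e3 : δ ^ 2 * r ^ (m + 1 + 2) ≤ δ ^ 2 / F ^ 2 * r ^ (m + 1 + 2) :=
      mul_le_mul_of_nonneg_right e2 hrn.le
    have e4 : (5 * δ ^ 2 / F ^ 2) * r ^ (m + 1 + 2) = δ ^ 2 / F ^ 2 * r ^ (m + 1 + 2) +
        2 / F ^ 2 * (δ ^ 2 * r ^ (m + 1 + 2) + δ ^ 2 * r ^ (m + 1 + 2)) := by ring
    rw [e4]
    linarith
  have key2 : c ≤ 5 * δ ^ 2 / F ^ 2 := le_of_mul_le_mul_right key hrn
  rw [le_div_iff₀ hF2] at key2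
  have key3 : F ^ 2 ≤ 5 / c * δ ^ 2 := by
    rw [div_mul_eq_mul_div, le_div_iff₀ hc]
    linarith
  have h5 : 0 ≤ 5 / c := by positivity
  refine le_of_sq_le_sq ?_ (by positivity)
  rw [mul_pow, Real.sq_sqrt h5]
  exact key3

theorem plane_close (n : ℕ) (hn : 1 ≤ n) (C : ℝ) (hC : 1 ≤ C) : ∃ A : ℝ, 0 < A ∧
    ∀ ν : Measure (X d), Gr n C ν → ∀ r : ℝ, 0 < r →
      ENNReal.ofReal (r ^ n / C) ≤ ν (closedBall 0 r) →
      ∀ δ : ℝ, 0 ≤ δ → ∀ (b b' : X d) (v v' : Fin n → X d), Orthonormal ℝ v → Orthonormal ℝ v' →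
        ∫ y in closedBall 0 r, q b v y ∂ν ≤ δ ^ 2 * r ^ (n + 2) →
        ∫ y in closedBall 0 r, q b' v' y ∂ν ≤ δ ^ 2 * r ^ (n + 2) →
        ∀ y : X d, Real.sqrt (q b v y) ≤ Real.sqrt (q b' v' y) + A * δ * (r + ‖y‖) := by
  obtain ⟨c, hc, hnd⟩ := nondeg (d := d) n hn C hC
  refine ⟨2 * Real.sqrt (2 * C) + Real.sqrt (5 / c), by positivity, ?_⟩
  intro ν hg r hr hm δ hδ b b' v v' hv hv' h1 h2 y
  have := hg.isLocallyFinite
  have hCpos : 0 < C := by linarith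
  have hcore := I1_core n hn C hc ν hg r hr (hnd ν hg r hr hm) δ hδ b b' v v' hv hv' h1 h2
  -- homogeneous version
  have hcore2 : ∀ w : X d, (∀ i, ⟪v i, w⟫ = 0) →
      ‖I1_pj v' w‖ ≤ Real.sqrt (5 / c) * δ * ‖w‖ := by
    intro w hw
    by_cases hw0 : w = 0
    · subst hw0
      have : I1_pj v' (0 : X d) = 0 := by
        unfold I1_pj
        simp
      rw [this]
      simp
    · have hwn : 0 < ‖w‖ := norm_pos_iff.2 hw0
      have := hcore (‖w‖⁻¹ • w) (fun i => by rw [inner_smul_right, hw i, mul_zero])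
        (by rw [norm_smul, norm_inv, norm_norm, inv_mul_cancel₀ hwn.ne'])
      rw [I1_pj_smul, norm_smul, norm_inv, norm_norm, inv_mul_le_iff₀ hwn] at this
      linarith
  have hTP : ∀ z : X d, ‖I1_pj v' z - I1_pj v (I1_pj v' z)‖ ≤ Real.sqrt (5 / c) * δ * ‖z‖ := by
    intro z
    set w := I1_pj v' z - I1_pj v (I1_pj v' z) with hw
    have hperp : ∀ i, ⟪v i, w⟫ = 0 := fun i => I1_perp hv i _
    have hpw : I1_pj v w = 0 := by
      rw [hw, I1_pj_sub, I1_pj_idem hv, sub_self]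
    have e1 : ‖w‖ ^ 2 = ⟪I1_pj v' w, z⟫ := by
      rw [← real_inner_self_eq_norm_sq]
      have : ⟪w, w⟫ = ⟪w, I1_pj v' z⟫ - ⟪w, I1_pj v (I1_pj v' z)⟫ := by
        rw [← inner_sub_right, ← hw]
      rw [this, I1_pj_symm v, hpw, inner_zero_left, sub_zero, I1_pj_symm v']
    have e2 : ‖w‖ ^ 2 ≤ Real.sqrt (5 / c) * δ * ‖w‖ * ‖z‖ := by
      rw [e1]
      refine (real_inner_le_norm _ _).trans ?_
      exact mul_le_mul_of_nonneg_right (hcore2 w hperp) (norm_nonneg _)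
    by_cases hw0 : ‖w‖ = 0
    · rw [hw0]; positivity
    · have hwn : 0 < ‖w‖ := lt_of_le_of_ne (norm_nonneg _) (Ne.symm hw0)
      have : ‖w‖ * ‖w‖ ≤ (Real.sqrt (5 / c) * δ * ‖z‖) * ‖w‖ := by nlinarith
      exact le_of_mul_le_mul_right this hwn
  -- a good point
  have hint : ∀ (k : ℕ) (c0 : X d) (x : Fin k → X d),
      IntegrableOn (q c0 x) (closedBall 0 r) ν := fun k c0 x =>
    (q_continuous c0 x).continuousOn.integrableOn_compact (isCompact_closedBall _ _)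
  have hrn : 0 < r ^ n := by positivity
  have hνpos : ν (closedBall 0 r) ≠ 0 := by
    intro h0
    rw [h0] at hm
    have : 0 < r ^ n / C := by positivity
    exact absurd (ENNReal.ofReal_pos.2 this) (not_lt.2 hm)
  have hνfin : ν (closedBall 0 r) ≠ ∞ :=
    ((hg 0 r hr).trans_lt ENNReal.ofReal_lt_top).ne
  obtain ⟨y0, hy0, hy0q⟩ := exists_le_setAverage hνpos hνfin
    ((hint _ b v).add (hint _ b' v'))
  have hreal : r ^ n / C ≤ ν.real (closedBall 0 r) := by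
    have := ENNReal.toReal_mono hνfin hm
    rwa [ENNReal.toReal_ofReal (by positivity)] at this
  have hrealpos : 0 < ν.real (closedBall 0 r) := lt_of_lt_of_le (by positivity) hreal
  have hsum : q b v y0 + q b' v' y0 ≤ 2 * C * δ ^ 2 * r ^ 2 := by
    have e1 : (q b v + q b' v') y0 = q b v y0 + q b' v' y0 := rfl
    rw [e1] at hy0q
    refine hy0q.trans ?_
    rw [setAverage_eq, smul_eq_mul]
    have e2 : ∫ x in closedBall 0 r, (q b v + q b' v') x ∂ν =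
        ∫ x in closedBall 0 r, q b v x ∂ν + ∫ x in closedBall 0 r, q b' v' x ∂ν :=
      integral_add (hint _ b v) (hint _ b' v')
    rw [e2, inv_mul_le_iff₀ hrealpos]
    have e3 : r ^ n / C * (2 * C * δ ^ 2 * r ^ 2) = δ ^ 2 * r ^ (n + 2) + δ ^ 2 * r ^ (n + 2) := by
      rw [pow_add]
      field_simp
      ring
    calc ∫ x in closedBall 0 r, q b v x ∂ν + ∫ x in closedBall 0 r, q b' v' x ∂ν
        ≤ δ ^ 2 * r ^ (n + 2) + δ ^ 2 * r ^ (n + 2) := add_le_add h1 h2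
      _ = r ^ n / C * (2 * C * δ ^ 2 * r ^ 2) := e3.symm
      _ ≤ _ := mul_le_mul_of_nonneg_right hreal (by positivity)
  have hs1 : Real.sqrt (q b v y0) ≤ Real.sqrt (2 * C) * δ * r := by
    rw [Real.sqrt_le_left (by positivity), mul_pow, mul_pow, Real.sq_sqrt (by positivity)]
    have := q_nonneg b' hv' y0
    linarith
  have hs2 : Real.sqrt (q b' v' y0) ≤ Real.sqrt (2 * C) * δ * r := by
    rw [Real.sqrt_le_left (by positivity), mul_pow, mul_pow, Real.sq_sqrt (by positivity)]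
    have := q_nonneg b hv y0
    linarith
  rw [I1_sqrtq b hv] at hs1 ⊢
  rw [I1_sqrtq b' hv'] at hs2 ⊢
  have hy0n : ‖y0‖ ≤ r := by simpa using hy0
  -- the final estimate
  have e1 : (y - b) - I1_pj v (y - b) = ((y0 - b) - I1_pj v (y0 - b)) +
      ((y - y0) - I1_pj v (y - y0)) := by
    simp only [I1_pj_sub]
    abel
  have e2 : (y - y0) - I1_pj v' (y - y0) = ((y - b') - I1_pj v' (y - b')) -
      ((y0 - b') - I1_pj v' (y0 - b')) := by
    simp only [I1_pj_sub]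
    abel
  have e3 : (y - y0) - I1_pj v (y - y0) =
      (((y - y0) - I1_pj v' (y - y0)) - I1_pj v ((y - y0) - I1_pj v' (y - y0))) +
        (I1_pj v' (y - y0) - I1_pj v (I1_pj v' (y - y0))) := by
    simp only [I1_pj_sub]
    abel
  have b1 : ‖(y - y0) - I1_pj v (y - y0)‖ ≤ ‖(y - y0) - I1_pj v' (y - y0)‖ +
      Real.sqrt (5 / c) * δ * ‖y - y0‖ := by
    rw [e3]
    refine (norm_add_le _ _).trans (add_le_add (I1_T_norm hv _) (hTP _))
  have b2 : ‖(y - y0) - I1_pj v' (y - y0)‖ ≤ ‖(y - b') - I1_pj v' (y - b')‖ +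
      ‖(y0 - b') - I1_pj v' (y0 - b')‖ := by
    rw [e2]
    exact norm_sub_le _ _
  have b3 : ‖y - y0‖ ≤ r + ‖y‖ := by
    refine (norm_sub_le _ _).trans ?_
    linarith
  have b4 : ‖(y - b) - I1_pj v (y - b)‖ ≤ ‖(y0 - b) - I1_pj v (y0 - b)‖ +
      ‖(y - y0) - I1_pj v (y - y0)‖ := by
    rw [e1]
    exact norm_add_le _ _
  have hA0 : 0 ≤ Real.sqrt (5 / c) * δ := by positivity
  have b5 : Real.sqrt (5 / c) * δ * ‖y - y0‖ ≤ Real.sqrt (5 / c) * δ * (r + ‖y‖) :=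
    mul_le_mul_of_nonneg_left b3 hA0
  have hB0 : 0 ≤ Real.sqrt (2 * C) * δ := by positivity
  have b6 : Real.sqrt (2 * C) * δ * r ≤ Real.sqrt (2 * C) * δ * (r + ‖y‖) :=
    mul_le_mul_of_nonneg_left (by linarith [norm_nonneg y]) hB0
  have e7 : (2 * Real.sqrt (2 * C) + Real.sqrt (5 / c)) * δ * (r + ‖y‖) =
      2 * (Real.sqrt (2 * C) * δ * (r + ‖y‖)) + Real.sqrt (5 / c) * δ * (r + ‖y‖) := by ring
  rw [e7]
  linarith

end Pool.Agent.RZ
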