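import Pool.Agent.RZ.I1

/-!
I2: tilt. Planes P_k (k >= 1) with int cut(2^k) q_k <= eps^2 2^{k(n+2)}, so int_{B_{2^k}} q_k <= eps^2 2^{k(n+2)} and int_{B_{2^k}} q_{k+1} <= (2^{n+2} eps)^2 2^{k(n+2)}.
plane_close with delta = 2^{n+2} eps, r = 2^k: sqrt q_1(y) <= sqrt q_k(y) + sum_{1<=j<k} A delta (2^j + |y|). For |y| <= 2^k: <= sqrt q_k + 2 A delta k 2^k;
int_{B_{2^k}} q_1 <= 2 eps^2 2^{k(n+2)} + 8 A^2 delta^2 k^2 2^{2k} C 2^{kn} <= A' eps^2 2^{k(n+3)} (k^2 <= 4 2^k). R >= 1: R <= 2^k <= 2R or k = 1.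
Base point: q_base with x = 0. |b| : sqrt(q b v y) >= |b| - 1 on closedBall 0 1, mass >= 1/C.
-/

set_option autoImplicit false

open MeasureTheory Filter Topology Metric Set
open scoped RealInnerProductSpace ENNReal

namespace Pool.Agent.RZ

variable {d : ℕ}

private theorem I2_ball_le {m : ℕ} {ν : Measure (X d)} [IsFiniteMeasureOnCompacts ν] (b : X d)
    {v : Fin m → X d} (hv : Orthonormal ℝ v) {r : ℝ} (hr : 0 < r) :
    ∫ y in closedBall (0 : X d) r, q b v y ∂ν ≤ ∫ y, cut r (y - 0) * q b v y ∂ν := by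
  rw [← integral_indicator measurableSet_closedBall]
  have hc : Continuous fun y : X d => cut r (y - 0) * q b v y :=
    ((cut_continuous hr).comp (continuous_id.sub continuous_const)).mul (q_continuous b v)
  refine integral_mono_of_nonneg
    (Eventually.of_forall fun y => indicator_nonneg (fun y _ => q_nonneg b hv y) y)
    (hc.integrable_of_hasCompactSupport ?_) (Eventually.of_forall fun y => ?_)
  · refine HasCompactSupport.intro (isCompact_closedBall (0 : X d) (2 * r)) fun y hy => ?_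
    rw [mem_closedBall_zero_iff, not_le] at hy
    rw [sub_zero, cut_eq_zero hr hy.le, zero_mul]
  · by_cases hy : y ∈ closedBall (0 : X d) r
    · simp only [indicator_of_mem hy]
      rw [sub_zero, cut_eq_one hr (mem_closedBall_zero_iff.mp hy), one_mul]
    · simp only [indicator_of_notMem hy]
      exact mul_nonneg (cut_nonneg _ _) (q_nonneg b hv y)

private theorem I2_int {m : ℕ} {ν : Measure (X d)} [IsFiniteMeasureOnCompacts ν] (b : X d)
    (v : Fin m → X d) (r : ℝ) : IntegrableOn (q b v) (closedBall (0 : X d) r) ν :=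
  (q_continuous b v).continuousOn.integrableOn_compact (isCompact_closedBall _ _)

private theorem I2_mono {m : ℕ} {ν : Measure (X d)} [IsFiniteMeasureOnCompacts ν] (b : X d)
    {v : Fin m → X d} (hv : Orthonormal ℝ v) {r r' : ℝ} (h : r ≤ r') :
    ∫ y in closedBall (0 : X d) r, q b v y ∂ν ≤ ∫ y in closedBall (0 : X d) r', q b v y ∂ν :=
  setIntegral_mono_set (I2_int b v r') (Eventually.of_forall fun y => q_nonneg b hv y)
    (closedBall_subset_closedBall h).eventuallyLE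

private theorem I2_sq (k : ℕ) : (k : ℝ) ^ 2 + 2 * k + 3 ≤ 4 * 2 ^ k := by
  induction k with
  | zero => norm_num
  | succ k ih =>
    push_cast
    rw [pow_succ (2 : ℝ) k]
    nlinarith [Nat.cast_nonneg (α := ℝ) k, sq_nonneg (k : ℝ)]

theorem tilt (n : ℕ) (hn : 1 ≤ n) (C : ℝ) (hC : 1 ≤ C) : ∃ A : ℝ, 0 < A ∧
    ∀ ν : Measure (X d), Gr n C ν →
      (∀ r, 0 < r → ENNReal.ofReal (r ^ n / C) ≤ ν (closedBall 0 r)) →
      ∀ ε : ℝ, 0 ≤ ε → (∀ k : ℕ, 1 ≤ k → Flat n ν 0 ((2 : ℝ) ^ k) ε) →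
        ∃ (b : X d) (v : Fin n → X d), Orthonormal ℝ v ∧ (∀ i, ⟪v i, b⟫ = 0) ∧
          ‖b‖ ≤ A * (1 + ε) ∧
          ∀ R : ℝ, 1 ≤ R → ∫ y in closedBall 0 R, q b v y ∂ν ≤ A * ε ^ 2 * R ^ (n + 3) := by
  obtain ⟨A, hA, hpc⟩ := plane_close (d := d) n hn C hC
  have hC0 : 0 < C := lt_of_lt_of_le one_pos hC
  set D : ℝ := 2 ^ (n + 2) with hD
  have hD1 : 1 ≤ D := one_le_pow₀ (by norm_num)
  have hD0 : 0 < D := lt_of_lt_of_le one_pos hD1
  refine ⟨2 ^ (n + 3) * (2 + 32 * A ^ 2 * D ^ 2 * C) + (1 + C * D), by positivity, ?_⟩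
  intro ν hG hlow ε hε hF
  have := hG.isLocallyFinite
  choose b v hv hI using fun k : ℕ => hF (k + 1) (Nat.le_add_left 1 k)
  -- the integrals over balls
  have h1 : ∀ k : ℕ, ∫ y in closedBall (0 : X d) ((2 : ℝ) ^ (k + 1)), q (b k) (v k) y ∂ν ≤
      ε ^ 2 * ((2 : ℝ) ^ (k + 1)) ^ (n + 2) := fun k =>
    (I2_ball_le (b k) (hv k) (by positivity)).trans (hI k)
  have hstep : ∀ (k : ℕ) (y : X d), Real.sqrt (q (b k) (v k) y) ≤
      Real.sqrt (q (b (k + 1)) (v (k + 1)) y) + A * (D * ε) * ((2 : ℝ) ^ (k + 1) + ‖y‖) := by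
    intro k y
    refine hpc ν hG ((2 : ℝ) ^ (k + 1)) (by positivity) (hlow _ (by positivity)) (D * ε)
      (by positivity) (b k) (b (k + 1)) (v k) (v (k + 1)) (hv k) (hv (k + 1)) ?_ ?_ y
    · refine (h1 k).trans (mul_le_mul_of_nonneg_right ?_ (by positivity))
      rw [mul_pow]
      exact le_mul_of_one_le_left (sq_nonneg ε) (one_le_pow₀ hD1)
    · refine (I2_mono _ (hv (k + 1)) ?_).trans ((h1 (k + 1)).trans ?_)
      · exact pow_le_pow_right₀ (by norm_num) (by omega)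
      · have e : ((2 : ℝ) ^ (k + 1 + 1)) ^ (n + 2) = D * ((2 : ℝ) ^ (k + 1)) ^ (n + 2) := by
          rw [pow_succ (2 : ℝ) (k + 1), mul_pow, hD, mul_comm]
        rw [e, mul_pow, ← mul_assoc, mul_comm (ε ^ 2) D]
        refine mul_le_mul_of_nonneg_right (mul_le_mul_of_nonneg_right ?_ (sq_nonneg ε))
          (by positivity)
        nlinarith
  have hchain : ∀ (k : ℕ) (y : X d), Real.sqrt (q (b 0) (v 0) y) ≤
      Real.sqrt (q (b k) (v k) y) + A * (D * ε) * k * ((2 : ℝ) ^ (k + 1) + ‖y‖) := by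
    intro k
    induction k with
    | zero => intro y; simp
    | succ k ih =>
      intro y
      have h2 := ih y
      have h3 := hstep k y
      have h4 : (2 : ℝ) ^ (k + 1) + ‖y‖ ≤ (2 : ℝ) ^ (k + 1 + 1) + ‖y‖ :=
        add_le_add_left (pow_le_pow_right₀ (by norm_num) (by omega)) _
      have h5 : 0 ≤ A * (D * ε) * ((k : ℝ) + 1) := by positivity
      have h6 := mul_le_mul_of_nonneg_left h4 h5
      push_cast
      nlinarith
  have hball : ∀ k : ℕ, ∫ y in closedBall (0 : X d) ((2 : ℝ) ^ (k + 1)), q (b 0) (v 0) y ∂ν ≤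
      (2 + 32 * A ^ 2 * D ^ 2 * C) * ε ^ 2 * ((2 : ℝ) ^ (k + 1)) ^ (n + 3) := by
    intro k
    set s : ℝ := (2 : ℝ) ^ (k + 1) with hs
    have hs0 : 0 < s := by positivity
    have hs1 : 1 ≤ s := one_le_pow₀ (by norm_num)
    have hpt : ∀ y ∈ closedBall (0 : X d) s, q (b 0) (v 0) y ≤
        2 * q (b k) (v k) y + 8 * (A * (D * ε) * k) ^ 2 * s ^ 2 := by
      intro y hy
      have hy' : ‖y‖ ≤ s := mem_closedBall_zero_iff.mp hy
      have h2 := hchain k y
      have h3 : 0 ≤ A * (D * ε) * (k : ℝ) := by positivity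
      have h4 : A * (D * ε) * k * (s + ‖y‖) ≤ A * (D * ε) * k * (2 * s) :=
        mul_le_mul_of_nonneg_left (by linarith) h3
      have h5 : Real.sqrt (q (b 0) (v 0) y) ≤
          Real.sqrt (q (b k) (v k) y) + A * (D * ε) * k * (2 * s) := h2.trans (by linarith)
      have h6 := pow_le_pow_left₀ (Real.sqrt_nonneg _) h5 2
      rw [Real.sq_sqrt (q_nonneg _ (hv 0) y)] at h6
      have h7 := Real.sq_sqrt (q_nonneg (b k) (hv k) y)
      nlinarith [sq_nonneg (Real.sqrt (q (b k) (v k) y) - A * (D * ε) * k * (2 * s))]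
    have h2 : ∫ y in closedBall (0 : X d) s, q (b 0) (v 0) y ∂ν ≤
        ∫ y in closedBall (0 : X d) s,
          (2 * q (b k) (v k) y + 8 * (A * (D * ε) * k) ^ 2 * s ^ 2) ∂ν := by
      refine setIntegral_mono_on (I2_int _ _ _) ?_ measurableSet_closedBall hpt
      exact ((I2_int _ _ _).const_mul 2).add
        (continuous_const.continuousOn.integrableOn_compact (isCompact_closedBall _ _))
    have h3 : ∫ y in closedBall (0 : X d) s,
          (2 * q (b k) (v k) y + 8 * (A * (D * ε) * k) ^ 2 * s ^ 2) ∂ν =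
        2 * (∫ y in closedBall (0 : X d) s, q (b k) (v k) y ∂ν) +
          ν.real (closedBall (0 : X d) s) * (8 * (A * (D * ε) * k) ^ 2 * s ^ 2) := by
      rw [integral_add ((I2_int _ _ _).const_mul 2)
        (continuous_const.continuousOn.integrableOn_compact (isCompact_closedBall _ _)),
        integral_const_mul, setIntegral_const, smul_eq_mul]
    have h4 : ν.real (closedBall (0 : X d) s) ≤ C * s ^ n := hG.real_le hC0.le 0 hs0
    have h5 : ν.real (closedBall (0 : X d) s) * (8 * (A * (D * ε) * k) ^ 2 * s ^ 2) ≤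
        C * s ^ n * (8 * (A * (D * ε) * k) ^ 2 * s ^ 2) :=
      mul_le_mul_of_nonneg_right h4 (by positivity)
    have h6 := h1 k
    rw [← hs] at h6
    have hk : (k : ℝ) ^ 2 ≤ 4 * s := by
      have := I2_sq k
      have h8 : (2 : ℝ) ^ k ≤ s := pow_le_pow_right₀ (by norm_num) (by omega)
      nlinarith [Nat.cast_nonneg (α := ℝ) k]
    have e1 : C * s ^ n * (8 * (A * (D * ε) * k) ^ 2 * s ^ 2) =
        8 * A ^ 2 * D ^ 2 * C * ε ^ 2 * s ^ (n + 2) * (k : ℝ) ^ 2 := by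
      rw [pow_add]; ring
    have h7 : 8 * A ^ 2 * D ^ 2 * C * ε ^ 2 * s ^ (n + 2) * (k : ℝ) ^ 2 ≤
        8 * A ^ 2 * D ^ 2 * C * ε ^ 2 * s ^ (n + 2) * (4 * s) :=
      mul_le_mul_of_nonneg_left hk (by positivity)
    have h8 : 2 * (ε ^ 2 * s ^ (n + 2)) * 1 ≤ 2 * (ε ^ 2 * s ^ (n + 2)) * s :=
      mul_le_mul_of_nonneg_left hs1 (by positivity)
    have e2 : s ^ (n + 3) = s ^ (n + 2) * s := pow_succ _ _
    rw [e2]
    rw [e1] at h5
    nlinarith
  obtain ⟨b', hq, hperp, hnorm⟩ := q_base (b 0) (hv 0) (0 : X d)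
  have hqfun : (fun y => q b' (v 0) y) = fun y => q (b 0) (v 0) y := funext hq
  refine ⟨b', v 0, hv 0, fun i => ?_, ?_, fun R hR => ?_⟩
  · have := hperp i
    rwa [sub_zero] at this
  · rw [sub_zero] at hnorm
    have hb0 : ‖b'‖ = Real.sqrt (q (b 0) (v 0) 0) := by
      rw [← hnorm, Real.sqrt_sq (norm_nonneg _)]
    have hpos : 0 ≤ 2 ^ (n + 3) * (2 + 32 * A ^ 2 * D ^ 2 * C) := by positivity
    have hgoal : ‖b'‖ ≤ (1 + C * D) * (1 + ε) → ‖b'‖ ≤
        (2 ^ (n + 3) * (2 + 32 * A ^ 2 * D ^ 2 * C) + (1 + C * D)) * (1 + ε) := by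
      intro h2
      refine h2.trans (mul_le_mul_of_nonneg_right (by linarith) (by linarith))
    refine hgoal ?_
    have hCD : 0 ≤ C * D := by positivity
    by_cases hb1 : ‖b'‖ ≤ 1
    · nlinarith [mul_nonneg hCD hε]
    push Not at hb1
    have hpt : ∀ y ∈ closedBall (0 : X d) 1, (‖b'‖ - 1) ^ 2 ≤ q (b 0) (v 0) y := by
      intro y hy
      have hy' : ‖y‖ ≤ 1 := mem_closedBall_zero_iff.mp hy
      have h2 := q_sqrt_lip (b 0) (hv 0) 0 y
      rw [zero_sub, norm_neg, ← hb0] at h2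
      have h3 := (abs_le.mp h2).2
      have h4 : ‖b'‖ - 1 ≤ Real.sqrt (q (b 0) (v 0) y) := by linarith
      have h5 := pow_le_pow_left₀ (by linarith : (0 : ℝ) ≤ ‖b'‖ - 1) h4 2
      rwa [Real.sq_sqrt (q_nonneg _ (hv 0) y)] at h5
    have h2 : ∫ y in closedBall (0 : X d) 1, (‖b'‖ - 1) ^ 2 ∂ν ≤
        ∫ y in closedBall (0 : X d) 1, q (b 0) (v 0) y ∂ν :=
      setIntegral_mono_on
        (continuous_const.continuousOn.integrableOn_compact (isCompact_closedBall _ _))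
        (I2_int _ _ _) measurableSet_closedBall hpt
    rw [setIntegral_const, smul_eq_mul] at h2
    have h3 : ∫ y in closedBall (0 : X d) 1, q (b 0) (v 0) y ∂ν ≤ ε ^ 2 * D := by
      have h4 := (I2_mono (ν := ν) (b 0) (hv 0) (r := 1) (r' := (2 : ℝ) ^ (0 + 1))
        (by norm_num)).trans (h1 0)
      have e : ((2 : ℝ) ^ (0 + 1)) ^ (n + 2) = D := by rw [hD]; norm_num
      rwa [e] at h4
    have h4 : 1 / C ≤ ν.real (closedBall (0 : X d) 1) := by
      have h5 := hlow 1 one_pos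
      rw [one_pow] at h5
      rw [Measure.real, ← ENNReal.ofReal_le_iff_le_toReal (hG.finite 0 1).ne]
      exact h5
    have h5 : 1 / C * (‖b'‖ - 1) ^ 2 ≤ ε ^ 2 * D :=
      (mul_le_mul_of_nonneg_right h4 (sq_nonneg _)).trans (h2.trans h3)
    have h6 : (‖b'‖ - 1) ^ 2 ≤ (C * D) * ε ^ 2 := by
      rw [one_div, inv_mul_le_iff₀ hC0] at h5
      linarith
    have hCD1 : 1 ≤ C * D := by nlinarith
    have h7 : (‖b'‖ - 1) ^ 2 ≤ ((C * D) * ε) ^ 2 := by
      rw [mul_pow]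
      refine h6.trans (mul_le_mul_of_nonneg_right ?_ (sq_nonneg ε))
      nlinarith
    have h8 : ‖b'‖ - 1 ≤ (C * D) * ε := by
      have := abs_le_of_sq_le_sq' h7 (by positivity)
      exact this.2
    nlinarith [mul_nonneg hCD hε]
  · obtain ⟨k, hk1, hk2⟩ := exists_nat_pow_near hR (by norm_num : (1 : ℝ) < 2)
    have h2 : ∫ y in closedBall (0 : X d) R, q b' (v 0) y ∂ν =
        ∫ y in closedBall (0 : X d) R, q (b 0) (v 0) y ∂ν := by rw [hqfun]
    rw [h2]
    refine (I2_mono (b 0) (hv 0) hk2.le).trans ((hball k).trans ?_)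
    have h3 : (2 : ℝ) ^ (k + 1) ≤ 2 * R := by rw [pow_succ]; linarith
    have h4 : ((2 : ℝ) ^ (k + 1)) ^ (n + 3) ≤ (2 * R) ^ (n + 3) :=
      pow_le_pow_left₀ (by positivity) h3 _
    rw [mul_pow] at h4
    have h5 : 0 ≤ (2 + 32 * A ^ 2 * D ^ 2 * C) * ε ^ 2 := by positivity
    refine (mul_le_mul_of_nonneg_left h4 h5).trans ?_
    have hR0 : 0 ≤ R ^ (n + 3) := by positivity
    have h6 : 0 ≤ (1 + C * D) * ε ^ 2 * R ^ (n + 3) := by positivity
    nlinarith

end Pool.Agent.RZ
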