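import Pool.Agent.RZ.Q1

/-!
I3: linear algebra of frames.
compl_frame: orthonormal basis of (span v)^perp (dimension m = d - n).
near_frame: kappa = 1/(8(m+1)). Gram matrix of t is close to the identity: |<t_j,t_k> - delta_jk| <= 3 kappa, so |sum a_j t_j|^2 >= (1 - 3 m kappa) |a|^2 >= |a|^2/2; t is linearly independent,
b in span t with <t_j, b> = s_j; v an orthonormal basis of (span t)^perp (dimension n); for z = component of y - b in span t: |z|^2 = sum a_j <t_j,z> <= |a| |Tz| <= sqrt 2 |z| |Tz|,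
so q b v y = |z|^2 <= 2 sum <t_j,z>^2 = 2 sum (<t_j,y> - s_j)^2.
frame_isometry: iota y = sum y_i v_i.
-/

set_option autoImplicit false

open MeasureTheory Filter Topology Metric Set
open scoped RealInnerProductSpace ENNReal

namespace Pool.Agent.RZ

variable {d : ℕ}

/-- an orthonormal frame extends to an orthonormal basis -/
private theorem I3_ext {n m : ℕ} (hnm : n + m = d) {v : Fin n → X d} (hv : Orthonormal ℝ v) :
    ∃ b : OrthonormalBasis (Fin n ⊕ Fin m) ℝ (X d), ∀ i, b (Sum.inl i) = v i := by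
  have hcard : Module.finrank ℝ (X d) = Fintype.card (Fin n ⊕ Fin m) := by
    rw [finrank_euclideanSpace, Fintype.card_fin, Fintype.card_sum, Fintype.card_fin,
      Fintype.card_fin, hnm]
  have hres : Orthonormal ℝ ((Set.range (Sum.inl : Fin n → Fin n ⊕ Fin m)).restrict
      (Sum.elim v (0 : Fin m → X d))) := by
    constructor
    · rintro ⟨_, i, rfl⟩
      exact hv.1 i
    · rintro ⟨_, i, rfl⟩ ⟨_, j, rfl⟩ hij
      have : i ≠ j := by
        rintro rfl
        exact hij rfl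
      exact hv.2 this
  obtain ⟨b, hb⟩ := hres.exists_orthonormalBasis_extension_of_card_eq hcard
  exact ⟨b, fun i => hb _ ⟨i, rfl⟩⟩

theorem compl_frame {n m : ℕ} (hnm : n + m = d) {v : Fin n → X d} (hv : Orthonormal ℝ v) :
    ∃ w : Fin m → X d, Orthonormal ℝ w ∧ (∀ i j, ⟪v i, w j⟫ = 0) ∧
      ∀ b y : X d, q b v y = ∑ j, ⟪w j, y - b⟫ ^ 2 := by
  obtain ⟨e, he⟩ := I3_ext hnm hv
  refine ⟨fun j => e (Sum.inr j), e.orthonormal.comp _ Sum.inr_injective, fun i j => ?_,
    fun b y => ?_⟩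
  · rw [← he i]
    exact e.orthonormal.2 (by simp)
  · have h1 := e.sum_sq_norm_inner_right (y - b)
    rw [Fintype.sum_sum_type] at h1
    simp only [he, Real.norm_eq_abs, sq_abs] at h1
    rw [q, ← h1]
    ring

theorem finrank_frame {n : ℕ} {v : Fin n → X d} (hv : Orthonormal ℝ v) :
    Module.finrank ℝ (Submodule.span ℝ (Set.range v)) = n := by
  rw [finrank_span_eq_card hv.linearIndependent, Fintype.card_fin]

theorem frame_isometry {n : ℕ} {v : Fin n → X d} (hv : Orthonormal ℝ v) :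
    ∃ ι : X n →ₗᵢ[ℝ] X d, Set.range ι = (Submodule.span ℝ (Set.range v) : Set (X d)) ∧
      ∀ y, ι y = ∑ i, y i • v i := by
  let L : X n →ₗ[ℝ] X d :=
    { toFun := fun y => ∑ i, y i • v i
      map_add' := fun x y => by
        rw [← Finset.sum_add_distrib]
        refine Finset.sum_congr rfl fun i _ => ?_
        rw [← add_smul]
        rfl
      map_smul' := fun c x => by
        rw [Finset.smul_sum]
        refine Finset.sum_congr rfl fun i _ => ?_
        rw [smul_smul]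
        rfl }
  have hL : ∀ y, L y = ∑ i, y i • v i := fun y => rfl
  have hn : ∀ y, ‖L y‖ = ‖y‖ := by
    intro y
    have h1 : ‖L y‖ ^ 2 = ‖y‖ ^ 2 := by
      rw [hL, ← real_inner_self_eq_norm_sq, hv.inner_sum, EuclideanSpace.norm_sq_eq]
      refine Finset.sum_congr rfl fun i _ => ?_
      simp [sq]
    exact (pow_left_inj₀ (norm_nonneg _) (norm_nonneg _) two_ne_zero).1 h1
  refine ⟨⟨L, hn⟩, ?_, hL⟩
  ext z
  rw [SetLike.mem_coe, Submodule.mem_span_range_iff_exists_fun]
  constructor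
  · rintro ⟨y, rfl⟩
    exact ⟨fun i => y i, rfl⟩
  · rintro ⟨c, rfl⟩
    exact ⟨(WithLp.equiv 2 (Fin n → ℝ)).symm c, rfl⟩

private theorem I3_lower {m : ℕ} {w t : Fin m → X d} (hw : Orthonormal ℝ w)
    (ht : ∀ j, ‖t j - w j‖ ≤ 1 / (8 * ((m : ℝ) + 1))) (a : Fin m → ℝ) :
    ∑ j, a j ^ 2 ≤ 2 * ‖∑ j, a j • t j‖ ^ 2 := by
  set A := Real.sqrt (∑ j, a j ^ 2) with hA
  have hA0 : 0 ≤ A := Real.sqrt_nonneg _
  have hA2 : A ^ 2 = ∑ j, a j ^ 2 := Real.sq_sqrt (Finset.sum_nonneg fun j _ => sq_nonneg _)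
  have h1 : ‖∑ j, a j • w j‖ = A := by
    have h2 : ‖∑ j, a j • w j‖ ^ 2 = A ^ 2 := by
      rw [← real_inner_self_eq_norm_sq, hw.inner_sum, hA2]
      refine Finset.sum_congr rfl fun i _ => ?_
      simp [sq]
    exact (pow_left_inj₀ (norm_nonneg _) hA0 two_ne_zero).1 h2
  have h3 : ‖∑ j, a j • w j - ∑ j, a j • t j‖ ≤ A / 8 := by
    rw [← Finset.sum_sub_distrib]
    calc ‖∑ j, (a j • w j - a j • t j)‖ ≤ ∑ j, ‖a j • w j - a j • t j‖ := norm_sum_le _ _
      _ ≤ ∑ _j : Fin m, A * (1 / (8 * ((m : ℝ) + 1))) := by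
          refine Finset.sum_le_sum fun j _ => ?_
          rw [← smul_sub, norm_smul, norm_sub_rev]
          refine mul_le_mul ?_ (ht j) (norm_nonneg _) hA0
          rw [Real.norm_eq_abs, ← Real.sqrt_sq_eq_abs]
          exact Real.sqrt_le_sqrt (Finset.single_le_sum (f := fun j => a j ^ 2)
            (fun j _ => sq_nonneg _) (Finset.mem_univ j))
      _ = A / 8 * ((m : ℝ) / ((m : ℝ) + 1)) := by
          rw [Finset.sum_const, Finset.card_univ, Fintype.card_fin, nsmul_eq_mul]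
          field_simp
      _ ≤ A / 8 * 1 := by
          refine mul_le_mul_of_nonneg_left ?_ (by positivity)
          rw [div_le_one (by positivity)]
          linarith
      _ = A / 8 := mul_one _
  have h4 : A ≤ ‖∑ j, a j • t j‖ + A / 8 := by
    calc A = ‖(∑ j, a j • w j - ∑ j, a j • t j) + ∑ j, a j • t j‖ := by rw [sub_add_cancel, h1]
      _ ≤ ‖∑ j, a j • w j - ∑ j, a j • t j‖ + ‖∑ j, a j • t j‖ := norm_add_le _ _
      _ ≤ _ := by linarith
  rw [← hA2]
  have h5 := norm_nonneg (∑ j, a j • t j)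
  nlinarith

theorem near_frame {n m : ℕ} (hnm : n + m = d) : ∃ κ : ℝ, 0 < κ ∧
    ∀ w : Fin m → X d, Orthonormal ℝ w → ∀ t : Fin m → X d, (∀ j, ‖t j - w j‖ ≤ κ) →
      ∀ s : Fin m → ℝ, ∃ (b : X d) (v : Fin n → X d), Orthonormal ℝ v ∧
        ∀ y : X d, q b v y ≤ 2 * ∑ j, (⟪t j, y⟫ - s j) ^ 2 := by
  refine ⟨1 / (8 * ((m : ℝ) + 1)), by positivity, fun w hw t ht s => ?_⟩
  have hlow := I3_lower hw ht
  have hind : LinearIndependent ℝ t := by
    rw [Fintype.linearIndependent_iff]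
    intro g hg i
    have h1 := hlow g
    rw [hg, norm_zero] at h1
    have h2 : g i ^ 2 ≤ ∑ j, g j ^ 2 :=
      Finset.single_le_sum (f := fun j => g j ^ 2) (fun j _ => sq_nonneg _) (Finset.mem_univ i)
    have h3 : g i ^ 2 ≤ 0 := by linarith
    exact pow_eq_zero_iff two_ne_zero |>.1 (le_antisymm h3 (sq_nonneg _))
  set U := Submodule.span ℝ (Set.range t) with hU
  have hUr : Module.finrank ℝ U = m := by
    rw [hU, finrank_span_eq_card hind, Fintype.card_fin]
  -- the base point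
  let T : U →ₗ[ℝ] (Fin m → ℝ) :=
    { toFun := fun z j => ⟪t j, (z : X d)⟫
      map_add' := fun x y => by
        funext j
        show ⟪t j, ((x + y : U) : X d)⟫ = ⟪t j, (x : X d)⟫ + ⟪t j, (y : X d)⟫
        rw [Submodule.coe_add, inner_add_right]
      map_smul' := fun c x => by
        funext j
        show ⟪t j, ((c • x : U) : X d)⟫ = c * ⟪t j, (x : X d)⟫
        rw [Submodule.coe_smul, real_inner_smul_right] }
  have hT : ∀ z j, T z j = ⟪t j, (z : X d)⟫ := fun z j => rfl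
  have hTinj : Function.Injective T := by
    rw [injective_iff_map_eq_zero]
    intro z hz
    obtain ⟨c, hc⟩ := (Submodule.mem_span_range_iff_exists_fun ℝ).1 z.2
    have h1 : ⟪(z : X d), (z : X d)⟫ = 0 := by
      nth_rewrite 1 [← hc]
      rw [sum_inner]
      refine Finset.sum_eq_zero fun j _ => ?_
      rw [real_inner_smul_left, ← hT, hz]
      simp
    exact Subtype.ext (inner_self_eq_zero.1 h1)
  have hTsurj : Function.Surjective T :=
    (LinearMap.injective_iff_surjective_of_finrank_eq_finrank (by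
      rw [hUr, Module.finrank_fin_fun])).1 hTinj
  obtain ⟨b, hb⟩ := hTsurj s
  -- the orthonormal basis of the orthogonal complement
  have hUo : Module.finrank ℝ Uᗮ = n := by
    have h1 := Submodule.finrank_add_finrank_orthogonal U
    rw [hUr, finrank_euclideanSpace, Fintype.card_fin] at h1
    omega
  let e := (stdOrthonormalBasis ℝ Uᗮ).reindex (finCongr hUo)
  have hv : Orthonormal ℝ (fun i => ((e i : Uᗮ) : X d)) :=
    e.orthonormal.comp_linearIsometry (Uᗮ).subtypeₗᵢ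
  refine ⟨b, fun i => ((e i : Uᗮ) : X d), hv, fun y => ?_⟩
  rw [q_eq _ hv]
  set z : X d := y - b - ∑ i, ⟪((e i : Uᗮ) : X d), y - b⟫ • ((e i : Uᗮ) : X d) with hz
  have hzo : ∀ i, ⟪((e i : Uᗮ) : X d), z⟫ = 0 := by
    intro i
    rw [hz, inner_sub_right, inner_sum]
    have h1 : ∑ j, ⟪((e i : Uᗮ) : X d), ⟪((e j : Uᗮ) : X d), y - b⟫ • ((e j : Uᗮ) : X d)⟫ =
        ∑ j, if i = j then ⟪((e j : Uᗮ) : X d), y - b⟫ else 0 := by
      refine Finset.sum_congr rfl fun j _ => ?_
      rw [real_inner_smul_right]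
      have h2 := orthonormal_iff_ite.1 hv i j
      rw [h2]
      split_ifs <;> simp
    rw [h1]
    simp
  have hzU : z ∈ U := by
    have h1 : z ∈ Uᗮᗮ := by
      rw [Submodule.mem_orthogonal]
      intro u hu
      have h2 := e.sum_repr ⟨u, hu⟩
      have h3 : u = ∑ i, e.repr ⟨u, hu⟩ i • ((e i : Uᗮ) : X d) := by
        have h4 := congrArg (Submodule.subtype Uᗮ) h2
        rw [map_sum] at h4
        simpa using h4.symm
      rw [h3, sum_inner]
      refine Finset.sum_eq_zero fun i _ => ?_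
      rw [real_inner_smul_left, hzo, mul_zero]
    rwa [Submodule.orthogonal_orthogonal] at h1
  obtain ⟨a, ha⟩ := (Submodule.mem_span_range_iff_exists_fun ℝ).1 hzU
  have hta : ∀ j, ⟪t j, z⟫ = ⟪t j, y⟫ - s j := by
    intro j
    have htU : t j ∈ U := Submodule.subset_span ⟨j, rfl⟩
    rw [hz, inner_sub_right, inner_sub_right, inner_sum]
    have h1 : ∑ i, ⟪t j, ⟪((e i : Uᗮ) : X d), y - b⟫ • ((e i : Uᗮ) : X d)⟫ = 0 := by
      refine Finset.sum_eq_zero fun i _ => ?_
      rw [real_inner_smul_right, Submodule.inner_right_of_mem_orthogonal htU (e i).2, mul_zero]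
    rw [h1, sub_zero, ← hT, hb]
  have h1 : ‖z‖ ^ 2 = ∑ j, a j * (⟪t j, y⟫ - s j) := by
    rw [← real_inner_self_eq_norm_sq]
    nth_rewrite 1 [← ha]
    rw [sum_inner]
    refine Finset.sum_congr rfl fun j _ => ?_
    rw [real_inner_smul_left, hta]
  have h2 := Finset.sum_mul_sq_le_sq_mul_sq Finset.univ a (fun j => ⟪t j, y⟫ - s j)
  rw [← h1] at h2
  have h3 := hlow a
  rw [ha] at h3
  have h4 : 0 ≤ ∑ j, (⟪t j, y⟫ - s j) ^ 2 := Finset.sum_nonneg fun j _ => sq_nonneg _
  have h5 : ‖z‖ ^ 2 * ‖z‖ ^ 2 ≤ ‖z‖ ^ 2 * (2 * ∑ j, (⟪t j, y⟫ - s j) ^ 2) := by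
    nlinarith
  rcases eq_or_lt_of_le (sq_nonneg ‖z‖) with h6 | h6
  · rw [← h6]
    linarith
  · exact le_of_mul_le_mul_left h5 h6

end Pool.Agent.RZ
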