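import Pool.Agent.RZ.Gr1

/-!
J3: the weak limit of the regularised Riesz transforms of 1.
F_eps(x) = int <e_j, x-y> k_eps(x-y) dmu(y), bounded continuous (mu finite). For psi in C_c: int psi F_eps = Qf n eps mu e_j f psi with f in C_c equal to 1 on the compact
support of mu: |.| <= C ||psi||_2 mu(X)^{1/2}; by density (or psi = F_eps * cutoff) ||F_eps||_{L2(mu)} <= C mu(X)^{1/2}. The functional Psi -> lim_{hyperfilter m} int Psi F_{1/(m+1)} dmu on L2(mu)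
is bounded and linear; Riesz representation (InnerProductSpace.toDual on Lp R 2 mu) gives g_j. For Tst psi the limit eps -> 0 exists: antisymmetrise,
(1/2) iint (psi(x)-psi(y)) <e,x-y> k_eps, and |difference for eps' < eps| <= (L/2) iint |x-y|^2 (k_eps' - k_eps) <= L mu(X) A C eps (Gr.kr_diff).
-/

set_option autoImplicit false

open MeasureTheory Filter Topology Metric Set
open scoped RealInnerProductSpace ENNReal

namespace Pool.Agent.RZ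

variable {d : ℕ}

private lemma J3_ker_cont (n : ℕ) {ε : ℝ} (hε : 0 < ε) (e : X d) :
    Continuous fun p : X d × X d => ⟪e, p.1 - p.2⟫ * kr n ε (p.1 - p.2) :=
  (continuous_const.inner (continuous_fst.sub continuous_snd)).mul
    ((kr_continuous n hε).comp (continuous_fst.sub continuous_snd))

private lemma J3_ker_cont_right (n : ℕ) {ε : ℝ} (hε : 0 < ε) (e x : X d) :
    Continuous fun y : X d => ⟪e, x - y⟫ * kr n ε (x - y) :=
  (J3_ker_cont n hε e).comp (continuous_const.prodMk continuous_id)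

private lemma J3_ker_cont_left (n : ℕ) {ε : ℝ} (hε : 0 < ε) (e y : X d) :
    Continuous fun x : X d => ⟪e, x - y⟫ * kr n ε (x - y) :=
  (J3_ker_cont n hε e).comp (continuous_id.prodMk continuous_const)

private lemma J3_inner_le {e : X d} (he : ‖e‖ ≤ 1) (z : X d) : |⟪e, z⟫| ≤ ‖z‖ :=
  calc |⟪e, z⟫| ≤ ‖e‖ * ‖z‖ := abs_real_inner_le_norm e z
    _ ≤ 1 * ‖z‖ := mul_le_mul_of_nonneg_right he (norm_nonneg z)
    _ = ‖z‖ := one_mul _

private lemma J3_ker_bound (n : ℕ) {ε : ℝ} (hε : 0 < ε) {e : X d} (he : ‖e‖ ≤ 1) (z : X d) :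
    ‖⟪e, z⟫ * kr n ε z‖ ≤ ε⁻¹ ^ n := by
  rw [Real.norm_eq_abs, abs_mul, abs_of_nonneg (kr_nonneg n ε z)]
  calc |⟪e, z⟫| * kr n ε z ≤ ‖z‖ * kr n ε z :=
        mul_le_mul_of_nonneg_right (J3_inner_le he z) (kr_nonneg n ε z)
    _ ≤ ε⁻¹ ^ n := norm_mul_kr_le_eps n hε z

/-- the regularised Riesz transform of `1` -/
private noncomputable def J3_F (n : ℕ) (ε : ℝ) (μ : Measure (X d)) (e : X d) (x : X d) : ℝ :=
  ∫ y, ⟪e, x - y⟫ * kr n ε (x - y) ∂μ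

private lemma J3_F_cont (n : ℕ) {ε : ℝ} (hε : 0 < ε) (μ : Measure (X d)) [IsFiniteMeasure μ]
    {e : X d} (he : ‖e‖ ≤ 1) : Continuous (J3_F n ε μ e) := by
  refine continuous_of_dominated (bound := fun _ => ε⁻¹ ^ n) ?_ ?_ (integrable_const _) ?_
  · intro x
    exact (J3_ker_cont_right n hε e x).aestronglyMeasurable
  · intro x
    exact ae_of_all _ fun y => J3_ker_bound n hε he _
  · exact ae_of_all _ fun y => J3_ker_cont_left n hε e y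

private lemma J3_F_bound (n : ℕ) {ε : ℝ} (hε : 0 < ε) (μ : Measure (X d)) [IsFiniteMeasure μ]
    {e : X d} (he : ‖e‖ ≤ 1) (x : X d) : ‖J3_F n ε μ e x‖ ≤ ε⁻¹ ^ n * μ.real univ :=
  norm_integral_le_of_norm_le_const (ae_of_all _ fun _ => J3_ker_bound n hε he _)

private lemma J3_F_memLp (n : ℕ) {ε : ℝ} (hε : 0 < ε) (μ : Measure (X d)) [IsFiniteMeasure μ]
    {e : X d} (he : ‖e‖ ≤ 1) : MemLp (J3_F n ε μ e) 2 μ :=
  MemLp.of_bound (J3_F_cont n hε μ he).aestronglyMeasurable _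
    (ae_of_all _ (J3_F_bound n hε μ he))

private lemma J3_I (n : ℕ) (ε : ℝ) (μ : Measure (X d)) (e : X d) (ψ : X d → ℝ) :
    ∫ x, ∫ y, ψ x * (⟪e, x - y⟫ * kr n ε (x - y)) ∂μ ∂μ = ∫ x, ψ x * J3_F n ε μ e x ∂μ := by
  refine integral_congr_ae (ae_of_all _ fun x => ?_)
  exact integral_const_mul _ _

private lemma J3_L2 {n : ℕ} {μ : Measure (X d)} [IsFiniteMeasure μ] {C' : ℝ} (hC' : 0 ≤ C')
    (hl : L2b n C' μ) {K : Set (X d)} (hK : IsCompact K) (hμK : μ Kᶜ = 0) {ε : ℝ} (hε : 0 < ε)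
    {e : X d} (he : ‖e‖ ≤ 1) :
    Real.sqrt (∫ x, J3_F n ε μ e x ^ 2 ∂μ) ≤ C' * Real.sqrt (μ.real univ) := by
  obtain ⟨R, hR, hKR⟩ : ∃ R : ℝ, 0 < R ∧ ∀ x ∈ K, ‖x‖ ≤ R := by
    obtain ⟨R, hR⟩ := hK.isBounded.exists_norm_le
    exact ⟨max R 1, lt_max_of_lt_right one_pos, fun x hx => (hR x hx).trans (le_max_left _ _)⟩
  have hae : ∀ᵐ x ∂μ, cut R x = 1 := by
    have h1 : ∀ᵐ x ∂μ, x ∈ K := by rw [ae_iff]; exact hμK
    filter_upwards [h1] with x hx using cut_eq_one hR (hKR x hx)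
  have hFc := J3_F_cont n hε μ he
  set F : X d → ℝ := J3_F n ε μ e with hF
  have hQ : Qf n ε μ e (cut R) (fun x => cut R x * F x) = ∫ x, F x ^ 2 ∂μ := by
    unfold Qf
    refine integral_congr_ae ?_
    filter_upwards [hae] with x hx
    have h2 : ∫ y, cut R x * F x * cut R y * (⟪e, x - y⟫ * kr n ε (x - y)) ∂μ
        = ∫ y, F x * (⟪e, x - y⟫ * kr n ε (x - y)) ∂μ := by
      refine integral_congr_ae ?_
      filter_upwards [hae] with y hy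
      rw [hx, hy]; ring
    rw [h2, integral_const_mul]
    have h3 : ∫ y, ⟪e, x - y⟫ * kr n ε (x - y) ∂μ = F x := rfl
    rw [h3]; ring
  have h1 := hl ε hε e he (cut R) (fun x => cut R x * F x) (cut_continuous hR)
    (cut_hasCompactSupport hR) ((cut_continuous hR).mul hFc) ((cut_hasCompactSupport hR).mul_right)
  rw [hQ] at h1
  have h4 : ∫ x, cut R x ^ 2 ∂μ = μ.real univ := by
    have h5 : ∫ x, cut R x ^ 2 ∂μ = ∫ _x : X d, (1 : ℝ) ∂μ := by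
      refine integral_congr_ae ?_
      filter_upwards [hae] with x hx
      rw [hx]; ring
    rw [h5, integral_const, smul_eq_mul, mul_one]
  have h6 : ∫ x, (cut R x * F x) ^ 2 ∂μ = ∫ x, F x ^ 2 ∂μ := by
    refine integral_congr_ae ?_
    filter_upwards [hae] with x hx
    rw [hx, one_mul]
  rw [h4, h6] at h1
  have hS : 0 ≤ ∫ x, F x ^ 2 ∂μ := integral_nonneg fun x => sq_nonneg _
  rw [abs_of_nonneg hS] at h1
  have hs := Real.mul_self_sqrt hS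
  rcases (Real.sqrt_nonneg (∫ x, F x ^ 2 ∂μ)).eq_or_lt with h0 | h0
  · rw [← h0]; exact mul_nonneg hC' (Real.sqrt_nonneg _)
  · refine le_of_mul_le_mul_right ?_ h0
    rw [hs]; exact h1

private lemma J3_inner {μ : Measure (X d)} (G : Lp ℝ 2 μ) {g : X d → ℝ} (hg : MemLp g 2 μ) :
    ⟪G, hg.toLp g⟫ = ∫ x, g x * G x ∂μ := by
  rw [L2.inner_def]
  refine integral_congr_ae ?_
  filter_upwards [hg.coeFn_toLp] with x hx
  rw [hx]
  rfl

private lemma J3_int {n : ℕ} {μ : Measure (X d)} [IsFiniteMeasure μ] {ε : ℝ} (hε : 0 < ε)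
    {e : X d} (he : ‖e‖ ≤ 1) {φ : X d × X d → ℝ} (hφ : Continuous φ) {B : ℝ}
    (hB : ∀ p, ‖φ p‖ ≤ B) :
    Integrable (fun p : X d × X d => φ p * (⟪e, p.1 - p.2⟫ * kr n ε (p.1 - p.2))) (μ.prod μ) := by
  refine Integrable.of_bound (hφ.mul (J3_ker_cont n hε e)).aestronglyMeasurable (B * ε⁻¹ ^ n)
    (ae_of_all _ fun p => ?_)
  rw [norm_mul]
  exact mul_le_mul (hB p) (J3_ker_bound n hε he _) (norm_nonneg _)
    ((norm_nonneg _).trans (hB p))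

private lemma J3_two {n : ℕ} {μ : Measure (X d)} [IsFiniteMeasure μ] {ε : ℝ} (hε : 0 < ε)
    {e : X d} (he : ‖e‖ ≤ 1) {ψ : X d → ℝ} (hψ : Continuous ψ) {B : ℝ} (hB : ∀ x, ‖ψ x‖ ≤ B) :
    2 * ∫ x, ∫ y, ψ x * (⟪e, x - y⟫ * kr n ε (x - y)) ∂μ ∂μ =
      ∫ p : X d × X d, (ψ p.1 - ψ p.2) * (⟪e, p.1 - p.2⟫ * kr n ε (p.1 - p.2)) ∂(μ.prod μ) := by
  have i1 := J3_int (n := n) (μ := μ) hε he (hψ.comp continuous_fst)
    (fun p : X d × X d => hB p.1)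
  have i2 := J3_int (n := n) (μ := μ) hε he (hψ.comp continuous_snd)
    (fun p : X d × X d => hB p.2)
  simp only [Function.comp_def] at i1 i2
  have h1 := integral_prod _ i1
  have h2 := integral_prod_swap (μ := μ) (ν := μ)
    (fun p : X d × X d => ψ p.1 * (⟪e, p.1 - p.2⟫ * kr n ε (p.1 - p.2)))
  have h3 : ∫ p : X d × X d, ψ p.swap.1 * (⟪e, p.swap.1 - p.swap.2⟫ * kr n ε (p.swap.1 - p.swap.2))
      ∂(μ.prod μ) =
      - ∫ p : X d × X d, ψ p.2 * (⟪e, p.1 - p.2⟫ * kr n ε (p.1 - p.2)) ∂(μ.prod μ) := by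
    rw [← integral_neg]
    refine integral_congr_ae (ae_of_all _ fun p => ?_)
    simp only [Prod.fst_swap, Prod.snd_swap]
    rw [kr_comm n ε p.2 p.1, ← neg_sub p.1 p.2, inner_neg_right]
    ring
  have h4 : ∫ p : X d × X d, (ψ p.1 - ψ p.2) * (⟪e, p.1 - p.2⟫ * kr n ε (p.1 - p.2)) ∂(μ.prod μ)
      = (∫ p : X d × X d, ψ p.1 * (⟪e, p.1 - p.2⟫ * kr n ε (p.1 - p.2)) ∂(μ.prod μ))
        - ∫ p : X d × X d, ψ p.2 * (⟪e, p.1 - p.2⟫ * kr n ε (p.1 - p.2)) ∂(μ.prod μ) := by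
    rw [← integral_sub i1 i2]
    refine integral_congr_ae (ae_of_all _ fun p => ?_)
    simp only []
    ring
  rw [h4]
  simp only [] at h1
  rw [← h1]
  have h5 := h2.symm.trans h3
  linarith

private lemma J3_diff (n : ℕ) (hn : 1 ≤ n) : ∃ A : ℝ, 0 < A ∧ ∀ (C : ℝ), 0 ≤ C →
    ∀ (μ : Measure (X d)) [IsFiniteMeasure μ], Gr n C μ → ∀ (e : X d), ‖e‖ ≤ 1 →
    ∀ (L ρ : ℝ) (ψ : X d → ℝ), Tst L ρ ψ → ∀ ε ε' : ℝ, 0 < ε' → ε' ≤ ε →
    |(∫ x, ∫ y, ψ x * (⟪e, x - y⟫ * kr n ε' (x - y)) ∂μ ∂μ) -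
      ∫ x, ∫ y, ψ x * (⟪e, x - y⟫ * kr n ε (x - y)) ∂μ ∂μ| ≤ (|L| * (A * C) * μ.real univ) * ε := by
  obtain ⟨A, hA, hAd⟩ := Gr.kr_diff (d := d) n hn
  refine ⟨A, hA, ?_⟩
  intro C hC μ _ hg e he L ρ ψ hψ ε ε' hε' hle
  have hε : 0 < ε := hε'.trans_le hle
  obtain ⟨B, hB⟩ := hψ.hasCompactSupport.exists_bound_of_continuous hψ.continuous
  have t1 := J3_two (n := n) (μ := μ) hε he hψ.continuous hB
  have t2 := J3_two (n := n) (μ := μ) hε' he hψ.continuous hB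
  have hφ : Continuous fun p : X d × X d => ψ p.1 - ψ p.2 :=
    (hψ.continuous.comp continuous_fst).sub (hψ.continuous.comp continuous_snd)
  have hφB : ∀ p : X d × X d, ‖ψ p.1 - ψ p.2‖ ≤ B + B := fun p =>
    (norm_sub_le _ _).trans (add_le_add (hB _) (hB _))
  have j1 := J3_int (n := n) (μ := μ) hε he hφ hφB
  have j2 := J3_int (n := n) (μ := μ) hε' he hφ hφB
  have h1 : 2 * ((∫ x, ∫ y, ψ x * (⟪e, x - y⟫ * kr n ε' (x - y)) ∂μ ∂μ) -
      ∫ x, ∫ y, ψ x * (⟪e, x - y⟫ * kr n ε (x - y)) ∂μ ∂μ) =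
      ∫ x, ∫ y, ((ψ x - ψ y) * (⟪e, x - y⟫ * kr n ε' (x - y)) -
        (ψ x - ψ y) * (⟪e, x - y⟫ * kr n ε (x - y))) ∂μ ∂μ := by
    rw [mul_sub, t1, t2, ← integral_sub j2 j1]
    exact integral_prod _ (j2.sub j1)
  have h2 : ∀ x, ‖∫ y, ((ψ x - ψ y) * (⟪e, x - y⟫ * kr n ε' (x - y)) -
        (ψ x - ψ y) * (⟪e, x - y⟫ * kr n ε (x - y))) ∂μ‖ ≤ |L| * (A * C) * ε := by
    intro x
    obtain ⟨k1, k2⟩ := hAd C hC μ hg x ε ε' hε' hle
    have k3 : ‖∫ y, ((ψ x - ψ y) * (⟪e, x - y⟫ * kr n ε' (x - y)) -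
        (ψ x - ψ y) * (⟪e, x - y⟫ * kr n ε (x - y))) ∂μ‖ ≤
        ∫ y, |L| * (‖y - x‖ ^ 2 * (kr n ε' (y - x) - kr n ε (y - x))) ∂μ := by
      refine norm_integral_le_of_norm_le (k1.const_mul _) (ae_of_all _ fun y => ?_)
      have e1 : (ψ x - ψ y) * (⟪e, x - y⟫ * kr n ε' (x - y)) -
          (ψ x - ψ y) * (⟪e, x - y⟫ * kr n ε (x - y)) =
          (ψ x - ψ y) * (⟪e, x - y⟫ * (kr n ε' (x - y) - kr n ε (x - y))) := by ring
      have hk := kr_eps_diff_nonneg n hε' hle (x - y)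
      rw [e1, Real.norm_eq_abs, abs_mul, abs_mul, abs_of_nonneg hk, kr_comm n ε' y x,
        kr_comm n ε y x, norm_sub_rev y x]
      have e2 : |ψ x - ψ y| ≤ |L| * ‖x - y‖ := (hψ.lip x y).trans
        (mul_le_mul_of_nonneg_right (le_abs_self L) (norm_nonneg _))
      calc |ψ x - ψ y| * (|⟪e, x - y⟫| * (kr n ε' (x - y) - kr n ε (x - y)))
          ≤ (|L| * ‖x - y‖) * (‖x - y‖ * (kr n ε' (x - y) - kr n ε (x - y))) :=
            mul_le_mul e2 (mul_le_mul_of_nonneg_right (J3_inner_le he _) hk)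
              (mul_nonneg (abs_nonneg _) hk) (mul_nonneg (abs_nonneg _) (norm_nonneg _))
        _ = |L| * (‖x - y‖ ^ 2 * (kr n ε' (x - y) - kr n ε (x - y))) := by ring
    rw [integral_const_mul] at k3
    refine k3.trans ?_
    calc |L| * ∫ y, ‖y - x‖ ^ 2 * (kr n ε' (y - x) - kr n ε (y - x)) ∂μ
        ≤ |L| * (A * C * ε) := mul_le_mul_of_nonneg_left k2 (abs_nonneg _)
      _ = |L| * (A * C) * ε := by ring
  have h3 := norm_integral_le_of_norm_le_const (μ := μ) (ae_of_all μ h2)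
  rw [← h1, Real.norm_eq_abs, abs_mul, abs_of_pos (zero_lt_two' ℝ)] at h3
  have h4 : 0 ≤ |L| * (A * C) * ε * μ.real univ := by positivity
  have h5 : (|L| * (A * C) * μ.real univ) * ε = |L| * (A * C) * ε * μ.real univ := by ring
  rw [h5]
  linarith

theorem exists_g {n : ℕ} (hn : 1 ≤ n) {μ : Measure (X d)} [IsFiniteMeasure μ] {C C' : ℝ}
    (hC : 0 ≤ C) (hg : Gr n C μ) (hC' : 0 ≤ C') (hl : L2b n C' μ) {K : Set (X d)}
    (hK : IsCompact K) (hμK : μ Kᶜ = 0) : ∃ g : Fin d → X d → ℝ, (∀ j, MemLp (g j) 2 μ) ∧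
      ∀ (j : Fin d) (L ρ : ℝ) (ψ : X d → ℝ), Tst L ρ ψ →
        Tendsto (fun ε : ℝ => ∫ x, ∫ y, ψ x * (⟪EuclideanSpace.single j (1 : ℝ), x - y⟫ *
          kr n ε (x - y)) ∂μ ∂μ) (𝓝[>] 0) (𝓝 (∫ x, ψ x * g j x ∂μ)) := by
  obtain ⟨A, hA, hdiff⟩ := J3_diff (d := d) n hn
  have key : ∀ j : Fin d, ∃ G : Lp ℝ 2 μ, ∀ (L ρ : ℝ) (ψ : X d → ℝ), Tst L ρ ψ →
      Tendsto (fun ε : ℝ => ∫ x, ∫ y, ψ x * (⟪EuclideanSpace.single j (1 : ℝ), x - y⟫ *
          kr n ε (x - y)) ∂μ ∂μ) (𝓝[>] 0) (𝓝 (∫ x, ψ x * G x ∂μ)) := by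
    intro j
    set e : X d := EuclideanSpace.single j (1 : ℝ) with hedef
    have he : ‖e‖ ≤ 1 := by rw [hedef]; simp
    have hεm : ∀ m : ℕ, (0 : ℝ) < 1 / ((m : ℝ) + 1) := fun m => Nat.one_div_pos_of_nat
    set B : ℝ := C' * Real.sqrt (μ.real univ) with hBdef
    set Fm : ℕ → Lp ℝ 2 μ := fun m => (J3_F_memLp n (hεm m) μ he).toLp _ with hFm
    have hnorm : ∀ m, ‖Fm m‖ ≤ B := by
      intro m
      have h1 : ‖Fm m‖ ^ 2 = ∫ x, J3_F n (1 / ((m : ℝ) + 1)) μ e x ^ 2 ∂μ := by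
        rw [← real_inner_self_eq_norm_sq, hFm]
        simp only []
        rw [J3_inner]
        refine integral_congr_ae ?_
        filter_upwards [(J3_F_memLp n (hεm m) μ he).coeFn_toLp] with x hx
        rw [hx]; ring
      have h2 := J3_L2 hC' hl hK hμK (hεm m) he
      rw [← h1, Real.sqrt_sq (norm_nonneg _)] at h2
      exact h2
    let Φ : ℕ → WeakDual ℝ (Lp ℝ 2 μ) := fun m =>
      StrongDual.toWeakDual (InnerProductSpace.toDual ℝ (Lp ℝ 2 μ) (Fm m))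
    have hΦ : ∀ (m : ℕ) (Ψ : Lp ℝ 2 μ), Φ m Ψ = ⟪Fm m, Ψ⟫ := fun m Ψ => rfl
    have hcomp := WeakDual.isCompact_closedBall (𝕜 := ℝ) (E := Lp ℝ 2 μ) 0 B
    obtain ⟨Λ, -, hΛ⟩ := hcomp.ultrafilter_le_nhds ((hyperfilter ℕ).map Φ) (by
      rw [le_principal_iff]
      refine mem_map.mpr (univ_mem' fun m => ?_)
      show InnerProductSpace.toDual ℝ (Lp ℝ 2 μ) (Fm m) ∈ closedBall 0 B
      rw [mem_closedBall_zero_iff, LinearIsometryEquiv.norm_map]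
      exact hnorm m)
    have hΛt : Tendsto Φ (hyperfilter ℕ) (𝓝 Λ) := hΛ
    refine ⟨(InnerProductSpace.toDual ℝ (Lp ℝ 2 μ)).symm (WeakDual.toStrongDual Λ), ?_⟩
    intro L ρ ψ hψ
    set G : Lp ℝ 2 μ := (InnerProductSpace.toDual ℝ (Lp ℝ 2 μ)).symm
      (WeakDual.toStrongDual Λ) with hG
    have hψm : MemLp ψ 2 μ := hψ.continuous.memLp_of_hasCompactSupport hψ.hasCompactSupport
    have hlim : Tendsto (fun m => Φ m (hψm.toLp ψ)) (hyperfilter ℕ) (𝓝 (Λ (hψm.toLp ψ))) :=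
      ((WeakDual.eval_continuous (hψm.toLp ψ)).tendsto Λ).comp hΛt
    have hΛG : Λ (hψm.toLp ψ) = ∫ x, ψ x * G x ∂μ := by
      rw [← J3_inner G hψm, hG, InnerProductSpace.toDual_symm_apply]
      rfl
    set I : ℝ → ℝ := fun ε => ∫ x, ∫ y, ψ x * (⟪e, x - y⟫ * kr n ε (x - y)) ∂μ ∂μ with hI
    have hΦI : ∀ m, Φ m (hψm.toLp ψ) = I (1 / ((m : ℝ) + 1)) := by
      intro m
      rw [hΦ, J3_inner, hI]
      simp only []
      rw [J3_I]
      refine integral_congr_ae ?_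
      filter_upwards [(J3_F_memLp n (hεm m) μ he).coeFn_toLp] with x hx
      rw [hx]
    rw [hΛG] at hlim
    have hlim' : Tendsto (fun m : ℕ => I (1 / ((m : ℝ) + 1))) (hyperfilter ℕ)
        (𝓝 (∫ x, ψ x * G x ∂μ)) := hlim.congr hΦI
    set D : ℝ := |L| * (A * C) * μ.real univ with hD
    have hbd : ∀ ε : ℝ, 0 < ε → |I ε - ∫ x, ψ x * G x ∂μ| ≤ D * ε := by
      intro ε hε
      have h1 : Tendsto (fun m : ℕ => |I (1 / ((m : ℝ) + 1)) - I ε|) (hyperfilter ℕ)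
          (𝓝 |(∫ x, ψ x * G x ∂μ) - I ε|) := (hlim'.sub tendsto_const_nhds).abs
      rw [abs_sub_comm]
      refine le_of_tendsto h1 ?_
      have h2 : ∀ᶠ m : ℕ in atTop, 1 / ((m : ℝ) + 1) ≤ ε :=
        (tendsto_one_div_add_atTop_nhds_zero_nat.eventually (eventually_le_nhds hε))
      have h3 : ((hyperfilter ℕ : Ultrafilter ℕ) : Filter ℕ) ≤ atTop :=
        Nat.hyperfilter_le_atTop
      filter_upwards [h3 h2] with m hm
      exact hdiff C hC μ hg e he L ρ ψ hψ ε _ (hεm m) hm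
    rw [tendsto_iff_dist_tendsto_zero]
    have h0 : Tendsto (fun ε : ℝ => D * ε) (𝓝[>] 0) (𝓝 0) := by
      have h01 : Tendsto (fun ε : ℝ => D * ε) (𝓝 0) (𝓝 (D * 0)) := tendsto_id.const_mul D
      rw [mul_zero] at h01
      exact h01.mono_left nhdsWithin_le_nhds
    refine squeeze_zero' (Eventually.of_forall fun _ => dist_nonneg) ?_ h0
    filter_upwards [self_mem_nhdsWithin] with ε hε
    rw [Real.dist_eq]
    exact hbd ε hε
  choose G hG using key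
  exact ⟨fun j => G j, fun j => Lp.memLp (G j), fun j L ρ ψ hψ => hG j L ρ ψ hψ⟩

end Pool.Agent.RZ
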