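import Pool.Agent.RZ.Gr1

/-!
J4: Lebesgue points and density points (Besicovitch.vitaliFamily, VitaliFamily.ae_tendsto_average_norm_sub, Besicovitch.tendsto_filterAt;
Besicovitch.ae_tendsto_measure_inter_div_of_measurableSet).
mean over closedBall x r of |g - g(x)| -> 0 for mu-a.e. x; multiply by mu(closedBall x r) <= C r^n.
-/

set_option autoImplicit false

open MeasureTheory Filter Topology Metric Set
open scoped RealInnerProductSpace ENNReal

namespace Pool.Agent.RZ

variable {d : ℕ}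

/-- `x` is an `n`-dimensional density point of `A` -/
def Dens (n : ℕ) (μ : Measure (X d)) (A : Set (X d)) (x : X d) : Prop :=
  ∀ η : ℝ, 0 < η → ∃ r₀ : ℝ, 0 < r₀ ∧ ∀ r : ℝ, 0 < r → r ≤ r₀ →
    μ (closedBall x r \ A) ≤ ENNReal.ofReal (η * r ^ n)

theorem ae_dens {n : ℕ} {μ : Measure (X d)} [IsLocallyFiniteMeasure μ] {C : ℝ} (hC : 0 ≤ C)
    (hg : Gr n C μ) {A : Set (X d)} (hA : MeasurableSet A) :
    ∀ᵐ x ∂(μ.restrict A), Dens n μ A x := by
  rw [ae_restrict_iff' hA]
  filter_upwards [Besicovitch.ae_tendsto_measure_inter_div_of_measurableSet μ hA.compl]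
    with x hx hxA η hη
  have h0 : Aᶜ.indicator (1 : X d → ℝ≥0∞) x = 0 := indicator_of_notMem (notMem_compl_iff.2 hxA) _
  rw [h0] at hx
  have hpos : (0 : ℝ≥0∞) < ENNReal.ofReal (η / (C + 1)) := ENNReal.ofReal_pos.2 (by positivity)
  have hev := hx.eventually (gt_mem_nhds hpos)
  rw [eventually_nhdsWithin_iff] at hev
  obtain ⟨δ, hδ, hev⟩ := Metric.eventually_nhds_iff.1 hev
  refine ⟨δ / 2, by positivity, fun r hr hrδ => ?_⟩
  have hd : dist r 0 < δ := by
    rw [Real.dist_eq, sub_zero, abs_of_pos hr]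
    linarith
  have h1 := hev hd hr
  have hB : μ (closedBall x r) ≤ ENNReal.ofReal (C * r ^ n) := hg x r hr
  have hfin : μ (closedBall x r) ≠ ⊤ := (hB.trans_lt ENNReal.ofReal_lt_top).ne
  have hsub : closedBall x r \ A = Aᶜ ∩ closedBall x r := by
    rw [inter_comm]
    rfl
  rw [hsub]
  rcases eq_or_ne (μ (closedBall x r)) 0 with hz | hz
  · have : μ (Aᶜ ∩ closedBall x r) = 0 := measure_mono_null inter_subset_right hz
    rw [this]
    exact zero_le
  · have h2 : μ (Aᶜ ∩ closedBall x r) ≤ ENNReal.ofReal (η / (C + 1)) * μ (closedBall x r) :=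
      (ENNReal.div_le_iff hz hfin).1 h1.le
    refine h2.trans ((mul_le_mul_right hB _).trans ?_)
    rw [← ENNReal.ofReal_mul (by positivity)]
    refine ENNReal.ofReal_le_ofReal ?_
    have h3 : η / (C + 1) * (C * r ^ n) = η * r ^ n * (C / (C + 1)) := by ring
    rw [h3]
    refine mul_le_of_le_one_right (by positivity) ?_
    rw [div_le_one (by positivity)]
    linarith

end Pool.Agent.RZ
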