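import Pool.Agent.RZ.J4
import Pool.Agent.RZ.Bl
import Pool.Agent.RZ.V6

/-!
J5: blow-ups at Lebesgue points of g are asymptotically reflectionless.
nu_i = blow n x r_i mu, psi Tst with int psi dnu_i = 0, psi'(y) = psi(r_i^{-1}(y-x)): by the change of variables in Bl
int <e,z> Lam n eps nu_i psi z dnu_i = r_i^{-n} int <e,y-x> Lam n (r_i eps) mu psi' y dmu(y) = r_i^{-n} int int psi'(y) <e,y-w> kr n (r_i eps)(y-w) dmu(w) dmu(y)
(mu finite with compact support; Fubini and antisymmetry; int Lam dmu = 0) -> (eps -> 0, e = sum e_j) r_i^{-n} sum_j e_j int psi' g_j dmu = r_i^{-n} sum_j e_j int psi' (g_j - g_j(x)) dmu,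
|.| <= r_i^{-n} L rho sum |e_j| int_{closedBall x (rho r_i)} |g_j - g_j(x)| dmu -> 0 uniformly in psi.
-/

set_option autoImplicit false

open MeasureTheory Filter Topology Metric Set
open scoped RealInnerProductSpace ENNReal

namespace Pool.Agent.RZ

variable {d : ℕ}

/-- `g` represents the Riesz transform of `1` weakly -/
def RepG (n : ℕ) (μ : Measure (X d)) (g : Fin d → X d → ℝ) : Prop :=
  (∀ j, MemLp (g j) 2 μ) ∧ ∀ (j : Fin d) (L ρ : ℝ) (ψ : X d → ℝ), Tst L ρ ψ →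
    Tendsto (fun ε : ℝ => ∫ x, ∫ y, ψ x * (⟪EuclideanSpace.single j (1 : ℝ), x - y⟫ *
      kr n ε (x - y)) ∂μ ∂μ) (𝓝[>] 0) (𝓝 (∫ x, ψ x * g j x ∂μ))

private theorem J5_int {μ : Measure (X d)} [IsFiniteMeasure μ] {K : Set (X d)}
    (hK : IsCompact K) (hμK : μ Kᶜ = 0) {F : X d × X d → ℝ} (hF : Continuous F) :
    Integrable F (μ.prod μ) := by
  have hr : μ.restrict K = μ := by
    refine Measure.restrict_eq_self_of_ae_mem ?_
    rw [ae_iff]
    exact hμK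
  have h1 : IntegrableOn F (K ×ˢ K) (μ.prod μ) :=
    hF.continuousOn.integrableOn_compact (hK.prod hK)
  rw [IntegrableOn, ← Measure.prod_restrict, hr] at h1
  exact h1

private theorem J5_inner (e z : X d) :
    ⟪e, z⟫ = ∑ j, e j * ⟪EuclideanSpace.single j (1 : ℝ), z⟫ := by
  simp [PiLp.inner_apply, mul_comm]

private theorem J5_lam {n : ℕ} {μ : Measure (X d)} (x : X d) {r : ℝ} (hr : 0 < r) (ε : ℝ)
    (ψ : X d → ℝ) (y : X d) :
    Lam n ε (blow n x r μ) ψ (r⁻¹ • (y - x)) =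
      r * Lam n (r * ε) μ (fun w => ψ (r⁻¹ • (w - x))) y := by
  unfold Lam
  rw [integral_blow n x hr, ← integral_const_mul, ← integral_const_mul]
  refine integral_congr_ae (Eventually.of_forall fun w => ?_)
  simp only
  have h1 : r⁻¹ • (w - x) - r⁻¹ • (y - x) = r⁻¹ • (w - y) := by
    rw [← smul_sub]
    congr 1
    abel
  rw [h1, kr_scale n ε hr]
  have h2 : r⁻¹ ^ n * r ^ (n + 1) = r := by
    rw [pow_succ, ← mul_assoc, ← mul_pow, inv_mul_cancel₀ hr.ne', one_pow, one_mul]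
  calc r⁻¹ ^ n * ((ψ (r⁻¹ • (y - x)) - ψ (r⁻¹ • (w - x))) * (r ^ (n + 1) * kr n (r * ε) (w - y)))
      = (r⁻¹ ^ n * r ^ (n + 1)) * ((ψ (r⁻¹ • (y - x)) - ψ (r⁻¹ • (w - x))) *
          kr n (r * ε) (w - y)) := by ring
    _ = _ := by rw [h2]

private theorem J5_key {n : ℕ} {μ : Measure (X d)} [IsFiniteMeasure μ] {K : Set (X d)}
    (hK : IsCompact K) (hμK : μ Kᶜ = 0) {ε : ℝ} (hε : 0 < ε) {ψ : X d → ℝ}
    (hψ : Continuous ψ) (x e : X d) :
    ∫ y, ⟪e, y - x⟫ * Lam n ε μ ψ y ∂μ = ∑ j, e j * ∫ y, ∫ w, ψ y *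
      (⟪EuclideanSpace.single j (1 : ℝ), y - w⟫ * kr n ε (y - w)) ∂μ ∂μ := by
  have hk : Continuous fun p : X d × X d => kr n ε (p.1 - p.2) :=
    (kr_continuous n hε).comp (continuous_fst.sub continuous_snd)
  have hψ1 : Continuous fun p : X d × X d => ψ p.1 := hψ.comp continuous_fst
  have hψ2 : Continuous fun p : X d × X d => ψ p.2 := hψ.comp continuous_snd
  have he1 : Continuous fun p : X d × X d => ⟪e, p.1 - x⟫ :=
    continuous_const.inner (continuous_fst.sub continuous_const)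
  have he2 : Continuous fun p : X d × X d => ⟪e, p.2 - x⟫ :=
    continuous_const.inner (continuous_snd.sub continuous_const)
  have hI1 : Integrable (fun p : X d × X d => ⟪e, p.1 - x⟫ * (ψ p.1 * kr n ε (p.1 - p.2)))
      (μ.prod μ) := J5_int hK hμK (he1.mul (hψ1.mul hk))
  have hI2 : Integrable (fun p : X d × X d => ⟪e, p.1 - x⟫ * (ψ p.2 * kr n ε (p.1 - p.2)))
      (μ.prod μ) := J5_int hK hμK (he1.mul (hψ2.mul hk))
  have hI3 : Integrable (fun p : X d × X d => ⟪e, p.2 - x⟫ * (ψ p.1 * kr n ε (p.1 - p.2)))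
      (μ.prod μ) := J5_int hK hμK (he2.mul (hψ1.mul hk))
  have hIj : ∀ j : Fin d, Integrable (fun p : X d × X d => ψ p.1 *
      (⟪EuclideanSpace.single j (1 : ℝ), p.1 - p.2⟫ * kr n ε (p.1 - p.2))) (μ.prod μ) := by
    intro j
    refine J5_int hK hμK (hψ1.mul (Continuous.mul ?_ hk))
    exact continuous_const.inner (continuous_fst.sub continuous_snd)
  have e1 : ∫ y, ⟪e, y - x⟫ * Lam n ε μ ψ y ∂μ =
      ∫ p : X d × X d, (⟪e, p.1 - x⟫ * (ψ p.1 * kr n ε (p.1 - p.2)) -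
        ⟪e, p.1 - x⟫ * (ψ p.2 * kr n ε (p.1 - p.2))) ∂(μ.prod μ) := by
    have hI12 : Integrable (fun p : X d × X d => ⟪e, p.1 - x⟫ * (ψ p.1 * kr n ε (p.1 - p.2)) -
        ⟪e, p.1 - x⟫ * (ψ p.2 * kr n ε (p.1 - p.2))) (μ.prod μ) := hI1.sub hI2
    rw [integral_prod _ hI12]
    refine integral_congr_ae (Eventually.of_forall fun y => ?_)
    simp only
    unfold Lam
    rw [← integral_const_mul]
    refine integral_congr_ae (Eventually.of_forall fun w => ?_)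
    simp only
    rw [kr_comm n ε w y]
    ring
  have e2 : ∫ p : X d × X d, ⟪e, p.1 - x⟫ * (ψ p.2 * kr n ε (p.1 - p.2)) ∂(μ.prod μ) =
      ∫ p : X d × X d, ⟪e, p.2 - x⟫ * (ψ p.1 * kr n ε (p.1 - p.2)) ∂(μ.prod μ) := by
    rw [← integral_prod_swap]
    refine integral_congr_ae (Eventually.of_forall fun p => ?_)
    simp only [Prod.fst_swap, Prod.snd_swap]
    rw [kr_comm n ε p.2 p.1]
  rw [e1, integral_sub hI1 hI2, e2, ← integral_sub hI1 hI3]
  have e3 : ∀ j : Fin d, ∫ y, ∫ w, ψ y *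
      (⟪EuclideanSpace.single j (1 : ℝ), y - w⟫ * kr n ε (y - w)) ∂μ ∂μ =
      ∫ p : X d × X d, ψ p.1 *
      (⟪EuclideanSpace.single j (1 : ℝ), p.1 - p.2⟫ * kr n ε (p.1 - p.2)) ∂(μ.prod μ) := by
    intro j
    rw [integral_prod _ (hIj j)]
  simp_rw [e3, ← integral_const_mul]
  rw [← integral_finsetSum _ fun j _ => (hIj j).const_mul (e j)]
  refine integral_congr_ae (Eventually.of_forall fun p => ?_)
  simp only
  have e4 : ⟪e, p.1 - x⟫ - ⟪e, p.2 - x⟫ = ⟪e, p.1 - p.2⟫ := by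
    rw [← inner_sub_right]
    congr 1
    abel
  have e5 : ⟪e, p.1 - x⟫ * (ψ p.1 * kr n ε (p.1 - p.2)) -
      ⟪e, p.2 - x⟫ * (ψ p.1 * kr n ε (p.1 - p.2)) =
      (⟪e, p.1 - x⟫ - ⟪e, p.2 - x⟫) * (ψ p.1 * kr n ε (p.1 - p.2)) := by ring
  rw [e5, e4, J5_inner e (p.1 - p.2), Finset.sum_mul]
  refine Finset.sum_congr rfl fun j _ => ?_
  ring

theorem blow_AEq {n : ℕ} (hn : 1 ≤ n) (hd : 0 < d) {μ : Measure (X d)} [IsFiniteMeasure μ] {C : ℝ}
    (hC : 0 ≤ C) (hg : Gr n C μ) {K : Set (X d)} (hK : IsCompact K) (hμK : μ Kᶜ = 0)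
    {g : Fin d → X d → ℝ} (hrep : RepG n μ g) {x : X d}
    (hx : ∀ j, Tendsto (fun r : ℝ => r⁻¹ ^ n * ∫ y in closedBall x r, |g j y - g j x| ∂μ)
      (𝓝[>] 0) (𝓝 0)) {r : ℕ → ℝ} (hr : ∀ i, 0 < r i) (hr0 : Tendsto r (hyperfilter ℕ) (𝓝 0))
    (e : X d) : AEq n (fun i => blow n x (r i) μ) fun _ y => ⟪e, y⟫ := by
  intro L0 ρ0 δ hδ
  obtain ⟨L, hL, hLL⟩ : ∃ L : ℝ, 0 ≤ L ∧ L0 ≤ L :=
    ⟨max L0 1, by positivity, le_max_left _ _⟩
  obtain ⟨ρ, hρ, hρρ⟩ : ∃ ρ : ℝ, 0 < ρ ∧ ρ0 ≤ ρ :=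
    ⟨max ρ0 1, by positivity, le_max_left _ _⟩
  have hb : Tendsto (fun i => (L * ρ * ρ ^ n) * ∑ j : Fin d, |e j| * ((r i * ρ)⁻¹ ^ n *
      ∫ y in closedBall x (r i * ρ), |g j y - g j x| ∂μ)) (hyperfilter ℕ)
      (𝓝 ((L * ρ * ρ ^ n) * ∑ j : Fin d, |e j| * 0)) := by
    refine Tendsto.const_mul _ (tendsto_finsetSum _ fun j _ => Tendsto.const_mul _ ?_)
    have h1 : Tendsto (fun i => r i * ρ) (hyperfilter ℕ) (𝓝[>] 0) := by
      refine tendsto_nhdsWithin_iff.2 ⟨?_, Eventually.of_forall fun i => ?_⟩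
      · have := hr0.mul_const ρ
        rwa [zero_mul] at this
      · exact mul_pos (hr i) hρ
    exact (hx j).comp h1
  simp only [mul_zero, Finset.sum_const_zero] at hb
  filter_upwards [hb.eventually_lt_const hδ] with i hi
  intro ψ hψ0 h0
  have hψ : Tst L ρ ψ := hψ0.mono hLL hρρ
  have hri := hr i
  set s : ℝ := r i with hs
  have hψ' : Tst (L * s⁻¹) (s * ρ + ‖x‖) (fun y => ψ (s⁻¹ • (y - x))) := by
    constructor
    · intro y z
      refine (hψ.lip _ _).trans (le_of_eq ?_)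
      have h1 : s⁻¹ • (y - x) - s⁻¹ • (z - x) = s⁻¹ • (y - z) := by
        rw [← smul_sub]
        congr 1
        abel
      rw [h1, norm_smul, norm_inv, Real.norm_eq_abs, abs_of_pos hri]
      ring
    · intro y hy
      refine hψ.supp _ ?_
      rw [norm_smul, norm_inv, Real.norm_eq_abs, abs_of_pos hri, lt_inv_mul_iff₀ hri]
      have h1 : ‖y‖ ≤ ‖y - x‖ + ‖x‖ := by
        have := norm_add_le (y - x) x
        rwa [sub_add_cancel] at this
      linarith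
  have hψz : ∀ y, y ∉ closedBall x (s * ρ) → ψ (s⁻¹ • (y - x)) = 0 := by
    intro y hy
    rw [mem_closedBall, dist_eq_norm, not_le] at hy
    refine hψ.supp _ ?_
    rw [norm_smul, norm_inv, Real.norm_eq_abs, abs_of_pos hri, lt_inv_mul_iff₀ hri]
    exact hy
  have hψb : ∀ y, |ψ (s⁻¹ • (y - x))| ≤ L * ρ := fun y => hψ.abs_le hL hρ hd _
  have hint0 : ∫ y, ψ (s⁻¹ • (y - x)) ∂μ = 0 := by
    rw [integral_blow n x hri] at h0
    rcases mul_eq_zero.1 h0 with h1 | h1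
    · exact absurd h1 (by positivity)
    · exact h1
  -- the limit
  have hgi : ∀ j, Integrable (g j) μ := fun j => (hrep.1 j).integrable (by norm_num)
  have hval : ∀ j, |∫ y, ψ (s⁻¹ • (y - x)) * g j y ∂μ| ≤
      (L * ρ) * ∫ y in closedBall x (s * ρ), |g j y - g j x| ∂μ := by
    intro j
    have hψc : Continuous fun y => ψ (s⁻¹ • (y - x)) := hψ'.continuous
    have a1 : Integrable (fun y => ψ (s⁻¹ • (y - x)) * g j y) μ :=
      (hgi j).bdd_mul hψc.aestronglyMeasurable (Eventually.of_forall fun y => by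
        rw [Real.norm_eq_abs]; exact hψb y)
    have a2 : Integrable (fun y => ψ (s⁻¹ • (y - x)) * g j x) μ :=
      (integrable_const (g j x)).bdd_mul hψc.aestronglyMeasurable
        (Eventually.of_forall fun y => by rw [Real.norm_eq_abs]; exact hψb y)
    have a3 : ∫ y, ψ (s⁻¹ • (y - x)) * g j y ∂μ =
        ∫ y, ψ (s⁻¹ • (y - x)) * (g j y - g j x) ∂μ := by
      have a4 : ∫ y, ψ (s⁻¹ • (y - x)) * (g j y - g j x) ∂μ =
          (∫ y, ψ (s⁻¹ • (y - x)) * g j y ∂μ) - ∫ y, ψ (s⁻¹ • (y - x)) * g j x ∂μ := by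
        rw [← integral_sub a1 a2]
        refine integral_congr_ae (Eventually.of_forall fun y => ?_)
        simp only
        ring
      rw [a4, integral_mul_const, hint0, zero_mul, sub_zero]
    have a5 : ∫ y, ψ (s⁻¹ • (y - x)) * (g j y - g j x) ∂μ =
        ∫ y in closedBall x (s * ρ), ψ (s⁻¹ • (y - x)) * (g j y - g j x) ∂μ := by
      refine (setIntegral_eq_integral_of_forall_compl_eq_zero fun y hy => ?_).symm
      rw [hψz y hy, zero_mul]
    rw [a3, a5, ← integral_const_mul, ← Real.norm_eq_abs]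
    have a6 : Integrable (fun y => |g j y - g j x|) μ :=
      ((hgi j).sub (integrable_const (g j x))).abs
    refine norm_integral_le_of_norm_le ((a6.const_mul _).restrict)
      (Eventually.of_forall fun y => ?_)
    rw [norm_mul, Real.norm_eq_abs, Real.norm_eq_abs]
    exact mul_le_mul_of_nonneg_right (hψb y) (abs_nonneg _)
  have hlim : Tendsto (fun ε : ℝ => s⁻¹ ^ n * ∑ j, e j * ∫ y, ∫ w, ψ (s⁻¹ • (y - x)) *
      (⟪EuclideanSpace.single j (1 : ℝ), y - w⟫ * kr n (s * ε) (y - w)) ∂μ ∂μ) (𝓝[>] 0)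
      (𝓝 (s⁻¹ ^ n * ∑ j, e j * ∫ y, ψ (s⁻¹ • (y - x)) * g j y ∂μ)) := by
    refine Tendsto.const_mul _ (tendsto_finsetSum _ fun j _ => Tendsto.const_mul _ ?_)
    have h1 := hrep.2 j _ _ _ hψ'
    have h2 : Tendsto (fun ε : ℝ => s * ε) (𝓝[>] 0) (𝓝[>] 0) := by
      refine tendsto_nhdsWithin_iff.2 ⟨?_, ?_⟩
      · have h3 : Tendsto (fun ε : ℝ => s * ε) (𝓝 0) (𝓝 (s * 0)) :=
          (continuous_const.mul continuous_id).tendsto 0
        rw [mul_zero] at h3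
        exact h3.mono_left nhdsWithin_le_nhds
      · filter_upwards [self_mem_nhdsWithin] with ε hε
        exact mul_pos hri hε
    exact h1.comp h2
  have hlt : |s⁻¹ ^ n * ∑ j, e j * ∫ y, ψ (s⁻¹ • (y - x)) * g j y ∂μ| < δ := by
    refine lt_of_le_of_lt ?_ hi
    rw [abs_mul, abs_of_nonneg (show 0 ≤ s⁻¹ ^ n by positivity)]
    have h1 : |∑ j, e j * ∫ y, ψ (s⁻¹ • (y - x)) * g j y ∂μ| ≤
        ∑ j, |e j| * ((L * ρ) * ∫ y in closedBall x (s * ρ), |g j y - g j x| ∂μ) := by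
      refine (Finset.abs_sum_le_sum_abs _ _).trans (Finset.sum_le_sum fun j _ => ?_)
      rw [abs_mul]
      exact mul_le_mul_of_nonneg_left (hval j) (abs_nonneg _)
    refine (mul_le_mul_of_nonneg_left h1 (by positivity)).trans (le_of_eq ?_)
    rw [Finset.mul_sum, Finset.mul_sum]
    refine Finset.sum_congr rfl fun j _ => ?_
    have h2 : ρ ^ n * (s * ρ)⁻¹ ^ n = s⁻¹ ^ n := by
      rw [← mul_pow]
      congr 1
      field_simp
    calc s⁻¹ ^ n * (|e j| * ((L * ρ) * ∫ y in closedBall x (s * ρ), |g j y - g j x| ∂μ))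
        = (ρ ^ n * (s * ρ)⁻¹ ^ n) *
          (|e j| * ((L * ρ) * ∫ y in closedBall x (s * ρ), |g j y - g j x| ∂μ)) := by rw [h2]
      _ = _ := by ring
  have hev := (hlim.abs).eventually_lt_const hlt
  filter_upwards [hev, self_mem_nhdsWithin] with ε h1 hε
  have hε' : 0 < ε := hε
  have h2 : ∫ y, ⟪e, y⟫ * Lam n ε (blow n x s μ) ψ y ∂(blow n x s μ) =
      s⁻¹ ^ n * ∑ j, e j * ∫ y, ∫ w, ψ (s⁻¹ • (y - x)) *
      (⟪EuclideanSpace.single j (1 : ℝ), y - w⟫ * kr n (s * ε) (y - w)) ∂μ ∂μ := by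
    rw [integral_blow n x hri,
      ← J5_key (n := n) hK hμK (mul_pos hri hε') hψ'.continuous x e]
    congr 1
    refine integral_congr_ae (Eventually.of_forall fun y => ?_)
    simp only
    rw [J5_lam x hri, inner_smul_right]
    rw [mul_mul_mul_comm, inv_mul_cancel₀ hri.ne', one_mul]
  rw [h2]
  exact h1.le

end Pool.Agent.RZ
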