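import Pool.Agent.RZ.J5
import Pool.Agent.RZ.V1
import Pool.Agent.RZ.V3

/-!
J6: blow-ups at good points.
good point x of F: x in F, density point of F, Lebesgue point of all g_j.
blow_reg: Gr.blow, L2b.blow, exists_VC, VC.l2, blow_AEq + refl_limit, VC.lo with the points z' = r_i^{-1}(y - x), y in F (supp_approx with A = F; lower bounds for r <= 1/delta as r_i r <= r0),
VC.zero_mem.
supp_approx: z in Supp nu': nu'(ball z delta) > 0, so a < nu_i(ball z delta) for hyperfilter-many i (VC.lt_ball); nu_i(closedBall 0 (|z|+delta) \ A_i) -> 0 (Dens), so ball z delta meets the rescaled A.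
-/

set_option autoImplicit false

open MeasureTheory Filter Topology Metric Set
open scoped RealInnerProductSpace ENNReal

namespace Pool.Agent.RZ

variable {d : ℕ}

/-- standing assumptions on the measure -/
structure Std (n : ℕ) (C : ℝ) (μ : Measure (X d)) (g : Fin d → X d → ℝ) (K F : Set (X d))
    (r₀ : ℝ) : Prop where
  hC : 1 ≤ C
  gr : Gr n C μ
  l2 : L2b n C μ
  hK : IsCompact K
  supp : μ Kᶜ = 0
  rep : RepG n μ g
  closed : IsCompact F
  pos : 0 < r₀
  low : ∀ y ∈ F, ∀ r : ℝ, 0 < r → r ≤ r₀ → ENNReal.ofReal (r ^ n / C) ≤ μ (closedBall y r)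

/-- good points -/
structure Good (n : ℕ) (μ : Measure (X d)) (g : Fin d → X d → ℝ) (F : Set (X d)) (x : X d) :
    Prop where
  mem : x ∈ F
  dens : Dens n μ F x
  leb : ∀ j, Tendsto (fun r : ℝ => r⁻¹ ^ n * ∫ y in closedBall x r, |g j y - g j x| ∂μ)
      (𝓝[>] 0) (𝓝 0)

theorem ae_good {n : ℕ} {C : ℝ} {μ : Measure (X d)} [IsFiniteMeasure μ] {g : Fin d → X d → ℝ}
    {K F : Set (X d)} {r₀ : ℝ} (h : Std n C μ g K F r₀) :
    ∀ᵐ x ∂(μ.restrict F), Good n μ g F x := by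
  have hC : 0 ≤ C := le_trans zero_le_one h.hC
  have hF : MeasurableSet F := h.closed.measurableSet
  have h1 : ∀ᵐ x ∂(μ.restrict F), x ∈ F := ae_restrict_mem hF
  have h2 := ae_dens hC h.gr hF
  have h3 : ∀ᵐ x ∂(μ.restrict F), ∀ j, Tendsto
      (fun r : ℝ => r⁻¹ ^ n * ∫ y in closedBall x r, |g j y - g j x| ∂μ) (𝓝[>] 0) (𝓝 0) := by
    rw [ae_all_iff]
    intro j
    apply ae_restrict_of_ae
    exact leb_points hC h.gr ((h.rep.1 j).integrable (by norm_num)).locallyIntegrable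
  filter_upwards [h1, h2, h3] with x hx1 hx2 hx3
  exact ⟨hx1, hx2, hx3⟩

theorem supp_approx {n : ℕ} {C : ℝ} {μ : Measure (X d)} (hg : Gr n C μ)
    {x : X d} {A : Set (X d)} (hA : Dens n μ A x) {r : ℕ → ℝ} (hr : ∀ i, 0 < r i)
    (hr0 : Tendsto r (hyperfilter ℕ) (𝓝 0)) {ν' : Measure (X d)} (hg' : Gr n C ν')
    (hv : VC (fun i => blow n x (r i) μ) ν') :
    ∀ z ∈ Supp ν', ∀ δ : ℝ, 0 < δ → ∀ᶠ i in (hyperfilter ℕ : Filter ℕ),
      ∃ y ∈ A, ‖(r i)⁻¹ • (y - x) - z‖ ≤ δ := by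
  intro z hz δ hδ
  obtain ⟨a, ha0, ha⟩ := exists_between (hz δ hδ)
  have haT : a ≠ ⊤ := ha.ne_top
  set ρ : ℝ := ‖z‖ + δ with hρ
  have hρ0 : 0 < ρ := by
    have := norm_nonneg z
    linarith
  obtain ⟨r₀, hr₀, hD⟩ := hA (a.toReal / ρ ^ n)
    (div_pos (ENNReal.toReal_pos ha0.ne' haT) (pow_pos hρ0 n))
  have e1 := VC.lt_ball (fun i => hg.blow x (hr i)) hg' hv z δ a ha
  have e2 : ∀ᶠ i in (hyperfilter ℕ : Filter ℕ), r i < r₀ / ρ :=
    hr0.eventually (gt_mem_nhds (div_pos hr₀ hρ0))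
  filter_upwards [e1, e2] with i h1 h2
  by_contra hcon
  push Not at hcon
  have hri := hr i
  have h3 : blow n x (r i) μ (ball z δ) ≤ a := by
    have hT : Measurable fun y : X d => (r i)⁻¹ • (y - x) := by fun_prop
    unfold blow
    rw [Measure.smul_apply, Measure.map_apply hT measurableSet_ball, smul_eq_mul]
    have hsub : (fun y : X d => (r i)⁻¹ • (y - x)) ⁻¹' ball z δ ⊆
        closedBall x (r i * ρ) \ A := by
      intro y hy
      have hy' : ‖(r i)⁻¹ • (y - x) - z‖ < δ := by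
        have := mem_ball.mp (mem_preimage.mp hy)
        rwa [dist_eq_norm] at this
      refine ⟨?_, fun hyA => absurd hy'.le (not_le.mpr (hcon y hyA))⟩
      rw [mem_closedBall, dist_eq_norm]
      have h4 : ‖(r i)⁻¹ • (y - x)‖ ≤ ρ := by
        have := norm_sub_norm_le ((r i)⁻¹ • (y - x)) z
        linarith
      rw [norm_smul, norm_inv, Real.norm_of_nonneg hri.le] at h4
      have h5 := mul_le_mul_of_nonneg_left h4 hri.le
      rw [← mul_assoc, mul_inv_cancel₀ hri.ne', one_mul] at h5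
      exact h5
    have h6 : μ ((fun y : X d => (r i)⁻¹ • (y - x)) ⁻¹' ball z δ) ≤
        ENNReal.ofReal (a.toReal / ρ ^ n * (r i * ρ) ^ n) := by
      refine (measure_mono hsub).trans (hD _ (mul_pos hri hρ0) ?_)
      rw [lt_div_iff₀ hρ0] at h2
      exact h2.le
    refine (mul_le_mul_right h6 _).trans (le_of_eq ?_)
    rw [← ENNReal.ofReal_mul (by positivity)]
    have h7 : ((r i)⁻¹ ^ n) * (a.toReal / ρ ^ n * (r i * ρ) ^ n) = a.toReal := by
      rw [mul_pow, inv_pow]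
      field_simp
    rw [h7, ENNReal.ofReal_toReal haT]
  exact absurd h1 (not_lt.mpr h3)

end Pool.Agent.RZ
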