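import Pool.Agent.RZ.J5
import Pool.Agent.RZ.V1
import Pool.Agent.RZ.V2
import Pool.Agent.RZ.V3
import Pool.Agent.RZ.J6a

/-!
J6: blow-ups at good points.
good point x of F: x in F, density point of F, Lebesgue point of all g_j.
blow_reg: Gr.blow, L2b.blow, exists_VC, VC.l2, blow_AEq + refl_limit, VC.lo with the points z' = r_i^{-1}(y - x), y in F (supp_approx with A = F; lower bounds for r <= 1/delta as r_i r <= r0),
VC.zero_mem.
supp_approx: z in Supp nu': nu'(ball z delta) > 0, so a < nu_i(ball z delta) for hyperfilter-many i (VC.lt_ball); nu_i(closedBall 0 (|z|+delta) \ A_i) -> 0 (Dens), so ball z delta meets the rescaled A.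
-/

set_option autoImplicit false

open MeasureTheory Filter Topology Metric Set
open scoped RealInnerProductSpace ENNReal

namespace Pool.Agent.RZ

variable {d : ℕ}

private theorem J6b_low {n : ℕ} {C : ℝ} {μ : Measure (X d)}
    {g : Fin d → X d → ℝ} {K F : Set (X d)} {r₀ : ℝ} (h : Std n C μ g K F r₀) {x y : X d}
    (hy : y ∈ F) {r s : ℝ} (hr : 0 < r) (hs : 0 < s) (hrs : r * s ≤ r₀) :
    ENNReal.ofReal (s ^ n / C) ≤ blow n x r μ (closedBall (r⁻¹ • (y - x)) s) := by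
  have hC : 0 < C := lt_of_lt_of_le one_pos h.hC
  rw [blow_closedBall n x hr μ]
  have e1 : x + r • (r⁻¹ • (y - x)) = y := by
    rw [smul_smul, mul_inv_cancel₀ hr.ne', one_smul]
    abel
  rw [e1]
  have h2 := h.low y hy (r * s) (mul_pos hr hs) hrs
  have e2 : ENNReal.ofReal (s ^ n / C)
      = ENNReal.ofReal (r⁻¹ ^ n) * ENNReal.ofReal ((r * s) ^ n / C) := by
    rw [← ENNReal.ofReal_mul (by positivity)]
    congr 1
    rw [mul_pow, inv_pow]
    field_simp
  rw [e2]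
  gcongr

theorem blow_reg {n : ℕ} (hn : 1 ≤ n) (hd : 0 < d) {C : ℝ} {μ : Measure (X d)} [IsFiniteMeasure μ]
    {g : Fin d → X d → ℝ} {K F : Set (X d)} {r₀ : ℝ} (h : Std n C μ g K F r₀) {x : X d}
    (hx : Good n μ g F x) {r : ℕ → ℝ} (hr : ∀ i, 0 < r i)
    (hr0 : Tendsto r (hyperfilter ℕ) (𝓝 0)) :
    ∃ ν' : Measure (X d), VC (fun i => blow n x (r i) μ) ν' ∧ Reg n C ν' ∧ 0 ∈ Supp ν' := by
  have hC0 : 0 ≤ C := le_trans zero_le_one h.hC
  have hgr : ∀ i, Gr n C (blow n x (r i) μ) := fun i => h.gr.blow x (hr i)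
  obtain ⟨ν', hg', hv⟩ := exists_VC hC0 _ hgr
  have hsmall : ∀ s : ℝ, 0 < s → ∀ᶠ i in (hyperfilter ℕ : Filter ℕ), r i * s ≤ r₀ := by
    intro s hs
    have hp : 0 < r₀ / s := div_pos h.pos hs
    have := hr0.eventually (Iio_mem_nhds hp)
    filter_upwards [this] with i hi
    have hi' : r i < r₀ / s := hi
    exact ((lt_div_iff₀ hs).1 hi').le
  have hz : 0 ∈ Supp ν' := by
    refine VC.zero_mem h.hC hgr hg' hv ?_
    intro s hs
    filter_upwards [hsmall s hs] with i hi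
    have := J6b_low (x := x) h hx.mem (hr i) hs hi
    simpa using this
  refine ⟨ν', hv, ⟨hg', ?_, ?_, ?_⟩, hz⟩
  · refine VC.lo h.hC hgr hg' hv ?_
    intro z hz' δ hδ
    filter_upwards [supp_approx h.gr hx.dens hr hr0 hg' hv z hz' δ hδ,
      hsmall δ⁻¹ (inv_pos.2 hδ)] with i hi hi2
    obtain ⟨y, hy, hyz⟩ := hi
    refine ⟨(r i)⁻¹ • (y - x), hyz, ?_⟩
    intro s hs hsδ
    exact J6b_low (x := x) h hy (hr i) hs
      (le_trans (mul_le_mul_of_nonneg_left hsδ (hr i).le) hi2)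
  · exact VC.l2 hn hC0 hgr hg' hv (fun i => h.l2.blow x (hr i))
  · exact refl_limit hn hd hC0 hgr hg' hv
      (fun e => blow_AEq hn hd hC0 h.gr h.hK h.supp h.rep hx.leb hr hr0 e) ⟨0, hz⟩

end Pool.Agent.RZ
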