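import Pool.Agent.RZ.Defs

/-!
K1: elementary bounds of the kernel. With s = sqrt(|z|^2 + eps^2) >= max(|z|, eps), kr = s^{-(n+1)}.
kr_sub_le: s is 1-Lipschitz in z, on the segment from z to z' one has |z_t| >= |z|/2, and
|a^{-(n+1)} - b^{-(n+1)}| <= (n+1) |a-b| min(a,b)^{-(n+2)} (a, b > 0).
kr_eps_diff: s^2 - s'^2 <= eps^2, so s - s' <= eps^2/s', and the same inequality.
-/

set_option autoImplicit false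

open MeasureTheory Filter Topology Metric Set
open scoped RealInnerProductSpace ENNReal

namespace Pool.Agent.RZ

variable {d : ℕ}

theorem K1_abs_le (a ε : ℝ) : |a| ≤ Real.sqrt (a ^ 2 + ε ^ 2) :=
  Real.abs_le_sqrt (by nlinarith [sq_nonneg ε])

theorem K1_eps_le (a ε : ℝ) : |ε| ≤ Real.sqrt (a ^ 2 + ε ^ 2) :=
  Real.abs_le_sqrt (by nlinarith [sq_nonneg a])

theorem K1_pos (a : ℝ) {ε : ℝ} (hε : 0 < ε) : 0 < Real.sqrt (a ^ 2 + ε ^ 2) :=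
  Real.sqrt_pos.2 (by positivity)

/-- the square root is 1-Lipschitz in `a`. -/
theorem K1_lip (a b ε : ℝ) :
    |Real.sqrt (a ^ 2 + ε ^ 2) - Real.sqrt (b ^ 2 + ε ^ 2)| ≤ |a - b| := by
  set s := Real.sqrt (a ^ 2 + ε ^ 2) with hs
  set t := Real.sqrt (b ^ 2 + ε ^ 2) with ht
  have hs2 : s ^ 2 = a ^ 2 + ε ^ 2 := Real.sq_sqrt (by positivity)
  have ht2 : t ^ 2 = b ^ 2 + ε ^ 2 := Real.sq_sqrt (by positivity)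
  have hs0 : 0 ≤ s := Real.sqrt_nonneg _
  have ht0 : 0 ≤ t := Real.sqrt_nonneg _
  have has : |a| ≤ s := K1_abs_le a ε
  have hbt : |b| ≤ t := K1_abs_le b ε
  rcases (add_nonneg hs0 ht0).eq_or_lt with h0 | h0
  · have h1 : s = 0 := by linarith
    have h2 : t = 0 := by linarith
    rw [h1, h2, sub_zero, abs_zero]
    exact abs_nonneg _
  · have h3 : |s - t| * (s + t) ≤ |a - b| * (s + t) := by
      have h4 : |s - t| * (s + t) = |a - b| * |a + b| := by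
        rw [← abs_of_pos h0, ← abs_mul, ← abs_mul]
        congr 1
        nlinarith
      rw [h4]
      exact mul_le_mul_of_nonneg_left ((abs_add_le a b).trans (add_le_add has hbt)) (abs_nonneg _)
    exact le_of_mul_le_mul_right h3 h0

/-- powers of inverses. -/
theorem K1_inv (n : ℕ) {a b m : ℝ} (hm : 0 < m) (ha : m ≤ a) (hb : m ≤ b) :
    |a⁻¹ ^ (n + 1) - b⁻¹ ^ (n + 1)| ≤ (n + 1) * |a - b| * m⁻¹ ^ (n + 2) := by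
  have ha0 : 0 < a := hm.trans_le ha
  have hb0 : 0 < b := hm.trans_le hb
  have hia : a⁻¹ ≤ m⁻¹ := inv_anti₀ hm ha
  have hib : b⁻¹ ≤ m⁻¹ := inv_anti₀ hm hb
  have hia0 : 0 < a⁻¹ := inv_pos.2 ha0
  have hib0 : 0 < b⁻¹ := inv_pos.2 hb0
  have him0 : 0 < m⁻¹ := inv_pos.2 hm
  have h1 := abs_pow_sub_pow_le a⁻¹ b⁻¹ (n + 1)
  have h2 : |a⁻¹ - b⁻¹| ≤ |a - b| * (m⁻¹ * m⁻¹) := by
    have h3 : a⁻¹ - b⁻¹ = -((a - b) * (a⁻¹ * b⁻¹)) := by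
      field_simp
      ring
    rw [h3, abs_neg, abs_mul, abs_of_pos (mul_pos hia0 hib0)]
    exact mul_le_mul_of_nonneg_left (mul_le_mul hia hib hib0.le him0.le) (abs_nonneg _)
  have h4 : max |a⁻¹| |b⁻¹| ^ (n + 1 - 1) ≤ m⁻¹ ^ n := by
    rw [Nat.add_sub_cancel]
    refine pow_le_pow_left₀ (le_max_of_le_left (abs_nonneg _)) ?_ n
    rw [abs_of_pos hia0, abs_of_pos hib0]
    exact max_le hia hib
  refine h1.trans ?_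
  have h5 : |a⁻¹ - b⁻¹| * ((n + 1 : ℕ) : ℝ) * max |a⁻¹| |b⁻¹| ^ (n + 1 - 1)
      ≤ (|a - b| * (m⁻¹ * m⁻¹)) * ((n + 1 : ℕ) : ℝ) * m⁻¹ ^ n := by
    refine mul_le_mul (mul_le_mul_of_nonneg_right h2 (by positivity)) h4
      (pow_nonneg (le_max_of_le_left (abs_nonneg _)) _) (by positivity)
  refine h5.trans (le_of_eq ?_)
  push_cast
  ring

theorem K1_kr (n : ℕ) (ε : ℝ) (z : X d) :
    kr n ε z = (Real.sqrt (‖z‖ ^ 2 + ε ^ 2))⁻¹ ^ (n + 1) := rfl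

theorem kr_nonneg (n : ℕ) (ε : ℝ) (z : X d) : 0 ≤ kr n ε z := by
  rw [K1_kr]; exact pow_nonneg (inv_nonneg.2 (Real.sqrt_nonneg _)) _

theorem kr_pos (n : ℕ) {ε : ℝ} (hε : 0 < ε) (z : X d) : 0 < kr n ε z := by
  rw [K1_kr]; exact pow_pos (inv_pos.2 (K1_pos _ hε)) _

theorem kr_neg (n : ℕ) (ε : ℝ) (z : X d) : kr n ε (-z) = kr n ε z := by
  rw [K1_kr, K1_kr, norm_neg]

theorem kr_comm (n : ℕ) (ε : ℝ) (x y : X d) : kr n ε (x - y) = kr n ε (y - x) := by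
  rw [K1_kr, K1_kr, norm_sub_rev]

theorem kr_continuous (n : ℕ) {ε : ℝ} (hε : 0 < ε) : Continuous (kr n ε : X d → ℝ) := by
  have h : (kr n ε : X d → ℝ) = fun z => (Real.sqrt (‖z‖ ^ 2 + ε ^ 2))⁻¹ ^ (n + 1) := rfl
  rw [h]
  refine Continuous.pow (Continuous.inv₀ ?_ fun z => (K1_pos ‖z‖ hε).ne') _
  exact Real.continuous_sqrt.comp ((continuous_norm.pow 2).add continuous_const)

theorem kr_le_norm (n : ℕ) (ε : ℝ) {z : X d} (hz : z ≠ 0) : kr n ε z ≤ ‖z‖⁻¹ ^ (n + 1) := by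
  rw [K1_kr]
  refine pow_le_pow_left₀ (inv_nonneg.2 (Real.sqrt_nonneg _)) ?_ _
  refine inv_anti₀ (norm_pos_iff.2 hz) ?_
  have h := K1_abs_le ‖z‖ ε
  rwa [abs_of_nonneg (norm_nonneg z)] at h

theorem kr_le_eps (n : ℕ) {ε : ℝ} (hε : 0 < ε) (z : X d) : kr n ε z ≤ ε⁻¹ ^ (n + 1) := by
  rw [K1_kr]
  refine pow_le_pow_left₀ (inv_nonneg.2 (Real.sqrt_nonneg _)) ?_ _
  refine inv_anti₀ hε ?_
  have h := K1_eps_le ‖z‖ ε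
  rwa [abs_of_pos hε] at h

theorem kr_anti (n : ℕ) {ε ε' : ℝ} (hε' : 0 < ε') (h : ε' ≤ ε) (z : X d) :
    kr n ε z ≤ kr n ε' z := by
  rw [K1_kr, K1_kr]
  refine pow_le_pow_left₀ (inv_nonneg.2 (Real.sqrt_nonneg _)) ?_ _
  refine inv_anti₀ (K1_pos _ hε') (Real.sqrt_le_sqrt ?_)
  have h1 : ε' ^ 2 ≤ ε ^ 2 := pow_le_pow_left₀ hε'.le h 2
  linarith

/-- `|z| k_ε(z) ≤ |z|^{-n}`, and `0` at `z = 0`. -/
theorem norm_mul_kr_le (n : ℕ) {ε : ℝ} (hε : 0 < ε) (z : X d) :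
    ‖z‖ * kr n ε z ≤ ‖z‖⁻¹ ^ n := by
  rcases eq_or_ne z 0 with rfl | hz
  · rw [norm_zero, zero_mul]
    exact pow_nonneg (inv_nonneg.2 le_rfl) _
  · have hz0 : 0 < ‖z‖ := norm_pos_iff.2 hz
    calc ‖z‖ * kr n ε z ≤ ‖z‖ * ‖z‖⁻¹ ^ (n + 1) :=
          mul_le_mul_of_nonneg_left (kr_le_norm n ε hz) hz0.le
      _ = ‖z‖⁻¹ ^ n := by
          rw [pow_succ', ← mul_assoc, mul_inv_cancel₀ hz0.ne', one_mul]

theorem norm_mul_kr_le_eps (n : ℕ) {ε : ℝ} (hε : 0 < ε) (z : X d) :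
    ‖z‖ * kr n ε z ≤ ε⁻¹ ^ n := by
  have hs := K1_pos ‖z‖ hε
  have h1 := K1_abs_le ‖z‖ ε
  have h2 := K1_eps_le ‖z‖ ε
  rw [abs_of_nonneg (norm_nonneg z)] at h1
  rw [abs_of_pos hε] at h2
  rw [K1_kr, pow_succ', ← mul_assoc]
  have h3 : ‖z‖ * (Real.sqrt (‖z‖ ^ 2 + ε ^ 2))⁻¹ ≤ 1 := by
    rw [← div_eq_mul_inv]
    exact (div_le_one hs).2 h1
  have h4 : (Real.sqrt (‖z‖ ^ 2 + ε ^ 2))⁻¹ ^ n ≤ ε⁻¹ ^ n :=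
    pow_le_pow_left₀ (inv_nonneg.2 hs.le) (inv_anti₀ hε h2) _
  calc ‖z‖ * (Real.sqrt (‖z‖ ^ 2 + ε ^ 2))⁻¹ * (Real.sqrt (‖z‖ ^ 2 + ε ^ 2))⁻¹ ^ n
      ≤ 1 * ε⁻¹ ^ n := mul_le_mul h3 h4 (pow_nonneg (inv_nonneg.2 hs.le) _) zero_le_one
    _ = ε⁻¹ ^ n := one_mul _

theorem kr_sub_le (n : ℕ) (ε : ℝ) {z z' : X d} (hz : z ≠ 0) (h : ‖z - z'‖ ≤ ‖z‖ / 2) :
    |kr n ε z - kr n ε z'| ≤ ((n + 1) * 2 ^ (n + 2)) * ‖z - z'‖ * ‖z‖⁻¹ ^ (n + 2) := by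
  have hz0 : 0 < ‖z‖ := norm_pos_iff.2 hz
  have hz' : ‖z‖ / 2 ≤ ‖z'‖ := by
    have h1 := norm_sub_norm_le z z'
    linarith
  have h1 := K1_abs_le ‖z‖ ε
  have h2 := K1_abs_le ‖z'‖ ε
  rw [abs_of_nonneg (norm_nonneg _)] at h1 h2
  have h3 := K1_inv n (m := ‖z‖ / 2) (a := Real.sqrt (‖z‖ ^ 2 + ε ^ 2))
    (b := Real.sqrt (‖z'‖ ^ 2 + ε ^ 2)) (by positivity) (by linarith) (by linarith)
  rw [K1_kr, K1_kr]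
  refine h3.trans ?_
  have h4 : |Real.sqrt (‖z‖ ^ 2 + ε ^ 2) - Real.sqrt (‖z'‖ ^ 2 + ε ^ 2)| ≤ ‖z - z'‖ :=
    (K1_lip _ _ ε).trans (abs_norm_sub_norm_le z z')
  have h5 : (‖z‖ / 2)⁻¹ ^ (n + 2) = 2 ^ (n + 2) * ‖z‖⁻¹ ^ (n + 2) := by
    rw [← mul_pow, inv_div, div_eq_mul_inv]
  rw [h5]
  calc ((n : ℝ) + 1) * |Real.sqrt (‖z‖ ^ 2 + ε ^ 2) - Real.sqrt (‖z'‖ ^ 2 + ε ^ 2)|
        * (2 ^ (n + 2) * ‖z‖⁻¹ ^ (n + 2))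
      ≤ ((n : ℝ) + 1) * ‖z - z'‖ * (2 ^ (n + 2) * ‖z‖⁻¹ ^ (n + 2)) := by
        refine mul_le_mul_of_nonneg_right (mul_le_mul_of_nonneg_left h4 (by positivity))
          (by positivity)
    _ = ((n + 1) * 2 ^ (n + 2)) * ‖z - z'‖ * ‖z‖⁻¹ ^ (n + 2) := by ring

/-- difference of the vector kernels `K_ε(z) = k_ε(z) z` in the direction `e`. -/
theorem Kr_sub_le (n : ℕ) (ε : ℝ) {z z' : X d} (e : X d) (he : ‖e‖ ≤ 1) (hz : z ≠ 0)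
    (h : ‖z - z'‖ ≤ ‖z‖ / 2) :
    |⟪e, z⟫ * kr n ε z - ⟪e, z'⟫ * kr n ε z'| ≤
      ((n + 2) * 2 ^ (n + 3)) * ‖z - z'‖ * ‖z‖⁻¹ ^ (n + 1) := by
  have hz0 : 0 < ‖z‖ := norm_pos_iff.2 hz
  have hz' : ‖z‖ / 2 ≤ ‖z'‖ := by
    have h1 := norm_sub_norm_le z z'
    linarith
  have hz'0 : z' ≠ 0 := by
    intro h0
    rw [h0, norm_zero] at hz'
    linarith
  have h1 : ⟪e, z⟫ * kr n ε z - ⟪e, z'⟫ * kr n ε z'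
      = ⟪e, z⟫ * (kr n ε z - kr n ε z') + ⟪e, z - z'⟫ * kr n ε z' := by
    rw [inner_sub_right]; ring
  have h2 : |⟪e, z⟫| ≤ ‖z‖ :=
    (abs_real_inner_le_norm e z).trans (mul_le_of_le_one_left (norm_nonneg _) he)
  have h3 : |⟪e, z - z'⟫| ≤ ‖z - z'‖ :=
    (abs_real_inner_le_norm e (z - z')).trans (mul_le_of_le_one_left (norm_nonneg _) he)
  have h4 : kr n ε z' ≤ 2 ^ (n + 1) * ‖z‖⁻¹ ^ (n + 1) := by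
    refine (kr_le_norm n ε hz'0).trans ?_
    have h5 : (2 : ℝ) ^ (n + 1) * ‖z‖⁻¹ ^ (n + 1) = (‖z‖ / 2)⁻¹ ^ (n + 1) := by
      rw [← mul_pow, inv_div, div_eq_mul_inv]
    rw [h5]
    exact pow_le_pow_left₀ (inv_nonneg.2 (norm_nonneg _)) (inv_anti₀ (by positivity) hz') _
  have h6 := kr_sub_le n ε hz h
  rw [h1]
  refine (abs_add_le _ _).trans ?_
  rw [abs_mul, abs_mul, abs_of_nonneg (kr_nonneg n ε z')]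
  have h7 : |⟪e, z⟫| * |kr n ε z - kr n ε z'|
      ≤ ‖z‖ * (((n + 1) * 2 ^ (n + 2)) * ‖z - z'‖ * ‖z‖⁻¹ ^ (n + 2)) :=
    mul_le_mul h2 h6 (abs_nonneg _) (norm_nonneg _)
  have h8 : |⟪e, z - z'⟫| * kr n ε z' ≤ ‖z - z'‖ * (2 ^ (n + 1) * ‖z‖⁻¹ ^ (n + 1)) :=
    mul_le_mul h3 h4 (kr_nonneg _ _ _) (norm_nonneg _)
  have h9 : ‖z‖ * (((n + 1) * 2 ^ (n + 2)) * ‖z - z'‖ * ‖z‖⁻¹ ^ (n + 2))
      = ((n + 1) * 2 ^ (n + 2)) * ‖z - z'‖ * ‖z‖⁻¹ ^ (n + 1) := by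
    rw [pow_succ' ‖z‖⁻¹ (n + 1)]
    have h10 : ‖z‖ * ‖z‖⁻¹ = 1 := mul_inv_cancel₀ hz0.ne'
    calc ‖z‖ * (((n : ℝ) + 1) * 2 ^ (n + 2) * ‖z - z'‖ * (‖z‖⁻¹ * ‖z‖⁻¹ ^ (n + 1)))
        = (‖z‖ * ‖z‖⁻¹) * (((n : ℝ) + 1) * 2 ^ (n + 2) * ‖z - z'‖ * ‖z‖⁻¹ ^ (n + 1)) := by ring
      _ = ((n : ℝ) + 1) * 2 ^ (n + 2) * ‖z - z'‖ * ‖z‖⁻¹ ^ (n + 1) := by rw [h10, one_mul]
  rw [h9] at h7
  refine (add_le_add h7 h8).trans ?_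
  have hP : 0 ≤ ‖z - z'‖ * ‖z‖⁻¹ ^ (n + 1) := by positivity
  have h2n : (0 : ℝ) < 2 ^ (n + 1) := by positivity
  have h11 : ((n : ℝ) + 1) * 2 ^ (n + 2) * ‖z - z'‖ * ‖z‖⁻¹ ^ (n + 1)
      + ‖z - z'‖ * (2 ^ (n + 1) * ‖z‖⁻¹ ^ (n + 1))
      = (((n : ℝ) + 1) * 2 + 1) * 2 ^ (n + 1) * (‖z - z'‖ * ‖z‖⁻¹ ^ (n + 1)) := by ring
  have h12 : ((n : ℝ) + 2) * 2 ^ (n + 3) * ‖z - z'‖ * ‖z‖⁻¹ ^ (n + 1)
      = ((n : ℝ) + 2) * 4 * 2 ^ (n + 1) * (‖z - z'‖ * ‖z‖⁻¹ ^ (n + 1)) := by ring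
  rw [h11, h12]
  refine mul_le_mul_of_nonneg_right (mul_le_mul_of_nonneg_right ?_ h2n.le) hP
  have hn : (0 : ℝ) ≤ n := Nat.cast_nonneg n
  linarith

theorem kr_eps_diff_nonneg (n : ℕ) {ε ε' : ℝ} (hε' : 0 < ε') (h : ε' ≤ ε) (z : X d) :
    0 ≤ kr n ε' z - kr n ε z := sub_nonneg.2 (kr_anti n hε' h z)

theorem kr_eps_diff (n : ℕ) {ε ε' : ℝ} (hε' : 0 < ε') (h : ε' ≤ ε) {z : X d} (hz : z ≠ 0) :
    kr n ε' z - kr n ε z ≤ (n + 1) * ε ^ 2 * ‖z‖⁻¹ ^ (n + 3) := by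
  have hz0 : 0 < ‖z‖ := norm_pos_iff.2 hz
  set s := Real.sqrt (‖z‖ ^ 2 + ε ^ 2) with hs
  set t := Real.sqrt (‖z‖ ^ 2 + ε' ^ 2) with ht
  have hs2 : s ^ 2 = ‖z‖ ^ 2 + ε ^ 2 := Real.sq_sqrt (by positivity)
  have ht2 : t ^ 2 = ‖z‖ ^ 2 + ε' ^ 2 := Real.sq_sqrt (by positivity)
  have hzs : ‖z‖ ≤ s := by
    have := K1_abs_le ‖z‖ ε
    rwa [abs_of_nonneg (norm_nonneg z)] at this
  have hzt : ‖z‖ ≤ t := by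
    have := K1_abs_le ‖z‖ ε'
    rwa [abs_of_nonneg (norm_nonneg z)] at this
  have h1 := K1_inv n hz0 hzt hzs
  have h2 : |t - s| ≤ ε ^ 2 * ‖z‖⁻¹ := by
    have hst : 0 < s + t := by linarith
    have h3 : |t - s| * (s + t) ≤ ε ^ 2 := by
      have h4 : |t - s| * (s + t) = |t ^ 2 - s ^ 2| := by
        rw [← abs_of_pos hst, ← abs_mul]
        congr 1
        ring
      rw [h4, ht2, hs2, abs_le]
      constructor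
      · nlinarith [sq_nonneg ε']
      · have h1 : ε' ^ 2 ≤ ε ^ 2 := pow_le_pow_left₀ hε'.le h 2
        nlinarith [sq_nonneg ε]
    have h5 : |t - s| * ‖z‖ ≤ ε ^ 2 :=
      (mul_le_mul_of_nonneg_left (by linarith) (abs_nonneg _)).trans h3
    rw [← div_eq_mul_inv]
    exact (le_div_iff₀ hz0).2 h5
  calc kr n ε' z - kr n ε z ≤ |kr n ε' z - kr n ε z| := le_abs_self _
    _ ≤ (n + 1) * |t - s| * ‖z‖⁻¹ ^ (n + 2) := h1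
    _ ≤ (n + 1) * (ε ^ 2 * ‖z‖⁻¹) * ‖z‖⁻¹ ^ (n + 2) :=
        mul_le_mul_of_nonneg_right (mul_le_mul_of_nonneg_left h2 (by positivity)) (by positivity)
    _ = (n + 1) * ε ^ 2 * ‖z‖⁻¹ ^ (n + 3) := by ring

theorem kr_scale (n : ℕ) (ε : ℝ) {r : ℝ} (hr : 0 < r) (z : X d) :
    kr n ε (r⁻¹ • z) = r ^ (n + 1) * kr n (r * ε) z := by
  rw [K1_kr, K1_kr, norm_smul, norm_inv, Real.norm_of_nonneg hr.le]
  have h1 : (r⁻¹ * ‖z‖) ^ 2 + ε ^ 2 = (‖z‖ ^ 2 + (r * ε) ^ 2) * (r⁻¹) ^ 2 := by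
    have h2 : r * r⁻¹ = 1 := mul_inv_cancel₀ hr.ne'
    have h3 : (r * ε) ^ 2 * r⁻¹ ^ 2 = ε ^ 2 := by
      calc (r * ε) ^ 2 * r⁻¹ ^ 2 = (r * r⁻¹) ^ 2 * ε ^ 2 := by ring
        _ = ε ^ 2 := by rw [h2, one_pow, one_mul]
    rw [add_mul, h3]
    ring
  rw [h1, Real.sqrt_mul' _ (by positivity), Real.sqrt_sq (inv_nonneg.2 hr.le), mul_inv, inv_inv,
    mul_pow, mul_comm]

/-- Lipschitz bound with a constant depending on `ε`. -/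
theorem kr_lip (n : ℕ) {ε : ℝ} (hε : 0 < ε) (z z' : X d) :
    |kr n ε z - kr n ε z'| ≤ (n + 1) * ε⁻¹ ^ (n + 2) * ‖z - z'‖ := by
  have h1 := K1_eps_le ‖z‖ ε
  have h2 := K1_eps_le ‖z'‖ ε
  rw [abs_of_pos hε] at h1 h2
  have h3 := K1_inv n hε h1 h2
  rw [K1_kr, K1_kr]
  refine h3.trans ?_
  have h4 : |Real.sqrt (‖z‖ ^ 2 + ε ^ 2) - Real.sqrt (‖z'‖ ^ 2 + ε ^ 2)| ≤ ‖z - z'‖ :=
    (K1_lip _ _ ε).trans (abs_norm_sub_norm_le z z')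
  calc ((n : ℝ) + 1) * |Real.sqrt (‖z‖ ^ 2 + ε ^ 2) - Real.sqrt (‖z'‖ ^ 2 + ε ^ 2)|
        * ε⁻¹ ^ (n + 2)
      ≤ ((n : ℝ) + 1) * ‖z - z'‖ * ε⁻¹ ^ (n + 2) :=
        mul_le_mul_of_nonneg_right (mul_le_mul_of_nonneg_left h4 (by positivity)) (by positivity)
    _ = (n + 1) * ε⁻¹ ^ (n + 2) * ‖z - z'‖ := by ring

/-- comparison of `kr` at two points of distance at most `a`. -/
theorem kr_le_shift (n : ℕ) {ε : ℝ} (hε : 0 < ε) {a : ℝ} (z z' : X d) (h : ‖z - z'‖ ≤ a) :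
    kr n ε z ≤ (1 + a / ε) ^ (n + 1) * kr n ε z' := by
  have ha : 0 ≤ a := (norm_nonneg _).trans h
  rw [K1_kr, K1_kr, ← mul_pow]
  have hs := K1_pos ‖z‖ hε
  have ht := K1_pos ‖z'‖ hε
  have h1 := K1_eps_le ‖z‖ ε
  rw [abs_of_pos hε] at h1
  refine pow_le_pow_left₀ (inv_nonneg.2 hs.le) ?_ _
  have h4 : |Real.sqrt (‖z'‖ ^ 2 + ε ^ 2) - Real.sqrt (‖z‖ ^ 2 + ε ^ 2)| ≤ ‖z - z'‖ := by
    refine (K1_lip _ _ ε).trans ?_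
    rw [norm_sub_rev]
    exact abs_norm_sub_norm_le z' z
  have h5 : Real.sqrt (‖z'‖ ^ 2 + ε ^ 2) ≤ Real.sqrt (‖z‖ ^ 2 + ε ^ 2) + a := by
    have := (abs_le.1 h4).2
    linarith
  have h6 : a ≤ a / ε * Real.sqrt (‖z‖ ^ 2 + ε ^ 2) := by
    calc a = a / ε * ε := (div_mul_cancel₀ a hε.ne').symm
      _ ≤ a / ε * Real.sqrt (‖z‖ ^ 2 + ε ^ 2) := mul_le_mul_of_nonneg_left h1 (by positivity)
  have h7 : Real.sqrt (‖z'‖ ^ 2 + ε ^ 2) ≤ (1 + a / ε) * Real.sqrt (‖z‖ ^ 2 + ε ^ 2) := by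
    linarith
  rw [← div_eq_mul_inv, ← one_div, div_le_div_iff₀ hs ht, one_mul]
  exact h7

end Pool.Agent.RZ
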