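import Pool.Agent.RZ.Gr1

/-!
L1: the operator Lam.
Lam psi (y) = psi(y) int k_eps(x-y) dnu(x) - int psi(x) k_eps(x-y) dnu(x).
Continuity: kr is Lipschitz with kr(x - y') <= (1 + |y-y'|/eps)^{n+1} kr(x - y), dominated convergence.
lam_far: if |y| >= 2 rho, Lam psi(y) = - int psi(x) (k(x-y) - k(-y)) dnu(x)  (mean value zero), |psi| <= L rho on the ball of
radius rho (mass <= C rho^n), kr_sub_le with z = -y, z' = x - y.
lam_bound: for |y| <= 2 rho: |Lam| <= 2 L rho int k_eps <= 2 L rho A C/eps.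
-/

set_option autoImplicit false

open MeasureTheory Filter Topology Metric Set
open scoped RealInnerProductSpace ENNReal

namespace Pool.Agent.RZ

variable {d : ℕ}

private theorem L1_kri {n : ℕ} (hn : 1 ≤ n) {C : ℝ} (hC : 0 ≤ C) {ν : Measure (X d)}
    (h : Gr n C ν) {ε : ℝ} (hε : 0 < ε) (y : X d) : Integrable (fun x => kr n ε (x - y)) ν := by
  obtain ⟨A, hA, H⟩ := Gr.kr_integrable (d := d) n hn
  exact (H C hC ν h y ε hε).1

private theorem L1_krc (n : ℕ) {ε : ℝ} (hε : 0 < ε) (y : X d) :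
    Continuous (fun x : X d => kr n ε (x - y)) :=
  (kr_continuous n hε).comp (continuous_id.sub continuous_const)

private theorem L1_psi {n : ℕ} {C : ℝ} {ν : Measure (X d)}
    (h : Gr n C ν) {ε : ℝ} (hε : 0 < ε) {L ρ : ℝ} {ψ : X d → ℝ} (hψ : Tst L ρ ψ) (y : X d) :
    Integrable (fun x => ψ x * kr n ε (x - y)) ν := by
  haveI := h.isLocallyFinite
  refine Continuous.integrable_of_hasCompactSupport ?_ ?_
  · exact hψ.continuous.mul (L1_krc n hε y)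
  · exact hψ.hasCompactSupport.mul_right

theorem lam_eq {n : ℕ} (hn : 1 ≤ n) {C : ℝ} (hC : 0 ≤ C) {ν : Measure (X d)} (h : Gr n C ν)
    {ε : ℝ} (hε : 0 < ε) {L ρ : ℝ} {ψ : X d → ℝ} (hψ : Tst L ρ ψ) (y : X d) :
    Lam n ε ν ψ y = ψ y * (∫ x, kr n ε (x - y) ∂ν) - ∫ x, ψ x * kr n ε (x - y) ∂ν := by
  unfold Lam
  rw [← integral_const_mul, ← integral_sub ((L1_kri hn hC h hε y).const_mul (ψ y))
    (L1_psi h hε hψ y)]
  refine integral_congr_ae (Eventually.of_forall fun x => ?_)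
  simp only
  ring

theorem lam_integrable {n : ℕ} (hn : 1 ≤ n) {C : ℝ} (hC : 0 ≤ C) {ν : Measure (X d)}
    (h : Gr n C ν) {ε : ℝ} (hε : 0 < ε) {L ρ : ℝ} {ψ : X d → ℝ} (hψ : Tst L ρ ψ) (y : X d) :
    Integrable (fun x => (ψ y - ψ x) * kr n ε (x - y)) ν := by
  have h1 := ((L1_kri hn hC h hε y).const_mul (ψ y)).sub (L1_psi h hε hψ y)
  refine h1.congr (Eventually.of_forall fun x => ?_)
  simp only [Pi.sub_apply]
  ring

private theorem L1_shift {n : ℕ} {ε : ℝ} (hε : 0 < ε) (x y y0 : X d) (hy : ‖y - y0‖ ≤ 1) :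
    kr n ε (x - y) ≤ (1 + 1 / ε) ^ (n + 1) * kr n ε (x - y0) := by
  refine kr_le_shift n hε _ _ ?_
  have : (x - y) - (x - y0) = -(y - y0) := by abel
  rw [this, norm_neg]
  exact hy

theorem lam_continuous {n : ℕ} (hn : 1 ≤ n) {C : ℝ} (hC : 0 ≤ C) {ν : Measure (X d)}
    (h : Gr n C ν) {ε : ℝ} (hε : 0 < ε) {L ρ : ℝ} {ψ : X d → ℝ} (hψ : Tst L ρ ψ) :
    Continuous (Lam n ε ν ψ) := by
  have e1 : Lam n ε ν ψ = fun y => ψ y * (∫ x, kr n ε (x - y) ∂ν) -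
      ∫ x, ψ x * kr n ε (x - y) ∂ν := funext fun y => lam_eq hn hC h hε hψ y
  rw [e1]
  have hball : ∀ y0 : X d, ∀ᶠ y in 𝓝 y0, ‖y - y0‖ ≤ 1 := fun y0 => by
    filter_upwards [Metric.closedBall_mem_nhds y0 one_pos] with y hy
    rwa [mem_closedBall, dist_eq_norm] at hy
  have hc1 : ∀ x : X d, Continuous (fun y : X d => kr n ε (x - y)) := fun x =>
    (kr_continuous n hε).comp (continuous_const.sub continuous_id)
  refine Continuous.sub (hψ.continuous.mul ?_) ?_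
  · refine continuous_iff_continuousAt.2 fun y0 => ?_
    refine continuousAt_of_dominated
      (bound := fun x => (1 + 1 / ε) ^ (n + 1) * kr n ε (x - y0)) ?_ ?_ ?_ ?_
    · exact Eventually.of_forall fun y => (L1_krc n hε y).aestronglyMeasurable
    · filter_upwards [hball y0] with y hy
      refine Eventually.of_forall fun x => ?_
      rw [Real.norm_eq_abs, abs_of_nonneg (kr_nonneg n ε _)]
      exact L1_shift hε x y y0 hy
    · exact (L1_kri hn hC h hε y0).const_mul _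
    · exact Eventually.of_forall fun x => (hc1 x).continuousAt
  · refine continuous_iff_continuousAt.2 fun y0 => ?_
    refine continuousAt_of_dominated
      (bound := fun x => (1 + 1 / ε) ^ (n + 1) * |ψ x * kr n ε (x - y0)|) ?_ ?_ ?_ ?_
    · exact Eventually.of_forall fun y =>
        (hψ.continuous.mul (L1_krc n hε y)).aestronglyMeasurable
    · filter_upwards [hball y0] with y hy
      refine Eventually.of_forall fun x => ?_
      rw [Real.norm_eq_abs, abs_mul, abs_mul, abs_of_nonneg (kr_nonneg n ε (x - y)),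
        abs_of_nonneg (kr_nonneg n ε (x - y0))]
      have h1 := mul_le_mul_of_nonneg_left (L1_shift (n := n) hε x y y0 hy) (abs_nonneg (ψ x))
      linarith
    · exact (L1_psi h hε hψ y0).abs.const_mul _
    · exact Eventually.of_forall fun x => (continuous_const.mul (hc1 x)).continuousAt

/-- decay, uniformly in `ε` -/
theorem lam_far (n : ℕ) (hn : 1 ≤ n) (hd : 0 < d) : ∃ A : ℝ, 0 < A ∧ ∀ (C : ℝ), 0 ≤ C →
    ∀ ν : Measure (X d), Gr n C ν → ∀ (L ρ : ℝ), 0 ≤ L → 0 < ρ → ∀ ψ : X d → ℝ, Tst L ρ ψ →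
      ∫ x, ψ x ∂ν = 0 → ∀ ε : ℝ, 0 < ε → ∀ y : X d, 2 * ρ ≤ ‖y‖ →
        |Lam n ε ν ψ y| ≤ A * C * L * ρ ^ (n + 2) * ‖y‖⁻¹ ^ (n + 2) := by
  refine ⟨(n + 1) * 2 ^ (n + 2), by positivity, ?_⟩
  intro C hC ν h L ρ hL hρ ψ hψ h0 ε hε y hy
  haveI := h.isLocallyFinite
  have hyp : 0 < ‖y‖ := by linarith
  have hy0 : -y ≠ 0 := by
    rw [neg_ne_zero]
    exact norm_pos_iff.1 hyp
  have hψy : ψ y = 0 := hψ.supp y (by linarith)
  have hψi : Integrable ψ ν :=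
    Continuous.integrable_of_hasCompactSupport hψ.continuous hψ.hasCompactSupport
  have e1 : Lam n ε ν ψ y = - ∫ x, ψ x * (kr n ε (x - y) - kr n ε (-y)) ∂ν := by
    rw [lam_eq hn hC h hε hψ y, hψy, zero_mul, zero_sub]
    have e2 : ∫ x, ψ x * (kr n ε (x - y) - kr n ε (-y)) ∂ν =
        (∫ x, ψ x * kr n ε (x - y) ∂ν) - ∫ x, ψ x * kr n ε (-y) ∂ν := by
      rw [← integral_sub (L1_psi h hε hψ y) (hψi.mul_const _)]
      refine integral_congr_ae (Eventually.of_forall fun x => ?_)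
      simp only
      ring
    rw [e2, integral_mul_const, h0, zero_mul, sub_zero]
  rw [e1, abs_neg]
  have e3 : ∫ x, ψ x * (kr n ε (x - y) - kr n ε (-y)) ∂ν =
      ∫ x in closedBall 0 ρ, ψ x * (kr n ε (x - y) - kr n ε (-y)) ∂ν := by
    refine (setIntegral_eq_integral_of_forall_compl_eq_zero fun x hx => ?_).symm
    rw [mem_closedBall, dist_zero_right, not_le] at hx
    rw [hψ.supp x hx, zero_mul]
  rw [e3, ← Real.norm_eq_abs]
  have hM : ∀ x ∈ closedBall (0 : X d) ρ, ‖ψ x * (kr n ε (x - y) - kr n ε (-y))‖ ≤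
      (L * ρ) * (((n + 1) * 2 ^ (n + 2)) * ρ * ‖y‖⁻¹ ^ (n + 2)) := by
    intro x hx
    rw [mem_closedBall, dist_zero_right] at hx
    rw [norm_mul, Real.norm_eq_abs, Real.norm_eq_abs]
    refine mul_le_mul (hψ.abs_le hL hρ hd x) ?_ (abs_nonneg _) (by positivity)
    have hz : -y - (x - y) = -x := by abel
    have h1 := kr_sub_le n ε (z := -y) (z' := x - y) hy0 (by
      rw [hz, norm_neg, norm_neg]
      linarith)
    rw [hz, norm_neg, norm_neg, abs_sub_comm] at h1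
    refine h1.trans ?_
    gcongr
  have h2 := norm_setIntegral_le_of_norm_le_const (h.finite 0 ρ) hM
  refine h2.trans ?_
  have h3 := h.real_le hC 0 hρ
  have h4 : (L * ρ) * (((n + 1) * 2 ^ (n + 2)) * ρ * ‖y‖⁻¹ ^ (n + 2)) *
      ν.real (closedBall 0 ρ) ≤
      (L * ρ) * (((n + 1) * 2 ^ (n + 2)) * ρ * ‖y‖⁻¹ ^ (n + 2)) * (C * ρ ^ n) :=
    mul_le_mul_of_nonneg_left h3 (by positivity)
  refine h4.trans (le_of_eq ?_)
  ring

/-- global bound for fixed `ε` -/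
theorem lam_bound (n : ℕ) (hn : 1 ≤ n) (hd : 0 < d) (C L ρ ε : ℝ) (hC : 0 ≤ C) (hL : 0 ≤ L)
    (hρ : 0 < ρ) (hε : 0 < ε) : ∃ B : ℝ, 0 < B ∧ ∀ ν : Measure (X d), Gr n C ν →
      ∀ ψ : X d → ℝ, Tst L ρ ψ → ∫ x, ψ x ∂ν = 0 → ∀ y : X d,
        |Lam n ε ν ψ y| ≤ B * (1 + ‖y‖)⁻¹ ^ (n + 2) := by
  obtain ⟨A, hA, HA⟩ := lam_far (d := d) n hn hd
  obtain ⟨A', hA', HA'⟩ := Gr.kr_integrable (d := d) n hn
  refine ⟨A * C * L * ρ ^ (n + 2) * (1 + (2 * ρ)⁻¹) ^ (n + 2) +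
    2 * (L * ρ) * (A' * C * ε⁻¹) * (1 + 2 * ρ) ^ (n + 2) + 1, by positivity, ?_⟩
  intro ν h ψ hψ h0 y
  have hP : 0 ≤ (1 + ‖y‖)⁻¹ ^ (n + 2) := by positivity
  have hT1 : 0 ≤ A * C * L * ρ ^ (n + 2) * (1 + (2 * ρ)⁻¹) ^ (n + 2) := by positivity
  have hT2 : 0 ≤ 2 * (L * ρ) * (A' * C * ε⁻¹) * (1 + 2 * ρ) ^ (n + 2) := by positivity
  rcases le_total (2 * ρ) ‖y‖ with hy | hy
  · have h1 := HA C hC ν h L ρ hL hρ ψ hψ h0 ε hε y hy
    have hyp : 0 < ‖y‖ := by linarith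
    have h2 : ‖y‖⁻¹ ≤ (1 + (2 * ρ)⁻¹) * (1 + ‖y‖)⁻¹ := by
      rw [← div_eq_mul_inv, le_div_iff₀ (by positivity), inv_mul_le_iff₀ hyp]
      have h3 : (1 : ℝ) ≤ (2 * ρ)⁻¹ * ‖y‖ := by
        rw [inv_mul_eq_div, le_div_iff₀ (by positivity)]
        linarith
      nlinarith
    have h4 : ‖y‖⁻¹ ^ (n + 2) ≤ (1 + (2 * ρ)⁻¹) ^ (n + 2) * (1 + ‖y‖)⁻¹ ^ (n + 2) := by
      rw [← mul_pow]
      exact pow_le_pow_left₀ (by positivity) h2 _
    have h5 : A * C * L * ρ ^ (n + 2) * ‖y‖⁻¹ ^ (n + 2) ≤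
        A * C * L * ρ ^ (n + 2) * ((1 + (2 * ρ)⁻¹) ^ (n + 2) * (1 + ‖y‖)⁻¹ ^ (n + 2)) :=
      mul_le_mul_of_nonneg_left h4 (by positivity)
    have h6 : 0 ≤ (2 * (L * ρ) * (A' * C * ε⁻¹) * (1 + 2 * ρ) ^ (n + 2) + 1) *
        (1 + ‖y‖)⁻¹ ^ (n + 2) := by positivity
    nlinarith [h1, h5, h6]
  · have hki := HA' C hC ν h y ε hε
    have h1 : |Lam n ε ν ψ y| ≤ 2 * (L * ρ) * (A' * C * ε⁻¹) := by
      unfold Lam
      rw [← Real.norm_eq_abs]
      have h2 : ‖∫ x, (ψ y - ψ x) * kr n ε (x - y) ∂ν‖ ≤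
          ∫ x, 2 * (L * ρ) * kr n ε (x - y) ∂ν := by
        refine norm_integral_le_of_norm_le (hki.1.const_mul _) (Eventually.of_forall fun x => ?_)
        rw [norm_mul, Real.norm_eq_abs, Real.norm_eq_abs, abs_of_nonneg (kr_nonneg n ε _)]
        refine mul_le_mul_of_nonneg_right ?_ (kr_nonneg n ε _)
        have h3 := hψ.abs_le hL hρ hd x
        have h4 := hψ.abs_le hL hρ hd y
        have h5 := abs_sub (ψ y) (ψ x)
        linarith
      rw [integral_const_mul] at h2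
      exact h2.trans (mul_le_mul_of_nonneg_left hki.2 (by positivity))
    have h2 : (1 : ℝ) ≤ (1 + 2 * ρ) ^ (n + 2) * (1 + ‖y‖)⁻¹ ^ (n + 2) := by
      rw [← mul_pow]
      refine one_le_pow₀ ?_
      rw [← div_eq_mul_inv, le_div_iff₀ (by positivity)]
      linarith
    have h3 : 2 * (L * ρ) * (A' * C * ε⁻¹) ≤ 2 * (L * ρ) * (A' * C * ε⁻¹) *
        ((1 + 2 * ρ) ^ (n + 2) * (1 + ‖y‖)⁻¹ ^ (n + 2)) :=
      le_mul_of_one_le_right (by positivity) h2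
    have h6 : 0 ≤ (A * C * L * ρ ^ (n + 2) * (1 + (2 * ρ)⁻¹) ^ (n + 2) + 1) *
        (1 + ‖y‖)⁻¹ ^ (n + 2) := by positivity
    nlinarith [h1, h3, h6]

/-- linearity -/
theorem lam_add {n : ℕ} (hn : 1 ≤ n) {C : ℝ} (hC : 0 ≤ C) {ν : Measure (X d)} (h : Gr n C ν)
    {ε : ℝ} (hε : 0 < ε) {L ρ L' ρ' : ℝ} {ψ φ : X d → ℝ} (hψ : Tst L ρ ψ) (hφ : Tst L' ρ' φ)
    (a b : ℝ) (y : X d) :
    Lam n ε ν (fun x => a * ψ x + b * φ x) y = a * Lam n ε ν ψ y + b * Lam n ε ν φ y := by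
  unfold Lam
  rw [← integral_const_mul, ← integral_const_mul,
    ← integral_add ((lam_integrable hn hC h hε hψ y).const_mul a)
      ((lam_integrable hn hC h hε hφ y).const_mul b)]
  refine integral_congr_ae (Eventually.of_forall fun x => ?_)
  simp only
  ring

end Pool.Agent.RZ
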