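import Pool.Agent.RZ.L1

/-!
L2: summation by parts. B = closedBall 0 rho', rho' >= 2 rho.
int u Lam psi = int_{y in B} int_{x in B} u(y)(psi(y)-psi(x)) k + int_{y in B} int_{x notin B} u(y) psi(y) k + int_{y notin B} u Lam psi,
the first term is symmetrised (Fubini for the finite measure nu|B, all functions continuous).
bridge: u = <e,.>, chi = cut R', R' >= 2 rho:
int u Lam psi = Qf(chi,psi) + iint psi(x) u(x) (1-chi(y)) k(x-y) + int (1-chi) u Lam psi, and (for R' >= 2 rho) |1 - chi(y)| <= 1_{|y| >= R'},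
|y-x| >= R'/2: bounds by Gr.tail (a = 1) and lam_far.
-/

set_option autoImplicit false

open MeasureTheory Filter Topology Metric Set
open scoped RealInnerProductSpace ENNReal

namespace Pool.Agent.RZ

variable {d : ℕ}

private theorem L2_int {n : ℕ} (hn : 1 ≤ n) (hd : 0 < d) {C : ℝ} (hC : 0 ≤ C)
    {ν : Measure (X d)}
    (h : Gr n C ν) {ε : ℝ} (hε : 0 < ε) {L ρ : ℝ} (hL : 0 ≤ L) (hρ : 0 < ρ)
    {ψ : X d → ℝ} (hψ : Tst L ρ ψ) (h0 : ∫ x, ψ x ∂ν = 0) {u : X d → ℝ} (hu : Continuous u)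
    {M : ℝ} (hM : 0 ≤ M)
    (huM : ∀ r, 1 ≤ r → ∫ y in closedBall 0 r, u y ^ 2 ∂ν ≤ M * r ^ (n + 3)) :
    Integrable (fun y => u y * Lam n ε ν ψ y) ν := by
  obtain ⟨A, hA, HA⟩ := Gr.weight (d := d) n hn
  obtain ⟨B, hB, HB⟩ := lam_bound (d := d) n hn hd C L ρ ε hC hL hρ hε
  have h1 := (HA C hC ν h u hu M hM huM).1
  refine (h1.const_mul B).mono'
    (hu.mul (lam_continuous hn hC h hε hψ)).aestronglyMeasurable
    (Eventually.of_forall fun y => ?_)
  rw [norm_mul, Real.norm_eq_abs, Real.norm_eq_abs]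
  have h2 := mul_le_mul_of_nonneg_left (HB ν h ψ hψ h0 y) (abs_nonneg (u y))
  refine h2.trans (le_of_eq ?_)
  ring

private theorem L2_prod {ν : Measure (X d)} [IsLocallyFiniteMeasure ν] {F : X d × X d → ℝ}
    (hF : Continuous F) {a b : ℝ} (h0 : ∀ p : X d × X d, a < ‖p.1‖ ∨ b < ‖p.2‖ → F p = 0) :
    Integrable F (ν.prod ν) := by
  refine hF.integrable_of_hasCompactSupport ?_
  refine HasCompactSupport.intro
    ((isCompact_closedBall (0 : X d) a).prod (isCompact_closedBall (0 : X d) b)) fun p hp => ?_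
  refine h0 p ?_
  by_contra hc
  rw [not_or, not_lt, not_lt] at hc
  exact hp ⟨by simpa using hc.1, by simpa using hc.2⟩

theorem sum_parts {n : ℕ} (hn : 1 ≤ n) (hd : 0 < d) {C : ℝ} (hC : 0 ≤ C) {ν : Measure (X d)}
    (h : Gr n C ν) {ε : ℝ} (hε : 0 < ε) {L ρ ρ' : ℝ} (hL : 0 ≤ L) (hρ : 0 < ρ) (hρ' : 2 * ρ ≤ ρ')
    {ψ : X d → ℝ} (hψ : Tst L ρ ψ) (h0 : ∫ x, ψ x ∂ν = 0) {u : X d → ℝ} (hu : Continuous u)
    {M : ℝ} (hM : 0 ≤ M)
    (huM : ∀ r, 1 ≤ r → ∫ y in closedBall 0 r, u y ^ 2 ∂ν ≤ M * r ^ (n + 3)) :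
    ∫ y, u y * Lam n ε ν ψ y ∂ν =
      (1 / 2) * (∫ y in closedBall 0 ρ', ∫ x in closedBall 0 ρ',
        (u y - u x) * (ψ y - ψ x) * kr n ε (x - y) ∂ν ∂ν)
      + (∫ y in closedBall 0 ρ', u y * ψ y * (∫ x in (closedBall 0 ρ')ᶜ, kr n ε (x - y) ∂ν) ∂ν)
      + ∫ y in (closedBall 0 ρ')ᶜ, u y * Lam n ε ν ψ y ∂ν := by
  haveI := h.isLocallyFinite
  have hB : MeasurableSet (closedBall (0 : X d) ρ') := measurableSet_closedBall
  have hI := L2_int hn hd hC h hε hL hρ hψ h0 hu hM huM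
  rw [← integral_add_compl hB hI]
  congr 1
  have hkc : Continuous fun p : X d × X d => kr n ε (p.2 - p.1) :=
    (kr_continuous n hε).comp (continuous_snd.sub continuous_fst)
  have hFc : Continuous fun p : X d × X d => u p.1 * (ψ p.1 - ψ p.2) * kr n ε (p.2 - p.1) :=
    ((hu.comp continuous_fst).mul ((hψ.continuous.comp continuous_fst).sub
      (hψ.continuous.comp continuous_snd))).mul hkc
  set μ : Measure (X d) := ν.restrict (closedBall 0 ρ') with hμ
  have hFi : Integrable (fun p : X d × X d => u p.1 * (ψ p.1 - ψ p.2) * kr n ε (p.2 - p.1))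
      (μ.prod μ) := by
    rw [hμ, Measure.prod_restrict]
    exact hFc.continuousOn.integrableOn_compact
      ((isCompact_closedBall (0 : X d) ρ').prod (isCompact_closedBall (0 : X d) ρ'))
  have hJi : Integrable (fun y => ∫ x, u y * (ψ y - ψ x) * kr n ε (x - y) ∂μ) μ :=
    hFi.integral_prod_left
  -- the splitting of `Lam` on the ball
  have hsplit : ∀ y, u y * Lam n ε ν ψ y =
      (∫ x, u y * (ψ y - ψ x) * kr n ε (x - y) ∂μ) +
        u y * ψ y * ∫ x in (closedBall 0 ρ')ᶜ, kr n ε (x - y) ∂ν := by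
    intro y
    have e1 : Lam n ε ν ψ y = (∫ x in closedBall 0 ρ', (ψ y - ψ x) * kr n ε (x - y) ∂ν) +
        ∫ x in (closedBall 0 ρ')ᶜ, (ψ y - ψ x) * kr n ε (x - y) ∂ν :=
      (integral_add_compl hB (lam_integrable hn hC h hε hψ y)).symm
    have e2 : ∫ x in (closedBall 0 ρ')ᶜ, (ψ y - ψ x) * kr n ε (x - y) ∂ν =
        ψ y * ∫ x in (closedBall 0 ρ')ᶜ, kr n ε (x - y) ∂ν := by
      rw [← integral_const_mul]
      refine setIntegral_congr_fun hB.compl fun x hx => ?_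
      have hx' : ρ < ‖x‖ := by
        have : ρ' < ‖x‖ := by simpa using hx
        linarith
      rw [hψ.supp x hx', sub_zero]
    rw [e1, e2, mul_add]
    congr 1
    · rw [← integral_const_mul]
      refine integral_congr_ae (Eventually.of_forall fun x => ?_)
      simp only
      ring
    · ring
  have hKi : Integrable (fun y => u y * ψ y * ∫ x in (closedBall 0 ρ')ᶜ, kr n ε (x - y) ∂ν) μ := by
    have h1 := (hI.restrict (s := closedBall (0 : X d) ρ')).sub hJi
    refine h1.congr (Eventually.of_forall fun y => ?_)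
    simp only [Pi.sub_apply]
    rw [hsplit y]
    ring
  have e3 : ∫ y, u y * Lam n ε ν ψ y ∂μ =
      (∫ y, (∫ x, u y * (ψ y - ψ x) * kr n ε (x - y) ∂μ) ∂μ) +
        ∫ y, u y * ψ y * (∫ x in (closedBall 0 ρ')ᶜ, kr n ε (x - y) ∂ν) ∂μ := by
    rw [← integral_add hJi hKi]
    exact integral_congr_ae (Eventually.of_forall fun y => hsplit y)
  rw [e3]
  congr 1
  -- symmetrisation
  have e4 : ∫ y, (∫ x, u y * (ψ y - ψ x) * kr n ε (x - y) ∂μ) ∂μ =
      ∫ y, (∫ x, u x * (ψ x - ψ y) * kr n ε (x - y) ∂μ) ∂μ := by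
    have h1 := integral_integral_swap (f := fun y x => u y * (ψ y - ψ x) * kr n ε (x - y))
      (μ := μ) (ν := μ) hFi
    rw [h1]
    refine integral_congr_ae (Eventually.of_forall fun y => ?_)
    refine integral_congr_ae (Eventually.of_forall fun x => ?_)
    simp only
    rw [kr_comm n ε y x]
  have hFi' : Integrable (fun p : X d × X d => u p.2 * (ψ p.2 - ψ p.1) * kr n ε (p.2 - p.1))
      (μ.prod μ) := by
    have h1 := hFi.swap
    refine h1.congr (Eventually.of_forall fun p => ?_)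
    simp only [Function.comp, Prod.fst_swap, Prod.snd_swap]
    rw [kr_comm n ε p.1 p.2]
  have hJi' : Integrable (fun y => ∫ x, u x * (ψ x - ψ y) * kr n ε (x - y) ∂μ) μ :=
    hFi'.integral_prod_left
  have e5 : (∫ y, (∫ x, u y * (ψ y - ψ x) * kr n ε (x - y) ∂μ) ∂μ) +
      (∫ y, (∫ x, u x * (ψ x - ψ y) * kr n ε (x - y) ∂μ) ∂μ) =
      ∫ y, (∫ x, (u y - u x) * (ψ y - ψ x) * kr n ε (x - y) ∂μ) ∂μ := by
    rw [← integral_add hJi hJi']
    have a1 := hFi.prod_right_ae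
    have a2 := hFi'.prod_right_ae
    refine integral_congr_ae ?_
    filter_upwards [a1, a2] with y h1 h2
    rw [← integral_add h1 h2]
    refine integral_congr_ae (Eventually.of_forall fun x => ?_)
    simp only
    ring
  rw [← e5, ← e4]
  ring

theorem bridge {n : ℕ} (hn : 1 ≤ n) (hd : 0 < d) {C : ℝ} (hC : 0 ≤ C) {ν : Measure (X d)}
    (h : Gr n C ν) {L ρ : ℝ} (hL : 0 ≤ L) (hρ : 0 < ρ) {ψ : X d → ℝ} (hψ : Tst L ρ ψ)
    (h0 : ∫ x, ψ x ∂ν = 0) (e : X d) :
    ∃ B : ℝ, ∀ ε : ℝ, 0 < ε → ∀ R : ℝ, 2 * ρ ≤ R →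
      |(∫ y, ⟪e, y⟫ * Lam n ε ν ψ y ∂ν) - Qf n ε ν e (cut R) ψ| ≤ B / R := by
  haveI := h.isLocallyFinite
  obtain ⟨A, hA, HA⟩ := Gr.tail (d := d) n 1 hn le_rfl
  obtain ⟨A', hA', HA'⟩ := lam_far (d := d) n hn hd
  refine ⟨(L * ρ) * (‖e‖ * ρ) * (A * C * 2) * (C * ρ ^ n) +
    (‖e‖ * (A' * C * L * ρ ^ (n + 2))) * (A * C), ?_⟩
  intro ε hε R hR
  have hR0 : 0 < R := by linarith
  have hchi1 : ∀ y : X d, ‖y‖ ≤ R → cut R y = 1 := fun y hy => cut_eq_one hR0 hy
  have hec : Continuous fun y : X d => ⟪e, y⟫ := continuous_const.inner continuous_id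
  have hcc : Continuous (cut R : X d → ℝ) := cut_continuous hR0
  have heb : ∀ y : X d, |⟪e, y⟫| ≤ ‖e‖ * ‖y‖ := fun y => abs_real_inner_le_norm e y
  -- integrability
  have hI : Integrable (fun y => ⟪e, y⟫ * Lam n ε ν ψ y) ν := by
    refine L2_int hn hd hC h hε hL hρ hψ h0 hec (M := ‖e‖ ^ 2 * C) (by positivity) fun r hr => ?_
    have hr0 : 0 < r := by linarith
    have h1 : ∀ y ∈ closedBall (0 : X d) r, ‖⟪e, y⟫ ^ 2‖ ≤ ‖e‖ ^ 2 * r ^ 2 := by
      intro y hy
      rw [mem_closedBall, dist_zero_right] at hy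
      rw [norm_pow, Real.norm_eq_abs, ← mul_pow]
      exact pow_le_pow_left₀ (abs_nonneg _) ((heb y).trans
        (mul_le_mul_of_nonneg_left hy (norm_nonneg e))) 2
    have h2 := norm_setIntegral_le_of_norm_le_const (h.finite 0 r) h1
    have h3 := h.real_le hC 0 hr0
    have h4 : ‖e‖ ^ 2 * r ^ 2 * ν.real (closedBall 0 r) ≤ ‖e‖ ^ 2 * r ^ 2 * (C * r ^ n) :=
      mul_le_mul_of_nonneg_left h3 (by positivity)
    have h5 : ‖e‖ ^ 2 * r ^ 2 * (C * r ^ n) ≤ ‖e‖ ^ 2 * C * r ^ (n + 3) := by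
      have : r ^ (n + 3) = r ^ 2 * r ^ n * r := by ring
      rw [this]
      have h6 : 0 ≤ ‖e‖ ^ 2 * C * (r ^ 2 * r ^ n) := by positivity
      nlinarith
    exact (le_abs_self _).trans ((Real.norm_eq_abs _ ▸ h2).trans (h4.trans h5))
  have hLc := lam_continuous hn hC h hε hψ
  have hI1 : Integrable (fun y => cut R y * (⟪e, y⟫ * Lam n ε ν ψ y)) ν := by
    refine (hcc.mul (hec.mul hLc)).integrable_of_hasCompactSupport ?_
    exact (cut_hasCompactSupport hR0).mul_right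
  have hI2 : Integrable (fun y => (1 - cut R y) * (⟪e, y⟫ * Lam n ε ν ψ y)) ν := by
    refine (hI.sub hI1).congr (Eventually.of_forall fun y => ?_)
    simp only [Pi.sub_apply]
    ring
  have E1 : ∫ y, ⟪e, y⟫ * Lam n ε ν ψ y ∂ν =
      (∫ y, cut R y * (⟪e, y⟫ * Lam n ε ν ψ y) ∂ν) +
        ∫ y, (1 - cut R y) * (⟪e, y⟫ * Lam n ε ν ψ y) ∂ν := by
    rw [← integral_add hI1 hI2]
    refine integral_congr_ae (Eventually.of_forall fun y => ?_)
    simp only
    ring
  have hkc : Continuous fun p : X d × X d => kr n ε (p.1 - p.2) :=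
    (kr_continuous n hε).comp (continuous_fst.sub continuous_snd)
  have hcz : ∀ y : X d, 2 * R < ‖y‖ → cut R y = 0 := fun y hy => cut_eq_zero hR0 hy.le
  -- `p.1 = x`, `p.2 = y`
  have hP : Integrable (fun p : X d × X d =>
      ψ p.1 * (cut R p.2 * (⟪e, p.2⟫ * kr n ε (p.1 - p.2)))) (ν.prod ν) := by
    refine L2_prod (a := ρ) (b := 2 * R) ?_ ?_
    · exact (hψ.continuous.comp continuous_fst).mul ((hcc.comp continuous_snd).mul
        ((hec.comp continuous_snd).mul hkc))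
    · rintro p (hp | hp)
      · rw [hψ.supp _ hp, zero_mul]
      · rw [hcz _ hp, zero_mul, mul_zero]
  have hQ : Integrable (fun p : X d × X d =>
      ψ p.1 * (⟪e, p.1⟫ * (cut R p.2 * kr n ε (p.1 - p.2)))) (ν.prod ν) := by
    refine L2_prod (a := ρ) (b := 2 * R) ?_ ?_
    · exact (hψ.continuous.comp continuous_fst).mul ((hec.comp continuous_fst).mul
        ((hcc.comp continuous_snd).mul hkc))
    · rintro p (hp | hp)
      · rw [hψ.supp _ hp, zero_mul]
      · rw [hcz _ hp, zero_mul, mul_zero, mul_zero]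
  have E2 : Qf n ε ν e (cut R) ψ =
      (∫ x, (∫ y, ψ x * (⟪e, x⟫ * (cut R y * kr n ε (x - y))) ∂ν) ∂ν) -
        ∫ x, (∫ y, ψ x * (cut R y * (⟪e, y⟫ * kr n ε (x - y))) ∂ν) ∂ν := by
    unfold Qf
    rw [← integral_sub hQ.integral_prod_left hP.integral_prod_left]
    refine integral_congr_ae ?_
    filter_upwards [hP.prod_right_ae, hQ.prod_right_ae] with x h1 h2
    rw [← integral_sub h2 h1]
    refine integral_congr_ae (Eventually.of_forall fun y => ?_)
    simp only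
    rw [inner_sub_right]
    ring
  have E3 : ∫ x, (∫ y, ψ x * (cut R y * (⟪e, y⟫ * kr n ε (x - y))) ∂ν) ∂ν =
      ∫ y, cut R y * (⟪e, y⟫ * ∫ x, ψ x * kr n ε (x - y) ∂ν) ∂ν := by
    rw [integral_integral_swap
      (f := fun x y => ψ x * (cut R y * (⟪e, y⟫ * kr n ε (x - y)))) hP]
    refine integral_congr_ae (Eventually.of_forall fun y => ?_)
    simp only
    rw [← integral_const_mul, ← integral_const_mul]
    refine integral_congr_ae (Eventually.of_forall fun x => ?_)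
    simp only
    ring
  have hP2 : Integrable (fun y => cut R y * (⟪e, y⟫ * ∫ x, ψ x * kr n ε (x - y) ∂ν)) ν := by
    refine hP.integral_prod_right.congr (Eventually.of_forall fun y => ?_)
    simp only
    rw [← integral_const_mul, ← integral_const_mul]
    refine integral_congr_ae (Eventually.of_forall fun x => ?_)
    simp only
    ring
  have hlam : ∀ y, Lam n ε ν ψ y = ψ y * (∫ x, kr n ε (x - y) ∂ν) -
      ∫ x, ψ x * kr n ε (x - y) ∂ν := fun y => lam_eq hn hC h hε hψ y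
  have hK1 : Integrable (fun y => cut R y * (⟪e, y⟫ * (ψ y * ∫ x, kr n ε (x - y) ∂ν))) ν := by
    refine (hI1.add hP2).congr (Eventually.of_forall fun y => ?_)
    simp only [Pi.add_apply]
    rw [hlam y]
    ring
  have E4 : ∫ y, cut R y * (⟪e, y⟫ * Lam n ε ν ψ y) ∂ν =
      (∫ y, cut R y * (⟪e, y⟫ * (ψ y * ∫ x, kr n ε (x - y) ∂ν)) ∂ν) -
        ∫ y, cut R y * (⟪e, y⟫ * ∫ x, ψ x * kr n ε (x - y) ∂ν) ∂ν := by
    rw [← integral_sub hK1 hP2]
    refine integral_congr_ae (Eventually.of_forall fun y => ?_)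
    simp only
    rw [hlam y]
    ring
  obtain ⟨A0, hA0, HA0⟩ := Gr.kr_integrable (d := d) n hn
  have hkint : ∀ x : X d, Integrable (fun y => kr n ε (x - y)) ν := fun x => by
    refine ((HA0 C hC ν h x ε hε).1).congr (Eventually.of_forall fun y => ?_)
    exact kr_comm n ε y x
  have hkc1 : ∀ x : X d, Continuous fun y : X d => kr n ε (x - y) := fun x =>
    (kr_continuous n hε).comp (continuous_const.sub continuous_id)
  have hkint1 : ∀ x : X d, Integrable (fun y => cut R y * kr n ε (x - y)) ν := fun x => by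
    refine (hcc.mul (hkc1 x)).integrable_of_hasCompactSupport ?_
    exact (cut_hasCompactSupport hR0).mul_right
  have hkint2 : ∀ x : X d, Integrable (fun y => (1 - cut R y) * kr n ε (x - y)) ν := fun x => by
    refine ((hkint x).sub (hkint1 x)).congr (Eventually.of_forall fun y => ?_)
    simp only [Pi.sub_apply]
    ring
  have E5 : (∫ y, cut R y * (⟪e, y⟫ * (ψ y * ∫ x, kr n ε (x - y) ∂ν)) ∂ν) -
      (∫ x, (∫ y, ψ x * (⟪e, x⟫ * (cut R y * kr n ε (x - y))) ∂ν) ∂ν) =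
      ∫ x, ψ x * (⟪e, x⟫ * ∫ y, (1 - cut R y) * kr n ε (x - y) ∂ν) ∂ν := by
    rw [← integral_sub hK1 hQ.integral_prod_left]
    refine integral_congr_ae (Eventually.of_forall fun x => ?_)
    simp only
    have f1 : ∫ y, ψ x * (⟪e, x⟫ * (cut R y * kr n ε (x - y))) ∂ν =
        ψ x * (⟪e, x⟫ * ∫ y, cut R y * kr n ε (x - y) ∂ν) := by
      rw [← integral_const_mul, ← integral_const_mul]
    have f2 : ∫ y, (1 - cut R y) * kr n ε (x - y) ∂ν =
        (∫ y, kr n ε (x - y) ∂ν) - ∫ y, cut R y * kr n ε (x - y) ∂ν := by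
      rw [← integral_sub (hkint x) (hkint1 x)]
      refine integral_congr_ae (Eventually.of_forall fun y => ?_)
      simp only
      ring
    have f3 : ∫ y, kr n ε (y - x) ∂ν = ∫ y, kr n ε (x - y) ∂ν :=
      integral_congr_ae (Eventually.of_forall fun y => kr_comm n ε y x)
    rw [f1, f2, f3]
    by_cases hx : ρ < ‖x‖
    · rw [hψ.supp x hx]
      ring
    · rw [hchi1 x (by linarith [not_lt.1 hx])]
      ring
  have E6 : (∫ y, ⟪e, y⟫ * Lam n ε ν ψ y ∂ν) - Qf n ε ν e (cut R) ψ =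
      (∫ x, ψ x * (⟪e, x⟫ * ∫ y, (1 - cut R y) * kr n ε (x - y) ∂ν) ∂ν) +
        ∫ y, (1 - cut R y) * (⟪e, y⟫ * Lam n ε ν ψ y) ∂ν := by
    rw [E1, E2, E3, E4, ← E5]
    ring
  rw [E6]
  -- the inner integral
  have hin : ∀ x : X d, ‖x‖ ≤ ρ → |∫ y, (1 - cut R y) * kr n ε (x - y) ∂ν| ≤ A * C * 2 / R := by
    intro x hx
    obtain ⟨t1, t2⟩ := HA C hC ν h x (R / 2) (by positivity)
    have hms : MeasurableSet {y : X d | R / 2 ≤ ‖y - x‖} :=
      measurableSet_le measurable_const (continuous_id.sub continuous_const).norm.measurable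
    have h1 : ‖∫ y, (1 - cut R y) * kr n ε (x - y) ∂ν‖ ≤
        ∫ y, ({y : X d | R / 2 ≤ ‖y - x‖}).indicator (fun y => ‖y - x‖⁻¹ ^ (n + 1)) y ∂ν := by
      refine norm_integral_le_of_norm_le (t1.integrable_indicator hms)
        (Eventually.of_forall fun y => ?_)
      have hc0 : 0 ≤ 1 - cut R y := by linarith [cut_le_one R y]
      have hc1 : 1 - cut R y ≤ 1 := by linarith [cut_nonneg R y]
      rw [norm_mul, Real.norm_eq_abs, Real.norm_eq_abs, abs_of_nonneg hc0,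
        abs_of_nonneg (kr_nonneg n ε _)]
      by_cases hy : y ∈ {y : X d | R / 2 ≤ ‖y - x‖}
      · rw [indicator_of_mem hy]
        rw [mem_ofPred_eq] at hy
        have hne : y - x ≠ 0 := by
          rw [← norm_pos_iff]
          linarith
        have h2 := kr_le_norm n ε hne
        rw [kr_comm n ε x y]
        have h3 := kr_nonneg n ε (y - x)
        nlinarith
      · rw [indicator_of_notMem hy]
        rw [mem_ofPred_eq, not_le] at hy
        have h4 : ‖y‖ ≤ R := by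
          have h5 : ‖y‖ ≤ ‖y - x‖ + ‖x‖ := by
            have := norm_add_le (y - x) x
            rwa [sub_add_cancel] at this
          linarith
        rw [hchi1 y h4, sub_self, zero_mul]
    rw [integral_indicator hms] at h1
    rw [← Real.norm_eq_abs]
    refine h1.trans (t2.trans (le_of_eq ?_))
    rw [pow_one, inv_div]
    ring
  have hT1 : |∫ x, ψ x * (⟪e, x⟫ * ∫ y, (1 - cut R y) * kr n ε (x - y) ∂ν) ∂ν| ≤
      (L * ρ) * (‖e‖ * ρ) * (A * C * 2) * (C * ρ ^ n) / R := by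
    have e7 : ∫ x, ψ x * (⟪e, x⟫ * ∫ y, (1 - cut R y) * kr n ε (x - y) ∂ν) ∂ν =
        ∫ x in closedBall 0 ρ, ψ x * (⟪e, x⟫ * ∫ y, (1 - cut R y) * kr n ε (x - y) ∂ν) ∂ν := by
      refine (setIntegral_eq_integral_of_forall_compl_eq_zero fun x hx => ?_).symm
      rw [mem_closedBall, dist_zero_right, not_le] at hx
      rw [hψ.supp x hx, zero_mul]
    rw [e7, ← Real.norm_eq_abs]
    have hb : ∀ x ∈ closedBall (0 : X d) ρ,
        ‖ψ x * (⟪e, x⟫ * ∫ y, (1 - cut R y) * kr n ε (x - y) ∂ν)‖ ≤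
        (L * ρ) * ((‖e‖ * ρ) * (A * C * 2 / R)) := by
      intro x hx
      rw [mem_closedBall, dist_zero_right] at hx
      rw [norm_mul, norm_mul, Real.norm_eq_abs, Real.norm_eq_abs, Real.norm_eq_abs]
      refine mul_le_mul (hψ.abs_le hL hρ hd x) ?_ (by positivity) (by positivity)
      refine mul_le_mul ?_ (hin x hx) (abs_nonneg _) (by positivity)
      exact (heb x).trans (mul_le_mul_of_nonneg_left hx (norm_nonneg e))
    have h2 := norm_setIntegral_le_of_norm_le_const (h.finite 0 ρ) hb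
    have h3 := h.real_le hC 0 hρ
    have h4 : (L * ρ) * ((‖e‖ * ρ) * (A * C * 2 / R)) * ν.real (closedBall 0 ρ) ≤
        (L * ρ) * ((‖e‖ * ρ) * (A * C * 2 / R)) * (C * ρ ^ n) :=
      mul_le_mul_of_nonneg_left h3 (by positivity)
    refine h2.trans (h4.trans (le_of_eq ?_))
    ring
  have hT2 : |∫ y, (1 - cut R y) * (⟪e, y⟫ * Lam n ε ν ψ y) ∂ν| ≤
      (‖e‖ * (A' * C * L * ρ ^ (n + 2))) * (A * C) / R := by
    obtain ⟨t1, t2⟩ := HA C hC ν h 0 R hR0
    simp only [sub_zero] at t1 t2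
    have hms : MeasurableSet {y : X d | R ≤ ‖y‖} :=
      measurableSet_le measurable_const continuous_norm.measurable
    have h1 : ‖∫ y, (1 - cut R y) * (⟪e, y⟫ * Lam n ε ν ψ y) ∂ν‖ ≤
        ∫ y, (‖e‖ * (A' * C * L * ρ ^ (n + 2))) *
          ({y : X d | R ≤ ‖y‖}).indicator (fun y => ‖y‖⁻¹ ^ (n + 1)) y ∂ν := by
      refine norm_integral_le_of_norm_le ((t1.integrable_indicator hms).const_mul _)
        (Eventually.of_forall fun y => ?_)
      have hc0 : 0 ≤ 1 - cut R y := by linarith [cut_le_one R y]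
      have hc1 : 1 - cut R y ≤ 1 := by linarith [cut_nonneg R y]
      rw [norm_mul, Real.norm_eq_abs, abs_of_nonneg hc0]
      by_cases hy : y ∈ {y : X d | R ≤ ‖y‖}
      · rw [indicator_of_mem hy]
        rw [mem_ofPred_eq] at hy
        have hyp : 0 < ‖y‖ := by linarith
        have h2 := HA' C hC ν h L ρ hL hρ ψ hψ h0 ε hε y (by linarith)
        have h3 : ‖⟪e, y⟫ * Lam n ε ν ψ y‖ ≤
            (‖e‖ * ‖y‖) * (A' * C * L * ρ ^ (n + 2) * ‖y‖⁻¹ ^ (n + 2)) := by
          rw [norm_mul, Real.norm_eq_abs, Real.norm_eq_abs]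
          exact mul_le_mul (heb y) h2 (abs_nonneg _) (by positivity)
        have h4 : (‖e‖ * ‖y‖) * (A' * C * L * ρ ^ (n + 2) * ‖y‖⁻¹ ^ (n + 2)) =
            (‖e‖ * (A' * C * L * ρ ^ (n + 2))) * ‖y‖⁻¹ ^ (n + 1) := by
          have : ‖y‖ * ‖y‖⁻¹ ^ (n + 2) = ‖y‖⁻¹ ^ (n + 1) := by
            rw [pow_succ ‖y‖⁻¹ (n + 1), mul_comm, mul_assoc, inv_mul_cancel₀ hyp.ne', mul_one]
          rw [← this]
          ring
        rw [h4] at h3
        have h5 := norm_nonneg (⟪e, y⟫ * Lam n ε ν ψ y)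
        nlinarith
      · rw [indicator_of_notMem hy]
        rw [mem_ofPred_eq, not_le] at hy
        rw [hchi1 y hy.le, sub_self, zero_mul, mul_zero]
    rw [integral_const_mul, integral_indicator hms] at h1
    rw [← Real.norm_eq_abs]
    have h6 := mul_le_mul_of_nonneg_left t2
      (show 0 ≤ ‖e‖ * (A' * C * L * ρ ^ (n + 2)) by positivity)
    refine h1.trans (h6.trans (le_of_eq ?_))
    rw [pow_one]
    ring
  refine (abs_add_le _ _).trans ((add_le_add hT1 hT2).trans (le_of_eq ?_))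
  ring

end Pool.Agent.RZ
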