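import Pool.Agent.H54Crit.Main
import Pool.Agent.RZ.Gr1
import Pool.Agent.RZ.I3

/-!
M7: the criterion, from the Marstrand-Mattila criterion of `Pool.Agent.H54Crit`.
-/

set_option autoImplicit false

open MeasureTheory Filter Topology Metric Set
open scoped RealInnerProductSpace ENNReal

namespace Pool.Agent.RZ

variable {d : ℕ}

theorem BF.bflat {n : ℕ} {F : Set (X d)} {x : X d} {r η : ℝ} (hr : 0 ≤ r) (hη : 0 ≤ η)
    (h : BF n F x r η) : H54Crit.BFlat n F x r η := by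
  obtain ⟨v, hv, h1, h2⟩ := h
  obtain ⟨ι, hι, hιy⟩ := frame_isometry hv
  refine ⟨ι, fun y hy hyx => ?_, fun a ha => ?_⟩
  · refine ⟨(WithLp.equiv 2 (Fin n → ℝ)).symm fun i => ⟪v i, y - x⟫, ?_⟩
    have h3 := h1 y hy (by rwa [dist_eq_norm] at hyx)
    rw [q_eq x hv y] at h3
    have h4 : y - (x + ι ((WithLp.equiv 2 (Fin n → ℝ)).symm fun i => ⟪v i, y - x⟫)) =
        y - x - ∑ i, ⟪v i, y - x⟫ • v i := by
      rw [hιy]
      simp [sub_add_eq_sub_sub]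
    rw [dist_eq_norm, h4]
    exact le_of_sq_le_sq h3 (mul_nonneg hη hr)
  · have h5 : q x v (x + ι a) = 0 := by
      rw [q_eq_zero_iff x hv]
      have h6 : ι a ∈ (Submodule.span ℝ (Set.range v) : Set (X d)) := by
        rw [← hι]
        exact mem_range_self a
      simpa using h6
    obtain ⟨y, hy, hy2⟩ := h2 (x + ι a) h5 (by simpa using ha)
    exact ⟨y, hy, by rwa [dist_eq_norm]⟩

theorem criterion {n : ℕ} (hn : 1 ≤ n) (hd : 0 < d) {C : ℝ} (hC : 1 ≤ C) {E F : Set (X d)}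
    (hE : IsCompact E) (hfin : Measure.hausdorffMeasure (n : ℝ) E < ⊤) (hFE : F ⊆ E)
    (hF : IsCompact F) (hg : Gr n C ((Measure.hausdorffMeasure (n : ℝ)).restrict E)) {r₀ : ℝ}
    (hr₀ : 0 < r₀)
    (hlow : ∀ y ∈ F, ∀ r : ℝ, 0 < r → r ≤ r₀ → ENNReal.ofReal (r ^ n / C) ≤
        (Measure.hausdorffMeasure (n : ℝ)).restrict E (closedBall y r))
    (hbil : ∀ᵐ x ∂(((Measure.hausdorffMeasure (n : ℝ)).restrict E).restrict F),
      ∀ η : ℝ, 0 < η → ∃ r₁ : ℝ, 0 < r₁ ∧ ∀ r : ℝ, 0 < r → r ≤ r₁ → BF n F x r η) :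
    ∃ g : ℕ → X n → X d, (∀ i, ∃ K, LipschitzWith K (g i)) ∧
      Measure.hausdorffMeasure (n : ℝ) (F \ ⋃ i, Set.range (g i)) = 0 := by
  haveI : IsFiniteMeasure ((Measure.hausdorffMeasure (n : ℝ) : Measure (X d)).restrict E) :=
    ⟨by rwa [Measure.restrict_apply_univ]⟩
  have hCpos : 0 < C := lt_of_lt_of_le one_pos hC
  have hle : ∀ A ⊆ F, Measure.hausdorffMeasure (n : ℝ) A ≤
      (Measure.hausdorffMeasure (n : ℝ)).restrict E A := by
    intro A hA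
    rw [Measure.restrict_apply' hE.measurableSet, inter_eq_self_of_subset_left (hA.trans hFE)]
  have H : H54Crit.Hyp n ((Measure.hausdorffMeasure (n : ℝ)).restrict E) F C⁻¹ r₀ := by
    refine ⟨hn, inv_pos.2 hCpos, hr₀, hF.isClosed, hle, fun x hx r hr hr1 => ?_⟩
    have := hlow x hx r hr hr1
    rwa [div_eq_inv_mul] at this
  obtain ⟨g, hg1, hg2⟩ := H54Crit.crit _ F H hg (by
    filter_upwards [hbil] with x hx η hη
    obtain ⟨r₁, h1, h2⟩ := hx η hη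
    exact ⟨r₁, h1, fun r hr hr1 => (h2 r hr hr1.le).bflat hr.le hη.le⟩)
  exact ⟨g, hg1, nonpos_iff_eq_zero.1 ((hle _ sdiff_subset).trans hg2.le)⟩

end Pool.Agent.RZ
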