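import Pool.Agent.RZ.V6
import Pool.Agent.RZ.F1

/-!
N1: mollified limits. b_i(x) = int cut delta (x-y) u_i(y) dnu_i(y): on closedBall 0 R bounded by int_{B_{R+2delta}} |u_i| <= (M r^{n+3} C r^n)^{1/2}, Lipschitz with constant
delta^{-1} int_{B_{R+2 delta}} |u_i|, uniformly in i. B(x) = hyperfilter limit; equicontinuity gives uniform convergence on balls.
Growth: |b_i(x)|^2 <= C (2delta)^n int_{B(x,2delta)} u_i^2 dnu_i.
growth_Y: for the coordinates iota : X n ->li X d and Lebesgue measure: int_{B_R} b_i(iota x)^2 dx <= C(2delta)^n int_{z in B_{R+2delta}} u_i(z)^2 vol{x : |iota x - z| <= 2 delta} dnu_i(z).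
-/

set_option autoImplicit false

open MeasureTheory Filter Topology Metric Set
open scoped RealInnerProductSpace ENNReal

namespace Pool.Agent.RZ

variable {d n : ℕ}

/-- mollification with the cut-off function -/
noncomputable def mol (δ : ℝ) (ν : Measure (X d)) (u : X d → ℝ) (x : X d) : ℝ :=
  ∫ y, cut δ (x - y) * u y ∂ν

/-! ### Elementary facts -/

private theorem N1_cont {δ : ℝ} (hδ : 0 < δ) (x : X d) : Continuous fun y => cut δ (x - y) :=
  (cut_continuous hδ).comp (continuous_const.sub continuous_id)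

private theorem N1_zero {δ : ℝ} (hδ : 0 < δ) {R : ℝ} {x : X d} (hx : x ∈ closedBall (0 : X d) R)
    {y : X d} (hy : y ∉ closedBall (0 : X d) (R + 2 * δ)) : cut δ (x - y) = 0 := by
  rw [mem_closedBall_zero_iff] at hx hy
  apply cut_eq_zero hδ
  have h1 : ‖y‖ ≤ ‖x‖ + ‖x - y‖ := by
    have := norm_sub_le x (x - y)
    rwa [sub_sub_cancel] at this
  push Not at hy
  linarith

private theorem N1_int {C : ℝ} {ν : Measure (X d)} (h : Gr n C ν) {f : X d → ℝ}
    (hf : Continuous f) (R : ℝ) : IntegrableOn f (closedBall (0 : X d) R) ν := by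
  have := h.isLocallyFinite
  exact hf.continuousOn.integrableOn_compact (isCompact_closedBall _ _)

private theorem N1_mol_eq {δ : ℝ} (hδ : 0 < δ) (ν : Measure (X d)) (u : X d → ℝ) {R : ℝ}
    {x : X d} (hx : x ∈ closedBall (0 : X d) R) :
    mol δ ν u x = ∫ y in closedBall (0 : X d) (R + 2 * δ), cut δ (x - y) * u y ∂ν := by
  unfold mol
  symm
  apply setIntegral_eq_integral_of_forall_compl_eq_zero
  intro y hy
  rw [N1_zero hδ hx hy, zero_mul]

/-- Lipschitz bound -/
private theorem N1_lip {C : ℝ} {ν : Measure (X d)} (h : Gr n C ν) {u : X d → ℝ}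
    (hu : Continuous u) {δ : ℝ} (hδ : 0 < δ) {R : ℝ} {x x' : X d}
    (hx : x ∈ closedBall (0 : X d) R) (hx' : x' ∈ closedBall (0 : X d) R) :
    |mol δ ν u x - mol δ ν u x'| ≤
      (δ⁻¹ * ∫ y in closedBall (0 : X d) (R + 2 * δ), |u y| ∂ν) * ‖x - x'‖ := by
  have i1 : IntegrableOn (fun y => cut δ (x - y) * u y) (closedBall (0 : X d) (R + 2 * δ)) ν :=
    N1_int h ((N1_cont hδ x).mul hu) _
  have i2 : IntegrableOn (fun y => cut δ (x' - y) * u y) (closedBall (0 : X d) (R + 2 * δ)) ν :=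
    N1_int h ((N1_cont hδ x').mul hu) _
  rw [N1_mol_eq hδ ν u hx, N1_mol_eq hδ ν u hx', ← integral_sub i1 i2]
  refine (abs_integral_le_integral_abs).trans ?_
  have e : (δ⁻¹ * ∫ y in closedBall (0 : X d) (R + 2 * δ), |u y| ∂ν) * ‖x - x'‖ =
      ∫ y in closedBall (0 : X d) (R + 2 * δ), (δ⁻¹ * ‖x - x'‖) * |u y| ∂ν := by
    rw [integral_const_mul]
    ring
  rw [e]
  refine integral_mono ?_ ?_ ?_
  · exact N1_int h ((((N1_cont hδ x).mul hu).sub ((N1_cont hδ x').mul hu)).abs) _
  · exact N1_int h (continuous_const.mul hu.abs) _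
  · intro y
    have h1 := cut_lip hδ (x - y) (x' - y)
    rw [sub_sub_sub_cancel_right] at h1
    change |cut δ (x - y) * u y - cut δ (x' - y) * u y| ≤ (δ⁻¹ * ‖x - x'‖) * |u y|
    rw [← sub_mul, abs_mul]
    exact mul_le_mul_of_nonneg_right h1 (abs_nonneg _)

/-- sup bound -/
private theorem N1_bdd {C : ℝ} {ν : Measure (X d)} (h : Gr n C ν) {u : X d → ℝ}
    (hu : Continuous u) {δ : ℝ} (hδ : 0 < δ) {R : ℝ} {x : X d}
    (hx : x ∈ closedBall (0 : X d) R) :
    |mol δ ν u x| ≤ ∫ y in closedBall (0 : X d) (R + 2 * δ), |u y| ∂ν := by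
  rw [N1_mol_eq hδ ν u hx]
  refine (abs_integral_le_integral_abs).trans ?_
  refine integral_mono ?_ ?_ ?_
  · exact N1_int h (((N1_cont hδ x).mul hu).abs) _
  · exact N1_int h hu.abs _
  · intro y
    change |cut δ (x - y) * u y| ≤ |u y|
    rw [abs_mul, abs_of_nonneg (cut_nonneg _ _)]
    exact mul_le_of_le_one_left (abs_nonneg _) (cut_le_one _ _)

/-- the `L¹` norm on a ball -/
private theorem N1_L1 {C : ℝ} (hC : 0 ≤ C) {ν : Measure (X d)} (h : Gr n C ν) {u : X d → ℝ}
    (hu : Continuous u) {M : ℝ}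
    (huM : ∀ r, 1 ≤ r → ∫ y in closedBall 0 r, u y ^ 2 ∂ν ≤ M * r ^ (n + 3)) {r : ℝ}
    (hr : 1 ≤ r) :
    ∫ y in closedBall (0 : X d) r, |u y| ∂ν ≤ M * r ^ (n + 3) + C * r ^ n := by
  have h1 : ∫ y in closedBall (0 : X d) r, |u y| ∂ν ≤
      ∫ y in closedBall (0 : X d) r, (u y ^ 2 + 1) ∂ν := by
    refine integral_mono (N1_int h hu.abs _) (N1_int h ((hu.pow 2).add continuous_const) _) ?_
    intro y
    change |u y| ≤ u y ^ 2 + 1
    rw [← sq_abs]
    nlinarith [sq_nonneg (|u y| - 1), abs_nonneg (u y)]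
  have h2 : ∫ y in closedBall (0 : X d) r, (u y ^ 2 + 1) ∂ν =
      (∫ y in closedBall (0 : X d) r, u y ^ 2 ∂ν) + ν.real (closedBall (0 : X d) r) := by
    have i1 : IntegrableOn (fun y => u y ^ 2) (closedBall (0 : X d) r) ν := N1_int h (hu.pow 2) _
    have i2 : IntegrableOn (fun _ : X d => (1 : ℝ)) (closedBall (0 : X d) r) ν :=
      N1_int h continuous_const _
    rw [integral_add i1 i2]
    simp
  have h3 := h.real_le hC (0 : X d) (by linarith : 0 < r)
  have h4 := huM r hr
  linarith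

theorem mol_continuous {C : ℝ} {ν : Measure (X d)} (h : Gr n C ν) {u : X d → ℝ}
    (hu : Continuous u) {δ : ℝ} (hδ : 0 < δ) : Continuous (mol δ ν u) := by
  apply LL.continuous
  intro R
  exact ⟨_, fun x hx y hy => N1_lip h hu hδ hx hy⟩

/-! ### Growth -/

private theorem N1_sq {C : ℝ} (hC : 0 ≤ C) {ν : Measure (X d)} (h : Gr n C ν) {u : X d → ℝ}
    (hu : Continuous u) {δ : ℝ} (hδ : 0 < δ) {R : ℝ} {x : X d}
    (hx : x ∈ closedBall (0 : X d) R) :
    mol δ ν u x ^ 2 ≤ (C * (2 * δ) ^ n) *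
      ∫ z in closedBall (0 : X d) (R + 2 * δ), cut δ (x - z) * u z ^ 2 ∂ν := by
  set s := closedBall (0 : X d) (R + 2 * δ) with hs
  set a := ∫ z in s, cut δ (x - z) ∂ν with ha
  set c := ∫ z in s, cut δ (x - z) * u z ^ 2 ∂ν with hc
  have hb : mol δ ν u x = ∫ z in s, cut δ (x - z) * u z ∂ν := N1_mol_eq hδ ν u hx
  set b := ∫ z in s, cut δ (x - z) * u z ∂ν with hbdef
  have hc0 : 0 ≤ c := integral_nonneg fun z => mul_nonneg (cut_nonneg _ _) (sq_nonneg _)
  have hq : ∀ t : ℝ, 0 ≤ a * (t * t) + (-2 * b) * t + c := by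
    intro t
    have h1 : a * (t * t) + (-2 * b) * t + c = ∫ z in s, cut δ (x - z) * (u z - t) ^ 2 ∂ν := by
      have e : ∀ z, cut δ (x - z) * (u z - t) ^ 2 = ((t * t) * cut δ (x - z) +
          (-2 * t) * (cut δ (x - z) * u z)) + cut δ (x - z) * u z ^ 2 := fun z => by ring
      simp only [e]
      have i1 : IntegrableOn (fun z => (t * t) * cut δ (x - z) +
          (-2 * t) * (cut δ (x - z) * u z)) s ν :=
        N1_int h (((continuous_const.mul (N1_cont hδ x)).add
          (continuous_const.mul ((N1_cont hδ x).mul hu)))) _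
      have i2 : IntegrableOn (fun z => cut δ (x - z) * u z ^ 2) s ν :=
        N1_int h ((N1_cont hδ x).mul (hu.pow 2)) _
      have i3 : IntegrableOn (fun z => (t * t) * cut δ (x - z)) s ν :=
        N1_int h (continuous_const.mul (N1_cont hδ x)) _
      have i4 : IntegrableOn (fun z => (-2 * t) * (cut δ (x - z) * u z)) s ν :=
        N1_int h (continuous_const.mul ((N1_cont hδ x).mul hu)) _
      rw [integral_add i1 i2, integral_add i3 i4, integral_const_mul, integral_const_mul]
      ring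
    rw [h1]
    exact integral_nonneg fun z => mul_nonneg (cut_nonneg _ _) (sq_nonneg _)
  have hdis := discrim_le_zero hq
  have hb2 : b ^ 2 ≤ a * c := by
    unfold discrim at hdis
    nlinarith
  have ha1 : a ≤ C * (2 * δ) ^ n := by
    have h2 : a = ∫ z, cut δ (x - z) ∂ν := by
      apply setIntegral_eq_integral_of_forall_compl_eq_zero
      intro y hy
      exact N1_zero hδ hx hy
    have h3 : ∫ z, cut δ (x - z) ∂ν = ∫ z in closedBall x (2 * δ), cut δ (x - z) ∂ν := by
      symm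
      apply setIntegral_eq_integral_of_forall_compl_eq_zero
      intro y hy
      apply cut_eq_zero hδ
      rw [mem_closedBall, dist_comm, dist_eq_norm] at hy
      push Not at hy
      exact hy.le
    have hlf := h.isLocallyFinite
    have h4 : ∫ z in closedBall x (2 * δ), cut δ (x - z) ∂ν ≤
        ∫ z in closedBall x (2 * δ), (1 : ℝ) ∂ν := by
      refine integral_mono ?_ ?_ fun z => cut_le_one _ _
      · exact (N1_cont hδ x).continuousOn.integrableOn_compact (isCompact_closedBall _ _)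
      · exact continuous_const.continuousOn.integrableOn_compact (isCompact_closedBall _ _)
    have h5 : ∫ z in closedBall x (2 * δ), (1 : ℝ) ∂ν = ν.real (closedBall x (2 * δ)) := by
      simp
    have h6 := h.real_le hC x (by linarith : 0 < 2 * δ)
    rw [h2, h3]
    linarith
  rw [hb]
  exact hb2.trans (mul_le_mul_of_nonneg_right ha1 hc0)

/-- growth of the mollification on the coordinate space, uniform in the data -/
theorem mol_growth (hn : 1 ≤ n) {C : ℝ} (hC : 0 ≤ C) {M : ℝ} (hM : 0 ≤ M) {δ : ℝ} (hδ : 0 < δ) :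
    ∃ M' : ℝ, 0 ≤ M' ∧ ∀ (ι : X n →ₗᵢ[ℝ] X d) (ν : Measure (X d)), Gr n C ν → ∀ u : X d → ℝ,
      Continuous u → (∀ r, 1 ≤ r → ∫ y in closedBall 0 r, u y ^ 2 ∂ν ≤ M * r ^ (n + 3)) →
      ∀ r, 1 ≤ r → ∫ y in closedBall (0 : X n) r, (mol δ ν u (ι y)) ^ 2 ≤ M' * r ^ (n + 3) := by
  set V : ℝ := volume.real (closedBall (0 : X n) (4 * δ)) with hV
  have hV0 : 0 ≤ V := measureReal_nonneg
  refine ⟨(C * (2 * δ) ^ n) * (V * (M * (1 + 2 * δ) ^ (n + 3))), by positivity, ?_⟩
  intro ι ν h u hu huM r hr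
  have hlf := h.isLocallyFinite
  have hιc : Continuous ι := ι.continuous
  set s := closedBall (0 : X d) (r + 2 * δ) with hs
  have hmem : ∀ y ∈ closedBall (0 : X n) r, ι y ∈ closedBall (0 : X d) r := by
    intro y hy
    rw [mem_closedBall_zero_iff] at hy ⊢
    rw [ι.norm_map]
    exact hy
  -- the joint function
  have hjc : Continuous fun p : X n × X d => cut δ (ι p.1 - p.2) * u p.2 ^ 2 :=
    ((cut_continuous hδ).comp ((hιc.comp continuous_fst).sub continuous_snd)).mul
      ((hu.comp continuous_snd).pow 2)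
  have hint : Integrable (Function.uncurry fun (y : X n) (z : X d) =>
      cut δ (ι y - z) * u z ^ 2)
      ((volume.restrict (closedBall (0 : X n) r)).prod (ν.restrict s)) := by
    rw [Measure.prod_restrict]
    exact hjc.continuousOn.integrableOn_compact
      ((isCompact_closedBall _ _).prod (isCompact_closedBall _ _))
  -- step 1
  have h1 : ∫ y in closedBall (0 : X n) r, (mol δ ν u (ι y)) ^ 2 ≤
      ∫ y in closedBall (0 : X n) r, (C * (2 * δ) ^ n) *
        ∫ z in s, cut δ (ι y - z) * u z ^ 2 ∂ν := by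
    refine setIntegral_mono_on ?_ ?_ measurableSet_closedBall ?_
    · exact (((mol_continuous h hu hδ).comp hιc).pow 2).continuousOn.integrableOn_compact
        (isCompact_closedBall _ _)
    · exact hint.integral_prod_left.const_mul _
    · intro y hy
      exact N1_sq hC h hu hδ (hmem y hy)
  rw [integral_const_mul, integral_integral_swap hint] at h1
  -- step 2
  have hin : ∀ z : X d, ∫ y in closedBall (0 : X n) r, cut δ (ι y - z) * u z ^ 2 ≤
      V * u z ^ 2 := by
    intro z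
    rw [integral_mul_const]
    refine mul_le_mul_of_nonneg_right ?_ (sq_nonneg _)
    have hcc : Continuous fun y : X n => cut δ (ι y - z) :=
      (cut_continuous hδ).comp (hιc.sub continuous_const)
    by_cases hex : ∃ y0 : X n, ‖ι y0 - z‖ < 2 * δ
    · obtain ⟨y0, hy0⟩ := hex
      have hz : ∀ y, y ∉ closedBall y0 (4 * δ) → cut δ (ι y - z) = 0 := by
        intro y hy
        apply cut_eq_zero hδ
        by_contra hc
        push Not at hc
        apply hy
        rw [mem_closedBall, dist_eq_norm, ← ι.norm_map, map_sub]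
        have h2 : ‖ι y - ι y0‖ ≤ ‖ι y - z‖ + ‖ι y0 - z‖ := by
          have := norm_sub_le (ι y - z) (ι y0 - z)
          rwa [sub_sub_sub_cancel_right] at this
        linarith
      calc ∫ y in closedBall (0 : X n) r, cut δ (ι y - z)
          ≤ ∫ y, cut δ (ι y - z) := by
            refine setIntegral_le_integral ?_ (Eventually.of_forall fun y => cut_nonneg _ _)
            refine hcc.integrable_of_hasCompactSupport ?_
            exact HasCompactSupport.intro (isCompact_closedBall y0 (4 * δ)) hz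
        _ = ∫ y in closedBall y0 (4 * δ), cut δ (ι y - z) :=
            (setIntegral_eq_integral_of_forall_compl_eq_zero hz).symm
        _ ≤ ∫ y in closedBall y0 (4 * δ), (1 : ℝ) := by
            refine integral_mono ?_ ?_ fun z => cut_le_one _ _
            · exact hcc.continuousOn.integrableOn_compact (isCompact_closedBall _ _)
            · exact continuous_const.continuousOn.integrableOn_compact (isCompact_closedBall _ _)
        _ = V := by
            rw [hV]
            simp only [integral_const, MeasurableSet.univ, measureReal_restrict_apply,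
              Set.univ_inter, smul_eq_mul, mul_one]
            unfold Measure.real
            rw [Measure.addHaar_closedBall_center]
    · push Not at hex
      have h3 : ∫ y in closedBall (0 : X n) r, cut δ (ι y - z) = 0 := by
        have : ∀ y : X n, cut δ (ι y - z) = 0 := fun y => cut_eq_zero hδ (hex y)
        simp [this]
      rw [h3]
      exact hV0
  have h2 : ∫ z in s, (∫ y in closedBall (0 : X n) r, cut δ (ι y - z) * u z ^ 2) ∂ν ≤
      ∫ z in s, V * u z ^ 2 ∂ν := by
    refine integral_mono hint.integral_prod_right ?_ hin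
    exact N1_int h (continuous_const.mul (hu.pow 2)) _
  rw [integral_const_mul] at h2
  have h3 := huM (r + 2 * δ) (by linarith)
  have h4 : (r + 2 * δ) ^ (n + 3) ≤ (1 + 2 * δ) ^ (n + 3) * r ^ (n + 3) := by
    rw [← mul_pow]
    refine pow_le_pow_left₀ (by linarith) ?_ _
    nlinarith
  have h5 : 0 ≤ C * (2 * δ) ^ n := by positivity
  calc ∫ y in closedBall (0 : X n) r, (mol δ ν u (ι y)) ^ 2
      ≤ (C * (2 * δ) ^ n) * (V * ∫ z in s, u z ^ 2 ∂ν) :=
        h1.trans (mul_le_mul_of_nonneg_left h2 h5)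
    _ ≤ (C * (2 * δ) ^ n) * (V * (M * ((1 + 2 * δ) ^ (n + 3) * r ^ (n + 3)))) := by
        refine mul_le_mul_of_nonneg_left (mul_le_mul_of_nonneg_left ?_ hV0) h5
        exact h3.trans (mul_le_mul_of_nonneg_left h4 hM)
    _ = (C * (2 * δ) ^ n) * (V * (M * (1 + 2 * δ) ^ (n + 3))) * r ^ (n + 3) := by ring

/-! ### The limit -/

private theorem N1_ultra {f : ℕ → ℝ} {K : ℝ} (hf : ∀ i, |f i| ≤ K) :
    ∃ b : ℝ, Tendsto f (hyperfilter ℕ) (𝓝 b) := by
  have hc : IsCompact (Icc (-K) K) := isCompact_Icc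
  have hle : ((hyperfilter ℕ).map f : Filter ℝ) ≤ 𝓟 (Icc (-K) K) := by
    rw [le_principal_iff, Ultrafilter.coe_map, mem_map]
    refine Eventually.of_forall fun i => ?_
    exact abs_le.1 (hf i)
  obtain ⟨b, -, hb⟩ := hc.ultrafilter_le_nhds _ hle
  exact ⟨b, hb⟩

theorem mol_limit (hn : 1 ≤ n) {C : ℝ} (hC : 0 ≤ C) {ν : ℕ → Measure (X d)}
    (h : ∀ i, Gr n C (ν i)) {u : ℕ → X d → ℝ} (hu : ∀ i, Continuous (u i)) {M : ℝ} (hM : 0 ≤ M)
    (huM : ∀ i, ∀ r, 1 ≤ r → ∫ y in closedBall 0 r, u i y ^ 2 ∂(ν i) ≤ M * r ^ (n + 3))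
    {δ : ℝ} (hδ : 0 < δ) : ∃ B : X d → ℝ, LL B ∧
      ∀ R η : ℝ, 0 < η → ∀ᶠ i in (hyperfilter ℕ : Filter ℕ), ∀ x ∈ closedBall (0 : X d) R,
        |mol δ (ν i) (u i) x - B x| ≤ η := by
  -- uniform constants
  set K : ℝ → ℝ := fun R => M * (max R 1 + 2 * δ) ^ (n + 3) + C * (max R 1 + 2 * δ) ^ n with hK
  have hK0 : ∀ R, 0 ≤ K R := by
    intro R
    have : 0 ≤ max R 1 + 2 * δ := by
      have := le_max_right R 1
      linarith
    simp only [hK]
    positivity
  have hL1 : ∀ i R, ∫ y in closedBall (0 : X d) (max R 1 + 2 * δ), |u i y| ∂(ν i) ≤ K R := by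
    intro i R
    refine N1_L1 hC (h i) (hu i) (huM i) ?_
    have := le_max_right R 1
    linarith
  have hsub : ∀ R : ℝ, closedBall (0 : X d) R ⊆ closedBall (0 : X d) (max R 1) := fun R =>
    closedBall_subset_closedBall (le_max_left _ _)
  have hlip : ∀ i R, ∀ x ∈ closedBall (0 : X d) R, ∀ y ∈ closedBall (0 : X d) R,
      |mol δ (ν i) (u i) x - mol δ (ν i) (u i) y| ≤ (δ⁻¹ * K R) * ‖x - y‖ := by
    intro i R x hx y hy
    refine (N1_lip (h i) (hu i) hδ (hsub R hx) (hsub R hy)).trans ?_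
    refine mul_le_mul_of_nonneg_right ?_ (norm_nonneg _)
    exact mul_le_mul_of_nonneg_left (hL1 i R) (inv_nonneg.2 hδ.le)
  have hbd : ∀ x : X d, ∀ i, |mol δ (ν i) (u i) x| ≤ K ‖x‖ := by
    intro x i
    refine (N1_bdd (h i) (hu i) hδ (R := max ‖x‖ 1) ?_).trans (hL1 i ‖x‖)
    rw [mem_closedBall_zero_iff]
    exact le_max_left _ _
  have hlim : ∀ x : X d, ∃ b : ℝ,
      Tendsto (fun i => mol δ (ν i) (u i) x) (hyperfilter ℕ) (𝓝 b) := fun x => N1_ultra (hbd x)
  choose B hB using hlim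
  have hBlip : ∀ R, ∀ x ∈ closedBall (0 : X d) R, ∀ y ∈ closedBall (0 : X d) R,
      |B x - B y| ≤ (δ⁻¹ * K R) * ‖x - y‖ := by
    intro R x hx y hy
    have h1 : Tendsto (fun i => |mol δ (ν i) (u i) x - mol δ (ν i) (u i) y|) (hyperfilter ℕ)
        (𝓝 |B x - B y|) := ((hB x).sub (hB y)).abs
    exact le_of_tendsto h1 (Eventually.of_forall fun i => hlip i R x hx y hy)
  refine ⟨B, fun R => ⟨_, hBlip R⟩, ?_⟩
  intro R η hη
  set L : ℝ := δ⁻¹ * K R with hL
  have hL0 : 0 ≤ L := mul_nonneg (inv_nonneg.2 hδ.le) (hK0 R)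
  set ρ : ℝ := η / (3 * (L + 1)) with hρ
  have hρ0 : 0 < ρ := by positivity
  have hLρ : L * ρ ≤ η / 3 := by
    rw [hρ, mul_div_assoc', div_le_div_iff₀ (by positivity) (by norm_num)]
    nlinarith
  obtain ⟨t, htsub, htfin, htcov⟩ := (isCompact_closedBall (0 : X d) R).finite_cover_balls hρ0
  have hev : ∀ᶠ i in (hyperfilter ℕ : Filter ℕ), ∀ z ∈ t,
      |mol δ (ν i) (u i) z - B z| ≤ η / 3 := by
    rw [eventually_all_finite htfin]
    intro z _
    have h1 := (hB z).eventually (ball_mem_nhds (B z) (by linarith : 0 < η / 3))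
    refine h1.mono fun i hi => ?_
    have h2 : dist (mol δ (ν i) (u i) z) (B z) < η / 3 := hi
    rw [Real.dist_eq] at h2
    exact h2.le
  refine hev.mono fun i hi x hx => ?_
  have hx' := htcov hx
  simp only [mem_iUnion, exists_prop] at hx'
  obtain ⟨z, hz, hxz⟩ := hx'
  rw [mem_ball, dist_eq_norm] at hxz
  have hzR := htsub hz
  have h1 := hlip i R x hx z hzR
  have h2 := hBlip R z hzR x hx
  have h3 := hi z hz
  have h4 : L * ‖x - z‖ ≤ η / 3 :=
    (mul_le_mul_of_nonneg_left hxz.le hL0).trans hLρ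
  have h5 : L * ‖z - x‖ ≤ η / 3 := by
    rw [norm_sub_rev]
    exact h4
  have h6 : mol δ (ν i) (u i) x - B x = (mol δ (ν i) (u i) x - mol δ (ν i) (u i) z) +
      (mol δ (ν i) (u i) z - B z) + (B z - B x) := by ring
  rw [h6]
  refine (abs_add_three _ _ _).trans ?_
  linarith

end Pool.Agent.RZ
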