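import Pool.Agent.RZ.N1
import Pool.Agent.RZ.G1

/-!
N2: the test function psi~(z) = int cut delta (iota x - z) psi(x) dx on X d, for psi a test function on X n with int psi = 0; nu' = c volume.map iota.
(a) psi~ is a test function with int psi~ dnu' = 0.
(b) H(z) = int cut delta (iota x - z) Lam n eps volume psi (x) dx is continuous, |H z| <= B (1+|z|)^{-(n+2)}  (lam_bound, support |iota x - z| <= 2 delta).
(c) on the plane: Lam n eps nu' psi~ (iota y) = c H(iota y)  (nu' = c volume.map iota, translation invariance of volume, Fubini, cut and kr only depend on norms).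
-/

set_option autoImplicit false

open MeasureTheory Filter Topology Metric Set
open scoped RealInnerProductSpace ENNReal

namespace Pool.Agent.RZ

variable {d n : ℕ}

/-- transposed mollification of a function on the coordinate space -/
noncomputable def tmol (δ : ℝ) (ι : X n →ₗᵢ[ℝ] X d) (ψ : X n → ℝ) (z : X d) : ℝ :=
  ∫ x, cut δ (ι x - z) * ψ x

private theorem N2a_integrable {δ : ℝ} (hδ : 0 < δ) (ι : X n →ₗᵢ[ℝ] X d) {L ρ : ℝ} {ψ : X n → ℝ}
    (hψ : Tst L ρ ψ) (z : X d) : Integrable (fun x => cut δ (ι x - z) * ψ x) := by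
  apply Continuous.integrable_of_hasCompactSupport
  · exact ((cut_continuous hδ).comp (ι.continuous.sub continuous_const)).mul hψ.continuous
  · exact hψ.hasCompactSupport.mul_left

theorem tmol_tst (hn : 1 ≤ n) {δ : ℝ} (hδ : 0 < δ) (ι : X n →ₗᵢ[ℝ] X d) {L ρ : ℝ} {ψ : X n → ℝ}
    (hψ : Tst L ρ ψ) : ∃ L' ρ' : ℝ, 0 ≤ L' ∧ 0 < ρ' ∧ Tst L' ρ' (tmol δ ι ψ) := by
  refine ⟨δ⁻¹ * ∫ x, |ψ x|, max ρ 0 + 2 * δ, by positivity, by positivity, ?_, ?_⟩
  · intro z z'
    have hint : Integrable (fun x : X n => |ψ x|) :=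
      (hψ.continuous.integrable_of_hasCompactSupport hψ.hasCompactSupport).abs
    unfold tmol
    rw [← integral_sub (N2a_integrable hδ ι hψ z) (N2a_integrable hδ ι hψ z')]
    calc |∫ x, (cut δ (ι x - z) * ψ x - cut δ (ι x - z') * ψ x)|
        ≤ ∫ x, |cut δ (ι x - z) * ψ x - cut δ (ι x - z') * ψ x| := abs_integral_le_integral_abs
      _ ≤ ∫ x, (δ⁻¹ * ‖z - z'‖) * |ψ x| := by
          refine integral_mono
            ((N2a_integrable hδ ι hψ z).sub (N2a_integrable hδ ι hψ z')).abs
            (hint.const_mul _) fun x => ?_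
          simp only
          rw [← sub_mul, abs_mul]
          refine mul_le_mul_of_nonneg_right ?_ (abs_nonneg _)
          have h := cut_lip hδ (ι x - z) (ι x - z')
          rwa [show ι x - z - (ι x - z') = -(z - z') by abel, norm_neg] at h
      _ = δ⁻¹ * (∫ x, |ψ x|) * ‖z - z'‖ := by
          rw [integral_const_mul]
          ring
  · intro z hz
    unfold tmol
    rw [← integral_zero (X n) ℝ]
    refine integral_congr_ae (Eventually.of_forall fun x => ?_)
    simp only
    by_cases hx : ρ < ‖x‖
    · rw [hψ.supp x hx, mul_zero]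
    · rw [cut_eq_zero hδ, zero_mul]
      have h1 : ‖z‖ ≤ ‖ι x - z‖ + ‖ι x‖ := by
        have := norm_sub_le (ι x) (ι x - z)
        rw [show ι x - (ι x - z) = z by abel] at this
        linarith
      have h2 : ‖ι x‖ = ‖x‖ := ι.norm_map x
      have h3 : ‖x‖ ≤ max ρ 0 := le_trans (not_lt.1 hx) (le_max_left _ _)
      linarith

theorem tmol_mean (hn : 1 ≤ n) {δ : ℝ} (hδ : 0 < δ) (ι : X n →ₗᵢ[ℝ] X d) {L ρ : ℝ} {ψ : X n → ℝ}
    (hψ : Tst L ρ ψ) (h0 : ∫ x, ψ x = 0) {c : ℝ} (hc : 0 < c) {ν' : Measure (X d)}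
    (hν' : ν' = ENNReal.ofReal c • ((volume : Measure (X n)).map ι)) :
    ∫ z, tmol δ ι ψ z ∂ν' = 0 := by
  have hemb : MeasurableEmbedding (ι : X n → X d) :=
    ι.isometry.isClosedEmbedding.measurableEmbedding
  rw [hν', integral_smul_measure, hemb.integral_map]
  have hcut : ∀ x y : X n, cut δ (ι x - ι y) = cut δ (x - y) := by
    intro x y
    unfold cut
    rw [← map_sub, ι.norm_map]
  have h1 : ∀ y : X n, tmol δ ι ψ (ι y) = ∫ x, cut δ (x - y) * ψ x := by
    intro y
    unfold tmol
    simp only [hcut]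
  simp only [h1]
  have hcont : Continuous (Function.uncurry fun y x : X n => cut δ (x - y) * ψ x) := by
    unfold Function.uncurry
    exact ((cut_continuous hδ).comp (continuous_snd.sub continuous_fst)).mul
      (hψ.continuous.comp continuous_snd)
  have hsupp : HasCompactSupport (Function.uncurry fun y x : X n => cut δ (x - y) * ψ x) := by
    apply HasCompactSupport.intro
      ((isCompact_closedBall (0 : X n) (ρ + 2 * δ)).prod (isCompact_closedBall (0 : X n) ρ))
    rintro ⟨y, x⟩ hyx
    simp only [Function.uncurry_apply_pair]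
    by_cases hx : ρ < ‖x‖
    · rw [hψ.supp x hx, mul_zero]
    · rw [cut_eq_zero hδ, zero_mul]
      by_contra hlt
      apply hyx
      refine ⟨?_, ?_⟩
      · rw [mem_closedBall_zero_iff]
        have h1 : ‖y‖ ≤ ‖x - y‖ + ‖x‖ := by
          have := norm_sub_le x (x - y)
          rw [show x - (x - y) = y by abel] at this
          linarith
        rw [not_le] at hlt
        simp only
        linarith [not_lt.1 hx]
      · rw [mem_closedBall_zero_iff]
        exact not_lt.1 hx
  rw [integral_integral_swap_of_hasCompactSupport hcont hsupp]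
  have h2 : ∀ x : X n, ∫ y, cut δ (x - y) * ψ x = (∫ y : X n, cut δ y) * ψ x := by
    intro x
    rw [integral_mul_const]
    congr 1
    exact integral_sub_left_eq_self (fun y : X n => cut δ y) volume x
  simp only [h2]
  rw [integral_const_mul, h0, mul_zero, smul_zero]

end Pool.Agent.RZ
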