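import Pool.Agent.RZ.N1
import Pool.Agent.RZ.G1
import Pool.Agent.RZ.N2a

/-!
N2: the test function psi~(z) = int cut delta (iota x - z) psi(x) dx on X d, for psi a test function on X n with int psi = 0; nu' = c volume.map iota.
(a) psi~ is a test function with int psi~ dnu' = 0.
(b) H(z) = int cut delta (iota x - z) Lam n eps volume psi (x) dx is continuous, |H z| <= B (1+|z|)^{-(n+2)}  (lam_bound, support |iota x - z| <= 2 delta).
(c) on the plane: Lam n eps nu' psi~ (iota y) = c H(iota y)  (nu' = c volume.map iota, translation invariance of volume, Fubini, cut and kr only depend on norms).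
-/

set_option autoImplicit false

open MeasureTheory Filter Topology Metric Set
open scoped RealInnerProductSpace ENNReal

namespace Pool.Agent.RZ

variable {d n : ℕ}

private theorem N2b_tst {L ρ : ℝ} {ψ : X n → ℝ} (hψ : Tst L ρ ψ) :
    Tst (max L 0) (max ρ 1) ψ := hψ.mono (le_max_left _ _) (le_max_left _ _)

private theorem N2b_weight (hn : 1 ≤ n) :
    Integrable (fun y : X n => (1 + ‖y‖)⁻¹ ^ (n + 2)) volume := by
  obtain ⟨C, hC1, hg, _⟩ := vol_reg n
  obtain ⟨A, _, hA⟩ := Gr.weight (d := n) n hn
  have hC0 : 0 ≤ C := by linarith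
  have := (hA C hC0 volume hg (fun _ => 1) continuous_const C hC0 (by
    intro r hr
    have hr0 : 0 < r := by linarith
    have h1 : ∫ _y in closedBall (0 : X n) r, (1 : ℝ) ^ 2 = (volume : Measure (X n)).real
        (closedBall 0 r) := by
      simp
    rw [h1]
    refine (hg.real_le hC0 0 hr0).trans ?_
    refine mul_le_mul_of_nonneg_left ?_ hC0
    exact pow_le_pow_right₀ hr (by omega))).1
  simpa using this

theorem tmol_lam (hn : 1 ≤ n) {δ : ℝ} (hδ : 0 < δ) (ι : X n →ₗᵢ[ℝ] X d) {L ρ : ℝ} {ψ : X n → ℝ}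
    (hψ : Tst L ρ ψ) (h0 : ∫ x, ψ x = 0) {ε : ℝ} (hε : 0 < ε) :
    Continuous (tmol δ ι (Lam n ε volume ψ)) ∧
      ∃ B : ℝ, ∀ z, |tmol δ ι (Lam n ε volume ψ) z| ≤ B * (1 + ‖z‖)⁻¹ ^ (n + 2) := by
  obtain ⟨C, hC1, hg, _⟩ := vol_reg n
  have hC0 : 0 ≤ C := by linarith
  have hψ' := N2b_tst hψ
  set L' := max L 0 with hL'
  set ρ' := max ρ 1 with hρ'
  have hL0 : 0 ≤ L' := le_max_right _ _
  have hρ0 : 0 < ρ' := lt_of_lt_of_le one_pos (le_max_right _ _)
  set Λ := Lam n ε volume ψ with hΛ
  have hcont : Continuous Λ := lam_continuous hn hC0 hg hε hψ'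
  obtain ⟨B0, hB0, hbd⟩ := lam_bound (d := n) n hn (by omega) C L' ρ' ε hC0 hL0 hρ0 hε
  have hbd' : ∀ y, |Λ y| ≤ B0 * (1 + ‖y‖)⁻¹ ^ (n + 2) := hbd volume hg ψ hψ' h0
  have hint : Integrable Λ volume := by
    refine Integrable.mono' ((N2b_weight hn).const_mul B0) hcont.aestronglyMeasurable ?_
    exact Filter.Eventually.of_forall fun y => hbd' y
  have hcutm : ∀ z : X d, Continuous fun x : X n => cut δ (ι x - z) := fun z =>
    (cut_continuous hδ).comp (ι.continuous.sub continuous_const)
  refine ⟨?_, ?_⟩
  · unfold tmol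
    refine continuous_of_dominated (bound := fun x => |Λ x|) ?_ ?_ hint.abs ?_
    · intro z
      exact ((hcutm z).mul hcont).aestronglyMeasurable
    · intro z
      refine Filter.Eventually.of_forall fun x => ?_
      rw [Real.norm_eq_abs, abs_mul, abs_of_nonneg (cut_nonneg _ _)]
      exact mul_le_of_le_one_left (abs_nonneg _) (cut_le_one _ _)
    · refine Filter.Eventually.of_forall fun x => ?_
      exact ((cut_continuous hδ).comp (continuous_const.sub continuous_id)).mul continuous_const
  · refine ⟨B0 * (1 + 2 * δ) ^ (n + 2) * (C * (4 * δ) ^ n), fun z => ?_⟩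
    have hz1 : 0 < 1 + ‖z‖ := by positivity
    by_cases hne : ∃ x0 : X n, ‖ι x0 - z‖ < 2 * δ
    · obtain ⟨x0, hx0⟩ := hne
      set K : ℝ := B0 * ((1 + 2 * δ) * (1 + ‖z‖)⁻¹) ^ (n + 2) with hK
      have hK0 : 0 ≤ K := by positivity
      have hbound : ∀ x : X n, ‖cut δ (ι x - z) * Λ x‖ ≤
          (closedBall x0 (4 * δ)).indicator (fun _ => K) x := by
        intro x
        by_cases hx : ‖ι x - z‖ < 2 * δ
        · have hmem : x ∈ closedBall x0 (4 * δ) := by
            rw [mem_closedBall, dist_eq_norm, ← ι.norm_map, map_sub]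
            have e : ι x - ι x0 = (ι x - z) - (ι x0 - z) := by abel
            rw [e]
            exact (norm_sub_le _ _).trans (by linarith)
          rw [indicator_of_mem hmem, Real.norm_eq_abs, abs_mul, abs_of_nonneg (cut_nonneg _ _)]
          refine (mul_le_of_le_one_left (abs_nonneg _) (cut_le_one _ _)).trans ?_
          refine (hbd' x).trans ?_
          rw [hK]
          refine mul_le_mul_of_nonneg_left ?_ hB0.le
          refine pow_le_pow_left₀ (by positivity) ?_ _
          have hzx : ‖z‖ ≤ ‖x‖ + 2 * δ := by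
            have e : z = ι x - (ι x - z) := by abel
            have h1 : ‖z‖ ≤ ‖ι x‖ + ‖ι x - z‖ := by
              conv_lhs => rw [e]
              exact norm_sub_le _ _
            rw [ι.norm_map] at h1
            linarith
          have hx1 : 0 < 1 + ‖x‖ := by positivity
          rw [← div_eq_mul_inv, inv_eq_one_div, div_le_div_iff₀ hx1 hz1]
          nlinarith [norm_nonneg x]
        · have hc : cut δ (ι x - z) = 0 := cut_eq_zero hδ (not_lt.1 hx)
          rw [hc, zero_mul, norm_zero]
          exact indicator_nonneg (fun _ _ => hK0) x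
      have hfin : (volume : Measure (X n)) (closedBall x0 (4 * δ)) ≠ ⊤ := (hg.finite _ _).ne
      have hi : Integrable ((closedBall x0 (4 * δ)).indicator fun _ => K) (volume : Measure (X n)) :=
        (integrable_indicator_iff isClosed_closedBall.measurableSet).2
          (integrableOn_const hfin)
      have h1 := norm_integral_le_of_norm_le hi (Filter.Eventually.of_forall hbound)
      rw [integral_indicator isClosed_closedBall.measurableSet, setIntegral_const, smul_eq_mul,
        Real.norm_eq_abs] at h1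
      have h2 : (volume : Measure (X n)).real (closedBall x0 (4 * δ)) ≤ C * (4 * δ) ^ n :=
        hg.real_le hC0 x0 (by positivity)
      refine h1.trans ?_
      have h3 : (volume : Measure (X n)).real (closedBall x0 (4 * δ)) * K ≤
          C * (4 * δ) ^ n * K := mul_le_mul_of_nonneg_right h2 hK0
      refine h3.trans (le_of_eq ?_)
      rw [hK, mul_pow (1 + 2 * δ) ((1 + ‖z‖)⁻¹) (n + 2)]
      ring
    · push Not at hne
      have hz : tmol δ ι Λ z = 0 := by
        unfold tmol
        have : (fun x : X n => cut δ (ι x - z) * Λ x) = fun _ => 0 := by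
          funext x
          rw [cut_eq_zero hδ (hne x), zero_mul]
        rw [this, integral_zero]
      rw [hz, abs_zero]
      positivity

theorem tmol_plane (hn : 1 ≤ n) {δ : ℝ} (hδ : 0 < δ) (ι : X n →ₗᵢ[ℝ] X d) {L ρ : ℝ} {ψ : X n → ℝ}
    (hψ : Tst L ρ ψ) (h0 : ∫ x, ψ x = 0) {c : ℝ} (hc : 0 < c) {ν' : Measure (X d)}
    (hν' : ν' = ENNReal.ofReal c • ((volume : Measure (X n)).map ι)) {ε : ℝ} (hε : 0 < ε)
    (y : X n) : Lam n ε ν' (tmol δ ι ψ) (ι y) = c * tmol δ ι (Lam n ε volume ψ) (ι y) := by
  obtain ⟨C, hC1, hg, _⟩ := vol_reg n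
  have hC0 : 0 ≤ C := by linarith
  have hψ' := N2b_tst hψ
  have hL0 : 0 ≤ max L 0 := le_max_right _ _
  have hρ0 : 0 < max ρ 1 := lt_of_lt_of_le one_pos (le_max_right _ _)
  have hcψ : Continuous ψ := hψ.continuous
  have hcutι : ∀ x w : X n, cut δ (ι w - ι x) = cut δ (w - x) := by
    intro x w
    unfold cut
    rw [← map_sub, ι.norm_map]
  have hkrι : ∀ x : X n, kr n ε (ι x - ι y) = kr n ε (x - y) := by
    intro x
    unfold kr
    rw [← map_sub, ι.norm_map]
  have hcutint : ∀ x : X n, Integrable (fun w : X n => cut δ (w - x)) volume := by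
    intro x
    have h1 : Integrable (fun w : X n => cut δ w) volume :=
      (cut_continuous hδ).integrable_of_hasCompactSupport (cut_hasCompactSupport hδ)
    exact h1.comp_sub_right x
  -- the mollification in the plane
  have htm : ∀ (φ : X n → ℝ) (x : X n), tmol δ ι φ (ι x) = ∫ w, cut δ w * φ (x + w) := by
    intro φ x
    unfold tmol
    simp only [hcutι]
    rw [← integral_add_left_eq_self (fun w : X n => cut δ (w - x) * φ w) x]
    refine integral_congr_ae (Filter.Eventually.of_forall fun w => ?_)
    show cut δ (x + w - x) * φ (x + w) = cut δ w * φ (x + w)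
    rw [add_sub_cancel_left]
  have hbψ : ∀ x, |ψ x| ≤ max L 0 * max ρ 1 := hψ'.abs_le hL0 hρ0 (by omega)
  set Mψ := max L 0 * max ρ 1 with hMψ
  have hM0 : 0 ≤ Mψ := by positivity
  have hci : Integrable (fun w : X n => cut δ w) volume :=
    (cut_continuous hδ).integrable_of_hasCompactSupport (cut_hasCompactSupport hδ)
  have hcψi : ∀ x : X n, Integrable (fun w : X n => cut δ w * ψ (x + w)) volume := by
    intro x
    refine Integrable.mono' (hci.mul_const Mψ)
      ((cut_continuous hδ).mul (hcψ.comp (continuous_const.add continuous_id))).aestronglyMeasurable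
      (Filter.Eventually.of_forall fun w => ?_)
    rw [Real.norm_eq_abs, abs_mul, abs_of_nonneg (cut_nonneg _ _)]
    exact mul_le_mul_of_nonneg_left (hbψ _) (cut_nonneg _ _)
  -- the integral over the plane
  have hme : MeasurableEmbedding (ι : X n → X d) :=
    ι.isometry.isClosedEmbedding.measurableEmbedding
  have e1 : Lam n ε ν' (tmol δ ι ψ) (ι y) =
      c * ∫ x : X n, (∫ w, cut δ w * (ψ (y + w) - ψ (x + w))) * kr n ε (x - y) := by
    unfold Lam
    rw [hν', integral_smul_measure, ENNReal.toReal_ofReal hc.le, smul_eq_mul, hme.integral_map]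
    congr 1
    refine integral_congr_ae (Filter.Eventually.of_forall fun x => ?_)
    show (tmol δ ι ψ (ι y) - tmol δ ι ψ (ι x)) * kr n ε (ι x - ι y) = _
    rw [htm, htm, hkrι, ← integral_sub (hcψi y) (hcψi x)]
    congr 1
    refine integral_congr_ae (Filter.Eventually.of_forall fun w => ?_)
    show cut δ w * ψ (y + w) - cut δ w * ψ (x + w) = cut δ w * (ψ (y + w) - ψ (x + w))
    ring
  rw [e1, htm]
  congr 1
  obtain ⟨A, _, hA⟩ := Gr.kr_integrable (d := n) n hn
  have hki : Integrable (fun x : X n => kr n ε (x - y)) volume := (hA C hC0 volume hg y ε hε).1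
  have hF : Integrable (Function.uncurry fun (x w : X n) =>
      cut δ w * (ψ (y + w) - ψ (x + w)) * kr n ε (x - y))
      ((volume : Measure (X n)).prod volume) := by
    have h1 : Integrable (fun p : X n × X n => kr n ε (p.1 - y) * (cut δ p.2 * (2 * Mψ)))
        ((volume : Measure (X n)).prod volume) := hki.mul_prod (hci.mul_const (2 * Mψ))
    refine Integrable.mono' h1 ?_ (Filter.Eventually.of_forall fun p => ?_)
    · refine Continuous.aestronglyMeasurable ?_
      have hk := kr_continuous (d := n) n hε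
      have hcc := cut_continuous (d := n) hδ
      unfold Function.uncurry
      exact ((hcc.comp continuous_snd).mul ((hcψ.comp (continuous_const.add continuous_snd)).sub
        (hcψ.comp (continuous_fst.add continuous_snd)))).mul
        (hk.comp (continuous_fst.sub continuous_const))
    · show ‖cut δ p.2 * (ψ (y + p.2) - ψ (p.1 + p.2)) * kr n ε (p.1 - y)‖ ≤ _
      rw [Real.norm_eq_abs, abs_mul, abs_mul, abs_of_nonneg (cut_nonneg _ _),
        abs_of_nonneg (kr_nonneg _ _ _)]
      have h2 : |ψ (y + p.2) - ψ (p.1 + p.2)| ≤ 2 * Mψ := by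
        refine (abs_sub _ _).trans ?_
        have := hbψ (y + p.2)
        have := hbψ (p.1 + p.2)
        linarith
      have h3 : cut δ p.2 * |ψ (y + p.2) - ψ (p.1 + p.2)| ≤ cut δ p.2 * (2 * Mψ) :=
        mul_le_mul_of_nonneg_left h2 (cut_nonneg _ _)
      calc cut δ p.2 * |ψ (y + p.2) - ψ (p.1 + p.2)| * kr n ε (p.1 - y)
          ≤ cut δ p.2 * (2 * Mψ) * kr n ε (p.1 - y) :=
            mul_le_mul_of_nonneg_right h3 (kr_nonneg _ _ _)
        _ = _ := by ring
  calc ∫ x : X n, (∫ w, cut δ w * (ψ (y + w) - ψ (x + w))) * kr n ε (x - y)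
      = ∫ x : X n, ∫ w, cut δ w * (ψ (y + w) - ψ (x + w)) * kr n ε (x - y) := by
        refine integral_congr_ae (Filter.Eventually.of_forall fun x => ?_)
        show (∫ w, cut δ w * (ψ (y + w) - ψ (x + w))) * kr n ε (x - y) = _
        rw [← integral_mul_const]
    _ = ∫ w : X n, ∫ x, cut δ w * (ψ (y + w) - ψ (x + w)) * kr n ε (x - y) :=
        integral_integral_swap hF
    _ = ∫ w : X n, cut δ w * Lam n ε volume ψ (y + w) := by
        refine integral_congr_ae (Filter.Eventually.of_forall fun w => ?_)
        show (∫ x, cut δ w * (ψ (y + w) - ψ (x + w)) * kr n ε (x - y)) =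
          cut δ w * Lam n ε volume ψ (y + w)
        unfold Lam
        rw [← integral_const_mul,
          ← integral_add_right_eq_self (fun x : X n => cut δ w *
            ((ψ (y + w) - ψ x) * kr n ε (x - (y + w)))) w]
        refine integral_congr_ae (Filter.Eventually.of_forall fun x => ?_)
        show cut δ w * (ψ (y + w) - ψ (x + w)) * kr n ε (x - y) =
          cut δ w * ((ψ (y + w) - ψ (x + w)) * kr n ε (x + w - (y + w)))
        rw [add_sub_add_right_eq_sub]
        ring

end Pool.Agent.RZ
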