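import Pool.Agent.RZ.N2

/-!
N3b: pairing of the mollification with a decaying function on the coordinate space.
mol_pair_fubini: int_{X n} mol delta nu u (iota x) G(x) dx = int u (tmol delta iota G) dnu for G continuous with |G(x)| <= B(1+|x|)^{-(n+2)} (Fubini: cut delta (iota x - z) vanishes for |iota x - z| >= 2delta, Gr.weight).
mol_pair_limit: B o iota has the growth of mol_i o iota in the limit (uniform convergence on balls, mol_growth), and int mol_i(iota x) G(x) dx -> int B(iota x) G(x) dx: uniform convergence on balls, tails uniformly small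
(Gr.weight for volume on X n, vol_reg).
-/

set_option autoImplicit false

open MeasureTheory Filter Topology Metric Set
open scoped RealInnerProductSpace ENNReal

namespace Pool.Agent.RZ

variable {d n : ℕ}

private theorem N3b_far (hn : 1 ≤ n) : ∃ A : ℝ, 0 < A ∧ ∀ (C : ℝ), 0 ≤ C →
    ∀ ν : Measure (X d), Gr n C ν → ∀ u : X d → ℝ, Continuous u → ∀ M : ℝ, 0 ≤ M →
      (∀ r, 1 ≤ r → ∫ y in closedBall 0 r, u y ^ 2 ∂ν ≤ M * r ^ (n + 3)) →
      ∀ D : X d → ℝ, Continuous D → ∀ B : ℝ, (∀ y, |D y| ≤ B * (1 + ‖y‖)⁻¹ ^ (n + 2)) →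
        Integrable (fun y => u y * D y) ν ∧
        ∀ R : ℝ, 1 ≤ R →
          |∫ y in (closedBall (0 : X d) R)ᶜ, u y * D y ∂ν| ≤
            B * (A * Real.sqrt (M * C) * (Real.sqrt R)⁻¹) := by
  obtain ⟨A, hA, hw⟩ := Gr.weight (d := d) n hn
  refine ⟨A, hA, ?_⟩
  intro C hC ν h u hu M hM huM D hD B hB
  have := h.isLocallyFinite
  obtain ⟨hint, htail⟩ := hw C hC ν h u hu M hM huM
  have hB0 : 0 ≤ B := by
    have h1 := hB 0
    simp only [norm_zero, add_zero, inv_one, one_pow, mul_one] at h1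
    exact (abs_nonneg _).trans h1
  have hptw : ∀ y, ‖u y * D y‖ ≤ B * (|u y| * (1 + ‖y‖)⁻¹ ^ (n + 2)) := by
    intro y
    rw [Real.norm_eq_abs, abs_mul]
    calc |u y| * |D y| ≤ |u y| * (B * (1 + ‖y‖)⁻¹ ^ (n + 2)) :=
          mul_le_mul_of_nonneg_left (hB y) (abs_nonneg _)
      _ = B * (|u y| * (1 + ‖y‖)⁻¹ ^ (n + 2)) := by ring
  refine ⟨Integrable.mono' (hint.const_mul B) ((hu.mul hD).aestronglyMeasurable)
      (Eventually.of_forall hptw), fun R hR => ?_⟩
  have hsub : (closedBall (0 : X d) R)ᶜ ≤ {y | R ≤ ‖y‖} := by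
    intro y hy
    rw [mem_compl_iff, mem_closedBall, dist_zero_right, not_le] at hy
    exact hy.le
  calc |∫ y in (closedBall (0 : X d) R)ᶜ, u y * D y ∂ν|
      ≤ ∫ y in (closedBall (0 : X d) R)ᶜ, ‖u y * D y‖ ∂ν := by
        rw [← Real.norm_eq_abs]
        exact norm_integral_le_integral_norm _
    _ ≤ ∫ y in (closedBall (0 : X d) R)ᶜ, B * (|u y| * (1 + ‖y‖)⁻¹ ^ (n + 2)) ∂ν := by
        refine integral_mono_of_nonneg (Eventually.of_forall fun y => norm_nonneg _)
          (hint.const_mul B).integrableOn (Eventually.of_forall hptw)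
    _ ≤ ∫ y in {y | R ≤ ‖y‖}, B * (|u y| * (1 + ‖y‖)⁻¹ ^ (n + 2)) ∂ν := by
        refine setIntegral_mono_set (hint.const_mul B).integrableOn
          (Eventually.of_forall fun y => by positivity) (LE.le.eventuallyLE hsub)
    _ = B * ∫ y in {y | R ≤ ‖y‖}, |u y| * (1 + ‖y‖)⁻¹ ^ (n + 2) ∂ν := by
        rw [integral_const_mul]
    _ ≤ B * (A * Real.sqrt (M * C) * (Real.sqrt R)⁻¹) :=
        mul_le_mul_of_nonneg_left (htail R hR) hB0

private theorem N3b_ptw {δ : ℝ} (hδ : 0 < δ) (ι : X n →ₗᵢ[ℝ] X d) {G : X n → ℝ} {B : ℝ}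
    (hB0 : 0 ≤ B) (hB : ∀ x, |G x| ≤ B * (1 + ‖x‖)⁻¹ ^ (n + 2)) (x : X n) (z : X d) :
    cut δ (ι x - z) * |G x| ≤ B * ((1 + 2 * δ) * (1 + ‖z‖)⁻¹) ^ (n + 2) := by
  rcases le_or_gt (2 * δ) ‖ι x - z‖ with h | h
  · rw [cut_eq_zero hδ h, zero_mul]
    positivity
  · have h1 : ‖z‖ ≤ ‖x‖ + 2 * δ := by
      have h2 : ‖z‖ ≤ ‖ι x‖ + ‖ι x - z‖ := by
        have h3 := norm_sub_le (ι x) (ι x - z)
        rw [sub_sub_cancel] at h3
        exact h3
      rw [ι.norm_map] at h2
      linarith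
    have hx : 0 ≤ ‖x‖ := norm_nonneg _
    have hz : 0 ≤ ‖z‖ := norm_nonneg _
    have h4 : (1 + ‖x‖)⁻¹ ≤ (1 + 2 * δ) * (1 + ‖z‖)⁻¹ := by
      rw [← div_eq_mul_inv, le_div_iff₀ (by positivity), inv_mul_le_iff₀ (by positivity)]
      nlinarith
    calc cut δ (ι x - z) * |G x| ≤ 1 * (B * (1 + ‖x‖)⁻¹ ^ (n + 2)) :=
          mul_le_mul (cut_le_one _ _) (hB x) (abs_nonneg _) zero_le_one
      _ = B * (1 + ‖x‖)⁻¹ ^ (n + 2) := one_mul _
      _ ≤ B * ((1 + 2 * δ) * (1 + ‖z‖)⁻¹) ^ (n + 2) :=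
          mul_le_mul_of_nonneg_left (pow_le_pow_left₀ (by positivity) h4 _) hB0

private theorem N3b_inner {δ : ℝ} (hδ : 0 < δ) (ι : X n →ₗᵢ[ℝ] X d) {G : X n → ℝ} {B : ℝ}
    (hB0 : 0 ≤ B) (hB : ∀ x, |G x| ≤ B * (1 + ‖x‖)⁻¹ ^ (n + 2)) {C₁ : ℝ} (hC₁ : 0 ≤ C₁)
    (hG₁ : Gr n C₁ (volume : Measure (X n))) (z : X d) :
    ∫ x, cut δ (ι x - z) * |G x| ≤
      B * ((1 + 2 * δ) * (1 + ‖z‖)⁻¹) ^ (n + 2) * (C₁ * (4 * δ) ^ n) := by
  have hz : 0 ≤ ‖z‖ := norm_nonneg _
  by_cases hs : ∃ x₀ : X n, ‖ι x₀ - z‖ < 2 * δ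
  · obtain ⟨x₀, hx₀⟩ := hs
    have hsupp : ∀ x, x ∉ closedBall x₀ (4 * δ) → cut δ (ι x - z) * |G x| = 0 := by
      intro x hx
      rw [mem_closedBall, dist_eq_norm, not_le, ← ι.norm_map, map_sub] at hx
      have h1 : 2 * δ ≤ ‖ι x - z‖ := by
        have h2 := norm_sub_le (ι x - z) (ι x₀ - z)
        rw [sub_sub_sub_cancel_right] at h2
        linarith
      rw [cut_eq_zero hδ h1, zero_mul]
    rw [← setIntegral_eq_integral_of_forall_compl_eq_zero hsupp]
    have h1 := norm_setIntegral_le_of_norm_le_const (μ := (volume : Measure (X n)))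
      (s := closedBall x₀ (4 * δ)) (f := fun x => cut δ (ι x - z) * |G x|)
      (C := B * ((1 + 2 * δ) * (1 + ‖z‖)⁻¹) ^ (n + 2)) (hG₁.finite x₀ _) (fun x _ => by
        rw [Real.norm_eq_abs, abs_of_nonneg (mul_nonneg (cut_nonneg _ _) (abs_nonneg _))]
        exact N3b_ptw hδ ι hB0 hB x z)
    refine (le_abs_self _).trans (h1.trans ?_)
    exact mul_le_mul_of_nonneg_left (hG₁.real_le hC₁ x₀ (by positivity)) (by positivity)
  · push Not at hs
    have h0 : (fun x => cut δ (ι x - z) * |G x|) = fun _ => 0 := by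
      funext x
      rw [cut_eq_zero hδ (hs x), zero_mul]
    rw [h0, integral_zero]
    positivity

theorem mol_pair_fubini (hn : 1 ≤ n) {C : ℝ} (hC : 0 ≤ C) {ν : Measure (X d)} (h : Gr n C ν)
    (ι : X n →ₗᵢ[ℝ] X d) {δ : ℝ} (hδ : 0 < δ) {u : X d → ℝ} (hu : Continuous u) {M : ℝ}
    (hM : 0 ≤ M) (huM : ∀ r, 1 ≤ r → ∫ y in closedBall 0 r, u y ^ 2 ∂ν ≤ M * r ^ (n + 3))
    {G : X n → ℝ} (hG : Continuous G) {B : ℝ} (hB : ∀ x, |G x| ≤ B * (1 + ‖x‖)⁻¹ ^ (n + 2)) :
    ∫ x, mol δ ν u (ι x) * G x = ∫ z, u z * tmol δ ι G z ∂ν := by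
  have := h.isLocallyFinite
  obtain ⟨C₁, hC₁, hG₁, -⟩ := vol_reg n
  have hC₁0 : 0 ≤ C₁ := by linarith
  obtain ⟨A, hA, hw⟩ := Gr.weight (d := d) n hn
  obtain ⟨hint, -⟩ := hw C hC ν h u hu M hM huM
  have hB0 : 0 ≤ B := by
    have h1 := hB 0
    simp only [norm_zero, add_zero, inv_one, one_pow, mul_one] at h1
    exact (abs_nonneg _).trans h1
  have hcont : Continuous fun p : X n × X d => cut δ (ι p.1 - p.2) * u p.2 * G p.1 := by
    have h1 : Continuous fun p : X n × X d => cut δ (ι p.1 - p.2) :=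
      (cut_continuous hδ).comp ((ι.continuous.comp continuous_fst).sub continuous_snd)
    exact (h1.mul (hu.comp continuous_snd)).mul (hG.comp continuous_fst)
  have hI : Integrable (fun p : X n × X d => cut δ (ι p.1 - p.2) * u p.2 * G p.1)
      ((volume : Measure (X n)).prod ν) := by
    rw [integrable_prod_iff' hcont.aestronglyMeasurable]
    refine ⟨Eventually.of_forall fun z => ?_, ?_⟩
    · refine Continuous.integrable_of_hasCompactSupport
        (hcont.comp (Continuous.prodMk_left z)) ?_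
      refine HasCompactSupport.of_support_subset_isCompact
        (isCompact_closedBall (0 : X n) (‖z‖ + 2 * δ)) ?_
      intro x hx
      rw [mem_closedBall, dist_zero_right]
      by_contra hlt
      rw [not_le] at hlt
      apply hx
      have h1 : 2 * δ ≤ ‖ι x - z‖ := by
        have h2 := norm_sub_norm_le (ι x) z
        rw [ι.norm_map] at h2
        linarith
      simp only [cut_eq_zero hδ h1, zero_mul]
    · have hmeas : AEStronglyMeasurable
          (fun z => ∫ x, ‖cut δ (ι x - z) * u z * G x‖) ν := by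
        have h1 : StronglyMeasurable
            (Function.uncurry fun (x : X n) (z : X d) => ‖cut δ (ι x - z) * u z * G x‖) := by
          refine Continuous.stronglyMeasurable ?_
          exact hcont.norm
        exact (h1.integral_prod_left).aestronglyMeasurable
      refine Integrable.mono' (hint.const_mul
        (B * (1 + 2 * δ) ^ (n + 2) * (C₁ * (4 * δ) ^ n))) hmeas
        (Eventually.of_forall fun z => ?_)
      have h0 : 0 ≤ ∫ x, ‖cut δ (ι x - z) * u z * G x‖ :=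
        integral_nonneg fun x => norm_nonneg _
      rw [Real.norm_eq_abs, abs_of_nonneg h0]
      have h1 : (fun x => ‖cut δ (ι x - z) * u z * G x‖) =
          fun x => |u z| * (cut δ (ι x - z) * |G x|) := by
        funext x
        rw [norm_mul, norm_mul, Real.norm_eq_abs, Real.norm_eq_abs, Real.norm_eq_abs,
          abs_of_nonneg (cut_nonneg _ _)]
        ring
      rw [h1, integral_const_mul]
      have h2 := N3b_inner hδ ι hB0 hB hC₁0 hG₁ z
      calc |u z| * ∫ x, cut δ (ι x - z) * |G x|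
          ≤ |u z| * (B * ((1 + 2 * δ) * (1 + ‖z‖)⁻¹) ^ (n + 2) * (C₁ * (4 * δ) ^ n)) :=
            mul_le_mul_of_nonneg_left h2 (abs_nonneg _)
        _ = B * (1 + 2 * δ) ^ (n + 2) * (C₁ * (4 * δ) ^ n) *
            (|u z| * (1 + ‖z‖)⁻¹ ^ (n + 2)) := by
            rw [mul_pow]
            ring
  calc ∫ x, mol δ ν u (ι x) * G x
      = ∫ x, ∫ z, cut δ (ι x - z) * u z * G x ∂ν := by
        refine integral_congr_ae (Eventually.of_forall fun x => ?_)
        simp only [mol]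
        rw [integral_mul_const]
    _ = ∫ z, ∫ x, cut δ (ι x - z) * u z * G x ∂volume ∂ν := integral_integral_swap hI
    _ = ∫ z, u z * tmol δ ι G z ∂ν := by
        refine integral_congr_ae (Eventually.of_forall fun z => ?_)
        simp only [tmol]
        rw [← integral_const_mul]
        refine integral_congr_ae (Eventually.of_forall fun x => ?_)
        simp only
        ring

theorem mol_pair_limit (hn : 1 ≤ n) {C : ℝ} (hC : 0 ≤ C) {ν : ℕ → Measure (X d)}
    (h : ∀ i, Gr n C (ν i)) (ι : X n →ₗᵢ[ℝ] X d) {δ : ℝ} (hδ : 0 < δ)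
    {u : ℕ → X d → ℝ} (hu : ∀ i, Continuous (u i)) {M : ℝ} (hM : 0 ≤ M)
    (huM : ∀ i, ∀ r, 1 ≤ r → ∫ y in closedBall 0 r, u i y ^ 2 ∂(ν i) ≤ M * r ^ (n + 3))
    {B : X d → ℝ} (hB : Continuous B)
    (hlim : ∀ R η : ℝ, 0 < η → ∀ᶠ i in (hyperfilter ℕ : Filter ℕ),
      ∀ x ∈ closedBall (0 : X d) R, |mol δ (ν i) (u i) x - B x| ≤ η) :
    (∃ M' : ℝ, 0 ≤ M' ∧
      ∀ r, 1 ≤ r → ∫ y in closedBall (0 : X n) r, (B (ι y)) ^ 2 ≤ M' * r ^ (n + 3)) ∧
    ∀ (G : X n → ℝ) (b : ℝ), Continuous G → (∀ x, |G x| ≤ b * (1 + ‖x‖)⁻¹ ^ (n + 2)) →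
      Tendsto (fun i => ∫ x, mol δ (ν i) (u i) (ι x) * G x) (hyperfilter ℕ)
        (𝓝 (∫ x, B (ι x) * G x)) := by
  obtain ⟨C₁, hC₁, hG₁, -⟩ := vol_reg n
  have hC₁0 : 0 ≤ C₁ := by linarith
  obtain ⟨M₁, hM₁, hgr⟩ := mol_growth (d := d) hn hC hM hδ
  have hgi := fun i => hgr ι (ν i) (h i) (u i) (hu i) (huM i)
  have hmc : ∀ i, Continuous fun x : X n => mol δ (ν i) (u i) (ι x) := fun i =>
    (mol_continuous (h i) (hu i) hδ).comp ι.continuous
  have hBc : Continuous fun x : X n => B (ι x) := hB.comp ι.continuous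
  have hgB : ∀ r, 1 ≤ r → ∫ y in closedBall (0 : X n) r, (B (ι y)) ^ 2 ≤
      (2 * M₁ + 2 * C₁) * r ^ (n + 3) := by
    intro r hr
    obtain ⟨i, hi⟩ := (hlim r 1 one_pos).exists
    have hcpt : IsCompact (closedBall (0 : X n) r) := isCompact_closedBall 0 r
    have hi1 : IntegrableOn (fun y : X n => 2 * (mol δ (ν i) (u i) (ι y)) ^ 2)
        (closedBall (0 : X n) r) volume :=
      (((hmc i).pow 2).const_mul 2).continuousOn.integrableOn_compact hcpt
    have hi2 : IntegrableOn (fun _ : X n => (2 : ℝ)) (closedBall (0 : X n) r) volume :=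
      continuous_const.continuousOn.integrableOn_compact hcpt
    have hi3 : IntegrableOn (fun y : X n => (B (ι y)) ^ 2) (closedBall (0 : X n) r) volume :=
      (hBc.pow 2).continuousOn.integrableOn_compact hcpt
    have hr0 : 0 < r := by linarith
    calc ∫ y in closedBall (0 : X n) r, (B (ι y)) ^ 2
        ≤ ∫ y in closedBall (0 : X n) r, (2 * (mol δ (ν i) (u i) (ι y)) ^ 2 + 2) := by
          refine setIntegral_mono_on hi3 (hi1.add hi2) measurableSet_closedBall fun y hy => ?_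
          have h1 : ι y ∈ closedBall (0 : X d) r := by
            rw [mem_closedBall, dist_zero_right, ι.norm_map]
            simpa using hy
          have h2 := hi _ h1
          have h3 := abs_le.mp h2
          nlinarith [sq_nonneg (mol δ (ν i) (u i) (ι y) + (mol δ (ν i) (u i) (ι y) - B (ι y)))]
      _ = (∫ y in closedBall (0 : X n) r, 2 * (mol δ (ν i) (u i) (ι y)) ^ 2) +
          ∫ _ in closedBall (0 : X n) r, (2 : ℝ) := integral_add hi1 hi2
      _ ≤ 2 * (M₁ * r ^ (n + 3)) + C₁ * r ^ n * 2 := by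
          refine add_le_add ?_ ?_
          · rw [integral_const_mul]
            exact mul_le_mul_of_nonneg_left (hgi i r hr) (by norm_num)
          · rw [setIntegral_const, smul_eq_mul]
            exact mul_le_mul_of_nonneg_right (hG₁.real_le hC₁0 0 hr0) (by norm_num)
      _ ≤ (2 * M₁ + 2 * C₁) * r ^ (n + 3) := by
          have h4 : r ^ n ≤ r ^ (n + 3) := pow_le_pow_right₀ hr (by omega)
          nlinarith
  refine ⟨⟨2 * M₁ + 2 * C₁, by positivity, hgB⟩, ?_⟩
  intro G b hG hb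
  have hb0 : 0 ≤ b := by
    have h1 := hb 0
    simp only [norm_zero, add_zero, inv_one, one_pow, mul_one] at h1
    exact (abs_nonneg _).trans h1
  obtain ⟨A, hA, hfar⟩ := N3b_far (d := n) (n := n) hn
  have hf1 := fun i => hfar C₁ hC₁0 volume hG₁ _ (hmc i) M₁ hM₁ (hgi i) G hG b hb
  have hf2 := hfar C₁ hC₁0 volume hG₁ _ hBc (2 * M₁ + 2 * C₁) (by positivity) hgB G hG b hb
  rw [Metric.tendsto_nhds]
  intro η hη
  set K : ℝ := b * (A * Real.sqrt (M₁ * C₁)) + b * (A * Real.sqrt ((2 * M₁ + 2 * C₁) * C₁))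
    with hK
  have hlimR : Tendsto (fun R : ℝ => K * (Real.sqrt R)⁻¹) atTop (𝓝 (K * 0)) :=
    Tendsto.const_mul _ (tendsto_inv_atTop_zero.comp Real.tendsto_sqrt_atTop)
  rw [mul_zero] at hlimR
  obtain ⟨R, hR1, hR2⟩ := ((hlimR.eventually (gt_mem_nhds (by linarith : (0 : ℝ) < η / 2))).and
    (eventually_ge_atTop (1 : ℝ))).exists
  have hR0 : 0 < R := by linarith
  set V : ℝ := C₁ * R ^ n with hV
  have hV0 : 0 ≤ V := by positivity
  set κ : ℝ := η / (4 * (b * V + 1)) with hκ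
  have hbV : 0 ≤ b * V := mul_nonneg hb0 hV0
  have hκ0 : 0 < κ := by positivity
  have hκ1 : κ * (b * V) ≤ η / 4 := by
    rw [hκ, div_mul_eq_mul_div, div_le_div_iff₀ (by positivity) (by norm_num)]
    nlinarith
  filter_upwards [hlim R κ hκ0] with i hi
  rw [Real.dist_eq]
  have hs1 := integral_add_compl (measurableSet_closedBall (x := (0 : X n)) (ε := R)) (hf1 i).1
  have hs2 := integral_add_compl (measurableSet_closedBall (x := (0 : X n)) (ε := R)) hf2.1
  rw [← hs1, ← hs2]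
  have hnear : |(∫ x in closedBall (0 : X n) R, mol δ (ν i) (u i) (ι x) * G x) -
      ∫ x in closedBall (0 : X n) R, B (ι x) * G x| ≤ η / 4 := by
    rw [← integral_sub (hf1 i).1.integrableOn hf2.1.integrableOn]
    have h1 := norm_setIntegral_le_of_norm_le_const (μ := (volume : Measure (X n)))
      (s := closedBall (0 : X n) R)
      (f := fun x => mol δ (ν i) (u i) (ι x) * G x - B (ι x) * G x)
      (C := κ * b) (hG₁.finite 0 _) (fun x hx => by
        rw [← sub_mul, Real.norm_eq_abs, abs_mul]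
        have h2 : ι x ∈ closedBall (0 : X d) R := by
          rw [mem_closedBall, dist_zero_right, ι.norm_map]
          simpa using hx
        have h3 : |G x| ≤ b := by
          refine (hb x).trans ?_
          have h4 : (1 + ‖x‖)⁻¹ ^ (n + 2) ≤ 1 := by
            refine pow_le_one₀ (by positivity) ?_
            refine inv_le_one_of_one_le₀ ?_
            have := norm_nonneg x
            linarith
          calc b * (1 + ‖x‖)⁻¹ ^ (n + 2) ≤ b * 1 := mul_le_mul_of_nonneg_left h4 hb0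
            _ = b := mul_one b
        exact mul_le_mul (hi _ h2) h3 (abs_nonneg _) hκ0.le)
    rw [Real.norm_eq_abs] at h1
    refine h1.trans ?_
    calc κ * b * (volume : Measure (X n)).real (closedBall 0 R)
        ≤ κ * b * V := mul_le_mul_of_nonneg_left (hG₁.real_le hC₁0 0 hR0) (by positivity)
      _ = κ * (b * V) := by ring
      _ ≤ η / 4 := hκ1
  have hfar1 := (hf1 i).2 R hR2
  have hfar2 := hf2.2 R hR2
  have hsum : b * (A * Real.sqrt (M₁ * C₁) * (Real.sqrt R)⁻¹) +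
      b * (A * Real.sqrt ((2 * M₁ + 2 * C₁) * C₁) * (Real.sqrt R)⁻¹) = K * (Real.sqrt R)⁻¹ := by
    rw [hK]
    ring
  have e : (∫ x in closedBall (0 : X n) R, mol δ (ν i) (u i) (ι x) * G x) +
      (∫ x in (closedBall (0 : X n) R)ᶜ, mol δ (ν i) (u i) (ι x) * G x) -
      ((∫ x in closedBall (0 : X n) R, B (ι x) * G x) +
        ∫ x in (closedBall (0 : X n) R)ᶜ, B (ι x) * G x) =
      ((∫ x in closedBall (0 : X n) R, mol δ (ν i) (u i) (ι x) * G x) -
        ∫ x in closedBall (0 : X n) R, B (ι x) * G x) +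
      ((∫ x in (closedBall (0 : X n) R)ᶜ, mol δ (ν i) (u i) (ι x) * G x) -
        ∫ x in (closedBall (0 : X n) R)ᶜ, B (ι x) * G x) := by ring
  rw [e]
  refine lt_of_le_of_lt (abs_add_le _ _) ?_
  have h5 := abs_sub (∫ x in (closedBall (0 : X n) R)ᶜ, mol δ (ν i) (u i) (ι x) * G x)
    (∫ x in (closedBall (0 : X n) R)ᶜ, B (ι x) * G x)
  linarith

end Pool.Agent.RZ
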