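import Pool.Agent.RZ.N3a
import Pool.Agent.RZ.N3b

/-!
N3: the limit function satisfies the equation on the plane (assembly).
psi Tst on X n with int psi = 0; psi~ = tmol delta iota psi, G = Lam n eps volume psi (continuous: lam_continuous; decay: lam_bound, vol_reg), H = tmol delta iota G.
For each eps <= 1: int B(iota x) G(x) dx = lim_i int mol_i(iota x) G(x) dx (mol_pair_limit) = lim_i int u_i H dnu_i (mol_pair_fubini) and
int u_i (H - (1/c) Lam n eps nu' psi~) dnu_i -> 0 (pair_vanish with D = H - (1/c) Lam n eps nu' psi~, zero on Supp nu' subset range iota (tmol_plane), tmol_lam, lam_bound, lam_continuous).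
lin_limit for psi~ (tmol_tst, tmol_mean): |int u_i Lam n eps nu' psi~ dnu_i| <= B sqrt eps + eta. So |int B(iota x) Lam n eps volume psi dx| <= B sqrt eps / c. Let eps -> 0.
Integral as in EqL: int y, B (iota y) * Lam n eps volume psi y.
-/

set_option autoImplicit false

open MeasureTheory Filter Topology Metric Set
open scoped RealInnerProductSpace ENNReal

namespace Pool.Agent.RZ

variable {d n : ℕ}

private theorem N3_int (hn : 1 ≤ n) {C : ℝ} (hC : 0 ≤ C) {ν : Measure (X d)} (h : Gr n C ν)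
    {u : X d → ℝ} (hu : Continuous u) {M : ℝ} (hM : 0 ≤ M)
    (huM : ∀ r, 1 ≤ r → ∫ y in closedBall 0 r, u y ^ 2 ∂ν ≤ M * r ^ (n + 3))
    {D : X d → ℝ} (hD : Continuous D) {B : ℝ} (hB : ∀ y, |D y| ≤ B * (1 + ‖y‖)⁻¹ ^ (n + 2)) :
    Integrable (fun y => u y * D y) ν := by
  have := h.isLocallyFinite
  obtain ⟨A, hA, hw⟩ := Gr.weight (d := d) n hn
  obtain ⟨hint, -⟩ := hw C hC ν h u hu M hM huM
  refine Integrable.mono' (hint.const_mul B) ((hu.mul hD).aestronglyMeasurable)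
    (Eventually.of_forall fun y => ?_)
  rw [Real.norm_eq_abs, abs_mul]
  calc |u y| * |D y| ≤ |u y| * (B * (1 + ‖y‖)⁻¹ ^ (n + 2)) :=
        mul_le_mul_of_nonneg_left (hB y) (abs_nonneg _)
    _ = B * (|u y| * (1 + ‖y‖)⁻¹ ^ (n + 2)) := by ring

private theorem N3_apply (ι : X n →ₗᵢ[ℝ] X d) {c : ℝ} {ν' : Measure (X d)}
    (hν' : ν' = ENNReal.ofReal c • ((volume : Measure (X n)).map ι)) (x : X d) (r : ℝ) :
    ν' (ball x r) = ENNReal.ofReal c * (volume : Measure (X n)) (ι ⁻¹' ball x r) := by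
  rw [hν', Measure.smul_apply, smul_eq_mul,
    Measure.map_apply ι.continuous.measurable measurableSet_ball]

private theorem N3_supp (ι : X n →ₗᵢ[ℝ] X d) {c : ℝ} {ν' : Measure (X d)}
    (hν' : ν' = ENNReal.ofReal c • ((volume : Measure (X n)).map ι)) :
    ∀ y ∈ Supp ν', y ∈ Set.range ι := by
  intro y hy
  by_contra hne
  have hcl : IsClosed (Set.range ι) := by
    have : IsComplete (Set.range ι) := by
      rw [← Set.image_univ]
      exact (ι.isometry.isUniformInducing.isComplete_iff.mpr complete_univ)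
    exact this.isClosed
  have hopen : IsOpen (Set.range ι)ᶜ := hcl.isOpen_compl
  obtain ⟨r, hr, hsub⟩ := Metric.isOpen_iff.mp hopen y hne
  have h1 := hy r hr
  rw [N3_apply ι hν'] at h1
  have h2 : ι ⁻¹' ball y r = ∅ := by
    ext x
    simp only [mem_preimage, mem_empty_iff_false, iff_false]
    intro hx
    exact hsub hx ⟨x, rfl⟩
  rw [h2, measure_empty, mul_zero] at h1
  exact lt_irrefl _ h1

private theorem N3_nonempty (ι : X n →ₗᵢ[ℝ] X d) {c : ℝ} (hc : 0 < c) {ν' : Measure (X d)}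
    (hν' : ν' = ENNReal.ofReal c • ((volume : Measure (X n)).map ι)) : (Supp ν').Nonempty := by
  refine ⟨0, fun r hr => ?_⟩
  rw [N3_apply ι hν']
  have h2 : ι ⁻¹' ball (0 : X d) r = ball (0 : X n) r := by
    ext x
    simp only [mem_preimage, mem_ball, dist_zero_right, ι.norm_map]
  rw [h2]
  refine ENNReal.mul_pos ?_ ?_
  · simpa using hc
  · exact (measure_ball_pos volume 0 hr).ne'

theorem mol_EqL (hn : 1 ≤ n) (hd : 0 < d) {C : ℝ} (hC : 1 ≤ C)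
    {ν : ℕ → Measure (X d)} {ν' : Measure (X d)} (h : ∀ i, Gr n C (ν i)) (h' : Gr n C ν')
    (hv : VC ν ν') (ι : X n →ₗᵢ[ℝ] X d) {c : ℝ} (hc : 0 < c)
    (hν' : ν' = ENNReal.ofReal c • ((volume : Measure (X n)).map ι))
    {u : ℕ → X d → ℝ} (hu : ∀ i, Continuous (u i)) {M : ℝ} (hM : 0 ≤ M)
    (huM : ∀ i, ∀ r, 1 ≤ r → ∫ y in closedBall 0 r, u i y ^ 2 ∂(ν i) ≤ M * r ^ (n + 3))
    {E : ℝ → ℝ} (hE : ∀ i, ∀ R, 1 ≤ R → ∀ ε : ℝ, 0 < ε →
      ∫ y in closedBall 0 R, ∫ x in closedBall 0 R,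
        (u i y - u i x) ^ 2 * kr n ε (x - y) ∂(ν i) ∂(ν i) ≤ E R)
    (hA : AEq n ν u) {δ : ℝ} (hδ : 0 < δ) {B : X d → ℝ} (hB : LL B)
    (hlim : ∀ R η : ℝ, 0 < η → ∀ᶠ i in (hyperfilter ℕ : Filter ℕ),
      ∀ x ∈ closedBall (0 : X d) R, |mol δ (ν i) (u i) x - B x| ≤ η) :
    EqL n volume (fun y => B (ι y)) ∧ ∃ M' : ℝ, 0 ≤ M' ∧
      ∀ r, 1 ≤ r → ∫ y in closedBall (0 : X n) r, (B (ι y)) ^ 2 ≤ M' * r ^ (n + 3) := by
  have hC0 : (0 : ℝ) ≤ C := by linarith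
  obtain ⟨C₁, hC₁, hG₁, -⟩ := vol_reg n
  have hC₁0 : 0 ≤ C₁ := by linarith
  obtain ⟨hgr, hpair⟩ := mol_pair_limit hn hC0 h ι hδ hu hM huM hB.continuous hlim
  refine ⟨?_, hgr⟩
  intro L ρ ψ hψ h0
  -- normalised constants
  have hψ' : Tst (max L 0) (max ρ 1) ψ := hψ.mono (le_max_left _ _) (le_max_left _ _)
  have hL0 : 0 ≤ max L 0 := le_max_right _ _
  have hρ0 : 0 < max ρ 1 := lt_of_lt_of_le one_pos (le_max_right _ _)
  obtain ⟨L', ρ', hL', hρ', htst⟩ := tmol_tst hn hδ ι hψ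
  have hmean := tmol_mean hn hδ ι hψ h0 hc hν'
  obtain ⟨B₀, hB₀⟩ := lin_limit hn hd hC0 h h' hv hu hM huM hE hA (N3_nonempty ι hc hν') htst hmean
  have hkey : ∀ ε : ℝ, 0 < ε → ε ≤ 1 →
      |∫ y, B (ι y) * Lam n ε volume ψ y| ≤ 1 / c * (B₀ * Real.sqrt ε) := by
    intro ε hε hε1
    set G : X n → ℝ := Lam n ε volume ψ with hG
    have hGc : Continuous G := lam_continuous hn hC₁0 hG₁ hε hψ
    obtain ⟨b, hb, hbd⟩ := lam_bound (d := n) n hn hn C₁ (max L 0) (max ρ 1) ε hC₁0 hL0 hρ0 hε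
    have hGb : ∀ x, |G x| ≤ b * (1 + ‖x‖)⁻¹ ^ (n + 2) := hbd volume hG₁ ψ hψ' h0
    obtain ⟨hHc, b₁, hHb⟩ := tmol_lam hn hδ ι hψ h0 hε
    have hΛc : Continuous (Lam n ε ν' (tmol δ ι ψ)) := lam_continuous hn hC0 h' hε htst
    obtain ⟨b₂, hb₂, hbd₂⟩ := lam_bound (d := d) n hn hd C L' ρ' ε hC0 hL' hρ' hε
    have hΛb : ∀ y, |Lam n ε ν' (tmol δ ι ψ) y| ≤ b₂ * (1 + ‖y‖)⁻¹ ^ (n + 2) :=
      hbd₂ ν' h' _ htst hmean
    set D : X d → ℝ := fun z => tmol δ ι G z - 1 / c * Lam n ε ν' (tmol δ ι ψ) z with hD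
    have hDc : Continuous D := hHc.sub (hΛc.const_mul _)
    have hDb : ∀ y, |D y| ≤ (b₁ + 1 / c * b₂) * (1 + ‖y‖)⁻¹ ^ (n + 2) := by
      intro y
      have h1 : |D y| ≤ |tmol δ ι G y| + |1 / c * Lam n ε ν' (tmol δ ι ψ) y| := abs_sub _ _
      have h2 : |1 / c * Lam n ε ν' (tmol δ ι ψ) y| ≤ 1 / c * (b₂ * (1 + ‖y‖)⁻¹ ^ (n + 2)) := by
        rw [abs_mul, abs_of_pos (by positivity : (0 : ℝ) < 1 / c)]
        exact mul_le_mul_of_nonneg_left (hΛb y) (by positivity)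
      have h3 := hHb y
      calc |D y| ≤ b₁ * (1 + ‖y‖)⁻¹ ^ (n + 2) + 1 / c * (b₂ * (1 + ‖y‖)⁻¹ ^ (n + 2)) :=
            h1.trans (add_le_add h3 h2)
        _ = (b₁ + 1 / c * b₂) * (1 + ‖y‖)⁻¹ ^ (n + 2) := by ring
    have hDz : ∀ y ∈ Supp ν', D y = 0 := by
      intro y hy
      obtain ⟨x, rfl⟩ := N3_supp ι hν' y hy
      have h1 := tmol_plane hn hδ ι hψ h0 hc hν' hε x
      simp only [hD]
      rw [h1]
      field_simp
      ring
    have hvan := pair_vanish hn hC h h' hv hu hM huM hDc hDb hDz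
    have hlimG := hpair G b hGc hGb
    have heq : ∀ i, ∫ x, mol δ (ν i) (u i) (ι x) * G x =
        (∫ y, u i y * D y ∂(ν i)) + 1 / c * ∫ y, u i y * Lam n ε ν' (tmol δ ι ψ) y ∂(ν i) := by
      intro i
      rw [mol_pair_fubini hn hC0 (h i) ι hδ (hu i) hM (huM i) hGc hGb]
      have hi1 := N3_int hn hC0 (h i) (hu i) hM (huM i) hDc hDb
      have hi2 := N3_int hn hC0 (h i) (hu i) hM (huM i) hΛc hΛb
      rw [← integral_const_mul, ← integral_add hi1 (hi2.const_mul _)]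
      refine integral_congr_ae (Eventually.of_forall fun z => ?_)
      simp only [hD]
      ring
    refine le_of_forall_pos_le_add fun η hη => ?_
    have hη1 : 0 < η / 3 := by positivity
    have e1 := (Metric.tendsto_nhds.mp hlimG) (η / 3) hη1
    have e2 := (Metric.tendsto_nhds.mp hvan) (η / 3) hη1
    have e3 := hB₀ ε hε hε1 (c * (η / 3)) (by positivity)
    obtain ⟨i, ⟨h1, h2⟩, h3⟩ := ((e1.and e2).and e3).exists
    rw [Real.dist_eq] at h1 h2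
    rw [sub_zero] at h2
    rw [heq i] at h1
    have h4 : |1 / c * ∫ y, u i y * Lam n ε ν' (tmol δ ι ψ) y ∂(ν i)| ≤
        1 / c * (B₀ * Real.sqrt ε) + η / 3 := by
      rw [abs_mul, abs_of_pos (by positivity : (0 : ℝ) < 1 / c)]
      calc 1 / c * |∫ y, u i y * Lam n ε ν' (tmol δ ι ψ) y ∂(ν i)|
          ≤ 1 / c * (B₀ * Real.sqrt ε + c * (η / 3)) :=
            mul_le_mul_of_nonneg_left h3 (by positivity)
        _ = 1 / c * (B₀ * Real.sqrt ε) + η / 3 := by field_simp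
    have h5 : |∫ y, B (ι y) * G y| ≤
        |(∫ y, u i y * D y ∂(ν i)) + 1 / c * (∫ y, u i y * Lam n ε ν' (tmol δ ι ψ) y ∂(ν i)) -
          ∫ y, B (ι y) * G y| + (|∫ y, u i y * D y ∂(ν i)| +
        |1 / c * ∫ y, u i y * Lam n ε ν' (tmol δ ι ψ) y ∂(ν i)|) := by
      have h6 := abs_sub_abs_le_abs_sub (∫ y, B (ι y) * G y)
        ((∫ y, u i y * D y ∂(ν i)) + 1 / c * ∫ y, u i y * Lam n ε ν' (tmol δ ι ψ) y ∂(ν i))
      rw [abs_sub_comm] at h6
      have h7 := abs_add_le (∫ y, u i y * D y ∂(ν i))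
        (1 / c * ∫ y, u i y * Lam n ε ν' (tmol δ ι ψ) y ∂(ν i))
      linarith
    linarith
  have hlim0 : Tendsto (fun ε : ℝ => 1 / c * (B₀ * Real.sqrt ε)) (𝓝[>] 0) (𝓝 0) := by
    have h1 : Tendsto (fun ε : ℝ => 1 / c * (B₀ * Real.sqrt ε)) (𝓝 0)
        (𝓝 (1 / c * (B₀ * Real.sqrt 0))) :=
      Tendsto.const_mul _ (Tendsto.const_mul _ (Real.continuous_sqrt.tendsto 0))
    rw [Real.sqrt_zero, mul_zero, mul_zero] at h1
    exact h1.mono_left nhdsWithin_le_nhds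
  refine squeeze_zero_norm' ?_ hlim0
  have h1 : ∀ᶠ ε : ℝ in 𝓝[>] 0, ε ∈ Ioc (0 : ℝ) 1 := Ioc_mem_nhdsGT one_pos
  filter_upwards [h1] with ε hε
  rw [Real.norm_eq_abs]
  exact hkey ε hε.1 hε.2

end Pool.Agent.RZ
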