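import Pool.Agent.RZ.N2
import Pool.Agent.RZ.V6

/-!
N3a: functions vanishing on the support of the limit. D continuous, |D| <= B(1+|y|)^{-(n+2)}, D = 0 on Supp nu': |int u_i D dnu_i| <= (int_{B_R} u_i^2)^{1/2} (int cut R D^2 dnu_i)^{1/2} + tail,
tail <= B A sqrt(M C)/sqrt R (Gr.weight), int cut R D^2 dnu_i -> int cut R D^2 dnu' = 0 (supp_compl_null).
-/

set_option autoImplicit false

open MeasureTheory Filter Topology Metric Set
open scoped RealInnerProductSpace ENNReal

namespace Pool.Agent.RZ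

variable {d n : ℕ}

private theorem N3a_bound (hn : 1 ≤ n) {C : ℝ} (hC : 0 ≤ C) : ∃ A : ℝ, 0 < A ∧
    ∀ ν : Measure (X d), Gr n C ν → ∀ u : X d → ℝ, Continuous u → ∀ M : ℝ, 0 ≤ M →
      (∀ r, 1 ≤ r → ∫ y in closedBall 0 r, u y ^ 2 ∂ν ≤ M * r ^ (n + 3)) →
      ∀ D : X d → ℝ, Continuous D → ∀ B : ℝ, (∀ y, |D y| ≤ B * (1 + ‖y‖)⁻¹ ^ (n + 2)) →
        ∀ R : ℝ, 1 ≤ R → ∀ t : ℝ, 0 < t →
          |∫ y, u y * D y ∂ν| ≤ t / 2 * (M * R ^ (n + 3)) +
            1 / (2 * t) * (∫ y, cut R y * D y ^ 2 ∂ν) +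
            B * (A * Real.sqrt (M * C) * (Real.sqrt R)⁻¹) := by
  obtain ⟨A, hA, hw⟩ := Gr.weight (d := d) n hn
  refine ⟨A, hA, ?_⟩
  intro ν h u hu M hM huM D hD B hB R hR t ht
  haveI := h.isLocallyFinite
  obtain ⟨hint, htail⟩ := hw C hC ν h u hu M hM huM
  have hB0 : 0 ≤ B := by
    have h1 := hB 0
    simp only [norm_zero, add_zero, inv_one, one_pow, mul_one] at h1
    exact (abs_nonneg _).trans h1
  have hR0 : 0 < R := by linarith
  have hptw : ∀ y, ‖u y * D y‖ ≤ B * (|u y| * (1 + ‖y‖)⁻¹ ^ (n + 2)) := by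
    intro y
    rw [Real.norm_eq_abs, abs_mul]
    calc |u y| * |D y| ≤ |u y| * (B * (1 + ‖y‖)⁻¹ ^ (n + 2)) :=
          mul_le_mul_of_nonneg_left (hB y) (abs_nonneg _)
      _ = B * (|u y| * (1 + ‖y‖)⁻¹ ^ (n + 2)) := by ring
  have hI : Integrable (fun y => u y * D y) ν :=
    Integrable.mono' (hint.const_mul B) ((hu.mul hD).aestronglyMeasurable)
      (Eventually.of_forall hptw)
  -- far part
  have hfar : |∫ y in (closedBall (0 : X d) R)ᶜ, u y * D y ∂ν| ≤
      B * (A * Real.sqrt (M * C) * (Real.sqrt R)⁻¹) := by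
    have hsub : (closedBall (0 : X d) R)ᶜ ⊆ {y | R ≤ ‖y‖} := by
      intro y hy
      rw [mem_compl_iff, mem_closedBall, dist_zero_right, not_le] at hy
      exact hy.le
    calc |∫ y in (closedBall (0 : X d) R)ᶜ, u y * D y ∂ν|
        ≤ ∫ y in (closedBall (0 : X d) R)ᶜ, ‖u y * D y‖ ∂ν := by
          rw [← Real.norm_eq_abs]
          exact norm_integral_le_integral_norm _
      _ ≤ ∫ y in (closedBall (0 : X d) R)ᶜ, B * (|u y| * (1 + ‖y‖)⁻¹ ^ (n + 2)) ∂ν := by
          refine integral_mono_of_nonneg (Eventually.of_forall fun y => norm_nonneg _)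
            (hint.const_mul B).integrableOn (Eventually.of_forall hptw)
      _ ≤ ∫ y in {y | R ≤ ‖y‖}, B * (|u y| * (1 + ‖y‖)⁻¹ ^ (n + 2)) ∂ν := by
          refine setIntegral_mono_set (hint.const_mul B).integrableOn
            (Eventually.of_forall fun y => by positivity) (HasSubset.Subset.eventuallyLE hsub)
      _ = B * ∫ y in {y | R ≤ ‖y‖}, |u y| * (1 + ‖y‖)⁻¹ ^ (n + 2) ∂ν := by
          rw [integral_const_mul]
      _ ≤ B * (A * Real.sqrt (M * C) * (Real.sqrt R)⁻¹) :=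
          mul_le_mul_of_nonneg_left (htail R hR) hB0
  -- near part
  have hcpt : IsCompact (closedBall (0 : X d) R) := isCompact_closedBall 0 R
  have hu2 : IntegrableOn (fun y => u y ^ 2) (closedBall (0 : X d) R) ν :=
    (hu.pow 2).continuousOn.integrableOn_compact hcpt
  have hD2 : IntegrableOn (fun y => D y ^ 2) (closedBall (0 : X d) R) ν :=
    (hD.pow 2).continuousOn.integrableOn_compact hcpt
  have hcD : Integrable (fun y => cut R y * D y ^ 2) ν := by
    refine Continuous.integrable_of_hasCompactSupport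
      ((cut_continuous hR0).mul (hD.pow 2)) ?_
    exact (cut_hasCompactSupport hR0).mul_right
  have hnear2 : ∫ y in closedBall (0 : X d) R, D y ^ 2 ∂ν ≤ ∫ y, cut R y * D y ^ 2 ∂ν := by
    calc ∫ y in closedBall (0 : X d) R, D y ^ 2 ∂ν
        = ∫ y in closedBall (0 : X d) R, cut R y * D y ^ 2 ∂ν := by
          refine setIntegral_congr_fun measurableSet_closedBall ?_
          intro y hy
          have h1 : ‖y‖ ≤ R := by simpa using hy
          simp only [cut_eq_one hR0 h1, one_mul]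
      _ ≤ ∫ y, cut R y * D y ^ 2 ∂ν := by
          refine setIntegral_le_integral hcD (Eventually.of_forall fun y => ?_)
          exact mul_nonneg (cut_nonneg _ _) (sq_nonneg _)
  have hnear : |∫ y in closedBall (0 : X d) R, u y * D y ∂ν| ≤
      t / 2 * (M * R ^ (n + 3)) + 1 / (2 * t) * (∫ y, cut R y * D y ^ 2 ∂ν) := by
    calc |∫ y in closedBall (0 : X d) R, u y * D y ∂ν|
        ≤ ∫ y in closedBall (0 : X d) R, ‖u y * D y‖ ∂ν := by
          rw [← Real.norm_eq_abs]
          exact norm_integral_le_integral_norm _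
      _ ≤ ∫ y in closedBall (0 : X d) R, (t / 2 * u y ^ 2 + 1 / (2 * t) * D y ^ 2) ∂ν := by
          refine integral_mono_of_nonneg (Eventually.of_forall fun y => norm_nonneg _)
            ((hu2.const_mul _).add (hD2.const_mul _)) (Eventually.of_forall fun y => ?_)
          simp only [Real.norm_eq_abs, abs_mul]
          have h1 : 0 ≤ (t * |u y| - |D y|) ^ 2 := sq_nonneg _
          have h2 : t / 2 * u y ^ 2 + 1 / (2 * t) * D y ^ 2 - |u y| * |D y| =
              1 / (2 * t) * (t * |u y| - |D y|) ^ 2 := by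
            field_simp
            rw [← sq_abs (u y), ← sq_abs (D y)]
            ring
          have h3 : 0 ≤ 1 / (2 * t) * (t * |u y| - |D y|) ^ 2 := by positivity
          linarith
      _ = t / 2 * (∫ y in closedBall (0 : X d) R, u y ^ 2 ∂ν) +
          1 / (2 * t) * (∫ y in closedBall (0 : X d) R, D y ^ 2 ∂ν) := by
          rw [integral_add (hu2.const_mul _) (hD2.const_mul _), integral_const_mul,
            integral_const_mul]
      _ ≤ t / 2 * (M * R ^ (n + 3)) + 1 / (2 * t) * (∫ y, cut R y * D y ^ 2 ∂ν) := by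
          refine add_le_add (mul_le_mul_of_nonneg_left (huM R hR) (by positivity))
            (mul_le_mul_of_nonneg_left hnear2 (by positivity))
  have hsplit := integral_add_compl (measurableSet_closedBall (x := (0 : X d)) (ε := R)) hI
  rw [← hsplit]
  exact (abs_add_le _ _).trans (add_le_add hnear hfar)

theorem pair_vanish (hn : 1 ≤ n) {C : ℝ} (hC : 1 ≤ C)
    {ν : ℕ → Measure (X d)} {ν' : Measure (X d)} (h : ∀ i, Gr n C (ν i)) (h' : Gr n C ν')
    (hv : VC ν ν') {u : ℕ → X d → ℝ} (hu : ∀ i, Continuous (u i)) {M : ℝ} (hM : 0 ≤ M)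
    (huM : ∀ i, ∀ r, 1 ≤ r → ∫ y in closedBall 0 r, u i y ^ 2 ∂(ν i) ≤ M * r ^ (n + 3))
    {D : X d → ℝ} (hD : Continuous D) {B : ℝ} (hB : ∀ y, |D y| ≤ B * (1 + ‖y‖)⁻¹ ^ (n + 2))
    (hz : ∀ y ∈ Supp ν', D y = 0) :
    Tendsto (fun i => ∫ y, u i y * D y ∂(ν i)) (hyperfilter ℕ) (𝓝 0) := by
  obtain ⟨A, hA, hb⟩ := N3a_bound (d := d) hn (by linarith : (0 : ℝ) ≤ C)
  rw [Metric.tendsto_nhds]
  intro η hη
  -- choice of `R`
  have hlim : Tendsto (fun R : ℝ => B * (A * Real.sqrt (M * C) * (Real.sqrt R)⁻¹)) atTop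
      (𝓝 (B * (A * Real.sqrt (M * C) * 0))) := by
    refine Tendsto.const_mul _ (Tendsto.const_mul _ ?_)
    exact tendsto_inv_atTop_zero.comp Real.tendsto_sqrt_atTop
  rw [mul_zero, mul_zero] at hlim
  obtain ⟨R, hR1, hR2⟩ := ((hlim.eventually (gt_mem_nhds (by linarith : (0 : ℝ) < η / 4))).and
    (eventually_ge_atTop (1 : ℝ))).exists
  have hR0 : 0 < R := by linarith
  set t : ℝ := η / (2 * (M * R ^ (n + 3) + 1)) with ht
  have hMR : 0 ≤ M * R ^ (n + 3) := by positivity
  have ht0 : 0 < t := by positivity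
  have ht1 : t / 2 * (M * R ^ (n + 3)) ≤ η / 4 := by
    rw [ht]
    have : 0 < M * R ^ (n + 3) + 1 := by linarith
    rw [div_div, div_mul_eq_mul_div, div_le_div_iff₀ (by positivity) (by norm_num)]
    nlinarith
  have hgc : Continuous (fun y : X d => cut R y * D y ^ 2) := (cut_continuous hR0).mul (hD.pow 2)
  have hgs : HasCompactSupport (fun y : X d => cut R y * D y ^ 2) :=
    (cut_hasCompactSupport hR0).mul_right
  have h0 : ∫ y, cut R y * D y ^ 2 ∂ν' = 0 := by
    refine integral_eq_zero_of_ae ?_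
    have hnull : ∀ᵐ y ∂ν', y ∈ Supp ν' := by
      rw [ae_iff]
      exact supp_compl_null ν'
    filter_upwards [hnull] with y hy
    simp [hz y hy]
  have htend := hv _ hgc hgs
  rw [h0] at htend
  have hev := htend.eventually (gt_mem_nhds (show (0 : ℝ) < t * η / 2 by positivity))
  filter_upwards [hev] with i hi
  rw [dist_zero_right, Real.norm_eq_abs]
  have h1 := hb (ν i) (h i) (u i) (hu i) M hM (huM i) D hD B hB R hR2 t ht0
  have h2 : 1 / (2 * t) * (∫ y, cut R y * D y ^ 2 ∂(ν i)) < η / 4 := by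
    have h3 : 1 / (2 * t) * (∫ y, cut R y * D y ^ 2 ∂(ν i)) < 1 / (2 * t) * (t * η / 2) :=
      mul_lt_mul_of_pos_left hi (by positivity)
    have h4 : 1 / (2 * t) * (t * η / 2) = η / 4 := by
      field_simp
      ring
    linarith
  linarith

end Pool.Agent.RZ
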