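import Pool.Agent.RZ.N1
import Pool.Agent.RZ.V2

/-!
N4: strong approximation by averages.
For x in Supp nu (nu-a.e. x): m(x) = int cut delta (x-y) dnu >= delta^n / C, (u x - mol/m)^2 <= m^{-1} int cut delta (x-y) (u x - u y)^2 <= C delta^{-n} int_{|x-y|<=2delta} (u x-u y)^2,
and for |x-y| <= 2 delta: kr n delta (x-y) >= (sqrt 5 delta)^{-(n+1)}. So the integral over x in closedBall 0 2 is <= A delta iint_{B_3^2} (u-u)^2 kr n delta.
-/

set_option autoImplicit false

open MeasureTheory Filter Topology Metric Set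
open scoped RealInnerProductSpace ENNReal

namespace Pool.Agent.RZ

variable {d : ℕ}

private theorem N4_jensen {ν : Measure (X d)} [IsFiniteMeasureOnCompacts ν] {w g : X d → ℝ}
    (hw : Continuous w) (hwc : HasCompactSupport w) (hw0 : ∀ y, 0 ≤ w y) (hg : Continuous g)
    (hm : 0 < ∫ y, w y ∂ν) :
    ((∫ y, w y * g y ∂ν) / ∫ y, w y ∂ν) ^ 2 ≤ (∫ y, w y ∂ν)⁻¹ * ∫ y, w y * g y ^ 2 ∂ν := by
  set m := ∫ y, w y ∂ν with hmd
  set t := (∫ y, w y * g y ∂ν) / m with ht
  have i1 : Integrable w ν := hw.integrable_of_hasCompactSupport hwc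
  have i2 : Integrable (fun y => w y * g y) ν :=
    (hw.mul hg).integrable_of_hasCompactSupport hwc.mul_right
  have i3 : Integrable (fun y => w y * g y ^ 2) ν :=
    (hw.mul (hg.pow 2)).integrable_of_hasCompactSupport hwc.mul_right
  have h0 : 0 ≤ ∫ y, w y * (g y - t) ^ 2 ∂ν :=
    integral_nonneg fun y => mul_nonneg (hw0 y) (sq_nonneg _)
  have h1 : ∫ y, w y * (g y - t) ^ 2 ∂ν =
      (∫ y, w y * g y ^ 2 ∂ν) - 2 * t * (∫ y, w y * g y ∂ν) + t ^ 2 * m := by
    have i4 : Integrable (fun y => 2 * t * (w y * g y)) ν := i2.const_mul _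
    have i5 : Integrable (fun y => t ^ 2 * w y) ν := i1.const_mul _
    have i6 : Integrable (fun y => w y * g y ^ 2 - 2 * t * (w y * g y)) ν := i3.sub i4
    rw [hmd, ← integral_const_mul, ← integral_const_mul, ← integral_sub i3 i4,
      ← integral_add i6 i5]
    refine integral_congr_ae (Eventually.of_forall fun y => ?_)
    simp only []
    ring
  have h2 : ∫ y, w y * g y ∂ν = t * m := by
    rw [ht]; field_simp
  rw [h1, h2] at h0
  have h3 : t ^ 2 * m ≤ ∫ y, w y * g y ^ 2 ∂ν := by nlinarith
  rw [inv_mul_eq_div, le_div_iff₀ hm]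
  exact h3

/-- the kernel dominates the cut-off -/
private theorem N4_cut_le (n : ℕ) {δ : ℝ} (hδ : 0 < δ) (z : X d) :
    cut δ z ≤ (Real.sqrt 5 * δ) ^ (n + 1) * kr n δ z := by
  by_cases hz : 2 * δ ≤ ‖z‖
  · rw [cut_eq_zero hδ hz]
    exact mul_nonneg (by positivity) (kr_nonneg n δ z)
  · push Not at hz
    refine (cut_le_one δ z).trans ?_
    unfold kr
    rw [← mul_pow]
    refine one_le_pow₀ ?_
    have hpos : 0 < Real.sqrt (‖z‖ ^ 2 + δ ^ 2) := Real.sqrt_pos.mpr (by positivity)
    rw [← div_eq_mul_inv, le_div_iff₀ hpos, one_mul]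
    have h5 : Real.sqrt 5 * δ = Real.sqrt (5 * δ ^ 2) := by
      rw [Real.sqrt_mul (by norm_num), Real.sqrt_sq hδ.le]
    rw [h5]
    refine Real.sqrt_le_sqrt ?_
    nlinarith [norm_nonneg z]

theorem strong_avg (n : ℕ) (hn : 1 ≤ n) (C : ℝ) (hC : 1 ≤ C) : ∃ A : ℝ, 0 < A ∧
    ∀ ν : Measure (X d), Gr n C ν → Lo n C ν → ∀ u : X d → ℝ, Continuous u →
      ∀ E : ℝ, (∀ ε : ℝ, 0 < ε → ∫ y in closedBall 0 3, ∫ x in closedBall 0 3,
        (u y - u x) ^ 2 * kr n ε (x - y) ∂ν ∂ν ≤ E) →
      ∀ δ : ℝ, 0 < δ → δ ≤ 1 / 4 →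
        ∫ x, cut 1 x * (u x - mol δ ν u x / mol δ ν (fun _ => 1) x) ^ 2 ∂ν ≤ A * δ * E := by
  have h5 : 0 < Real.sqrt 5 := Real.sqrt_pos.mpr (by norm_num)
  have hC0 : 0 < C := lt_of_lt_of_le one_pos hC
  refine ⟨C * Real.sqrt 5 ^ (n + 1), by positivity, ?_⟩
  intro ν hG hL u hu E hE δ hδ hδ4
  have := hG.isLocallyFinite
  set K : ℝ := C / δ ^ n * (Real.sqrt 5 * δ) ^ (n + 1) with hK
  have hK0 : 0 ≤ K := by positivity
  set I : X d → ℝ := fun x => ∫ y in closedBall (0 : X d) 3, (u x - u y) ^ 2 * kr n δ (y - x) ∂ν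
    with hI
  -- integrability of the inner function
  have hcont : Continuous fun p : X d × X d => (u p.1 - u p.2) ^ 2 * kr n δ (p.2 - p.1) :=
    (((hu.comp continuous_fst).sub (hu.comp continuous_snd)).pow 2).mul
      ((kr_continuous n hδ).comp (continuous_snd.sub continuous_fst))
  have hint : Integrable (fun p : X d × X d => (u p.1 - u p.2) ^ 2 * kr n δ (p.2 - p.1))
      ((ν.restrict (closedBall 0 3)).prod (ν.restrict (closedBall 0 3))) := by
    rw [Measure.prod_restrict]
    exact hcont.continuousOn.integrableOn_compact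
      ((isCompact_closedBall _ _).prod (isCompact_closedBall _ _))
  have hIint : IntegrableOn I (closedBall 0 3) ν := hint.integral_prod_left
  have hIE : ∫ x in closedBall (0 : X d) 3, I x ∂ν ≤ E := hE δ hδ
  have hI0 : ∀ x, 0 ≤ I x := fun x =>
    integral_nonneg fun y => mul_nonneg (sq_nonneg _) (kr_nonneg _ _ _)
  have hgint : Integrable ((closedBall (0 : X d) 3).indicator fun x => K * I x) ν := by
    rw [integrable_indicator_iff measurableSet_closedBall]
    exact hIint.const_mul K
  have hmain : ∫ x, cut 1 x * (u x - mol δ ν u x / mol δ ν (fun _ => 1) x) ^ 2 ∂ν ≤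
      ∫ x, (closedBall (0 : X d) 3).indicator (fun x => K * I x) x ∂ν := by
    refine integral_mono_of_nonneg (Eventually.of_forall fun x =>
      mul_nonneg (cut_nonneg _ _) (sq_nonneg _)) hgint ?_
    have hsupp : ∀ᵐ x ∂ν, x ∈ Supp ν := by
      have := supp_compl_null ν
      exact mem_ae_iff.mpr this
    filter_upwards [hsupp] with x hx
    have hg0 : 0 ≤ (closedBall (0 : X d) 3).indicator (fun x => K * I x) x :=
      indicator_nonneg (fun y _ => mul_nonneg hK0 (hI0 y)) x
    by_cases hx2 : 2 * (1 : ℝ) ≤ ‖x‖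
    · rw [cut_eq_zero one_pos hx2, zero_mul]
      exact hg0
    push Not at hx2
    have hx3 : x ∈ closedBall (0 : X d) 3 := by
      rw [mem_closedBall_zero_iff]; linarith
    rw [indicator_of_mem hx3]
    -- the average
    have hwcont : Continuous fun y : X d => cut δ (x - y) :=
      (cut_continuous hδ).comp (continuous_const.sub continuous_id)
    have hwsupp : HasCompactSupport fun y : X d => cut δ (x - y) := by
      refine HasCompactSupport.intro (isCompact_closedBall x (2 * δ)) fun y hy => ?_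
      rw [mem_closedBall, dist_comm, dist_eq_norm, not_le] at hy
      exact cut_eq_zero hδ hy.le
    have hmge : δ ^ n / C ≤ ∫ y, cut δ (x - y) ∂ν := by
      have h1 : ENNReal.ofReal (δ ^ n / C) ≤ ν (closedBall x δ) := hL x hx δ hδ
      have h2 : δ ^ n / C ≤ ν.real (closedBall x δ) := by
        rw [Measure.real, ← ENNReal.ofReal_le_iff_le_toReal (hG.finite x δ).ne]
        exact h1
      refine h2.trans ?_
      have h3 : ν.real (closedBall x δ) = ∫ y, (closedBall x δ).indicator (fun _ => (1 : ℝ)) y ∂ν := by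
        rw [integral_indicator measurableSet_closedBall, setIntegral_const, smul_eq_mul, mul_one]
      rw [h3]
      refine integral_mono_of_nonneg (Eventually.of_forall fun y =>
        indicator_nonneg (fun _ _ => zero_le_one) y)
        (hwcont.integrable_of_hasCompactSupport hwsupp) (Eventually.of_forall fun y => ?_)
      by_cases hy : y ∈ closedBall x δ
      · simp only [indicator_of_mem hy]
        rw [cut_eq_one hδ]
        rw [mem_closedBall, dist_comm, dist_eq_norm] at hy
        exact hy
      · simp only [indicator_of_notMem hy]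
        exact cut_nonneg _ _
    have hmpos : 0 < ∫ y, cut δ (x - y) ∂ν := lt_of_lt_of_le (by positivity) hmge
    have hj := N4_jensen (ν := ν) hwcont hwsupp (fun y => cut_nonneg _ _)
      (g := fun y => u x - u y) (continuous_const.sub hu) hmpos
    have hmol1 : mol δ ν (fun _ => 1) x = ∫ y, cut δ (x - y) ∂ν := by
      simp only [mol, mul_one]
    have hdiff : u x - mol δ ν u x / mol δ ν (fun _ => 1) x =
        (∫ y, cut δ (x - y) * (u x - u y) ∂ν) / ∫ y, cut δ (x - y) ∂ν := by
      have e1 : ∫ y, cut δ (x - y) * (u x - u y) ∂ν =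
          u x * (∫ y, cut δ (x - y) ∂ν) - mol δ ν u x := by
        have j1 : Integrable (fun y => u x * cut δ (x - y)) ν :=
          (hwcont.integrable_of_hasCompactSupport hwsupp).const_mul _
        have j2 : Integrable (fun y => cut δ (x - y) * u y) ν :=
          (hwcont.mul hu).integrable_of_hasCompactSupport hwsupp.mul_right
        unfold mol
        rw [← integral_const_mul, ← integral_sub j1 j2]
        refine integral_congr_ae (Eventually.of_forall fun y => ?_)
        simp only []
        ring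
      rw [hmol1, e1]
      field_simp
    rw [hdiff]
    have hb : (∫ y, cut δ (x - y) * (u x - u y) ^ 2 ∂ν) ≤ (Real.sqrt 5 * δ) ^ (n + 1) * I x := by
      have hr : (Real.sqrt 5 * δ) ^ (n + 1) * I x =
          ∫ y, (closedBall (0 : X d) 3).indicator
            (fun y => (Real.sqrt 5 * δ) ^ (n + 1) * ((u x - u y) ^ 2 * kr n δ (y - x))) y ∂ν := by
        rw [integral_indicator measurableSet_closedBall, integral_const_mul]
      rw [hr]
      refine integral_mono_of_nonneg (Eventually.of_forall fun y =>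
        mul_nonneg (cut_nonneg _ _) (sq_nonneg _)) ?_ (Eventually.of_forall fun y => ?_)
      · rw [integrable_indicator_iff measurableSet_closedBall]
        refine ContinuousOn.integrableOn_compact (isCompact_closedBall _ _) ?_
        exact (continuous_const.mul (((continuous_const.sub hu).pow 2).mul
          ((kr_continuous n hδ).comp (continuous_id.sub continuous_const)))).continuousOn
      · simp only []
        by_cases hy : y ∈ closedBall (0 : X d) 3
        · rw [indicator_of_mem hy]
          have h1 := N4_cut_le n hδ (x - y)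
          rw [kr_comm n δ x y] at h1
          have h2 : 0 ≤ (u x - u y) ^ 2 := sq_nonneg _
          calc cut δ (x - y) * (u x - u y) ^ 2
              ≤ ((Real.sqrt 5 * δ) ^ (n + 1) * kr n δ (y - x)) * (u x - u y) ^ 2 :=
                mul_le_mul_of_nonneg_right h1 h2
            _ = (Real.sqrt 5 * δ) ^ (n + 1) * ((u x - u y) ^ 2 * kr n δ (y - x)) := by ring
        · rw [indicator_of_notMem hy]
          have hy3 : 3 < ‖y‖ := by
            rw [mem_closedBall_zero_iff, not_le] at hy; exact hy
          have hxy : 2 * δ ≤ ‖x - y‖ := by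
            have := norm_sub_norm_le y x
            rw [norm_sub_rev] at this
            linarith
          rw [cut_eq_zero hδ hxy, zero_mul]
    have hinv : (∫ y, cut δ (x - y) ∂ν)⁻¹ ≤ C / δ ^ n := by
      rw [← inv_div]
      exact inv_anti₀ (by positivity) hmge
    have hcut1 := cut_le_one 1 x
    have hcut0 := cut_nonneg 1 x
    calc cut 1 x * ((∫ y, cut δ (x - y) * (u x - u y) ∂ν) / ∫ y, cut δ (x - y) ∂ν) ^ 2
        ≤ 1 * ((∫ y, cut δ (x - y) * (u x - u y) ∂ν) / ∫ y, cut δ (x - y) ∂ν) ^ 2 :=
          mul_le_mul_of_nonneg_right hcut1 (sq_nonneg _)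
      _ ≤ (∫ y, cut δ (x - y) ∂ν)⁻¹ * ∫ y, cut δ (x - y) * (u x - u y) ^ 2 ∂ν := by
          rw [one_mul]; exact hj
      _ ≤ C / δ ^ n * ((Real.sqrt 5 * δ) ^ (n + 1) * I x) := by
          refine mul_le_mul hinv hb ?_ (by positivity)
          exact integral_nonneg fun y => mul_nonneg (cut_nonneg _ _) (sq_nonneg _)
      _ = K * I x := by rw [hK]; ring
  refine hmain.trans ?_
  rw [integral_indicator measurableSet_closedBall, integral_const_mul]
  have hKeq : K = C * Real.sqrt 5 ^ (n + 1) * δ := by
    rw [hK, mul_pow, pow_succ δ n]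
    field_simp
  rw [hKeq]
  exact mul_le_mul_of_nonneg_left hIE (by positivity)

end Pool.Agent.RZ
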