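import Pool.Agent.RZ.N3
import Pool.Agent.RZ.N4
import Pool.Agent.RZ.G4

/-!
N5: linearisation theorem.
Energies: caccioppoli with S = M R^{n+3} (lower bound at 0 from Lo and 0 in Supp): E R = A M R^{n+2}. AEq.of_EqL. Choose delta with 2 A delta E(3) <= eta/2 (and <= 1/4).
mol_limit gives B, mol_EqL + liouville (B o iota is LL): B(iota y) = c1 + <w1,y>. m' = mol delta nu' 1 (iota y) = m_delta > 0 independent of y (translation invariance).
c0 = c1/m_delta, w = w1/m_delta, a(x) = c0 + <iota w, x>.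
N_i(x) = mol delta nu_i u_i x - a(x) mol delta nu_i 1 x -> N(x) = B x - a(x) mol delta nu' 1 x uniformly on closedBall 0 2 (mol_limit and VC.param), N = 0 on Supp nu' = range iota.
int cut 1 (mol_i/m_i - a)^2 dnu_i <= (C/delta^n)^2 int cut 1 N_i^2 dnu_i -> (C/delta^n)^2 int cut 1 N^2 dnu' = 0 (m_i >= delta^n/C nu_i-a.e. by Lo).
(u_i - a)^2 <= 2 (u_i - mol_i/m_i)^2 + 2 (mol_i/m_i - a)^2.
-/

set_option autoImplicit false

open MeasureTheory Filter Topology Metric Set
open scoped RealInnerProductSpace ENNReal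

namespace Pool.Agent.RZ

variable {d n : ℕ}

/-- the function `y ↦ cut δ (x - y)` is integrable -/
private theorem N5_cut_integrable {C : ℝ} {ν : Measure (X d)} (h : Gr n C ν) {δ : ℝ} (hδ : 0 < δ)
    (x : X d) : Integrable (fun y : X d => cut δ (x - y)) ν := by
  haveI := h.isLocallyFinite
  have hc : Continuous (fun y : X d => cut δ (x - y)) :=
    (cut_continuous hδ).comp (continuous_const.sub continuous_id)
  have hs : HasCompactSupport (fun y : X d => cut δ (x - y)) := by
    apply HasCompactSupport.intro (isCompact_closedBall x (2 * δ))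
    intro y hy
    apply cut_eq_zero hδ
    rw [mem_closedBall, dist_eq_norm, not_le] at hy
    rw [norm_sub_rev]
    exact hy.le
  exact hc.integrable_of_hasCompactSupport hs

/-- lower bound of the mollification of `1` on the support -/
private theorem N5_mol_one_ge {C : ℝ} (hC : 1 ≤ C) {ν : Measure (X d)} (h : Gr n C ν)
    (hlo : Lo n C ν) {δ : ℝ} (hδ : 0 < δ) {x : X d} (hx : x ∈ Supp ν) :
    δ ^ n / C ≤ mol δ ν (fun _ => 1) x := by
  haveI := h.isLocallyFinite
  have h1 : ENNReal.ofReal (δ ^ n / C) ≤ ν (closedBall x δ) := hlo x hx δ hδ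
  have h2 : δ ^ n / C ≤ ν.real (closedBall x δ) := by
    rw [Measure.real]
    exact (ENNReal.ofReal_le_iff_le_toReal (h.finite x δ).ne).1 h1
  have h3 : ν.real (closedBall x δ) = ∫ y, (closedBall x δ).indicator (fun _ => (1 : ℝ)) y ∂ν := by
    rw [integral_indicator measurableSet_closedBall]
    simp
  unfold mol
  refine h2.trans ?_
  rw [h3]
  apply integral_mono_of_nonneg
  · exact Filter.Eventually.of_forall fun y => indicator_nonneg (fun _ _ => zero_le_one) y
  · simpa using N5_cut_integrable h hδ x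
  · refine Filter.Eventually.of_forall fun y => ?_
    show (closedBall x δ).indicator (fun _ => (1 : ℝ)) y ≤ cut δ (x - y) * 1
    rw [mul_one]
    by_cases hy : y ∈ closedBall x δ
    · rw [indicator_of_mem hy]
      apply le_of_eq
      symm
      apply cut_eq_one hδ
      rw [mem_closedBall, dist_eq_norm] at hy
      rw [norm_sub_rev]
      exact hy
    · rw [indicator_of_notMem hy]
      exact cut_nonneg _ _

/-- integrals against the plane measure -/
private theorem N5_plane {c : ℝ} (hc : 0 < c) (ι : X n →ₗᵢ[ℝ] X d) (f : X d → ℝ)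
    (hf : Continuous f) :
    ∫ x, f x ∂(ENNReal.ofReal c • ((volume : Measure (X n)).map ι)) = c * ∫ y : X n, f (ι y) := by
  rw [integral_smul_measure, integral_map ι.continuous.aemeasurable hf.aestronglyMeasurable,
    ENNReal.toReal_ofReal hc.le, smul_eq_mul]

private theorem N5_mol_plane {c : ℝ} (hc : 0 < c) (ι : X n →ₗᵢ[ℝ] X d) {δ : ℝ} (hδ : 0 < δ)
    (y : X n) :
    mol δ (ENNReal.ofReal c • ((volume : Measure (X n)).map ι)) (fun _ => 1) (ι y) =
      c * ∫ z : X n, cut δ (ι z) := by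
  unfold mol
  have hcont : Continuous (fun z : X d => cut δ (ι y - z) * 1) := by
    simp only [mul_one]
    exact (cut_continuous hδ).comp (continuous_const.sub continuous_id)
  rw [N5_plane hc ι _ hcont]
  congr 1
  have h1 : ∀ z : X n, cut δ (ι y - ι z) * 1 = cut δ (ι (y - z)) := by
    intro z
    rw [mul_one, map_sub]
  simp_rw [h1]
  exact integral_sub_left_eq_self (fun z : X n => cut δ (ι z)) volume y

private theorem N5_mass_pos (ι : X n →ₗᵢ[ℝ] X d) {δ : ℝ} (hδ : 0 < δ) :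
    0 < ∫ z : X n, cut δ (ι z) := by
  have hc : Continuous (fun z : X n => cut δ (ι z)) := (cut_continuous hδ).comp ι.continuous
  have hs : HasCompactSupport (fun z : X n => cut δ (ι z)) := by
    apply HasCompactSupport.intro (isCompact_closedBall (0 : X n) (2 * δ))
    intro y hy
    apply cut_eq_zero hδ
    rw [mem_closedBall, dist_zero_right, not_le] at hy
    rw [ι.norm_map]
    exact hy.le
  apply hc.integral_pos_of_hasCompactSupport_nonneg_nonzero hs (fun z => cut_nonneg _ _) (x := 0)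
  rw [map_zero]
  have : cut δ (0 : X d) = 1 := cut_eq_one hδ (by simpa using hδ.le)
  rw [this]
  exact one_ne_zero

/-- uniform convergence of the mollified masses -/
private theorem N5_mass_conv (hn : 1 ≤ n) {C : ℝ} (hC : 1 ≤ C)
    {ν : ℕ → Measure (X d)} {ν' : Measure (X d)} (h : ∀ i, Gr n C (ν i)) (h' : Gr n C ν')
    (hv : VC ν ν') {δ : ℝ} (hδ : 0 < δ) (hδ4 : δ ≤ 1 / 4) {τ : ℝ} (hτ : 0 < τ) :
    ∀ᶠ i in (hyperfilter ℕ : Filter ℕ), ∀ x ∈ closedBall (0 : X d) 2,
      |mol δ (ν i) (fun _ => 1) x - mol δ ν' (fun _ => 1) x| ≤ τ := by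
  have hF : Continuous fun p : X d × X d => (fun x y : X d => cut δ (x - y) * 1) p.1 p.2 := by
    simp only [mul_one]
    exact (cut_continuous hδ).comp (continuous_fst.sub continuous_snd)
  have hB : ∀ x ∈ closedBall (0 : X d) 2, ∀ y : X d,
      |(fun x y : X d => cut δ (x - y) * 1) x y| ≤ 4 ^ (n + 1) * (1 + ‖y‖)⁻¹ ^ (n + 1) := by
    intro x hx y
    show |cut δ (x - y) * 1| ≤ _
    rw [mul_one, abs_of_nonneg (cut_nonneg _ _)]
    by_cases hy : 2 * δ ≤ ‖x - y‖
    · rw [cut_eq_zero hδ hy]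
      positivity
    · push Not at hy
      rw [mem_closedBall, dist_zero_right] at hx
      have h1 : ‖y‖ ≤ ‖x‖ + ‖x - y‖ := by
        have : y = x - (x - y) := by abel
        calc ‖y‖ = ‖x - (x - y)‖ := by rw [← this]
          _ ≤ ‖x‖ + ‖x - y‖ := norm_sub_le _ _
      have h2 : 1 + ‖y‖ ≤ 4 := by linarith
      have h3 : 1 ≤ 4 * (1 + ‖y‖)⁻¹ := by
        rw [← div_eq_mul_inv, le_div_iff₀ (by positivity)]
        linarith
      rw [← mul_pow]
      exact (cut_le_one _ _).trans (one_le_pow₀ h3)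
  exact VC.param hn (zero_le_one.trans hC) h h' hv hF (isCompact_closedBall 0 2) hB τ hτ

theorem linearize (hn : 1 ≤ n) (hd : 0 < d) {C : ℝ} (hC : 1 ≤ C)
    {ν : ℕ → Measure (X d)} {ν' : Measure (X d)} (h : ∀ i, Gr n C (ν i)) (h' : Gr n C ν')
    (hlo : ∀ i, Lo n C (ν i)) (h0 : ∀ i, 0 ∈ Supp (ν i))
    (hv : VC ν ν') (ι : X n →ₗᵢ[ℝ] X d) {c : ℝ} (hc : 0 < c)
    (hν' : ν' = ENNReal.ofReal c • ((volume : Measure (X n)).map ι))
    {u : ℕ → X d → ℝ} (hu : ∀ i, LL (u i)) (hE : ∀ i, EqL n (ν i) (u i)) {M : ℝ} (hM : 0 ≤ M)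
    (huM : ∀ i, ∀ r, 1 ≤ r → ∫ y in closedBall 0 r, u i y ^ 2 ∂(ν i) ≤ M * r ^ (n + 3))
    {η : ℝ} (hη : 0 < η) : ∃ (c0 : ℝ) (w : X n), ∀ᶠ i in (hyperfilter ℕ : Filter ℕ),
      ∫ x, cut 1 x * (u i x - (c0 + ⟪ι w, x⟫)) ^ 2 ∂(ν i) ≤ η := by
  have hC0 : 0 ≤ C := zero_le_one.trans hC
  have hCp : 0 < C := zero_lt_one.trans_le hC
  haveI : ∀ i, IsLocallyFiniteMeasure (ν i) := fun i => (h i).isLocallyFinite
  have huc : ∀ i, Continuous (u i) := fun i => (hu i).continuous
  -- energies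
  obtain ⟨A1, hA1, hcac⟩ := caccioppoli (d := d) n hn hd C hC
  have hEn : ∀ i, ∀ R, 1 ≤ R → ∀ ε : ℝ, 0 < ε →
      ∫ y in closedBall 0 R, ∫ x in closedBall 0 R,
        (u i y - u i x) ^ 2 * kr n ε (x - y) ∂(ν i) ∂(ν i) ≤ A1 * (M * R ^ (n + 3)) / R := by
    intro i R hR ε hε
    have hR0 : (0 : ℝ) < R := zero_lt_one.trans_le hR
    refine hcac (ν i) (h i) (fun r hr => hlo i 0 (h0 i) r hr) (u i) (hu i) (hE i)
      (M * R ^ (n + 3)) R (by positivity) hR ?_ ε hε
    intro r hr
    refine (huM i r (hR.trans hr)).trans (le_of_eq ?_)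
    rw [div_pow]
    field_simp
  -- averages
  obtain ⟨A2, hA2, havg⟩ := strong_avg (d := d) n hn C hC
  set E3 : ℝ := A1 * (M * 3 ^ (n + 3)) / 3 with hE3
  have hE3nn : 0 ≤ E3 := by rw [hE3]; positivity
  obtain ⟨δ, hδ, hδ4, hδη⟩ : ∃ δ : ℝ, 0 < δ ∧ δ ≤ 1 / 4 ∧ 2 * (A2 * δ * E3) ≤ η / 2 := by
    refine ⟨min (1 / 4) (η / (4 * (A2 * E3 + 1))), lt_min (by norm_num) (by positivity),
      min_le_left _ _, ?_⟩
    have h1 : min (1 / 4) (η / (4 * (A2 * E3 + 1))) ≤ η / (4 * (A2 * E3 + 1)) := min_le_right _ _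
    have h2 : A2 * min (1 / 4) (η / (4 * (A2 * E3 + 1))) * E3 ≤
        (A2 * E3) * (η / (4 * (A2 * E3 + 1))) := by
      calc A2 * min (1 / 4) (η / (4 * (A2 * E3 + 1))) * E3
          = (A2 * E3) * min (1 / 4) (η / (4 * (A2 * E3 + 1))) := by ring
        _ ≤ _ := mul_le_mul_of_nonneg_left h1 (by positivity)
    have h3 : (A2 * E3) * (η / (4 * (A2 * E3 + 1))) ≤ η / 4 := by
      rw [← mul_div_assoc, div_le_div_iff₀ (by positivity) (by norm_num)]
      nlinarith [mul_nonneg hA2.le hE3nn]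
    linarith
  -- the limit function
  obtain ⟨B, hB, hlim⟩ := mol_limit hn hC0 h huc hM huM hδ
  obtain ⟨hBE, M', hM', hBM⟩ := mol_EqL hn hd hC h h' hv ι hc hν' huc hM huM
    (E := fun R => A1 * (M * R ^ (n + 3)) / R) hEn (AEq.of_EqL hE) hδ hB hlim
  have hBι : LL (fun y : X n => B (ι y)) := by
    intro R
    obtain ⟨L, hL⟩ := hB R
    refine ⟨L, fun x hx y hy => ?_⟩
    have hx' : ι x ∈ closedBall (0 : X d) R := by
      rw [mem_closedBall, dist_zero_right] at hx ⊢
      rw [ι.norm_map]; exact hx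
    have hy' : ι y ∈ closedBall (0 : X d) R := by
      rw [mem_closedBall, dist_zero_right] at hy ⊢
      rw [ι.norm_map]; exact hy
    have h1 := hL _ hx' _ hy'
    rw [← map_sub, ι.norm_map] at h1
    exact h1
  obtain ⟨c1, w1, hBaff⟩ := liouville hn hBι hM' hBM hBE
  -- the mass
  set m : ℝ := c * ∫ z : X n, cut δ (ι z) with hm
  have hmpos : 0 < m := mul_pos hc (N5_mass_pos ι hδ)
  have hmol1 : ∀ y : X n, mol δ ν' (fun _ => 1) (ι y) = m := by
    intro y
    rw [hν']
    exact N5_mol_plane hc ι hδ y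
  refine ⟨c1 / m, m⁻¹ • w1, ?_⟩
  set a : X d → ℝ := fun x => c1 / m + ⟪ι (m⁻¹ • w1), x⟫ with ha
  have hac : Continuous a := continuous_const.add (continuous_const.inner continuous_id)
  have haι : ∀ y : X n, a (ι y) * m = B (ι y) := by
    intro y
    rw [hBaff y, ha]
    simp only
    rw [ι.inner_map_map, inner_smul_left]
    simp only [conj_trivial]
    field_simp
  have habd : ∀ x ∈ closedBall (0 : X d) 2, |a x| ≤ |c1 / m| + ‖ι (m⁻¹ • w1)‖ * 2 := by
    intro x hx
    rw [mem_closedBall, dist_zero_right] at hx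
    refine (abs_add_le _ _).trans (add_le_add le_rfl ?_)
    exact (abs_real_inner_le_norm _ _).trans (mul_le_mul_of_nonneg_left hx (norm_nonneg _))
  set A3 : ℝ := |c1 / m| + ‖ι (m⁻¹ • w1)‖ * 2 with hA3
  have hA3nn : 0 ≤ A3 := by rw [hA3]; positivity
  -- the functions N
  have hm1c' : Continuous (mol δ ν' (fun _ => 1)) := mol_continuous h' continuous_const hδ
  have hm1c : ∀ i, Continuous (mol δ (ν i) (fun _ => 1)) := fun i =>
    mol_continuous (h i) continuous_const hδ
  have hmuc : ∀ i, Continuous (mol δ (ν i) (u i)) := fun i => mol_continuous (h i) (huc i) hδ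
  set N : X d → ℝ := fun x => B x - a x * mol δ ν' (fun _ => 1) x with hN
  have hNc : Continuous N := hB.continuous.sub (hac.mul hm1c')
  set Ni : ℕ → X d → ℝ := fun i x =>
    mol δ (ν i) (u i) x - a x * mol δ (ν i) (fun _ => 1) x with hNi
  have hNic : ∀ i, Continuous (Ni i) := fun i => (hmuc i).sub (hac.mul (hm1c i))
  have hcutc : Continuous (cut 1 : X d → ℝ) := cut_continuous one_pos
  have hcuts : HasCompactSupport (cut 1 : X d → ℝ) := cut_hasCompactSupport one_pos
  -- integrability of cut * continuous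
  have hint : ∀ i, ∀ f : X d → ℝ, Continuous f → Integrable (fun x => cut 1 x * f x) (ν i) :=
    fun i f hf => (hcutc.mul hf).integrable_of_hasCompactSupport hcuts.mul_right
  have hNzero : ∫ x, cut 1 x * N x ^ 2 ∂ν' = 0 := by
    rw [hν', N5_plane hc ι (fun x => cut 1 x * N x ^ 2) (hcutc.mul (hNc.pow 2))]
    have h1 : ∀ y : X n, cut 1 (ι y) * N (ι y) ^ 2 = 0 := by
      intro y
      have : N (ι y) = 0 := by
        rw [hN]
        simp only
        rw [hmol1 y, haι y, sub_self]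
      rw [this]; ring
    simp_rw [h1]
    simp
  have hNlim : Tendsto (fun i => ∫ x, cut 1 x * N x ^ 2 ∂(ν i)) (hyperfilter ℕ) (𝓝 0) := by
    have hcs : HasCompactSupport (fun x => cut 1 x * N x ^ 2) :=
      HasCompactSupport.mul_right (f := (cut 1 : X d → ℝ)) (f' := fun x => N x ^ 2) hcuts
    have := hv (fun x => cut 1 x * N x ^ 2) (hcutc.mul (hNc.pow 2)) hcs
    rwa [hNzero] at this
  -- constants
  set K : ℝ := (C / δ ^ n) ^ 2 with hK
  have hKpos : 0 < K := by rw [hK]; positivity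
  obtain ⟨τ, hτ, hτη⟩ : ∃ τ : ℝ, 0 < τ ∧ 2 * K * (2 * (τ ^ 2 * (C * 2 ^ n))) ≤ η / 4 := by
    have hD : 0 < 2 * K * (2 * (C * 2 ^ n)) := by positivity
    refine ⟨Real.sqrt (η / 4 / (2 * K * (2 * (C * 2 ^ n)))), Real.sqrt_pos.2 (by positivity), ?_⟩
    rw [Real.sq_sqrt (by positivity)]
    apply le_of_eq
    field_simp
  have hev1 := hlim 2 (τ / 2) (by positivity)
  have hev2 := N5_mass_conv hn hC h h' hv hδ hδ4 (τ := τ / (2 * (A3 + 1))) (by positivity)
  have hev3 : ∀ᶠ i in (hyperfilter ℕ : Filter ℕ),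
      ∫ x, cut 1 x * N x ^ 2 ∂(ν i) < η / (16 * K) :=
    hNlim.eventually (gt_mem_nhds (by positivity))
  filter_upwards [hev1, hev2, hev3] with i h1 h2 h3
  -- N_i close to N on the ball of radius 2
  have hclose : ∀ x ∈ closedBall (0 : X d) 2, |Ni i x - N x| ≤ τ := by
    intro x hx
    have e : Ni i x - N x = (mol δ (ν i) (u i) x - B x) -
        a x * (mol δ (ν i) (fun _ => 1) x - mol δ ν' (fun _ => 1) x) := by
      rw [hNi, hN]; ring
    rw [e]
    have b1 := h1 x hx
    have b2 := h2 x hx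
    have b3 := habd x hx
    have b4 : |a x * (mol δ (ν i) (fun _ => 1) x - mol δ ν' (fun _ => 1) x)| ≤ τ / 2 := by
      rw [abs_mul]
      calc |a x| * |mol δ (ν i) (fun _ => 1) x - mol δ ν' (fun _ => 1) x|
          ≤ A3 * (τ / (2 * (A3 + 1))) := mul_le_mul b3 b2 (abs_nonneg _) hA3nn
        _ ≤ τ / 2 := by
            rw [← mul_div_assoc, div_le_div_iff₀ (by positivity) (by norm_num)]
            nlinarith
    calc |(mol δ (ν i) (u i) x - B x) -
        a x * (mol δ (ν i) (fun _ => 1) x - mol δ ν' (fun _ => 1) x)|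
        ≤ |mol δ (ν i) (u i) x - B x| +
          |a x * (mol δ (ν i) (fun _ => 1) x - mol δ ν' (fun _ => 1) x)| := abs_sub _ _
      _ ≤ τ := by linarith
  -- the integral of cut 1
  have hcutint : ∫ x, cut 1 x ∂(ν i) ≤ C * 2 ^ n := by
    have h4 : ∫ x, cut 1 x ∂(ν i) ≤
        ∫ x, (closedBall (0 : X d) 2).indicator (fun _ => (1 : ℝ)) x ∂(ν i) := by
      apply integral_mono_of_nonneg
      · exact Filter.Eventually.of_forall fun x => cut_nonneg _ _
      · rw [integrable_indicator_iff measurableSet_closedBall]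
        exact integrableOn_const (hs := ((h i).finite 0 2).ne)
      · refine Filter.Eventually.of_forall fun x => ?_
        by_cases hx : x ∈ closedBall (0 : X d) 2
        · show cut 1 x ≤ _
          rw [indicator_of_mem hx]; exact cut_le_one _ _
        · show cut 1 x ≤ _
          rw [indicator_of_notMem hx]
          rw [mem_closedBall, dist_zero_right, not_le] at hx
          exact (cut_eq_zero one_pos (by linarith)).le
    refine h4.trans ?_
    rw [integral_indicator measurableSet_closedBall]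
    simp only [integral_const, smul_eq_mul, mul_one, measureReal_restrict_apply_univ]
    exact (h i).real_le hC0 0 two_pos
  -- the integral of cut * N_i^2
  have hNiint : ∫ x, cut 1 x * Ni i x ^ 2 ∂(ν i) ≤ 2 * (∫ x, cut 1 x * N x ^ 2 ∂(ν i)) +
      2 * (τ ^ 2 * (C * 2 ^ n)) := by
    have h5 : ∫ x, cut 1 x * Ni i x ^ 2 ∂(ν i) ≤
        ∫ x, (2 * (cut 1 x * N x ^ 2) + 2 * (τ ^ 2 * cut 1 x)) ∂(ν i) := by
      apply integral_mono
      · exact hint i _ ((hNic i).pow 2)
      · apply Integrable.add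
        · exact (hint i _ (hNc.pow 2)).const_mul 2
        · apply Integrable.const_mul
          apply Integrable.const_mul
          exact hcutc.integrable_of_hasCompactSupport hcuts
      · intro x
        show cut 1 x * Ni i x ^ 2 ≤ 2 * (cut 1 x * N x ^ 2) + 2 * (τ ^ 2 * cut 1 x)
        by_cases hx : x ∈ closedBall (0 : X d) 2
        · have h6 := hclose x hx
          have h7 : (Ni i x - N x) ^ 2 ≤ τ ^ 2 := by
            rw [← sq_abs (Ni i x - N x)]
            exact pow_le_pow_left₀ (abs_nonneg _) h6 2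
          have h8 : Ni i x ^ 2 ≤ 2 * N x ^ 2 + 2 * τ ^ 2 := by
            nlinarith [sq_nonneg (Ni i x - 2 * N x)]
          have h9 := mul_le_mul_of_nonneg_left h8 (cut_nonneg 1 x)
          linarith
        · rw [mem_closedBall, dist_zero_right, not_le] at hx
          rw [cut_eq_zero one_pos (by linarith)]
          simp
    refine h5.trans ?_
    rw [integral_add, integral_const_mul, integral_const_mul, integral_const_mul]
    · have h10 := mul_le_mul_of_nonneg_left hcutint (sq_nonneg τ)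
      linarith
    · exact (hint i _ (hNc.pow 2)).const_mul 2
    · apply Integrable.const_mul
      apply Integrable.const_mul
      exact hcutc.integrable_of_hasCompactSupport hcuts
  -- a.e. on the support
  have hae : ∀ᵐ x ∂(ν i), x ∈ Supp (ν i) := by
    rw [ae_iff]
    exact supp_compl_null (ν i)
  set g : X d → ℝ := fun x => mol δ (ν i) (u i) x / mol δ (ν i) (fun _ => 1) x with hg
  have hgm : Measurable g := (hmuc i).measurable.div (hm1c i).measurable
  have hmlow : ∀ x ∈ Supp (ν i), δ ^ n / C ≤ mol δ (ν i) (fun _ => 1) x := fun x hx =>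
    N5_mol_one_ge hC (h i) (hlo i) hδ hx
  have hdC : 0 < δ ^ n / C := by positivity
  have hsq : ∀ x ∈ Supp (ν i), ∀ t : ℝ, (t / mol δ (ν i) (fun _ => 1) x) ^ 2 ≤ K * t ^ 2 := by
    intro x hx t
    have hm0 := hmlow x hx
    have hm1 : 0 < mol δ (ν i) (fun _ => 1) x := hdC.trans_le hm0
    have h6 : 1 / mol δ (ν i) (fun _ => 1) x ≤ C / δ ^ n := by
      rw [div_le_div_iff₀ hm1 (by positivity)]
      rw [div_le_iff₀ hCp] at hm0
      linarith
    have h7 : (1 / mol δ (ν i) (fun _ => 1) x) ^ 2 ≤ K :=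
      pow_le_pow_left₀ (by positivity) h6 2
    calc (t / mol δ (ν i) (fun _ => 1) x) ^ 2
        = (1 / mol δ (ν i) (fun _ => 1) x) ^ 2 * t ^ 2 := by ring
      _ ≤ K * t ^ 2 := mul_le_mul_of_nonneg_right h7 (sq_nonneg _)
  have hint1 : Integrable (fun x => cut 1 x * (u i x - g x) ^ 2) (ν i) := by
    have hdom : Integrable (fun x => cut 1 x * (2 * u i x ^ 2 +
        2 * (K * mol δ (ν i) (u i) x ^ 2))) (ν i) :=
      hint i _ ((continuous_const.mul ((huc i).pow 2)).add
        (continuous_const.mul (continuous_const.mul ((hmuc i).pow 2))))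
    refine hdom.mono' ?_ ?_
    · exact (hcutc.measurable.mul (((huc i).measurable.sub hgm).pow_const 2)).aestronglyMeasurable
    · filter_upwards [hae] with x hx
      rw [Real.norm_eq_abs, abs_of_nonneg (mul_nonneg (cut_nonneg _ _) (sq_nonneg _))]
      apply mul_le_mul_of_nonneg_left _ (cut_nonneg _ _)
      have h6 := hsq x hx (mol δ (ν i) (u i) x)
      have h7 : g x ^ 2 ≤ K * mol δ (ν i) (u i) x ^ 2 := h6
      nlinarith [sq_nonneg (u i x + g x)]
  have havgi := havg (ν i) (h i) (hlo i) (u i) (huc i) E3 (fun ε hε => hEn i 3 (by norm_num) ε hε)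
    δ hδ hδ4
  have hfin : ∫ x, cut 1 x * (u i x - a x) ^ 2 ∂(ν i) ≤
      ∫ x, (2 * (cut 1 x * (u i x - g x) ^ 2) + 2 * K * (cut 1 x * Ni i x ^ 2)) ∂(ν i) := by
    apply integral_mono_ae
    · exact hint i _ (((huc i).sub hac).pow 2)
    · apply Integrable.add
      · exact hint1.const_mul 2
      · exact (hint i _ ((hNic i).pow 2)).const_mul (2 * K)
    · filter_upwards [hae] with x hx
      have hm1 : mol δ (ν i) (fun _ => 1) x ≠ 0 := (hdC.trans_le (hmlow x hx)).ne'
      have h6 := hsq x hx (Ni i x)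
      have h7 : Ni i x / mol δ (ν i) (fun _ => 1) x = g x - a x := by
        rw [hg, hNi]
        simp only
        rw [sub_div, mul_div_assoc, div_self hm1, mul_one]
      rw [h7] at h6
      have h8 : (u i x - a x) ^ 2 ≤ 2 * (u i x - g x) ^ 2 + 2 * (K * Ni i x ^ 2) := by
        linarith only [h6, sq_nonneg ((u i x - g x) - (g x - a x))]
      have h9 := mul_le_mul_of_nonneg_left h8 (cut_nonneg 1 x)
      calc cut 1 x * (u i x - a x) ^ 2
          ≤ cut 1 x * (2 * (u i x - g x) ^ 2 + 2 * (K * Ni i x ^ 2)) := h9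
        _ = 2 * (cut 1 x * (u i x - g x) ^ 2) + 2 * K * (cut 1 x * Ni i x ^ 2) := by ring
  have hsum : ∫ x, (2 * (cut 1 x * (u i x - g x) ^ 2) + 2 * K * (cut 1 x * Ni i x ^ 2)) ∂(ν i) =
      2 * (∫ x, cut 1 x * (u i x - g x) ^ 2 ∂(ν i)) +
        2 * K * ∫ x, cut 1 x * Ni i x ^ 2 ∂(ν i) := by
    rw [integral_add, integral_const_mul, integral_const_mul]
    · exact hint1.const_mul 2
    · exact (hint i _ ((hNic i).pow 2)).const_mul (2 * K)
  rw [hsum] at hfin
  have h11 : ∫ x, cut 1 x * (u i x - g x) ^ 2 ∂(ν i) ≤ A2 * δ * E3 := havgi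
  have h12 : 2 * K * ∫ x, cut 1 x * Ni i x ^ 2 ∂(ν i) ≤ η / 2 := by
    have h13 := mul_le_mul_of_nonneg_left hNiint (by positivity : (0 : ℝ) ≤ 2 * K)
    have h14 : 2 * K * (2 * ∫ x, cut 1 x * N x ^ 2 ∂(ν i)) ≤ η / 4 := by
      have h15 := mul_le_mul_of_nonneg_left h3.le (by positivity : (0 : ℝ) ≤ 4 * K)
      have h16 : 4 * K * (η / (16 * K)) = η / 4 := by field_simp; ring
      rw [h16] at h15
      linarith
    rw [mul_add] at h13
    linarith
  have hgoal : ∫ x, cut 1 x * (u i x - (c1 / m + ⟪ι (m⁻¹ • w1), x⟫)) ^ 2 ∂(ν i) =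
      ∫ x, cut 1 x * (u i x - a x) ^ 2 ∂(ν i) := rfl
  rw [hgoal]
  linarith

end Pool.Agent.RZ
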