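import Pool.Agent.RZ.J6
import Pool.Agent.RZ.D4

/-!
P1: flat scales exist. Suppose the set of x in F with: exists m, k0 such that for all k >= k0 not Flat n mu x 2^{-k} (1/m) is not mu-null. Then for some m, k0 the set
Y = {x in F : for all k >= k0, NF n mu x (2^{-k}) (1/m)} has positive measure (not_flat_nf; countable union); Y is closed (NF is closed in x: x -> int cut r (y-x) q dmu is continuous), so measurable.
Take x in Y good and Dens n mu Y x (ae_dens, ae_good). Blow-ups with r_i = 2^{-i}: nu' in Reg, 0 in Supp (blow_reg). NFall n (1/m) nu': z in Supp nu', j in Z: supp_approx with A = Y gives y_i in Y with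
z_i = 2^i (y_i - x) -> z (diagonal choice: for every delta eventually; or use nf_limit with a sequence z_i chosen with |z_i - z| <= best possible), NF n nu_i z_i 2^j <-> NF n mu y_i 2^{j-i} (NF.blow_iff), nf_limit.
Contradiction to no_NFall.
-/

set_option autoImplicit false

open MeasureTheory Filter Topology Metric Set
open scoped RealInnerProductSpace ENNReal

namespace Pool.Agent.RZ

variable {d : ℕ}

private theorem P1_hyper {α : Type*} {u : ℕ → α} {l : Filter α} (h : Tendsto u atTop l) :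
    Tendsto u (hyperfilter ℕ : Filter ℕ) l :=
  h.mono_left (by rw [← Nat.cofinite_eq_atTop]; exact hyperfilter_le_cofinite)

private theorem P1_ev {p : ℕ → Prop} (h : ∀ᶠ i in atTop, p i) :
    ∀ᶠ i in (hyperfilter ℕ : Filter ℕ), p i := by
  have h1 : (hyperfilter ℕ : Filter ℕ) ≤ atTop := by
    rw [← Nat.cofinite_eq_atTop]; exact hyperfilter_le_cofinite
  exact h1 h

theorem nf_closed {n : ℕ} (hn : 1 ≤ n) {C : ℝ} (hC : 0 ≤ C) {μ : Measure (X d)} (hg : Gr n C μ)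
    {r : ℝ} (hr : 0 < r) (δ : ℝ) : IsClosed {x : X d | NF n μ x r δ} := by
  refine IsSeqClosed.isClosed fun u a hu ha => ?_
  exact nf_limit hn hC (ν := fun _ => μ) (ν' := μ) (fun _ => hg) hg
    (fun f _ _ => tendsto_const_nhds) (P1_hyper ha) hr (Eventually.of_forall hu)

private theorem P1_scale {i : ℕ} {j : ℤ} (h : j ≤ i) :
    (2 : ℝ)⁻¹ ^ i * (2 : ℝ) ^ j = (2 : ℝ)⁻¹ ^ ((i : ℤ) - j).toNat := by
  have h1 : ∀ k : ℕ, (2 : ℝ)⁻¹ ^ k = (2 : ℝ) ^ (-(k : ℤ)) := by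
    intro k
    rw [zpow_neg, zpow_natCast, inv_pow]
  have h2 : ((((i : ℤ) - j).toNat : ℕ) : ℤ) = (i : ℤ) - j := Int.toNat_of_nonneg (by linarith)
  rw [h1, h1, h2, ← zpow_add₀ (two_ne_zero : (2 : ℝ) ≠ 0)]
  congr 1
  ring

private theorem P1_null {n : ℕ} (hn : 1 ≤ n) (hnd : n ≤ d) {C : ℝ} {μ : Measure (X d)}
    [IsFiniteMeasure μ] {g : Fin d → X d → ℝ} {K F : Set (X d)} {r₀ : ℝ}
    (h : Std n C μ g K F r₀) {Y : Set (X d)} (hYF : Y ⊆ F) (hYm : MeasurableSet Y) {δ : ℝ}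
    (hδ : 0 < δ) (k₀ : ℕ) (hY : ∀ y ∈ Y, ∀ k, k₀ ≤ k → NF n μ y ((2 : ℝ)⁻¹ ^ k) δ) :
    μ Y = 0 := by
  by_contra hne
  have hd : 0 < d := by omega
  have hC0 : 0 ≤ C := zero_le_one.trans h.hC
  have hne' : μ.restrict Y ≠ 0 := by
    rwa [Ne, Measure.restrict_eq_zero]
  have : (ae (μ.restrict Y)).NeBot := ae_neBot.2 hne'
  have a1 := ae_dens hC0 h.gr hYm
  have a2 : ∀ᵐ x ∂(μ.restrict Y), Good n μ g F x :=
    ae_restrict_of_ae_restrict_of_subset hYF (ae_good h)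
  obtain ⟨x, hx1, hx2⟩ := (a1.and a2).exists
  have hr : ∀ i : ℕ, 0 < (2 : ℝ)⁻¹ ^ i := fun i => by positivity
  have hr0 : Tendsto (fun i : ℕ => (2 : ℝ)⁻¹ ^ i) (hyperfilter ℕ) (𝓝 0) :=
    P1_hyper (tendsto_pow_atTop_nhds_zero_of_lt_one (by norm_num) (by norm_num))
  obtain ⟨ν', hv, hreg, h0⟩ := blow_reg hn hd h hx2 hr hr0
  refine no_NFall hn hnd h.hC hreg h0 hδ fun z hz j => ?_
  have happ := supp_approx h.gr hx1 hr hr0 hreg.gr hv z hz
  obtain ⟨i₀, y₀, hy₀, -⟩ := (happ 1 one_pos).exists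
  let S : ℕ → Set (X d) := fun i => (fun y => ((2 : ℝ)⁻¹ ^ i)⁻¹ • (y - x)) '' Y
  have hSne : ∀ i, (S i).Nonempty := fun i => ⟨_, y₀, hy₀, rfl⟩
  have hex : ∀ i : ℕ, ∃ y ∈ Y, dist z (((2 : ℝ)⁻¹ ^ i)⁻¹ • (y - x)) <
      infDist z (S i) + 1 / ((i : ℝ) + 1) := by
    intro i
    have h1 : infDist z (S i) < infDist z (S i) + 1 / ((i : ℝ) + 1) := by
      have : 0 < 1 / ((i : ℝ) + 1) := by positivity
      linarith
    obtain ⟨w, ⟨y, hy, rfl⟩, hw⟩ := (infDist_lt_iff (hSne i)).1 h1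
    exact ⟨y, hy, hw⟩
  choose y hyY hyd using hex
  have ht : Tendsto (fun i : ℕ => ((2 : ℝ)⁻¹ ^ i)⁻¹ • (y i - x)) (hyperfilter ℕ) (𝓝 z) := by
    rw [Metric.tendsto_nhds]
    intro ε hε
    have h1 : ∀ᶠ i : ℕ in (hyperfilter ℕ : Filter ℕ), 1 / ((i : ℝ) + 1) < ε / 2 :=
      P1_ev ((tendsto_one_div_add_atTop_nhds_zero_nat (𝕜 := ℝ)).eventually_lt_const
        (by linarith))
    filter_upwards [h1, happ (ε / 2) (by linarith)] with i hi ⟨y', hy', hd'⟩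
    have h2 : infDist z (S i) ≤ dist z (((2 : ℝ)⁻¹ ^ i)⁻¹ • (y' - x)) :=
      infDist_le_dist_of_mem ⟨y', hy', rfl⟩
    have h3 : dist z (((2 : ℝ)⁻¹ ^ i)⁻¹ • (y' - x)) ≤ ε / 2 := by
      rw [dist_comm, dist_eq_norm]
      exact hd'
    rw [dist_comm]
    have h4 := hyd i
    linarith
  refine nf_limit hn hC0 (fun i => h.gr.blow x (hr i)) hreg.gr hv ht
    (zpow_pos two_pos j) ?_
  have h1 : ∀ᶠ i : ℕ in (hyperfilter ℕ : Filter ℕ), k₀ + j.toNat ≤ i :=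
    P1_ev (eventually_ge_atTop _)
  filter_upwards [h1] with i hi
  rw [NF.blow_iff n x (hr i) μ _ (zpow_pos two_pos j)]
  have h2 : x + (2 : ℝ)⁻¹ ^ i • (((2 : ℝ)⁻¹ ^ i)⁻¹ • (y i - x)) = y i := by
    rw [smul_smul, mul_inv_cancel₀ (hr i).ne', one_smul, add_sub_cancel]
  have h3 : j ≤ (j.toNat : ℤ) := Int.self_le_toNat j
  have h4 : j ≤ (i : ℤ) := by omega
  rw [h2, P1_scale h4]
  exact hY _ (hyY i) _ (by omega)

theorem liminf_flat {n : ℕ} (hn : 1 ≤ n) (hnd : n ≤ d) {C : ℝ} {μ : Measure (X d)}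
    [IsFiniteMeasure μ] {g : Fin d → X d → ℝ} {K F : Set (X d)} {r₀ : ℝ}
    (h : Std n C μ g K F r₀) :
    ∀ᵐ x ∂(μ.restrict F), ∀ δ : ℝ, 0 < δ → ∀ k₀ : ℕ, ∃ k, k₀ ≤ k ∧
      Flat n μ x ((2 : ℝ)⁻¹ ^ k) δ := by
  have hC0 : 0 ≤ C := zero_le_one.trans h.hC
  let Y : ℕ → ℕ → Set (X d) := fun m k₀ =>
    F ∩ ⋂ k ∈ Set.Ici k₀, {x | NF n μ x ((2 : ℝ)⁻¹ ^ k) (1 / ((m : ℝ) + 1))}
  have hYc : ∀ m k₀, IsClosed (Y m k₀) := fun m k₀ =>
    h.closed.isClosed.inter (isClosed_biInter fun k _ =>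
      nf_closed hn hC0 h.gr (by positivity) _)
  have key : ∀ m k₀, μ (Y m k₀) = 0 := by
    intro m k₀
    refine P1_null hn hnd h (fun y hy => hy.1) (hYc m k₀).measurableSet
      (δ := 1 / ((m : ℝ) + 1)) (by positivity) k₀ fun y hy k hk => ?_
    exact Set.mem_iInter₂.1 hy.2 k hk
  have h1 : ∀ᵐ x ∂(μ.restrict F), x ∈ F := ae_restrict_mem h.closed.isClosed.measurableSet
  have h2 : ∀ᵐ x ∂(μ.restrict F), ∀ m k₀, x ∉ Y m k₀ := by
    rw [ae_all_iff]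
    intro m
    rw [ae_all_iff]
    intro k₀
    exact ae_restrict_of_ae (measure_eq_zero_iff_ae_notMem.1 (key m k₀))
  filter_upwards [h1, h2] with x hxF hx δ hδ k₀
  by_contra hcon
  push Not at hcon
  obtain ⟨m, hm⟩ := exists_nat_one_div_lt hδ
  apply hx m k₀
  refine ⟨hxF, Set.mem_iInter₂.2 fun k hk => ?_⟩
  apply not_flat_nf
  intro hf
  exact hcon k hk (hf.mono (by positivity) (by positivity) hm.le)

end Pool.Agent.RZ
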