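import Pool.Agent.RZ.N5
import Pool.Agent.RZ.I2
import Pool.Agent.RZ.I3
import Pool.Agent.RZ.H7
import Pool.Agent.RZ.D4

/-!
R1: the rigidity lemma. Suppose it fails: for every i there are eps_i in (0, 1/(i+1)], nu_i in Reg with 0 in Supp, Flat at 2^k (k >= 1) with eps_i, not Flat at 1 with eps_i/2.
tilt: planes (b_i, v_i), int_{B_R} q <= A eps_i^2 R^{n+3}; compl_frame: w_i (m = d - n). reg_limit: nu'; frame_limit: v_i -> v', w_i -> w'; b_i -> b' (bounded).
q_conv: int cut r q b' v' dnu' = 0 for all r, so Supp nu' in b' + span v' (eq_zero_on_supp, q_eq_zero_iff); 0 in Supp: b' in span v', and b' orthogonal to v': b' = 0.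
supp_eq: Supp nu' = span v' = range iota (frame_isometry). const_density: nu' = c volume.map iota.
u_{i,j}(x) = <w_i j, x - b_i>/eps_i: LL, EqL nu_i (Refl; constants by lam_int_zero), u^2 <= q/eps_i^2 so M = A. linearize with eta = 1/(8 (m+1)) for each j: (c_j, w_j).
near_frame with t_j = w_i j - eps_i iota w_j, s_j = <w_i j, b_i> + eps_i c_j: <t_j,y> - s_j = eps_i (u_{i,j}(y) - a_j(y)); |t_j - w_i j| = eps_i |w_j| <= kappa for large i.
int cut 1 q b v <= 2 eps_i^2 sum_j int cut 1 (u_{i,j} - a_j)^2 <= 2 eps_i^2 m eta <= eps_i^2/4: Flat n nu_i 0 1 (eps_i/2), contradiction.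
-/

set_option autoImplicit false

open MeasureTheory Filter Topology Metric Set
open scoped RealInnerProductSpace ENNReal

namespace Pool.Agent.RZ

variable {d : ℕ}

/-- products of functions of moderate growth with `Lam` are integrable -/
theorem R1_lam_mul_integrable {n : ℕ} (hn : 1 ≤ n) (hd : 0 < d) {C : ℝ} (hC : 0 ≤ C)
    {ν : Measure (X d)} (hg : Gr n C ν) {ε : ℝ} (hε : 0 < ε) {L ρ : ℝ} {ψ : X d → ℝ}
    (hψ : Tst L ρ ψ) (h0 : ∫ x, ψ x ∂ν = 0) {u : X d → ℝ} (hu : Continuous u) {M : ℝ}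
    (hM : 0 ≤ M)
    (huM : ∀ r, 1 ≤ r → ∫ y in closedBall 0 r, u y ^ 2 ∂ν ≤ M * r ^ (n + 3)) :
    Integrable (fun y => u y * Lam n ε ν ψ y) ν := by
  obtain ⟨A, hA, hw⟩ := Gr.weight (d := d) n hn
  obtain ⟨hi, -⟩ := hw C hC ν hg u hu M hM huM
  have hψ' : Tst (max L 0) (max ρ 1) ψ := hψ.mono (le_max_left _ _) (le_max_left _ _)
  obtain ⟨B, hB, hb⟩ := lam_bound (d := d) n hn hd C (max L 0) (max ρ 1) ε hC (le_max_right _ _)
    (lt_of_lt_of_le one_pos (le_max_right _ _)) hε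
  have hb' := hb ν hg ψ hψ' h0
  refine Integrable.mono' (hi.const_mul B) ?_ ?_
  · exact (hu.mul (lam_continuous hn hC hg hε hψ)).aestronglyMeasurable
  · refine Eventually.of_forall fun y => ?_
    rw [Real.norm_eq_abs, abs_mul]
    calc |u y| * |Lam n ε ν ψ y| ≤ |u y| * (B * (1 + ‖y‖)⁻¹ ^ (n + 2)) :=
          mul_le_mul_of_nonneg_left (hb' y) (abs_nonneg _)
      _ = B * (|u y| * (1 + ‖y‖)⁻¹ ^ (n + 2)) := by ring

/-- growth of bounded-by-linear functions -/
theorem R1_growth {n : ℕ} {C : ℝ} (hC : 0 ≤ C) {ν : Measure (X d)} (hg : Gr n C ν)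
    {u : X d → ℝ} (hu : Continuous u) {a : ℝ} (hb : ∀ y, |u y| ≤ a * (1 + ‖y‖)) :
    ∀ r, 1 ≤ r → ∫ y in closedBall 0 r, u y ^ 2 ∂ν ≤ (4 * a ^ 2 * C) * r ^ (n + 3) := by
  intro r hr
  have := hg.isLocallyFinite
  have hr0 : (0 : ℝ) < r := lt_of_lt_of_le one_pos hr
  have hfin : ν (closedBall 0 r) < ⊤ := hg.finite 0 r
  have h1 : ∫ y in closedBall 0 r, u y ^ 2 ∂ν ≤ ∫ y in closedBall 0 r, (4 * a ^ 2 * r ^ 2) ∂ν := by
    refine setIntegral_mono_on ?_ ?_ isClosed_closedBall.measurableSet ?_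
    · exact (hu.pow 2).continuousOn.integrableOn_compact (isCompact_closedBall 0 r)
    · exact integrableOn_const hfin.ne
    · intro y hy
      have hy' : ‖y‖ ≤ r := by rwa [mem_closedBall_zero_iff] at hy
      have ha : 0 ≤ a := by
        have h2 := (abs_nonneg _).trans (hb 0)
        simpa using h2
      have h3 : |u y| ≤ 2 * a * r := by
        refine (hb y).trans ?_
        nlinarith
      calc u y ^ 2 = |u y| ^ 2 := (sq_abs _).symm
        _ ≤ (2 * a * r) ^ 2 := by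
            exact pow_le_pow_left₀ (abs_nonneg _) h3 2
        _ = 4 * a ^ 2 * r ^ 2 := by ring
  refine h1.trans ?_
  rw [setIntegral_const, smul_eq_mul]
  have h4 : ν.real (closedBall 0 r) ≤ C * r ^ n := hg.real_le hC 0 hr0
  calc ν.real (closedBall 0 r) * (4 * a ^ 2 * r ^ 2)
      ≤ (C * r ^ n) * (4 * a ^ 2 * r ^ 2) := mul_le_mul_of_nonneg_right h4 (by positivity)
    _ = (4 * a ^ 2 * C) * r ^ (n + 2) := by ring
    _ ≤ (4 * a ^ 2 * C) * r ^ (n + 3) :=
        mul_le_mul_of_nonneg_left (pow_le_pow_right₀ hr (by omega)) (by positivity)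

/-- affine functions satisfy the equation for a reflectionless measure -/
theorem Refl.affine {n : ℕ} (hn : 1 ≤ n) (hd : 0 < d) {C : ℝ} (hC : 0 ≤ C) {ν : Measure (X d)}
    (hg : Gr n C ν) (h : Refl n ν) (e b : X d) (a : ℝ) : EqL n ν fun x => ⟪e, x - b⟫ / a := by
  intro L ρ ψ hψ h0
  have h1 := h e L ρ ψ hψ h0
  have h2 : Tendsto (fun ε : ℝ => a⁻¹ * ∫ y, ⟪e, y⟫ * Lam n ε ν ψ y ∂ν) (𝓝[>] 0) (𝓝 0) := by
    have h3 := h1.const_mul a⁻¹
    rwa [mul_zero] at h3
  refine h2.congr' ?_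
  filter_upwards [self_mem_nhdsWithin] with ε hε
  have hε' : 0 < ε := hε
  have hc : Continuous fun y : X d => ⟪e, y⟫ := continuous_const.inner continuous_id
  have i1 : Integrable (fun y => ⟪e, y⟫ * Lam n ε ν ψ y) ν := by
    refine R1_lam_mul_integrable hn hd hC hg hε' hψ h0 hc (M := 4 * ‖e‖ ^ 2 * C) (by positivity) ?_
    refine R1_growth hC hg hc ?_
    intro y
    calc |⟪e, y⟫| ≤ ‖e‖ * ‖y‖ := abs_real_inner_le_norm e y
      _ ≤ ‖e‖ * (1 + ‖y‖) := mul_le_mul_of_nonneg_left (by linarith) (norm_nonneg _)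
  have i2 : Integrable (fun y => ⟪e, b⟫ * Lam n ε ν ψ y) ν := by
    refine R1_lam_mul_integrable hn hd hC hg hε' hψ h0 continuous_const
      (M := 4 * |⟪e, b⟫| ^ 2 * C) (by positivity) ?_
    refine R1_growth hC hg continuous_const ?_
    intro y
    nlinarith [norm_nonneg y, abs_nonneg ⟪e, b⟫]
  have h4 : ∫ y, ⟪e, y - b⟫ / a * Lam n ε ν ψ y ∂ν
      = a⁻¹ * ((∫ y, ⟪e, y⟫ * Lam n ε ν ψ y ∂ν) - ∫ y, ⟪e, b⟫ * Lam n ε ν ψ y ∂ν) := by
    rw [← integral_sub i1 i2, ← integral_const_mul]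
    refine integral_congr_ae (Eventually.of_forall fun y => ?_)
    show ⟪e, y - b⟫ / a * Lam n ε ν ψ y
      = a⁻¹ * (⟪e, y⟫ * Lam n ε ν ψ y - ⟪e, b⟫ * Lam n ε ν ψ y)
    rw [inner_sub_right, div_eq_mul_inv]
    ring
  show a⁻¹ * ∫ y, ⟪e, y⟫ * Lam n ε ν ψ y ∂ν = ∫ y, ⟪e, y - b⟫ / a * Lam n ε ν ψ y ∂ν
  rw [h4, integral_const_mul, lam_int_zero hn hd hC hg hε' hψ h0, mul_zero, sub_zero]

theorem R1_LL (e b : X d) (a : ℝ) : LL fun x : X d => ⟪e, x - b⟫ / a := by
  intro R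
  refine ⟨‖e‖ * |a|⁻¹, fun x _ y _ => ?_⟩
  show |⟪e, x - b⟫ / a - ⟪e, y - b⟫ / a| ≤ ‖e‖ * |a|⁻¹ * ‖x - y‖
  have h1 : ⟪e, x - b⟫ / a - ⟪e, y - b⟫ / a = ⟪e, x - y⟫ / a := by
    rw [← sub_div, ← inner_sub_right]
    congr 2
    abel
  rw [h1, abs_div, div_eq_mul_inv]
  calc |⟪e, x - y⟫| * |a|⁻¹ ≤ (‖e‖ * ‖x - y‖) * |a|⁻¹ :=
        mul_le_mul_of_nonneg_right (abs_real_inner_le_norm _ _) (inv_nonneg.mpr (abs_nonneg _))
    _ = ‖e‖ * |a|⁻¹ * ‖x - y‖ := by ring

/-- bounded sequences converge along the hyperfilter -/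
theorem R1_limit (b : ℕ → X d) {M : ℝ} (hb : ∀ i, ‖b i‖ ≤ M) :
    ∃ b' : X d, Tendsto b (hyperfilter ℕ) (𝓝 b') := by
  have hc : IsCompact (closedBall (0 : X d) M) := isCompact_closedBall 0 M
  rw [isCompact_iff_ultrafilter_le_nhds] at hc
  obtain ⟨b', -, hb'⟩ := hc ((hyperfilter ℕ).map b) (by
    rw [le_principal_iff]
    show b ⁻¹' (closedBall (0 : X d) M) ∈ (hyperfilter ℕ : Filter ℕ)
    have : b ⁻¹' (closedBall (0 : X d) M) = Set.univ := by
      ext i
      simp [hb i]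
    rw [this]
    exact univ_mem)
  exact ⟨b', hb'⟩

/-- the support of the limit lies in the limit plane -/
theorem R1_supp_sub {n : ℕ} (hn : 1 ≤ n) {C : ℝ} (hC : 0 ≤ C) {ν : ℕ → Measure (X d)}
    {ν' : Measure (X d)} (h : ∀ i, Gr n C (ν i)) (h' : Gr n C ν') (hv : VC ν ν')
    (h0 : 0 ∈ Supp ν') {A : ℝ} {ε : ℕ → ℝ}
    (hε : Tendsto ε (hyperfilter ℕ) (𝓝 0))
    {b : ℕ → X d} {b' : X d} (hb : Tendsto b (hyperfilter ℕ) (𝓝 b')) {v : ℕ → Fin n → X d}
    {v' : Fin n → X d} (hvo : ∀ i, Orthonormal ℝ (v i)) (hvo' : Orthonormal ℝ v')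
    (hvv : Tendsto v (hyperfilter ℕ) (𝓝 v'))
    (hq : ∀ i, ∀ R : ℝ, 1 ≤ R →
      ∫ y in closedBall 0 R, q (b i) (v i) y ∂(ν i) ≤ A * ε i ^ 2 * R ^ (n + 3)) :
    Supp ν' ⊆ (Submodule.span ℝ (Set.range v') : Set (X d)) := by
  have := h'.isLocallyFinite
  have key : ∀ x ∈ Supp ν', x - b' ∈ Submodule.span ℝ (Set.range v') := by
    intro x hx
    rw [← q_eq_zero_iff b' hvo' x]
    have hr : (0 : ℝ) < ‖x‖ + 1 := by positivity
    have hlim := q_conv hn hC h h' hv hb hvv (x := fun _ => (0 : X d)) (x' := 0)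
      tendsto_const_nhds hr
    have hle : ∫ y, cut (‖x‖ + 1) (y - 0) * q b' v' y ∂ν' ≤ 0 := by
      have hz : Tendsto (fun i => A * ε i ^ 2 * (2 * (‖x‖ + 1)) ^ (n + 3)) (hyperfilter ℕ)
          (𝓝 0) := by
        have h1 := ((hε.pow 2).const_mul A).mul_const ((2 * (‖x‖ + 1)) ^ (n + 3))
        simpa using h1
      refine le_of_tendsto_of_tendsto' hlim hz ?_
      intro i
      have := (h i).isLocallyFinite
      refine le_trans ?_ (hq i (2 * (‖x‖ + 1)) (by nlinarith [norm_nonneg x]))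
      have hqc : Continuous (q (b i) (v i)) := q_continuous (b i) (v i)
      have h2 : ∫ y in closedBall 0 (2 * (‖x‖ + 1)), q (b i) (v i) y ∂(ν i)
          = ∫ y, (closedBall (0 : X d) (2 * (‖x‖ + 1))).indicator (q (b i) (v i)) y ∂(ν i) :=
        (integral_indicator isClosed_closedBall.measurableSet).symm
      rw [h2]
      refine integral_mono ?_ ?_ ?_
      · refine Continuous.integrable_of_hasCompactSupport ?_ ?_
        · exact ((cut_continuous hr).comp (continuous_id.sub continuous_const)).mul hqc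
        · have h3 : (fun y : X d => cut (‖x‖ + 1) (y - 0) * q (b i) (v i) y)
              = (fun y => cut (‖x‖ + 1) y * q (b i) (v i) y) := by
            funext y
            rw [sub_zero]
          rw [h3]
          exact (cut_hasCompactSupport hr).mul_right
      · exact (hqc.continuousOn.integrableOn_compact
          (isCompact_closedBall 0 _)).integrable_indicator isClosed_closedBall.measurableSet
      · intro y
        show cut (‖x‖ + 1) (y - 0) * q (b i) (v i) y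
          ≤ (closedBall (0 : X d) (2 * (‖x‖ + 1))).indicator (q (b i) (v i)) y
        rw [sub_zero]
        have hq0 := q_nonneg (b i) (hvo i) y
        by_cases hy : y ∈ closedBall (0 : X d) (2 * (‖x‖ + 1))
        · rw [Set.indicator_of_mem hy]
          calc cut (‖x‖ + 1) y * q (b i) (v i) y ≤ 1 * q (b i) (v i) y :=
                mul_le_mul_of_nonneg_right (cut_le_one _ _) hq0
            _ = q (b i) (v i) y := one_mul _
        · rw [Set.indicator_of_notMem hy]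
          rw [mem_closedBall_zero_iff, not_le] at hy
          rw [cut_eq_zero hr hy.le, zero_mul]
    have hcont : Continuous fun y : X d => cut (‖x‖ + 1) (y - 0) * q b' v' y :=
      ((cut_continuous hr).comp (continuous_id.sub continuous_const)).mul (q_continuous b' v')
    have hint : Integrable (fun y : X d => cut (‖x‖ + 1) (y - 0) * q b' v' y) ν' := by
      refine Continuous.integrable_of_hasCompactSupport hcont ?_
      have h3 : (fun y : X d => cut (‖x‖ + 1) (y - 0) * q b' v' y)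
          = (fun y => cut (‖x‖ + 1) y * q b' v' y) := by
        funext y
        rw [sub_zero]
      rw [h3]
      exact (cut_hasCompactSupport hr).mul_right
    have h4 := eq_zero_on_supp hcont
      (fun y => mul_nonneg (cut_nonneg _ _) (q_nonneg b' hvo' y)) hint hle x hx
    have h5 : cut (‖x‖ + 1) (x - 0) = 1 := by
      rw [sub_zero]
      exact cut_eq_one hr (by linarith)
    rw [h5, one_mul] at h4
    exact h4
  intro x hx
  have h1 := key 0 h0
  have h2 := key x hx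
  have h3 := Submodule.sub_mem _ h2 h1
  have h4 : x - b' - (0 - b') = x := by abel
  rw [h4] at h3
  exact h3

theorem rigidity (n : ℕ) (hn : 1 ≤ n) (hnd : n ≤ d) (C : ℝ) (hC : 1 ≤ C) : ∃ ε₀ : ℝ, 0 < ε₀ ∧
    ∀ ε : ℝ, 0 < ε → ε ≤ ε₀ → ∀ ν : Measure (X d), Reg n C ν → 0 ∈ Supp ν →
      (∀ k : ℕ, 1 ≤ k → Flat n ν 0 ((2 : ℝ) ^ k) ε) → Flat n ν 0 1 (ε / 2) := by
  have hd : 0 < d := lt_of_lt_of_le (by omega) hnd
  have hC0 : 0 ≤ C := zero_le_one.trans hC
  by_contra hcon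
  have hcon' : ∀ i : ℕ, ∃ (ε : ℝ) (ν : Measure (X d)), 0 < ε ∧ ε ≤ 1 / ((i : ℝ) + 1) ∧
      Reg n C ν ∧ 0 ∈ Supp ν ∧ (∀ k : ℕ, 1 ≤ k → Flat n ν 0 ((2 : ℝ) ^ k) ε) ∧
      ¬ Flat n ν 0 1 (ε / 2) := by
    intro i
    by_contra hi
    apply hcon
    refine ⟨1 / ((i : ℝ) + 1), by positivity, ?_⟩
    intro ε h1 h2 ν h3 h4 h5
    by_contra h6
    exact hi ⟨ε, ν, h1, h2, h3, h4, h5, h6⟩
  choose ε ν hε hε1 hreg h0 hflat hnot using hcon'
  obtain ⟨A, hA, htilt⟩ := tilt (d := d) n hn C hC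
  have hmass : ∀ i, ∀ r, 0 < r → ENNReal.ofReal (r ^ n / C) ≤ ν i (closedBall 0 r) :=
    fun i r hr => (hreg i).lo 0 (h0 i) r hr
  have ht := fun i => htilt (ν i) (hreg i).gr (hmass i) (ε i) (hε i).le (hflat i)
  choose b v hvo hvb hbn hq using ht
  obtain ⟨m, hm⟩ : ∃ m, n + m = d := ⟨d - n, by omega⟩
  have hw' := fun i => compl_frame hm (hvo i)
  choose w hwo hvw hqw using hw'
  obtain ⟨ν', hvc, hreg', h0'⟩ := reg_limit hn hd hC hreg h0
  obtain ⟨v', hvo', hvv⟩ := frame_limit v hvo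
  have hεle : ∀ i, ε i ≤ 1 := by
    intro i
    refine (hε1 i).trans ?_
    rw [div_le_one (by positivity)]
    have : (0 : ℝ) ≤ i := Nat.cast_nonneg i
    linarith
  have hεt : Tendsto ε (hyperfilter ℕ) (𝓝 0) := by
    have h1 : Tendsto ε atTop (𝓝 0) :=
      squeeze_zero (fun i => (hε i).le) hε1 tendsto_one_div_add_atTop_nhds_zero_nat
    exact h1.mono_left Nat.hyperfilter_le_atTop
  obtain ⟨b', hb'⟩ := R1_limit b (M := 2 * A) (fun i => (hbn i).trans (by nlinarith [hεle i]))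
  have hsub := R1_supp_sub hn hC0 (fun i => (hreg i).gr) hreg'.gr hvc h0' hεt hb' hvo hvo' hvv hq
  have hse := supp_eq hn hd hC hreg' h0' (Submodule.span ℝ (Set.range v')) hsub
    (finrank_frame hvo')
  obtain ⟨ι, hι, -⟩ := frame_isometry hvo'
  obtain ⟨c, hc, hν'⟩ := const_density hn hC hreg' ι (by rw [hse, hι])
  obtain ⟨κ, hκ, hnear⟩ := near_frame (d := d) hm
  have hgrow : ∀ j : Fin m, ∀ i, ∀ r, 1 ≤ r →
      ∫ y in closedBall 0 r, (⟪w i j, y - b i⟫ / ε i) ^ 2 ∂(ν i) ≤ A * r ^ (n + 3) := by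
    intro j i r hr
    have := (hreg i).gr.isLocallyFinite
    have hε2 : 0 < ε i ^ 2 := pow_pos (hε i) 2
    have hcl : Continuous fun y : X d => (⟪w i j, y - b i⟫ / ε i) ^ 2 :=
      ((continuous_const.inner (continuous_id.sub continuous_const)).div_const _).pow 2
    have hqc : Continuous (q (b i) (v i)) := q_continuous (b i) (v i)
    have h1 : ∫ y in closedBall 0 r, (⟪w i j, y - b i⟫ / ε i) ^ 2 ∂(ν i)
        ≤ ∫ y in closedBall 0 r, (ε i ^ 2)⁻¹ * q (b i) (v i) y ∂(ν i) := by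
      refine setIntegral_mono_on ?_ ?_ isClosed_closedBall.measurableSet ?_
      · exact hcl.continuousOn.integrableOn_compact (isCompact_closedBall 0 r)
      · exact (continuous_const.mul hqc).continuousOn.integrableOn_compact
          (isCompact_closedBall 0 r)
      · intro y _
        rw [hqw i (b i) y, div_pow, div_eq_inv_mul]
        refine mul_le_mul_of_nonneg_left ?_ (inv_nonneg.mpr hε2.le)
        exact Finset.single_le_sum (f := fun j => ⟪w i j, y - b i⟫ ^ 2)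
          (fun j _ => sq_nonneg _) (Finset.mem_univ j)
    refine h1.trans ?_
    rw [integral_const_mul]
    calc (ε i ^ 2)⁻¹ * ∫ y in closedBall 0 r, q (b i) (v i) y ∂(ν i)
        ≤ (ε i ^ 2)⁻¹ * (A * ε i ^ 2 * r ^ (n + 3)) :=
          mul_le_mul_of_nonneg_left (hq i r hr) (inv_nonneg.mpr hε2.le)
      _ = ((ε i ^ 2)⁻¹ * ε i ^ 2) * (A * r ^ (n + 3)) := by ring
      _ = A * r ^ (n + 3) := by rw [inv_mul_cancel₀ hε2.ne', one_mul]
  have hη : (0 : ℝ) < 1 / (8 * ((m : ℝ) + 1)) := by positivity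
  have hlin := fun j : Fin m => linearize hn hd hC (fun i => (hreg i).gr) hreg'.gr
    (fun i => (hreg i).lo) h0 hvc ι hc hν'
    (u := fun i x => ⟪w i j, x - b i⟫ / ε i) (fun i => R1_LL (w i j) (b i) (ε i))
    (fun i => Refl.affine hn hd hC0 (hreg i).gr (hreg i).refl (w i j) (b i) (ε i))
    hA.le (hgrow j) hη
  choose c0 z hz using hlin
  have hall := eventually_all.mpr hz
  have hsmall : ∀ᶠ i in (hyperfilter ℕ : Filter ℕ), ∀ j : Fin m, ε i * ‖ι (z j)‖ ≤ κ := by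
    rw [eventually_all]
    intro j
    have h1 : Tendsto (fun i => ε i * ‖ι (z j)‖) (hyperfilter ℕ) (𝓝 0) := by
      have h2 := hεt.mul_const ‖ι (z j)‖
      rwa [zero_mul] at h2
    exact h1.eventually_le_const hκ
  obtain ⟨i, hi1, hi2⟩ := (hall.and hsmall).exists
  have := (hreg i).gr.isLocallyFinite
  obtain ⟨bb, vv, hvvo, hqq⟩ := hnear (w i) (hwo i) (fun j => w i j - ε i • ι (z j)) (by
    intro j
    have h1 : w i j - ε i • ι (z j) - w i j = -(ε i • ι (z j)) := by abel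
    show ‖w i j - ε i • ι (z j) - w i j‖ ≤ κ
    rw [h1, norm_neg, norm_smul, Real.norm_eq_abs, abs_of_pos (hε i)]
    exact hi2 j) (fun j => ⟪w i j, b i⟫ + ε i * c0 j)
  apply hnot i
  refine ⟨bb, vv, hvvo, ?_⟩
  have hone : (0 : ℝ) < 1 := one_pos
  have hcut : Continuous (cut 1 : X d → ℝ) := cut_continuous hone
  have hform : ∀ (j : Fin m) (y : X d),
      ⟪w i j - ε i • ι (z j), y⟫ - (⟪w i j, b i⟫ + ε i * c0 j)
        = ε i * (⟪w i j, y - b i⟫ / ε i - (c0 j + ⟪ι (z j), y⟫)) := by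
    intro j y
    have hne : ε i ≠ 0 := (hε i).ne'
    rw [inner_sub_left, real_inner_smul_left, inner_sub_right]
    field_simp
    ring
  have hcj : ∀ j : Fin m, Continuous fun y : X d =>
      cut 1 y * (⟪w i j, y - b i⟫ / ε i - (c0 j + ⟪ι (z j), y⟫)) ^ 2 := by
    intro j
    refine hcut.mul (Continuous.pow ?_ 2)
    exact ((continuous_const.inner (continuous_id.sub continuous_const)).div_const _).sub
      (continuous_const.add (continuous_const.inner continuous_id))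
  have hij : ∀ j : Fin m, Integrable (fun y : X d =>
      cut 1 y * (⟪w i j, y - b i⟫ / ε i - (c0 j + ⟪ι (z j), y⟫)) ^ 2) (ν i) := by
    intro j
    exact (hcj j).integrable_of_hasCompactSupport (cut_hasCompactSupport hone).mul_right
  have hA1 : ∫ y, cut 1 (y - 0) * q bb vv y ∂(ν i)
      ≤ ∫ y, ∑ j, (2 * ε i ^ 2) *
        (cut 1 y * (⟪w i j, y - b i⟫ / ε i - (c0 j + ⟪ι (z j), y⟫)) ^ 2) ∂(ν i) := by
    refine integral_mono ?_ ?_ ?_
    · have h3 : (fun y : X d => cut 1 (y - 0) * q bb vv y) = (fun y => cut 1 y * q bb vv y) := by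
        funext y
        rw [sub_zero]
      rw [h3]
      exact (hcut.mul (q_continuous bb vv)).integrable_of_hasCompactSupport
        (cut_hasCompactSupport hone).mul_right
    · exact integrable_finsetSum _ fun j _ => (hij j).const_mul _
    · intro y
      show cut 1 (y - 0) * q bb vv y ≤ ∑ j, (2 * ε i ^ 2) *
        (cut 1 y * (⟪w i j, y - b i⟫ / ε i - (c0 j + ⟪ι (z j), y⟫)) ^ 2)
      rw [sub_zero]
      have h5 : cut 1 y * q bb vv y
          ≤ cut 1 y * (2 * ∑ j, (⟪w i j - ε i • ι (z j), y⟫ - (⟪w i j, b i⟫ + ε i * c0 j)) ^ 2) :=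
        mul_le_mul_of_nonneg_left (hqq y) (cut_nonneg _ _)
      refine h5.trans (le_of_eq ?_)
      rw [Finset.mul_sum, Finset.mul_sum]
      refine Finset.sum_congr rfl fun j _ => ?_
      rw [hform j y]
      ring
  refine hA1.trans ?_
  rw [integral_finsetSum _ fun j _ => (hij j).const_mul _]
  have hB1 : ∀ j ∈ (Finset.univ : Finset (Fin m)), ∫ y, (2 * ε i ^ 2) *
      (cut 1 y * (⟪w i j, y - b i⟫ / ε i - (c0 j + ⟪ι (z j), y⟫)) ^ 2) ∂(ν i)
      ≤ (2 * ε i ^ 2) * (1 / (8 * ((m : ℝ) + 1))) := by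
    intro j _
    rw [integral_const_mul]
    exact mul_le_mul_of_nonneg_left (hi1 j) (by positivity)
  refine (Finset.sum_le_sum hB1).trans ?_
  rw [Finset.sum_const, Finset.card_univ, Fintype.card_fin, nsmul_eq_mul, one_pow, mul_one]
  have hm0 : (0 : ℝ) ≤ m := Nat.cast_nonneg m
  have h6 : (m : ℝ) * (2 * ε i ^ 2 * (1 / (8 * ((m : ℝ) + 1))))
      = (ε i / 2) ^ 2 * ((m : ℝ) / ((m : ℝ) + 1)) := by
    field_simp
    ring
  rw [h6]
  have h7 : (m : ℝ) / ((m : ℝ) + 1) ≤ 1 := by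
    rw [div_le_one (by positivity)]
    linarith
  calc (ε i / 2) ^ 2 * ((m : ℝ) / ((m : ℝ) + 1)) ≤ (ε i / 2) ^ 2 * 1 :=
        mul_le_mul_of_nonneg_left h7 (sq_nonneg _)
    _ = (ε i / 2) ^ 2 := mul_one _

end Pool.Agent.RZ
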