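import Pool.Agent.RZ.P1
import Pool.Agent.RZ.R1

/-!
P2: flatness at all small scales. x good with flat scales (liminf_flat). Suppose for some eps > 0 not Flat n mu x 2^{-k} eps for infinitely many k; by Flat.mono WLOG eps <= eps0 (rigidity for the constant C).
Choose k_i >= i with Flat n mu x 2^{-k_i} delta_i, delta_i = 1/(i+1), and l_i > k_i least with not Flat n mu x 2^{-l_i} eps (for delta_i <= eps k_i itself is Flat eps; k_i large).
Flat.down: l_i - k_i -> oo. nu_i = blow n x 2^{-l_i} mu, nu' from blow_reg. For k >= 1: k_i <= l_i - k < l_i eventually, so Flat n mu x 2^{-(l_i-k)} eps, i.e. Flat n nu_i 0 2^k eps (Flat.blow_iff), flat_limit: Flat n nu' 0 2^k eps.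
not_flat_nf and nf_limit: NF n nu' 0 1 eps. rigidity: Flat n nu' 0 1 (eps/2): int <= eps^2/4 < eps^2, contradiction.
-/

set_option autoImplicit false

open MeasureTheory Filter Topology Metric Set
open scoped RealInnerProductSpace ENNReal

namespace Pool.Agent.RZ

variable {d : ℕ}

theorem lim_flat {n : ℕ} (hn : 1 ≤ n) (hnd : n ≤ d) {C : ℝ} {μ : Measure (X d)}
    [IsFiniteMeasure μ] {g : Fin d → X d → ℝ} {K F : Set (X d)} {r₀ : ℝ}
    (h : Std n C μ g K F r₀) {x : X d} (hx : Good n μ g F x)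
    (hfl : ∀ δ : ℝ, 0 < δ → ∀ k₀ : ℕ, ∃ k, k₀ ≤ k ∧ Flat n μ x ((2 : ℝ)⁻¹ ^ k) δ) :
    ∀ ε : ℝ, 0 < ε → ∃ k₀ : ℕ, ∀ k, k₀ ≤ k → Flat n μ x ((2 : ℝ)⁻¹ ^ k) ε := by
  have hC0 : 0 ≤ C := le_trans zero_le_one h.hC
  have hCpos : 0 < C := lt_of_lt_of_le zero_lt_one h.hC
  have hd : 0 < d := lt_of_lt_of_le (Nat.lt_of_lt_of_le Nat.zero_lt_one hn) hnd
  obtain ⟨ε₀, hε₀, hrig⟩ := rigidity n hn hnd C h.hC
  suffices key : ∀ ε : ℝ, 0 < ε → ε ≤ ε₀ → ∃ k₀ : ℕ, ∀ k, k₀ ≤ k →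
      Flat n μ x ((2 : ℝ)⁻¹ ^ k) ε by
    intro ε hε
    obtain ⟨k₀, hk⟩ := key (min ε ε₀) (lt_min hε hε₀) (min_le_right _ _)
    exact ⟨k₀, fun k hkk => (hk k hkk).mono (by positivity) (le_of_lt (lt_min hε hε₀))
      (min_le_left _ _)⟩
  intro ε hε hεε₀
  by_contra hcon
  have hcon' : ∀ k₀ : ℕ, ∃ k, k₀ ≤ k ∧ ¬ Flat n μ x ((2 : ℝ)⁻¹ ^ k) ε := by
    intro k₀
    by_contra hc
    exact hcon ⟨k₀, fun k hk => by
      by_contra hf
      exact hc ⟨k, hk, hf⟩⟩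
  have hch : ∀ i : ℕ, ∃ k l : ℕ, i ≤ k ∧ k ≤ l ∧ Flat n μ x ((2 : ℝ)⁻¹ ^ k) (1 / ((i : ℝ) + 1)) ∧
      (∀ j, k ≤ j → j < l → Flat n μ x ((2 : ℝ)⁻¹ ^ j) ε) ∧
      ¬ Flat n μ x ((2 : ℝ)⁻¹ ^ l) ε := by
    intro i
    obtain ⟨k, hk, hF⟩ := hfl (1 / ((i : ℝ) + 1)) (by positivity) i
    have hex : ∃ l, k ≤ l ∧ ¬ Flat n μ x ((2 : ℝ)⁻¹ ^ l) ε := hcon' k
    classical
    refine ⟨k, Nat.find hex, hk, (Nat.find_spec hex).1, hF, fun j hj hjl => ?_,
      (Nat.find_spec hex).2⟩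
    by_contra hf
    exact Nat.find_min hex hjl ⟨hj, hf⟩
  choose k l hik hkl hFk hmid hnl using hch
  have hhyp : (hyperfilter ℕ : Filter ℕ) ≤ atTop := Nat.hyperfilter_le_atTop
  -- the gap tends to infinity
  have hgap : ∀ m : ℕ, ∀ᶠ i in (atTop : Filter ℕ), k i + m < l i := by
    intro m
    have hlim : Tendsto (fun i : ℕ => (1 / ((i : ℝ) + 1)) ^ 2 * ((2 : ℝ) ^ m) ^ (n + 2)) atTop
        (𝓝 0) := by
      have h1 : Tendsto (fun i : ℕ => 1 / ((i : ℝ) + 1)) atTop (𝓝 0) :=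
        tendsto_one_div_add_atTop_nhds_zero_nat
      have h2 := (h1.pow 2).mul_const (((2 : ℝ) ^ m) ^ (n + 2))
      have h3 : (0 : ℝ) ^ 2 * ((2 : ℝ) ^ m) ^ (n + 2) = 0 := by
        rw [zero_pow two_ne_zero, zero_mul]
      rw [h3] at h2
      exact h2
    have hev := hlim.eventually_lt_const (show (0 : ℝ) < ε ^ 2 by positivity)
    filter_upwards [hev] with i hi
    by_contra hle
    have hle' : l i ≤ k i + m := Nat.le_of_not_lt hle
    obtain ⟨j, hj⟩ := Nat.exists_eq_add_of_le (hkl i)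
    have hjm : j ≤ m := by omega
    apply hnl i
    have hs : (0 : ℝ) < (2 : ℝ)⁻¹ ^ l i := by positivity
    have hr : (0 : ℝ) < (2 : ℝ)⁻¹ ^ k i := by positivity
    have hsr : (2 : ℝ)⁻¹ ^ l i ≤ (2 : ℝ)⁻¹ ^ k i :=
      pow_le_pow_of_le_one (by norm_num) (by norm_num) (hkl i)
    refine Flat.down h.gr hs hsr (hFk i) (by positivity) ?_
    have e1 : (2 : ℝ)⁻¹ ^ k i = (2 : ℝ)⁻¹ ^ l i * 2 ^ j := by
      rw [hj, pow_add, mul_assoc, ← mul_pow]
      norm_num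
    have e2 : ((2 : ℝ) ^ j) ^ (n + 2) ≤ ((2 : ℝ) ^ m) ^ (n + 2) :=
      pow_le_pow_left₀ (by positivity) (pow_le_pow_right₀ (by norm_num) hjm) _
    rw [e1, mul_pow]
    have e3 : (1 / ((i : ℝ) + 1)) ^ 2 * ((2 : ℝ) ^ j) ^ (n + 2) ≤ ε ^ 2 := by
      refine le_trans (mul_le_mul_of_nonneg_left e2 (by positivity)) hi.le
    calc (1 / ((i : ℝ) + 1)) ^ 2 * (((2 : ℝ)⁻¹ ^ l i) ^ (n + 2) * ((2 : ℝ) ^ j) ^ (n + 2))
        = ((1 / ((i : ℝ) + 1)) ^ 2 * ((2 : ℝ) ^ j) ^ (n + 2)) * ((2 : ℝ)⁻¹ ^ l i) ^ (n + 2) := by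
          ring
      _ ≤ ε ^ 2 * ((2 : ℝ)⁻¹ ^ l i) ^ (n + 2) :=
          mul_le_mul_of_nonneg_right e3 (by positivity)
  -- the scales
  set r : ℕ → ℝ := fun i => (2 : ℝ)⁻¹ ^ l i with hrdef
  have hrpos : ∀ i, 0 < r i := fun i => by rw [hrdef]; positivity
  have hr0' : Tendsto r atTop (𝓝 0) := by
    refine squeeze_zero (fun i => (hrpos i).le) (fun i => ?_)
      (tendsto_pow_atTop_nhds_zero_of_lt_one (r := (2 : ℝ)⁻¹) (by norm_num) (by norm_num))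
    exact pow_le_pow_of_le_one (by norm_num) (by norm_num) ((hik i).trans (hkl i))
  have hr0 : Tendsto r (hyperfilter ℕ) (𝓝 0) := hr0'.mono_left hhyp
  obtain ⟨ν', hVC, hReg, h0⟩ := blow_reg hn hd h hx hrpos hr0
  have hGr : ∀ i, Gr n C (blow n x (r i) μ) := fun i => h.gr.blow x (hrpos i)
  have hx0 : ∀ i, x + r i • (0 : X d) = x := fun i => by rw [smul_zero, add_zero]
  -- flatness of the limit at the large scales
  have hflat : ∀ m : ℕ, 1 ≤ m → Flat n ν' 0 ((2 : ℝ) ^ m) ε := by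
    intro m hm
    have h2m : (0 : ℝ) < (2 : ℝ) ^ m := by positivity
    refine flat_limit hn hC0 hGr hReg.gr hVC 0 h2m (a := ((2 : ℝ) ^ m) ^ n / C) (by positivity)
      ?_ (ε := fun _ => ε) tendsto_const_nhds ?_
    · have hlim : Tendsto (fun i => r i * (2 : ℝ) ^ m) (hyperfilter ℕ) (𝓝 0) := by
        have := hr0.mul_const ((2 : ℝ) ^ m)
        rw [zero_mul] at this
        exact this
      filter_upwards [hlim.eventually_lt_const h.pos] with i hi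
      rw [blow_closedBall n x (hrpos i) μ 0 ((2 : ℝ) ^ m), hx0]
      have hlow := h.low x hx.mem (r i * 2 ^ m) (mul_pos (hrpos i) h2m) hi.le
      refine le_trans ?_ (mul_le_mul_right hlow _)
      rw [← ENNReal.ofReal_mul (pow_nonneg (inv_nonneg.2 (hrpos i).le) n)]
      refine ENNReal.ofReal_le_ofReal (le_of_eq ?_)
      rw [mul_pow, inv_pow]
      have hrn : (r i) ^ n ≠ 0 := (pow_pos (hrpos i) n).ne'
      field_simp
    · filter_upwards [hhyp (hgap m)] with i hi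
      rw [Flat.blow_iff n x (hrpos i) μ 0 h2m, hx0]
      have hml : m ≤ l i := by omega
      have e : r i * (2 : ℝ) ^ m = (2 : ℝ)⁻¹ ^ (l i - m) := by
        rw [hrdef]
        simp only
        conv_lhs => rw [← Nat.sub_add_cancel hml, pow_add, mul_assoc, ← mul_pow]
        norm_num
      rw [e]
      exact hmid i (l i - m) (by omega) (by omega)
  have hflat1 : Flat n ν' 0 1 (ε / 2) := hrig ε hε hεε₀ ν' hReg h0 hflat
  -- non-flatness at scale one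
  have hNF : NF n ν' 0 1 ε := by
    refine nf_limit hn hC0 hGr hReg.gr hVC (x := fun _ => 0) tendsto_const_nhds zero_lt_one ?_
    refine Eventually.of_forall fun i => not_flat_nf ?_
    rw [Flat.blow_iff n x (hrpos i) μ 0 zero_lt_one, hx0, mul_one]
    exact hnl i
  obtain ⟨b, v, hv, hint⟩ := hflat1
  have h1 := hNF b v hv
  rw [one_pow, mul_one] at h1 hint
  have h2 : 0 < ε ^ 2 := by positivity
  have h3 : (ε / 2) ^ 2 = ε ^ 2 / 4 := by ring
  rw [h3] at hint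
  linarith

end Pool.Agent.RZ
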