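import Pool.Agent.RZ.P1
import Pool.Agent.RZ.I3

/-!
P3: bilateral flatness. Suppose it fails at x for eta: there are r_i -> 0 (r_i > 0) such that BF n F x r_i eta fails. Blow-ups at r_i: nu' in Reg, 0 in Supp (blow_reg).
Claim: Supp nu' is contained in an n-plane. For R = 2^k and eps > 0: Flat n nu' 0 R eps: r_i R lies between dyadic numbers 2^{-l} <= 4 r_i R <= 2^{-l+1}.. ; Flat n mu x s eps' for the dyadic s in [2 r_i R, 4 r_i R], Flat.down to r_i R,
Flat.blow_iff, flat_limit. Planes P_{R,eps}, eps -> 0 (flat_limit for the constant sequence nu', eps = 1/i): int cut R q = 0 for some plane P_R; frame_limit R -> oo: Supp nu' in b + span v. b in span v since 0 in Supp.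
So Supp nu' = span v (supp_eq). v shows BF n F x r_i eta for hyperfilter-many i: (1) otherwise y_i in F, z_i = (y_i-x)/r_i, |z_i| <= 1, q 0 v z_i > eta^2, z_i -> z (compactness); nu_i(closedBall z_i s) >= s^n/C, so z in Supp nu'
(VC.le_closedBall), q 0 v z >= eta^2 > 0: contradiction. (2) otherwise p_i in the plane, w_i = (p_i - x)/r_i in span v, |w_i| <= 1, w_i -> w in span v = Supp nu', supp_approx (A = F) gives y in F with |(y-x)/r_i - w| <= eta/2: contradiction.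
-/

set_option autoImplicit false

open MeasureTheory Filter Topology Metric Set
open scoped RealInnerProductSpace ENNReal

namespace Pool.Agent.RZ

variable {d : ℕ}

theorem P3_q_scale {n : ℕ} (v : Fin n → X d) (x y : X d) {r : ℝ} (hr : 0 < r) :
    q x v y = r ^ 2 * q 0 v (r⁻¹ • (y - x)) := by
  unfold q
  rw [sub_zero, norm_smul, mul_sub, Finset.mul_sum, norm_inv, Real.norm_of_nonneg hr.le]
  congr 1
  · field_simp
  · refine Finset.sum_congr rfl fun i _ => ?_
    rw [real_inner_smul_right]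
    field_simp

theorem P3_q_zero_of {n : ℕ} {b : X d} {v : Fin n → X d} (hv : Orthonormal ℝ v)
    (h0 : q b v 0 = 0) {y : X d} (hy : q b v y = 0) : q 0 v y = 0 := by
  rw [q_eq_zero_iff b hv] at h0 hy
  rw [q_eq_zero_iff 0 hv]
  have h1 := (Submodule.span ℝ (Set.range v)).sub_mem hy h0
  have h2 : y - b - (0 - b) = y - 0 := by abel
  rwa [h2] at h1

/-- compactness along the hyperfilter -/
theorem P3_lim (z : ℕ → X d) (hz : ∀ i, ‖z i‖ ≤ 1) :
    ∃ w : X d, ‖w‖ ≤ 1 ∧ Tendsto z (hyperfilter ℕ) (𝓝 w) := by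
  have h1 : IsCompact (closedBall (0 : X d) 1) := isCompact_closedBall 0 1
  have h2 : ((hyperfilter ℕ).map z : Filter (X d)) ≤ 𝓟 (closedBall (0 : X d) 1) := by
    rw [Filter.le_principal_iff, Ultrafilter.coe_map, Filter.mem_map]
    refine Filter.univ_mem' fun i => ?_
    rw [mem_preimage, mem_closedBall_zero_iff]
    exact hz i
  obtain ⟨w, hw, hle⟩ := h1.ultrafilter_le_nhds _ h2
  exact ⟨w, mem_closedBall_zero_iff.1 hw, hle⟩

/-- choice of a convergent sequence -/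
theorem P3_seq (P : ℕ → X d → Prop)
    (h : ∀ᶠ i in (hyperfilter ℕ : Filter ℕ), ∃ z : X d, ‖z‖ ≤ 1 ∧ P i z) :
    ∃ (z : ℕ → X d) (w : X d), ‖w‖ ≤ 1 ∧ Tendsto z (hyperfilter ℕ) (𝓝 w) ∧
      ∀ᶠ i in (hyperfilter ℕ : Filter ℕ), P i (z i) := by
  classical
  set z : ℕ → X d := fun i => if hi : ∃ z : X d, ‖z‖ ≤ 1 ∧ P i z then hi.choose else 0 with hzdef
  have hz1 : ∀ i, ‖z i‖ ≤ 1 := by
    intro i
    by_cases hi : ∃ z : X d, ‖z‖ ≤ 1 ∧ P i z
    · simp only [hzdef, dif_pos hi]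
      exact hi.choose_spec.1
    · simp only [hzdef, dif_neg hi, norm_zero]
      exact zero_le_one
  obtain ⟨w, hw, hzw⟩ := P3_lim z hz1
  refine ⟨z, w, hw, hzw, ?_⟩
  filter_upwards [h] with i hi
  simp only [hzdef, dif_pos hi]
  exact hi.choose_spec.2

/-- flatness at all small scales -/
theorem P3_flat {n : ℕ} {C : ℝ} {μ : Measure (X d)} (hg : Gr n C μ) {x : X d}
    (hfl : ∀ ε : ℝ, 0 < ε → ∃ k₀ : ℕ, ∀ k, k₀ ≤ k → Flat n μ x ((2 : ℝ)⁻¹ ^ k) ε)
    {ε : ℝ} (hε : 0 < ε) : ∃ s₀ : ℝ, 0 < s₀ ∧ ∀ s : ℝ, 0 < s → s ≤ s₀ → Flat n μ x s ε := by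
  have h2 : (0 : ℝ) < (2 : ℝ) ^ (n + 2) := by positivity
  obtain ⟨k₀, hk⟩ := hfl (ε / 2 ^ (n + 2)) (div_pos hε h2)
  refine ⟨(2 : ℝ)⁻¹ ^ k₀, by positivity, fun s hs hs0 => ?_⟩
  have hhalf : (2 : ℝ)⁻¹ < 1 := by norm_num
  have hhalf0 : (0 : ℝ) < (2 : ℝ)⁻¹ := by norm_num
  have hs1 : s ≤ 1 := le_trans hs0 (pow_le_one₀ hhalf0.le hhalf.le)
  obtain ⟨k, hk1, hk2⟩ := exists_nat_pow_near_of_lt_one hs hs1 hhalf0 hhalf
  have hkk : k₀ ≤ k := by
    have h3 : (2 : ℝ)⁻¹ ^ (k + 1) < (2 : ℝ)⁻¹ ^ k₀ := lt_of_lt_of_le hk1 hs0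
    rw [pow_lt_pow_iff_right_of_lt_one₀ hhalf0 hhalf] at h3
    omega
  refine Flat.down hg hs hk2 (hk k hkk) (div_pos hε h2).le ?_
  have h3 : (2 : ℝ)⁻¹ ^ k ≤ 2 * s := by
    rw [pow_succ] at hk1
    linarith
  have h4 : ((2 : ℝ)⁻¹ ^ k) ^ (n + 2) ≤ (2 * s) ^ (n + 2) :=
    pow_le_pow_left₀ (by positivity) h3 _
  calc (ε / 2 ^ (n + 2)) ^ 2 * ((2 : ℝ)⁻¹ ^ k) ^ (n + 2)
      ≤ (ε / 2 ^ (n + 2)) ^ 2 * (2 * s) ^ (n + 2) :=
        mul_le_mul_of_nonneg_left h4 (by positivity)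
    _ = ε ^ 2 * s ^ (n + 2) / 2 ^ (n + 2) := by
        rw [mul_pow, div_pow]
        field_simp
    _ ≤ ε ^ 2 * s ^ (n + 2) := by
        refine div_le_self (by positivity) ?_
        exact one_le_pow₀ (by norm_num)

/-- mass of the blow-ups at points of `F` -/
theorem P3_low {n : ℕ} {C : ℝ} {μ : Measure (X d)} [IsFiniteMeasure μ]
    {g : Fin d → X d → ℝ} {K F : Set (X d)} {r₀ : ℝ} (h : Std n C μ g K F r₀) {x : X d}
    {r : ℕ → ℝ} (hr : ∀ i, 0 < r i) (hr0 : Tendsto r (hyperfilter ℕ) (𝓝 0)) {s : ℝ}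
    (hs : 0 < s) : ∀ᶠ i in (hyperfilter ℕ : Filter ℕ), ∀ y ∈ F,
      ENNReal.ofReal (s ^ n / C) ≤ blow n x (r i) μ (closedBall ((r i)⁻¹ • (y - x)) s) := by
  have h1 : ∀ᶠ i in (hyperfilter ℕ : Filter ℕ), r i < r₀ / s :=
    hr0.eventually_lt_const (div_pos h.pos hs)
  filter_upwards [h1] with i hi y hy
  have hri := hr i
  rw [blow_closedBall n x hri, smul_smul, mul_inv_cancel₀ hri.ne', one_smul, add_sub_cancel]
  have h2 : r i * s ≤ r₀ := by
    rw [lt_div_iff₀ hs] at hi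
    exact hi.le
  have h3 := h.low y hy (r i * s) (mul_pos hri hs) h2
  calc ENNReal.ofReal (s ^ n / C)
      = ENNReal.ofReal ((r i)⁻¹ ^ n) * ENNReal.ofReal ((r i * s) ^ n / C) := by
        rw [← ENNReal.ofReal_mul (by positivity)]
        congr 1
        rw [mul_pow, inv_pow]
        field_simp
    _ ≤ _ := by gcongr

/-- all scales of the limit are flat -/
theorem P3_limflat {n : ℕ} (hn : 1 ≤ n) {C : ℝ} {μ : Measure (X d)}
    [IsFiniteMeasure μ] {g : Fin d → X d → ℝ} {K F : Set (X d)} {r₀ : ℝ}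
    (h : Std n C μ g K F r₀) {x : X d} (hxF : x ∈ F)
    (hfl : ∀ ε : ℝ, 0 < ε → ∃ k₀ : ℕ, ∀ k, k₀ ≤ k → Flat n μ x ((2 : ℝ)⁻¹ ^ k) ε)
    {r : ℕ → ℝ} (hr : ∀ i, 0 < r i) (hr0 : Tendsto r (hyperfilter ℕ) (𝓝 0))
    {ν' : Measure (X d)} (hg' : Gr n C ν') (hv : VC (fun i => blow n x (r i) μ) ν')
    {R ε : ℝ} (hR : 0 < R) (hε : 0 < ε) : Flat n ν' 0 R ε := by
  have hC0 : 0 < C := lt_of_lt_of_le one_pos h.hC
  obtain ⟨s₀, hs₀, hs⟩ := P3_flat h.gr hfl hε
  refine flat_limit hn hC0.le (fun i => h.gr.blow x (hr i)) hg' hv 0 hR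
    (a := R ^ n / C) (by positivity) ?_ (ε := fun _ => ε) tendsto_const_nhds ?_
  · filter_upwards [P3_low h hr hr0 hR (x := x)] with i hi
    have h1 := hi x hxF
    rwa [sub_self, smul_zero] at h1
  · have h1 : ∀ᶠ i in (hyperfilter ℕ : Filter ℕ), r i < s₀ / R :=
      hr0.eventually_lt_const (div_pos hs₀ hR)
    filter_upwards [h1] with i hi
    rw [Flat.blow_iff n x (hr i) μ 0 hR, smul_zero, add_zero]
    refine hs _ (mul_pos (hr i) hR) ?_
    rw [lt_div_iff₀ hR] at hi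
    exact hi.le

/-- a measure which is flat at all scales lives on a plane through `0` -/
theorem P3_plane {n : ℕ} (hn : 1 ≤ n) {C : ℝ} (hC : 1 ≤ C) {ν' : Measure (X d)}
    (hg' : Gr n C ν') (hlo : Lo n C ν') (h0 : 0 ∈ Supp ν')
    (hfl : ∀ R ε : ℝ, 0 < R → 0 < ε → Flat n ν' 0 R ε) :
    ∃ v : Fin n → X d, Orthonormal ℝ v ∧ ∀ y ∈ Supp ν', q 0 v y = 0 := by
  have hC0 : 0 < C := lt_of_lt_of_le one_pos hC
  have := hg'.isLocallyFinite
  -- flatness with constant zero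
  have hz : ∀ R : ℝ, 0 < R → Flat n ν' 0 R 0 := by
    intro R hR
    refine flat_limit hn hC0.le (ν := fun _ => ν') (fun _ => hg') hg'
      (fun f _ _ => tendsto_const_nhds) 0 hR (a := R ^ n / C) (by positivity)
      (Eventually.of_forall fun _ => hlo 0 h0 R hR)
      (ε := fun i : ℕ => 1 / ((i : ℝ) + 1))
      (tendsto_one_div_add_atTop_nhds_zero_nat.mono_left Nat.hyperfilter_le_atTop)
      (Eventually.of_forall fun i => hfl R _ hR (by positivity))
  have hk : ∀ k : ℕ, ∃ v : Fin n → X d, Orthonormal ℝ v ∧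
      ∀ y ∈ Supp ν', ‖y‖ ≤ (k : ℝ) + 1 → q 0 v y = 0 := by
    intro k
    have hR : (0 : ℝ) < (k : ℝ) + 1 := by positivity
    obtain ⟨b, v, hv, hi⟩ := hz _ hR
    rw [zero_pow two_ne_zero, zero_mul] at hi
    have hcont : Continuous fun y : X d => cut ((k : ℝ) + 1) (y - 0) * q b v y := by
      have h1 : Continuous (q b v) := q_continuous b v
      unfold cut
      fun_prop
    have hcs : HasCompactSupport fun y : X d => cut ((k : ℝ) + 1) (y - 0) * q b v y := by
      refine HasCompactSupport.intro (isCompact_closedBall 0 (2 * ((k : ℝ) + 1))) ?_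
      intro y hy
      rw [mem_closedBall_zero_iff, not_le] at hy
      have h1 : cut ((k : ℝ) + 1) (y - 0) = 0 := by
        unfold cut
        rw [sub_zero]
        have h2 : 2 < ‖y‖ / ((k : ℝ) + 1) := by
          rw [lt_div_iff₀ hR]
          exact hy
        have h3 : min 1 (2 - ‖y‖ / ((k : ℝ) + 1)) ≤ 0 := le_trans (min_le_right _ _) (by linarith)
        exact max_eq_left h3
      rw [h1, zero_mul]
    have hall := eq_zero_on_supp hcont
      (fun y => mul_nonneg (le_max_left _ _) (q_nonneg b hv y))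
      (hcont.integrable_of_hasCompactSupport hcs) hi
    have hq : ∀ y ∈ Supp ν', ‖y‖ ≤ (k : ℝ) + 1 → q b v y = 0 := by
      intro y hy hyk
      have h1 := hall y hy
      have h2 : cut ((k : ℝ) + 1) (y - 0) = 1 := by
        unfold cut
        rw [sub_zero]
        have h3 : ‖y‖ / ((k : ℝ) + 1) ≤ 1 := by
          rw [div_le_one hR]
          exact hyk
        rw [min_eq_left (by linarith), max_eq_right zero_le_one]
      rw [h2, one_mul] at h1
      exact h1
    have hb0 := hq 0 h0 (by rw [norm_zero]; exact hR.le)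
    exact ⟨v, hv, fun y hy hyk => P3_q_zero_of hv hb0 (hq y hy hyk)⟩
  choose v hv hvq using hk
  obtain ⟨v', hv', hlim⟩ := frame_limit v hv
  refine ⟨v', hv', fun y hy => ?_⟩
  have h1 : Tendsto (fun k => q 0 (v k) y) (hyperfilter ℕ) (𝓝 (q 0 v' y)) := by
    have hc : Continuous fun w : Fin n → X d => q 0 w y := by
      unfold q
      fun_prop
    exact (hc.tendsto v').comp hlim
  have h2 : Tendsto (fun k => q 0 (v k) y) (hyperfilter ℕ) (𝓝 0) := by
    refine Tendsto.congr' ?_ tendsto_const_nhds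
    obtain ⟨N, hN⟩ := exists_nat_ge ‖y‖
    have h3 : ∀ᶠ k in (atTop : Filter ℕ), (0 : ℝ) = q 0 (v k) y := by
      filter_upwards [eventually_ge_atTop N] with k hk
      refine (hvq k y hy ?_).symm
      have : (N : ℝ) ≤ k := by exact_mod_cast hk
      linarith
    exact h3.filter_mono Nat.hyperfilter_le_atTop
  exact tendsto_nhds_unique h1 h2

theorem bilateral {n : ℕ} (hn : 1 ≤ n) (hnd : n ≤ d) {C : ℝ} {μ : Measure (X d)}
    [IsFiniteMeasure μ] {g : Fin d → X d → ℝ} {K F : Set (X d)} {r₀ : ℝ}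
    (h : Std n C μ g K F r₀) {x : X d} (hx : Good n μ g F x)
    (hfl : ∀ ε : ℝ, 0 < ε → ∃ k₀ : ℕ, ∀ k, k₀ ≤ k → Flat n μ x ((2 : ℝ)⁻¹ ^ k) ε) :
    ∀ η : ℝ, 0 < η → ∃ r₁ : ℝ, 0 < r₁ ∧ ∀ r : ℝ, 0 < r → r ≤ r₁ → BF n F x r η := by
  intro η hη
  by_contra hcon
  push Not at hcon
  have hd : 0 < d := lt_of_lt_of_le hn hnd
  have hC0 : 0 < C := lt_of_lt_of_le one_pos h.hC
  have hch : ∀ i : ℕ, ∃ r : ℝ, 0 < r ∧ r ≤ 1 / ((i : ℝ) + 1) ∧ ¬ BF n F x r η :=
    fun i => hcon _ (by positivity)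
  choose r hr hr1 hbf using hch
  have hr0 : Tendsto r (hyperfilter ℕ) (𝓝 0) := by
    have h1 : Tendsto r atTop (𝓝 0) :=
      squeeze_zero (fun i => (hr i).le) hr1 tendsto_one_div_add_atTop_nhds_zero_nat
    exact h1.mono_left Nat.hyperfilter_le_atTop
  obtain ⟨ν', hvc, hreg, h0'⟩ := blow_reg hn hd h hx hr hr0
  obtain ⟨v, hv, hsp⟩ := P3_plane hn h.hC hreg.gr hreg.lo h0'
    (fun R ε hR hε => P3_limflat hn h hx.mem hfl hr hr0 hreg.gr hvc hR hε)
  have hsub : Supp ν' ⊆ (Submodule.span ℝ (Set.range v) : Set (X d)) := by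
    intro y hy
    have h1 := (q_eq_zero_iff 0 hv y).1 (hsp y hy)
    rwa [sub_zero] at h1
  have hsupp := supp_eq hn hd h.hC hreg h0' _ hsub (finrank_frame hv)
  have hqc : Continuous (q (0 : X d) v) := q_continuous 0 v
  -- the two parts of bilateral flatness
  have hA : ∀ᶠ i in (hyperfilter ℕ : Filter ℕ), ∀ y ∈ F, ‖y - x‖ ≤ r i →
      q x v y ≤ (η * r i) ^ 2 := by
    by_contra hnot
    rw [← Ultrafilter.eventually_not] at hnot
    obtain ⟨z, w, -, hzw, hP⟩ := P3_seq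
      (fun i z => ∃ y ∈ F, z = (r i)⁻¹ • (y - x) ∧ η ^ 2 < q 0 v z) (by
        filter_upwards [hnot] with i hi
        push Not at hi
        obtain ⟨y, hy, hyr, hyq⟩ := hi
        refine ⟨(r i)⁻¹ • (y - x), ?_, y, hy, rfl, ?_⟩
        · rw [norm_smul, norm_inv, Real.norm_of_nonneg (hr i).le]
          calc (r i)⁻¹ * ‖y - x‖ ≤ (r i)⁻¹ * r i :=
                mul_le_mul_of_nonneg_left hyr (inv_nonneg.2 (hr i).le)
            _ = 1 := inv_mul_cancel₀ (hr i).ne'
        · rw [P3_q_scale v x y (hr i), mul_pow, mul_comm] at hyq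
          exact lt_of_mul_lt_mul_left hyq (by positivity))
    -- the limit is in the support
    have hwS : w ∈ Supp ν' := by
      intro s hs
      have h1 : ENNReal.ofReal ((s / 4) ^ n / C) ≤ ν' (closedBall w (s / 2)) := by
        refine VC.le_closedBall (fun i => h.gr.blow x (hr i)) hreg.gr hvc w (s / 2) _ ?_
        have h2 : ∀ᶠ i in (hyperfilter ℕ : Filter ℕ), dist (z i) w < s / 4 :=
          Metric.tendsto_nhds.1 hzw (s / 4) (by positivity)
        filter_upwards [hP, h2, P3_low h hr hr0 (s := s / 4) (by positivity) (x := x)]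
          with i hi hi2 hi3
        obtain ⟨y, hy, hzy, -⟩ := hi
        refine le_trans (hi3 y hy) (measure_mono ?_)
        rw [← hzy]
        refine closedBall_subset_closedBall' ?_
        linarith
      have h3 : (0 : ℝ≥0∞) < ENNReal.ofReal ((s / 4) ^ n / C) := by
        rw [ENNReal.ofReal_pos]
        positivity
      refine lt_of_lt_of_le h3 (le_trans h1 (measure_mono ?_))
      exact closedBall_subset_ball (by linarith)
    have h1 : η ^ 2 ≤ q 0 v w := by
      refine ge_of_tendsto ((hqc.tendsto w).comp hzw) ?_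
      filter_upwards [hP] with i hi
      obtain ⟨y, hy, hzy, hq⟩ := hi
      exact hq.le
    rw [hsp w hwS] at h1
    have : 0 < η ^ 2 := by positivity
    linarith
  have hB : ∀ᶠ i in (hyperfilter ℕ : Filter ℕ), ∀ p : X d, q x v p = 0 → ‖p - x‖ ≤ r i →
      ∃ y ∈ F, ‖y - p‖ ≤ η * r i := by
    by_contra hnot
    rw [← Ultrafilter.eventually_not] at hnot
    obtain ⟨z, w, -, hzw, hP⟩ := P3_seq
      (fun i z => q 0 v z = 0 ∧ ∀ y ∈ F, η < ‖(r i)⁻¹ • (y - x) - z‖) (by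
        filter_upwards [hnot] with i hi
        push Not at hi
        obtain ⟨p, hp0, hpr, hpF⟩ := hi
        refine ⟨(r i)⁻¹ • (p - x), ?_, ?_, ?_⟩
        · rw [norm_smul, norm_inv, Real.norm_of_nonneg (hr i).le]
          calc (r i)⁻¹ * ‖p - x‖ ≤ (r i)⁻¹ * r i :=
                mul_le_mul_of_nonneg_left hpr (inv_nonneg.2 (hr i).le)
            _ = 1 := inv_mul_cancel₀ (hr i).ne'
        · rw [P3_q_scale v x p (hr i)] at hp0
          have hri := hr i
          rcases mul_eq_zero.1 hp0 with h1 | h1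
          · exact absurd h1 (by positivity)
          · exact h1
        · intro y hy
          have h1 := hpF y hy
          have h2 : (r i)⁻¹ • (y - x) - (r i)⁻¹ • (p - x) = (r i)⁻¹ • (y - p) := by
            rw [← smul_sub]
            congr 1
            abel
          rw [h2, norm_smul, norm_inv, Real.norm_of_nonneg (hr i).le]
          have h3 : η = (r i)⁻¹ * (η * r i) := by
            have := (hr i).ne'
            field_simp
          rw [h3]
          exact mul_lt_mul_of_pos_left h1 (inv_pos.2 (hr i)))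
    have hw0 : q 0 v w = 0 := by
      refine tendsto_nhds_unique ((hqc.tendsto w).comp hzw) ?_
      refine Tendsto.congr' ?_ tendsto_const_nhds
      filter_upwards [hP] with i hi
      exact hi.1.symm
    have hwS : w ∈ Supp ν' := by
      rw [hsupp]
      have h1 := (q_eq_zero_iff 0 hv w).1 hw0
      rwa [sub_zero] at h1
    have h1 := supp_approx h.gr hx.dens hr hr0 hreg.gr hvc w hwS (η / 2) (by positivity)
    have h2 : ∀ᶠ i in (hyperfilter ℕ : Filter ℕ), dist (z i) w < η / 2 :=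
      Metric.tendsto_nhds.1 hzw (η / 2) (by positivity)
    obtain ⟨i, hi1, hi2, hi3⟩ := (h1.and (h2.and hP)).exists
    obtain ⟨y, hy, hyw⟩ := hi1
    have h3 := hi3.2 y hy
    rw [dist_eq_norm] at hi2
    have h4 : ‖(r i)⁻¹ • (y - x) - z i‖ ≤ ‖(r i)⁻¹ • (y - x) - w‖ + ‖z i - w‖ := by
      rw [norm_sub_rev (z i) w]
      exact norm_sub_le_norm_sub_add_norm_sub _ _ _
    linarith
  obtain ⟨i, hi1, hi2⟩ := (hA.and hB).exists
  exact hbf i ⟨v, hv, hi1, hi2⟩

end Pool.Agent.RZ
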