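import Pool.Agent.RZ.L2
import Pool.Agent.RZ.V3

/-!
V4: convergence of int u_i F_i dnu_i and of Lam.
convL: split at radius R: the tails are <= B A sqrt(M C)/sqrt R (Gr.weight) for both terms; on closedBall 0 R: |F_i - F| <= delta and
int_{B_R} |u_i| <= (M R^{n+3} C R^n)^{1/2}.
lam_conv: Lam eps nu_i psi_i (y) = psi_i(y) int k(x-y) dnu_i - int psi_i(x) k(x-y) dnu_i, VC.param for F y x = kr(x-y) (|F| <= B (1+|x|)^{-(n+1)}
for y in a compact set) and F y x = psi x kr(x-y), theta x kr(x-y).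
-/

set_option autoImplicit false

open MeasureTheory Filter Topology Metric Set
open scoped RealInnerProductSpace ENNReal

namespace Pool.Agent.RZ

variable {d : ℕ}

private theorem V4_kr_bound (n : ℕ) {ε : ℝ} (hε : 0 < ε) (x : X d) :
    kr n ε x ≤ (1 + 1 / ε) ^ (n + 1) * (1 + ‖x‖)⁻¹ ^ (n + 1) := by
  unfold kr
  rw [← mul_pow]
  have hs : ε ≤ Real.sqrt (‖x‖ ^ 2 + ε ^ 2) := by
    apply Real.le_sqrt_of_sq_le
    nlinarith [sq_nonneg ‖x‖]
  have hs2 : ‖x‖ ≤ Real.sqrt (‖x‖ ^ 2 + ε ^ 2) := by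
    apply Real.le_sqrt_of_sq_le
    nlinarith [sq_nonneg ε]
  set s := Real.sqrt (‖x‖ ^ 2 + ε ^ 2) with hsdef
  have hs0 : 0 < s := lt_of_lt_of_le hε hs
  have hx : 0 ≤ ‖x‖ := norm_nonneg x
  apply pow_le_pow_left₀ (inv_nonneg.mpr hs0.le)
  rw [inv_eq_one_div, div_le_iff₀ hs0]
  have h1 : (1 + ‖x‖) ≤ (1 + 1 / ε) * s := by
    have : 1 ≤ 1 / ε * s := by
      rw [one_div, inv_mul_eq_div, le_div_iff₀ hε]
      linarith
    nlinarith
  have h2 : (1 + 1 / ε) * (1 + ‖x‖)⁻¹ * s = ((1 + 1 / ε) * s) * (1 + ‖x‖)⁻¹ := by ring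
  rw [h2]
  have h3 : 0 < 1 + ‖x‖ := by linarith
  rw [← div_eq_mul_inv, le_div_iff₀ h3]
  linarith

private theorem V4_kr_bound2 (n : ℕ) {ε : ℝ} (hε : 0 < ε) {R : ℝ} {y : X d} (hy : ‖y‖ ≤ R)
    (x : X d) :
    kr n ε (x - y) ≤ (1 + R / ε) ^ (n + 1) * (1 + 1 / ε) ^ (n + 1) * (1 + ‖x‖)⁻¹ ^ (n + 1) := by
  have h1 := kr_le_shift (d := d) n hε (a := R) (x - y) x (by
    have : x - y - x = -y := by abel
    rw [this, norm_neg]
    exact hy)
  have hR : 0 ≤ R := (norm_nonneg y).trans hy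
  have h2 := V4_kr_bound (d := d) n hε x
  have h3 : 0 ≤ (1 + R / ε) ^ (n + 1) := by positivity
  calc kr n ε (x - y) ≤ (1 + R / ε) ^ (n + 1) * kr n ε x := h1
    _ ≤ (1 + R / ε) ^ (n + 1) * ((1 + 1 / ε) ^ (n + 1) * (1 + ‖x‖)⁻¹ ^ (n + 1)) :=
        mul_le_mul_of_nonneg_left h2 h3
    _ = _ := by ring

private theorem V4_bdd {L ρ : ℝ} {ψ : X d → ℝ} (hψ : Tst L ρ ψ) :
    ∃ P : ℝ, 0 ≤ P ∧ ∀ x, |ψ x| ≤ P := by
  obtain ⟨P, hP⟩ := hψ.hasCompactSupport.exists_bound_of_continuous hψ.continuous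
  refine ⟨P, (norm_nonneg _).trans (hP 0), fun x => ?_⟩
  have := hP x
  rwa [Real.norm_eq_abs] at this

private theorem V4_lam {n : ℕ} (hn : 1 ≤ n) {C : ℝ} (hC : 0 ≤ C) {ν : ℕ → Measure (X d)}
    {ν' : Measure (X d)} (h : ∀ i, Gr n C (ν i)) (h' : Gr n C ν') (hv : VC ν ν')
    {ε : ℝ} (hε : 0 < ε) {L ρ : ℝ} {ψ : X d → ℝ} (hψ : Tst L ρ ψ) :
    ∀ R δ : ℝ, 0 < δ → ∀ᶠ i in (hyperfilter ℕ : Filter ℕ), ∀ y ∈ closedBall (0 : X d) R,
      |Lam n ε (ν i) ψ y - Lam n ε ν' ψ y| ≤ δ := by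
  intro R δ hδ
  obtain ⟨P, hP0, hP⟩ := V4_bdd hψ
  have hkc : Continuous fun p : X d × X d => kr n ε (p.2 - p.1) :=
    (kr_continuous (d := d) n hε).comp (continuous_snd.sub continuous_fst)
  have hK : IsCompact (closedBall (0 : X d) R) := isCompact_closedBall _ _
  set B : ℝ := (1 + R / ε) ^ (n + 1) * (1 + 1 / ε) ^ (n + 1) with hB
  have hb1 : ∀ y ∈ closedBall (0 : X d) R, ∀ x : X d,
      |kr n ε (x - y)| ≤ B * (1 + ‖x‖)⁻¹ ^ (n + 1) := by
    intro y hy x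
    rw [abs_of_nonneg (kr_nonneg n ε _)]
    exact V4_kr_bound2 n hε (mem_closedBall_zero_iff.mp hy) x
  have hb2 : ∀ y ∈ closedBall (0 : X d) R, ∀ x : X d,
      |ψ x * kr n ε (x - y)| ≤ (P * B) * (1 + ‖x‖)⁻¹ ^ (n + 1) := by
    intro y hy x
    rw [abs_mul, mul_assoc]
    exact mul_le_mul (hP x) (hb1 y hy x) (abs_nonneg _) hP0
  have e1 := VC.param hn hC h h' hv (F := fun y x => kr n ε (x - y)) hkc hK hb1
    (δ / (2 * (P + 1))) (by positivity)
  have e2 := VC.param hn hC h h' hv (F := fun y x => ψ x * kr n ε (x - y))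
    ((hψ.continuous.comp continuous_snd).mul hkc) hK hb2 (δ / 2) (by positivity)
  filter_upwards [e1, e2] with i h1 h2 y hy
  have g1 := h1 y hy
  have g2 := h2 y hy
  rw [lam_eq hn hC (h i) hε hψ y, lam_eq hn hC h' hε hψ y]
  set a1 := ∫ x, kr n ε (x - y) ∂(ν i)
  set a2 := ∫ x, kr n ε (x - y) ∂ν'
  set b1 := ∫ x, ψ x * kr n ε (x - y) ∂(ν i)
  set b2 := ∫ x, ψ x * kr n ε (x - y) ∂ν'
  have e : ψ y * a1 - b1 - (ψ y * a2 - b2) = ψ y * (a1 - a2) - (b1 - b2) := by ring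
  rw [e]
  have k1 : |ψ y * (a1 - a2)| ≤ P * (δ / (2 * (P + 1))) := by
    rw [abs_mul]
    exact mul_le_mul (hP y) g1 (abs_nonneg _) hP0
  have k2 : P * (δ / (2 * (P + 1))) ≤ δ / 2 := by
    have hp : 0 < P + 1 := by linarith
    rw [mul_div_assoc', div_le_div_iff₀ (by positivity) (by norm_num)]
    nlinarith
  calc |ψ y * (a1 - a2) - (b1 - b2)| ≤ |ψ y * (a1 - a2)| + |b1 - b2| := abs_sub _ _
    _ ≤ δ / 2 + δ / 2 := add_le_add (k1.trans k2) g2
    _ = δ := by ring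

theorem convL {n : ℕ} (hn : 1 ≤ n) {C : ℝ} (hC : 0 ≤ C) {ν : ℕ → Measure (X d)}
    (h : ∀ i, Gr n C (ν i)) {u : ℕ → X d → ℝ} (hu : ∀ i, Continuous (u i)) {M : ℝ} (hM : 0 ≤ M)
    (huM : ∀ i, ∀ r, 1 ≤ r → ∫ y in closedBall 0 r, u i y ^ 2 ∂(ν i) ≤ M * r ^ (n + 3))
    {F : ℕ → X d → ℝ} {F' : X d → ℝ} (hF : ∀ i, Continuous (F i)) (hF' : Continuous F') {B : ℝ}
    (hB : ∀ i y, |F i y| ≤ B * (1 + ‖y‖)⁻¹ ^ (n + 2))
    (hB' : ∀ y, |F' y| ≤ B * (1 + ‖y‖)⁻¹ ^ (n + 2))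
    (hlim : ∀ R δ : ℝ, 0 < δ → ∀ᶠ i in (hyperfilter ℕ : Filter ℕ),
      ∀ y ∈ closedBall (0 : X d) R, |F i y - F' y| ≤ δ) :
    Tendsto (fun i => (∫ y, u i y * F i y ∂(ν i)) - ∫ y, u i y * F' y ∂(ν i)) (hyperfilter ℕ)
      (𝓝 0) := by
  obtain ⟨A, hA, hw⟩ := Gr.weight (d := d) n hn
  have hB0 : 0 ≤ B := by
    have h1 := (abs_nonneg _).trans (hB' 0)
    simpa using h1
  have hw0 : ∀ y : X d, 0 ≤ (1 + ‖y‖)⁻¹ ^ (n + 2) := fun y => by positivity
  have hwi := fun i => hw C hC (ν i) (h i) (u i) (hu i) M hM (huM i)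
  have hI : ∀ i (G : X d → ℝ), Continuous G → (∀ y, |G y| ≤ B * (1 + ‖y‖)⁻¹ ^ (n + 2)) →
      Integrable (fun y => u i y * G y) (ν i) := by
    intro i G hG hGB
    refine ((hwi i).1.const_mul B).mono' ((hu i).mul hG).aestronglyMeasurable
      (Filter.Eventually.of_forall fun y => ?_)
    rw [Real.norm_eq_abs, abs_mul]
    calc |u i y| * |G y| ≤ |u i y| * (B * (1 + ‖y‖)⁻¹ ^ (n + 2)) :=
          mul_le_mul_of_nonneg_left (hGB y) (abs_nonneg _)
      _ = B * (|u i y| * (1 + ‖y‖)⁻¹ ^ (n + 2)) := by ring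
  rw [Metric.tendsto_nhds]
  intro η hη
  set Q : ℝ := A * Real.sqrt (M * C) with hQ
  have hQ0 : 0 ≤ Q := by positivity
  set T : ℝ := 6 * B * Q / η + 1 with hT
  have hT1 : 1 ≤ T := by
    have : 0 ≤ 6 * B * Q / η := by positivity
    linarith
  have hT0 : 0 < T := by linarith
  set R : ℝ := T ^ 2 with hR
  have hR1 : 1 ≤ R := one_le_pow₀ hT1
  have hsR : Real.sqrt R = T := Real.sqrt_sq hT0.le
  have htail : 2 * B * (Q * (Real.sqrt R)⁻¹) ≤ η / 3 := by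
    rw [hsR, ← mul_assoc, ← div_eq_mul_inv, div_le_iff₀ hT0, hT]
    have : η / 3 * (6 * B * Q / η + 1) = 2 * B * Q + η / 3 := by
      field_simp
      ring
    rw [this]
    linarith
  set K : ℝ := (C * R ^ n + M * R ^ (n + 3)) / 2 with hKdef
  have hR0 : 0 < R := by linarith
  have hK0 : 0 ≤ K := by positivity
  have hev := hlim R (η / (3 * (K + 1))) (by positivity)
  filter_upwards [hev] with i hi
  have := (h i).isLocallyFinite
  rw [Real.dist_eq, sub_zero, ← integral_sub (hI i (F i) (hF i) (hB i)) (hI i F' hF' hB')]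
  have hID : Integrable (fun y => u i y * F i y - u i y * F' y) (ν i) :=
    (hI i (F i) (hF i) (hB i)).sub (hI i F' hF' hB')
  have hIN : Integrable (fun y => |u i y * F i y - u i y * F' y|) (ν i) := hID.abs
  have hms : MeasurableSet {y : X d | R ≤ ‖y‖} :=
    (isClosed_le continuous_const continuous_norm).measurableSet
  have hsplit := integral_add_compl hms hIN
  have hT2 : ∫ y in {y : X d | R ≤ ‖y‖}, |u i y * F i y - u i y * F' y| ∂(ν i) ≤ η / 3 := by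
    have hle : ∫ y in {y : X d | R ≤ ‖y‖}, |u i y * F i y - u i y * F' y| ∂(ν i) ≤
        ∫ y in {y : X d | R ≤ ‖y‖}, 2 * B * (|u i y| * (1 + ‖y‖)⁻¹ ^ (n + 2)) ∂(ν i) := by
      refine integral_mono hIN.integrableOn ((hwi i).1.const_mul (2 * B)).integrableOn
        fun y => ?_
      show |u i y * F i y - u i y * F' y| ≤ 2 * B * (|u i y| * (1 + ‖y‖)⁻¹ ^ (n + 2))
      rw [← mul_sub, abs_mul]
      have h1 : |F i y - F' y| ≤ 2 * B * (1 + ‖y‖)⁻¹ ^ (n + 2) := by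
        calc |F i y - F' y| ≤ |F i y| + |F' y| := abs_sub _ _
          _ ≤ B * (1 + ‖y‖)⁻¹ ^ (n + 2) + B * (1 + ‖y‖)⁻¹ ^ (n + 2) := add_le_add (hB i y) (hB' y)
          _ = _ := by ring
      calc |u i y| * |F i y - F' y| ≤ |u i y| * (2 * B * (1 + ‖y‖)⁻¹ ^ (n + 2)) :=
            mul_le_mul_of_nonneg_left h1 (abs_nonneg _)
        _ = _ := by ring
    refine hle.trans ?_
    rw [integral_const_mul]
    refine le_trans (mul_le_mul_of_nonneg_left ((hwi i).2 R hR1) (by positivity)) ?_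
    exact htail
  have hT3 : ∫ y in {y : X d | R ≤ ‖y‖}ᶜ, |u i y * F i y - u i y * F' y| ∂(ν i) ≤ η / 3 := by
    have hcont : Continuous fun y => |u i y * F i y - u i y * F' y| :=
      (((hu i).mul (hF i)).sub ((hu i).mul hF')).abs
    have hcpt : IsCompact (closedBall (0 : X d) R) := isCompact_closedBall _ _
    have hsub : {y : X d | R ≤ ‖y‖}ᶜ ⊆ closedBall (0 : X d) R := by
      intro y hy
      rw [mem_closedBall_zero_iff]
      by_contra hcon
      exact hy (not_le.mp hcon).le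
    have hle1 : ∫ y in {y : X d | R ≤ ‖y‖}ᶜ, |u i y * F i y - u i y * F' y| ∂(ν i) ≤
        ∫ y in closedBall (0 : X d) R, |u i y * F i y - u i y * F' y| ∂(ν i) := by
      refine setIntegral_mono_set hIN.integrableOn
        (Filter.Eventually.of_forall fun y => abs_nonneg _) ?_
      exact Filter.Eventually.of_forall fun y hy => hsub hy
    refine hle1.trans ?_
    have hu2 : IntegrableOn (fun y => u i y ^ 2) (closedBall (0 : X d) R) (ν i) :=
      ((hu i).pow 2).continuousOn.integrableOn_compact hcpt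
    have h1i : IntegrableOn (fun _ : X d => (1 : ℝ)) (closedBall (0 : X d) R) (ν i) :=
      continuousOn_const.integrableOn_compact hcpt
    have hsum : IntegrableOn (fun y => η / (3 * (K + 1)) * ((1 + u i y ^ 2) / 2))
        (closedBall (0 : X d) R) (ν i) :=
      ((h1i.add hu2).div_const 2).const_mul _
    have hle2 : ∫ y in closedBall (0 : X d) R, |u i y * F i y - u i y * F' y| ∂(ν i) ≤
        ∫ y in closedBall (0 : X d) R, η / (3 * (K + 1)) * ((1 + u i y ^ 2) / 2) ∂(ν i) := by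
      refine setIntegral_mono_on hIN.integrableOn hsum hcpt.isClosed.measurableSet fun y hy => ?_
      rw [← mul_sub, abs_mul, mul_comm]
      have hu1 : |u i y| ≤ (1 + u i y ^ 2) / 2 := by
        nlinarith [sq_nonneg (|u i y| - 1), sq_abs (u i y)]
      exact mul_le_mul (hi y hy) hu1 (abs_nonneg _) (by positivity)
    refine hle2.trans ?_
    rw [integral_const_mul, integral_div, integral_add h1i hu2]
    have hm1 : ∫ _ in closedBall (0 : X d) R, (1 : ℝ) ∂(ν i) ≤ C * R ^ n := by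
      rw [setIntegral_const, smul_eq_mul, mul_one]
      exact (h i).real_le hC 0 hR0
    have hm2 := huM i R hR1
    have hm3 : ((∫ _ in closedBall (0 : X d) R, (1 : ℝ) ∂(ν i)) +
        ∫ y in closedBall (0 : X d) R, u i y ^ 2 ∂(ν i)) / 2 ≤ K := by
      rw [hKdef]
      linarith
    refine (mul_le_mul_of_nonneg_left hm3 (by positivity)).trans ?_
    have hp : 0 < K + 1 := by linarith
    rw [div_mul_eq_mul_div, div_le_div_iff₀ (by positivity) (by norm_num)]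
    nlinarith
  calc |∫ y, (u i y * F i y - u i y * F' y) ∂(ν i)|
      ≤ ∫ y, |u i y * F i y - u i y * F' y| ∂(ν i) := abs_integral_le_integral_abs
    _ = _ := hsplit.symm
    _ ≤ η / 3 + η / 3 := add_le_add hT2 hT3
    _ < η := by linarith

theorem lam_conv {n : ℕ} (hn : 1 ≤ n) {C : ℝ} (hC : 0 ≤ C) {ν : ℕ → Measure (X d)}
    {ν' : Measure (X d)} (h : ∀ i, Gr n C (ν i)) (h' : Gr n C ν') (hv : VC ν ν')
    {ε : ℝ} (hε : 0 < ε) {L ρ L' ρ' : ℝ} {ψ θ : X d → ℝ} (hψ : Tst L ρ ψ) (hθ : Tst L' ρ' θ)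
    {c : ℕ → ℝ} (hc : Tendsto c (hyperfilter ℕ) (𝓝 0)) :
    ∀ R δ : ℝ, 0 < δ → ∀ᶠ i in (hyperfilter ℕ : Filter ℕ), ∀ y ∈ closedBall (0 : X d) R,
      |Lam n ε (ν i) (fun x => ψ x - c i * θ x) y - Lam n ε ν' ψ y| ≤ δ := by
  intro R δ hδ
  have e1 := V4_lam hn hC h h' hv hε hψ R (δ / 2) (by positivity)
  have e2 := V4_lam hn hC h h' hv hε hθ R 1 one_pos
  have hcont := lam_continuous hn hC h' hε hθ
  obtain ⟨P, hP⟩ := (isCompact_closedBall (0 : X d) R).exists_bound_of_continuousOn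
    hcont.continuousOn
  have hP1 : 0 < |P| + 1 := by positivity
  have e3 : ∀ᶠ i in (hyperfilter ℕ : Filter ℕ), |c i| < δ / (2 * (|P| + 1)) := by
    have := (Metric.tendsto_nhds.mp hc) (δ / (2 * (|P| + 1))) (by positivity)
    filter_upwards [this] with i hi
    rwa [Real.dist_eq, sub_zero] at hi
  filter_upwards [e1, e2, e3] with i h1 h2 h3 y hy
  have g1 := h1 y hy
  have g2 := h2 y hy
  have g3 := hP y hy
  rw [Real.norm_eq_abs] at g3
  have hfun : (fun x => ψ x - c i * θ x) = fun x => 1 * ψ x + (-c i) * θ x := by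
    funext x
    ring
  rw [hfun, lam_add hn hC (h i) hε hψ hθ 1 (-c i) y]
  have e : 1 * Lam n ε (ν i) ψ y + -c i * Lam n ε (ν i) θ y - Lam n ε ν' ψ y =
      (Lam n ε (ν i) ψ y - Lam n ε ν' ψ y) - c i * Lam n ε (ν i) θ y := by ring
  rw [e]
  have g4 : |Lam n ε (ν i) θ y| ≤ |P| + 1 := by
    calc |Lam n ε (ν i) θ y| = |(Lam n ε (ν i) θ y - Lam n ε ν' θ y) + Lam n ε ν' θ y| := by
          congr 1
          ring
      _ ≤ |Lam n ε (ν i) θ y - Lam n ε ν' θ y| + |Lam n ε ν' θ y| := abs_add_le _ _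
      _ ≤ 1 + |P| := add_le_add g2 (g3.trans (le_abs_self P))
      _ = _ := by ring
  have g5 : |c i * Lam n ε (ν i) θ y| ≤ δ / 2 := by
    rw [abs_mul]
    calc |c i| * |Lam n ε (ν i) θ y| ≤ δ / (2 * (|P| + 1)) * (|P| + 1) :=
          mul_le_mul h3.le g4 (abs_nonneg _) (by positivity)
      _ = δ / 2 := by
          field_simp
  calc |(Lam n ε (ν i) ψ y - Lam n ε ν' ψ y) - c i * Lam n ε (ν i) θ y|
      ≤ |Lam n ε (ν i) ψ y - Lam n ε ν' ψ y| + |c i * Lam n ε (ν i) θ y| := abs_sub _ _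
    _ ≤ δ / 2 + δ / 2 := add_le_add g1 g5
    _ = δ := by ring

end Pool.Agent.RZ
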