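import Pool.Agent.RZ.M7
import Pool.Agent.RZ.P2
import Pool.Agent.RZ.P3
import Pool.Agent.RZ.J1
import Pool.Agent.RZ.J2
import Pool.Agent.RZ.J3

/-!
Z1: assembly. For a compact G with mu_G = H^n|G of growth C: for k, F_k = {y in G : for all r in (0, 1/(k+1)]: ofReal(r^n/(k+1)) <= mu_G(closedBall y r)} is compact.
Std for mu_G: Bdd.restrict, Bdd.l2b, exists_g (IsFiniteMeasure), C = max. ae_good, liminf_flat, lim_flat, bilateral, criterion: F_k is covered.
piece: combine over k. Then for the sets G_j of exhaust: at H^n-a.e. x in G_j: mu_{G_j}(closedBall x r)/mu_E(closedBall x r) -> 1 (density theorem), so if liminf mu_E(closedBall x r)/r^n > 0 then x in some F_{j,k}.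
-/

set_option autoImplicit false

open MeasureTheory Filter Topology Metric Set
open scoped RealInnerProductSpace ENNReal

namespace Pool.Agent.RZ

variable {d : ℕ}

private theorem Z1b_pt {n : ℕ} {E G : Set (X d)} (hEm : MeasurableSet E) (hGm : MeasurableSet G)
    (hGE : G ⊆ E) (hfin : Measure.hausdorffMeasure (n : ℝ) E < ⊤) {x : X d} (hx : x ∈ G)
    (hl : 0 < liminf (fun r : ℝ => Measure.hausdorffMeasure (n : ℝ) (E ∩ closedBall x r) /
        ENNReal.ofReal (r ^ n)) (𝓝[>] 0))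
    (hd : Tendsto (fun r => (Measure.hausdorffMeasure (n : ℝ)).restrict E (G ∩ closedBall x r) /
      (Measure.hausdorffMeasure (n : ℝ)).restrict E (closedBall x r)) (𝓝[>] 0) (𝓝 1)) :
    ∃ k : ℕ, x ∈ {y ∈ G | ∀ r : ℝ, 0 < r → r ≤ 1 / (k + 1) →
      ENNReal.ofReal (r ^ n / (k + 1)) ≤
        (Measure.hausdorffMeasure (n : ℝ)).restrict G (closedBall y r)} := by
  set H : Measure (X d) := Measure.hausdorffMeasure (n : ℝ) with hH
  obtain ⟨c', hc'0, hc'⟩ := exists_between hl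
  obtain ⟨c, hc0, hcc'⟩ : ∃ c : ℝ, 0 < c ∧ ENNReal.ofReal c ≤ c' := by
    have hc1 : min c' 1 ≠ ⊤ := ne_top_of_le_ne_top ENNReal.one_ne_top (min_le_right _ _)
    refine ⟨(min c' 1).toReal, ENNReal.toReal_pos (ne_of_gt (lt_min hc'0 one_pos)) hc1, ?_⟩
    rw [ENNReal.ofReal_toReal hc1]
    exact min_le_left _ _
  have h1 : ∀ᶠ r in 𝓝[>] (0 : ℝ), c' < H (E ∩ closedBall x r) / ENNReal.ofReal (r ^ n) :=
    eventually_lt_of_lt_liminf hc'
  have h2 : ∀ᶠ r in 𝓝[>] (0 : ℝ), ENNReal.ofReal (1 / 2) <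
      H.restrict E (G ∩ closedBall x r) / H.restrict E (closedBall x r) := by
    refine hd.eventually (lt_mem_nhds ?_)
    rw [← ENNReal.ofReal_one]
    exact (ENNReal.ofReal_lt_ofReal_iff one_pos).2 (by norm_num)
  obtain ⟨r₀, hr₀, hr⟩ := mem_nhdsGT_iff_exists_Ioo_subset.1 (h1.and h2)
  have hr₀' : 0 < r₀ := hr₀
  obtain ⟨k, hk⟩ := exists_nat_gt (max (2 / c) (1 / r₀))
  have hk1 : 2 / c < (k : ℝ) + 1 := lt_of_le_of_lt (le_max_left _ _) (hk.trans (lt_add_one _))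
  have hk2 : 1 / r₀ < (k : ℝ) + 1 := lt_of_le_of_lt (le_max_right _ _) (hk.trans (lt_add_one _))
  have hkp : (0 : ℝ) < (k : ℝ) + 1 := by positivity
  refine ⟨k, hx, ?_⟩
  intro r hr0 hrk
  have hrr : r < r₀ := by
    refine lt_of_le_of_lt hrk ?_
    rw [div_lt_iff₀ hkp]
    rw [div_lt_iff₀ hr₀'] at hk2
    linarith
  obtain ⟨ha, hb⟩ := hr ⟨hr0, hrr⟩
  have hb0 : ENNReal.ofReal (r ^ n) ≠ 0 := by
    rw [Ne, ENNReal.ofReal_eq_zero, not_le]
    positivity
  have ha' : ENNReal.ofReal c * ENNReal.ofReal (r ^ n) ≤ H (E ∩ closedBall x r) := by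
    have h3 : ENNReal.ofReal c ≤ H (E ∩ closedBall x r) / ENNReal.ofReal (r ^ n) :=
      hcc'.trans (le_of_lt ha)
    exact (ENNReal.le_div_iff_mul_le (Or.inl hb0) (Or.inl ENNReal.ofReal_ne_top)).1 h3
  rw [Measure.restrict_apply' hEm, Measure.restrict_apply' hEm] at hb
  have e1 : G ∩ closedBall x r ∩ E = closedBall x r ∩ G := by
    ext y
    constructor
    · rintro ⟨⟨h1, h2⟩, -⟩
      exact ⟨h2, h1⟩
    · rintro ⟨h1, h2⟩
      exact ⟨⟨h2, h1⟩, hGE h2⟩
  rw [e1, inter_comm (closedBall x r) E] at hb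
  have hne : H (E ∩ closedBall x r) ≠ 0 := by
    intro h0
    rw [h0] at ha'
    have : ENNReal.ofReal c * ENNReal.ofReal (r ^ n) = 0 := nonpos_iff_eq_zero.1 ha'
    rcases mul_eq_zero.1 this with h4 | h4
    · rw [ENNReal.ofReal_eq_zero] at h4
      linarith
    · exact hb0 h4
  have htop : H (E ∩ closedBall x r) ≠ ⊤ :=
    ne_top_of_le_ne_top hfin.ne (measure_mono inter_subset_left)
  have hb' : ENNReal.ofReal (1 / 2) * H (E ∩ closedBall x r) ≤ H (closedBall x r ∩ G) :=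
    (ENNReal.le_div_iff_mul_le (Or.inl hne) (Or.inl htop)).1 (le_of_lt hb)
  rw [Measure.restrict_apply' hGm]
  refine le_trans ?_ hb'
  refine le_trans ?_ (mul_le_mul_right ha' _)
  rw [← ENNReal.ofReal_mul hc0.le, ← ENNReal.ofReal_mul (by norm_num)]
  refine ENNReal.ofReal_le_ofReal ?_
  rw [div_le_iff₀ hkp]
  rw [div_lt_iff₀ hc0] at hk1
  have hrn : 0 < r ^ n := by positivity
  nlinarith

/-- the positive lower density part of a set is covered by the lower regular parts of the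
exhaustion -/
theorem density_part {n : ℕ} (hn : 1 ≤ n) {E : Set (X d)} (hE : IsCompact E)
    (hfin : Measure.hausdorffMeasure (n : ℝ) E < ⊤) (G : ℕ → Set (X d))
    (hG : ∀ j, IsCompact (G j) ∧ G j ⊆ E)
    (hcov : Measure.hausdorffMeasure (n : ℝ) (E \ ⋃ j, G j) = 0) :
    Measure.hausdorffMeasure (n : ℝ)
      ({x ∈ E | 0 < liminf (fun r : ℝ => Measure.hausdorffMeasure (n : ℝ) (E ∩ closedBall x r) /
        ENNReal.ofReal (r ^ n)) (𝓝[>] 0)} \
        ⋃ j : ℕ, ⋃ k : ℕ, {y ∈ G j | ∀ r : ℝ, 0 < r → r ≤ 1 / (k + 1) →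
          ENNReal.ofReal (r ^ n / (k + 1)) ≤
            (Measure.hausdorffMeasure (n : ℝ)).restrict (G j) (closedBall y r)}) = 0 := by
  have hEm : MeasurableSet E := hE.measurableSet
  haveI : IsFiniteMeasure ((Measure.hausdorffMeasure (n : ℝ) : Measure (X d)).restrict E) :=
    ⟨by rw [Measure.restrict_apply_univ]; exact hfin⟩
  have hj : ∀ j, ∀ᵐ x ∂(Measure.hausdorffMeasure (n : ℝ) : Measure (X d)), x ∈ G j →
      Tendsto (fun r => (Measure.hausdorffMeasure (n : ℝ)).restrict E (G j ∩ closedBall x r) /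
      (Measure.hausdorffMeasure (n : ℝ)).restrict E (closedBall x r)) (𝓝[>] 0) (𝓝 1) := by
    intro j
    have h1 := Besicovitch.ae_tendsto_measure_inter_div
      ((Measure.hausdorffMeasure (n : ℝ) : Measure (X d)).restrict E) (G j)
    rw [Measure.restrict_restrict_of_subset (hG j).2] at h1
    exact (ae_restrict_iff' (hG j).1.measurableSet).1 h1
  rw [measure_eq_zero_iff_ae_notMem]
  filter_upwards [ae_all_iff.2 hj, measure_eq_zero_iff_ae_notMem.1 hcov] with x hx1 hx2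
  rintro ⟨⟨hxE, hxl⟩, hxn⟩
  have hxG : x ∈ ⋃ j, G j := by
    by_contra hcon
    exact hx2 ⟨hxE, hcon⟩
  obtain ⟨j, hxj⟩ := mem_iUnion.1 hxG
  obtain ⟨k, hk⟩ := Z1b_pt hEm (hG j).1.measurableSet (hG j).2 hfin hxj hxl (hx1 j hxj)
  exact hxn (mem_iUnion.2 ⟨j, mem_iUnion.2 ⟨k, hk⟩⟩)

end Pool.Agent.RZ
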