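import Pool.Agent.RZ.M7
import Pool.Agent.RZ.P2
import Pool.Agent.RZ.P3
import Pool.Agent.RZ.J1
import Pool.Agent.RZ.J2
import Pool.Agent.RZ.J3

/-!
Z1: assembly. For a compact G with mu_G = H^n|G of growth C: for k, F_k = {y in G : for all r in (0, 1/(k+1)]: ofReal(r^n/(k+1)) <= mu_G(closedBall y r)} is compact.
Std for mu_G: Bdd.restrict, Bdd.l2b, exists_g (IsFiniteMeasure), C = max. ae_good, liminf_flat, lim_flat, bilateral, criterion: F_k is covered.
piece: combine over k. Then for the sets G_j of exhaust: at H^n-a.e. x in G_j: mu_{G_j}(closedBall x r)/mu_E(closedBall x r) -> 1 (density theorem), so if liminf mu_E(closedBall x r)/r^n > 0 then x in some F_{j,k}.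
-/

set_option autoImplicit false

open MeasureTheory Filter Topology Metric Set
open scoped RealInnerProductSpace ENNReal

namespace Pool.Agent.RZ

variable {d : ℕ}

private theorem Z1a_closed_one {μ : Measure (X d)} [IsFiniteMeasure μ] (r : ℝ) (hr : 0 ≤ r)
    (a : ℝ≥0∞) : IsClosed {y : X d | a ≤ μ (closedBall y r)} := by
  rw [← closure_subset_iff_isClosed]
  intro y hy
  have h1 : ∀ δ : ℝ, 0 < δ → a ≤ μ (closedBall y (δ + r)) := by
    intro δ hδ
    obtain ⟨z, hz, hzy⟩ := Metric.mem_closure_iff.1 hy δ hδ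
    refine le_trans hz (measure_mono ?_)
    apply closedBall_subset_closedBall'
    rw [dist_comm]
    linarith [hzy.le]
  have h2 : Tendsto (fun δ : ℝ => μ (cthickening δ (closedBall y r))) (𝓝 0)
      (𝓝 (μ (closedBall y r))) :=
    tendsto_measure_cthickening_of_isClosed ⟨1, one_pos, measure_ne_top μ _⟩ isClosed_closedBall
  have h3 : Tendsto (fun δ : ℝ => μ (cthickening δ (closedBall y r))) (𝓝[>] 0)
      (𝓝 (μ (closedBall y r))) := h2.mono_left nhdsWithin_le_nhds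
  refine ge_of_tendsto h3 ?_
  filter_upwards [self_mem_nhdsWithin] with δ hδ
  have hδ' : (0 : ℝ) < δ := hδ
  rw [cthickening_closedBall hδ'.le hr]
  exact h1 δ hδ'

private theorem Z1a_closed {μ : Measure (X d)} [IsFiniteMeasure μ] {G : Set (X d)}
    (hG : IsCompact G) (r₀ : ℝ) (a : ℝ → ℝ≥0∞) :
    IsCompact {y ∈ G | ∀ r : ℝ, 0 < r → r ≤ r₀ → a r ≤ μ (closedBall y r)} := by
  have h : {y ∈ G | ∀ r : ℝ, 0 < r → r ≤ r₀ → a r ≤ μ (closedBall y r)} =
      G ∩ ⋂ r : ℝ, ⋂ _ : 0 < r, ⋂ _ : r ≤ r₀, {y : X d | a r ≤ μ (closedBall y r)} := by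
    ext y
    simp only [Set.mem_ofPred_eq, mem_inter_iff, mem_iInter]
  rw [h]
  refine hG.inter_right ?_
  exact isClosed_iInter fun r => isClosed_iInter fun hr => isClosed_iInter fun _ =>
    Z1a_closed_one r hr.le (a r)

private theorem Z1a_l2 {n : ℕ} {C C' : ℝ} (hCC : C ≤ C') {μ : Measure (X d)} (h : L2b n C μ) :
    L2b n C' μ := by
  intro ε hε e he f ψ hf hf' hψ hψ'
  refine (h ε hε e he f ψ hf hf' hψ hψ').trans ?_
  have h1 : C * Real.sqrt (∫ x, f x ^ 2 ∂μ) ≤ C' * Real.sqrt (∫ x, f x ^ 2 ∂μ) :=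
    mul_le_mul_of_nonneg_right hCC (Real.sqrt_nonneg _)
  exact mul_le_mul_of_nonneg_right h1 (Real.sqrt_nonneg _)

private theorem Z1a_gr {n : ℕ} {C C' : ℝ} (hCC : C ≤ C') {μ : Measure (X d)} (h : Gr n C μ) :
    Gr n C' μ := by
  intro x r hr
  refine (h x r hr).trans (ENNReal.ofReal_le_ofReal ?_)
  exact mul_le_mul_of_nonneg_right hCC (by positivity)

/-- covering of the lower regular part for a set with growth -/
theorem piece {n : ℕ} (hn : 1 ≤ n) (hnd : n ≤ d) {G : Set (X d)} (hG : IsCompact G)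
    (hfin : Measure.hausdorffMeasure (n : ℝ) G < ⊤) {C : ℝ} (hC : 1 ≤ C)
    (hg : Gr n C ((Measure.hausdorffMeasure (n : ℝ)).restrict G)) {B : NNReal}
    (hb : Bdd n ((Measure.hausdorffMeasure (n : ℝ)).restrict G) B) (k : ℕ) :
    ∃ g : ℕ → X n → X d, (∀ i, ∃ K, LipschitzWith K (g i)) ∧
      Measure.hausdorffMeasure (n : ℝ)
        ({y ∈ G | ∀ r : ℝ, 0 < r → r ≤ 1 / (k + 1) → ENNReal.ofReal (r ^ n / (k + 1)) ≤
          (Measure.hausdorffMeasure (n : ℝ)).restrict G (closedBall y r)} \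
          ⋃ i, Set.range (g i)) = 0 := by
  have hd : 0 < d := lt_of_lt_of_le hn hnd
  have hfm : IsFiniteMeasure ((Measure.hausdorffMeasure (n : ℝ) : Measure (X d)).restrict G) :=
    ⟨by rwa [Measure.restrict_apply_univ]⟩
  have hk : (0 : ℝ) < (k : ℝ) + 1 := by positivity
  have hr₀ : (0 : ℝ) < 1 / ((k : ℝ) + 1) := by positivity
  obtain ⟨F, hFdef⟩ : ∃ F : Set (X d), F = {y ∈ G | ∀ r : ℝ, 0 < r → r ≤ 1 / ((k : ℝ) + 1) →
      ENNReal.ofReal (r ^ n / ((k : ℝ) + 1)) ≤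
        (Measure.hausdorffMeasure (n : ℝ)).restrict G (closedBall y r)} := ⟨_, rfl⟩
  have hFc : IsCompact F := by
    rw [hFdef]
    exact Z1a_closed hG _ _
  have hFG : F ⊆ G := by
    rw [hFdef]
    exact fun y hy => hy.1
  obtain ⟨C₂, hC₂, hl⟩ := hb.l2b hn (by linarith : (0 : ℝ) ≤ C) hg
  have hsupp : ((Measure.hausdorffMeasure (n : ℝ) : Measure (X d)).restrict G) Gᶜ = 0 := by
    rw [Measure.restrict_apply hG.measurableSet.compl]
    simp
  obtain ⟨g, hg1, hg2⟩ := exists_g hn (by linarith : (0 : ℝ) ≤ C) hg hC₂ hl hG hsupp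
  obtain ⟨C₁, hC₁, h1, h2, h3⟩ : ∃ C₁ : ℝ, 1 ≤ C₁ ∧ C ≤ C₁ ∧ C₂ ≤ C₁ ∧ (k : ℝ) + 1 ≤ C₁ := by
    refine ⟨C + C₂ + ((k : ℝ) + 1), ?_, ?_, ?_, ?_⟩ <;> linarith
  have hlow : ∀ y ∈ F, ∀ r : ℝ, 0 < r → r ≤ 1 / ((k : ℝ) + 1) → ENNReal.ofReal (r ^ n / C₁) ≤
      (Measure.hausdorffMeasure (n : ℝ)).restrict G (closedBall y r) := by
    intro y hy r hr hr1
    rw [hFdef] at hy
    refine le_trans (ENNReal.ofReal_le_ofReal ?_) (hy.2 r hr hr1)
    exact div_le_div_of_nonneg_left (by positivity) hk h3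
  have hS : Std n C₁ ((Measure.hausdorffMeasure (n : ℝ) : Measure (X d)).restrict G) g G F
      (1 / ((k : ℝ) + 1)) :=
    { hC := hC₁
      gr := Z1a_gr h1 hg
      l2 := Z1a_l2 h2 hl
      hK := hG
      supp := hsupp
      rep := ⟨hg1, hg2⟩
      closed := hFc
      pos := hr₀
      low := hlow }
  have hbil : ∀ᵐ x ∂(((Measure.hausdorffMeasure (n : ℝ) : Measure (X d)).restrict G).restrict F),
      ∀ η : ℝ, 0 < η → ∃ r₁ : ℝ, 0 < r₁ ∧ ∀ r : ℝ, 0 < r → r ≤ r₁ → BF n F x r η := by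
    filter_upwards [ae_good hS, liminf_flat hn hnd hS] with x hx hfl
    exact bilateral hn hnd hS hx (lim_flat hn hnd hS hx hfl)
  rw [← hFdef]
  exact criterion hn hd hC₁ hG hfin hFG hFc (Z1a_gr h1 hg) hr₀ hlow hbil

end Pool.Agent.RZ
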